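import Mathlib

/-!
# Analysis on `Γ \ G`, `G` a unimodular group: translations, unfolding
-/

set_option autoImplicit false
set_option linter.unusedSectionVars false

open MeasureTheory Measure
open scoped ENNReal Pointwise

noncomputable section

namespace Pool.Agent.T2h77.An

variable {G : Type} [Group G] [TopologicalSpace G] [IsTopologicalGroup G] [LocallyCompactSpace G]
  [SecondCountableTopology G] [T2Space G] [MeasurableSpace G] [BorelSpace G]

/-- a bi-invariant Haar measure is invariant under inversion -/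
theorem invInvariant (μ : Measure G) [μ.IsHaarMeasure] [μ.IsMulRightInvariant] : μ.IsInvInvariant := by
  obtain ⟨K, hK, hK1⟩ := exists_compact_mem_nhds (1 : G)
  set B : Set G := K ∩ K⁻¹ with hB
  have hBc : IsCompact B := hK.inter hK.inv
  have hB1 : B ∈ nhds (1 : G) := Filter.inter_mem hK1 (by
    have := inv_mem_nhds_one G hK1
    exact this)
  have hBinv : B⁻¹ = B := by rw [hB, Set.inter_inv, inv_inv, Set.inter_comm]
  have h1 : μ.inv = haarScalarFactor μ.inv μ • μ := isMulLeftInvariant_eq_smul μ.inv μ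
  have h2 : μ.inv B = μ B := by rw [Measure.inv_apply, hBinv]
  have h3 : (haarScalarFactor μ.inv μ : ℝ≥0∞) * μ B = μ B := by
    conv_rhs => rw [← h2, h1]
    rfl
  have hp : μ B ≠ 0 := (measure_pos_of_mem_nhds μ hB1).ne'
  have hf : μ B ≠ ∞ := hBc.measure_lt_top.ne
  have h4 : (haarScalarFactor μ.inv μ : ℝ≥0∞) = 1 := by
    have : (haarScalarFactor μ.inv μ : ℝ≥0∞) * μ B = 1 * μ B := by rw [h3, one_mul]
    exact (ENNReal.mul_left_inj hp hf).mp this
  have h5 : haarScalarFactor μ.inv μ = 1 := by exact_mod_cast h4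
  exact ⟨by rw [h1, h5, one_smul]⟩

variable {μ : Measure G} {Γ : Subgroup G} {𝓕 : Set G}

/-- right translations preserve integrals over `Γ \ G` -/
theorem trans [μ.IsMulRightInvariant] [μ.IsMulLeftInvariant] [Countable Γ]
    (h𝓕 : IsFundamentalDomain Γ 𝓕 μ)
    (F : G → ℝ≥0∞) (hF : ∀ γ ∈ Γ, ∀ g, F (γ * g) = F g) (h : G) :
    ∫⁻ g in 𝓕, F (g * h) ∂μ = ∫⁻ g in 𝓕, F g ∂μ := by
  have h1 : IsFundamentalDomain Γ (MulOpposite.op h • 𝓕) μ := h𝓕.smul_of_comm _
  have h2 := h𝓕.setLIntegral_eq h1 F (fun γ x => hF γ.1 γ.2 x)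
  rw [h2]
  have h3 : MeasurePreserving (fun g : G => g * h) μ μ := measurePreserving_mul_right μ h
  have h4 : MulOpposite.op h • 𝓕 = (fun g : G => g * h) '' 𝓕 := rfl
  rw [h4]
  exact (h3.setLIntegral_comp_emb (Homeomorph.mulRight h).measurableEmbedding F 𝓕)

/-- unfolding -/
theorem unfold [μ.IsMulLeftInvariant] [Countable Γ] (h𝓕 : IsFundamentalDomain Γ 𝓕 μ)
    (F : G → ℝ≥0∞) (hF : Measurable F) :
    ∫⁻ g, F g ∂μ = ∫⁻ g in 𝓕, ∑' γ : Γ, F (γ * g) ∂μ := by
  rw [h𝓕.lintegral_eq_tsum'', lintegral_tsum]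
  · rfl
  · intro γ
    exact (hF.comp (measurable_const_mul _)).aemeasurable

/-- the averaging operator for nonnegative functions -/
def Ap (μ : Measure G) (B : Set G) (F : G → ℝ≥0∞) (g : G) : ℝ≥0∞ := ∫⁻ h in B, F (g * h) ∂μ

theorem measurable_Ap [SFinite μ] (B : Set G) {F : G → ℝ≥0∞} (hF : Measurable F) :
    Measurable (Ap μ B F) := by
  unfold Ap
  exact Measurable.lintegral_prod_right' (f := fun p : G × G => F (p.1 * p.2)) (by fun_prop)

theorem Ap_inv {F : G → ℝ≥0∞} (hF : ∀ γ ∈ Γ, ∀ g, F (γ * g) = F g) (B : Set G) :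
    ∀ γ ∈ Γ, ∀ g, Ap μ B F (γ * g) = Ap μ B F g := by
  intro γ hγ g
  unfold Ap
  simp only [mul_assoc, hF γ hγ]

/-- the kernel of the square of the averaging operator -/
def kk (μ : Measure G) (B : Set G) (h : G) : ℝ≥0∞ := μ (B ∩ (fun x => h * x) '' B)

/-- Pointwise bound for the averages of an invariant function (the pre-trace inequality). -/
theorem bessel [μ.IsMulLeftInvariant] [SFinite μ] [Countable Γ]
    (h𝓕 : IsFundamentalDomain Γ 𝓕 μ) {B : Set G} (hB : MeasurableSet B) {F : G → ℝ≥0∞}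
    (hFm : Measurable F) (hF : ∀ γ ∈ Γ, ∀ g, F (γ * g) = F g) (g : G) :
    Ap μ B F g ^ 2 ≤ (∑' γ : Γ, kk μ B (g⁻¹ * γ * g)) * ∫⁻ x in 𝓕, F x ^ 2 ∂μ := by
  classical
  set b : G → ℝ≥0∞ := B.indicator 1 with hb
  have hbm : Measurable b := measurable_one.indicator hB
  have hbg : Measurable fun x : G => b (g⁻¹ * x) := hbm.comp (measurable_const_mul _)
  set P : G → ℝ≥0∞ := fun x => ∑' γ : Γ, b (g⁻¹ * (γ * x)) with hP
  have hPm : Measurable P := Measurable.tsum fun γ =>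
    hbg.comp (measurable_const_mul _)
  have hPinv : ∀ γ ∈ Γ, ∀ x, P (γ * x) = P x := by
    intro γ hγ x
    rw [hP]
    simp only
    rw [← (Equiv.mulRight (⟨γ, hγ⟩ : Γ)).tsum_eq (fun δ : Γ => b (g⁻¹ * (δ * x)))]
    refine tsum_congr fun δ => ?_
    simp only [Equiv.coe_mulRight, Subgroup.coe_mul, mul_assoc]
  -- the average as an integral over `Γ \ G`
  have h1 : Ap μ B F g = ∫⁻ x in 𝓕, F x * P x ∂μ := by
    have e1 : Ap μ B F g = ∫⁻ x, F x * b (g⁻¹ * x) ∂μ := by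
      unfold Ap
      rw [← lintegral_indicator hB]
      rw [← lintegral_mul_left_eq_self (μ := μ) (fun x => F x * b (g⁻¹ * x)) g]
      refine lintegral_congr fun h => ?_
      rw [inv_mul_cancel_left, hb]
      by_cases hh : h ∈ B
      · simp [Set.indicator_of_mem hh]
      · simp [Set.indicator_of_notMem hh]
    rw [e1, unfold h𝓕 (fun x => F x * b (g⁻¹ * x)) (hFm.mul hbg)]
    refine lintegral_congr fun x => ?_
    rw [hP]
    simp only
    rw [← ENNReal.tsum_mul_left]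
    refine tsum_congr fun γ => ?_
    rw [hF γ.1 γ.2]
  -- the square integral of `P`
  have h2 : ∫⁻ x in 𝓕, P x ^ 2 ∂μ = ∑' γ : Γ, kk μ B (g⁻¹ * γ * g) := by
    have e1 : ∫⁻ x in 𝓕, P x ^ 2 ∂μ = ∫⁻ x, b (g⁻¹ * x) * P x ∂μ := by
      rw [unfold h𝓕 (fun x => b (g⁻¹ * x) * P x) (hbg.mul hPm)]
      refine lintegral_congr fun x => ?_
      simp only [hPinv _ (Subtype.prop _)]
      rw [ENNReal.tsum_mul_right, sq]
    rw [e1]
    have e2 : ∀ x, b (g⁻¹ * x) * P x = ∑' γ : Γ, b (g⁻¹ * x) * b (g⁻¹ * (γ * x)) := fun x => by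
      rw [hP]; simp only; rw [ENNReal.tsum_mul_left]
    simp only [e2]
    rw [lintegral_tsum (f := fun (γ : Γ) (x : G) => b (g⁻¹ * x) * b (g⁻¹ * (γ * x)))
      fun γ => (hbg.mul (hbg.comp (measurable_const_mul (γ : G)))).aemeasurable]
    rw [← (Equiv.inv Γ).tsum_eq]
    refine tsum_congr fun γ => ?_
    rw [← lintegral_mul_left_eq_self (μ := μ) _ g]
    have e3 : ∀ x : G, b (g⁻¹ * (g * x)) * b (g⁻¹ * (((Equiv.inv Γ γ : Γ) : G) * (g * x))) =
        (B ∩ (fun x => g⁻¹ * γ * g * x) '' B).indicator 1 x := by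
      intro x
      rw [inv_mul_cancel_left]
      have e4 : x ∈ (fun x => g⁻¹ * (γ : G) * g * x) '' B ↔
          g⁻¹ * (((Equiv.inv Γ γ : Γ) : G) * (g * x)) ∈ B := by
        constructor
        · rintro ⟨y, hy, rfl⟩
          have : g⁻¹ * (((Equiv.inv Γ γ : Γ) : G) * (g * (g⁻¹ * (γ : G) * g * y))) = y := by
            simp only [Equiv.inv_apply, Subgroup.coe_inv]
            group
          rw [this]; exact hy
        · intro hy
          refine ⟨_, hy, ?_⟩
          simp only [Equiv.inv_apply, Subgroup.coe_inv]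
          group
      by_cases h1 : x ∈ B
      · by_cases h2 : g⁻¹ * (((Equiv.inv Γ γ : Γ) : G) * (g * x)) ∈ B
        · have h12 : x ∈ B ∩ (fun x => g⁻¹ * (γ : G) * g * x) '' B := ⟨h1, e4.2 h2⟩
          rw [Set.indicator_of_mem h12, hb, Set.indicator_of_mem h1, Set.indicator_of_mem h2]
          simp
        · rw [Set.indicator_of_notMem (fun h => h2 (e4.1 h.2)), hb, Set.indicator_of_notMem h2,
            mul_zero]
      · rw [Set.indicator_of_notMem (fun h => h1 h.1), hb, Set.indicator_of_notMem h1, zero_mul]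
    simp only [e3]
    have hmeas : MeasurableSet (B ∩ (fun x => g⁻¹ * (γ : G) * g * x) '' B) :=
      hB.inter ((Homeomorph.mulLeft (g⁻¹ * (γ : G) * g)).measurableEmbedding.measurableSet_image.2 hB)
    rw [lintegral_indicator_one hmeas]
    rfl
  rw [h1, ← h2]
  -- Cauchy-Schwarz
  have h3 := ENNReal.lintegral_mul_le_Lp_mul_Lq (μ.restrict 𝓕) (Real.HolderConjugate.two_two)
    hFm.aemeasurable hPm.aemeasurable
  simp only [Pi.mul_apply, ENNReal.rpow_ofNat] at h3
  calc (∫⁻ x in 𝓕, F x * P x ∂μ) ^ 2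
      ≤ ((∫⁻ x in 𝓕, F x ^ 2 ∂μ) ^ (1 / 2 : ℝ) * (∫⁻ x in 𝓕, P x ^ 2 ∂μ) ^ (1 / 2 : ℝ)) ^ 2 := by
        gcongr
    _ = (∫⁻ x in 𝓕, P x ^ 2 ∂μ) * ∫⁻ x in 𝓕, F x ^ 2 ∂μ := by
        rw [mul_pow, ← ENNReal.rpow_natCast, ← ENNReal.rpow_natCast, ← ENNReal.rpow_mul,
          ← ENNReal.rpow_mul]
        norm_num
        rw [mul_comm]

end Pool.Agent.T2h77.An
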