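import Pool.Agent.T2h77.Stm

/-!
# Divisors, square roots of one and units modulo an ideal
-/

set_option autoImplicit false

open NumberField NumberField.mixedEmbedding MeasureTheory Matrix
open scoped MatrixGroups ENNReal

noncomputable section

namespace Pool.Agent.T2h77

open UniqueFactorizationMonoid in
/-- the ideals of the quotient are counted by the submultisets of the factorisation -/
lemma card_ideal_le {K : Type} [Field K] [NumberField K] (𝔫 : Ideal (𝓞 K)) (h : 𝔫 ≠ ⊥) :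
    Nat.card (Ideal (𝓞 K ⧸ 𝔫)) ≤
      ∏ P ∈ (normalizedFactors 𝔫).toFinset, ((normalizedFactors 𝔫).count P + 1) := by
  classical
  rw [← Multiset.card_Iic]
  have h1 : ∀ I : Ideal (𝓞 K ⧸ 𝔫), I.comap (Ideal.Quotient.mk 𝔫) ≠ ⊥ := by
    intro I hI
    apply h
    rw [← le_bot_iff, ← hI]
    intro x hx
    rw [Ideal.mem_comap, Ideal.Quotient.eq_zero_iff_mem.2 hx]
    exact I.zero_mem
  have h2 : ∀ I : Ideal (𝓞 K ⧸ 𝔫), 𝔫 ≤ I.comap (Ideal.Quotient.mk 𝔫) := by
    intro I x hx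
    rw [Ideal.mem_comap, Ideal.Quotient.eq_zero_iff_mem.2 hx]
    exact I.zero_mem
  have h3 : ∀ I : Ideal (𝓞 K ⧸ 𝔫), normalizedFactors (I.comap (Ideal.Quotient.mk 𝔫)) ∈
      Finset.Iic (normalizedFactors 𝔫) := by
    intro I
    rw [Finset.mem_Iic]
    exact (dvd_iff_normalizedFactors_le_normalizedFactors (h1 I) h).1 (Ideal.dvd_iff_le.2 (h2 I))
  have h4 := Nat.card_le_card_of_injective
    (fun I : Ideal (𝓞 K ⧸ 𝔫) => (⟨_, h3 I⟩ : Finset.Iic (normalizedFactors 𝔫))) (by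
      intro I J hIJ
      simp only [Subtype.mk.injEq] at hIJ
      have h5 := congrArg Multiset.prod hIJ
      rw [Ideal.prod_normalizedFactors_eq_self (h1 I), Ideal.prod_normalizedFactors_eq_self (h1 J)]
        at h5
      exact Ideal.comap_injective_of_surjective _ Ideal.Quotient.mk_surjective h5)
  refine h4.trans_eq ?_
  rw [Nat.card_eq_fintype_card, Fintype.card_coe]

/-- some positive power of an element of a finite monoid is idempotent -/
lemma exists_idem {A : Type} [CommRing A] [Finite A] (x : A) :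
    ∃ n : ℕ, 0 < n ∧ IsIdempotentElem (x ^ n) := by
  obtain ⟨i, j, hij, he⟩ := Finite.exists_ne_map_eq_of_infinite (fun n : ℕ => x ^ n)
  wlog hlt : i < j generalizing i j
  · exact this j i hij.symm he.symm (by omega)
  obtain ⟨p, rfl⟩ : ∃ p, j = i + p := ⟨j - i, by omega⟩
  have hp : 0 < p := by omega
  have h1 : ∀ m, i ≤ m → x ^ m = x ^ (m + p) := by
    intro m hm
    obtain ⟨q, rfl⟩ : ∃ q, m = i + q := ⟨m - i, by omega⟩
    have he' : x ^ i = x ^ (i + p) := he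
    rw [show i + q + p = (i + p) + q by ring, pow_add x (i + p), ← he', pow_add]
  have h2 : ∀ k m, i ≤ m → x ^ m = x ^ (m + k * p) := by
    intro k
    induction k with
    | zero => intro m _; simp
    | succ k ih =>
      intro m hm
      rw [ih m hm, h1 (m + k * p) (by omega)]
      congr 1
      ring
  refine ⟨(i + 1) * p, by positivity, ?_⟩
  have h3 : i ≤ (i + 1) * p := by nlinarith
  show x ^ ((i + 1) * p) * x ^ ((i + 1) * p) = x ^ ((i + 1) * p)
  rw [← pow_add]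
  exact (h2 (i + 1) _ h3).symm

/-- the two torsion of a finite commutative ring -/
lemma card_two_torsion (A : Type) [CommRing A] [Finite A] :
    Nat.card {x : A // 2 * x = 0} = Nat.card (A ⧸ Ideal.span {(2 : A)}) := by
  obtain ⟨f, hf⟩ : ∃ f : A →+ A, f = AddMonoidHom.mulLeft 2 := ⟨_, rfl⟩
  have h1 : Nat.card {x : A // 2 * x = 0} = Nat.card f.ker := by
    refine Nat.card_congr (Equiv.subtypeEquivRight fun x => ?_)
    rw [AddMonoidHom.mem_ker, hf]
    rfl
  have h2 : f.range = (Ideal.span {(2 : A)}).toAddSubgroup := by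
    ext x
    rw [AddMonoidHom.mem_range, Submodule.mem_toAddSubgroup, Ideal.mem_span_singleton]
    constructor
    · rintro ⟨y, rfl⟩
      exact ⟨y, by rw [hf]; rfl⟩
    · rintro ⟨y, rfl⟩
      exact ⟨y, by rw [hf]; rfl⟩
  have h3 : Nat.card f.ker * Nat.card f.range = Nat.card A := by
    rw [← AddSubgroup.index_ker, AddSubgroup.card_mul_index]
  have h4 : Nat.card f.range * Nat.card (A ⧸ Ideal.span {(2 : A)}) = Nat.card A := by
    rw [h2]
    exact AddSubgroup.card_mul_index (Ideal.span {(2 : A)}).toAddSubgroup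
  have h5 : 0 < Nat.card f.range := Nat.card_pos
  rw [h1]
  apply Nat.eq_of_mul_eq_mul_right h5
  rw [h3, mul_comm, h4]

lemma exp_lin (ε : ℝ) (hε : 0 < ε) : ∃ C : ℝ, 1 ≤ C ∧ ∀ e : ℕ,
    ((e : ℝ) + 1) ≤ C * (2 : ℝ) ^ (ε * e) := by
  have hl : 0 < Real.log 2 := Real.log_pos (by norm_num)
  refine ⟨max 1 (1 / (ε * Real.log 2)), le_max_left _ _, fun e => ?_⟩
  have h1 : (2 : ℝ) ^ (ε * e) = Real.exp (ε * Real.log 2 * e) := by
    rw [Real.rpow_def_of_pos (by norm_num)]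
    congr 1
    ring
  have h2 : ε * Real.log 2 * e + 1 ≤ (2 : ℝ) ^ (ε * e) := by
    rw [h1]
    exact Real.add_one_le_exp _
  have h3 : 0 ≤ ε * Real.log 2 * e := by positivity
  have h4 : (1 : ℝ) ≤ max 1 (1 / (ε * Real.log 2)) := le_max_left _ _
  have h5 : 1 / (ε * Real.log 2) ≤ max 1 (1 / (ε * Real.log 2)) := le_max_right _ _
  have h6 : (e : ℝ) ≤ max 1 (1 / (ε * Real.log 2)) * (ε * Real.log 2 * e) := by
    calc (e : ℝ) = 1 / (ε * Real.log 2) * (ε * Real.log 2 * e) := by field_simp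
      _ ≤ _ := mul_le_mul_of_nonneg_right h5 h3
  calc (e : ℝ) + 1 ≤ max 1 (1 / (ε * Real.log 2)) * (ε * Real.log 2 * e) +
        max 1 (1 / (ε * Real.log 2)) := add_le_add h6 h4
    _ = max 1 (1 / (ε * Real.log 2)) * (ε * Real.log 2 * e + 1) := by ring
    _ ≤ _ := mul_le_mul_of_nonneg_left h2 (by positivity)

open UniqueFactorizationMonoid in
theorem sdiv : S_div := by
  intro K _ _ ε hε
  classical
  obtain ⟨C, hC1, hC⟩ := exp_lin ε hε
  obtain ⟨B, hB⟩ : ∃ B : ℕ, (2 : ℝ) ^ (1 / ε) ≤ B := exists_nat_ge _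
  obtain ⟨T, hT⟩ : ∃ T : Finset (Ideal (𝓞 K)), ∀ I, Ideal.absNorm I ≤ B → I ∈ T := by
    have hfin := Ideal.finite_setOfPred_absNorm_le (S := 𝓞 K) B
    exact ⟨hfin.toFinset, fun I hI => by simpa using hI⟩
  refine ⟨C ^ T.card, by positivity, fun 𝔫 h𝔫 => ?_⟩
  obtain ⟨s, hs⟩ : ∃ s, s = normalizedFactors 𝔫 := ⟨_, rfl⟩
  have h1 : (Nat.card (Ideal (𝓞 K ⧸ 𝔫)) : ℝ) ≤ ∏ P ∈ s.toFinset, ((s.count P : ℝ) + 1) := by
    have := card_ideal_le 𝔫 h𝔫
    rw [← hs] at this
    exact_mod_cast this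
  have h2 : (Ideal.absNorm 𝔫 : ℝ) = ∏ P ∈ s.toFinset, (Ideal.absNorm P : ℝ) ^ (s.count P) := by
    conv_lhs => rw [← Ideal.prod_normalizedFactors_eq_self h𝔫, ← hs, Finset.prod_multiset_count]
    rw [map_prod]
    push_cast [map_pow]
    rfl
  have hprime : ∀ P ∈ s.toFinset, 2 ≤ Ideal.absNorm P := by
    intro P hP
    rw [Multiset.mem_toFinset, hs] at hP
    have hp := prime_of_normalized_factor P hP
    have h3 : Ideal.absNorm P ≠ 0 := by
      rw [Ne, Ideal.absNorm_eq_zero_iff]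
      exact hp.ne_zero
    have h4 : Ideal.absNorm P ≠ 1 := by
      rw [Ne, Ideal.absNorm_eq_one_iff]
      intro h
      exact hp.not_unit (by rw [h, ← Ideal.one_eq_top]; exact isUnit_one)
    omega
  have h3 : ∀ P ∈ s.toFinset, ((s.count P : ℝ) + 1) ≤
      (if P ∈ T then C else 1) * ((Ideal.absNorm P : ℝ) ^ (s.count P)) ^ ε := by
    intro P hP
    have h4 : (2 : ℝ) ≤ Ideal.absNorm P := by exact_mod_cast hprime P hP
    have h5 : ((Ideal.absNorm P : ℝ) ^ (s.count P)) ^ ε =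
        (Ideal.absNorm P : ℝ) ^ (ε * s.count P) := by
      rw [← Real.rpow_natCast, ← Real.rpow_mul (by positivity), mul_comm]
    rw [h5]
    split_ifs with h6
    · refine (hC _).trans ?_
      exact mul_le_mul_of_nonneg_left (Real.rpow_le_rpow (by norm_num) h4 (by positivity))
        (by positivity)
    · have h7 : (B : ℝ) < Ideal.absNorm P := by
        by_contra h
        push Not at h
        exact h6 (hT P (by exact_mod_cast h))
      have h8 : (2 : ℝ) ≤ (Ideal.absNorm P : ℝ) ^ ε := by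
        calc (2 : ℝ) = ((2 : ℝ) ^ (1 / ε)) ^ ε := by
              rw [← Real.rpow_mul (by norm_num), one_div, inv_mul_cancel₀ hε.ne', Real.rpow_one]
          _ ≤ _ := Real.rpow_le_rpow (by positivity) (hB.trans h7.le) hε.le
      rw [one_mul, Real.rpow_mul (by positivity), Real.rpow_natCast]
      have h9 : ((s.count P : ℝ) + 1) ≤ (2 : ℝ) ^ (s.count P) := by
        have := Nat.lt_two_pow_self (n := s.count P)
        exact_mod_cast this
      exact h9.trans (pow_le_pow_left₀ (by norm_num) h8 _)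
  refine h1.trans ((Finset.prod_le_prod (fun P _ => by positivity) h3).trans ?_)
  rw [Finset.prod_mul_distrib, h2, ← Real.finset_prod_rpow _ _ (fun P _ => by positivity)]
  refine mul_le_mul_of_nonneg_right ?_ (Finset.prod_nonneg fun P _ => by positivity)
  rw [Finset.prod_ite, Finset.prod_const, Finset.prod_const_one, mul_one]
  refine pow_le_pow_right₀ hC1 (Finset.card_le_card ?_)
  intro P hP
  exact (Finset.mem_filter.1 hP).2

/-- in a finite commutative ring elements generating the same ideal are associated -/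
lemma assoc_of_dvd {A : Type} [CommRing A] [Finite A] (a b : A)
    (h : Ideal.span {a} = Ideal.span {b}) : ∃ u : Aˣ, a = b * u := by
  have h1 : b ∣ a := by
    rw [← Ideal.mem_span_singleton, ← h]
    exact Ideal.mem_span_singleton_self a
  have h2 : a ∣ b := by
    rw [← Ideal.mem_span_singleton, h]
    exact Ideal.mem_span_singleton_self b
  obtain ⟨c, hc⟩ := h1
  obtain ⟨d, hd⟩ := h2
  obtain ⟨n, hn, he⟩ := exists_idem (c * d)
  obtain ⟨e, hee⟩ : ∃ e, e = (c * d) ^ n := ⟨_, rfl⟩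
  rw [← hee] at he
  have hae : ∀ k, a = a * (c * d) ^ k := by
    intro k
    induction k with
    | zero => simp
    | succ k ih =>
      rw [pow_succ, ← mul_assoc, ← ih]
      calc a = b * c := hc
        _ = a * d * c := by rw [← hd]
        _ = a * (c * d) := by ring
  have hae' : a = a * e := by rw [hee]; exact hae n
  obtain ⟨m, rfl⟩ : ∃ m, n = m + 1 := ⟨n - 1, by omega⟩
  have hee' : e * e = e := he
  have hce : c * (c ^ m * d ^ (m + 1)) = e := by
    rw [hee]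
    ring
  refine ⟨⟨c * e + (1 - e), c ^ m * d ^ (m + 1) * e + (1 - e), ?_, ?_⟩, ?_⟩
  · calc (c * e + (1 - e)) * (c ^ m * d ^ (m + 1) * e + (1 - e)) =
        (c * (c ^ m * d ^ (m + 1))) * (e * e) + (c + c ^ m * d ^ (m + 1)) * (e - e * e) +
          (1 - 2 * e + e * e) := by ring
      _ = 1 := by rw [hce, hee', hee']; ring
  · calc (c ^ m * d ^ (m + 1) * e + (1 - e)) * (c * e + (1 - e)) =
        (c * (c ^ m * d ^ (m + 1))) * (e * e) + (c + c ^ m * d ^ (m + 1)) * (e - e * e) +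
          (1 - 2 * e + e * e) := by ring
      _ = 1 := by rw [hce, hee', hee']; ring
  · have hbe : b * e = b := by
      rw [hd, mul_right_comm, ← hae']
    calc a = a * e := hae'
      _ = b * c * e := by rw [← hc]
      _ = b * c * e + (b - b * e) := by rw [hbe]; ring
      _ = b * (c * e + (1 - e)) := by ring

/-- the number of elements of a finite ring is at most the number of ideals times the number of
units -/
lemma card_le_ideal_mul_units (A : Type) [CommRing A] [Finite A] :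
    Nat.card A ≤ Nat.card (Ideal A) * Nat.card Aˣ := by
  classical
  have : Finite (Ideal A) := Finite.of_injective (fun I : Ideal A => (I : Set A)) SetLike.coe_injective
  have h1 : ∀ I : Ideal A, ∃ b : A, (∃ a, Ideal.span {a} = I) → Ideal.span {b} = I := by
    intro I
    by_cases h : ∃ a, Ideal.span {a} = I
    · obtain ⟨a, ha⟩ := h
      exact ⟨a, fun _ => ha⟩
    · exact ⟨0, fun h' => (h h').elim⟩
  choose b hb using h1
  have h2 : ∀ a : A, ∃ u : Aˣ, a = b (Ideal.span {a}) * u := fun a =>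
    assoc_of_dvd _ _ (hb _ ⟨a, rfl⟩).symm
  choose u hu using h2
  rw [← Nat.card_prod]
  refine Nat.card_le_card_of_injective (fun a => (Ideal.span {a}, u a)) ?_
  intro a a' h
  simp only [Prod.mk.injEq] at h
  rw [hu a, hu a', h.1, h.2]

theorem sunit : S_unit := by
  intro K _ _ ε hε
  obtain ⟨C, hC, h⟩ := sdiv K ε hε
  refine ⟨C, hC, fun 𝔫 h𝔫 => ?_⟩
  have : Finite (𝓞 K ⧸ 𝔫) := Ideal.finiteQuotientOfFreeOfNeBot _ h𝔫
  have h1 := card_le_ideal_mul_units (𝓞 K ⧸ 𝔫)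
  have h2 : (Ideal.absNorm 𝔫 : ℝ) = Nat.card (𝓞 K ⧸ 𝔫) := by
    rw [Ideal.absNorm_apply, Submodule.cardQuot_apply]
  have h3 : (Nat.card (𝓞 K ⧸ 𝔫) : ℝ) ≤ Nat.card (Ideal (𝓞 K ⧸ 𝔫)) * Nat.card (𝓞 K ⧸ 𝔫)ˣ := by
    exact_mod_cast h1
  calc (Ideal.absNorm 𝔫 : ℝ) = Nat.card (𝓞 K ⧸ 𝔫) := h2
    _ ≤ Nat.card (Ideal (𝓞 K ⧸ 𝔫)) * Nat.card (𝓞 K ⧸ 𝔫)ˣ := h3
    _ ≤ _ := mul_le_mul_of_nonneg_right (h 𝔫 h𝔫) (by positivity)

/-- square roots of one in a finite commutative ring -/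
lemma card_sqrt_le (A : Type) [CommRing A] [Finite A] :
    Nat.card {u : A // u ^ 2 = 1} ≤ Nat.card (Ideal A) * Nat.card {x : A // 2 * x = 0} := by
  classical
  have : Finite (Ideal A) := Finite.of_injective (fun I : Ideal A => (I : Set A)) SetLike.coe_injective
  have h1 : ∀ I : Ideal A, ∃ b : A, (∃ a : A, a ^ 2 = 1 ∧ Ideal.span {a - 1} = I) →
      b ^ 2 = 1 ∧ Ideal.span {b - 1} = I := by
    intro I
    by_cases h : ∃ a : A, a ^ 2 = 1 ∧ Ideal.span {a - 1} = I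
    · obtain ⟨a, ha⟩ := h
      exact ⟨a, fun _ => ha⟩
    · exact ⟨0, fun h' => (h h').elim⟩
  choose b hb using h1
  have key : ∀ a : {u : A // u ^ 2 = 1}, 2 * (a.1 - b (Ideal.span {a.1 - 1})) = 0 := by
    intro a
    obtain ⟨h2, h3⟩ := hb _ ⟨a.1, a.2, rfl⟩
    obtain ⟨b', hb'⟩ : ∃ b', b' = b (Ideal.span {a.1 - 1}) := ⟨_, rfl⟩
    rw [← hb'] at h2 h3 ⊢
    have h4 : b' - 1 ∣ a.1 - 1 := by
      rw [← Ideal.mem_span_singleton, h3]
      exact Ideal.mem_span_singleton_self _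
    have h5 : a.1 - 1 ∣ b' - 1 := by
      rw [← Ideal.mem_span_singleton, ← h3]
      exact Ideal.mem_span_singleton_self _
    obtain ⟨c, hc⟩ := h4
    obtain ⟨d, hd⟩ := h5
    have ha2 := a.2
    -- (b' + 1) (a - 1) = 0 and (a + 1) (b' - 1) = 0
    have e1 : (b' + 1) * (a.1 - 1) = 0 := by
      rw [hc]
      linear_combination c * h2
    have e2 : (a.1 + 1) * (b' - 1) = 0 := by
      rw [hd]
      linear_combination d * ha2
    linear_combination e1 - e2
  rw [← Nat.card_prod]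
  refine Nat.card_le_card_of_injective
    (fun a : {u : A // u ^ 2 = 1} => (Ideal.span {a.1 - 1}, (⟨_, key a⟩ : {x : A // 2 * x = 0}))) ?_
  intro a a' h
  simp only [Prod.mk.injEq, Subtype.mk.injEq] at h
  obtain ⟨h2, h3⟩ := h
  apply Subtype.ext
  rw [h2] at h3
  exact sub_left_injective h3

theorem ssqrt : S_sqrt := by
  intro K _ _ ε hε
  obtain ⟨C, hC, h⟩ := sdiv K ε hε
  have hfin2 : Finite (𝓞 K ⧸ Ideal.span {(2 : 𝓞 K)}) := Ideal.finiteQuotientOfFreeOfNeBot _ (by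
    rw [Ne, Ideal.span_singleton_eq_bot]
    exact two_ne_zero)
  refine ⟨C * (Nat.card (𝓞 K ⧸ Ideal.span {(2 : 𝓞 K)})), ?_, fun 𝔫 h𝔫 => ?_⟩
  · have : 0 < Nat.card (𝓞 K ⧸ Ideal.span {(2 : 𝓞 K)}) := Nat.card_pos
    positivity
  have : Finite (𝓞 K ⧸ 𝔫) := Ideal.finiteQuotientOfFreeOfNeBot _ h𝔫
  have h1 := card_sqrt_le (𝓞 K ⧸ 𝔫)
  have h2 : Nat.card {x : 𝓞 K ⧸ 𝔫 // 2 * x = 0} ≤ Nat.card (𝓞 K ⧸ Ideal.span {(2 : 𝓞 K)}) := by
    rw [card_two_torsion]
    have hle : Ideal.span {(2 : 𝓞 K)} ≤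
        (Ideal.span {(2 : 𝓞 K ⧸ 𝔫)}).comap (Ideal.Quotient.mk 𝔫) := by
      rw [Ideal.span_singleton_le_iff_mem, Ideal.mem_comap, map_ofNat]
      exact Ideal.mem_span_singleton_self _
    exact Nat.card_le_card_of_surjective
      (Ideal.quotientMap (Ideal.span {(2 : 𝓞 K ⧸ 𝔫)}) (Ideal.Quotient.mk 𝔫) hle)
      (Ideal.quotientMap_surjective Ideal.Quotient.mk_surjective)
  have h3 : (Nat.card {u : 𝓞 K ⧸ 𝔫 // u ^ 2 = 1} : ℝ) ≤
      Nat.card (Ideal (𝓞 K ⧸ 𝔫)) * Nat.card {x : 𝓞 K ⧸ 𝔫 // 2 * x = 0} := by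
    exact_mod_cast h1
  have h4 := h 𝔫 h𝔫
  have h5 : (Nat.card {x : 𝓞 K ⧸ 𝔫 // 2 * x = 0} : ℝ) ≤
      Nat.card (𝓞 K ⧸ Ideal.span {(2 : 𝓞 K)}) := by exact_mod_cast h2
  calc (Nat.card {u : 𝓞 K ⧸ 𝔫 // u ^ 2 = 1} : ℝ) ≤ _ := h3
    _ ≤ (C * (Ideal.absNorm 𝔫 : ℝ) ^ ε) * Nat.card (𝓞 K ⧸ Ideal.span {(2 : 𝓞 K)}) :=
        mul_le_mul h4 h5 (by positivity) (by positivity)
    _ = _ := by ring

end Pool.Agent.T2h77
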