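import Pool.Agent.T2h77.Stm

/-!
# `SL₂(K ⊗ ℝ)` is unimodular
-/

set_option autoImplicit false

open NumberField NumberField.mixedEmbedding MeasureTheory Matrix
open scoped MatrixGroups ENNReal

noncomputable section

namespace Pool.Agent.T2h77

namespace VolPkg

section elem

variable {A : Type} [CommRing A]

lemma m00 (g h : SL(2, A)) : (g * h) 0 0 = g 0 0 * h 0 0 + g 0 1 * h 1 0 := by
  simp [Matrix.mul_apply, Fin.sum_univ_two]
lemma m01 (g h : SL(2, A)) : (g * h) 0 1 = g 0 0 * h 0 1 + g 0 1 * h 1 1 := by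
  simp [Matrix.mul_apply, Fin.sum_univ_two]
lemma m10 (g h : SL(2, A)) : (g * h) 1 0 = g 1 0 * h 0 0 + g 1 1 * h 1 0 := by
  simp [Matrix.mul_apply, Fin.sum_univ_two]
lemma m11 (g h : SL(2, A)) : (g * h) 1 1 = g 1 0 * h 0 1 + g 1 1 * h 1 1 := by
  simp [Matrix.mul_apply, Fin.sum_univ_two]

lemma ext4 (g h : SL(2, A)) (h00 : g 0 0 = h 0 0) (h01 : g 0 1 = h 0 1) (h10 : g 1 0 = h 1 0)
    (h11 : g 1 1 = h 1 1) : g = h := by
  apply Matrix.SpecialLinearGroup.ext
  intro i j
  fin_cases i <;> fin_cases j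
  · exact h00
  · exact h01
  · exact h10
  · exact h11

lemma det2 (g : SL(2, A)) : g 0 0 * g 1 1 - g 0 1 * g 1 0 = 1 := by
  have := g.2
  rwa [Matrix.det_fin_two] at this

@[simp] lemma nU00 (x : A) : (nU x) 0 0 = 1 := rfl
@[simp] lemma nU01 (x : A) : (nU x) 0 1 = x := rfl
@[simp] lemma nU10 (x : A) : (nU x) 1 0 = 0 := rfl
@[simp] lemma nU11 (x : A) : (nU x) 1 1 = 1 := rfl
@[simp] lemma nL00 (x : A) : (nL x) 0 0 = 1 := rfl
@[simp] lemma nL01 (x : A) : (nL x) 0 1 = 0 := rfl
@[simp] lemma nL10 (x : A) : (nL x) 1 0 = x := rfl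
@[simp] lemma nL11 (x : A) : (nL x) 1 1 = 1 := rfl
@[simp] lemma tD00 (u : Aˣ) : (tD u) 0 0 = u := rfl
@[simp] lemma tD01 (u : Aˣ) : (tD u) 0 1 = 0 := rfl
@[simp] lemma tD10 (u : Aˣ) : (tD u) 1 0 = 0 := rfl
@[simp] lemma tD11 (u : Aˣ) : (tD u) 1 1 = ((u⁻¹ : Aˣ) : A) := rfl

/-- a matrix of determinant one with a unit in the first position -/
lemma ldu (g : SL(2, A)) (u : Aˣ) (hu : g 0 0 = u) :
    g = nL (((u⁻¹ : Aˣ) : A) * g 1 0) * tD u * nU (((u⁻¹ : Aˣ) : A) * g 0 1) := by
  have hdet := det2 g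
  have hu1 : (u : A) * ((u⁻¹ : Aˣ) : A) = 1 := u.mul_inv
  rw [hu] at hdet
  apply ext4 <;> simp only [m00, m01, m10, m11, nU00, nU01, nU10, nU11, nL00, nL01, nL10, nL11, tD00, tD01,
    tD10, tD11]
  · rw [hu]; ring
  · linear_combination (-(g 0 1)) * hu1
  · linear_combination (-(g 1 0)) * hu1
  · linear_combination (-(g 1 1) - ((u⁻¹ : Aˣ) : A) * g 1 0 * g 0 1) * hu1 + ((u⁻¹ : Aˣ) : A) * hdet

lemma tD_eq (u : Aˣ) : tD u = nU (u : A) * nL (-((u⁻¹ : Aˣ) : A)) * nU (u : A) *
    (nU (-1) * nL 1 * nU (-1)) := by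
  have hu1 : (u : A) * ((u⁻¹ : Aˣ) : A) = 1 := u.mul_inv
  apply ext4 <;> simp only [m00, m01, m10, m11, nU00, nU01, nU10, nU11, nL00, nL01, nL10, nL11, tD00, tD01,
    tD10, tD11]
  · linear_combination (u : A) * hu1
  · linear_combination (-1 : A) * hu1
  · linear_combination (1 : A) * hu1
  · linear_combination (0 : A) * hu1

lemma nU_add (x y : A) : nU x * nU y = nU (x + y) := by
  apply ext4 <;> simp only [m00, m01, m10, m11, nU00, nU01, nU10, nU11] <;> ring

lemma nL_add (x y : A) : nL x * nL y = nL (x + y) := by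
  apply ext4 <;> simp only [m00, m01, m10, m11, nL00, nL01, nL10, nL11] <;> ring

lemma nU_zero : nU (0 : A) = 1 := by
  apply ext4 <;> simp

lemma nL_zero : nL (0 : A) = 1 := by
  apply ext4 <;> simp

lemma tD_nU (u : Aˣ) (x : A) : tD u * nU x * tD u⁻¹ = nU ((u : A) ^ 2 * x) := by
  have hu1 : (u : A) * ((u⁻¹ : Aˣ) : A) = 1 := u.mul_inv
  apply ext4 <;> simp only [m00, m01, m10, m11, nU00, nU01, nU10, nU11, tD00, tD01,
    tD10, tD11, inv_inv]
  · linear_combination hu1
  · ring
  · ring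
  · linear_combination hu1

lemma tD_nL (u : Aˣ) (x : A) : tD u⁻¹ * nL x * tD u = nL ((u : A) ^ 2 * x) := by
  have hu1 : (u : A) * ((u⁻¹ : Aˣ) : A) = 1 := u.mul_inv
  apply ext4 <;> simp only [m00, m01, m10, m11, nL00, nL01, nL10, nL11, tD00, tD01,
    tD10, tD11, inv_inv]
  · linear_combination hu1
  · ring
  · ring
  · linear_combination hu1

lemma tD_inv_mul (u : Aˣ) : tD u * tD u⁻¹ = 1 := by
  have hu1 : (u : A) * ((u⁻¹ : Aˣ) : A) = 1 := u.mul_inv
  apply ext4 <;> simp only [m00, m01, m10, m11, tD00, tD01,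
    tD10, tD11, inv_inv] <;> simp

/-- a homomorphism to a commutative monoid is trivial, if `3` and `2` are invertible and
every first column can be moved to one with a unit -/
lemma hom_trivial {M : Type} [CommMonoid M] (χ : SL(2, A) →* M) (two : Aˣ) (h2 : (two : A) = 2)
    (third : A) (h3 : 3 * third = 1)
    (hst : ∀ g : SL(2, A), ∃ x : A, IsUnit (g 0 0 + x * g 1 0)) (g : SL(2, A)) : χ g = 1 := by
  have hD : χ (tD two) * χ (tD two⁻¹) = 1 := by rw [← map_mul, tD_inv_mul, map_one]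
  have hU : ∀ x : A, χ (nU x) = 1 := by
    intro x
    have e : nU x = tD two * nU (third * x) * tD two⁻¹ * nU (-(third * x)) := by
      rw [tD_nU, nU_add, h2]
      congr 1
      linear_combination (-x) * h3
    have e1 : χ (nU (third * x)) * χ (nU (-(third * x))) = 1 := by
      rw [← map_mul, nU_add, add_neg_cancel, nU_zero, map_one]
    rw [e, map_mul, map_mul, map_mul]
    calc χ (tD two) * χ (nU (third * x)) * χ (tD two⁻¹) * χ (nU (-(third * x)))
        = (χ (tD two) * χ (tD two⁻¹)) * (χ (nU (third * x)) * χ (nU (-(third * x)))) := by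
          simp only [mul_assoc, mul_left_comm]
      _ = 1 := by rw [hD, e1, one_mul]
  have hL : ∀ x : A, χ (nL x) = 1 := by
    intro x
    have e : nL x = tD two⁻¹ * nL (third * x) * tD two * nL (-(third * x)) := by
      rw [tD_nL, nL_add, h2]
      congr 1
      linear_combination (-x) * h3
    have e1 : χ (nL (third * x)) * χ (nL (-(third * x))) = 1 := by
      rw [← map_mul, nL_add, add_neg_cancel, nL_zero, map_one]
    rw [e, map_mul, map_mul, map_mul]
    calc χ (tD two⁻¹) * χ (nL (third * x)) * χ (tD two) * χ (nL (-(third * x)))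
        = (χ (tD two) * χ (tD two⁻¹)) * (χ (nL (third * x)) * χ (nL (-(third * x)))) := by
          simp only [mul_left_comm, mul_comm]
      _ = 1 := by rw [hD, e1, one_mul]
  have hT : ∀ u : Aˣ, χ (tD u) = 1 := by
    intro u
    rw [tD_eq]
    simp only [map_mul, hU, hL, mul_one]
  obtain ⟨x, u, hu⟩ := hst g
  have h00 : (nU x * g) 0 0 = u := by rw [m00]; simp [hu]
  have e := ldu (nU x * g) u h00
  have e2 : χ (nU x * g) = 1 := by rw [e]; simp only [map_mul, hU, hL, hT, mul_one]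
  rwa [map_mul, hU, one_mul] at e2

end elem

section mixed

variable {K : Type} [Field K] [NumberField K]

omit [NumberField K] in
lemma exists_unit (g : GG K) : ∃ x : mixedSpace K, IsUnit (g 0 0 + x * g 1 0) := by
  classical
  have hdet := det2 g
  refine ⟨(fun w => if (g 0 0).1 w = 0 then 1 else 0, fun w => if (g 0 0).2 w = 0 then 1 else 0), ?_⟩
  rw [Prod.isUnit_iff]
  refine ⟨?_, ?_⟩
  · rw [Pi.isUnit_iff]
    intro w
    rw [isUnit_iff_ne_zero]
    have h := congrArg (fun z : mixedSpace K => z.1 w) hdet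
    simp only [Prod.fst_sub, Prod.fst_mul, Pi.sub_apply, Pi.mul_apply, Prod.fst_one, Pi.one_apply] at h
    simp only [Prod.fst_add, Prod.fst_mul, Pi.add_apply, Pi.mul_apply]
    split_ifs with h0
    · rw [h0] at h ⊢
      intro h1
      rw [one_mul, zero_add] at h1
      rw [h1] at h
      simp at h
    · simpa using h0
  · rw [Pi.isUnit_iff]
    intro w
    rw [isUnit_iff_ne_zero]
    have h := congrArg (fun z : mixedSpace K => z.2 w) hdet
    simp only [Prod.snd_sub, Prod.snd_mul, Pi.sub_apply, Pi.mul_apply, Prod.snd_one, Pi.one_apply] at h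
    simp only [Prod.snd_add, Prod.snd_mul, Pi.add_apply, Pi.mul_apply]
    split_ifs with h0
    · rw [h0] at h ⊢
      intro h1
      rw [one_mul, zero_add] at h1
      rw [h1] at h
      simp at h
    · simpa using h0

lemma hom_trivial' {M : Type} [CommMonoid M] (χ : GG K →* M) (g : GG K) : χ g = 1 := by
  have h2 : (2 : mixedSpace K) * ((2 : ℝ)⁻¹ • (1 : mixedSpace K)) = 1 := by
    rw [mul_smul_comm, mul_one]
    ext w <;> simp
  refine hom_trivial χ ⟨2, (2 : ℝ)⁻¹ • (1 : mixedSpace K), h2, by rw [mul_comm]; exact h2⟩ rfl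
    ((3 : ℝ)⁻¹ • (1 : mixedSpace K)) ?_ exists_unit g
  rw [mul_smul_comm, mul_one]
  ext w <;> simp

end mixed


end VolPkg

instance instHaarMu (K : Type) [Field K] [NumberField K] : (mu K).IsHaarMeasure :=
  inferInstanceAs (Measure.haar : Measure (GG K)).IsHaarMeasure

instance instSigmaFiniteMu (K : Type) [Field K] [NumberField K] : SigmaFinite (mu K) :=
  inferInstanceAs (SigmaFinite (Measure.haar : Measure (GG K)))

instance instRegularMu (K : Type) [Field K] [NumberField K] : (mu K).Regular :=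
  inferInstanceAs (Measure.haar : Measure (GG K)).Regular

open Measure in
/-- B1 -/
theorem unimod : S_unimod := by
  intro K _ _
  refine ⟨fun g => ?_⟩
  have h := map_right_mul_eq_modularCharacterFun_smul (mu K) g
  have h1 : modularCharacterFun g = 1 := VolPkg.hom_trivial' (modularCharacter : GG K →* NNReal) g
  rw [h1, one_smul] at h
  exact h

end Pool.Agent.T2h77
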