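import Pool.Agent.T2h77.Stm

/-!
# The density theorem at the finite places: statements
-/

set_option autoImplicit false

open NumberField NumberField.mixedEmbedding MeasureTheory Matrix IsDedekindDomain
open scoped MatrixGroups ENNReal

noncomputable section

namespace Pool.Agent.T2h77

section

variable (K : Type) [Field K] [NumberField K]

/-- The embedding of `SL₂(K)` in `SL₂(K ⊗ ℝ)`. -/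
def jo : SL(2, K) →* GG K := Matrix.SpecialLinearGroup.map (mixedEmbedding K)

/-- The embedding of `SL₂(𝓞 K)` in `SL₂(K)`. -/
def oK : SL(2, 𝓞 K) →* SL(2, K) := Matrix.SpecialLinearGroup.map (algebraMap (𝓞 K) K)

end

variable {K : Type} [Field K] [NumberField K]

/-- The fractional ideal `𝔭 ^ (- k) I`. -/
def Fr (𝔭 : Ideal (𝓞 K)) (k : ℕ) (I : Ideal (𝓞 K)) : Set K :=
  {x | ∀ a ∈ 𝔭 ^ k, ∃ b ∈ I, (a : K) * x = b}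

/-- The matrices in `SL₂(K)` with entries in `𝔭 ^ (- k)`. -/
def Lk (𝔭 : Ideal (𝓞 K)) (k : ℕ) : Set SL(2, K) := {γ | ∀ i j, γ i j ∈ Fr 𝔭 k ⊤}

/-- `Γ` is a congruence subgroup of `SL₂(𝓞[1/𝔭])`. -/
def IsCongrP (𝔭 : Ideal (𝓞 K)) (Γ : Subgroup SL(2, K)) : Prop :=
  (∀ γ ∈ Γ, ∃ k, γ ∈ Lk 𝔭 k) ∧ ∃ 𝔫 : Ideal (𝓞 K), 𝔫 ≠ ⊥ ∧ ∀ γ : SL(2, K),
    (∀ i j, ∃ k, γ i j - (1 : Matrix (Fin 2) (Fin 2) K) i j ∈ Fr 𝔭 k 𝔫) → γ ∈ Γ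

/-- The subgroup of the elements of `Γ` which are in `SL₂(𝓞 K)`. -/
def ic (Γ : Subgroup SL(2, K)) : Subgroup SL(2, 𝓞 K) := Γ.comap (oK K)

/-- `s` is a set of representatives of the cosets `(Γ ∩ SL₂(𝓞 K)) γ`, for the `γ` in `Γ` with entries
in `𝔭 ^ (- k)`. -/
def IsReps (𝔭 : Ideal (𝓞 K)) (Γ : Subgroup SL(2, K)) (k : ℕ) (s : Finset SL(2, K)) : Prop :=
  (∀ η ∈ s, η ∈ Γ ∧ η ∈ Lk 𝔭 k) ∧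
    ∀ γ ∈ Γ, γ ∈ Lk 𝔭 k → ∃! η, η ∈ s ∧ ∃ δ : SL(2, 𝓞 K), γ = oK K δ * η

/-- `f` is an eigenfunction of the Hecke operators at `𝔭`, with the Satake parameters
`q ^ ν` and `q ^ (- ν)`, `q` the norm of `𝔭`. The operator for `k` is the sum over all `γ` in `Γ` with entries
in `𝔭 ^ (- k)`, modulo `Γ ∩ SL₂(𝓞 K)`, and its eigenvalue is `q ^ k * ∑_{-k ≤ i ≤ k} q ^ (2 i ν)`. -/
def IsHecke (𝔭 : Ideal (𝓞 K)) (Γ : Subgroup SL(2, K)) (ν : ℂ) (f : GG K → ℂ) : Prop :=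
  ∀ (k : ℕ) (s : Finset SL(2, K)), IsReps 𝔭 Γ k s → ∀ g : GG K,
    ∑ η ∈ s, f (jo K η * g) = (Ideal.absNorm 𝔭 : ℂ) ^ k *
      (∑ i ∈ Finset.range (2 * k + 1), (Ideal.absNorm 𝔭 : ℂ) ^ (2 * ((i : ℂ) - k) * ν)) * f g

/-- The density theorem at a finite place. -/
def DensityP (K : Type) [Field K] [NumberField K] : Prop :=
  ∀ (𝔭 : Ideal (𝓞 K)), 𝔭.IsPrime → 𝔭 ≠ ⊥ → ∀ (ε L : ℝ), 0 < ε → ∃ C : ℝ, 0 < C ∧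
    ∀ Γ : Subgroup SL(2, K), IsCongrP 𝔭 Γ →
    ∀ 𝓕 : Set (GG K), IsFundamentalDomain ((ic Γ).map (io K)) 𝓕 (mu K) →
    ∀ (k : ℕ) (ν : Fin k → InfinitePlace K → ℂ) (τ : Fin k → ℂ) (f : Fin k → GG K → ℂ),
      (∀ i, IsAutomorphic (ic Γ) (ν i) (f i)) →
      (∀ i, MemLp (f i) 2 ((mu K).restrict 𝓕)) →
      (∀ i, IsHecke 𝔭 Γ (τ i) (f i)) →
      (∀ i, (τ i).im = 0 ∧ ε ≤ (τ i).re ∧ (τ i).re ≤ 1 / 2) →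
      (∀ i w, ‖ν i w‖ ≤ L) → LinearIndependent ℂ f →
      ∑ i, ((ic Γ).index : ℝ) ^ (2 * (τ i).re) ≤ C * ((ic Γ).index : ℝ) ^ (1 + ε)

/-! ### The steps -/

/-- the `𝔭`-adic absolute value, `|ϖ| = 1 / q` -/
abbrev pab (𝔭 : HeightOneSpectrum (𝓞 K)) : AbsoluteValue K ℝ := HeightOneSpectrum.adicAbv K 𝔭

/-- L1: the local count. The cosets `SL₂(O) g` with `‖g‖ ≤ q ^ k` and `|g z| ≤ r |z|`. -/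
def S_loc : Prop :=
  ∀ (K : Type) [Field K] [NumberField K] (𝔭 : HeightOneSpectrum (𝓞 K)) (k : ℕ) (r : ℝ) (z : Fin 2 → K),
    0 ≤ r → z ≠ 0 → ∀ s : Finset SL(2, K),
      (∀ g ∈ s, ∀ i j, pab 𝔭 (g i j) ≤ (Ideal.absNorm 𝔭.asIdeal : ℝ) ^ k) →
      (∀ g ∈ s, ∀ i, pab 𝔭 (Matrix.mulVec g.1 z i) ≤ r * max (pab 𝔭 (z 0)) (pab 𝔭 (z 1))) →
      (∀ g ∈ s, ∀ g' ∈ s, (∀ i j, pab 𝔭 ((g' * g⁻¹) i j) ≤ 1) → g = g') →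
      (s.card : ℝ) ≤ 2 * (Ideal.absNorm 𝔭.asIdeal : ℝ) ^ k * r

/-- L2: integers outside `𝔭` in a box congruent modulo `I` -/
def S_box2 : Prop :=
  ∀ (K : Type) [Field K] [NumberField K] (𝔭 : Ideal (𝓞 K)) (C₀ : ℝ), 𝔭 ≠ ⊥ → ∃ C : ℝ, 0 < C ∧
    ∀ (I : Ideal (𝓞 K)), I ≠ ⊥ → ∀ k : ℕ, ∀ s : Finset K,
      (∀ x ∈ s, ∀ w : InfinitePlace K, w x ≤ C₀) →
      (∀ x ∈ s, ∀ y ∈ s, x - y ∈ Fr 𝔭 k I) →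
      (s.card : ℝ) ≤ C * (1 + (Ideal.absNorm 𝔭 : ℝ) ^ k / Ideal.absNorm I)

/-- L3: factorisations in a box -/
def S_fac2 : Prop :=
  ∀ (K : Type) [Field K] [NumberField K] (𝔭 : Ideal (𝓞 K)) (C₀ ε : ℝ), 𝔭.IsPrime → 𝔭 ≠ ⊥ → 0 < ε →
    ∃ C : ℝ, 0 < C ∧ ∀ (k : ℕ) (y : K), y ≠ 0 → ∀ s : Finset (K × K),
      (∀ x ∈ s, x.1 * x.2 = y ∧ x.1 ∈ Fr 𝔭 k ⊤ ∧ x.2 ∈ Fr 𝔭 k ⊤ ∧
        ∀ w : InfinitePlace K, w x.1 ≤ C₀ ∧ w x.2 ≤ C₀) →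
      (s.card : ℝ) ≤ C * ((Ideal.absNorm 𝔭 : ℝ) ^ k) ^ ε

/-- L4: matrices in `SL₂(𝓞[1/𝔭])` which are scalar modulo `m`, with prescribed trace modulo `𝔫 m` -/
def S_points2 : Prop :=
  ∀ (K : Type) [Field K] [NumberField K] (𝔭 : Ideal (𝓞 K)) (C₀ ε : ℝ), 𝔭.IsPrime → 𝔭 ≠ ⊥ → 0 < ε →
    ∃ C : ℝ, 0 < C ∧
    ∀ (𝔫 m : Ideal (𝓞 K)), 𝔫 ≠ ⊥ → m ≠ ⊥ → ∀ (t : K) (k : ℕ), ∀ s : Finset SL(2, K),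
      (∀ δ ∈ s, δ ≠ 1 ∧ δ ≠ -1 ∧ δ ∈ Lk 𝔭 k ∧ (∀ w, mn w (jo K δ) ≤ C₀) ∧
        δ 0 1 ∈ Fr 𝔭 k m ∧ δ 1 0 ∈ Fr 𝔭 k m ∧ δ 0 0 - δ 1 1 ∈ Fr 𝔭 k m ∧
        δ 0 0 + δ 1 1 - t ∈ Fr 𝔭 k (𝔫 * m)) →
      (s.card : ℝ) ≤ C * ((Ideal.absNorm 𝔭 : ℝ) ^ k) ^ ε * ((Ideal.absNorm 𝔭 : ℝ) ^ k / Ideal.absNorm m) *
        (1 + (Ideal.absNorm 𝔭 : ℝ) ^ k / (Ideal.absNorm 𝔫 * Ideal.absNorm m))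

/-- the number of the `y` in `SL₂(𝓞 K) ⧸ (Γ ∩ SL₂(𝓞 K))` with `y⁻¹ δ y` in `Γ` -/
def fixP (Γ : Subgroup SL(2, K)) (δ : SL(2, K)) : ℕ :=
  Nat.card {y : SL(2, 𝓞 K) ⧸ ic Γ // (oK K y.out)⁻¹ * δ * oK K y.out ∈ Γ}

/-- L5: the counting theorem -/
def S_count2 : Prop :=
  ∀ (K : Type) [Field K] [NumberField K] (𝔭 : Ideal (𝓞 K)) (C₀ ε : ℝ), 𝔭.IsPrime → 𝔭 ≠ ⊥ → 0 < ε →
    ∃ C : ℝ, 0 < C ∧ ∀ Γ : Subgroup SL(2, K), IsCongrP 𝔭 Γ → ∀ k : ℕ, ∀ s : Finset SL(2, K),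
      (∀ δ ∈ s, δ ≠ 1 ∧ δ ≠ -1 ∧ δ ∈ Lk 𝔭 k ∧ ∀ w, mn w (jo K δ) ≤ C₀) →
      ∑ δ ∈ s, (fixP Γ δ : ℝ) ≤ C * ((ic Γ).index * (Ideal.absNorm 𝔭 : ℝ) ^ k) ^ ε *
        ((ic Γ).index * (Ideal.absNorm 𝔭 : ℝ) ^ k + ((Ideal.absNorm 𝔭 : ℝ) ^ k) ^ 2)

end Pool.Agent.T2h77
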