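import Pool.Agent.T2h77.DefsA
import Pool.Agent.T2h77.Stm2

/-!
# The Hecke operators at a prime ideal
-/

set_option autoImplicit false

open NumberField NumberField.mixedEmbedding MeasureTheory Matrix
open scoped MatrixGroups ENNReal

noncomputable section

namespace Pool.Agent.T2h77

variable {K : Type} [Field K] [NumberField K]

/-- `γ = δ η` for some `δ` in `SL₂(𝓞 K)`. -/
def LEqv (γ η : SL(2, K)) : Prop := ∃ δ : SL(2, 𝓞 K), γ = oK K δ * η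

/-- The elements of `Γ` with entries in `𝔭 ^ (- k)`. -/
def GLk (𝔭 : Ideal (𝓞 K)) (Γ : Subgroup SL(2, K)) (k : ℕ) : Set SL(2, K) := {γ | γ ∈ Γ ∧ γ ∈ Lk 𝔭 k}

/-- `s` is a set of representatives of the cosets `(Γ ∩ SL₂(𝓞 K)) γ`, for the `γ` in `Γ` with entries
in `𝔭 ^ (- k)`. -/
def IsRepSet (𝔭 : Ideal (𝓞 K)) (Γ : Subgroup SL(2, K)) (k : ℕ) (s : Finset SL(2, K)) : Prop :=
  (∀ η ∈ s, η ∈ GLk 𝔭 Γ k) ∧ ∀ γ ∈ GLk 𝔭 Γ k, ∃! η, η ∈ s ∧ LEqv γ η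

/-- `q ^ k * ∑_{-k ≤ i ≤ k} q ^ (2 i τ)`, the eigenvalue of the operator `T_{q ^ (2 k)}` for the Satake parameters
`q ^ τ` and `q ^ (- τ)`. -/
def hev (q : ℝ) (k : ℕ) (τ : ℝ) : ℝ := q ^ k * ∑ i ∈ Finset.range (2 * k + 1), q ^ (2 * ((i : ℝ) - k) * τ)

/-- `f` is an eigenfunction of the Hecke operators at `𝔭`, with the Satake parameters `q ^ τ` and
`q ^ (- τ)`, `q` the norm of `𝔭`. The operator for `k` is the sum over all `γ` in `Γ` with entries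
in `𝔭 ^ (- k)`, modulo `Γ ∩ SL₂(𝓞 K)`. -/
def IsHeckeEigen (𝔭 : Ideal (𝓞 K)) (Γ : Subgroup SL(2, K)) (τ : ℝ) (f : GG K → ℂ) : Prop :=
  ∀ (k : ℕ) (s : Finset SL(2, K)), IsRepSet 𝔭 Γ k s → ∀ g : GG K,
    ∑ η ∈ s, f (jo K η * g) = (hev (Ideal.absNorm 𝔭) k τ : ℂ) * f g

theorem IsHeckeEigen.isHecke {𝔭 : Ideal (𝓞 K)} {Γ : Subgroup SL(2, K)} {τ : ℝ} {f : GG K → ℂ}
    (h : IsHeckeEigen 𝔭 Γ τ f) : IsHecke 𝔭 Γ τ f := by
  intro k s hs g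
  rw [h k s ⟨hs.1, fun γ hγ => hs.2 γ hγ.1 hγ.2⟩ g]
  congr 1
  unfold hev
  have hq : (0 : ℝ) ≤ Ideal.absNorm 𝔭 := Nat.cast_nonneg _
  push_cast
  congr 1
  refine Finset.sum_congr rfl fun i _ => ?_
  rw [Complex.ofReal_cpow hq]
  push_cast
  rfl

end Pool.Agent.T2h77
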