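import Pool.Agent.T2h77.Points
import Pool.Agent.T2h77.Stm2

/-!
# The density theorem at the finite places: matrices with entries in `𝔭 ^ (- k)`

The analogues of `box`, `fac` and `points` for the fractional ideals `𝔭 ^ (- k) I`.
-/

set_option autoImplicit false

open NumberField NumberField.mixedEmbedding Finset
open scoped MatrixGroups

noncomputable section

namespace Pool.Agent.T2h77

open Bx Pt

namespace P2

variable {K : Type} [Field K] [NumberField K]

set_option linter.unusedSectionVars false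

theorem absNorm_pos {I : Ideal (𝓞 K)} (hI : I ≠ ⊥) : (0 : ℝ) < Ideal.absNorm I := by
  have : 0 < Ideal.absNorm I := Nat.pos_of_ne_zero fun h => hI (Ideal.absNorm_eq_zero_iff.1 h)
  exact_mod_cast this

/-- the norm of the nonzero elements of `𝔭 ^ (- k) I` -/
theorem norm_ge_fr {𝔭 : Ideal (𝓞 K)} (I : Ideal (𝓞 K)) (k : ℕ) (h𝔭 : 𝔭 ≠ ⊥) {z : K}
    (hz : z ∈ Fr 𝔭 k I) (h0 : z ≠ 0) :
    (Ideal.absNorm I : ℝ) ≤ (∏ w : InfinitePlace K, w z ^ w.mult) * (Ideal.absNorm 𝔭 : ℝ) ^ k := by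
  obtain ⟨n, m, hm, hnm⟩ := IsFractionRing.div_surjective (A := 𝓞 K) z
  have hm0 : m ≠ 0 := nonZeroDivisors.ne_zero hm
  have hmK : ((m : 𝓞 K) : K) ≠ 0 := by simpa using hm0
  have hn0 : n ≠ 0 := by
    rintro rfl
    apply h0
    rw [← hnm]
    simp
  have hle : Ideal.span {n} * 𝔭 ^ k ≤ Ideal.span {m} * I := by
    rw [Ideal.span_singleton_mul_le_span_singleton_mul]
    intro a ha
    obtain ⟨b, hb, hab⟩ := hz a ha
    refine ⟨b, hb, ?_⟩
    apply RingOfIntegers.coe_injective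
    rw [← hnm] at hab
    have e : (a : K) * ((n : K) / (m : K)) = b := hab
    have : (a : K) * (n : K) = (b : K) * (m : K) := by
      rw [mul_div_assoc', div_eq_iff hmK] at e
      exact e
    change algebraMap (𝓞 K) K (n * a) = algebraMap (𝓞 K) K (m * b)
    rw [map_mul, map_mul]
    linear_combination this
  have h1 := Ideal.absNorm_dvd_absNorm_of_le hle
  have hpk : 𝔭 ^ k ≠ ⊥ := pow_ne_zero k h𝔭
  have h2 : Ideal.absNorm (Ideal.span {n} * 𝔭 ^ k) ≠ 0 := by
    rw [Ne, Ideal.absNorm_eq_zero_iff]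
    exact mul_ne_zero (by simpa [Ideal.span_singleton_eq_bot] using hn0) hpk
  have h3 := Nat.le_of_dvd (Nat.pos_of_ne_zero h2) h1
  have h4 : (Ideal.absNorm (Ideal.span {m}) : ℝ) * Ideal.absNorm I ≤
      (Ideal.absNorm (Ideal.span {n}) : ℝ) * (Ideal.absNorm 𝔭 : ℝ) ^ k := by
    rw [map_mul, map_mul, map_pow] at h3
    exact_mod_cast h3
  rw [absNorm_span, absNorm_span] at h4
  have h5 : ∀ w : InfinitePlace K, w z = w (n : K) / w (m : K) := by
    intro w
    rw [← hnm]
    exact map_div₀ w _ _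
  have h6 : (0 : ℝ) < ∏ w : InfinitePlace K, w (m : K) ^ w.mult :=
    Finset.prod_pos fun w _ => pow_pos (InfinitePlace.pos_iff.2 hmK) _
  have h7 : (∏ w : InfinitePlace K, w z ^ w.mult) = (∏ w : InfinitePlace K, w (n : K) ^ w.mult) /
      ∏ w : InfinitePlace K, w (m : K) ^ w.mult := by
    rw [← Finset.prod_div_distrib]
    refine Finset.prod_congr rfl fun w _ => ?_
    rw [h5 w, div_pow]
  rw [h7, div_mul_eq_mul_div, le_div_iff₀ h6]
  linarith

theorem im_eq_zero {w : InfinitePlace K} (hw : w.IsReal) (x : K) : (w.embedding x).im = 0 := by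
  have h := InfinitePlace.isReal_iff.1 hw
  rw [← ComplexEmbedding.IsReal.coe_embedding_apply h x]
  exact Complex.ofReal_im _

theorem fr_sub {𝔭 I : Ideal (𝓞 K)} {k : ℕ} {x y : K} (hx : x ∈ Fr 𝔭 k I) (hy : y ∈ Fr 𝔭 k I) :
    x - y ∈ Fr 𝔭 k I := by
  intro a ha
  obtain ⟨b, hb, h1⟩ := hx a ha
  obtain ⟨c, hc, h2⟩ := hy a ha
  refine ⟨b - c, sub_mem hb hc, ?_⟩
  rw [mul_sub, h1, h2]
  exact (map_sub (algebraMap (𝓞 K) K) b c).symm

end P2

open P2

theorem box2 : S_box2 := by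
  classical
  intro K _ _ 𝔭 C₀ h𝔭
  set d : ℕ := Module.finrank ℚ K with hd
  have hd0 : d ≠ 0 := Module.finrank_pos.ne'
  have hC0 := abs_nonneg C₀
  refine ⟨(4 * |C₀| + 2) ^ d * 2 ^ (d - 1), by positivity, ?_⟩
  intro I hI k s hs hsI
  have hN := absNorm_pos hI
  have hq : (0 : ℝ) < (Ideal.absNorm 𝔭 : ℝ) ^ k := pow_pos (absNorm_pos h𝔭) k
  set ν : ℝ := (Ideal.absNorm I : ℝ) / (Ideal.absNorm 𝔭 : ℝ) ^ k with hν
  have hν0 : 0 < ν := by positivity
  set η : ℝ := ν ^ ((d : ℝ)⁻¹) with hη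
  have hη0 : 0 < η := by positivity
  have hηd : η ^ d = ν := Real.rpow_inv_natCast_pow hν0.le hd0
  have hη2 : 0 < η / 2 := by positivity
  -- coordinates
  let f : K → InfinitePlace K → ℤ × ℤ := fun x w =>
    (⌊(w.embedding x).re / (η / 2)⌋, if w.IsReal then 0 else ⌊(w.embedding x).im / (η / 2)⌋)
  let J : Finset ℤ := Finset.Icc ⌊-|C₀| / (η / 2)⌋ ⌊|C₀| / (η / 2)⌋
  let t : Finset (InfinitePlace K → ℤ × ℤ) :=
    Fintype.piFinset fun w : InfinitePlace K => J ×ˢ (if w.IsReal then {0} else J)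
  have hnorm : ∀ x ∈ s, ∀ w : InfinitePlace K, ‖w.embedding x‖ ≤ |C₀| := by
    intro x hx w
    rw [InfinitePlace.norm_embedding_eq]
    exact (hs x hx w).trans (le_abs_self _)
  have hmaps : ∀ x ∈ s, f x ∈ t := by
    intro x hx
    refine Fintype.mem_piFinset.2 fun w => Finset.mem_product.2 ⟨?_, ?_⟩
    · exact floor_mem hη2 ((Complex.abs_re_le_norm _).trans (hnorm x hx w))
    · by_cases hw : w.IsReal
      · simp [f, hw]
      · simp only [f, hw, if_false]
        exact floor_mem hη2 ((Complex.abs_im_le_norm _).trans (hnorm x hx w))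
  have hinj : Set.InjOn f s := by
    intro x hx y hy hxy
    by_contra hne
    have h0 : x - y ≠ 0 := sub_ne_zero.2 hne
    have h1 := norm_ge_fr I k h𝔭 (hsI x hx y hy) h0
    have h2 : ∀ w : InfinitePlace K, w (x - y) < η := by
      intro w
      have h3 := congrFun hxy w
      have h4 := (Prod.mk.inj h3).1
      have h5 := (Prod.mk.inj h3).2
      rw [← InfinitePlace.norm_embedding_eq, map_sub]
      refine (Complex.norm_le_abs_re_add_abs_im _).trans_lt ?_
      rw [Complex.sub_re, Complex.sub_im]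
      have h6 := floor_near hη2 h4
      by_cases hw : w.IsReal
      · rw [im_eq_zero hw, im_eq_zero hw, sub_zero, abs_zero]
        linarith
      · simp only [hw, if_false] at h5
        have h7 := floor_near hη2 h5
        linarith
    have h3 : (∏ w : InfinitePlace K, w (x - y) ^ w.mult) < η ^ d := by
      rw [hd, ← InfinitePlace.sum_mult_eq, ← Finset.prod_pow_eq_pow_sum]
      apply Finset.prod_lt_prod_of_nonempty
      · intro w _
        exact pow_pos (InfinitePlace.pos_iff.2 h0) _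
      · intro w _
        exact pow_lt_pow_left₀ (h2 w) (apply_nonneg _ _) InfinitePlace.mult_ne_zero
      · exact Finset.univ_nonempty
    rw [hηd, hν, lt_div_iff₀ hq] at h3
    linarith
  have hcard : (s.card : ℝ) ≤ (2 * (|C₀| / (η / 2)) + 2) ^ d := by
    have h1 : (s.card : ℝ) ≤ (t.card : ℝ) :=
      Nat.cast_le.2 (Finset.card_le_card_of_injOn f hmaps hinj)
    refine h1.trans ?_
    rw [Fintype.card_piFinset]
    push_cast
    rw [hd, ← InfinitePlace.sum_mult_eq, ← Finset.prod_pow_eq_pow_sum]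
    refine Finset.prod_le_prod (fun w _ => Nat.cast_nonneg _) fun w _ => ?_
    rw [Finset.card_product, Nat.cast_mul]
    have h2 : (J.card : ℝ) ≤ 2 * (|C₀| / (η / 2)) + 2 := Icc_bound hη2 hC0
    by_cases hw : w.IsReal
    · rw [if_pos hw, Finset.card_singleton, Nat.cast_one, mul_one, InfinitePlace.IsReal.mult_eq_one hw,
        pow_one]
      exact h2
    · rw [if_neg hw]
      have hw' : w.IsComplex := InfinitePlace.not_isReal_iff_isComplex.1 hw
      rw [hw'.mult_eq_two, sq]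
      exact mul_le_mul h2 h2 (Nat.cast_nonneg _) (by positivity)
  refine hcard.trans ?_
  have h8 : 2 * (|C₀| / (η / 2)) + 2 ≤ (4 * |C₀| + 2) * (1 + 1 / η) := by
    have e1 : 2 * (|C₀| / (η / 2)) = 4 * |C₀| * (1 / η) := by field_simp; ring
    have e2 : 0 < 1 / η := by positivity
    rw [e1]
    nlinarith
  refine (pow_le_pow_left₀ (by positivity) h8 d).trans ?_
  rw [mul_pow, mul_assoc]
  refine mul_le_mul_of_nonneg_left ?_ (by positivity)
  refine (add_pow_le zero_le_one (by positivity) d).trans (le_of_eq ?_)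
  rw [one_pow, div_pow, one_pow, hηd, hν, one_div_div]

/-- factorisations of integers in a box -/
theorem facAll (hdiv : S_div) (K : Type) [Field K] [NumberField K] (ε : ℝ) (hε : 0 < ε) :
    ∃ C : ℝ, 0 < C ∧ ∀ B : ℝ, 1 ≤ B → ∀ k : 𝓞 K, k ≠ 0 → ∀ s : Finset (𝓞 K × 𝓞 K),
      (∀ x ∈ s, x.1 * x.2 = k ∧ ∀ w : InfinitePlace K, w (x.1 : K) ≤ B ∧ w (x.2 : K) ≤ B) →
      (s.card : ℝ) ≤ C * B ^ ε := by
  classical
  set d : ℕ := Module.finrank ℚ K with hd
  have hd0 : 0 < d := Module.finrank_pos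
  have hdR : (0 : ℝ) < d := by exact_mod_cast hd0
  obtain ⟨C₂, hC₂, hdiv⟩ := hdiv K (ε / (4 * d)) (by positivity)
  set n : ℕ := Fintype.card (InfinitePlace K) with hn
  set M : ℕ := (finite_small K (Real.exp 1)).toFinset.card with hM
  obtain ⟨C₃, hC₃, hlog⟩ := log_poly n 2 (2 * (d + 1)) (ε / 2)
    (by positivity) (by positivity) (by positivity)
  refine ⟨M * C₂ * C₃ + 1, by positivity, ?_⟩
  intro B hB1 k hk s hs
  have hB0 : (0 : ℝ) < B := by linarith
  -- the norm of `k`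
  have hspan : Ideal.span {k} ≠ ⊥ := by rwa [Ne, Ideal.span_singleton_eq_bot]
  have hnormk : s.Nonempty → (Ideal.absNorm (Ideal.span {k}) : ℝ) ≤ B ^ (2 * d) := by
    rintro ⟨x, hx⟩
    obtain ⟨h1, h2⟩ := hs x hx
    rw [absNorm_span, ← h1, hd, ← InfinitePlace.sum_mult_eq, pow_mul, ← Finset.prod_pow_eq_pow_sum]
    refine Finset.prod_le_prod (fun w _ => pow_nonneg (apply_nonneg _ _) _) fun w _ => ?_
    refine pow_le_pow_left₀ (apply_nonneg _ _) ?_ _
    have e1 : w ((x.1 * x.2 : 𝓞 K) : K) = w (x.1 : K) * w (x.2 : K) := by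
      rw [← map_mul]
      push_cast
      rfl
    rw [e1, sq]
    exact mul_le_mul (h2 w).1 (h2 w).2 (apply_nonneg _ _) hB0.le
  rcases s.eq_empty_or_nonempty with rfl | hne
  · simp only [card_empty, Nat.cast_zero]; positivity
  have hnk := hnormk hne
  have : Finite (𝓞 K ⧸ Ideal.span {k}) := Ideal.finiteQuotientOfFreeOfNeBot _ hspan
  have : Finite (Ideal (𝓞 K ⧸ Ideal.span {k})) :=
    Finite.of_injective (fun I => (I : Set (𝓞 K ⧸ Ideal.span {k}))) SetLike.coe_injective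
  let _ : Fintype (Ideal (𝓞 K ⧸ Ideal.span {k})) := Fintype.ofFinite _
  set L : ℝ := (d + 1) * Real.log B with hL
  have hL0 : 0 ≤ L := by have := Real.log_nonneg hB1; positivity
  have h0 : ∀ x ∈ s, x.1 ≠ 0 ∧ x.2 ≠ 0 := by
    intro x hx
    have := (hs x hx).1
    refine ⟨fun h => hk ?_, fun h => hk ?_⟩ <;> rw [← this, h] <;> simp
  -- the map
  let f : 𝓞 K × 𝓞 K → Ideal (𝓞 K ⧸ Ideal.span {k}) × (InfinitePlace K → ℤ) := fun x =>
    (Ideal.map (Ideal.Quotient.mk (Ideal.span {k})) (Ideal.span {x.1}),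
      fun w => ⌊Real.log (w (x.1 : K)) / 1⌋)
  let t : Finset (Ideal (𝓞 K ⧸ Ideal.span {k}) × (InfinitePlace K → ℤ)) :=
    univ ×ˢ Fintype.piFinset fun _ : InfinitePlace K => Finset.Icc ⌊-L / 1⌋ ⌊L / 1⌋
  have hmaps : ∀ x ∈ s, f x ∈ t := by
    intro x hx
    obtain ⟨h1, h2⟩ := hs x hx
    rw [Finset.mem_product]
    refine ⟨mem_univ _, Fintype.mem_piFinset.2 fun w => ?_⟩
    exact floor_mem one_pos (log_bound hB1 (h0 x hx).1 (fun w => (h2 w).1) w)
  have hfib : ∀ b ∈ t, (s.filter fun x => f x = b).card ≤ M := by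
    intro b _
    rcases (s.filter fun x => f x = b).eq_empty_or_nonempty with h | ⟨y, hy⟩
    · rw [h]; simp
    rw [Finset.mem_filter] at hy
    have hu : ∀ x ∈ s.filter fun x => f x = b, ∃ u : 𝓞 K, x.1 = u * y.1 ∧
        ∀ w : InfinitePlace K, w (u : K) ≤ Real.exp 1 := by
      intro x hx
      rw [Finset.mem_filter] at hx
      have hxy : f x = f y := hx.2.trans hy.2.symm
      have h1 := (Prod.mk.inj hxy).1
      have h2 := (Prod.mk.inj hxy).2
      -- the ideals agree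
      have hcomap : ∀ z ∈ s, Ideal.comap (Ideal.Quotient.mk (Ideal.span {k}))
          (Ideal.map (Ideal.Quotient.mk (Ideal.span {k})) (Ideal.span {z.1})) =
          Ideal.span {z.1} := by
        intro z hz
        rw [Ideal.comap_map_of_surjective' _ Ideal.Quotient.mk_surjective, Ideal.mk_ker,
          sup_eq_left, Ideal.span_singleton_le_span_singleton]
        exact ⟨z.2, (hs z hz).1.symm⟩
      have h3 : Ideal.span {x.1} = Ideal.span {y.1} := by
        rw [← hcomap x hx.1, ← hcomap y hy.1, h1]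
      rw [Ideal.span_singleton_eq_span_singleton] at h3
      obtain ⟨u, hu⟩ := h3.symm
      refine ⟨u, by rw [mul_comm]; exact hu.symm, ?_⟩
      intro w
      have h4 : ⌊Real.log (w (x.1 : K)) / 1⌋ = ⌊Real.log (w (y.1 : K)) / 1⌋ := congrFun h2 w
      have h5 := floor_near one_pos h4
      have hx0 : 0 < w (x.1 : K) := InfinitePlace.pos_iff.2 (by simpa using (h0 x hx.1).1)
      have hy0 : 0 < w (y.1 : K) := InfinitePlace.pos_iff.2 (by simpa using (h0 y hy.1).1)
      have h6 : w (x.1 : K) = w (y.1 : K) * w ((u : 𝓞 K) : K) := by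
        rw [← map_mul, ← hu]
        push_cast
        rfl
      have hu0 : 0 < w ((u : 𝓞 K) : K) := InfinitePlace.pos_iff.2 (by simp)
      have h7 : Real.log (w (x.1 : K)) - Real.log (w (y.1 : K)) = Real.log (w ((u : 𝓞 K) : K)) := by
        rw [h6, Real.log_mul hy0.ne' hu0.ne']; ring
      rw [h7] at h5
      rw [← Real.log_le_iff_le_exp hu0]
      exact (le_abs_self _).trans h5.le
    choose! u hu1 hu2 using hu
    refine Finset.card_le_card_of_injOn u ?_ ?_
    · intro x hx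
      rw [Finset.mem_coe, Set.Finite.mem_toFinset]
      exact hu2 x hx
    · intro x hx z hz hxz
      have e1 : x.1 = z.1 := by rw [hu1 x hx, hu1 z hz, hxz]
      have hx' := (Finset.mem_filter.1 (Finset.mem_coe.1 hx)).1
      have hz' := (Finset.mem_filter.1 (Finset.mem_coe.1 hz)).1
      have e2 : z.1 * x.2 = z.1 * z.2 := by
        rw [(hs z hz').1, ← (hs x hx').1, e1]
      exact Prod.ext e1 (mul_left_cancel₀ (h0 z hz').1 e2)
  have hcard := Finset.card_le_mul_card_image_of_maps_to hmaps M hfib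
  have htcard : (t.card : ℝ) ≤ C₂ * B ^ (ε / 2) * (C₃ * B ^ (ε / 2)) := by
    rw [Finset.card_product, Nat.cast_mul, Fintype.card_piFinset]
    refine mul_le_mul ?_ ?_ (Nat.cast_nonneg _) (by positivity)
    · rw [Finset.card_univ, ← Nat.card_eq_fintype_card]
      refine (hdiv _ hspan).trans ?_
      refine mul_le_mul_of_nonneg_left ?_ hC₂.le
      refine (Real.rpow_le_rpow (Nat.cast_nonneg _) hnk (by positivity)).trans (le_of_eq ?_)
      rw [← Real.rpow_natCast B (2 * d), ← Real.rpow_mul hB0.le]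
      congr 1
      push_cast
      field_simp
      ring
    · rw [Finset.prod_const, Finset.card_univ, ← hn]
      push_cast
      refine (pow_le_pow_left₀ (Nat.cast_nonneg _) (Icc_bound one_pos hL0) n).trans ?_
      refine (pow_le_pow_left₀ (by positivity) ?_ n).trans (hlog B hB1)
      rw [div_one, hL]
      linarith
  have h7 : (s.card : ℝ) ≤ M * t.card := by exact_mod_cast hcard
  refine h7.trans ?_
  have h8 : B ^ (ε / 2) * B ^ (ε / 2) = B ^ ε := by
    rw [← Real.rpow_add hB0]; congr 1; ring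
  have h9 : (M : ℝ) * t.card ≤ M * (C₂ * B ^ (ε / 2) * (C₃ * B ^ (ε / 2))) :=
    mul_le_mul_of_nonneg_left htcard (Nat.cast_nonneg _)
  refine h9.trans ?_
  have h10 : (M : ℝ) * (C₂ * B ^ (ε / 2) * (C₃ * B ^ (ε / 2))) = M * C₂ * C₃ * B ^ ε := by
    rw [← h8]; ring
  rw [h10, add_mul, one_mul]
  have : 0 < B ^ ε := Real.rpow_pos_of_pos hB0 _
  linarith

theorem fac2 (hdiv : S_div) : S_fac2 := by
  classical
  intro K _ _ 𝔭 C₀ ε hp h𝔭 hε
  -- the norm of `𝔭`
  set q : ℝ := (Ideal.absNorm 𝔭 : ℝ) with hq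
  have hq1 : 1 < q := by
    have h1 : Ideal.absNorm 𝔭 ≠ 0 := fun h => h𝔭 (Ideal.absNorm_eq_zero_iff.1 h)
    have h2 : Ideal.absNorm 𝔭 ≠ 1 := fun h => hp.ne_top (Ideal.absNorm_eq_one_iff.1 h)
    have h3 : 1 < Ideal.absNorm 𝔭 := by omega
    rw [hq]
    exact_mod_cast h3
  obtain ⟨π, hπ, hπ0⟩ := Submodule.exists_mem_ne_zero_of_ne_bot h𝔭
  set P : ℝ := 2 + ∑ w : InfinitePlace K, w (π : K) with hP
  have hPw : ∀ w : InfinitePlace K, w (π : K) ≤ P := by
    intro w
    have h1 := Finset.single_le_sum (f := fun w : InfinitePlace K => w (π : K))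
      (fun w _ => apply_nonneg w (π : K)) (Finset.mem_univ w)
    linarith
  have hP2 : 2 ≤ P := by
    have : 0 ≤ ∑ w : InfinitePlace K, w (π : K) := Finset.sum_nonneg fun w _ => apply_nonneg w _
    linarith
  have hlogP : 0 < Real.log P := Real.log_pos (by linarith)
  have hlogq : 0 < Real.log q := Real.log_pos hq1
  set δ : ℝ := ε * Real.log q / Real.log P with hδ
  have hδ0 : 0 < δ := by positivity
  obtain ⟨C, hC, hfac⟩ := facAll hdiv K δ hδ0
  set C₁ : ℝ := |C₀| + 1 with hC₁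
  have hC₁1 : 1 ≤ C₁ := by have := abs_nonneg C₀; linarith
  refine ⟨C * C₁ ^ δ, by positivity, ?_⟩
  intro k y hy s hs
  have hπK : (π : K) ≠ 0 := by simpa using hπ0
  have hπk : (π : K) ^ k ≠ 0 := pow_ne_zero k hπK
  have hmem : π ^ k ∈ 𝔭 ^ k := Ideal.pow_mem_pow hπ k
  have hex : ∀ x ∈ s, ∃ X : 𝓞 K × 𝓞 K, (X.1 : K) = (π : K) ^ k * x.1 ∧ (X.2 : K) = (π : K) ^ k * x.2 := by
    intro x hx
    obtain ⟨-, h1, h2, -⟩ := hs x hx
    obtain ⟨b, -, hb⟩ := h1 _ hmem
    obtain ⟨c, -, hc⟩ := h2 _ hmem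
    have e : ((π ^ k : 𝓞 K) : K) = (π : K) ^ k := map_pow (algebraMap (𝓞 K) K) π k
    rw [e] at hb hc
    exact ⟨(b, c), hb.symm, hc.symm⟩
  choose! g hg1 hg2 using hex
  have hinj : Set.InjOn g s := by
    intro x hx z hz h
    have e1 := hg1 x hx
    have e2 := hg1 z hz
    have e3 := hg2 x hx
    have e4 := hg2 z hz
    rw [h] at e1 e3
    exact Prod.ext (mul_left_cancel₀ hπk (e1.symm.trans e2)) (mul_left_cancel₀ hπk (e3.symm.trans e4))
  rcases s.eq_empty_or_nonempty with rfl | ⟨x₀, hx₀⟩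
  · simp only [card_empty, Nat.cast_zero]; positivity
  have hprod : ∀ x ∈ s, (((g x).1 * (g x).2 : 𝓞 K) : K) = (π : K) ^ k * (π : K) ^ k * y := by
    intro x hx
    have e1 : (((g x).1 * (g x).2 : 𝓞 K) : K) = ((g x).1 : K) * ((g x).2 : K) := by push_cast; rfl
    rw [e1, hg1 x hx, hg2 x hx, ← (hs x hx).1]
    ring
  have hPk1 : 1 ≤ P ^ k := one_le_pow₀ (by linarith)
  have hB : 1 ≤ C₁ * P ^ k := by nlinarith
  have h1 := hfac (C₁ * P ^ k) hB ((g x₀).1 * (g x₀).2) (by
    intro h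
    have := hprod x₀ hx₀
    rw [h] at this
    have h2 : (π : K) ^ k * (π : K) ^ k * y ≠ 0 := mul_ne_zero (mul_ne_zero hπk hπk) hy
    apply h2
    rw [← this]
    exact map_zero (algebraMap (𝓞 K) K)) (s.image g) (by
    intro X hX
    obtain ⟨x, hx, rfl⟩ := Finset.mem_image.1 hX
    obtain ⟨-, -, -, h4⟩ := hs x hx
    have key : ∀ w : InfinitePlace K, ∀ a : K, w a ≤ C₀ → w ((π : K) ^ k * a) ≤ C₁ * P ^ k := by
      intro w a ha
      rw [map_mul, map_pow, mul_comm]
      have h5 := le_abs_self C₀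
      exact mul_le_mul (by linarith) (pow_le_pow_left₀ (apply_nonneg _ _) (hPw w) k)
        (pow_nonneg (apply_nonneg _ _) _) (by linarith)
    refine ⟨?_, fun w => ⟨?_, ?_⟩⟩
    · apply RingOfIntegers.coe_injective
      exact (hprod x hx).trans (hprod x₀ hx₀).symm
    · rw [hg1 x hx]; exact key w _ (h4 w).1
    · rw [hg2 x hx]; exact key w _ (h4 w).2)
  rw [Finset.card_image_of_injOn hinj] at h1
  refine h1.trans (le_of_eq ?_)
  rw [Real.mul_rpow (by linarith) (by linarith), ← mul_assoc]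
  congr 1
  have h2 : P ^ δ = q ^ ε := by
    rw [Real.rpow_def_of_pos (by linarith), Real.rpow_def_of_pos (by linarith), hδ]
    congr 1
    field_simp
  rw [← Real.rpow_natCast, ← Real.rpow_natCast, ← Real.rpow_mul (by linarith),
    ← Real.rpow_mul (by linarith), mul_comm (k : ℝ), mul_comm (k : ℝ), Real.rpow_mul (by linarith),
    Real.rpow_mul (by linarith), h2]

namespace P2

variable {K : Type} [Field K] [NumberField K]

set_option linter.unusedSectionVars false

theorem entry_le2 (w : InfinitePlace K) (δ : SL(2, K)) (i j : Fin 2) :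
    w (δ i j) ≤ mn w (jo K δ) := by
  have h0 : normAtPlace w ((jo K δ) i j) = w (δ i j) := by
    have : (jo K δ) i j = mixedEmbedding K (δ i j) := by
      simp [jo, Matrix.SpecialLinearGroup.map_apply_coe, RingHom.mapMatrix_apply]
    rw [this, normAtPlace_apply]
  have h1 : normAtPlace w ((jo K δ) i j) ≤ rn w ((jo K δ) i) := by
    unfold rn
    apply Real.le_sqrt_of_sq_le
    fin_cases j
    · have := sq_nonneg (normAtPlace w ((jo K δ) i 1)); simpa using this
    · have := sq_nonneg (normAtPlace w ((jo K δ) i 0)); simpa using this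
  have h2 : rn w ((jo K δ) i) ≤ mn w (jo K δ) := by
    unfold mn
    apply Real.le_sqrt_of_sq_le
    fin_cases i
    · have := sq_nonneg (rn w ((jo K δ) 1)); simpa using this
    · have := sq_nonneg (rn w ((jo K δ) 0)); simpa using this
  rw [← h0]
  exact h1.trans h2

theorem det_eq2 (δ : SL(2, K)) : δ 0 0 * δ 1 1 - δ 0 1 * δ 1 0 = 1 := by
  have := δ.2
  rwa [Matrix.det_fin_two] at this

theorem sl_ext2 {δ η : SL(2, K)} (h1 : δ 0 0 = η 0 0) (h2 : δ 0 1 = η 0 1)
    (h3 : δ 1 0 = η 1 0) (h4 : δ 1 1 = η 1 1) : δ = η := by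
  ext i j
  fin_cases i <;> fin_cases j
  · exact h1
  · exact h2
  · exact h3
  · exact h4

end P2

theorem points2 (h1 : S_box2) (h2 : S_fac2) : S_points2 := by
  classical
  intro K _ _ 𝔭 C₀ ε hp h𝔭 hε
  set B : ℝ := 2 * |C₀| + 1 with hB
  have hC0 := abs_nonneg C₀
  have hB1 : 1 ≤ B := by linarith
  set D : ℝ := B ^ Module.finrank ℚ K with hD
  have hD1 : 1 ≤ D := one_le_pow₀ hB1
  obtain ⟨C₁, hC₁, hbox⟩ := h1 K 𝔭 B h𝔭
  obtain ⟨C₃, hC₃, hfac⟩ := h2 K 𝔭 B ε hp h𝔭 hε
  refine ⟨C₁ ^ 2 * (D + 1) * (C₃ + 4), by positivity, ?_⟩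
  intro 𝔫 m h𝔫 hm t k s hs
  have hq : (1 : ℝ) ≤ (Ideal.absNorm 𝔭 : ℝ) := by
    have h1 : Ideal.absNorm 𝔭 ≠ 0 := fun h => h𝔭 (Ideal.absNorm_eq_zero_iff.1 h)
    exact_mod_cast Nat.one_le_iff_ne_zero.2 h1
  set X : ℝ := (Ideal.absNorm 𝔭 : ℝ) ^ k with hXdef
  have hX : 1 ≤ X := one_le_pow₀ hq
  have hX0 : (0 : ℝ) < X := by linarith
  have hNm : (0 : ℝ) < Ideal.absNorm m := absNorm_pos hm
  have hNn : (0 : ℝ) < Ideal.absNorm 𝔫 := absNorm_pos h𝔫
  have hbd : ∀ δ ∈ s, ∀ i j, ∀ w : InfinitePlace K, w (δ i j) ≤ |C₀| := by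
    intro δ hδ i j w
    obtain ⟨-, -, -, k2, -⟩ := hs δ hδ
    exact (entry_le2 w δ i j).trans ((k2 w).trans (le_abs_self _))
  have habd : ∀ δ ∈ s, ∀ w : InfinitePlace K, w (δ 0 0 + δ 1 1) ≤ B := by
    intro δ hδ w
    have h3 := w.1.add_le (δ 0 0) (δ 1 1)
    have h4 := hbd δ hδ 0 0 w
    have h5 := hbd δ hδ 1 1 w
    change w (δ 0 0 + δ 1 1) ≤ w (δ 0 0) + w (δ 1 1) at h3
    linarith
  have hsbd : ∀ δ ∈ s, ∀ w : InfinitePlace K, w (δ 0 0 - δ 1 1) ≤ B := by
    intro δ hδ w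
    have h3 := w.1.sub_le_add (δ 0 0) (δ 1 1)
    have h4 := hbd δ hδ 0 0 w
    have h5 := hbd δ hδ 1 1 w
    change w (δ 0 0 - δ 1 1) ≤ w (δ 0 0) + w (δ 1 1) at h3
    linarith
  have hebd : ∀ δ ∈ s, ∀ i j, ∀ w : InfinitePlace K, w (δ i j) ≤ B := by
    intro δ hδ i j w
    have := hbd δ hδ i j w
    linarith
  -- traces
  have hT : ((s.image fun δ => δ 0 0 + δ 1 1).card : ℝ) ≤
      C₁ * (1 + X / Ideal.absNorm (𝔫 * m)) := by
    apply hbox _ (mul_ne_zero h𝔫 hm)
    · intro x hx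
      obtain ⟨δ, hδ, rfl⟩ := Finset.mem_image.1 hx
      exact habd δ hδ
    · intro x hx y hy
      obtain ⟨δ, hδ, rfl⟩ := Finset.mem_image.1 hx
      obtain ⟨η, hη, rfl⟩ := Finset.mem_image.1 hy
      obtain ⟨-, -, -, -, -, -, -, k1⟩ := hs δ hδ
      obtain ⟨-, -, -, -, -, -, -, k2⟩ := hs η hη
      have := fr_sub k1 k2
      rwa [sub_sub_sub_cancel_right] at this
  set β : ℝ := C₁ * (1 + X / Ideal.absNorm m) with hβ
  have hβ0 : 0 ≤ β := by positivity
  have hXε : 1 ≤ X ^ ε := Real.one_le_rpow hX hε.le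
  have two_ne : (2 : K) ≠ 0 := two_ne_zero
  -- fibres
  have hfib : ∀ τ ∈ s.image (fun δ => δ 0 0 + δ 1 1),
      ((s.filter fun δ => δ 0 0 + δ 1 1 = τ).card : ℝ) ≤ β * (C₃ * X ^ ε) + 2 * (2 * β) := by
    intro τ _
    set F := s.filter fun δ => δ 0 0 + δ 1 1 = τ with hF
    have hFs : ∀ δ ∈ F, δ ∈ s ∧ δ 0 0 + δ 1 1 = τ := fun δ hδ => Finset.mem_filter.1 hδ
    rw [← Finset.card_filter_add_card_filter_not (s := F) fun δ => δ 0 1 * δ 1 0 ≠ 0]
    push_cast
    apply add_le_add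
    · -- nonzero product
      apply card_le_real _ (fun δ => δ 0 0 - δ 1 1) (by positivity)
      · intro u _
        set G := (F.filter fun δ => δ 0 1 * δ 1 0 ≠ 0).filter fun δ => δ 0 0 - δ 1 1 = u with hG
        have hGm : ∀ δ ∈ G, (δ ∈ s ∧ δ 0 0 + δ 1 1 = τ) ∧ δ 0 1 * δ 1 0 ≠ 0 ∧
            δ 0 0 - δ 1 1 = u := by
          intro δ hδ
          rw [hG, Finset.mem_filter, Finset.mem_filter] at hδ
          exact ⟨hFs δ hδ.1.1, hδ.1.2, hδ.2⟩
        rcases G.eq_empty_or_nonempty with hGe | ⟨δ₀, hδ₀⟩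
        · rw [hGe]; simp only [card_empty, Nat.cast_zero]; positivity
        have hdiag : ∀ δ ∈ G, δ 0 0 = δ₀ 0 0 ∧ δ 1 1 = δ₀ 1 1 := by
          intro δ hδ
          obtain ⟨⟨-, a1⟩, -, a2⟩ := hGm δ hδ
          obtain ⟨⟨-, b1⟩, -, b2⟩ := hGm δ₀ hδ₀
          constructor
          · apply mul_left_cancel₀ two_ne
            linear_combination a1 + a2 - b1 - b2
          · apply mul_left_cancel₀ two_ne
            linear_combination a1 - a2 - b1 + b2
        have hinj : Set.InjOn (fun δ : SL(2, K) => (δ 0 1, δ 1 0)) G := by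
          intro δ hδ η hη h
          have d1 := hdiag δ hδ
          have d2 := hdiag η hη
          exact sl_ext2 (d1.1.trans d2.1.symm) (Prod.mk.inj h).1 (Prod.mk.inj h).2
            (d1.2.trans d2.2.symm)
        rw [← Finset.card_image_of_injOn hinj]
        apply hfac k (δ₀ 0 1 * δ₀ 1 0) (hGm δ₀ hδ₀).2.1
        intro x hx
        obtain ⟨δ, hδ, rfl⟩ := Finset.mem_image.1 hx
        have d1 := hdiag δ hδ
        have e1 := det_eq2 δ
        have e2 := det_eq2 δ₀
        rw [d1.1, d1.2] at e1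
        have hδs := (hGm δ hδ).1.1
        obtain ⟨-, -, hL, -⟩ := hs δ hδs
        exact ⟨by linear_combination e2 - e1, hL 0 1, hL 1 0,
          fun w => ⟨hebd δ hδs 0 1 w, hebd δ hδs 1 0 w⟩⟩
      · apply hbox m hm
        · intro x hx
          obtain ⟨δ, hδ, rfl⟩ := Finset.mem_image.1 hx
          have hδs := (hFs δ (Finset.mem_filter.1 hδ).1).1
          exact hsbd δ hδs
        · intro x hx y hy
          obtain ⟨δ, hδ, rfl⟩ := Finset.mem_image.1 hx
          obtain ⟨η, hη, rfl⟩ := Finset.mem_image.1 hy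
          have hδs := (hFs δ (Finset.mem_filter.1 hδ).1).1
          have hηs := (hFs η (Finset.mem_filter.1 hη).1).1
          obtain ⟨-, -, -, -, -, -, k1, -⟩ := hs δ hδs
          obtain ⟨-, -, -, -, -, -, k2, -⟩ := hs η hηs
          exact fr_sub k1 k2
    · -- zero product
      set F2 := F.filter fun δ => ¬ (δ 0 1 * δ 1 0 ≠ 0) with hF2
      have hF2m : ∀ δ ∈ F2, (δ ∈ s ∧ δ 0 0 + δ 1 1 = τ) ∧ δ 0 1 * δ 1 0 = 0 := by
        intro δ hδ
        rw [hF2, Finset.mem_filter, not_not] at hδ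
        exact ⟨hFs δ hδ.1, hδ.2⟩
      apply card_le_real _ (fun δ => δ 0 0) (by positivity)
      · intro a _
        set G := F2.filter fun δ => δ 0 0 = a with hG
        have hGm : ∀ δ ∈ G, (δ ∈ s ∧ δ 0 0 + δ 1 1 = τ) ∧ δ 0 1 * δ 1 0 = 0 ∧ δ 0 0 = a := by
          intro δ hδ
          rw [hG, Finset.mem_filter] at hδ
          exact ⟨(hF2m δ hδ.1).1, (hF2m δ hδ.1).2, hδ.2⟩
        rw [← Finset.card_filter_add_card_filter_not (s := G) fun δ => δ 0 1 = 0]
        push_cast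
        rw [two_mul]
        have hentry : ∀ (i j : Fin 2), (∀ δ ∈ s, δ i j ∈ Fr 𝔭 k m) → ∀ H : Finset SL(2, K),
            (∀ δ ∈ H, δ ∈ s) → Set.InjOn (fun δ : SL(2, K) => δ i j) H → (H.card : ℝ) ≤ β := by
          intro i j hij H hH hinj
          rw [← Finset.card_image_of_injOn hinj]
          apply hbox m hm
          · intro x hx
            obtain ⟨δ, hδ, rfl⟩ := Finset.mem_image.1 hx
            exact hebd δ (hH δ hδ) i j
          · intro x hx y hy
            obtain ⟨δ, hδ, rfl⟩ := Finset.mem_image.1 hx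
            obtain ⟨η, hη, rfl⟩ := Finset.mem_image.1 hy
            exact fr_sub (hij δ (hH δ hδ)) (hij η (hH η hη))
        apply add_le_add
        · apply hentry 1 0 (fun δ hδ => by
            obtain ⟨-, -, -, -, -, k, -, -⟩ := hs δ hδ
            exact k)
          · intro δ hδ
            exact (hGm δ (Finset.mem_filter.1 hδ).1).1.1
          · intro δ hδ η hη h
            obtain ⟨hδG, hδ0⟩ := Finset.mem_filter.1 (Finset.mem_coe.1 hδ)
            obtain ⟨hηG, hη0⟩ := Finset.mem_filter.1 (Finset.mem_coe.1 hη)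
            obtain ⟨⟨-, a1⟩, -, a2⟩ := hGm δ hδG
            obtain ⟨⟨-, b1⟩, -, b2⟩ := hGm η hηG
            exact sl_ext2 (a2.trans b2.symm) (hδ0.trans hη0.symm) h
              (by linear_combination a1 - b1 - a2 + b2)
        · apply hentry 0 1 (fun δ hδ => by
            obtain ⟨-, -, -, -, k, -, -, -⟩ := hs δ hδ
            exact k)
          · intro δ hδ
            exact (hGm δ (Finset.mem_filter.1 hδ).1).1.1
          · intro δ hδ η hη h
            obtain ⟨hδG, hδ0⟩ := Finset.mem_filter.1 (Finset.mem_coe.1 hδ)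
            obtain ⟨hηG, hη0⟩ := Finset.mem_filter.1 (Finset.mem_coe.1 hη)
            obtain ⟨⟨-, a1⟩, a3, a2⟩ := hGm δ hδG
            obtain ⟨⟨-, b1⟩, b3, b2⟩ := hGm η hηG
            have c1 : δ 1 0 = 0 := (mul_eq_zero.1 a3).resolve_left hδ0
            have c2 : η 1 0 = 0 := (mul_eq_zero.1 b3).resolve_left hη0
            exact sl_ext2 (a2.trans b2.symm) h (c1.trans c2.symm)
              (by linear_combination a1 - b1 - a2 + b2)
      · rcases F2.eq_empty_or_nonempty with hFe | ⟨δ₀, hδ₀⟩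
        · rw [hFe]; simp
        have hsub : (F2.image fun δ => δ 0 0) ⊆ {δ₀ 0 0, τ - δ₀ 0 0} := by
          intro x hx
          obtain ⟨δ, hδ, rfl⟩ := Finset.mem_image.1 hx
          obtain ⟨⟨-, a1⟩, a3⟩ := hF2m δ hδ
          obtain ⟨⟨-, b1⟩, b3⟩ := hF2m δ₀ hδ₀
          have e1 := det_eq2 δ
          have e2 := det_eq2 δ₀
          have e3 : (δ 0 0 - δ₀ 0 0) * (δ 0 0 - (τ - δ₀ 0 0)) = 0 := by
            linear_combination (-1 : K) * e1 + e2 + δ 0 0 * a1 - δ₀ 0 0 * b1 - a3 + b3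
          rw [Finset.mem_insert, Finset.mem_singleton]
          rcases mul_eq_zero.1 e3 with h | h
          · exact Or.inl (sub_eq_zero.1 h)
          · exact Or.inr (sub_eq_zero.1 h)
        exact_mod_cast (Finset.card_le_card hsub).trans Finset.card_le_two
  have hall := card_le_real s (fun δ => δ 0 0 + δ 1 1) (by positivity) hfib hT
  rcases s.eq_empty_or_nonempty with rfl | ⟨δ, hδ⟩
  · simp only [card_empty, Nat.cast_zero]; positivity
  -- the norm of `m` is small
  have hsmall : (Ideal.absNorm m : ℝ) ≤ D * X := by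
    have key : ∀ y : K, y ∈ Fr 𝔭 k m → y ≠ 0 → (∀ w : InfinitePlace K, w y ≤ B) →
        (Ideal.absNorm m : ℝ) ≤ D * X := by
      intro y hy h0 hb
      refine (norm_ge_fr m k h𝔭 hy h0).trans ?_
      refine mul_le_mul_of_nonneg_right ?_ hX0.le
      rw [hD, ← InfinitePlace.sum_mult_eq, ← Finset.prod_pow_eq_pow_sum]
      exact Finset.prod_le_prod (fun w _ => pow_nonneg (apply_nonneg _ _) _) fun w _ =>
        pow_le_pow_left₀ (apply_nonneg _ _) (hb w) _
    obtain ⟨n1, n2, -, -, k1, k2, k3, -⟩ := hs δ hδ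
    by_cases c1 : δ 0 1 = 0
    · by_cases c2 : δ 1 0 = 0
      · by_cases c3 : δ 0 0 - δ 1 1 = 0
        · exfalso
          have e1 := det_eq2 δ
          have c4 : δ 0 0 = δ 1 1 := sub_eq_zero.1 c3
          have e2 : (δ 0 0 - 1) * (δ 0 0 + 1) = 0 := by
            rw [c1, ← c4] at e1
            linear_combination e1
          rcases mul_eq_zero.1 e2 with h | h
          · apply n1
            have h' : δ 0 0 = 1 := sub_eq_zero.1 h
            refine sl_ext2 ?_ ?_ ?_ ?_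
            · rw [h']; simp
            · rw [c1]; simp
            · rw [c2]; simp
            · rw [← c4, h']; simp
          · apply n2
            have h' : δ 0 0 = -1 := eq_neg_of_add_eq_zero_left h
            refine sl_ext2 ?_ ?_ ?_ ?_
            · rw [h']; simp
            · rw [c1]; simp
            · rw [c2]; simp
            · rw [← c4, h']; simp
        · exact key _ k3 c3 (hsbd δ hδ)
      · exact key _ k2 c2 (hebd δ hδ 1 0)
    · exact key _ k1 c1 (hebd δ hδ 0 1)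
  have hq : 1 ≤ D * (X / Ideal.absNorm m) := by
    rw [mul_div_assoc', le_div_iff₀ hNm, one_mul]
    exact hsmall
  have hβ' : β ≤ C₁ * ((D + 1) * (X / Ideal.absNorm m)) := by
    rw [hβ]
    refine mul_le_mul_of_nonneg_left ?_ hC₁.le
    linarith
  have hM : β * (C₃ * X ^ ε) + 2 * (2 * β) ≤ C₁ * ((D + 1) * (X / Ideal.absNorm m)) *
      ((C₃ + 4) * X ^ ε) := by
    have : β * (C₃ * X ^ ε) + 2 * (2 * β) ≤ β * ((C₃ + 4) * X ^ ε) := by nlinarith
    exact this.trans (mul_le_mul_of_nonneg_right hβ' (by positivity))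
  rw [map_mul, Nat.cast_mul] at hT hall
  refine hall.trans ((mul_le_mul_of_nonneg_left hM (by positivity)).trans (le_of_eq ?_))
  ring

end Pool.Agent.T2h77
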