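import Pool.Agent.T2h77.Red2

/-!
# Reduction theory for `SL₂(𝓞 K)`
-/

set_option autoImplicit false

open NumberField NumberField.mixedEmbedding MeasureTheory Matrix
open scoped MatrixGroups ENNReal

noncomputable section

namespace Pool.Agent.T2h77

variable {K : Type} [Field K] [NumberField K]

open scoped Classical in
lemma norm_le_iff' {R : ℝ} (z : mixedSpace K) : (∀ w, normAtPlace w z ≤ R) ↔ ‖z‖ ≤ R := by
  rw [norm_eq_sup'_normAtPlace, Finset.sup'_le_iff]
  simp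

/-- bounded closed sets of matrices are compact -/
lemma isCompact_box (R : ℝ) : IsCompact {h : GG K | ∀ w i j, normAtPlace w (h i j) ≤ R} := by
  classical
  have h1 : IsCompact {M : Matrix (Fin 2) (Fin 2) (mixedSpace K) |
      ∀ w i j, normAtPlace w (M i j) ≤ R} := by
    have h2 : IsCompact (Set.pi Set.univ fun _ : Fin 2 => Set.pi Set.univ fun _ : Fin 2 =>
        Metric.closedBall (0 : mixedSpace K) R) :=
      isCompact_univ_pi fun _ => isCompact_univ_pi fun _ => isCompact_closedBall _ _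
    have h3 : {M : Matrix (Fin 2) (Fin 2) (mixedSpace K) | ∀ w i j, normAtPlace w (M i j) ≤ R} =
        (Set.pi Set.univ fun _ : Fin 2 => Set.pi Set.univ fun _ : Fin 2 =>
        Metric.closedBall (0 : mixedSpace K) R) := by
      refine Set.ext fun M => ?_
      constructor
      · intro h i _ j _
        rw [Metric.mem_closedBall, dist_zero_right]
        exact (norm_le_iff' _).1 fun w => h w i j
      · intro h w i j
        have h4 := h i trivial j trivial
        rw [Metric.mem_closedBall, dist_zero_right] at h4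
        exact (norm_le_iff' _).2 h4 w
    rw [h3]
    exact h2
  exact Matrix.SpecialLinearGroup.isClosedEmbedding_val.isCompact_preimage h1

/-- integral matrices of determinant `δ` form finitely many classes modulo `SL₂(𝓞 K)` -/
lemma reps (δ : 𝓞 K) (hδ : δ ≠ 0) : ∃ F : Finset (Matrix (Fin 2) (Fin 2) (𝓞 K)),
    ∀ M : Matrix (Fin 2) (Fin 2) (𝓞 K), M.det = δ →
      ∃ N ∈ F, N.det = δ ∧ ∃ γ : SL(2, 𝓞 K), M = N * (γ : Matrix (Fin 2) (Fin 2) (𝓞 K)) := by
  classical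
  have hI : Ideal.span {δ} ≠ (⊥ : Ideal (𝓞 K)) := by
    rw [Ne, Ideal.span_singleton_eq_bot]
    exact hδ
  have : Finite (𝓞 K ⧸ Ideal.span {δ}) := Ideal.finiteQuotientOfFreeOfNeBot _ hI
  obtain ⟨r, hr⟩ : ∃ r : Matrix (Fin 2) (Fin 2) (𝓞 K) → Matrix (Fin 2) (Fin 2) (𝓞 K ⧸ Ideal.span {δ}),
    r = fun M => M.map (Ideal.Quotient.mk _) := ⟨_, rfl⟩
  have : Finite (Matrix (Fin 2) (Fin 2) (𝓞 K ⧸ Ideal.span {δ})) := inferInstanceAs
    (Finite (Fin 2 → Fin 2 → 𝓞 K ⧸ Ideal.span {δ}))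
  have hfin : (r '' {M | M.det = δ}).Finite := Set.toFinite _
  have hch : ∀ c : (r '' {M | M.det = δ}), ∃ M, M.det = δ ∧ r M = c := fun c => c.2
  choose f hf1 hf2 using hch
  have : Fintype (r '' {M | M.det = δ}) := hfin.fintype
  refine ⟨Finset.univ.image f, fun M hM => ?_⟩
  refine ⟨f ⟨r M, M, hM, rfl⟩, Finset.mem_image_of_mem _ (Finset.mem_univ _), hf1 _, ?_⟩
  obtain ⟨N, hN⟩ : ∃ N, N = f ⟨r M, M, hM, rfl⟩ := ⟨_, rfl⟩
  have hNd : N.det = δ := by rw [hN]; exact hf1 _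
  have hNr : r N = r M := by rw [hN]; exact hf2 _
  rw [← hN]
  have hdiv : ∀ i j, ∃ q, M i j - N i j = δ * q := by
    intro i j
    have h1 := congrFun (congrFun hNr i) j
    rw [hr] at h1
    simp only [Matrix.map_apply] at h1
    rw [eq_comm, Ideal.Quotient.eq, Ideal.mem_span_singleton] at h1
    exact h1
  choose Q hQ using hdiv
  have hMN : M = N + δ • Matrix.of Q := by
    ext1 i j
    simp only [Matrix.add_apply, Matrix.smul_apply, Matrix.of_apply, smul_eq_mul]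
    rw [← hQ]
    ring
  have hγ : M = N * (1 + N.adjugate * Matrix.of Q) := by
    rw [mul_add, mul_one, ← mul_assoc, Matrix.mul_adjugate, hNd, Matrix.smul_mul, one_mul, hMN]
  have hdet : (1 + N.adjugate * Matrix.of Q).det = 1 := by
    have h1 := congrArg Matrix.det hγ
    rw [Matrix.det_mul, hM, hNd] at h1
    exact (mul_right_eq_self₀.1 h1.symm).resolve_right hδ
  exact ⟨⟨_, hdet⟩, hγ⟩

lemma rn_le (w : InfinitePlace K) (z : Fin 2 → mixedSpace K) (c : ℝ)
    (h : ∀ i, normAtPlace w (z i) ≤ c) : rn w z ≤ √2 * c := by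
  have hc : 0 ≤ c := (normAtPlace_nonneg w _).trans (h 0)
  have h0 := h 0
  have h1 := h 1
  have n0 := normAtPlace_nonneg w (z 0)
  have n1 := normAtPlace_nonneg w (z 1)
  rw [rn, show √2 * c = √(2 * c ^ 2) by rw [Real.sqrt_mul (by norm_num), Real.sqrt_sq hc]]
  apply Real.sqrt_le_sqrt
  nlinarith

/-- a uniform bound for a function on a finite set -/
lemma exists_bd {α : Type} (s : Finset α) (f : α → ℝ) : ∃ B : ℝ, 0 < B ∧ ∀ a ∈ s, f a ≤ B := by
  classical
  refine ⟨∑ a ∈ s, |f a| + 1, by positivity, fun a ha => ?_⟩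
  have h1 := Finset.single_le_sum (f := fun a => |f a|) (fun a _ => abs_nonneg (f a)) ha
  have h2 := le_abs_self (f a)
  linarith

lemma exists_bd2 {α β : Type} (s : Finset α) (t : α → Finset β) (f : α → β → ℝ) :
    ∃ B : ℝ, 0 < B ∧ ∀ a ∈ s, ∀ b ∈ t a, f a b ≤ B := by
  have h1 : ∀ a, ∃ B : ℝ, 0 < B ∧ ∀ b ∈ t a, f a b ≤ B := fun a => exists_bd (t a) (f a)
  choose g hg0 hg using h1
  obtain ⟨B, hB, hB2⟩ := exists_bd s g
  exact ⟨B, hB, fun a ha b hb => (hg a b hb).trans (hB2 a ha)⟩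

theorem red : S_red := by
  intro K _ _ Y
  classical
  obtain ⟨c, hc, hmin⟩ := exists_small K
  obtain ⟨R, hR, hround⟩ := exists_round K
  rcases le_or_gt Y 0 with hY | hY
  · refine ⟨∅, isCompact_empty, fun g hg => ?_⟩
    exfalso
    have h1 := hg ![1, 0] (by
      intro h
      have := congrFun h 0
      simp at this)
    have h2 : na (K := K) ![1, 0] = 1 := by
      rw [na]
      have : Ideal.span {(![1, 0] : Fin 2 → 𝓞 K) 0, (![1, 0] : Fin 2 → 𝓞 K) 1} = ⊤ := by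
        rw [Ideal.eq_top_iff_one]
        exact Ideal.subset_span (by simp)
      rw [this, Ideal.absNorm_top]
      norm_num
    have h3 : 0 ≤ nn (K := K) ![1, 0] g :=
      Finset.prod_nonneg fun w _ => pow_nonneg (rn_nonneg _ _) _
    have h4 := mul_nonpos_of_nonpos_of_nonneg hY h3
    linarith
  obtain ⟨C1, hC1⟩ : ∃ C1, C1 = max 1 (√2 * c) := ⟨_, rfl⟩
  have hC11 : 1 ≤ C1 := hC1 ▸ le_max_left _ _
  obtain ⟨P, hP⟩ : ∃ P, P = ∏ w : InfinitePlace K, C1 ^ w.mult := ⟨_, rfl⟩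
  have hP1 : 1 ≤ P := by
    rw [hP]
    exact Finset.prod_induction _ (fun x : ℝ => 1 ≤ x)
      (fun a b ha hb => one_le_mul_of_one_le_of_one_le ha hb) le_rfl (fun w _ => one_le_pow₀ hC11)
  -- the ideals
  obtain ⟨T, hT⟩ : ∃ T : Finset (Ideal (𝓞 K)), ∀ I, Ideal.absNorm I ≤ ⌊Y * P⌋₊ → I ∈ T := by
    have hfin := Ideal.finite_setOfPred_absNorm_le (S := 𝓞 K) ⌊Y * P⌋₊
    exact ⟨hfin.toFinset, fun I hI => by simpa using hI⟩
  have hδ : ∀ I : Ideal (𝓞 K), ∃ δ : 𝓞 K, I ≠ ⊥ → δ ∈ I ∧ δ ≠ 0 := by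
    intro I
    by_cases hI : I = ⊥
    · exact ⟨0, fun h => (h hI).elim⟩
    · obtain ⟨δ, h1, h2⟩ := Submodule.exists_mem_ne_zero_of_ne_bot hI
      exact ⟨δ, fun _ => ⟨h1, h2⟩⟩
  choose δ hδ using hδ
  have hF : ∀ I : Ideal (𝓞 K), ∃ F : Finset (Matrix (Fin 2) (Fin 2) (𝓞 K)), I ≠ ⊥ →
      ∀ M : Matrix (Fin 2) (Fin 2) (𝓞 K), M.det = δ I →
      ∃ N ∈ F, N.det = δ I ∧ ∃ γ : SL(2, 𝓞 K), M = N * (γ : Matrix (Fin 2) (Fin 2) (𝓞 K)) := by
    intro I
    by_cases hI : I = ⊥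
    · exact ⟨∅, fun h => (h hI).elim⟩
    · obtain ⟨F, hF⟩ := reps (δ I) (hδ I hI).2
      exact ⟨F, fun _ => hF⟩
  choose F hF using hF
  obtain ⟨Δ, hΔ0, hΔ⟩ := exists_bd2 T (fun _ => (Finset.univ : Finset (InfinitePlace K)))
    (fun I w => w ((δ I : 𝓞 K) : K))
  obtain ⟨κ, hκ0, hκ⟩ := exists_bd2 T (fun _ => (Finset.univ : Finset (InfinitePlace K)))
    (fun I w => (w ((δ I : 𝓞 K) : K))⁻¹)
  obtain ⟨A, hA0, hA⟩ := exists_bd2 T
    (fun I => (F I) ×ˢ (Finset.univ : Finset (InfinitePlace K × Fin 2 × Fin 2)))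
    (fun I p => p.2.1 ((p.1.adjugate p.2.2.1 p.2.2.2 : 𝓞 K) : K))
  obtain ⟨c', hc'⟩ : ∃ c', c' = min 1 (1 / (Y * P)) := ⟨_, rfl⟩
  have hc'0 : 0 < c' := by rw [hc']; positivity
  obtain ⟨B, hB⟩ : ∃ B, B = max c (√(2 * R ^ 2 * c ^ 2 + Δ ^ 2 / c' ^ 2)) := ⟨_, rfl⟩
  have hB0 : 0 < B := hB ▸ lt_max_of_lt_left hc
  refine ⟨_, isCompact_box (K := K) (κ * (2 * A * B)), fun g hg => ?_⟩
  obtain ⟨x, hx0, hx⟩ := hmin g
  -- upper and lower bounds
  have hup : ∀ w, rn w (Matrix.vecMul (emb K x) g.1) ≤ C1 := fun w =>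
    (rn_le w _ c (hx w)).trans (hC1 ▸ le_max_right _ _)
  have hnn : nn x g ≤ P := by
    rw [hP, nn]
    exact Finset.prod_le_prod (fun w _ => pow_nonneg (rn_nonneg _ _) _)
      fun w _ => pow_le_pow_left₀ (rn_nonneg _ _) (hup w) _
  obtain ⟨I, hI⟩ : ∃ I, I = Ideal.span {x 0, x 1} := ⟨_, rfl⟩
  have hIbot : I ≠ ⊥ := by
    intro h
    apply hx0
    rw [hI, Ideal.span_eq_bot] at h
    funext i
    fin_cases i
    · exact h _ (by simp)
    · exact h _ (by simp)
  have hna1 : 1 ≤ na x := by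
    rw [na, ← hI]
    have : Ideal.absNorm I ≠ 0 := by
      rw [Ne, Ideal.absNorm_eq_zero_iff]
      exact hIbot
    exact_mod_cast Nat.one_le_iff_ne_zero.2 this
  have hgx := hg x hx0
  have hIT : I ∈ T := by
    apply hT
    apply Nat.le_floor
    have h1 : (Ideal.absNorm I : ℝ) = na x := by rw [na, hI]
    rw [h1]
    exact hgx.trans (mul_le_mul_of_nonneg_left hnn hY.le)
  have hlow : ∀ w, c' ≤ rn w (Matrix.vecMul (emb K x) g.1) := by
    intro w
    obtain ⟨s, hs⟩ : ∃ s, s = rn w (Matrix.vecMul (emb K x) g.1) := ⟨_, rfl⟩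
    rw [← hs]
    have hs0 : 0 ≤ s := hs ▸ rn_nonneg _ _
    rcases le_or_gt 1 s with h1 | h1
    · exact (hc' ▸ min_le_left _ _ : c' ≤ 1).trans h1
    · refine (hc' ▸ min_le_right _ _ : c' ≤ 1 / (Y * P)).trans ?_
      have h2 : nn x g ≤ s * P := by
        rw [nn, ← Finset.mul_prod_erase _ _ (Finset.mem_univ w)]
        have h3 : ∏ w' ∈ Finset.univ.erase w,
            rn w' (Matrix.vecMul (emb K x) g.1) ^ w'.mult ≤ P := by
          have h4 : ∏ w' ∈ Finset.univ.erase w,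
            rn w' (Matrix.vecMul (emb K x) g.1) ^ w'.mult ≤
              ∏ w' ∈ Finset.univ.erase w, C1 ^ w'.mult :=
            Finset.prod_le_prod (fun w _ => pow_nonneg (rn_nonneg _ _) _)
              fun w _ => pow_le_pow_left₀ (rn_nonneg _ _) (hup w) _
          refine h4.trans ?_
          rw [hP, ← Finset.mul_prod_erase _ _ (Finset.mem_univ w)]
          refine le_mul_of_one_le_left (Finset.prod_nonneg fun w _ => by positivity)
            (one_le_pow₀ hC11)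
        have h5 : s ^ w.mult ≤ s := by
          refine pow_le_of_le_one hs0 h1.le ?_
          exact InfinitePlace.mult_ne_zero
        rw [← hs]
        exact mul_le_mul h5 h3 (Finset.prod_nonneg fun w _ => pow_nonneg (rn_nonneg _ _) _) hs0
      rw [div_le_iff₀ (by positivity)]
      have h6 := hna1.trans hgx
      have h7 := mul_le_mul_of_nonneg_left h2 hY.le
      calc (1 : ℝ) ≤ Y * (s * P) := h6.trans h7
        _ = s * (Y * P) := by ring
  -- the second vector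
  obtain ⟨hδI, hδ0⟩ := hδ I hIbot
  rw [hI, Ideal.mem_span_pair, ← hI] at hδI
  obtain ⟨a, b, hab⟩ := hδI
  have hdt : dt x ![-b, a] = δ I := by
    rw [dt, ← hab]
    simp
    ring
  obtain ⟨y, hy1, hy2⟩ := adjust R c c' Δ hround hc'0 x ![-b, a] g hx hlow
    (fun w => by rw [hdt]; exact hΔ I hIT w (Finset.mem_univ w))
  rw [hdt] at hy1
  obtain ⟨M, hM⟩ : ∃ M : Matrix (Fin 2) (Fin 2) (𝓞 K), M = !![x 0, x 1; y 0, y 1] := ⟨_, rfl⟩
  have hMdet : M.det = δ I := by
    rw [hM, Matrix.det_fin_two_of, ← hy1, dt]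
  obtain ⟨N, hNF, hNdet, γ, hγ⟩ := hF I hIbot M hMdet
  refine ⟨γ, ?_⟩
  intro w i j
  -- the matrices over the mixed space
  obtain ⟨φ, hφ⟩ : ∃ φ : 𝓞 K →+* mixedSpace K, φ = (mixedEmbedding K).comp (algebraMap (𝓞 K) K) :=
    ⟨_, rfl⟩
  have hφw : ∀ a : 𝓞 K, normAtPlace w (φ a) = w (a : K) := by
    intro a
    rw [hφ]
    exact normAtPlace_apply w _
  have hio : ((io K γ * g : GG K) : Matrix (Fin 2) (Fin 2) (mixedSpace K)) =
      (γ : Matrix (Fin 2) (Fin 2) (𝓞 K)).map φ * g.1 := by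
    rw [hφ, Matrix.SpecialLinearGroup.coe_mul]
    rfl
  have hMg : ∀ k l, normAtPlace w ((M.map φ * g.1) k l) ≤ B := by
    intro k l
    have hrow : ∀ z : Fin 2 → 𝓞 K, ∀ l, φ (z 0) * g 0 l + φ (z 1) * g 1 l =
        Matrix.vecMul (emb K z) g.1 l := by
      intro z l
      rw [vm, hφ]
      rfl
    rw [Matrix.mul_apply, Fin.sum_univ_two, Matrix.map_apply, Matrix.map_apply]
    fin_cases k
    · have h1 := hrow x l
      simp only [hM, Fin.zero_eta, Matrix.of_apply, Matrix.cons_val', Matrix.cons_val_zero,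
        Matrix.cons_val_one, Matrix.cons_val_fin_one]
      rw [h1]
      exact (hx w l).trans (hB ▸ le_max_left _ _)
    · have h1 := hrow y l
      simp only [hM, Fin.mk_one, Matrix.of_apply, Matrix.cons_val', Matrix.cons_val_zero,
        Matrix.cons_val_one, Matrix.cons_val_fin_one]
      rw [h1]
      exact (hy2 w l).trans (hB ▸ le_max_right _ _)
  have hkey : φ (δ I) • ((io K γ * g : GG K) : Matrix (Fin 2) (Fin 2) (mixedSpace K)) =
      N.adjugate.map φ * (M.map φ * g.1) := by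
    rw [hio, hγ, Matrix.map_mul, ← mul_assoc, ← mul_assoc, ← Matrix.map_mul, Matrix.adjugate_mul,
      hNdet, Matrix.map_smul', Matrix.map_one, Matrix.smul_mul, one_mul, Matrix.smul_mul]
    · exact map_zero φ
    · exact map_one φ
    · exact map_mul φ
  have hij := congrFun (congrFun hkey i) j
  rw [Matrix.smul_apply, smul_eq_mul, Matrix.mul_apply, Fin.sum_univ_two] at hij
  have hadj : ∀ k, normAtPlace w (N.adjugate.map φ i k) ≤ A := by
    intro k
    rw [Matrix.map_apply, hφw]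
    exact hA I hIT (N, w, i, k) (by simp [hNF])
  have hnorm : w ((δ I : 𝓞 K) : K) * normAtPlace w ((io K γ * g : GG K) i j) ≤ 2 * A * B := by
    rw [← hφw, ← map_mul, hij]
    refine (normAtPlace_add_le w _ _).trans ?_
    rw [map_mul, map_mul]
    have e0 := mul_le_mul (hadj 0) (hMg 0 j) (normAtPlace_nonneg w _) hA0.le
    have e1 := mul_le_mul (hadj 1) (hMg 1 j) (normAtPlace_nonneg w _) hA0.le
    linarith
  have hwpos : 0 < w ((δ I : 𝓞 K) : K) := by
    rw [InfinitePlace.pos_iff]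
    exact_mod_cast hδ0
  have h9 : (w ((δ I : 𝓞 K) : K))⁻¹ ≤ κ := hκ I hIT w (Finset.mem_univ w)
  calc normAtPlace w ((io K γ * g : GG K) i j)
      = (w ((δ I : 𝓞 K) : K))⁻¹ * (w ((δ I : 𝓞 K) : K) *
        normAtPlace w ((io K γ * g : GG K) i j)) := by
        rw [← mul_assoc, inv_mul_cancel₀ hwpos.ne', one_mul]
    _ ≤ κ * (2 * A * B) := by
        apply mul_le_mul h9 hnorm (mul_nonneg hwpos.le (normAtPlace_nonneg w _)) hκ0.le

end Pool.Agent.T2h77
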