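import Pool.Agent.T2h77.VolD

/-!
# The volume of the balls and the integral of the inverse norm: `S_unimod`, `S_vol`, `S_xi`
-/

set_option autoImplicit false

open NumberField NumberField.mixedEmbedding MeasureTheory Matrix
open NumberField.InfinitePlace
open scoped MatrixGroups ENNReal

noncomputable section

namespace Pool.Agent.T2h77

namespace VolPkg

section fin

variable {K : Type} [Field K] [NumberField K] {v : InfinitePlace K} {𝕜 : Type} [RCLike 𝕜] (C : Comp K v 𝕜)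

lemma mult_pos' (v : InfinitePlace K) : 1 ≤ v.mult := by
  unfold InfinitePlace.mult
  split_ifs <;> norm_num

include C in
/-- the two norms -/
lemma one_le_mul (h : GG K) : 1 ≤ rn v (h 0) * rn v (h 1) := by
  obtain ⟨s, hs⟩ := gram C h
  rw [rn_row C, rn_row C]
  set x := row C h 0 with hx
  set y := row C h 1 with hy
  -- the determinant is bounded by the product of the norms
  have hdet : C.π (h 0 0) * C.π (h 1 1) - C.π (h 0 1) * C.π (h 1 0) = 1 := by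
    rw [← map_mul, ← map_mul, ← map_sub, det2 h, map_one]
  have hx2 : ‖x‖ ^ 2 = ‖C.π (h 0 0)‖ ^ 2 + ‖C.π (h 0 1)‖ ^ 2 := by
    rw [EuclideanSpace.norm_eq, Fin.sum_univ_two, Real.sq_sqrt (by positivity)]
    rfl
  have hy2 : ‖y‖ ^ 2 = ‖C.π (h 1 0)‖ ^ 2 + ‖C.π (h 1 1)‖ ^ 2 := by
    rw [EuclideanSpace.norm_eq, Fin.sum_univ_two, Real.sq_sqrt (by positivity)]
    rfl
  have h1 : (1 : ℝ) ≤ ‖C.π (h 0 0)‖ * ‖C.π (h 1 1)‖ + ‖C.π (h 0 1)‖ * ‖C.π (h 1 0)‖ := by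
    calc (1 : ℝ) = ‖C.π (h 0 0) * C.π (h 1 1) - C.π (h 0 1) * C.π (h 1 0)‖ := by rw [hdet, norm_one]
      _ ≤ _ := by
        refine (norm_sub_le _ _).trans ?_
        rw [norm_mul, norm_mul]
  set a := ‖C.π (h 0 0)‖
  set b := ‖C.π (h 0 1)‖
  set c := ‖C.π (h 1 0)‖
  set d := ‖C.π (h 1 1)‖
  have ha : 0 ≤ a := norm_nonneg _
  have hb : 0 ≤ b := norm_nonneg _
  have hc : 0 ≤ c := norm_nonneg _
  have hd : 0 ≤ d := norm_nonneg _
  have h2 : 1 ≤ (‖x‖ * ‖y‖) ^ 2 := by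
    rw [mul_pow, hx2, hy2]
    have h3 : (a * d + b * c) ^ 2 ≤ (a ^ 2 + b ^ 2) * (c ^ 2 + d ^ 2) := by
      nlinarith [sq_nonneg (a * c - b * d)]
    have h4 : 1 ≤ (a * d + b * c) ^ 2 := by
      nlinarith
    linarith
  have h5 : 0 ≤ ‖x‖ * ‖y‖ := by positivity
  nlinarith

/-- the dyadic block -/
def blk (v : InfinitePlace K) (ρ ρ₀ : ℝ) (k : ℕ) : Set (GG K) :=
  E v ρ₀ (1 / 2 * (ρ * (1 / 2) ^ k)) (1 * (ρ * (1 / 2) ^ k)) ρ

include C in
lemma blk_le (ρ ρ₀ : ℝ) (hρ : 0 < ρ) (k : ℕ) :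
    mu K (blk v ρ ρ₀ k) ≤ ENNReal.ofReal ((7 * (ρ * (ρ * (1 / 2) ^ k))) ^ v.mult) * mu K (E v ρ₀ (1 / 2) 1 3) := by
  set t : ℝ := ρ * (1 / 2) ^ k with ht
  have htpos : 0 < t := by positivity
  by_cases hne : (blk v ρ ρ₀ k).Nonempty
  · obtain ⟨h, hh⟩ := hne
    rw [blk, mem_E] at hh
    obtain ⟨h1, h2, h3, h4⟩ := hh
    have h5 := one_le_mul C h
    have h6 : 1 ≤ ρ * t := by
      have h7 : rn v (h 0) * rn v (h 1) ≤ t * ρ := by
        refine mul_le_mul (by rw [one_mul] at h2; exact h2) h3 (rn_nonneg _ _) htpos.le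
      linarith
    rw [blk, scaleE C ρ₀ _ _ _ t htpos]
    refine (upperE C ρ₀ (ρ * t) (by positivity)).trans ?_
    gcongr
    linarith
  · rw [Set.not_nonempty_iff_eq_empty] at hne
    rw [hne, measure_empty]
    exact zero_le

include C in
lemma exists_blk (ρ ρ₀ : ℝ) (hρ : 0 < ρ) (h : GG K) (hh : h ∈ ball (rad v ρ ρ₀)) :
    ∃ k : ℕ, h ∈ blk v ρ ρ₀ k ∧ 1 ≤ ρ * (ρ * (1 / 2) ^ k) := by
  have hv : mn v h ≤ ρ := by
    have := hh v
    simpa [rad] using this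
  have h0 : rn v (h 0) ≤ ρ := (rn_le_mn v h 0).trans hv
  have h1 : rn v (h 1) ≤ ρ := (rn_le_mn v h 1).trans hv
  have hO : h ∈ O v ρ₀ := by
    intro w hw
    have := hh w
    simpa [rad, hw] using this
  have h5 := one_le_mul C h
  have hpos : 0 < rn v (h 0) := by
    rcases (rn_nonneg v (h 0)).lt_or_eq with h6 | h6
    · exact h6
    · rw [← h6, zero_mul] at h5
      linarith
  obtain ⟨k, hk1, hk2⟩ := exists_nat_pow_near_of_lt_one (x := rn v (h 0) / ρ) (y := 1 / 2) (by positivity)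
    ((div_le_one hρ).2 h0) (by norm_num) (by norm_num)
  rw [lt_div_iff₀ hρ] at hk1
  rw [div_le_iff₀ hρ] at hk2
  refine ⟨k, ?_, ?_⟩
  · rw [blk, mem_E]
    refine ⟨?_, ?_, h1, hO⟩
    · rw [pow_succ] at hk1
      linarith
    · linarith
  · have h7 : rn v (h 0) * rn v (h 1) ≤ (ρ * (1 / 2) ^ k) * ρ :=
      mul_le_mul (by linarith) h1 (rn_nonneg _ _) (by positivity)
    linarith

include C in
lemma vol_upper (ρ ρ₀ : ℝ) (hρ : 0 < ρ) :
    mu K (ball (rad v ρ ρ₀)) ≤ ENNReal.ofReal (2 * 7 ^ v.mult * ρ ^ (2 * v.mult)) * mu K (E v ρ₀ (1 / 2) 1 3) := by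
  have hsub : ball (rad v ρ ρ₀) ⊆ ⋃ k : ℕ, blk v ρ ρ₀ k := by
    intro h hh
    obtain ⟨k, hk, _⟩ := exists_blk C ρ ρ₀ hρ h hh
    exact Set.mem_iUnion.2 ⟨k, hk⟩
  calc mu K (ball (rad v ρ ρ₀)) ≤ mu K (⋃ k : ℕ, blk v ρ ρ₀ k) := measure_mono hsub
    _ ≤ ∑' k : ℕ, mu K (blk v ρ ρ₀ k) := measure_iUnion_le _
    _ ≤ ∑' k : ℕ, ENNReal.ofReal (7 ^ v.mult * ρ ^ (2 * v.mult) * (1 / 2) ^ k) * mu K (E v ρ₀ (1 / 2) 1 3) := by
        refine ENNReal.tsum_le_tsum fun k => (blk_le C ρ ρ₀ hρ k).trans ?_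
        gcongr
        have e1 : (7 * (ρ * (ρ * (1 / 2) ^ k))) ^ v.mult = 7 ^ v.mult * ρ ^ (2 * v.mult) * ((1 / 2) ^ k) ^ v.mult := by
          rw [mul_pow, mul_pow, mul_pow, pow_mul', sq]
          ring
        rw [e1]
        gcongr
        have h2 : ((1 / 2 : ℝ) ^ k) ^ v.mult ≤ ((1 / 2 : ℝ) ^ k) ^ 1 :=
          pow_le_pow_of_le_one (by positivity) (pow_le_one₀ (by norm_num) (by norm_num)) (mult_pos' v)
        simpa using h2
    _ = ENNReal.ofReal (2 * 7 ^ v.mult * ρ ^ (2 * v.mult)) * mu K (E v ρ₀ (1 / 2) 1 3) := by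
        rw [ENNReal.tsum_mul_right]
        congr 1
        rw [← ENNReal.ofReal_tsum_of_nonneg]
        · congr 1
          rw [tsum_mul_left, tsum_geometric_two]
          ring
        · intro k
          positivity
        · exact (summable_geometric_two).mul_left _

include C in
lemma vol_lower (ρ ρ₀ : ℝ) (hρ : 5 ≤ ρ) :
    ENNReal.ofReal ((ρ ^ 2 / 8) ^ v.mult) * mu K (E v ρ₀ (1 / 2) 1 3) ≤
      ENNReal.ofReal (12 ^ v.mult) * mu K (ball (rad v ρ ρ₀)) := by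
  have hsub : E v ρ₀ (1 / 2 * (ρ / 2)) (1 * (ρ / 2)) (ρ / 2) ⊆ ball (rad v ρ ρ₀) := by
    intro h hh
    rw [mem_E] at hh
    obtain ⟨h1, h2, h3, h4⟩ := hh
    intro w
    unfold rad
    split_ifs with hw
    · subst hw
      unfold mn
      apply Real.sqrt_le_iff.2
      refine ⟨by linarith, ?_⟩
      have e0 := rn_nonneg w (h 0)
      have e1 := rn_nonneg w (h 1)
      nlinarith
    · exact h4 w hw
  have h1 := lowerE C ρ₀ (ρ / 2 * (ρ / 2)) (by nlinarith)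
  have h2 : mu K (E v ρ₀ (1 / 2) 1 (ρ / 2 * (ρ / 2))) ≤ mu K (ball (rad v ρ ρ₀)) := by
    rw [← scaleE C ρ₀ (1 / 2) 1 (ρ / 2) (ρ / 2) (by linarith)]
    exact measure_mono hsub
  calc ENNReal.ofReal ((ρ ^ 2 / 8) ^ v.mult) * mu K (E v ρ₀ (1 / 2) 1 3)
      ≤ ENNReal.ofReal ((ρ / 2 * (ρ / 2) - 3) ^ v.mult) * mu K (E v ρ₀ (1 / 2) 1 3) := by
        gcongr
        nlinarith
    _ ≤ ENNReal.ofReal (12 ^ v.mult) * mu K (E v ρ₀ (1 / 2) 1 (ρ / 2 * (ρ / 2))) := h1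
    _ ≤ _ := by gcongr

include C in
theorem vol_comp (ρ₀ : ℝ) (hρ₀ : √2 < ρ₀) :
    ∃ c C' : ℝ, 0 < c ∧ 0 < C' ∧ ∀ ρ : ℝ, 2 ≤ ρ →
      ENNReal.ofReal (c * ρ ^ (2 * v.mult)) ≤ mu K (ball (rad v ρ ρ₀)) ∧
        mu K (ball (rad v ρ ρ₀)) ≤ ENNReal.ofReal (C' * ρ ^ (2 * v.mult)) := by
  have hD0 := E_pos C ρ₀ hρ₀
  have hDt := E_finite (v := v) (K := K) ρ₀
  set D := mu K (E v ρ₀ (1 / 2) 1 3) with hD
  set δ : ℝ := D.toReal with hδ
  have hδpos : 0 < δ := ENNReal.toReal_pos hD0.ne' hDt.ne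
  have hDδ : D = ENNReal.ofReal δ := (ENNReal.ofReal_toReal hDt.ne).symm
  -- the ball of radius two
  have hb0 : 0 < mu K (ball (rad v 2 ρ₀)) := by
    have hopen : IsOpen (⋂ w, {h : GG K | mn w h < rad v 2 ρ₀ w}) :=
      isOpen_iInter_of_finite fun w => isOpen_lt (cont_mn w) continuous_const
    have hne : (⋂ w, {h : GG K | mn w h < rad v 2 ρ₀ w}).Nonempty := by
      refine ⟨1, ?_⟩
      rw [Set.mem_iInter]
      intro w
      change mn w 1 < rad v 2 ρ₀ w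
      rw [mn_one]
      unfold rad
      split_ifs
      · rw [Real.sqrt_lt' (by norm_num)]
        norm_num
      · exact hρ₀
    refine lt_of_lt_of_le (hopen.measure_pos (mu K) hne) (measure_mono ?_)
    intro h hh w
    rw [Set.mem_iInter] at hh
    exact le_of_lt (hh w)
  have hbt : mu K (ball (rad v 2 ρ₀)) < ∞ := (isCompact_ball _).measure_lt_top
  set b : ℝ := (mu K (ball (rad v 2 ρ₀))).toReal with hb
  have hbpos : 0 < b := ENNReal.toReal_pos hb0.ne' hbt.ne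
  have hbδ : mu K (ball (rad v 2 ρ₀)) = ENNReal.ofReal b := (ENNReal.ofReal_toReal hbt.ne).symm
  refine ⟨min (b / 25 ^ v.mult) (δ / 96 ^ v.mult), 2 * 7 ^ v.mult * δ, ?_, by positivity, ?_⟩
  · exact lt_min (by positivity) (by positivity)
  intro ρ hρ
  constructor
  · rcases le_or_gt 5 ρ with h5 | h5
    · have h1 := vol_lower C ρ ρ₀ h5
      rw [← hD, hDδ, ← ENNReal.ofReal_mul (by positivity)] at h1
      have h12 : ENNReal.ofReal ((12 : ℝ) ^ v.mult) ≠ 0 := by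
        rw [ne_eq, ENNReal.ofReal_eq_zero, not_le]
        positivity
      have h2 : ENNReal.ofReal ((12 : ℝ) ^ v.mult) * ENNReal.ofReal (δ / 96 ^ v.mult * ρ ^ (2 * v.mult)) ≤
          ENNReal.ofReal (12 ^ v.mult) * mu K (ball (rad v ρ ρ₀)) := by
        refine le_trans (le_of_eq ?_) h1
        rw [← ENNReal.ofReal_mul (by positivity)]
        congr 1
        have e : (96 : ℝ) ^ v.mult = 12 ^ v.mult * 8 ^ v.mult := by rw [← mul_pow]; norm_num
        rw [e, div_pow, pow_mul]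
        field_simp
      have h3 := (ENNReal.mul_le_mul_iff_right h12 ENNReal.ofReal_ne_top).1 h2
      refine le_trans ?_ h3
      apply ENNReal.ofReal_le_ofReal
      gcongr
      exact min_le_right _ _
    · calc ENNReal.ofReal (min (b / 25 ^ v.mult) (δ / 96 ^ v.mult) * ρ ^ (2 * v.mult))
          ≤ ENNReal.ofReal b := by
            apply ENNReal.ofReal_le_ofReal
            have e1 : ρ ^ (2 * v.mult) ≤ 25 ^ v.mult := by
              rw [pow_mul]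
              gcongr
              nlinarith
            calc min (b / 25 ^ v.mult) (δ / 96 ^ v.mult) * ρ ^ (2 * v.mult)
                ≤ b / 25 ^ v.mult * 25 ^ v.mult := by
                  gcongr
                  exact min_le_left _ _
              _ = b := by field_simp
        _ = mu K (ball (rad v 2 ρ₀)) := hbδ.symm
        _ ≤ mu K (ball (rad v ρ ρ₀)) := by
            refine measure_mono fun h hh w => (hh w).trans ?_
            unfold rad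
            split_ifs
            · exact hρ
            · exact le_rfl
  · refine (vol_upper C ρ ρ₀ (by linarith)).trans ?_
    rw [← hD, hDδ, ← ENNReal.ofReal_mul (by positivity)]
    apply ENNReal.ofReal_le_ofReal
    apply le_of_eq
    ring

end fin

section xi

variable {K : Type} [Field K] [NumberField K] {v : InfinitePlace K} {𝕜 : Type} [RCLike 𝕜] (C : Comp K v 𝕜)

lemma lint_biUnion_le {α : Type} [MeasurableSpace α] (μ : Measure α) (s : Finset ℕ) (A : ℕ → Set α) (f : α → ℝ≥0∞) :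
    ∫⁻ a in ⋃ k ∈ s, A k, f a ∂μ ≤ ∑ k ∈ s, ∫⁻ a in A k, f a ∂μ := by
  classical
  induction s using Finset.induction_on with
  | empty => simp
  | insert k s hk ih =>
    rw [Finset.set_biUnion_insert, Finset.sum_insert hk]
    exact (lintegral_union_le _ _ _).trans (by gcongr)

include C in
/-- the integral of `‖e₁ h‖_v ^ (-d_v)` -/
lemma xi0 (ρ ρ₀ : ℝ) (hρ : 2 ≤ ρ) :
    ∫⁻ h in ball (rad v ρ ρ₀), ENNReal.ofReal ((rn v ((h : GG K) 0) ^ v.mult)⁻¹) ∂(mu K) ≤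
      ENNReal.ofReal (14 ^ v.mult * ρ ^ v.mult * (1 + 4 * Real.log ρ)) * mu K (E v ρ₀ (1 / 2) 1 3) := by
  have hρ0 : 0 < ρ := by linarith
  set n : ℕ := ⌊4 * Real.log ρ⌋₊ + 1 with hn
  have hlog : 0 ≤ Real.log ρ := Real.log_nonneg (by linarith)
  have hsub : ball (rad v ρ ρ₀) ⊆ ⋃ k ∈ Finset.range n, blk v ρ ρ₀ k := by
    intro h hh
    obtain ⟨k, hk, hk1⟩ := exists_blk C ρ ρ₀ hρ0 h hh
    have hkn : k < n := by
      have h1 : (2 : ℝ) ^ k ≤ ρ ^ 2 := by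
        have h2 : (2 : ℝ) ^ k * (1 / 2) ^ k = 1 := by rw [← mul_pow]; norm_num
        have h3 : (0 : ℝ) < 2 ^ k := by positivity
        calc (2 : ℝ) ^ k = 2 ^ k * 1 := by ring
          _ ≤ 2 ^ k * (ρ * (ρ * (1 / 2) ^ k)) := by gcongr
          _ = ρ ^ 2 * (2 ^ k * (1 / 2) ^ k) := by ring
          _ = ρ ^ 2 := by rw [h2, mul_one]
      have h2 : (k : ℝ) * Real.log 2 ≤ 2 * Real.log ρ := by
        have := Real.log_le_log (by positivity) h1
        rw [Real.log_pow, Real.log_pow] at this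
        exact_mod_cast this
      have h3 : (k : ℝ) ≤ 4 * Real.log ρ := by
        have h4 : (1 : ℝ) / 2 ≤ Real.log 2 := by
          have := Real.log_two_gt_d9
          linarith
        have h5 : (0 : ℝ) ≤ k := Nat.cast_nonneg k
        nlinarith
      rw [hn]
      exact Nat.lt_succ_of_le (Nat.le_floor h3)
    exact Set.mem_biUnion (Finset.mem_coe.2 (Finset.mem_range.2 hkn)) hk
  have hblk : ∀ k : ℕ, ∫⁻ h in blk v ρ ρ₀ k, ENNReal.ofReal ((rn v ((h : GG K) 0) ^ v.mult)⁻¹) ∂(mu K) ≤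
      ENNReal.ofReal (14 ^ v.mult * ρ ^ v.mult) * mu K (E v ρ₀ (1 / 2) 1 3) := by
    intro k
    set t : ℝ := ρ * (1 / 2) ^ k with ht
    have htpos : 0 < t := by positivity
    calc ∫⁻ h in blk v ρ ρ₀ k, ENNReal.ofReal ((rn v ((h : GG K) 0) ^ v.mult)⁻¹) ∂(mu K)
        ≤ ∫⁻ _ in blk v ρ ρ₀ k, ENNReal.ofReal (((1 / 2 * t) ^ v.mult)⁻¹) ∂(mu K) := by
          refine setLIntegral_mono' (meas_E ρ₀ _ _ _) fun h hh => ?_
          rw [blk, mem_E] at hh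
          apply ENNReal.ofReal_le_ofReal
          apply inv_anti₀ (by positivity)
          exact pow_le_pow_left₀ (by positivity) hh.1 _
      _ = ENNReal.ofReal (((1 / 2 * t) ^ v.mult)⁻¹) * mu K (blk v ρ ρ₀ k) := by rw [setLIntegral_const]
      _ ≤ ENNReal.ofReal (((1 / 2 * t) ^ v.mult)⁻¹) *
          (ENNReal.ofReal ((7 * (ρ * (ρ * (1 / 2) ^ k))) ^ v.mult) * mu K (E v ρ₀ (1 / 2) 1 3)) := by
          gcongr
          exact blk_le C ρ ρ₀ hρ0 k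
      _ = ENNReal.ofReal (14 ^ v.mult * ρ ^ v.mult) * mu K (E v ρ₀ (1 / 2) 1 3) := by
          rw [← mul_assoc, ← ENNReal.ofReal_mul (by positivity)]
          congr 2
          rw [← inv_pow, ← mul_pow, ← mul_pow, ← ht]
          congr 1
          field_simp
          norm_num
  calc ∫⁻ h in ball (rad v ρ ρ₀), ENNReal.ofReal ((rn v ((h : GG K) 0) ^ v.mult)⁻¹) ∂(mu K)
      ≤ ∫⁻ h in ⋃ k ∈ Finset.range n, blk v ρ ρ₀ k, ENNReal.ofReal ((rn v ((h : GG K) 0) ^ v.mult)⁻¹) ∂(mu K) :=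
        lintegral_mono_set hsub
    _ ≤ ∑ k ∈ Finset.range n, ∫⁻ h in blk v ρ ρ₀ k, ENNReal.ofReal ((rn v ((h : GG K) 0) ^ v.mult)⁻¹) ∂(mu K) := by
        exact lint_biUnion_le _ _ _ _
    _ ≤ ∑ k ∈ Finset.range n, ENNReal.ofReal (14 ^ v.mult * ρ ^ v.mult) * mu K (E v ρ₀ (1 / 2) 1 3) :=
        Finset.sum_le_sum fun k _ => hblk k
    _ = (n : ℝ≥0∞) * (ENNReal.ofReal (14 ^ v.mult * ρ ^ v.mult) * mu K (E v ρ₀ (1 / 2) 1 3)) := by
        rw [Finset.sum_const, Finset.card_range, nsmul_eq_mul]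
    _ ≤ ENNReal.ofReal (1 + 4 * Real.log ρ) *
        (ENNReal.ofReal (14 ^ v.mult * ρ ^ v.mult) * mu K (E v ρ₀ (1 / 2) 1 3)) := by
        gcongr
        rw [← ENNReal.ofReal_natCast]
        apply ENNReal.ofReal_le_ofReal
        rw [hn]
        push_cast
        have := Nat.floor_le (a := 4 * Real.log ρ) (by positivity)
        linarith
    _ = _ := by
        rw [← mul_assoc, ← ENNReal.ofReal_mul (by positivity)]
        congr 2
        ring

/-- the unitary matrix with first row `z / ‖z‖` -/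
lemma exists_unitary (z : EuclideanSpace 𝕜 (Fin 2)) (hz : ‖z‖ ≠ 0) :
    ∃ k : SL(2, 𝕜), (∀ j : Fin 2, z j = (‖z‖ : 𝕜) * k 0 j) ∧
      ∀ x y : EuclideanSpace 𝕜 (Fin 2), ‖k 0 0 • x + k 0 1 • y‖ ^ 2 + ‖k 1 0 • x + k 1 1 • y‖ ^ 2 =
        ‖x‖ ^ 2 + ‖y‖ ^ 2 := by
  set n : ℝ := ‖z‖ with hn
  have hn' : (n : 𝕜) ≠ 0 := by exact_mod_cast hz
  have hN : n ^ 2 = ‖z 0‖ ^ 2 + ‖z 1‖ ^ 2 := by
    rw [hn, EuclideanSpace.norm_eq, Fin.sum_univ_two, Real.sq_sqrt (by positivity)]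
  have hN' : (starRingEnd 𝕜) (z 0) * z 0 + (starRingEnd 𝕜) (z 1) * z 1 = (n : 𝕜) ^ 2 := by
    rw [RCLike.conj_mul, RCLike.conj_mul]
    exact_mod_cast hN.symm
  set a : 𝕜 := z 0 / n with ha
  set b : 𝕜 := z 1 / n with hb
  have hab : (starRingEnd 𝕜) a * a + (starRingEnd 𝕜) b * b = 1 := by
    rw [ha, hb, map_div₀, map_div₀, RCLike.conj_ofReal]
    field_simp
    linear_combination hN'
  refine ⟨⟨!![a, b; -(starRingEnd 𝕜) b, (starRingEnd 𝕜) a], ?_⟩, ?_, ?_⟩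
  · rw [Matrix.det_fin_two_of]
    linear_combination hab
  · intro j
    fin_cases j
    · change z 0 = (n : 𝕜) * a
      rw [ha]
      field_simp
    · change z 1 = (n : 𝕜) * b
      rw [hb]
      field_simp
  · intro x y
    change ‖a • x + b • y‖ ^ 2 + ‖(-(starRingEnd 𝕜) b) • x + ((starRingEnd 𝕜) a) • y‖ ^ 2 = _
    have hre : ∀ w : EuclideanSpace 𝕜 (Fin 2), ((‖w‖ ^ 2 : ℝ) : 𝕜) = inner 𝕜 w w := by
      intro w
      rw [inner_self_eq_norm_sq_to_K]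
      push_cast
      rfl
    have key : ((‖a • x + b • y‖ ^ 2 + ‖(-(starRingEnd 𝕜) b) • x + ((starRingEnd 𝕜) a) • y‖ ^ 2 : ℝ) : 𝕜) =
        ((‖x‖ ^ 2 + ‖y‖ ^ 2 : ℝ) : 𝕜) := by
      rw [RCLike.ofReal_add, RCLike.ofReal_add, hre, hre, hre, hre]
      simp only [inner_add_left, inner_add_right, inner_smul_left, inner_smul_right, map_neg,
        RingHomCompTriple.comp_apply, RingHom.id_apply]
      linear_combination (inner 𝕜 x x + inner 𝕜 y y) * hab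
    exact_mod_cast key

include C in
theorem xi_comp (ρ₀ : ℝ) (hρ₀ : √2 < ρ₀) :
    ∃ C' : ℝ, 0 < C' ∧ ∀ ρ : ℝ, 2 ≤ ρ → ∀ z : Fin 2 → mixedSpace K, rn v z ≠ 0 →
      ∫⁻ h in ball (rad v ρ ρ₀), ENNReal.ofReal ((rn v (Matrix.vecMul z h.1) ^ v.mult)⁻¹) ∂(mu K) ≤
        ENNReal.ofReal (C' * ρ ^ v.mult * (1 + Real.log ρ) * (rn v z ^ v.mult)⁻¹) := by
  have hD0 := E_pos C ρ₀ hρ₀
  have hDt := E_finite (v := v) (K := K) ρ₀
  set D := mu K (E v ρ₀ (1 / 2) 1 3) with hD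
  set δ : ℝ := D.toReal with hδ
  have hδpos : 0 < δ := ENNReal.toReal_pos hD0.ne' hDt.ne
  have hDδ : D = ENNReal.ofReal δ := (ENNReal.ofReal_toReal hDt.ne).symm
  refine ⟨4 * 14 ^ v.mult * δ, by positivity, ?_⟩
  intro ρ hρ z hz
  have hlog : 0 ≤ Real.log ρ := Real.log_nonneg (by linarith)
  set ζ : EuclideanSpace 𝕜 (Fin 2) := WithLp.toLp 2 (fun j => C.π (z j)) with hζ
  have hrz : rn v z = ‖ζ‖ := rn_eq C z
  have hζ0 : ‖ζ‖ ≠ 0 := by rw [← hrz]; exact hz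
  have hζpos : 0 < ‖ζ‖ := lt_of_le_of_ne (norm_nonneg _) (Ne.symm hζ0)
  obtain ⟨k, hk1, hk2⟩ := exists_unitary ζ hζ0
  have hrow : ∀ h : GG K, rn v (Matrix.vecMul z h.1) = ‖ζ‖ * rn v ((Phi C k * h) 0) := by
    intro h
    rw [rn_eq C, rn_row C, row_Phi0]
    have e : (WithLp.toLp 2 (fun j => C.π (Matrix.vecMul z h.1 j)) : EuclideanSpace 𝕜 (Fin 2)) =
        (‖ζ‖ : 𝕜) • (k 0 0 • row C h 0 + k 0 1 • row C h 1) := by
      ext j
      change C.π (Matrix.vecMul z h.1 j) = (‖ζ‖ : 𝕜) * (k 0 0 * C.π (h 0 j) + k 0 1 * C.π (h 1 j))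
      have e0 : C.π (z 0) = (‖ζ‖ : 𝕜) * k 0 0 := hk1 0
      have e1 : C.π (z 1) = (‖ζ‖ : 𝕜) * k 0 1 := hk1 1
      have e2 : Matrix.vecMul z h.1 j = z 0 * h 0 j + z 1 * h 1 j := by
        simp [Matrix.vecMul, dotProduct, Fin.sum_univ_two]
      rw [e2, map_add, map_mul, map_mul, e0, e1]
      ring
    rw [e, _root_.norm_smul, RCLike.norm_ofReal, abs_of_pos hζpos]
  have hball : ∀ h : GG K, Phi C k * h ∈ ball (rad v ρ ρ₀) ↔ h ∈ ball (rad v ρ ρ₀) := by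
    intro h
    have hm : ∀ w, mn w (Phi C k * h) = mn w h := by
      intro w
      by_cases hw : w = v
      · subst hw
        rw [mn_eq C, mn_eq C, row_Phi0, row_Phi1, hk2]
      · exact mn_Phi C k h w hw
    constructor
    · intro h1 w
      rw [← hm w]
      exact h1 w
    · intro h1 w
      rw [hm w]
      exact h1 w
  have hmeas : MeasurableSet (ball (K := K) (rad v ρ ρ₀)) := (isClosed_ball _).measurableSet
  have hchange : ∫⁻ h in ball (rad v ρ ρ₀), ENNReal.ofReal ((rn v ((Phi C k * h) 0) ^ v.mult)⁻¹) ∂(mu K) =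
      ∫⁻ h in ball (rad v ρ ρ₀), ENNReal.ofReal ((rn v ((h : GG K) 0) ^ v.mult)⁻¹) ∂(mu K) := by
    rw [← lintegral_indicator hmeas, ← lintegral_indicator hmeas]
    rw [← lintegral_mul_left_eq_self (fun h : GG K => (ball (rad v ρ ρ₀)).indicator
      (fun h : GG K => ENNReal.ofReal ((rn v (h 0) ^ v.mult)⁻¹)) h) (Phi C k)]
    congr 1
    funext h
    by_cases hh : h ∈ ball (rad v ρ ρ₀)
    · rw [Set.indicator_of_mem hh, Set.indicator_of_mem ((hball h).2 hh)]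
    · rw [Set.indicator_of_notMem hh, Set.indicator_of_notMem (fun h1 => hh ((hball h).1 h1))]
  calc ∫⁻ h in ball (rad v ρ ρ₀), ENNReal.ofReal ((rn v (Matrix.vecMul z h.1) ^ v.mult)⁻¹) ∂(mu K)
      = ∫⁻ h in ball (rad v ρ ρ₀), ENNReal.ofReal ((‖ζ‖ ^ v.mult)⁻¹) *
          ENNReal.ofReal ((rn v ((Phi C k * h) 0) ^ v.mult)⁻¹) ∂(mu K) := by
        congr 1
        funext h
        rw [hrow h, mul_pow, mul_inv, ENNReal.ofReal_mul (by positivity)]
    _ = ENNReal.ofReal ((‖ζ‖ ^ v.mult)⁻¹) *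
        ∫⁻ h in ball (rad v ρ ρ₀), ENNReal.ofReal ((rn v ((Phi C k * h) 0) ^ v.mult)⁻¹) ∂(mu K) := by
        rw [lintegral_const_mul' _ _ ENNReal.ofReal_ne_top]
    _ ≤ ENNReal.ofReal ((‖ζ‖ ^ v.mult)⁻¹) *
        (ENNReal.ofReal (14 ^ v.mult * ρ ^ v.mult * (1 + 4 * Real.log ρ)) * D) := by
        rw [hchange]
        gcongr
        exact xi0 C ρ ρ₀ hρ
    _ = ENNReal.ofReal ((‖ζ‖ ^ v.mult)⁻¹ * (14 ^ v.mult * ρ ^ v.mult * (1 + 4 * Real.log ρ) * δ)) := by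
        rw [hDδ, ← ENNReal.ofReal_mul (by positivity), ← ENNReal.ofReal_mul (by positivity)]
    _ ≤ ENNReal.ofReal (4 * 14 ^ v.mult * δ * ρ ^ v.mult * (1 + Real.log ρ) * (rn v z ^ v.mult)⁻¹) := by
        apply ENNReal.ofReal_le_ofReal
        rw [hrz]
        have hp : 0 ≤ (‖ζ‖ ^ v.mult)⁻¹ * (14 ^ v.mult * ρ ^ v.mult * δ) := by positivity
        have h1 : (1 : ℝ) + 4 * Real.log ρ ≤ 4 * (1 + Real.log ρ) := by linarith
        calc (‖ζ‖ ^ v.mult)⁻¹ * (14 ^ v.mult * ρ ^ v.mult * (1 + 4 * Real.log ρ) * δ)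
            = ((‖ζ‖ ^ v.mult)⁻¹ * (14 ^ v.mult * ρ ^ v.mult * δ)) * (1 + 4 * Real.log ρ) := by ring
          _ ≤ ((‖ζ‖ ^ v.mult)⁻¹ * (14 ^ v.mult * ρ ^ v.mult * δ)) * (4 * (1 + Real.log ρ)) := by gcongr
          _ = _ := by ring

end xi

end VolPkg

/-- B2 -/
theorem vol : S_vol := by
  intro K _ _ v ρ₀ hρ₀
  rcases v.isReal_or_isComplex with hv | hv
  · exact VolPkg.vol_comp (VolPkg.compReal v hv) ρ₀ hρ₀
  · exact VolPkg.vol_comp (VolPkg.compComplex v hv) ρ₀ hρ₀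

/-- B3 -/
theorem xi : S_xi := by
  intro K _ _ v ρ₀ hρ₀
  rcases v.isReal_or_isComplex with hv | hv
  · exact VolPkg.xi_comp (VolPkg.compReal v hv) ρ₀ hρ₀
  · exact VolPkg.xi_comp (VolPkg.compComplex v hv) ρ₀ hρ₀

end Pool.Agent.T2h77
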