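import Pool.Agent.T2h77.Hecke2

/-!
# The trace inequality with Hecke operators
-/

set_option autoImplicit false
set_option linter.unusedSectionVars false

open MeasureTheory Measure
open scoped ENNReal NNReal Pointwise ComplexConjugate

noncomputable section

namespace Pool.Agent.T2h77.An

/-! ### Gram-Schmidt inside mutually orthogonal subspaces -/

open InnerProductSpace in
lemma gs_abs {E : Type} [NormedAddCommGroup E] [InnerProductSpace ℂ E] {ι : Type}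
    (S : ι → Submodule ℂ E)
    (hS : ∀ i j, i ≠ j → ∀ u ∈ S i, ∀ v ∈ S j, inner ℂ u v = 0) {k : ℕ} (c : Fin k → ι)
    (φ : Fin k → E) (hφ : ∀ i, φ i ∈ S (c i)) (hli : LinearIndependent ℂ φ) :
    ∃ e : Fin k → E, Orthonormal ℂ e ∧ ∀ i, e i ∈ S (c i) := by
  have key : ∀ i, gramSchmidt ℂ φ i ∈ S (c i) := by
    intro i
    induction i using WellFoundedLT.induction with
    | ind i ih =>
      rw [gramSchmidt_def]
      refine Submodule.sub_mem _ (hφ i) (Submodule.sum_mem _ fun j hj => ?_)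
      have hj' : j < i := Finset.mem_Iio.1 hj
      have hjm := ih j hj'
      by_cases h : c j = c i
      · rw [← h]
        have : ((ℂ ∙ gramSchmidt ℂ φ j).starProjection (φ i)) ∈ (ℂ ∙ gramSchmidt ℂ φ j) :=
          Submodule.starProjection_apply_mem _ _
        obtain ⟨c, hc⟩ := Submodule.mem_span_singleton.1 this
        rw [← hc]
        exact Submodule.smul_mem _ _ hjm
      · have h3 : inner ℂ (gramSchmidt ℂ φ j) (φ i) = 0 := hS _ _ h _ hjm _ (hφ i)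
        rw [Submodule.starProjection_singleton, h3]
        simp
  refine ⟨gramSchmidtNormed ℂ φ, gramSchmidtNormed_orthonormal hli, fun i => ?_⟩
  unfold gramSchmidtNormed
  exact Submodule.smul_mem _ _ (key i)

variable {G : Type} [Group G] [TopologicalSpace G] [IsTopologicalGroup G] [LocallyCompactSpace G]
  [SecondCountableTopology G] [T2Space G] [MeasurableSpace G] [BorelSpace G]

variable {μ : Measure G} {Γ : Subgroup G} {𝓕 : Set G}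

lemma HP_mono (s : Finset G) {F F' : G → ℝ≥0∞} (h : ∀ g, F g ≤ F' g) (g : G) : HP s F g ≤ HP s F' g :=
  Finset.sum_le_sum fun η _ => h (η * g)

lemma HT_add (s : Finset G) (f f' : G → ℂ) (g : G) : HT s (f + f') g = HT s f g + HT s f' g := by
  unfold HT
  rw [← Finset.sum_add_distrib]
  rfl

lemma HT_smul (s : Finset G) (c : ℂ) (f : G → ℂ) (g : G) : HT s (c • f) g = c * HT s f g := by
  unfold HT
  rw [Finset.mul_sum]
  rfl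

lemma enorm_HT_le (s : Finset G) (f : G → ℂ) (g : G) : ‖HT s f g‖ₑ ≤ HP s (fun x => ‖f x‖ₑ) g :=
  enorm_sum_le _ _

variable [μ.IsHaarMeasure] [Countable Γ] [hF : Fact (IsFundamentalDomain Γ 𝓕 μ)]

/-- pointwise bound for orthonormal families -/
theorem bessel_famG [μ.IsMulRightInvariant] {s : Finset G} (hs : HS Γ s) {B : Set G}
    (hB : MeasurableSet B) {k : ℕ} (m : Fin k → ℂ) (e : Fin k → LE μ Γ 𝓕) (he : Orthonormal ℂ e)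
    {A : ℝ≥0∞}
    (H1 : ∀ (c : Fin k → ℂ) (g : G), ‖∑ i, c i * (m i * (e i : G → ℂ) g)‖ₑ ≤
      A * HP s (Ap μ B fun x => ‖((∑ i, c i • e i : LE μ Γ 𝓕) : G → ℂ) x‖ₑ) g) (g : G) :
    ∑ i, ‖m i‖ₑ ^ 2 * ‖(e i : G → ℂ) g‖ₑ ^ 2 ≤
      A ^ 2 * ∑ η ∈ s, ∑' x : Ss Γ s, kk μ B (g⁻¹ * x * η * g) := by
  set c : Fin k → ℂ := fun i => m i * (e i : G → ℂ) g with hc
  set u : LE μ Γ 𝓕 := ∑ i, conj (c i) • e i with hu
  set S : ℝ := ∑ i, ‖c i‖ ^ 2 with hSdef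
  have hS0 : 0 ≤ S := Finset.sum_nonneg fun i _ => by positivity
  have hS : ∑ i, ‖m i‖ₑ ^ 2 * ‖(e i : G → ℂ) g‖ₑ ^ 2 = ENNReal.ofReal S := by
    rw [hSdef, ENNReal.ofReal_sum_of_nonneg fun i _ => by positivity]
    refine Finset.sum_congr rfl fun i _ => ?_
    rw [← mul_pow, ← enorm_mul, enorm_sq_eq]
  have hnorm : ‖u‖ ^ 2 = S := by
    have h1 : ((‖u‖ ^ 2 : ℝ) : ℂ) = inner ℂ u u := by
      rw [inner_self_eq_norm_sq_to_K]; push_cast; rfl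
    rw [hu, he.inner_sum] at h1
    have h2 : ∀ i, conj (conj (c i)) * conj (c i) = ((‖c i‖ ^ 2 : ℝ) : ℂ) := by
      intro i
      rw [Complex.conj_conj, Complex.mul_conj, Complex.normSq_eq_norm_sq]
    rw [Finset.sum_congr rfl fun i _ => h2 i, ← Complex.ofReal_sum] at h1
    exact_mod_cast h1
  have hval : ∑ i, conj (c i) * (m i * (e i : G → ℂ) g) = (S : ℂ) := by
    rw [hSdef, Complex.ofReal_sum]
    refine Finset.sum_congr rfl fun i _ => ?_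
    change conj (c i) * c i = _
    rw [mul_comm, Complex.mul_conj, Complex.normSq_eq_norm_sq]
  have hkey := besselH (μ := μ) hF.out hs hB (F := fun w => ‖(u : G → ℂ) w‖ₑ) (𝓕 := 𝓕)
    (LE.li u).cont.measurable.enorm (fun γ hγ g => by simp only [(LE.li u).inv γ hγ g]) g
  rw [LE.lint_sq, hnorm] at hkey
  have hle : ENNReal.ofReal S ≤ A * HP s (Ap μ B (fun w => ‖(u : G → ℂ) w‖ₑ)) g := by
    have h1 := H1 (fun i => conj (c i)) g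
    rw [hval] at h1
    have h2 : ‖(S : ℂ)‖ₑ = ENNReal.ofReal S := by
      rw [← ofReal_norm, Complex.norm_real, Real.norm_of_nonneg hS0]
    rwa [h2] at h1
  rw [hS]
  by_cases h0 : ENNReal.ofReal S = 0
  · rw [h0]; exact bot_le
  · have h3 : ENNReal.ofReal S * ENNReal.ofReal S ≤
        (A ^ 2 * ∑ η ∈ s, ∑' x : Ss Γ s, kk μ B (g⁻¹ * x * η * g)) * ENNReal.ofReal S := by
      calc ENNReal.ofReal S * ENNReal.ofReal S
          ≤ (A * HP s (Ap μ B (fun w => ‖(u : G → ℂ) w‖ₑ)) g) ^ 2 := by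
            rw [sq]; gcongr
        _ = A ^ 2 * HP s (Ap μ B (fun w => ‖(u : G → ℂ) w‖ₑ)) g ^ 2 := by rw [mul_pow]
        _ ≤ A ^ 2 * ((∑ η ∈ s, ∑' x : Ss Γ s, kk μ B (g⁻¹ * x * η * g)) * ENNReal.ofReal S) := by
            gcongr
        _ = _ := by rw [mul_assoc]
    exact (ENNReal.mul_le_mul_iff_left h0 ENNReal.ofReal_ne_top).mp h3

/-- the mass outside `W` -/
theorem cusp_massG {s : Finset G} {B : Set G} {m : ℂ} {e : LE μ Γ 𝓕} (he : ‖e‖ = 1)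
    {A : ℝ≥0∞} (H2 : ∀ g, ‖m * (e : G → ℂ) g‖ₑ ≤ A * HP s (Ap μ B fun x => ‖(e : G → ℂ) x‖ₑ) g)
    {W : Set G} (hW : MeasurableSet W) {Λ : ℝ≥0∞}
    (hΛ : ∀ F : G → ℝ≥0∞, Measurable F → (∀ γ ∈ Γ, ∀ g, F (γ * g) = F g) →
      ∫⁻ g in 𝓕 ∩ W, HP s (Ap μ B F) g ^ 2 ∂μ ≤ Λ * ∫⁻ g in 𝓕, F g ^ 2 ∂μ)
    (hl : 2 * (A ^ 2 * Λ) ≤ ‖m‖ₑ ^ 2) (h0 : m ≠ 0) :
    2⁻¹ ≤ ∫⁻ g in 𝓕 ∩ Wᶜ, ‖(e : G → ℂ) g‖ₑ ^ 2 ∂μ := by
  set f : G → ℝ≥0∞ := fun z => ‖(e : G → ℂ) z‖ₑ with hf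
  have hfm : Measurable f := (LE.li e).cont.measurable.enorm
  have htot : ∫⁻ z in 𝓕, f z ^ 2 ∂μ = 1 := by
    rw [LE.lint_sq, he]; simp
  have hcl := hΛ f hfm (fun γ hγ z => by simp only [hf]; rw [(LE.li e).inv γ hγ z])
  have hAp : ∀ z, ‖m‖ₑ ^ 2 * f z ^ 2 ≤ A ^ 2 * HP s (Ap μ B f) z ^ 2 := by
    intro z
    have h1 := H2 z
    rw [enorm_mul] at h1
    rw [← mul_pow, ← mul_pow]
    gcongr
  have hHPm : Measurable fun z => HP s (Ap μ B f) z ^ 2 := by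
    refine Measurable.pow_const ?_ 2
    exact Finset.measurable_fun_sum _ fun η _ => (measurable_Ap B hfm).comp (measurable_const_mul η)
  have h3 : ‖m‖ₑ ^ 2 * ∫⁻ z in 𝓕 ∩ W, f z ^ 2 ∂μ ≤ A ^ 2 * Λ := by
    rw [← lintegral_const_mul _ (hfm.pow_const 2)]
    calc ∫⁻ z in 𝓕 ∩ W, ‖m‖ₑ ^ 2 * f z ^ 2 ∂μ
        ≤ ∫⁻ z in 𝓕 ∩ W, A ^ 2 * HP s (Ap μ B f) z ^ 2 ∂μ := lintegral_mono hAp
      _ = A ^ 2 * ∫⁻ z in 𝓕 ∩ W, HP s (Ap μ B f) z ^ 2 ∂μ := lintegral_const_mul _ hHPm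
      _ ≤ A ^ 2 * (Λ * ∫⁻ z in 𝓕, f z ^ 2 ∂μ) := by gcongr
      _ = A ^ 2 * Λ := by rw [htot, mul_one]
  have h4 : (∫⁻ z in 𝓕 ∩ W, f z ^ 2 ∂μ) + ∫⁻ z in 𝓕 ∩ Wᶜ, f z ^ 2 ∂μ = 1 := by
    have h := lintegral_add_compl (μ := μ.restrict 𝓕) (fun z => f z ^ 2) hW
    rw [Measure.restrict_restrict hW, Measure.restrict_restrict hW.compl, Set.inter_comm W,
      Set.inter_comm Wᶜ, htot] at h
    exact h
  set x := ∫⁻ z in 𝓕 ∩ W, f z ^ 2 ∂μ with hx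
  set y := ∫⁻ z in 𝓕 ∩ Wᶜ, f z ^ 2 ∂μ with hy
  have hl0 : ‖m‖ₑ ^ 2 ≠ 0 := by simpa using h0
  have hlt : ‖m‖ₑ ^ 2 ≠ ∞ := by simp
  have h5 : 2 * x ≤ 1 := by
    have h6 : ‖m‖ₑ ^ 2 * (2 * x) ≤ ‖m‖ₑ ^ 2 * 1 := by
      calc ‖m‖ₑ ^ 2 * (2 * x) = 2 * (‖m‖ₑ ^ 2 * x) := by ring
        _ ≤ 2 * (A ^ 2 * Λ) := by gcongr
        _ ≤ ‖m‖ₑ ^ 2 * 1 := by rw [mul_one]; exact hl
    exact (ENNReal.mul_le_mul_iff_right hl0 hlt).mp h6
  exact half_aux h4 h5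

/-- the trace inequality for orthonormal families -/
theorem traceG [μ.IsMulRightInvariant] {s s' : Finset G} (hs : HS Γ s) {B B' : Set G}
    (hB : MeasurableSet B) {k : ℕ} (m m' : Fin k → ℂ) (e : Fin k → LE μ Γ 𝓕)
    (he : Orthonormal ℂ e) {A A' : ℝ≥0∞}
    (H1 : ∀ (c : Fin k → ℂ) (g : G), ‖∑ i, c i * (m i * (e i : G → ℂ) g)‖ₑ ≤
      A * HP s (Ap μ B fun x => ‖((∑ i, c i • e i : LE μ Γ 𝓕) : G → ℂ) x‖ₑ) g)
    (H2 : ∀ i g, ‖m' i * (e i : G → ℂ) g‖ₑ ≤ A' * HP s' (Ap μ B' fun x => ‖(e i : G → ℂ) x‖ₑ) g)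
    {W : Set G} (hW : MeasurableSet W) {Λ : ℝ≥0∞}
    (hΛ : ∀ F : G → ℝ≥0∞, Measurable F → (∀ γ ∈ Γ, ∀ g, F (γ * g) = F g) →
      ∫⁻ g in 𝓕 ∩ W, HP s' (Ap μ B' F) g ^ 2 ∂μ ≤ Λ * ∫⁻ g in 𝓕, F g ^ 2 ∂μ)
    (hl : ∀ i, 2 * (A' ^ 2 * Λ) ≤ ‖m' i‖ₑ ^ 2) (h0 : ∀ i, m' i ≠ 0) :
    ∑ i, ‖m i‖ₑ ^ 2 ≤
      2 * (A ^ 2 * ∫⁻ g in 𝓕 ∩ Wᶜ, ∑ η ∈ s, ∑' x : Ss Γ s, kk μ B (g⁻¹ * x * η * g) ∂μ) := by
  have hmeas : ∀ i, Measurable fun z => ‖(e i : G → ℂ) z‖ₑ ^ 2 :=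
    fun i => (LE.li (e i)).cont.measurable.enorm.pow_const 2
  have hcS : Countable (Ss Γ s) := by
    have : (Ss Γ s) ⊆ ⋃ η ∈ s, (fun γ : G => γ * η) '' (Γ : Set G) := by
      rintro x ⟨η, hη, hx⟩
      simp only [Set.mem_iUnion]
      exact ⟨η, hη, x * η⁻¹, hx, by simp⟩
    refine Set.Countable.mono this ?_
    refine Set.Countable.biUnion s.countable_toSet fun η _ => ?_
    exact (Set.to_countable (Γ : Set G)).image _
  have hkm : Measurable fun g : G => ∑ η ∈ s, ∑' x : Ss Γ s, kk μ B (g⁻¹ * x * η * g) :=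
    Finset.measurable_fun_sum _ fun η _ => Measurable.tsum fun x => (measurable_kk hB).comp (by fun_prop)
  have h1 : ∑ i, ‖m i‖ₑ ^ 2 * ∫⁻ z in 𝓕 ∩ Wᶜ, ‖(e i : G → ℂ) z‖ₑ ^ 2 ∂μ ≤
      A ^ 2 * ∫⁻ g in 𝓕 ∩ Wᶜ, ∑ η ∈ s, ∑' x : Ss Γ s, kk μ B (g⁻¹ * x * η * g) ∂μ := by
    calc _ = ∫⁻ z in 𝓕 ∩ Wᶜ, ∑ i, ‖m i‖ₑ ^ 2 * ‖(e i : G → ℂ) z‖ₑ ^ 2 ∂μ := by
          rw [lintegral_finsetSum _ fun i _ => (hmeas i).const_mul _]
          exact Finset.sum_congr rfl fun i _ => (lintegral_const_mul _ (hmeas i)).symm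
      _ ≤ ∫⁻ g in 𝓕 ∩ Wᶜ, A ^ 2 * ∑ η ∈ s, ∑' x : Ss Γ s, kk μ B (g⁻¹ * x * η * g) ∂μ :=
          lintegral_mono fun z => bessel_famG hs hB m e he H1 z
      _ = _ := lintegral_const_mul _ hkm
  have h2 : ∀ i, (2 : ℝ≥0∞)⁻¹ ≤ ∫⁻ z in 𝓕 ∩ Wᶜ, ‖(e i : G → ℂ) z‖ₑ ^ 2 ∂μ :=
    fun i => cusp_massG (he.1 i) (H2 i) hW hΛ (hl i) (h0 i)
  calc ∑ i, ‖m i‖ₑ ^ 2 = 2 * ∑ i, ‖m i‖ₑ ^ 2 * 2⁻¹ := by
        rw [← Finset.sum_mul, mul_comm 2, mul_assoc, ENNReal.inv_mul_cancel (by norm_num)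
          (by norm_num), mul_one]
    _ ≤ 2 * ∑ i, ‖m i‖ₑ ^ 2 * ∫⁻ z in 𝓕 ∩ Wᶜ, ‖(e i : G → ℂ) z‖ₑ ^ 2 ∂μ := by
        gcongr with i _
        exact h2 i
    _ ≤ _ := by gcongr

/-! ### Joint eigenvectors -/

/-- simultaneous eigenvectors of the averaging operators over `B`, `B'` and of the Hecke operators -/
def JS (B B' : Set G) (s s' : Finset G) (c : (ℂ × ℂ) × ℂ × ℂ) : Submodule ℂ (LE μ Γ 𝓕) where
  carrier := {u | u ∈ ES (μ := μ) (Γ := Γ) (𝓕 := 𝓕) B B' c.1.1 c.1.2 ∧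
    ∀ g, HT s (u : G → ℂ) g = c.2.1 * (u : G → ℂ) g ∧ HT s' (u : G → ℂ) g = c.2.2 * (u : G → ℂ) g}
  add_mem' := by
    rintro u v ⟨hu1, hu2⟩ ⟨hv1, hv2⟩
    refine ⟨Submodule.add_mem _ hu1 hv1, fun g => ⟨?_, ?_⟩⟩
    · rw [Submodule.coe_add, HT_add, (hu2 g).1, (hv2 g).1, Pi.add_apply, mul_add]
    · rw [Submodule.coe_add, HT_add, (hu2 g).2, (hv2 g).2, Pi.add_apply, mul_add]
  zero_mem' := by
    refine ⟨Submodule.zero_mem _, fun g => ⟨?_, ?_⟩⟩ <;> simp [HT]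
  smul_mem' := by
    rintro c u ⟨hu1, hu2⟩
    refine ⟨Submodule.smul_mem _ _ hu1, fun g => ⟨?_, ?_⟩⟩
    · rw [Submodule.coe_smul, HT_smul, (hu2 g).1, Pi.smul_apply, smul_eq_mul]; ring
    · rw [Submodule.coe_smul, HT_smul, (hu2 g).2, Pi.smul_apply, smul_eq_mul]; ring

/-- relation of the eigenvalues of the Hecke operators -/
lemma inner_relH [μ.IsMulRightInvariant] {s : Finset G} (hs : HS Γ s) {u v : LE μ Γ 𝓕} {a b : ℂ}
    (hu : ∀ g, HT s (u : G → ℂ) g = a * (u : G → ℂ) g)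
    (hv : ∀ g, HT s (v : G → ℂ) g = b * (v : G → ℂ) g) :
    conj a * inner ℂ u v = b * inner ℂ u v := by
  have h := symmC hF.out hs (LE.li u) (LE.li v)
  simp only [hu, hv] at h
  rw [LE.inner_def, ← integral_const_mul, ← integral_const_mul]
  have e1 : ∀ z, conj a * (conj ((u : G → ℂ) z) * (v : G → ℂ) z) =
      conj (a * (u : G → ℂ) z) * (v : G → ℂ) z := fun z => by rw [map_mul, mul_assoc]
  have e2 : ∀ z, b * (conj ((u : G → ℂ) z) * (v : G → ℂ) z) =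
      conj ((u : G → ℂ) z) * (b * (v : G → ℂ) z) := fun z => by ring
  simp only [e1, e2]
  exact h

/-- eigenvalues of symmetric operators: an abstract orthogonality -/
lemma eq_of_rel {E : Type} [NormedAddCommGroup E] [InnerProductSpace ℂ E] {u v : E} {a b : ℂ}
    (h1 : conj a * inner ℂ u u = a * inner ℂ u u) (h2 : conj a * inner ℂ u v = b * inner ℂ u v)
    (h : inner ℂ u v ≠ 0) : a = b := by
  have hu : u ≠ 0 := by
    rintro rfl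
    exact h (inner_zero_left _)
  have h3 : inner ℂ u u ≠ 0 := inner_self_ne_zero.2 hu
  have h4 : conj a = a := mul_right_cancel₀ h3 h1
  rw [h4] at h2
  exact mul_right_cancel₀ h h2

lemma JS_orth [μ.IsMulRightInvariant] {B B' : Set G} (hB : SC μ B) (hB' : SC μ B') {s s' : Finset G}
    (hs : HS Γ s) (hs' : HS Γ s') (c c' : (ℂ × ℂ) × ℂ × ℂ) (hc : c ≠ c') (u : LE μ Γ 𝓕)
    (hu : u ∈ JS B B' s s' c) (v : LE μ Γ 𝓕) (hv : v ∈ JS B B' s s' c') : inner ℂ u v = 0 := by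
  by_contra h
  apply hc
  have a1 : c.1.1 = c'.1.1 := eq_of_rel (inner_rel hB (fun g => (hu.1.1 g).1) (fun g => (hu.1.1 g).1))
    (inner_rel hB (fun g => (hu.1.1 g).1) (fun g => (hv.1.1 g).1)) h
  have a2 : c.1.2 = c'.1.2 := eq_of_rel (inner_rel hB' (fun g => (hu.1.2 g).1) (fun g => (hu.1.2 g).1))
    (inner_rel hB' (fun g => (hu.1.2 g).1) (fun g => (hv.1.2 g).1)) h
  have a3 : c.2.1 = c'.2.1 := eq_of_rel (inner_relH hs (fun g => (hu.2 g).1) (fun g => (hu.2 g).1))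
    (inner_relH hs (fun g => (hu.2 g).1) (fun g => (hv.2 g).1)) h
  have a4 : c.2.2 = c'.2.2 := eq_of_rel (inner_relH hs' (fun g => (hu.2 g).2) (fun g => (hu.2 g).2))
    (inner_relH hs' (fun g => (hu.2 g).2) (fun g => (hv.2 g).2)) h
  exact Prod.ext (Prod.ext a1 a2) (Prod.ext a3 a4)

/-- the trace inequality with Hecke operators -/
theorem traceH [μ.IsMulRightInvariant] {B B' : Set G} (hB : SC μ B) (hB' : SC μ B') {s s' : Finset G}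
    (hs : HS Γ s) (hs' : HS Γ s') {k : ℕ} (a a' l l' : Fin k → ℂ) (φ : Fin k → LE μ Γ 𝓕)
    (ha : ∀ i g, Av μ B (φ i : G → ℂ) g = a i * (φ i : G → ℂ) g)
    (ha' : ∀ i g, Av μ B' (φ i : G → ℂ) g = a' i * (φ i : G → ℂ) g)
    (hl : ∀ i g, HT s (φ i : G → ℂ) g = l i * (φ i : G → ℂ) g)
    (hl' : ∀ i g, HT s' (φ i : G → ℂ) g = l' i * (φ i : G → ℂ) g)
    (hli : LinearIndependent ℂ φ) {W : Set G} (hW : MeasurableSet W) {Λ : ℝ≥0∞}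
    (hΛ : ∀ F : G → ℝ≥0∞, Measurable F → (∀ γ ∈ Γ, ∀ g, F (γ * g) = F g) →
      ∫⁻ g in 𝓕 ∩ W, HP s' (Ap μ B' F) g ^ 2 ∂μ ≤ Λ * ∫⁻ g in 𝓕, F g ^ 2 ∂μ)
    (hll : ∀ i, 2 * Λ ≤ ‖l' i * a' i‖ₑ ^ 2) (h0 : ∀ i, l' i * a' i ≠ 0) :
    ∑ i, ‖l i * a i‖ₑ ^ 2 ≤
      2 * ∫⁻ g in 𝓕 ∩ Wᶜ, ∑ η ∈ s, ∑' x : Ss Γ s, kk μ B (g⁻¹ * x * η * g) ∂μ := by
  obtain ⟨e, he, hm⟩ := gs_abs (fun c => JS (μ := μ) (Γ := Γ) (𝓕 := 𝓕) B B' s s' c)
    (fun c c' hc u hu v hv => JS_orth hB hB' hs hs' c c' hc u hu v hv)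
    (fun i => ((a i, a' i), l i, l' i)) φ
    (fun i => ⟨⟨fun g => ⟨ha i g, hB.intOn (LE.li _).cont g⟩,
      fun g => ⟨ha' i g, hB'.intOn (LE.li _).cont g⟩⟩, fun g => ⟨hl i g, hl' i g⟩⟩) hli
  have hmain := traceG hs hB.ms (fun i => l i * a i) (fun i => l' i * a' i) e he (A := 1) (A' := 1)
    (s' := s') (B' := B') ?_ ?_ hW hΛ (by simpa using hll) h0
  · simpa using hmain
  · intro c g
    have e1 : ∑ i, c i * (l i * a i * (e i : G → ℂ) g) =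
        HT s (Av μ B ((∑ i, c i • e i : LE μ Γ 𝓕) : G → ℂ)) g := by
      unfold HT
      have h1 : ∀ η : G, Av μ B ((∑ i, c i • e i : LE μ Γ 𝓕) : G → ℂ) (η * g) =
          ∑ i, c i * (a i * (e i : G → ℂ) (η * g)) := fun η =>
        ES_sum a a' e (fun i => (hm i).1) hB c Finset.univ (η * g)
      simp only [h1]
      rw [Finset.sum_comm]
      refine Finset.sum_congr rfl fun i _ => ?_
      rw [← Finset.mul_sum, ← Finset.mul_sum]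
      have h2 := ((hm i).2 g).1
      unfold HT at h2
      simp only at h2
      rw [h2]
      ring
    rw [e1, one_mul]
    exact (enorm_HT_le _ _ _).trans (HP_mono s (fun x => enorm_Av_le _ _ _) g)
  · intro i g
    have e1 : l' i * a' i * (e i : G → ℂ) g = HT s' (Av μ B' (e i : G → ℂ)) g := by
      unfold HT
      have h1 : ∀ η : G, Av μ B' (e i : G → ℂ) (η * g) = a' i * (e i : G → ℂ) (η * g) := fun η =>
        ((hm i).1.2 (η * g)).1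
      simp only [h1]
      rw [← Finset.mul_sum]
      have h2 := ((hm i).2 g).2
      unfold HT at h2
      simp only at h2
      rw [h2]
      ring
    rw [e1, one_mul]
    exact (enorm_HT_le _ _ _).trans (HP_mono s' (fun x => enorm_Av_le _ _ _) g)

end Pool.Agent.T2h77.An
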