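import Pool.Agent.T2h77.Geo4

/-!
# The density theorem from the geometry of numbers
-/

set_option autoImplicit false
set_option linter.unusedSectionVars false
set_option linter.deprecated false

open NumberField NumberField.mixedEmbedding MeasureTheory Matrix
open scoped MatrixGroups ENNReal

noncomputable section

namespace Pool.Agent.T2h77

open An

variable {K : Type} [Field K] [NumberField K]

/-- lower bound of the eigenvalues in terms of `ρ` -/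
lemma eig_lower' {v : InfinitePlace K} {ρ₀ c : ℝ}
    {ρ : ℝ} (hρ : 2 ≤ ρ) (hV : ENNReal.ofReal (c * ρ ^ (2 * v.mult)) ≤ mu K (ball (rad v ρ ρ₀)))
    {x a : ℝ} (ha : (mu K (ball (rad v ρ ρ₀))).toReal * (ρ ^ (-(v.mult : ℝ) * (1 - 2 * x)) / 2) ≤ a) :
    c / 2 * ρ ^ ((v.mult : ℝ) * (1 + 2 * x)) ≤ a := by
  have hρ0 : 0 < ρ := by linarith
  have hfin : mu K (ball (rad v ρ ρ₀)) ≠ ∞ := (isCompact_ball _).measure_lt_top.ne
  have h1 : c * ρ ^ (2 * v.mult) ≤ (mu K (ball (rad v ρ ρ₀))).toReal :=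
    (ENNReal.ofReal_le_iff_le_toReal hfin).1 hV
  refine le_trans ?_ ha
  have h2 : ρ ^ ((v.mult : ℝ) * (1 + 2 * x)) = ρ ^ (2 * v.mult) * ρ ^ (-(v.mult : ℝ) * (1 - 2 * x)) := by
    rw [← Real.rpow_natCast, ← Real.rpow_add hρ0]
    congr 1
    push_cast
    ring
  calc c / 2 * ρ ^ ((v.mult : ℝ) * (1 + 2 * x))
      = c * ρ ^ (2 * v.mult) * (ρ ^ (-(v.mult : ℝ) * (1 - 2 * x)) / 2) := by rw [h2]; ring
    _ ≤ _ := by gcongr

theorem density_of (h1 : S_unimod) (h2 : S_vol) (h3 : S_xi) (h4 : S_red) (h5 : S_count)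
    (K : Type) [Field K] [NumberField K] : Density K := by
  classical
  intro v ε L hε
  have hunim : (mu K).IsMulRightInvariant := h1 K
  obtain ⟨ρ₀, hρ₀, heig⟩ := eig_lower (K := K) v L
  obtain ⟨c, C₁, hc, hC₁, hvol⟩ := h2 K v ρ₀ hρ₀
  obtain ⟨C₂, hC₂, hschur⟩ := schur_cusp (K := K) h3 v ρ₀ hρ₀
  have hd : (0 : ℝ) < v.mult := by exact_mod_cast mult_pos' v
  obtain ⟨ρ₁, hρ₁, hρ₁'⟩ := exists_rho (c := c / 2) (C := 2 * C₂) (ε := 2 * v.mult * ε) (by positivity)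
    (by positivity)
  set Y : ℝ := max 1 (bd (rad v ρ₁ ρ₀)) with hY
  obtain ⟨Ω, hΩ, hred⟩ := h4 K Y
  obtain ⟨R, hR, hRb⟩ := exists_bound hΩ
  set ε' : ℝ := ε / 5 with hε'
  have hε'0 : 0 < ε' := by positivity
  obtain ⟨C₃, hC₃, htr⟩ := trace_le (K := K) h5 h3 v ρ₀ hρ₀ hR ε' hε'0
  set VΩ : ℝ := (mu K Ω).toReal with hVΩ
  set q : ℝ := 4 ^ v.mult with hq
  have hq0 : 0 < q := by positivity
  have hq1 : 1 ≤ q := one_le_pow₀ (by norm_num)
  set A : ℝ := 2 + 1 / ε' with hA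
  have hA0 : 0 < A := by positivity
  refine ⟨(c ^ 2 / 4)⁻¹ * (2 * (VΩ * (C₃ * q * A * q ^ (2 * ε') * (2 * q)))) + 1, by positivity, ?_⟩
  intro Γ hΓ 𝓕 h𝓕 k ν f hf hL2 hν hν' hli
  have hfi := index_ne_zero_of_congr hΓ
  set n : ℝ := (Γ.index : ℝ) with hn
  have hn1 : 1 ≤ n := by
    rw [hn]
    exact_mod_cast Nat.one_le_iff_ne_zero.2 hfi.index_ne_zero
  have hn0 : 0 < n := by linarith
  -- the radius
  set ρ : ℝ := 2 * n ^ (1 / (2 * v.mult) : ℝ) with hρ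
  have hρ2 : 2 ≤ ρ := by
    have : 1 ≤ n ^ (1 / (2 * v.mult) : ℝ) := Real.one_le_rpow hn1 (by positivity)
    linarith
  have hρ0 : 0 < ρ := by linarith
  have hρn : ρ ^ (2 * v.mult) = q * n := by
    rw [hρ, mul_pow, hq]
    congr 1
    · rw [pow_mul]; norm_num
    · rw [← Real.rpow_natCast, ← Real.rpow_mul hn0.le]
      have : (1 / (2 * (v.mult : ℝ))) * ((2 * v.mult : ℕ) : ℝ) = 1 := by
        push_cast
        field_simp
      rw [this, Real.rpow_one]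
  have hcount : Countable (Γ.map (io K)) := by
    have : Function.Surjective (fun γ : Γ => (⟨io K γ, Subgroup.mem_map_of_mem _ γ.2⟩ : Γ.map (io K))) := by
      rintro ⟨_, γ, hγ, rfl⟩
      exact ⟨⟨γ, hγ⟩, rfl⟩
    exact this.countable
  have : Fact (IsFundamentalDomain (Γ.map (io K)) 𝓕 (mu K)) := ⟨h𝓕⟩
  set B := ball (rad v ρ ρ₀) with hB
  set B' := ball (rad v ρ₁ ρ₀) with hB'
  have hSB : SC (mu K) B := SC_ball _
  have hSB' : SC (mu K) B' := SC_ball _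
  -- the eigenfunctions
  have hLI : ∀ i, LI (mu K) (Γ.map (io K)) 𝓕 (f i) := by
    intro i
    refine ⟨(hf i).continuous, ?_, ?_⟩
    · rintro _ ⟨γ, hγ, rfl⟩ g
      exact (hf i).invariant γ hγ g
    · have h := (hL2 i).eLpNorm_lt_top
      rw [eLpNorm_lt_top_iff_lintegral_rpow_enorm_lt_top (by norm_num) (by norm_num)] at h
      have e : ∫⁻ g in 𝓕, ‖f i g‖ₑ ^ 2 ∂(mu K) =
          ∫⁻ g in 𝓕, ‖f i g‖ₑ ^ (2 : ℝ≥0∞).toReal ∂(mu K) := by
        refine lintegral_congr fun g => ?_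
        rw [ENNReal.toReal_ofNat, ENNReal.rpow_ofNat]
      rw [e]
      exact h.ne
  set φ : Fin k → LE (mu K) (Γ.map (io K)) 𝓕 := fun i => ⟨f i, hLI i⟩ with hφ
  set a : Fin k → ℂ := fun i => ∫ h in B, sph (ν i) h ∂(mu K) with ha
  set a' : Fin k → ℂ := fun i => ∫ h in B', sph (ν i) h ∂(mu K) with ha'
  have hES : ∀ i, φ i ∈ ES B B' (a i) (a' i) := by
    intro i
    refine ⟨fun g => ⟨(hf i).spherical _ g, hSB.intOn (hf i).continuous g⟩,
      fun g => ⟨(hf i).spherical _ g, hSB'.intOn (hf i).continuous g⟩⟩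
  have hlin : LinearIndependent ℂ φ :=
    LinearIndependent.of_comp (LE (mu K) (Γ.map (io K)) 𝓕).subtype hli
  -- the eigenvalues
  have hbd : ∀ (ρ : ℝ), 2 ≤ ρ → ∀ i, c / 2 * ρ ^ ((v.mult : ℝ) * (1 + 2 * (ν i v).re)) ≤
      ‖∫ h in ball (rad v ρ ρ₀), sph (ν i) h ∂(mu K)‖ := fun ρ hρ i =>
    eig_lower' hρ (hvol ρ hρ).1 (heig ρ (ν i) (hν i).1 (hν i).2.2 (hν' i))
  set Λ : ℝ := C₂ * ρ₁ ^ v.mult * (1 + Real.log ρ₁) with hΛ
  have hlog₁ : 0 ≤ Real.log ρ₁ := Real.log_nonneg (by linarith)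
  have hρ₁0 : 0 < ρ₁ := by linarith
  have hΛ0 : 0 < Λ := by positivity
  have ha'low : ∀ i, 2 * Λ ≤ ‖a' i‖ := by
    intro i
    refine le_trans ?_ (hbd ρ₁ hρ₁ i)
    have e1 : ρ₁ ^ (v.mult : ℝ) * ρ₁ ^ (2 * v.mult * ε : ℝ) ≤
        ρ₁ ^ ((v.mult : ℝ) * (1 + 2 * (ν i v).re)) := by
      rw [← Real.rpow_add hρ₁0]
      apply Real.rpow_le_rpow_of_exponent_le (by linarith)
      have := (hν i).2.1
      nlinarith
    calc 2 * Λ = ρ₁ ^ v.mult * (2 * C₂ * (1 + Real.log ρ₁)) := by rw [hΛ]; ring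
      _ ≤ ρ₁ ^ v.mult * (c / 2 * ρ₁ ^ (2 * v.mult * ε : ℝ)) := by gcongr
      _ = c / 2 * (ρ₁ ^ (v.mult : ℝ) * ρ₁ ^ (2 * v.mult * ε : ℝ)) := by
          rw [Real.rpow_natCast]; ring
      _ ≤ _ := by gcongr
  have hl : ∀ i, 2 * ENNReal.ofReal Λ ^ 2 ≤ ‖a' i‖ₑ ^ 2 := by
    intro i
    rw [enorm_sq_eq, ← ENNReal.ofReal_pow hΛ0.le]
    have : (2 : ℝ≥0∞) = ENNReal.ofReal 2 := by simp
    rw [this, ← ENNReal.ofReal_mul (by norm_num)]
    apply ENNReal.ofReal_le_ofReal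
    have := ha'low i
    nlinarith
  have h0 : ∀ i, a' i ≠ 0 := by
    intro i h
    have := ha'low i
    rw [h, norm_zero] at this
    linarith
  have hΛs : ∀ F : GG K → ℝ≥0∞, Measurable F → (∀ γ ∈ Γ.map (io K), ∀ g, F (γ * g) = F g) →
      ∫⁻ g in 𝓕 ∩ DD Y, Ap (mu K) B' F g ^ 2 ∂(mu K) ≤
        ENNReal.ofReal Λ ^ 2 * ∫⁻ g in 𝓕, F g ^ 2 ∂(mu K) := fun F hFm hFi =>
    hschur ρ₁ hρ₁ Y (le_max_left _ _) (le_max_right _ _) Γ 𝓕 h𝓕 F hFm hFi
  have htrace := trace_bound hSB hSB' a a' φ hES hlin (measurableSet_DD Y) hΛs hl h0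
  -- unfolding
  have hunf := unfold_trace (μ := mu K) (io K) io_injective Γ h𝓕 (D := (DD Y)ᶜ) (Ω := Ω)
    (fun g hg => by
      have : Wle Y g := by
        by_contra hcon
        exact hg hcon
      exact hred g this)
    (measurable_kk (μ := mu K) hSB.ms)
  set W : ℝ := C₃ * ρ ^ (2 * v.mult) * (1 + Real.log ρ) * (n * ρ ^ (2 * v.mult)) ^ (2 * ε') *
        (n + ρ ^ (2 * v.mult)) with hW
  have hlogρ : 0 ≤ Real.log ρ := Real.log_nonneg (by linarith)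
  have hW0 : 0 ≤ W := by positivity
  have hΩfin : mu K Ω ≠ ∞ := hΩ.measure_lt_top.ne
  have hint : ∫⁻ g in Ω, ∑' δ : SL(2, 𝓞 K), (Nat.card {x : SL(2, 𝓞 K) ⧸ Γ // δ • x = x} : ℝ≥0∞) *
      kk (mu K) B (g⁻¹ * io K δ * g) ∂(mu K) ≤ ENNReal.ofReal (VΩ * W) := by
    calc _ ≤ ∫⁻ g in Ω, ENNReal.ofReal W ∂(mu K) :=
          setLIntegral_mono' hΩ.measurableSet fun g hg => htr Γ hΓ ρ hρ2 g (hRb g hg)
      _ = ENNReal.ofReal W * mu K Ω := setLIntegral_const _ _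
      _ = _ := by
          rw [mul_comm, ENNReal.ofReal_mul ENNReal.toReal_nonneg, ENNReal.ofReal_toReal hΩfin]
  have htot : ∑ i, ‖a i‖ₑ ^ 2 ≤ ENNReal.ofReal (2 * (VΩ * W)) := by
    calc _ ≤ 2 * ENNReal.ofReal (VΩ * W) := htrace.trans (by gcongr; exact hunf.trans hint)
      _ = _ := by
          rw [ENNReal.ofReal_mul (by norm_num : (0 : ℝ) ≤ 2)]
          simp
  have htot' : ∑ i, ‖a i‖ ^ 2 ≤ 2 * (VΩ * W) := by
    have e : ∑ i, ‖a i‖ₑ ^ 2 = ENNReal.ofReal (∑ i, ‖a i‖ ^ 2) := by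
      rw [ENNReal.ofReal_sum_of_nonneg fun i _ => by positivity]
      exact Finset.sum_congr rfl fun i _ => enorm_sq_eq _
    rw [e] at htot
    exact (ENNReal.ofReal_le_ofReal_iff (by positivity)).1 htot
  -- lower bound of the left hand side
  have hlow : ∀ i, c ^ 2 / 4 * (n * n ^ (2 * (ν i v).re)) ≤ ‖a i‖ ^ 2 := by
    intro i
    have h6 := hbd ρ hρ2 i
    have hx : 0 ≤ (ν i v).re := hε.le.trans (hν i).2.1
    have h7 : n * n ^ (2 * (ν i v).re) ≤ (ρ ^ ((v.mult : ℝ) * (1 + 2 * (ν i v).re))) ^ 2 := by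
      have e1 : (ρ ^ ((v.mult : ℝ) * (1 + 2 * (ν i v).re))) ^ 2 = (q * n) ^ (1 + 2 * (ν i v).re) := by
        rw [← hρn, ← Real.rpow_natCast (ρ ^ _) 2, ← Real.rpow_mul hρ0.le, ← Real.rpow_natCast,
          ← Real.rpow_mul hρ0.le]
        congr 1
        push_cast
        ring
      have e2 : n * n ^ (2 * (ν i v).re) = n ^ (1 + 2 * (ν i v).re) := by
        rw [Real.rpow_add hn0, Real.rpow_one]
      rw [e1, e2]
      exact Real.rpow_le_rpow hn0.le (by nlinarith) (by linarith)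
    calc c ^ 2 / 4 * (n * n ^ (2 * (ν i v).re))
        ≤ c ^ 2 / 4 * (ρ ^ ((v.mult : ℝ) * (1 + 2 * (ν i v).re))) ^ 2 := by gcongr
      _ = (c / 2 * ρ ^ ((v.mult : ℝ) * (1 + 2 * (ν i v).re))) ^ 2 := by ring
      _ ≤ ‖a i‖ ^ 2 := by gcongr
  have hsum : c ^ 2 / 4 * n * ∑ i, n ^ (2 * (ν i v).re) ≤ 2 * (VΩ * W) := by
    rw [Finset.mul_sum]
    refine le_trans (Finset.sum_le_sum fun i _ => ?_) htot'
    rw [mul_assoc]
    exact hlow i
  -- the bound of `W`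
  have hlogb : 1 + Real.log ρ ≤ A * n ^ ε' := by
    have e1 : Real.log ρ = Real.log 2 + (1 / (2 * v.mult)) * Real.log n := by
      rw [hρ, Real.log_mul (by norm_num) (by positivity), Real.log_rpow hn0]
    have e2 : Real.log 2 ≤ 1 := by
      have := Real.log_two_lt_d9; linarith
    have e3 : Real.log n ≤ n ^ ε' / ε' := Real.log_le_rpow_div hn0.le hε'0
    have e4 : 0 ≤ Real.log n := Real.log_nonneg hn1
    have e5 : 1 ≤ n ^ ε' := Real.one_le_rpow hn1 hε'0.le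
    have e6 : (1 / (2 * v.mult : ℝ)) ≤ 1 := by
      rw [div_le_one (by positivity)]
      have : (1 : ℝ) ≤ v.mult := by exact_mod_cast mult_pos' v
      linarith
    have e7 : (1 / (2 * v.mult : ℝ)) * Real.log n ≤ n ^ ε' / ε' :=
      le_trans (by nlinarith) e3
    have e8 : A * n ^ ε' = 2 * n ^ ε' + n ^ ε' / ε' := by rw [hA]; ring
    rw [e1, e8]
    linarith
  have hWb : W ≤ C₃ * q * A * q ^ (2 * ε') * (2 * q) * (n * n ^ (1 + ε)) := by
    rw [hW, hρn]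
    have e1 : (n * (q * n)) ^ (2 * ε') = q ^ (2 * ε') * n ^ (4 * ε') := by
      have : n * (q * n) = q * n ^ (2 : ℝ) := by
        rw [Real.rpow_two]; ring
      rw [this, Real.mul_rpow hq0.le (by positivity), ← Real.rpow_mul hn0.le]
      congr 2
      ring
    have e2 : n + q * n ≤ 2 * q * n := by nlinarith
    have e3 : n ^ (1 + ε) = n * (n ^ ε' * n ^ (4 * ε')) := by
      rw [← Real.rpow_add hn0, Real.rpow_add hn0, Real.rpow_one]
      congr 2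
      rw [hε']; ring
    calc C₃ * (q * n) * (1 + Real.log ρ) * (n * (q * n)) ^ (2 * ε') * (n + q * n)
        ≤ C₃ * (q * n) * (A * n ^ ε') * (q ^ (2 * ε') * n ^ (4 * ε')) * (2 * q * n) := by
          rw [e1]; gcongr
      _ = _ := by rw [e3]; ring
  have hfinal : c ^ 2 / 4 * n * ∑ i, n ^ (2 * (ν i v).re) ≤
      n * ((2 * (VΩ * (C₃ * q * A * q ^ (2 * ε') * (2 * q)))) * n ^ (1 + ε)) := by
    refine hsum.trans ?_
    have hVΩ0 : 0 ≤ VΩ := ENNReal.toReal_nonneg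
    calc 2 * (VΩ * W) ≤ 2 * (VΩ * (C₃ * q * A * q ^ (2 * ε') * (2 * q) * (n * n ^ (1 + ε)))) := by
          gcongr
      _ = _ := by ring
  have hdiv : c ^ 2 / 4 * ∑ i, n ^ (2 * (ν i v).re) ≤
      (2 * (VΩ * (C₃ * q * A * q ^ (2 * ε') * (2 * q)))) * n ^ (1 + ε) := by
    have : n * (c ^ 2 / 4 * ∑ i, n ^ (2 * (ν i v).re)) ≤
        n * ((2 * (VΩ * (C₃ * q * A * q ^ (2 * ε') * (2 * q)))) * n ^ (1 + ε)) := by
      refine le_trans (le_of_eq ?_) hfinal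
      ring
    exact le_of_mul_le_mul_left this hn0
  have hnp : 0 ≤ n ^ (1 + ε) := by positivity
  calc ∑ i, n ^ (2 * (ν i v).re) = (c ^ 2 / 4)⁻¹ * (c ^ 2 / 4 * ∑ i, n ^ (2 * (ν i v).re)) := by
        rw [← mul_assoc, inv_mul_cancel₀ (by positivity), one_mul]
    _ ≤ (c ^ 2 / 4)⁻¹ * ((2 * (VΩ * (C₃ * q * A * q ^ (2 * ε') * (2 * q)))) * n ^ (1 + ε)) := by
        gcongr
    _ ≤ _ := by nlinarith

end Pool.Agent.T2h77
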