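import Pool.Agent.T2h77.Anal5

/-!
# Unfolding of the trace with Hecke operators
-/

set_option autoImplicit false
set_option linter.unusedSectionVars false

open MeasureTheory Measure
open scoped ENNReal NNReal Pointwise ComplexConjugate

noncomputable section

namespace Pool.Agent.T2h77.An

variable {G : Type} [Group G] [TopologicalSpace G] [IsTopologicalGroup G] [LocallyCompactSpace G]
  [SecondCountableTopology G] [T2Space G] [MeasurableSpace G] [BorelSpace G]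

variable {μ : Measure G} {𝓕 : Set G}

/-- unfolding of the trace, with a class function `c` -/
theorem unfoldH [μ.IsHaarMeasure] {Λ : Type} [Group Λ] [Countable Λ] (j : Λ →* G)
    (Γ : Subgroup Λ) [Γ.FiniteIndex]
    (h𝓕 : IsFundamentalDomain (Γ.map j) 𝓕 μ) (Δ Δ' : Subgroup G) [Countable Δ']
    (hΔ : Δ ≤ Δ') (hΓΔ : Γ.map j ≤ Δ) (hΛΔ : j.range ≤ Δ')
    {D Ω : Set G} (hD : ∀ g ∈ D, ∃ δ : Λ, j δ * g ∈ Ω) {κ : G → ℝ≥0∞} (hκ : Measurable κ)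
    {c : G → ℝ≥0∞} (hc : ∀ (l : Λ) (δ : G), c (j l * δ * (j l)⁻¹) = c δ) :
    ∫⁻ g in 𝓕 ∩ D, ∑' δ : Δ, c δ * κ (g⁻¹ * δ * g) ∂μ ≤
      ∫⁻ g in Ω, ∑' δ : Δ', (Nat.card {y : Λ ⧸ Γ // (j y.out)⁻¹ * δ * j y.out ∈ Δ} : ℝ≥0∞) *
        c δ * κ (g⁻¹ * δ * g) ∂μ := by
  classical
  have hcount : Countable (Γ.map j) := by
    have : Function.Surjective (fun γ : Γ => (⟨j γ, Subgroup.mem_map_of_mem j γ.2⟩ : Γ.map j)) := by
      rintro ⟨_, γ, hγ, rfl⟩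
      exact ⟨⟨γ, hγ⟩, rfl⟩
    exact this.countable
  have hcΔ : Countable Δ := (Set.inclusion_injective (show (Δ : Set G) ⊆ Δ' from hΔ)).countable
  have hfin : Finite (Λ ⧸ Γ) := inferInstance
  have := Fintype.ofFinite (Λ ⧸ Γ)
  set Φ : G → ℝ≥0∞ := fun g => ∑' δ : Δ, c δ * κ (g⁻¹ * δ * g) with hΦ
  have hconj : ∀ γ : G, Measurable fun g : G => κ (g⁻¹ * γ * g) := fun γ => hκ.comp (by fun_prop)
  have hΦm : Measurable Φ := Measurable.tsum fun γ => (hconj γ).const_mul _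
  have hc' : ∀ (l : Λ) (δ : G), c ((j l)⁻¹ * δ * j l) = c δ := by
    intro l δ
    have := hc l⁻¹ δ
    simpa using this
  have hΦinv : ∀ (γ : Γ.map j) (g : G), Φ (γ • g) = Φ g := by
    intro γ g
    rw [hΦ]
    simp only
    set γ' : Δ := ⟨γ.1, hΓΔ γ.2⟩ with hγ'
    rw [← (MulAut.conj γ').toEquiv.tsum_eq (fun δ : Δ => c δ * κ ((γ • g)⁻¹ * δ * (γ • g)))]
    refine tsum_congr fun δ => ?_
    congr 1
    · obtain ⟨_, γ0, hγ0, rfl⟩ := γ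
      exact hc γ0 δ
    · congr 1
      simp only [hγ', MulEquiv.toEquiv_eq_coe, MulEquiv.coe_toEquiv, MulAut.conj_apply,
        Subgroup.coe_mul, Subgroup.coe_inv, Subgroup.smul_def, smul_eq_mul, mul_inv_rev]
      group
  -- the covering
  have hcov : 𝓕 ∩ D ⊆ ⋃ y : Λ ⧸ Γ, ⋃ γ : Γ.map j, (γ • ((fun g => j (y.out)⁻¹ * g) '' Ω)) ∩ 𝓕 := by
    rintro g ⟨hg1, hg2⟩
    obtain ⟨δ, hδ⟩ := hD g hg2
    set y : Λ ⧸ Γ := (δ : Λ ⧸ Γ) with hy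
    have h1 : y.out⁻¹ * δ ∈ Γ := by
      rw [← QuotientGroup.eq, QuotientGroup.out_eq']
    rw [Set.mem_iUnion]
    refine ⟨y, ?_⟩
    rw [Set.mem_iUnion]
    refine ⟨⟨j (y.out⁻¹ * δ)⁻¹, Subgroup.mem_map_of_mem j (Γ.inv_mem h1)⟩, ?_, hg1⟩
    refine ⟨j (y.out)⁻¹ * (j δ * g), ⟨_, hδ, rfl⟩, ?_⟩
    simp only [Subgroup.smul_def, smul_eq_mul, map_inv, map_mul, mul_inv_rev, inv_inv]
    group
  -- the integral over the pieces
  have hpiece : ∀ y : Λ ⧸ Γ, ∑' γ : Γ.map j,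
      ∫⁻ g in (γ • ((fun g => j (y.out)⁻¹ * g) '' Ω)) ∩ 𝓕, Φ g ∂μ = ∫⁻ g in Ω, Φ (j (y.out)⁻¹ * g) ∂μ := by
    intro y
    have h1 := h𝓕.setLIntegral_eq_tsum' Φ ((fun g => j (y.out)⁻¹ * g) '' Ω)
    simp only [hΦinv] at h1
    rw [← h1]
    exact ((measurePreserving_mul_left μ (j (y.out)⁻¹)).setLIntegral_comp_emb
      (Homeomorph.mulLeft (j (y.out)⁻¹)).measurableEmbedding Φ Ω).symm
  -- the sum over the cosets
  have hsum : ∀ g : G, ∑ y : Λ ⧸ Γ, Φ (j (y.out)⁻¹ * g) =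
      ∑' δ : Δ', (Nat.card {y : Λ ⧸ Γ // (j y.out)⁻¹ * δ * j y.out ∈ Δ} : ℝ≥0∞) *
        c δ * κ (g⁻¹ * δ * g) := by
    intro g
    have h1 : ∀ y : Λ ⧸ Γ, Φ (j (y.out)⁻¹ * g) =
        ∑' δ : Δ', (if (j y.out)⁻¹ * (δ : G) * j y.out ∈ Δ then c δ * κ (g⁻¹ * δ * g) else 0) := by
      intro y
      rw [hΦ]
      simp only
      have e2 : ∀ δ : Δ, c δ * κ ((j (y.out)⁻¹ * g)⁻¹ * δ * (j (y.out)⁻¹ * g)) =
          c (j y.out * δ * (j y.out)⁻¹) * κ (g⁻¹ * (j y.out * δ * (j y.out)⁻¹) * g) := by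
        intro δ
        rw [hc]
        congr 2
        simp only [map_inv, mul_inv_rev, inv_inv]
        group
      simp only [e2]
      -- the injection `Δ → Δ'`
      have hmem : ∀ δ : Δ, j y.out * (δ : G) * (j y.out)⁻¹ ∈ Δ' := fun δ =>
        Δ'.mul_mem (Δ'.mul_mem (hΛΔ ⟨_, rfl⟩) (hΔ δ.2)) (Δ'.inv_mem (hΛΔ ⟨_, rfl⟩))
      have hinj : Function.Injective fun δ : Δ => (⟨_, hmem δ⟩ : Δ') := by
        intro a b hab
        have := congrArg Subtype.val hab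
        simpa using this
      rw [← hinj.tsum_eq (f := fun δ : Δ' =>
        (if (j y.out)⁻¹ * (δ : G) * j y.out ∈ Δ then c δ * κ (g⁻¹ * δ * g) else 0))]
      · refine tsum_congr fun δ => ?_
        rw [if_pos]
        have : (j y.out)⁻¹ * (j y.out * (δ : G) * (j y.out)⁻¹) * j y.out = δ := by group
        rw [this]
        exact δ.2
      · intro δ hδ
        rw [Function.mem_support] at hδ
        have h3 : (j y.out)⁻¹ * (δ : G) * j y.out ∈ Δ := by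
          by_contra hcon
          rw [if_neg hcon] at hδ
          exact hδ rfl
        refine ⟨⟨_, h3⟩, ?_⟩
        apply Subtype.ext
        simp only
        group
    simp only [h1]
    have e5 : ∑ y : Λ ⧸ Γ, ∑' δ : Δ', (if (j y.out)⁻¹ * (δ : G) * j y.out ∈ Δ then
          c δ * κ (g⁻¹ * δ * g) else 0) =
        ∑' y : Λ ⧸ Γ, ∑' δ : Δ', (if (j y.out)⁻¹ * (δ : G) * j y.out ∈ Δ then
          c δ * κ (g⁻¹ * δ * g) else 0) :=
      (tsum_fintype _).symm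
    rw [e5, ENNReal.tsum_comm]
    refine tsum_congr fun δ => ?_
    rw [tsum_fintype, ← Finset.sum_filter, Finset.sum_const, nsmul_eq_mul, ← mul_assoc,
      Nat.card_eq_fintype_card, Fintype.card_subtype]
  calc ∫⁻ g in 𝓕 ∩ D, Φ g ∂μ
      ≤ ∫⁻ g in ⋃ y : Λ ⧸ Γ, ⋃ γ : Γ.map j, (γ • ((fun g => j (y.out)⁻¹ * g) '' Ω)) ∩ 𝓕, Φ g ∂μ :=
        lintegral_mono_set hcov
    _ ≤ ∑' y : Λ ⧸ Γ, ∫⁻ g in ⋃ γ : Γ.map j, (γ • ((fun g => j (y.out)⁻¹ * g) '' Ω)) ∩ 𝓕, Φ g ∂μ :=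
        lintegral_iUnion_le _ _
    _ ≤ ∑' y : Λ ⧸ Γ, ∑' γ : Γ.map j,
          ∫⁻ g in (γ • ((fun g => j (y.out)⁻¹ * g) '' Ω)) ∩ 𝓕, Φ g ∂μ :=
        ENNReal.tsum_le_tsum fun y => lintegral_iUnion_le _ _
    _ = ∑ y : Λ ⧸ Γ, ∫⁻ g in Ω, Φ (j (y.out)⁻¹ * g) ∂μ := by
        rw [tsum_fintype]
        exact Finset.sum_congr rfl fun y _ => hpiece y
    _ = ∫⁻ g in Ω, ∑ y : Λ ⧸ Γ, Φ (j (y.out)⁻¹ * g) ∂μ := by
        exact (lintegral_finsetSum (μ := μ.restrict Ω) Finset.univ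
          (f := fun (y : Λ ⧸ Γ) (g : G) => Φ (j (y.out)⁻¹ * g))
          fun y _ => hΦm.comp (measurable_const_mul (j (y.out)⁻¹))).symm
    _ = _ := by simp only [hsum]

end Pool.Agent.T2h77.An
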