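import Pool.Agent.T2h77.GeoP5
import Pool.Agent.T2h77.Hecke4
import Pool.Agent.T2h77.Hecke6
import Pool.Agent.T2h77.Geo5

/-!
# The density theorem at the finite places
-/

set_option autoImplicit false
set_option linter.unusedSectionVars false
set_option linter.deprecated false

open NumberField NumberField.mixedEmbedding MeasureTheory Matrix IsDedekindDomain
open scoped MatrixGroups ENNReal

noncomputable section

namespace Pool.Agent.T2h77

namespace PP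

open Cnt An

variable {K : Type} [Field K] [NumberField K]

lemma ball_pos {ρ₀ : ℝ} (h : √2 < ρ₀) : 0 < mu K (ball fun _ => ρ₀) := by
  have hopen : IsOpen (⋂ w : InfinitePlace K, {g : GG K | mn w g < ρ₀}) :=
    isOpen_iInter_of_finite fun w => isOpen_lt (continuous_mn w) continuous_const
  have hne : (⋂ w : InfinitePlace K, {g : GG K | mn w g < ρ₀}).Nonempty := by
    refine ⟨1, Set.mem_iInter.2 fun w => ?_⟩
    have h1 : mn w (1 : GG K) ^ 2 = 2 := by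
      rw [mn_sq']
      simp [Matrix.SpecialLinearGroup.coe_one]
      norm_num
    have h2 : mn w (1 : GG K) = √2 := by
      rw [← h1, Real.sqrt_sq (mn_nonneg _ _)]
    change mn w (1 : GG K) < ρ₀
    rw [h2]; exact h
  refine lt_of_lt_of_le (hopen.measure_pos (mu K) hne) (measure_mono ?_)
  intro g hg w
  exact (Set.mem_iInter.1 hg w : mn w g < ρ₀).le

lemma countable_SL (K : Type) [Field K] [NumberField K] : Countable SL(2, K) := by
  have h1 : Countable K := (Module.finBasis ℚ K).equivFun.injective.countable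
  have h2 : Function.Injective (fun a : SL(2, K) => fun i j => a i j) := by
    intro a b hab
    ext i j
    exact congrFun (congrFun hab i) j
  exact h2.countable

/-- the lower bound of the Hecke eigenvalues -/
lemma hecke_lower {q : ℝ} (hq : 1 ≤ q) (k : ℕ) {τ : ℂ} (h : τ.im = 0) :
    q ^ k * q ^ (2 * k * τ.re) ≤ ‖((q : ℂ)) ^ k *
      (∑ i ∈ Finset.range (2 * k + 1), (q : ℂ) ^ (2 * ((i : ℂ) - k) * τ))‖ := by
  have hq0 : 0 < q := by linarith
  have e : ∀ i : ℕ, (q : ℂ) ^ (2 * ((i : ℂ) - k) * τ) = ((q ^ (2 * ((i : ℝ) - k) * τ.re) : ℝ) : ℂ) := by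
    intro i
    have h1 : τ = (τ.re : ℂ) := by apply Complex.ext <;> simp [h]
    rw [Complex.ofReal_cpow hq0.le]
    congr 1
    rw [h1]
    push_cast
    simp
  simp only [e]
  rw [← Complex.ofReal_sum, ← Complex.ofReal_pow, ← Complex.ofReal_mul, Complex.norm_real, Real.norm_eq_abs]
  have h2 : ∀ i ∈ Finset.range (2 * k + 1), 0 ≤ q ^ (2 * ((i : ℝ) - k) * τ.re) := fun i _ => by positivity
  rw [abs_of_nonneg (mul_nonneg (by positivity) (Finset.sum_nonneg h2))]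
  have h3 := Finset.single_le_sum h2 (Finset.mem_range.2 (Nat.lt_succ_self (2 * k)))
  have h4 : (2 * (((2 * k : ℕ) : ℝ) - k) * τ.re) = 2 * k * τ.re := by push_cast; ring
  rw [h4] at h3
  gcongr

lemma exists_k {b q ε : ℝ} (hb : 0 < b) (hq : 2 ≤ q) (hε : 0 < ε) :
    ∃ k : ℕ, 8 * b * (2 * k + 1) ≤ q ^ (2 * k * ε) := by
  have hr : 1 < q ^ (2 * ε) := Real.one_lt_rpow (by linarith) (by positivity)
  have h1 := tendsto_pow_const_div_const_pow_of_one_lt 1 hr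
  have h2 := h1.eventually (gt_mem_nhds (show (0 : ℝ) < 1 / (24 * b) by positivity))
  obtain ⟨k, hk1, hk2⟩ := (h2.and (Filter.eventually_ge_atTop 1)).exists
  refine ⟨k, ?_⟩
  have e : q ^ (2 * k * ε) = (q ^ (2 * ε)) ^ k := by
    rw [← Real.rpow_natCast, ← Real.rpow_mul (by linarith)]
    ring_nf
  rw [e]
  rw [pow_one, div_lt_div_iff₀ (by positivity) (by positivity)] at hk1
  have hk3 : (1 : ℝ) ≤ k := by exact_mod_cast hk2
  nlinarith

theorem densityP_of (h1 : S_unimod) (h4 : S_red) (h5 : S_count2)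
    (K : Type) [Field K] [NumberField K] : DensityP K := by
  classical
  intro 𝔭i hp hp0 ε L hε
  set 𝔭 : HeightOneSpectrum (𝓞 K) := ⟨𝔭i, hp, hp0⟩ with h𝔭
  have hunim : (mu K).IsMulRightInvariant := h1 K
  have hcSL := countable_SL K
  have hcR : Countable (jo K).range := by
    have : Function.Surjective (jo K).rangeRestrict := (jo K).rangeRestrict_surjective
    exact this.countable
  obtain ⟨ρ₀, hρ₀, heig⟩ := eig_lowerP K L
  have hρ₁ : 1 ≤ ρ₀ := by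
    have : (1 : ℝ) ≤ √2 := by
      rw [Real.one_le_sqrt]; norm_num
    linarith
  have hq2 := two_le_qq 𝔭
  have hq0 := qq_pos 𝔭
  set q : ℝ := qq 𝔭 with hq
  set B : Set (GG K) := ball fun _ => ρ₀ with hB
  have hSB : SC (mu K) B := SC_ball _
  have hBfin : mu K B ≠ ∞ := (isCompact_ball _).measure_lt_top.ne
  set V : ℝ := (mu K B).toReal with hV
  have hV0 : 0 < V := ENNReal.toReal_pos (ball_pos hρ₀).ne' hBfin
  set b : ℝ := bd (K := K) (fun _ => ρ₀) with hb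
  have hb1 : 1 ≤ b := one_le_bd hρ₁
  obtain ⟨k₁, hk₁⟩ := exists_k (b := b) (q := q) (ε := ε) (by linarith) hq2 hε
  set Y : ℝ := b * q ^ (2 * k₁) with hY
  obtain ⟨Ω, hΩ, hred⟩ := h4 K Y
  obtain ⟨R, hR, hRb⟩ := exists_bound hΩ
  set ε' : ℝ := ε / 4 with hε'
  have hε'0 : 0 < ε' := by positivity
  obtain ⟨C₃, hC₃, htr⟩ := trace_leP (K := K) h5 𝔭 ρ₀ hR ε' hε'0
  set VΩ : ℝ := (mu K Ω).toReal with hVΩ
  have hVΩ0 : 0 ≤ VΩ := ENNReal.toReal_nonneg
  refine ⟨q ^ 2 * ((V ^ 2 / 4)⁻¹ * (4 * VΩ * C₃)) + 1, by positivity, ?_⟩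
  intro Γ hΓ 𝓕 h𝓕 r ν τ f hf hL2 hH hτ hν hli
  have hfi := index_ne_zero_of_congr (congr_ic hΓ)
  set n : ℝ := ((ic Γ).index : ℝ) with hn
  have hn1 : 1 ≤ n := by
    rw [hn]
    exact_mod_cast Nat.one_le_iff_ne_zero.2 hfi.index_ne_zero
  have hn0 : 0 < n := by linarith
  -- the level of the Hecke operator
  set N : ℕ := Ideal.absNorm 𝔭.asIdeal with hN
  have hN2 : 2 ≤ N := by
    have h : (2 : ℝ) ≤ (N : ℝ) := hq2
    exact_mod_cast h
  set k : ℕ := Nat.log (N ^ 2) (ic Γ).index with hk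
  set X : ℝ := q ^ (2 * k) with hX
  have hXn : X ≤ n := by
    have h := Nat.pow_log_le_self (N ^ 2) hfi.index_ne_zero
    have h' : (((N ^ 2) ^ k : ℕ) : ℝ) ≤ ((ic Γ).index : ℝ) := by exact_mod_cast h
    refine le_trans (le_of_eq ?_) h'
    rw [hX, pow_mul]
    push_cast
    rfl
  have hnX : n ≤ q ^ 2 * X := by
    have h := Nat.lt_pow_succ_log_self (b := N ^ 2) (by nlinarith) (ic Γ).index
    have h' : n ≤ ((N ^ 2) ^ (k + 1) : ℕ) := by
      rw [hn]; exact_mod_cast h.le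
    refine h'.trans (le_of_eq ?_)
    rw [hX, pow_mul, pow_succ]
    push_cast
    ring
  have hX1 : 1 ≤ X := one_le_pow₀ (by linarith)
  have hX0 : 0 < X := by linarith
  have hcount := countable_ic Γ
  have : Fact (IsFundamentalDomain ((ic Γ).map (io K)) 𝓕 (mu K)) := ⟨h𝓕⟩
  obtain ⟨s, hs⟩ := exists_reps 𝔭 Γ k
  obtain ⟨s', hs'⟩ := exists_reps 𝔭 Γ k₁
  -- the eigenfunctions
  have hLI : ∀ i, LI (mu K) ((ic Γ).map (io K)) 𝓕 (f i) := by
    intro i
    refine ⟨(hf i).continuous, ?_, ?_⟩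
    · rintro _ ⟨γ, hγ, rfl⟩ g
      exact (hf i).invariant γ hγ g
    · have h := (hL2 i).eLpNorm_lt_top
      rw [eLpNorm_lt_top_iff_lintegral_rpow_enorm_lt_top (by norm_num) (by norm_num)] at h
      have e : ∫⁻ g in 𝓕, ‖f i g‖ₑ ^ 2 ∂(mu K) =
          ∫⁻ g in 𝓕, ‖f i g‖ₑ ^ (2 : ℝ≥0∞).toReal ∂(mu K) := by
        refine lintegral_congr fun g => ?_
        rw [ENNReal.toReal_ofNat, ENNReal.rpow_ofNat]
      rw [e]
      exact h.ne
  set φ : Fin r → LE (mu K) ((ic Γ).map (io K)) 𝓕 := fun i => ⟨f i, hLI i⟩ with hφ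
  set a : Fin r → ℂ := fun i => ∫ h in B, sph (ν i) h ∂(mu K) with ha
  set ev : ℕ → Fin r → ℂ := fun k i => (q : ℂ) ^ k *
      (∑ j ∈ Finset.range (2 * k + 1), (q : ℂ) ^ (2 * ((j : ℂ) - k) * τ i)) with hev
  have hsph : ∀ i g, Av (mu K) B (φ i : GG K → ℂ) g = a i * (φ i : GG K → ℂ) g :=
    fun i g => (hf i).spherical _ g
  have hHT : ∀ (k : ℕ) (s : Finset SL(2, K)), IsReps 𝔭.asIdeal Γ k s → ∀ i g,
      HT (im s) (φ i : GG K → ℂ) g = ev k i * (φ i : GG K → ℂ) g := by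
    intro k s hs i g
    unfold HT im
    rw [Finset.sum_map]
    have := hH i k s hs g
    exact this
  have hlin : LinearIndependent ℂ φ :=
    LinearIndependent.of_comp (LE (mu K) ((ic Γ).map (io K)) 𝓕).subtype hli
  -- the eigenvalues
  have hbd : ∀ (k : ℕ) i, q ^ k * q ^ (2 * k * (τ i).re) * (V / 2) ≤ ‖ev k i * a i‖ := by
    intro k i
    rw [norm_mul]
    have h6 := hecke_lower (q := q) (by linarith) k (hτ i).1
    have h7 := heig (ν i) (hν i)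
    exact mul_le_mul h6 h7 (by positivity) (norm_nonneg _)
  set Λ : ℝ := V * b * (2 * (2 * k₁ + 1) * q ^ k₁) with hΛ
  have hΛ0 : 0 < Λ := by positivity
  have hlow' : ∀ i, 2 * Λ ≤ ‖ev k₁ i * a i‖ := by
    intro i
    refine le_trans ?_ (hbd k₁ i)
    have e1 : q ^ (2 * k₁ * ε) ≤ q ^ (2 * k₁ * (τ i).re) := by
      apply Real.rpow_le_rpow_of_exponent_le (by linarith)
      have := (hτ i).2.1
      gcongr
    calc 2 * Λ = q ^ k₁ * (8 * b * (2 * k₁ + 1)) * (V / 2) := by rw [hΛ]; ring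
      _ ≤ q ^ k₁ * q ^ (2 * k₁ * ε) * (V / 2) := by gcongr
      _ ≤ _ := by gcongr
  have hll : ∀ i, 2 * ENNReal.ofReal Λ ^ 2 ≤ ‖ev k₁ i * a i‖ₑ ^ 2 := by
    intro i
    rw [enorm_sq_eq, ← ENNReal.ofReal_pow hΛ0.le]
    have : (2 : ℝ≥0∞) = ENNReal.ofReal 2 := by simp
    rw [this, ← ENNReal.ofReal_mul (by norm_num)]
    apply ENNReal.ofReal_le_ofReal
    have := hlow' i
    nlinarith
  have h0 : ∀ i, ev k₁ i * a i ≠ 0 := by
    intro i h
    have := hlow' i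
    rw [h, norm_zero] at this
    linarith
  have htrace := traceH hSB hSB (reps_hs hs) (reps_hs hs') a a (ev k) (ev k₁) φ hsph hsph
    (hHT k s hs) (hHT k₁ s' hs') hlin (measurableSet_DD Y)
    (fun F hFm hFi => schur_cuspP 𝔭 hρ₁ k₁ le_rfl hs' h𝓕 F hFm hFi) hll h0
  -- unfolding
  have hle : ∫⁻ g in 𝓕 ∩ (DD Y)ᶜ, ∑ η ∈ im s, ∑' x : Ss ((ic Γ).map (io K)) (im s),
        kk (mu K) B (g⁻¹ * x * η * g) ∂(mu K) ≤
      ∫⁻ g in 𝓕 ∩ (DD Y)ᶜ, ∑' δ : Γ.map (jo K), cc 𝔭 k δ * kk (mu K) B (g⁻¹ * δ * g) ∂(mu K) := by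
    refine lintegral_mono fun g => ?_
    refine le_trans (le_of_eq ?_) (sum_Ss_le hs (fun δ => kk (mu K) B (g⁻¹ * δ * g)))
    simp only [mul_assoc]
  have hunf := unfoldH (μ := mu K) (io K) (ic Γ) h𝓕 (Γ.map (jo K)) (jo K).range
    (by rintro _ ⟨γ, -, rfl⟩; exact ⟨γ, rfl⟩)
    (by rintro _ ⟨γ, hγ, rfl⟩; exact ⟨oK K γ, hγ, rfl⟩)
    (by rintro _ ⟨γ, rfl⟩; exact ⟨oK K γ, rfl⟩)
    (D := (DD Y)ᶜ) (Ω := Ω)
    (fun g hg => by
      have : Wle Y g := by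
        by_contra hcon
        exact hg hcon
      exact hred g this)
    (measurable_kk (μ := mu K) hSB.ms) (c := cc 𝔭 k) (cc_conj 𝔭 k)
  set W : ℝ := C₃ * X * (n * X) ^ (2 * ε') * (n + X) with hW
  have hW0 : 0 ≤ W := by positivity
  have hΩfin : mu K Ω ≠ ∞ := hΩ.measure_lt_top.ne
  have hint : ∫⁻ g in Ω, ∑' δ : (jo K).range, (Nat.card {y : SL(2, 𝓞 K) ⧸ ic Γ //
      (io K y.out)⁻¹ * δ * io K y.out ∈ Γ.map (jo K)} : ℝ≥0∞) * cc 𝔭 k δ *
      kk (mu K) B (g⁻¹ * δ * g) ∂(mu K) ≤ ENNReal.ofReal (VΩ * W) := by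
    calc _ ≤ ∫⁻ g in Ω, ENNReal.ofReal W ∂(mu K) :=
          setLIntegral_mono' hΩ.measurableSet fun g hg => htr Γ hΓ k g (hRb g hg)
      _ = ENNReal.ofReal W * mu K Ω := setLIntegral_const _ _
      _ = _ := by
          rw [mul_comm, ENNReal.ofReal_mul ENNReal.toReal_nonneg, ENNReal.ofReal_toReal hΩfin]
  have htot : ∑ i, ‖ev k i * a i‖ₑ ^ 2 ≤ ENNReal.ofReal (2 * (VΩ * W)) := by
    calc _ ≤ 2 * ENNReal.ofReal (VΩ * W) :=
          htrace.trans (by gcongr; exact hle.trans (hunf.trans hint))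
      _ = _ := by
          rw [ENNReal.ofReal_mul (by norm_num : (0 : ℝ) ≤ 2)]
          simp
  have htot' : ∑ i, ‖ev k i * a i‖ ^ 2 ≤ 2 * (VΩ * W) := by
    have e : ∑ i, ‖ev k i * a i‖ₑ ^ 2 = ENNReal.ofReal (∑ i, ‖ev k i * a i‖ ^ 2) := by
      rw [ENNReal.ofReal_sum_of_nonneg fun i _ => by positivity]
      exact Finset.sum_congr rfl fun i _ => enorm_sq_eq _
    rw [e] at htot
    exact (ENNReal.ofReal_le_ofReal_iff (by positivity)).1 htot
  -- lower bound of the left hand side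
  have hlow : ∀ i, X * (V ^ 2 / 4 * X ^ (2 * (τ i).re)) ≤ ‖ev k i * a i‖ ^ 2 := by
    intro i
    have h6 := hbd k i
    have e2 : (q ^ k * q ^ (2 * k * (τ i).re) * (V / 2)) ^ 2 = X * (V ^ 2 / 4 * X ^ (2 * (τ i).re)) := by
      have e3 : X ^ (2 * (τ i).re) = (q ^ (2 * k * (τ i).re)) ^ 2 := by
        rw [hX, ← Real.rpow_natCast q (2 * k), ← Real.rpow_mul hq0.le, ← Real.rpow_natCast _ 2,
          ← Real.rpow_mul hq0.le]
        congr 1
        push_cast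
        ring
      have e4 : X = (q ^ k) ^ 2 := by rw [hX, ← pow_mul]; ring_nf
      rw [e3]
      nth_rewrite 1 [e4]
      ring
    rw [← e2]
    gcongr
  have hsum : X * (V ^ 2 / 4 * ∑ i, X ^ (2 * (τ i).re)) ≤ 2 * (VΩ * W) := by
    rw [Finset.mul_sum, Finset.mul_sum]
    exact le_trans (Finset.sum_le_sum fun i _ => hlow i) htot'
  have hWb : W ≤ X * (C₃ * (2 * n ^ (1 + ε))) := by
    rw [hW]
    have e1 : (n * X) ^ (2 * ε') ≤ n ^ ε := by
      calc (n * X) ^ (2 * ε') ≤ (n * n) ^ (2 * ε') := by gcongr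
        _ = n ^ ε := by
          rw [← sq, ← Real.rpow_natCast, ← Real.rpow_mul hn0.le]
          congr 1
          rw [hε']; push_cast; ring
    have e2 : n ^ (1 + ε) = n * n ^ ε := by rw [Real.rpow_add hn0, Real.rpow_one]
    have hnε : 0 ≤ n ^ ε := by positivity
    calc C₃ * X * (n * X) ^ (2 * ε') * (n + X) ≤ C₃ * X * n ^ ε * (n + n) := by gcongr
      _ = _ := by rw [e2]; ring
  have hdiv : V ^ 2 / 4 * ∑ i, X ^ (2 * (τ i).re) ≤ 4 * VΩ * C₃ * n ^ (1 + ε) := by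
    have : X * (V ^ 2 / 4 * ∑ i, X ^ (2 * (τ i).re)) ≤ X * (4 * VΩ * C₃ * n ^ (1 + ε)) := by
      calc X * (V ^ 2 / 4 * ∑ i, X ^ (2 * (τ i).re)) ≤ 2 * (VΩ * W) := hsum
        _ ≤ 2 * (VΩ * (X * (C₃ * (2 * n ^ (1 + ε))))) := by gcongr
        _ = _ := by ring
    exact le_of_mul_le_mul_left this hX0
  have hnp : 0 ≤ n ^ (1 + ε) := by positivity
  have hcmp : ∀ i, n ^ (2 * (τ i).re) ≤ q ^ 2 * X ^ (2 * (τ i).re) := by
    intro i
    have h6 : 0 ≤ 2 * (τ i).re := by have := (hτ i).2.1; linarith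
    have h7 : 2 * (τ i).re ≤ 1 := by have := (hτ i).2.2; linarith
    calc n ^ (2 * (τ i).re) ≤ (q ^ 2 * X) ^ (2 * (τ i).re) := by gcongr
      _ = (q ^ 2) ^ (2 * (τ i).re) * X ^ (2 * (τ i).re) := Real.mul_rpow (by positivity) hX0.le
      _ ≤ (q ^ 2) ^ (1 : ℝ) * X ^ (2 * (τ i).re) := by
          gcongr
          nlinarith
      _ = _ := by rw [Real.rpow_one]
  calc ∑ i, n ^ (2 * (τ i).re) ≤ ∑ i, q ^ 2 * X ^ (2 * (τ i).re) := Finset.sum_le_sum fun i _ => hcmp i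
    _ = q ^ 2 * ((V ^ 2 / 4)⁻¹ * (V ^ 2 / 4 * ∑ i, X ^ (2 * (τ i).re))) := by
        rw [← mul_assoc _ (V ^ 2 / 4), inv_mul_cancel₀ (by positivity), one_mul, Finset.mul_sum]
    _ ≤ q ^ 2 * ((V ^ 2 / 4)⁻¹ * (4 * VΩ * C₃ * n ^ (1 + ε))) := by gcongr
    _ ≤ _ := by nlinarith

end PP

end Pool.Agent.T2h77
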