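import Pool.Agent.T2h77.Anal1

/-!
# The averaging operators are symmetric
-/

set_option autoImplicit false
set_option linter.unusedSectionVars false

open MeasureTheory Measure
open scoped ENNReal Pointwise ComplexConjugate

noncomputable section

namespace Pool.Agent.T2h77.An

variable {G : Type} [Group G] [TopologicalSpace G] [IsTopologicalGroup G] [LocallyCompactSpace G]
  [SecondCountableTopology G] [T2Space G] [MeasurableSpace G] [BorelSpace G]

/-- continuous invariant square integrable functions -/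
structure LI (μ : Measure G) (Γ : Subgroup G) (𝓕 : Set G) (f : G → ℂ) : Prop where
  cont : Continuous f
  inv : ∀ γ ∈ Γ, ∀ g, f (γ * g) = f g
  fin : ∫⁻ g in 𝓕, ‖f g‖ₑ ^ 2 ∂μ ≠ ∞

/-- the averaging operator (without normalisation) -/
def Av (μ : Measure G) (B : Set G) (f : G → ℂ) (g : G) : ℂ := ∫ h in B, f (g * h) ∂μ

variable {μ : Measure G} {Γ : Subgroup G} {𝓕 : Set G}

theorem transC [μ.IsMulRightInvariant] [μ.IsMulLeftInvariant] [Countable Γ]
    (h𝓕 : IsFundamentalDomain Γ 𝓕 μ)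
    (F : G → ℂ) (hF : ∀ γ ∈ Γ, ∀ g, F (γ * g) = F g) (h : G) :
    ∫ g in 𝓕, F (g * h) ∂μ = ∫ g in 𝓕, F g ∂μ := by
  have h1 : IsFundamentalDomain Γ (MulOpposite.op h • 𝓕) μ := h𝓕.smul_of_comm _
  have h2 := h𝓕.setIntegral_eq h1 (f := F) (fun γ x => hF γ.1 γ.2 x)
  rw [h2]
  have h3 : MeasurePreserving (fun g : G => g * h) μ μ := measurePreserving_mul_right μ h
  have h4 : MulOpposite.op h • 𝓕 = (fun g : G => g * h) '' 𝓕 := rfl
  rw [h4]
  exact (h3.setIntegral_image_emb (Homeomorph.mulRight h).measurableEmbedding F 𝓕).symm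

theorem enorm_mul_le_sq (a b : ℂ) : ‖a * b‖ₑ ≤ ‖a‖ₑ ^ 2 + ‖b‖ₑ ^ 2 := by
  have h : ‖a * b‖ ≤ ‖a‖ ^ 2 + ‖b‖ ^ 2 := by
    rw [norm_mul]
    nlinarith [sq_nonneg (‖a‖ - ‖b‖), norm_nonneg a, norm_nonneg b, sq_nonneg ‖a‖, sq_nonneg ‖b‖]
  have e : ∀ x : ℂ, ‖x‖ₑ ^ 2 = ENNReal.ofReal (‖x‖ ^ 2) := fun x => by
    rw [ENNReal.ofReal_pow (norm_nonneg _), ofReal_norm]
  rw [e, e, ← ENNReal.ofReal_add (by positivity) (by positivity), ← ofReal_norm]
  exact ENNReal.ofReal_le_ofReal h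

theorem LI.integrable_mul {f f' : G → ℂ} (hf : LI μ Γ 𝓕 f) (hf' : LI μ Γ 𝓕 f') :
    Integrable (fun g => conj (f g) * f' g) (μ.restrict 𝓕) := by
  refine ⟨((Complex.continuous_conj.comp hf.cont).mul hf'.cont).aestronglyMeasurable, ?_⟩
  rw [hasFiniteIntegral_iff_enorm]
  refine lt_of_le_of_lt (lintegral_mono fun g => enorm_mul_le_sq _ _) ?_
  have h1 : ∀ g, ‖(conj (f g) : ℂ)‖ₑ = ‖f g‖ₑ := fun g => by
    rw [← ofReal_norm, RCLike.norm_conj, ofReal_norm]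
  simp only [h1]
  rw [lintegral_add_left (by have := hf.cont; fun_prop)]
  exact ENNReal.add_lt_top.2 ⟨hf.fin.lt_top, hf'.fin.lt_top⟩

/-- the averaging operators are symmetric -/
theorem symm [μ.IsHaarMeasure] [μ.IsMulRightInvariant] [Countable Γ]
    (h𝓕 : IsFundamentalDomain Γ 𝓕 μ) {B : Set G} (hB : MeasurableSet B) (hBf : μ B ≠ ∞)
    (hBi : ∀ h, h⁻¹ ∈ B ↔ h ∈ B) {f f' : G → ℂ} (hf : LI μ Γ 𝓕 f) (hf' : LI μ Γ 𝓕 f') :
    ∫ g in 𝓕, conj (Av μ B f g) * f' g ∂μ = ∫ g in 𝓕, conj (f g) * Av μ B f' g ∂μ := by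
  have hii : μ.IsInvInvariant := invInvariant μ
  have hfc := hf.cont
  have hfc' := hf'.cont
  -- the double integrals
  have key : ∀ (φ ψ : G → ℂ), LI μ Γ 𝓕 φ → LI μ Γ 𝓕 ψ →
      Integrable (fun p : G × G => conj (φ (p.1 * p.2)) * ψ p.1)
        ((μ.restrict 𝓕).prod (μ.restrict B)) := by
    intro φ ψ hφ hψ
    have hc1 := hφ.cont
    have hc2 := hψ.cont
    refine ⟨(Continuous.aestronglyMeasurable (by fun_prop)), ?_⟩
    rw [hasFiniteIntegral_iff_enorm]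
    refine lt_of_le_of_lt (lintegral_mono fun g => enorm_mul_le_sq _ _) ?_
    have h1 : ∀ z : ℂ, ‖(conj z : ℂ)‖ₑ = ‖z‖ₑ := fun z => by
      rw [← ofReal_norm, RCLike.norm_conj, ofReal_norm]
    simp only [h1]
    rw [lintegral_prod_symm _ (by fun_prop)]
    have h2 : ∀ h : G, ∫⁻ g in 𝓕, (‖φ (g * h)‖ₑ ^ 2 + ‖ψ g‖ₑ ^ 2) ∂μ =
        (∫⁻ g in 𝓕, ‖φ g‖ₑ ^ 2 ∂μ) + ∫⁻ g in 𝓕, ‖ψ g‖ₑ ^ 2 ∂μ := by
      intro h
      have hm : Measurable fun g : G => ‖φ (g * h)‖ₑ ^ 2 :=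
        (Continuous.measurable (by fun_prop : Continuous fun g : G => φ (g * h))).enorm.pow_const 2
      rw [lintegral_add_left hm]
      congr 1
      exact trans h𝓕 (fun g => ‖φ g‖ₑ ^ 2) (fun γ hγ g => by simp only [hφ.inv γ hγ]) h
    simp only [h2]
    rw [lintegral_const, Measure.restrict_apply_univ]
    exact ENNReal.mul_lt_top (ENNReal.add_lt_top.2 ⟨hφ.fin.lt_top, hψ.fin.lt_top⟩) hBf.lt_top
  have e1 : ∀ g, conj (Av μ B f g) * f' g = ∫ h in B, conj (f (g * h)) * f' g ∂μ := by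
    intro g
    unfold Av
    rw [← integral_conj, ← integral_mul_const]
  have e2 : ∀ g, conj (f g) * Av μ B f' g = ∫ h in B, conj (f g) * f' (g * h) ∂μ := by
    intro g
    unfold Av
    rw [← integral_const_mul]
  simp only [e1, e2]
  rw [integral_integral_swap (key f f' hf hf')]
  -- translate
  have e3 : ∀ h : G, ∫ g in 𝓕, conj (f (g * h)) * f' g ∂μ = ∫ g in 𝓕, conj (f g) * f' (g * h⁻¹) ∂μ := by
    intro h
    have := transC h𝓕 (fun g => conj (f g) * f' (g * h⁻¹)) (fun γ hγ g => by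
      simp only [mul_assoc, hf.inv γ hγ, hf'.inv γ hγ]) h
    rw [← this]
    simp only [mul_inv_cancel_right]
  simp only [e3]
  have e4 : ∫ h in B, (∫ g in 𝓕, conj (f g) * f' (g * h⁻¹) ∂μ) ∂μ =
      ∫ h in B, (∫ g in 𝓕, conj (f g) * f' (g * h) ∂μ) ∂μ := by
    rw [← integral_indicator hB, ← integral_indicator hB, ← integral_inv_eq_self _ μ]
    congr 1
    ext h
    by_cases hh : h ∈ B
    · rw [Set.indicator_of_mem ((hBi h).2 hh), Set.indicator_of_mem hh, inv_inv]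
    · rw [Set.indicator_of_notMem (fun h1 => hh ((hBi h).1 h1)), Set.indicator_of_notMem hh]
  rw [e4]
  have h5 : Integrable (fun p : G × G => conj (f p.1) * f' (p.1 * p.2))
      ((μ.restrict 𝓕).prod (μ.restrict B)) := by
    have := (key f' f hf' hf)
    have h6 : (fun p : G × G => conj (f p.1) * f' (p.1 * p.2)) =
        fun p => conj (conj (f' (p.1 * p.2)) * f p.1) := by
      ext p
      rw [map_mul, Complex.conj_conj, mul_comm]
    rw [h6]
    exact (Complex.conjCLE : ℂ →L[ℝ] ℂ).integrable_comp this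
  exact (integral_integral_swap h5).symm

end Pool.Agent.T2h77.An
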