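import Pool.Agent.T2h77.Anal2

/-!
# The inner product space of the continuous square integrable functions on `Γ \ G`, Gram-Schmidt
-/

set_option autoImplicit false
set_option linter.unusedSectionVars false

open MeasureTheory Measure
open scoped ENNReal Pointwise ComplexConjugate

noncomputable section

namespace Pool.Agent.T2h77.An

variable {G : Type} [Group G] [TopologicalSpace G] [IsTopologicalGroup G] [LocallyCompactSpace G]
  [SecondCountableTopology G] [T2Space G] [MeasurableSpace G] [BorelSpace G]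

lemma enorm_sq_eq (x : ℂ) : ‖x‖ₑ ^ 2 = ENNReal.ofReal (‖x‖ ^ 2) := by
  rw [ENNReal.ofReal_pow (norm_nonneg _), ofReal_norm]

lemma enorm_sq_add_le (a b : ℂ) : ‖a + b‖ₑ ^ 2 ≤ 2 * ‖a‖ₑ ^ 2 + 2 * ‖b‖ₑ ^ 2 := by
  have h : ‖a + b‖ ^ 2 ≤ 2 * ‖a‖ ^ 2 + 2 * ‖b‖ ^ 2 := by
    have h1 := norm_add_le a b
    nlinarith [sq_nonneg (‖a‖ - ‖b‖), norm_nonneg a, norm_nonneg b, norm_nonneg (a + b)]
  rw [enorm_sq_eq, enorm_sq_eq, enorm_sq_eq]
  have e2 : (2 : ℝ≥0∞) = ENNReal.ofReal 2 := by simp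
  rw [e2, ← ENNReal.ofReal_mul (by norm_num), ← ENNReal.ofReal_mul (by norm_num),
    ← ENNReal.ofReal_add (by positivity) (by positivity)]
  exact ENNReal.ofReal_le_ofReal h

/-- the space of the continuous square integrable functions on `Γ \ G` -/
def LE (μ : Measure G) (Γ : Subgroup G) (𝓕 : Set G) : Submodule ℂ (G → ℂ) where
  carrier := {f | LI μ Γ 𝓕 f}
  add_mem' := by
    rintro u v hu hv
    have hu1 := hu.cont
    have hv1 := hv.cont
    refine ⟨hu.cont.add hv.cont, fun γ hγ g => by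
      simp only [Pi.add_apply, hu.inv γ hγ g, hv.inv γ hγ g], ?_⟩
    have h1 : ∫⁻ g in 𝓕, ‖(u + v) g‖ₑ ^ 2 ∂μ ≤
        ∫⁻ g in 𝓕, (2 * ‖u g‖ₑ ^ 2 + 2 * ‖v g‖ₑ ^ 2) ∂μ :=
      lintegral_mono fun z => enorm_sq_add_le _ _
    refine ne_top_of_le_ne_top ?_ h1
    rw [lintegral_add_left (by fun_prop), lintegral_const_mul _ (by fun_prop),
      lintegral_const_mul _ (by fun_prop)]
    exact ENNReal.add_ne_top.2 ⟨ENNReal.mul_ne_top (by norm_num) hu.fin,
      ENNReal.mul_ne_top (by norm_num) hv.fin⟩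
  zero_mem' := ⟨continuous_const, fun γ hγ z => rfl, by simp⟩
  smul_mem' := by
    rintro c u hu
    have hu1 := hu.cont
    refine ⟨hu.cont.const_smul c, fun γ hγ z => by simp only [Pi.smul_apply, hu.inv γ hγ z], ?_⟩
    have h1 : ∀ z, ‖(c • u) z‖ₑ ^ 2 = ‖c‖ₑ ^ 2 * ‖u z‖ₑ ^ 2 := fun z => by
      rw [Pi.smul_apply, smul_eq_mul, enorm_mul, mul_pow]
    simp only [h1]
    rw [lintegral_const_mul _ (by fun_prop)]
    exact ENNReal.mul_ne_top (by simp) hu.fin

variable {μ : Measure G} {Γ : Subgroup G} {𝓕 : Set G}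

lemma LE.li (u : LE μ Γ 𝓕) : LI μ Γ 𝓕 (u : G → ℂ) := u.2

lemma LE.int_sq (u : LE μ Γ 𝓕) : Integrable (fun g => ‖(u : G → ℂ) g‖ ^ 2) (μ.restrict 𝓕) := by
  refine ⟨(LE.li u).cont.norm.pow 2 |>.aestronglyMeasurable, ?_⟩
  rw [hasFiniteIntegral_iff_enorm]
  have : ∀ z, ‖‖(u : G → ℂ) z‖ ^ 2‖ₑ = ‖(u : G → ℂ) z‖ₑ ^ 2 := fun z => by
    rw [enorm_pow, enorm_norm]
  simp only [this]
  exact (LE.li u).fin.lt_top

lemma self_inner_aux (u : G → ℂ) (M : Measure G) :
    (∫ z, conj (u z) * u z ∂M) = ((∫ z, ‖u z‖ ^ 2 ∂M : ℝ) : ℂ) := by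
  rw [← integral_complex_ofReal]
  congr 1
  ext z
  rw [← Complex.normSq_eq_conj_mul_self, Complex.normSq_eq_norm_sq]

/-- a continuous invariant function with vanishing norm is zero -/
lemma eq_zero_of [μ.IsHaarMeasure] [Countable Γ] (h𝓕 : IsFundamentalDomain Γ 𝓕 μ) {u : G → ℂ}
    (hc : Continuous u) (hi : ∀ γ ∈ Γ, ∀ g, u (γ * g) = u g)
    (h : ∫⁻ z in 𝓕, ‖u z‖ₑ ^ 2 ∂μ = 0) : u = 0 := by
  have hm : Measurable fun z => ‖u z‖ₑ ^ 2 := hc.measurable.enorm.pow_const 2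
  rw [lintegral_eq_zero_iff hm] at h
  set t : Set G := {g | u g ≠ 0} with ht
  have htm : MeasurableSet t := (isOpen_ne_fun hc continuous_const).measurableSet
  have h1 : μ (t ∩ 𝓕) = 0 := by
    have h2 : ∀ᵐ z ∂(μ.restrict 𝓕), ¬ (z ∈ t) := by
      filter_upwards [h] with z hz
      simpa [ht] using hz
    have h3 : (μ.restrict 𝓕) t = 0 := by
      have := h2
      rw [ae_iff] at this
      simpa using this
    rwa [Measure.restrict_apply htm] at h3
  have h4 : μ t = 0 := by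
    refine h𝓕.measure_zero_of_invariant t (fun γ => ?_) h1
    ext x
    rw [Set.mem_smul_set_iff_inv_smul_mem]
    have : u (γ⁻¹ • x) = u x := hi _ (Subgroup.inv_mem _ γ.2) x
    simp only [ht, Set.mem_setOf_eq, this]
  have h5 : u =ᵐ[μ] fun _ => (0 : ℂ) := by
    rw [Filter.EventuallyEq, ae_iff]
    exact h4
  exact (Continuous.ae_eq_iff_eq μ hc continuous_const).1 h5

variable [μ.IsHaarMeasure] [Countable Γ] [hF : Fact (IsFundamentalDomain Γ 𝓕 μ)]

variable (μ Γ 𝓕) in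
/-- the inner product -/
@[reducible]
def LEcore : InnerProductSpace.Core ℂ (LE μ Γ 𝓕) where
  inner u v := ∫ z in 𝓕, conj ((u : G → ℂ) z) * (v : G → ℂ) z ∂μ
  conj_inner_symm u v := by
    rw [← integral_conj]
    congr 1
    ext z
    simp [mul_comm]
  re_inner_nonneg u := by
    rw [self_inner_aux]
    simp only [RCLike.re_to_complex, Complex.ofReal_re]
    exact integral_nonneg fun z => by positivity
  add_left u v w := by
    rw [← integral_add ((LE.li u).integrable_mul (LE.li w)) ((LE.li v).integrable_mul (LE.li w))]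
    congr 1
    ext z
    simp [add_mul]
  smul_left u v c := by
    rw [← integral_const_mul]
    congr 1
    ext z
    simp [mul_assoc]
  definite u h := by
    rw [self_inner_aux] at h
    have h1 : ∫ z in 𝓕, ‖(u : G → ℂ) z‖ ^ 2 ∂μ = 0 := by exact_mod_cast h
    apply Subtype.ext
    apply eq_zero_of hF.out (LE.li u).cont (LE.li u).inv
    have h2 := ofReal_integral_eq_lintegral_ofReal (LE.int_sq u)
      (.of_forall fun z => by positivity)
    rw [h1, ENNReal.ofReal_zero] at h2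
    rw [h2]
    exact lintegral_congr fun z => enorm_sq_eq _

instance instNA : NormedAddCommGroup (LE μ Γ 𝓕) :=
  @InnerProductSpace.Core.toNormedAddCommGroup ℂ (LE μ Γ 𝓕) _ _ _ (LEcore μ Γ 𝓕)

instance instIPS : InnerProductSpace ℂ (LE μ Γ 𝓕) :=
  InnerProductSpace.ofCore (LEcore μ Γ 𝓕).toCore

lemma LE.inner_def (u v : LE μ Γ 𝓕) :
    inner ℂ u v = ∫ z in 𝓕, conj ((u : G → ℂ) z) * (v : G → ℂ) z ∂μ := rfl

lemma LE.norm_sq (u : LE μ Γ 𝓕) : ‖u‖ ^ 2 = ∫ z in 𝓕, ‖(u : G → ℂ) z‖ ^ 2 ∂μ := by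
  have h : ((‖u‖ ^ 2 : ℝ) : ℂ) = inner ℂ u u := by
    rw [inner_self_eq_norm_sq_to_K]; push_cast; rfl
  rw [LE.inner_def, self_inner_aux] at h
  exact_mod_cast h

lemma LE.lint_sq (u : LE μ Γ 𝓕) :
    ∫⁻ z in 𝓕, ‖(u : G → ℂ) z‖ₑ ^ 2 ∂μ = ENNReal.ofReal (‖u‖ ^ 2) := by
  rw [LE.norm_sq, ofReal_integral_eq_lintegral_ofReal (LE.int_sq u)
      (.of_forall fun z => by positivity)]
  exact lintegral_congr fun z => enorm_sq_eq _

/-- simultaneous eigenvectors of the averaging operators over two sets -/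
def ES (B B' : Set G) (a a' : ℂ) : Submodule ℂ (LE μ Γ 𝓕) where
  carrier := {u | (∀ g, Av μ B (u : G → ℂ) g = a * (u : G → ℂ) g ∧
    IntegrableOn (fun h => (u : G → ℂ) (g * h)) B μ) ∧
    ∀ g, Av μ B' (u : G → ℂ) g = a' * (u : G → ℂ) g ∧
    IntegrableOn (fun h => (u : G → ℂ) (g * h)) B' μ}
  add_mem' := by
    rintro u v ⟨hu1, hu2⟩ ⟨hv1, hv2⟩
    refine ⟨fun g => ⟨?_, (hu1 g).2.add (hv1 g).2⟩, fun g => ⟨?_, (hu2 g).2.add (hv2 g).2⟩⟩
    · have e : Av μ B ((u + v : LE μ Γ 𝓕) : G → ℂ) g = Av μ B (u : G → ℂ) g + Av μ B (v : G → ℂ) g :=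
        integral_add (hu1 g).2 (hv1 g).2
      rw [e, (hu1 g).1, (hv1 g).1, Submodule.coe_add, Pi.add_apply, mul_add]
    · have e : Av μ B' ((u + v : LE μ Γ 𝓕) : G → ℂ) g = Av μ B' (u : G → ℂ) g + Av μ B' (v : G → ℂ) g :=
        integral_add (hu2 g).2 (hv2 g).2
      rw [e, (hu2 g).1, (hv2 g).1, Submodule.coe_add, Pi.add_apply, mul_add]
  zero_mem' := by
    refine ⟨fun g => ⟨?_, ?_⟩, fun g => ⟨?_, ?_⟩⟩ <;> simp [Av, IntegrableOn]
  smul_mem' := by
    rintro c u ⟨hu1, hu2⟩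
    refine ⟨fun g => ⟨?_, (hu1 g).2.const_mul c⟩, fun g => ⟨?_, (hu2 g).2.const_mul c⟩⟩
    · have e : Av μ B ((c • u : LE μ Γ 𝓕) : G → ℂ) g = c * Av μ B (u : G → ℂ) g :=
        integral_const_mul c _
      rw [e, (hu1 g).1, Submodule.coe_smul, Pi.smul_apply, smul_eq_mul]
      ring
    · have e : Av μ B' ((c • u : LE μ Γ 𝓕) : G → ℂ) g = c * Av μ B' (u : G → ℂ) g :=
        integral_const_mul c _
      rw [e, (hu2 g).1, Submodule.coe_smul, Pi.smul_apply, smul_eq_mul]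
      ring

/-- symmetric compact sets -/
structure SC (μ : Measure G) (B : Set G) : Prop where
  cpt : IsCompact B
  symm : ∀ h, h⁻¹ ∈ B ↔ h ∈ B

omit [μ.IsHaarMeasure] in
lemma SC.ms {B : Set G} (h : SC μ B) : MeasurableSet B := h.cpt.measurableSet

lemma SC.ne_top {B : Set G} (h : SC μ B) : μ B ≠ ∞ := h.cpt.measure_lt_top.ne

lemma SC.intOn {B : Set G} (h : SC μ B) {u : G → ℂ} (hu : Continuous u) (g : G) :
    IntegrableOn (fun h => u (g * h)) B μ :=
  (Continuous.continuousOn (by fun_prop)).integrableOn_compact h.cpt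

/-- relation of the eigenvalues -/
lemma inner_rel [μ.IsMulRightInvariant] {B : Set G} (hB : SC μ B) {u v : LE μ Γ 𝓕} {a b : ℂ}
    (hu : ∀ g, Av μ B (u : G → ℂ) g = a * (u : G → ℂ) g)
    (hv : ∀ g, Av μ B (v : G → ℂ) g = b * (v : G → ℂ) g) :
    conj a * inner ℂ u v = b * inner ℂ u v := by
  have h := symm hF.out hB.ms hB.ne_top hB.symm (LE.li u) (LE.li v)
  simp only [hu, hv] at h
  rw [LE.inner_def, ← integral_const_mul, ← integral_const_mul]
  have e1 : ∀ z, conj a * (conj ((u : G → ℂ) z) * (v : G → ℂ) z) =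
      conj (a * (u : G → ℂ) z) * (v : G → ℂ) z := fun z => by rw [map_mul, mul_assoc]
  have e2 : ∀ z, b * (conj ((u : G → ℂ) z) * (v : G → ℂ) z) =
      conj ((u : G → ℂ) z) * (b * (v : G → ℂ) z) := fun z => by ring
  simp only [e1, e2]
  exact h

/-- eigenvalues are real -/
lemma eig_real [μ.IsMulRightInvariant] {B : Set G} (hB : SC μ B) {u : LE μ Γ 𝓕} {a : ℂ}
    (hu : ∀ g, Av μ B (u : G → ℂ) g = a * (u : G → ℂ) g) (h0 : u ≠ 0) : conj a = a := by
  have h := inner_rel hB hu hu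
  have h1 : inner ℂ u u ≠ 0 := inner_self_ne_zero.2 h0
  exact mul_right_cancel₀ h1 h

open InnerProductSpace in
/-- Gram-Schmidt inside the eigenspaces -/
lemma gs_mem [μ.IsMulRightInvariant] {B B' : Set G} (hB : SC μ B) (hB' : SC μ B') {k : ℕ}
    (a a' : Fin k → ℂ) (ha : ∀ i, conj (a i) = a i) (ha' : ∀ i, conj (a' i) = a' i)
    (φ : Fin k → LE μ Γ 𝓕) (hφ : ∀ i, φ i ∈ ES B B' (a i) (a' i)) (i : Fin k) :
    gramSchmidt ℂ φ i ∈ ES B B' (a i) (a' i) := by
  induction i using WellFoundedLT.induction with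
  | ind i ih =>
    rw [gramSchmidt_def]
    refine Submodule.sub_mem _ (hφ i) (Submodule.sum_mem _ fun j hj => ?_)
    have hj' : j < i := Finset.mem_Iio.1 hj
    have hjm := ih j hj'
    by_cases h : a j = a i ∧ a' j = a' i
    · rw [← h.1, ← h.2]
      have : ((ℂ ∙ gramSchmidt ℂ φ j).starProjection (φ i)) ∈ (ℂ ∙ gramSchmidt ℂ φ j) :=
        Submodule.starProjection_apply_mem _ _
      obtain ⟨c, hc⟩ := Submodule.mem_span_singleton.1 this
      rw [← hc]
      exact Submodule.smul_mem _ _ hjm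
    · have h3 : inner ℂ (gramSchmidt ℂ φ j) (φ i) = 0 := by
        by_contra h0
        apply h
        constructor
        · have h1 := inner_rel hB (fun g => (hjm.1 g).1) (fun g => ((hφ i).1 g).1)
          rw [ha j] at h1
          exact mul_right_cancel₀ h0 h1
        · have h1 := inner_rel hB' (fun g => (hjm.2 g).1) (fun g => ((hφ i).2 g).1)
          rw [ha' j] at h1
          exact mul_right_cancel₀ h0 h1
      rw [Submodule.starProjection_singleton, h3]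
      simp

open InnerProductSpace in
/-- an orthonormal family of eigenvectors with the same eigenvalues -/
lemma exists_orthonormal [μ.IsMulRightInvariant] {B B' : Set G} (hB : SC μ B) (hB' : SC μ B') {k : ℕ}
    (a a' : Fin k → ℂ) (φ : Fin k → LE μ Γ 𝓕) (hφ : ∀ i, φ i ∈ ES B B' (a i) (a' i))
    (hli : LinearIndependent ℂ φ) :
    (∀ i, conj (a i) = a i) ∧ (∀ i, conj (a' i) = a' i) ∧
    ∃ e : Fin k → LE μ Γ 𝓕, Orthonormal ℂ e ∧ ∀ i, e i ∈ ES B B' (a i) (a' i) := by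
  have ha : ∀ i, conj (a i) = a i := fun i =>
    eig_real hB (fun g => ((hφ i).1 g).1) (hli.ne_zero i)
  have ha' : ∀ i, conj (a' i) = a' i := fun i =>
    eig_real hB' (fun g => ((hφ i).2 g).1) (hli.ne_zero i)
  refine ⟨ha, ha', gramSchmidtNormed ℂ φ, gramSchmidtNormed_orthonormal hli, fun i => ?_⟩
  unfold gramSchmidtNormed
  exact Submodule.smul_mem _ _ (gs_mem hB hB' a a' ha ha' φ hφ i)

end Pool.Agent.T2h77.An
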