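import Pool.Agent.T2h77.Anal3

/-!
# The trace inequality on `Γ \ G`
-/

set_option autoImplicit false
set_option linter.unusedSectionVars false

open MeasureTheory Measure
open scoped ENNReal NNReal Pointwise ComplexConjugate

noncomputable section

namespace Pool.Agent.T2h77.An

variable {G : Type} [Group G] [TopologicalSpace G] [IsTopologicalGroup G] [LocallyCompactSpace G]
  [SecondCountableTopology G] [T2Space G] [MeasurableSpace G] [BorelSpace G]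

variable {μ : Measure G} {Γ : Subgroup G} {𝓕 : Set G}

variable [μ.IsHaarMeasure] [Countable Γ] [hF : Fact (IsFundamentalDomain Γ 𝓕 μ)]

lemma enorm_Av_le (B : Set G) (u : G → ℂ) (g : G) :
    ‖Av μ B u g‖ₑ ≤ Ap μ B (fun x => ‖u x‖ₑ) g :=
  enorm_integral_le_lintegral_enorm _

lemma ES_sum {B B' : Set G} {k : ℕ} (a a' : Fin k → ℂ) (e : Fin k → LE μ Γ 𝓕)
    (hm : ∀ i, e i ∈ ES B B' (a i) (a' i)) (hB : SC μ B) (c : Fin k → ℂ) (s : Finset (Fin k)) (g : G) :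
    Av μ B ((∑ i ∈ s, c i • e i : LE μ Γ 𝓕) : G → ℂ) g = ∑ i ∈ s, c i * (a i * (e i : G → ℂ) g) := by
  classical
  induction s using Finset.induction_on with
  | empty => simp [Av]
  | insert i s hi ih =>
    rw [Finset.sum_insert hi, Finset.sum_insert hi, Submodule.coe_add]
    have e1 : Av μ B (((c i • e i : LE μ Γ 𝓕) : G → ℂ) +
        ((∑ i ∈ s, c i • e i : LE μ Γ 𝓕) : G → ℂ)) g =
        Av μ B ((c i • e i : LE μ Γ 𝓕) : G → ℂ) g +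
          Av μ B ((∑ i ∈ s, c i • e i : LE μ Γ 𝓕) : G → ℂ) g :=
      integral_add (hB.intOn (LE.li _).cont g) (hB.intOn (LE.li _).cont g)
    rw [e1, ih]
    congr 1
    have e2 : Av μ B ((c i • e i : LE μ Γ 𝓕) : G → ℂ) g = c i * Av μ B (e i : G → ℂ) g :=
      integral_const_mul _ _
    rw [e2, ((hm i).1 g).1]

/-- pointwise bound for orthonormal families of eigenvectors -/
theorem bessel_fam {B B' : Set G} (hB : SC μ B) {k : ℕ} (a a' : Fin k → ℂ)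
    (e : Fin k → LE μ Γ 𝓕) (he : Orthonormal ℂ e) (hm : ∀ i, e i ∈ ES B B' (a i) (a' i)) (g : G) :
    ∑ i, ‖a i‖ₑ ^ 2 * ‖(e i : G → ℂ) g‖ₑ ^ 2 ≤ ∑' γ : Γ, kk μ B (g⁻¹ * γ * g) := by
  set c : Fin k → ℂ := fun i => a i * (e i : G → ℂ) g with hc
  set u : LE μ Γ 𝓕 := ∑ i, conj (c i) • e i with hu
  set S : ℝ := ∑ i, ‖c i‖ ^ 2 with hSdef
  have hS0 : 0 ≤ S := Finset.sum_nonneg fun i _ => by positivity
  have hS : ∑ i, ‖a i‖ₑ ^ 2 * ‖(e i : G → ℂ) g‖ₑ ^ 2 = ENNReal.ofReal S := by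
    rw [hSdef, ENNReal.ofReal_sum_of_nonneg fun i _ => by positivity]
    refine Finset.sum_congr rfl fun i _ => ?_
    rw [← mul_pow, ← enorm_mul, enorm_sq_eq]
  have hnorm : ‖u‖ ^ 2 = S := by
    have h1 : ((‖u‖ ^ 2 : ℝ) : ℂ) = inner ℂ u u := by
      rw [inner_self_eq_norm_sq_to_K]; push_cast; rfl
    rw [hu, he.inner_sum] at h1
    have h2 : ∀ i, conj (conj (c i)) * conj (c i) = ((‖c i‖ ^ 2 : ℝ) : ℂ) := by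
      intro i
      rw [Complex.conj_conj, Complex.mul_conj, Complex.normSq_eq_norm_sq]
    rw [Finset.sum_congr rfl fun i _ => h2 i, ← Complex.ofReal_sum] at h1
    exact_mod_cast h1
  have hval : Av μ B (u : G → ℂ) g = (S : ℂ) := by
    rw [hu, ES_sum a a' e hm hB, hSdef, Complex.ofReal_sum]
    refine Finset.sum_congr rfl fun i _ => ?_
    change conj (c i) * c i = _
    rw [mul_comm, Complex.mul_conj, Complex.normSq_eq_norm_sq]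
  have hkey := bessel hF.out hB.ms (F := fun w => ‖(u : G → ℂ) w‖ₑ)
    (LE.li u).cont.measurable.enorm (fun γ hγ g => by simp only [(LE.li u).inv γ hγ g]) g
  rw [LE.lint_sq, hnorm] at hkey
  have hle : ENNReal.ofReal S ≤ Ap μ B (fun w => ‖(u : G → ℂ) w‖ₑ) g := by
    have h1 := enorm_Av_le (μ := μ) B (u : G → ℂ) g
    rw [hval] at h1
    have h2 : ‖(S : ℂ)‖ₑ = ENNReal.ofReal S := by
      rw [← ofReal_norm, Complex.norm_real, Real.norm_of_nonneg hS0]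
    rwa [h2] at h1
  rw [hS]
  by_cases h0 : ENNReal.ofReal S = 0
  · rw [h0]; exact bot_le
  · have h3 : ENNReal.ofReal S * ENNReal.ofReal S ≤
        (∑' γ : Γ, kk μ B (g⁻¹ * γ * g)) * ENNReal.ofReal S := by
      refine le_trans ?_ hkey
      rw [sq]
      gcongr
    exact (ENNReal.mul_le_mul_iff_left h0 ENNReal.ofReal_ne_top).mp h3

lemma half_aux {a b : ℝ≥0∞} (h4 : a + b = 1) (h5 : 2 * a ≤ 1) : 2⁻¹ ≤ b := by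
  have ha1 : a ≤ 1 := h4 ▸ le_self_add
  have hb1 : b ≤ 1 := h4 ▸ le_add_self
  have hat : a ≠ ∞ := ne_top_of_le_ne_top ENNReal.one_ne_top ha1
  have hbt : b ≠ ∞ := ne_top_of_le_ne_top ENNReal.one_ne_top hb1
  lift a to ℝ≥0 using hat
  lift b to ℝ≥0 using hbt
  have h4' : (a : ℝ) + b = 1 := by exact_mod_cast h4
  have h5' : 2 * (a : ℝ) ≤ 1 := by exact_mod_cast h5
  have h7 : (2⁻¹ : ℝ) ≤ b := by linarith
  have : (2⁻¹ : ℝ≥0) ≤ b := by exact_mod_cast h7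
  calc (2 : ℝ≥0∞)⁻¹ = ((2⁻¹ : ℝ≥0) : ℝ≥0∞) := by
        rw [ENNReal.coe_inv (by norm_num)]; norm_num
    _ ≤ b := by exact_mod_cast this

/-- the mass of an eigenvector outside `W` -/
theorem cusp_mass {B B' : Set G} {a a' : ℂ} {e : LE μ Γ 𝓕} (hm : e ∈ ES B B' a a') (he : ‖e‖ = 1)
    {W : Set G} (hW : MeasurableSet W) {Λ : ℝ≥0∞}
    (hΛ : ∀ F : G → ℝ≥0∞, Measurable F → (∀ γ ∈ Γ, ∀ g, F (γ * g) = F g) →
      ∫⁻ g in 𝓕 ∩ W, Ap μ B' F g ^ 2 ∂μ ≤ Λ * ∫⁻ g in 𝓕, F g ^ 2 ∂μ)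
    (hl : 2 * Λ ≤ ‖a'‖ₑ ^ 2) (h0 : a' ≠ 0) :
    2⁻¹ ≤ ∫⁻ g in 𝓕 ∩ Wᶜ, ‖(e : G → ℂ) g‖ₑ ^ 2 ∂μ := by
  set f : G → ℝ≥0∞ := fun z => ‖(e : G → ℂ) z‖ₑ with hf
  have hfm : Measurable f := (LE.li e).cont.measurable.enorm
  have htot : ∫⁻ z in 𝓕, f z ^ 2 ∂μ = 1 := by
    rw [LE.lint_sq, he]; simp
  have hcl := hΛ f hfm (fun γ hγ z => by simp only [hf]; rw [(LE.li e).inv γ hγ z])
  have hAp : ∀ z, ‖a'‖ₑ ^ 2 * f z ^ 2 ≤ Ap μ B' f z ^ 2 := by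
    intro z
    have h1 := enorm_Av_le (μ := μ) B' (e : G → ℂ) z
    rw [(hm.2 z).1, enorm_mul] at h1
    rw [← mul_pow]
    gcongr
  have h3 : ‖a'‖ₑ ^ 2 * ∫⁻ z in 𝓕 ∩ W, f z ^ 2 ∂μ ≤ Λ := by
    rw [← lintegral_const_mul _ (hfm.pow_const 2)]
    calc ∫⁻ z in 𝓕 ∩ W, ‖a'‖ₑ ^ 2 * f z ^ 2 ∂μ
        ≤ ∫⁻ z in 𝓕 ∩ W, Ap μ B' f z ^ 2 ∂μ := lintegral_mono hAp
      _ ≤ Λ * ∫⁻ z in 𝓕, f z ^ 2 ∂μ := hcl
      _ = Λ := by rw [htot, mul_one]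
  have h4 : (∫⁻ z in 𝓕 ∩ W, f z ^ 2 ∂μ) + ∫⁻ z in 𝓕 ∩ Wᶜ, f z ^ 2 ∂μ = 1 := by
    have h := lintegral_add_compl (μ := μ.restrict 𝓕) (fun z => f z ^ 2) hW
    rw [Measure.restrict_restrict hW, Measure.restrict_restrict hW.compl, Set.inter_comm W,
      Set.inter_comm Wᶜ, htot] at h
    exact h
  set x := ∫⁻ z in 𝓕 ∩ W, f z ^ 2 ∂μ with hx
  set y := ∫⁻ z in 𝓕 ∩ Wᶜ, f z ^ 2 ∂μ with hy
  have hl0 : ‖a'‖ₑ ^ 2 ≠ 0 := by simpa using h0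
  have hlt : ‖a'‖ₑ ^ 2 ≠ ∞ := by simp
  have h5 : 2 * x ≤ 1 := by
    have h6 : ‖a'‖ₑ ^ 2 * (2 * x) ≤ ‖a'‖ₑ ^ 2 * 1 := by
      calc ‖a'‖ₑ ^ 2 * (2 * x) = 2 * (‖a'‖ₑ ^ 2 * x) := by ring
        _ ≤ 2 * Λ := by gcongr
        _ ≤ ‖a'‖ₑ ^ 2 * 1 := by rw [mul_one]; exact hl
    exact (ENNReal.mul_le_mul_iff_right hl0 hlt).mp h6
  exact half_aux h4 h5

/-- the trace inequality -/
theorem trace_bound [μ.IsMulRightInvariant] {B B' : Set G} (hB : SC μ B) (hB' : SC μ B') {k : ℕ}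
    (a a' : Fin k → ℂ) (φ : Fin k → LE μ Γ 𝓕) (hφ : ∀ i, φ i ∈ ES B B' (a i) (a' i))
    (hli : LinearIndependent ℂ φ) {W : Set G} (hW : MeasurableSet W) {Λ : ℝ≥0∞}
    (hΛ : ∀ F : G → ℝ≥0∞, Measurable F → (∀ γ ∈ Γ, ∀ g, F (γ * g) = F g) →
      ∫⁻ g in 𝓕 ∩ W, Ap μ B' F g ^ 2 ∂μ ≤ Λ * ∫⁻ g in 𝓕, F g ^ 2 ∂μ)
    (hl : ∀ i, 2 * Λ ≤ ‖a' i‖ₑ ^ 2) (h0 : ∀ i, a' i ≠ 0) :
    ∑ i, ‖a i‖ₑ ^ 2 ≤ 2 * ∫⁻ g in 𝓕 ∩ Wᶜ, ∑' γ : Γ, kk μ B (g⁻¹ * γ * g) ∂μ := by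
  obtain ⟨-, -, e, he, hm⟩ := exists_orthonormal hB hB' a a' φ hφ hli
  have hmeas : ∀ i, Measurable fun z => ‖(e i : G → ℂ) z‖ₑ ^ 2 :=
    fun i => (LE.li (e i)).cont.measurable.enorm.pow_const 2
  have h1 : ∑ i, ‖a i‖ₑ ^ 2 * ∫⁻ z in 𝓕 ∩ Wᶜ, ‖(e i : G → ℂ) z‖ₑ ^ 2 ∂μ ≤
      ∫⁻ g in 𝓕 ∩ Wᶜ, ∑' γ : Γ, kk μ B (g⁻¹ * γ * g) ∂μ := by
    calc _ = ∫⁻ z in 𝓕 ∩ Wᶜ, ∑ i, ‖a i‖ₑ ^ 2 * ‖(e i : G → ℂ) z‖ₑ ^ 2 ∂μ := by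
          rw [lintegral_finsetSum _ fun i _ => (hmeas i).const_mul _]
          exact Finset.sum_congr rfl fun i _ => (lintegral_const_mul _ (hmeas i)).symm
      _ ≤ _ := lintegral_mono fun z => bessel_fam hB a a' e he hm z
  have h2 : ∀ i, (2 : ℝ≥0∞)⁻¹ ≤ ∫⁻ z in 𝓕 ∩ Wᶜ, ‖(e i : G → ℂ) z‖ₑ ^ 2 ∂μ :=
    fun i => cusp_mass (hm i) (he.1 i) hW hΛ (hl i) (h0 i)
  calc ∑ i, ‖a i‖ₑ ^ 2 = 2 * ∑ i, ‖a i‖ₑ ^ 2 * 2⁻¹ := by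
        rw [← Finset.sum_mul, mul_comm 2, mul_assoc, ENNReal.inv_mul_cancel (by norm_num)
          (by norm_num), mul_one]
    _ ≤ 2 * ∑ i, ‖a i‖ₑ ^ 2 * ∫⁻ z in 𝓕 ∩ Wᶜ, ‖(e i : G → ℂ) z‖ₑ ^ 2 ∂μ := by
        gcongr with i _
        exact h2 i
    _ ≤ _ := by gcongr

end Pool.Agent.T2h77.An
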