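import Pool.Agent.T2h77.Anal4

/-!
# The trace over a subgroup of finite index
-/

set_option autoImplicit false
set_option linter.unusedSectionVars false

open MeasureTheory Measure
open scoped ENNReal NNReal Pointwise ComplexConjugate

noncomputable section

namespace Pool.Agent.T2h77.An

variable {G : Type} [Group G] [TopologicalSpace G] [IsTopologicalGroup G] [LocallyCompactSpace G]
  [SecondCountableTopology G] [T2Space G] [MeasurableSpace G] [BorelSpace G]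

variable {μ : Measure G} {𝓕 : Set G}

theorem measurable_kk [SFinite μ] {B : Set G} (hB : MeasurableSet B) : Measurable (kk μ B) := by
  have h1 : ∀ h : G, kk μ B h = ∫⁻ x, (B.indicator 1 x : ℝ≥0∞) * B.indicator 1 (h⁻¹ * x) ∂μ := by
    intro h
    have hmeas : MeasurableSet (B ∩ (fun x => h * x) '' B) :=
      hB.inter ((Homeomorph.mulLeft h).measurableEmbedding.measurableSet_image.2 hB)
    unfold kk
    rw [← lintegral_indicator_one hmeas]
    refine lintegral_congr fun x => ?_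
    have e4 : x ∈ (fun x => h * x) '' B ↔ h⁻¹ * x ∈ B := by
      constructor
      · rintro ⟨y, hy, rfl⟩
        simpa using hy
      · intro hy
        exact ⟨_, hy, by simp⟩
    by_cases h1 : x ∈ B
    · by_cases h2 : h⁻¹ * x ∈ B
      · have h12 : x ∈ B ∩ (fun x => h * x) '' B := ⟨h1, e4.2 h2⟩
        rw [Set.indicator_of_mem h12, Set.indicator_of_mem h1, Set.indicator_of_mem h2]
        simp
      · rw [Set.indicator_of_notMem (fun h => h2 (e4.1 h.2)), Set.indicator_of_notMem h2,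
          mul_zero]
    · rw [Set.indicator_of_notMem (fun h => h1 h.1), Set.indicator_of_notMem h1, zero_mul]
  have h2 : kk μ B = fun h => ∫⁻ x, (B.indicator 1 x : ℝ≥0∞) * B.indicator 1 (h⁻¹ * x) ∂μ :=
    funext h1
  rw [h2]
  have hbm : Measurable (B.indicator 1 : G → ℝ≥0∞) := measurable_one.indicator hB
  have h3 : Measurable fun p : G × G => (B.indicator 1 p.2 : ℝ≥0∞) * B.indicator 1 (p.1⁻¹ * p.2) :=
    (hbm.comp measurable_snd).mul (hbm.comp (by fun_prop))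
  exact h3.lintegral_prod_right'

/-- unfolding of the trace -/
theorem unfold_trace [μ.IsHaarMeasure] {Λ : Type} [Group Λ] [Countable Λ] (j : Λ →* G)
    (hj : Function.Injective j) (Γ : Subgroup Λ) [Γ.FiniteIndex]
    (h𝓕 : IsFundamentalDomain (Γ.map j) 𝓕 μ) {D Ω : Set G}
    (hD : ∀ g ∈ D, ∃ δ : Λ, j δ * g ∈ Ω) {κ : G → ℝ≥0∞} (hκ : Measurable κ) :
    ∫⁻ g in 𝓕 ∩ D, ∑' γ : Γ.map j, κ (g⁻¹ * γ * g) ∂μ ≤
      ∫⁻ g in Ω, ∑' δ : Λ, (Nat.card {x : Λ ⧸ Γ // δ • x = x} : ℝ≥0∞) * κ (g⁻¹ * j δ * g) ∂μ := by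
  classical
  have hcount : Countable (Γ.map j) := by
    have : Function.Surjective (fun γ : Γ => (⟨j γ, Subgroup.mem_map_of_mem j γ.2⟩ : Γ.map j)) := by
      rintro ⟨_, γ, hγ, rfl⟩
      exact ⟨⟨γ, hγ⟩, rfl⟩
    exact this.countable
  have hfin : Finite (Λ ⧸ Γ) := inferInstance
  have := Fintype.ofFinite (Λ ⧸ Γ)
  set Φ : G → ℝ≥0∞ := fun g => ∑' γ : Γ.map j, κ (g⁻¹ * γ * g) with hΦ
  have hconj : ∀ γ : G, Measurable fun g : G => κ (g⁻¹ * γ * g) := fun γ => hκ.comp (by fun_prop)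
  have hΦm : Measurable Φ := Measurable.tsum fun γ => hconj γ
  have hΦinv : ∀ (γ : Γ.map j) (g : G), Φ (γ • g) = Φ g := by
    intro γ g
    rw [hΦ]
    simp only
    rw [← (MulAut.conj γ).toEquiv.tsum_eq (fun δ : Γ.map j => κ ((γ • g)⁻¹ * δ * (γ • g)))]
    refine tsum_congr fun δ => ?_
    congr 1
    simp only [MulEquiv.toEquiv_eq_coe, MulEquiv.coe_toEquiv, MulAut.conj_apply, Subgroup.coe_mul,
      Subgroup.coe_inv, Subgroup.smul_def, smul_eq_mul, mul_inv_rev]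
    group
  -- the covering
  have hcov : 𝓕 ∩ D ⊆ ⋃ y : Λ ⧸ Γ, ⋃ γ : Γ.map j, (γ • ((fun g => j (y.out)⁻¹ * g) '' Ω)) ∩ 𝓕 := by
    rintro g ⟨hg1, hg2⟩
    obtain ⟨δ, hδ⟩ := hD g hg2
    set y : Λ ⧸ Γ := (δ : Λ ⧸ Γ) with hy
    have h1 : y.out⁻¹ * δ ∈ Γ := by
      rw [← QuotientGroup.eq, QuotientGroup.out_eq']
    rw [Set.mem_iUnion]
    refine ⟨y, ?_⟩
    rw [Set.mem_iUnion]
    refine ⟨⟨j (y.out⁻¹ * δ)⁻¹, Subgroup.mem_map_of_mem j (Γ.inv_mem h1)⟩, ?_, hg1⟩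
    refine ⟨j (y.out)⁻¹ * (j δ * g), ⟨_, hδ, rfl⟩, ?_⟩
    simp only [Subgroup.smul_def, smul_eq_mul, map_inv, map_mul, mul_inv_rev, inv_inv]
    group
  -- the integral over the pieces
  have hpiece : ∀ y : Λ ⧸ Γ, ∑' γ : Γ.map j,
      ∫⁻ g in (γ • ((fun g => j (y.out)⁻¹ * g) '' Ω)) ∩ 𝓕, Φ g ∂μ = ∫⁻ g in Ω, Φ (j (y.out)⁻¹ * g) ∂μ := by
    intro y
    have h1 := h𝓕.setLIntegral_eq_tsum' Φ ((fun g => j (y.out)⁻¹ * g) '' Ω)
    simp only [hΦinv] at h1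
    rw [← h1]
    exact ((measurePreserving_mul_left μ (j (y.out)⁻¹)).setLIntegral_comp_emb
      (Homeomorph.mulLeft (j (y.out)⁻¹)).measurableEmbedding Φ Ω).symm
  -- the sum over the cosets
  have hsum : ∀ g : G, ∑ y : Λ ⧸ Γ, Φ (j (y.out)⁻¹ * g) =
      ∑' δ : Λ, (Nat.card {x : Λ ⧸ Γ // δ • x = x} : ℝ≥0∞) * κ (g⁻¹ * j δ * g) := by
    intro g
    have h1 : ∀ y : Λ ⧸ Γ, Φ (j (y.out)⁻¹ * g) =
        ∑' δ : Λ, (if δ • y = y then κ (g⁻¹ * j δ * g) else 0) := by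
      intro y
      rw [hΦ]
      simp only
      -- sum over `Γ`
      have e1 : ∑' γ : Γ.map j, κ ((j (y.out)⁻¹ * g)⁻¹ * γ * (j (y.out)⁻¹ * g)) =
          ∑' γ : Γ, κ ((j (y.out)⁻¹ * g)⁻¹ * j γ * (j (y.out)⁻¹ * g)) := by
        exact ((Γ.equivMapOfInjective j hj).toEquiv.tsum_eq
          (fun γ : Γ.map j => κ ((j (y.out)⁻¹ * g)⁻¹ * γ * (j (y.out)⁻¹ * g)))).symm
      rw [e1]
      have e2 : ∀ γ : Γ, κ ((j (y.out)⁻¹ * g)⁻¹ * j γ * (j (y.out)⁻¹ * g)) =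
          κ (g⁻¹ * j (y.out * γ * y.out⁻¹) * g) := by
        intro γ
        congr 1
        simp only [map_mul, map_inv, mul_inv_rev, inv_inv]
        group
      simp only [e2]
      have e3 : ∀ δ : Λ, δ • y = y ↔ y.out⁻¹ * δ * y.out ∈ Γ := by
        intro δ
        have h2 : δ • y = ((δ * y.out : Λ) : Λ ⧸ Γ) := by
          conv_lhs => rw [← QuotientGroup.out_eq' y]
          rfl
        rw [h2]
        conv_lhs => rhs; rw [← QuotientGroup.out_eq' y]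
        rw [eq_comm, QuotientGroup.eq, ← mul_assoc]
      -- the injection `Γ → Λ`
      have hinj : Function.Injective fun γ : Γ => y.out * (γ : Λ) * y.out⁻¹ := by
        intro a b hab
        simpa using hab
      rw [← hinj.tsum_eq (f := fun δ : Λ => (if δ • y = y then κ (g⁻¹ * j δ * g) else 0))]
      · refine tsum_congr fun γ => ?_
        rw [if_pos]
        rw [e3]
        have : y.out⁻¹ * (y.out * (γ : Λ) * y.out⁻¹) * y.out = γ := by group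
        rw [this]
        exact γ.2
      · intro δ hδ
        rw [Function.mem_support] at hδ
        have h3 : δ • y = y := by
          by_contra hcon
          rw [if_neg hcon] at hδ
          exact hδ rfl
        refine ⟨⟨_, (e3 δ).1 h3⟩, ?_⟩
        simp only
        group
    simp only [h1]
    have e5 : ∑ y : Λ ⧸ Γ, ∑' δ : Λ, (if δ • y = y then κ (g⁻¹ * j δ * g) else 0) =
        ∑' y : Λ ⧸ Γ, ∑' δ : Λ, (if δ • y = y then κ (g⁻¹ * j δ * g) else 0) :=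
      (tsum_fintype _).symm
    rw [e5, ENNReal.tsum_comm]
    refine tsum_congr fun δ => ?_
    rw [tsum_fintype, ← Finset.sum_filter, Finset.sum_const, nsmul_eq_mul]
    congr 2
    rw [Nat.card_eq_fintype_card, Fintype.card_subtype]
  calc ∫⁻ g in 𝓕 ∩ D, Φ g ∂μ
      ≤ ∫⁻ g in ⋃ y : Λ ⧸ Γ, ⋃ γ : Γ.map j, (γ • ((fun g => j (y.out)⁻¹ * g) '' Ω)) ∩ 𝓕, Φ g ∂μ :=
        lintegral_mono_set hcov
    _ ≤ ∑' y : Λ ⧸ Γ, ∫⁻ g in ⋃ γ : Γ.map j, (γ • ((fun g => j (y.out)⁻¹ * g) '' Ω)) ∩ 𝓕, Φ g ∂μ :=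
        lintegral_iUnion_le _ _
    _ ≤ ∑' y : Λ ⧸ Γ, ∑' γ : Γ.map j,
          ∫⁻ g in (γ • ((fun g => j (y.out)⁻¹ * g) '' Ω)) ∩ 𝓕, Φ g ∂μ :=
        ENNReal.tsum_le_tsum fun y => lintegral_iUnion_le _ _
    _ = ∑ y : Λ ⧸ Γ, ∫⁻ g in Ω, Φ (j (y.out)⁻¹ * g) ∂μ := by
        rw [tsum_fintype]
        exact Finset.sum_congr rfl fun y _ => hpiece y
    _ = ∫⁻ g in Ω, ∑ y : Λ ⧸ Γ, Φ (j (y.out)⁻¹ * g) ∂μ := by
        exact (lintegral_finsetSum (μ := μ.restrict Ω) Finset.univ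
          (f := fun (y : Λ ⧸ Γ) (g : G) => Φ (j (y.out)⁻¹ * g))
          fun y _ => hΦm.comp (measurable_const_mul (j (y.out)⁻¹))).symm
    _ = _ := by simp only [hsum]

end Pool.Agent.T2h77.An
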