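import Pool.Agent.T2h77.Anal5

/-!
# The Schur test in the cusps
-/

set_option autoImplicit false
set_option linter.unusedSectionVars false

open MeasureTheory Measure
open scoped ENNReal NNReal Pointwise ComplexConjugate

noncomputable section

namespace Pool.Agent.T2h77.An

variable {G : Type} [Group G] [TopologicalSpace G] [IsTopologicalGroup G] [LocallyCompactSpace G]
  [SecondCountableTopology G] [T2Space G] [MeasurableSpace G] [BorelSpace G]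

variable {μ : Measure G} {Γ : Subgroup G} {𝓕 : Set G}

/-- weighted Cauchy-Schwarz -/
theorem cs_weight {X : Type} [MeasurableSpace X] {ν : Measure X} {f w : X → ℝ≥0∞} (hf : Measurable f)
    (hw : Measurable w) {B : Set X} (hB : MeasurableSet B) (h : ∀ x ∈ B, w x ≠ 0 ∧ w x ≠ ∞) :
    (∫⁻ x in B, f x ∂ν) ^ 2 ≤ (∫⁻ x in B, w x ∂ν) * ∫⁻ x in B, f x ^ 2 * (w x)⁻¹ ∂ν := by
  have h3 := ENNReal.lintegral_mul_le_Lp_mul_Lq (ν.restrict B) (Real.HolderConjugate.two_two)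
    (f := fun x => (w x) ^ (1 / 2 : ℝ)) (g := fun x => f x * ((w x)⁻¹) ^ (1 / 2 : ℝ))
    (hw.pow_const _).aemeasurable (hf.mul (hw.inv.pow_const _)).aemeasurable
  have e1 : ∫⁻ x in B, f x ∂ν =
      ∫⁻ x in B, ((fun x => (w x) ^ (1 / 2 : ℝ)) * fun x => f x * ((w x)⁻¹) ^ (1 / 2 : ℝ)) x ∂ν := by
    refine setLIntegral_congr_fun hB fun x hx => ?_
    obtain ⟨h1, h2⟩ := h x hx
    simp only [Pi.mul_apply]
    have : (w x) ^ (1 / 2 : ℝ) * (f x * ((w x)⁻¹) ^ (1 / 2 : ℝ)) =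
        f x * ((w x) * (w x)⁻¹) ^ (1 / 2 : ℝ) := by
      rw [ENNReal.mul_rpow_of_nonneg _ _ (by norm_num)]; ring
    rw [this, ENNReal.mul_inv_cancel h1 h2, ENNReal.one_rpow, mul_one]
  rw [← e1] at h3
  have e2 : ∀ x, ((w x) ^ (1 / 2 : ℝ)) ^ (2 : ℝ) = w x := fun x => by
    rw [← ENNReal.rpow_mul]; norm_num
  have e3 : ∀ x, (f x * ((w x)⁻¹) ^ (1 / 2 : ℝ)) ^ (2 : ℝ) = f x ^ 2 * (w x)⁻¹ := fun x => by
    rw [ENNReal.mul_rpow_of_nonneg _ _ (by norm_num), ← ENNReal.rpow_mul]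
    norm_num
  simp only [e2, e3] at h3
  calc (∫⁻ x in B, f x ∂ν) ^ 2
      ≤ ((∫⁻ x in B, w x ∂ν) ^ (1 / 2 : ℝ) *
          (∫⁻ x in B, f x ^ 2 * (w x)⁻¹ ∂ν) ^ (1 / 2 : ℝ)) ^ 2 := by gcongr
    _ = _ := by
        rw [mul_pow, ← ENNReal.rpow_natCast, ← ENNReal.rpow_natCast, ← ENNReal.rpow_mul,
          ← ENNReal.rpow_mul]
        norm_num

theorem schur [μ.IsHaarMeasure] [μ.IsMulRightInvariant] [Countable Γ]
    (h𝓕 : IsFundamentalDomain Γ 𝓕 μ) {B : Set G} (hB : MeasurableSet B)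
    (hBi : ∀ h, h⁻¹ ∈ B ↔ h ∈ B) {W : G → ℝ≥0∞} (hW : Measurable W)
    (hWi : ∀ γ ∈ Γ, ∀ g, W (γ * g) = W g) {D : Set G} (hD : MeasurableSet D)
    (hDi : ∀ γ ∈ Γ, ∀ g, γ * g ∈ D ↔ g ∈ D) {Λ : ℝ≥0∞}
    (h1 : ∀ g ∈ D, ∀ h ∈ B, W (g * h) ≠ 0 ∧ W (g * h) ≠ ∞)
    (h2 : ∀ g ∈ D, ∫⁻ h in B, W (g * h) ∂μ ≤ Λ * W g)
    (h3 : ∀ g, ∫⁻ h in B, D.indicator W (g * h) ∂μ ≤ Λ * W g)
    (F : G → ℝ≥0∞) (hFm : Measurable F) (hF : ∀ γ ∈ Γ, ∀ g, F (γ * g) = F g) :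
    ∫⁻ g in 𝓕 ∩ D, Ap μ B F g ^ 2 ∂μ ≤ Λ ^ 2 * ∫⁻ g in 𝓕, F g ^ 2 ∂μ := by
  have hii : μ.IsInvInvariant := invInvariant μ
  have hDW : Measurable (D.indicator W) := hW.indicator hD
  -- the pointwise bound
  have hpt : ∀ g ∈ D, Ap μ B F g ^ 2 ≤
      Λ * (D.indicator W g * ∫⁻ h in B, F (g * h) ^ 2 * (W (g * h))⁻¹ ∂μ) := by
    intro g hg
    have hm1 : Measurable fun h : G => F (g * h) := hFm.comp (measurable_const_mul _)
    have hm2 : Measurable fun h : G => W (g * h) := hW.comp (measurable_const_mul _)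
    refine (cs_weight hm1 hm2 hB (h1 g hg)).trans ?_
    rw [Set.indicator_of_mem hg, ← mul_assoc]
    gcongr
    exact h2 g hg
  have hR : ∫⁻ g in 𝓕 ∩ D, Ap μ B F g ^ 2 ∂μ ≤
      Λ * ∫⁻ g in 𝓕, (D.indicator W g * ∫⁻ h in B, F (g * h) ^ 2 * (W (g * h))⁻¹ ∂μ) ∂μ := by
    have hmI : Measurable fun g : G => ∫⁻ h in B, F (g * h) ^ 2 * (W (g * h))⁻¹ ∂μ :=
      Measurable.lintegral_prod_right'
        (f := fun p : G × G => F (p.1 * p.2) ^ 2 * (W (p.1 * p.2))⁻¹) (by fun_prop)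
    have hc := lintegral_const_mul (μ := μ.restrict 𝓕) Λ
      (f := fun g => D.indicator W g * ∫⁻ h in B, F (g * h) ^ 2 * (W (g * h))⁻¹ ∂μ) (hDW.mul hmI)
    rw [← hc]
    calc ∫⁻ g in 𝓕 ∩ D, Ap μ B F g ^ 2 ∂μ
        = ∫⁻ g in 𝓕, D.indicator (fun g => Ap μ B F g ^ 2) g ∂μ := by
          rw [lintegral_indicator hD, Measure.restrict_restrict hD, Set.inter_comm]
      _ ≤ _ := by
          refine lintegral_mono fun g => ?_
          by_cases hg : g ∈ D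
          · rw [Set.indicator_of_mem hg]
            exact hpt g hg
          · rw [Set.indicator_of_notMem hg]
            exact bot_le
  refine hR.trans ?_
  -- Tonelli
  have e1 : ∫⁻ g in 𝓕, (D.indicator W g * ∫⁻ h in B, F (g * h) ^ 2 * (W (g * h))⁻¹ ∂μ) ∂μ =
      ∫⁻ h in B, (∫⁻ g in 𝓕, D.indicator W g * (F (g * h) ^ 2 * (W (g * h))⁻¹) ∂μ) ∂μ := by
    have : ∀ g, D.indicator W g * ∫⁻ h in B, F (g * h) ^ 2 * (W (g * h))⁻¹ ∂μ =
        ∫⁻ h in B, D.indicator W g * (F (g * h) ^ 2 * (W (g * h))⁻¹) ∂μ := fun g =>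
      (lintegral_const_mul _ (by fun_prop)).symm
    simp only [this]
    refine lintegral_lintegral_swap ?_
    have hm : Measurable fun p : G × G => D.indicator W p.1 * (F (p.1 * p.2) ^ 2 * (W (p.1 * p.2))⁻¹) :=
      (hDW.comp measurable_fst).mul (by fun_prop)
    exact hm.aemeasurable
  -- translation
  have e2 : ∀ h : G, ∫⁻ g in 𝓕, D.indicator W g * (F (g * h) ^ 2 * (W (g * h))⁻¹) ∂μ =
      ∫⁻ g in 𝓕, D.indicator W (g * h⁻¹) * (F g ^ 2 * (W g)⁻¹) ∂μ := by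
    intro h
    have hinv : ∀ γ ∈ Γ, ∀ g, D.indicator W (γ * g) = D.indicator W g := by
      intro γ hγ g
      by_cases hg : g ∈ D
      · rw [Set.indicator_of_mem hg, Set.indicator_of_mem ((hDi γ hγ g).2 hg), hWi γ hγ]
      · rw [Set.indicator_of_notMem hg, Set.indicator_of_notMem (fun h => hg ((hDi γ hγ g).1 h))]
    have := trans h𝓕 (fun g => D.indicator W (g * h⁻¹) * (F g ^ 2 * (W g)⁻¹)) (fun γ hγ g => by
      simp only [mul_assoc, hF γ hγ, hWi γ hγ]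
      rw [hinv γ hγ]) h
    rw [← this]
    simp only [mul_inv_cancel_right]
  have e3 : ∫⁻ h in B, (∫⁻ g in 𝓕, D.indicator W (g * h⁻¹) * (F g ^ 2 * (W g)⁻¹) ∂μ) ∂μ =
      ∫⁻ h in B, (∫⁻ g in 𝓕, D.indicator W (g * h) * (F g ^ 2 * (W g)⁻¹) ∂μ) ∂μ := by
    rw [← lintegral_indicator hB, ← lintegral_indicator hB, ← lintegral_inv_eq_self (μ := μ)]
    refine lintegral_congr fun h => ?_
    by_cases hh : h ∈ B
    · rw [Set.indicator_of_mem ((hBi h).2 hh), Set.indicator_of_mem hh, inv_inv]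
    · rw [Set.indicator_of_notMem (fun h1 => hh ((hBi h).1 h1)), Set.indicator_of_notMem hh]
  rw [e1]
  simp only [e2]
  rw [e3, lintegral_lintegral_swap]
  · have e4 : ∀ g, ∫⁻ h in B, D.indicator W (g * h) * (F g ^ 2 * (W g)⁻¹) ∂μ ≤ Λ * F g ^ 2 := by
      intro g
      have hc := lintegral_mul_const (μ := μ.restrict B) (F g ^ 2 * (W g)⁻¹)
        (f := fun h => D.indicator W (g * h)) (hDW.comp (measurable_const_mul g))
      rw [hc]
      calc (∫⁻ h in B, D.indicator W (g * h) ∂μ) * (F g ^ 2 * (W g)⁻¹)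
          ≤ (Λ * W g) * (F g ^ 2 * (W g)⁻¹) := by
            gcongr
            exact h3 g
        _ = Λ * F g ^ 2 * (W g * (W g)⁻¹) := by ring
        _ ≤ Λ * F g ^ 2 * 1 := by
            gcongr
            exact ENNReal.mul_inv_le_one _
        _ = Λ * F g ^ 2 := mul_one _
    calc Λ * ∫⁻ g in 𝓕, (∫⁻ h in B, D.indicator W (g * h) * (F g ^ 2 * (W g)⁻¹) ∂μ) ∂μ
        ≤ Λ * ∫⁻ g in 𝓕, Λ * F g ^ 2 ∂μ := by
          gcongr with g
          exact e4 g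
      _ = Λ ^ 2 * ∫⁻ g in 𝓕, F g ^ 2 ∂μ := by
          rw [lintegral_const_mul _ (hFm.pow_const 2), ← mul_assoc, sq]
  · have hm : Measurable fun p : G × G => D.indicator W (p.2 * p.1) * (F p.2 ^ 2 * (W p.2)⁻¹) :=
      (hDW.comp (by fun_prop)).mul (by fun_prop)
    exact hm.aemeasurable

end Pool.Agent.T2h77.An
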