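import Pool.Agent.T2h77.Stm

/-!
# The density theorem for `SL₂` over number fields: integers in boxes

Integers in a box congruent modulo an ideal (`box`), factorisations in a box (`fac`).
-/

set_option autoImplicit false

open NumberField Finset

noncomputable section

namespace Pool.Agent.T2h77

namespace Bx

theorem card_Icc_le (a b : ℤ) (r : ℝ) (hr : 0 ≤ r) (h : (b : ℝ) + 1 - a ≤ r) :
    ((Finset.Icc a b).card : ℝ) ≤ r := by
  rw [Int.card_Icc]
  rcases le_or_gt (b + 1 - a) 0 with h0 | h0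
  · rw [Int.toNat_of_nonpos h0]; simpa using hr
  · have h1 : (((b + 1 - a).toNat : ℤ) : ℝ) = ((b + 1 - a : ℤ) : ℝ) := by
      rw [Int.toNat_of_nonneg h0.le]
    rw [Int.cast_natCast] at h1
    rw [h1]
    push_cast
    exact h

theorem floor_near {x y η : ℝ} (hη : 0 < η) (h : ⌊x / η⌋ = ⌊y / η⌋) : |x - y| < η := by
  have h1 := Int.abs_sub_lt_one_of_floor_eq_floor h
  rw [← sub_div, abs_div, abs_of_pos hη, div_lt_one hη] at h1
  exact h1

theorem floor_mem {x η R : ℝ} (hη : 0 < η) (h : |x| ≤ R) :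
    ⌊x / η⌋ ∈ Finset.Icc ⌊-R / η⌋ ⌊R / η⌋ := by
  rw [abs_le] at h
  rw [Finset.mem_Icc]
  exact ⟨Int.floor_le_floor (div_le_div_of_nonneg_right h.1 hη.le),
    Int.floor_le_floor (div_le_div_of_nonneg_right h.2 hη.le)⟩

theorem Icc_bound {η R : ℝ} (hη : 0 < η) (hR : 0 ≤ R) :
    ((Finset.Icc ⌊-R / η⌋ ⌊R / η⌋).card : ℝ) ≤ 2 * (R / η) + 2 := by
  apply card_Icc_le _ _ _ (by positivity)
  have h1 := Int.floor_le (R / η)
  have h2 := Int.lt_floor_add_one (-R / η)
  rw [neg_div] at h2 ⊢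
  linarith

/-- separated points on the line -/
theorem sep1 {α : Type*} (s : Finset α) (f : α → ℝ) {R δ : ℝ} (hR : 0 ≤ R) (hδ : 0 < δ)
    (h1 : ∀ x ∈ s, |f x| ≤ R) (h2 : ∀ x ∈ s, ∀ y ∈ s, x ≠ y → δ ≤ |f x - f y|) :
    (s.card : ℝ) ≤ 2 * (R / δ) + 2 := by
  classical
  refine le_trans ?_ (Icc_bound hδ hR)
  rw [Nat.cast_le]
  apply Finset.card_le_card_of_injOn (fun x => ⌊f x / δ⌋)
  · intro x hx
    exact floor_mem hδ (h1 x hx)
  · intro x hx y hy hxy
    by_contra hne
    exact absurd (floor_near hδ hxy) (not_lt.2 (h2 x hx y hy hne))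

/-- separated points in the plane -/
theorem sep2 {α : Type*} (s : Finset α) (f : α → ℂ) {R δ : ℝ} (hR : 0 ≤ R) (hδ : 0 < δ)
    (h1 : ∀ x ∈ s, ‖f x‖ ≤ R) (h2 : ∀ x ∈ s, ∀ y ∈ s, x ≠ y → δ ≤ ‖f x - f y‖) :
    (s.card : ℝ) ≤ (2 * (R / (δ / 2)) + 2) ^ 2 := by
  classical
  have hη : 0 < δ / 2 := by positivity
  have h3 := Icc_bound hη hR
  have h4 : (s.card : ℝ) ≤ ((Finset.Icc ⌊-R / (δ / 2)⌋ ⌊R / (δ / 2)⌋ ×ˢ
      Finset.Icc ⌊-R / (δ / 2)⌋ ⌊R / (δ / 2)⌋).card : ℝ) := by
    rw [Nat.cast_le]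
    apply Finset.card_le_card_of_injOn
      (fun x => (⌊(f x).re / (δ / 2)⌋, ⌊(f x).im / (δ / 2)⌋))
    · intro x hx
      rw [Finset.mem_coe, Finset.mem_product]
      exact ⟨floor_mem hη ((Complex.abs_re_le_norm _).trans (h1 x hx)),
        floor_mem hη ((Complex.abs_im_le_norm _).trans (h1 x hx))⟩
    · intro x hx y hy hxy
      by_contra hne
      simp only [Prod.mk.injEq] at hxy
      have k1 := floor_near hη hxy.1
      have k2 := floor_near hη hxy.2
      have k3 := Complex.norm_le_abs_re_add_abs_im (f x - f y)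
      rw [Complex.sub_re, Complex.sub_im] at k3
      have k4 := h2 x hx y hy hne
      linarith
  refine h4.trans ?_
  rw [Finset.card_product, Nat.cast_mul, sq]
  exact mul_le_mul h3 h3 (Nat.cast_nonneg _) (by positivity)

variable {K : Type} [Field K] [NumberField K]

theorem norm_ge (I : Ideal (𝓞 K)) {x : 𝓞 K} (hx : x ∈ I) (h0 : x ≠ 0) :
    (Ideal.absNorm I : ℝ) ≤ ∏ w : InfinitePlace K, w (x : K) ^ w.mult := by
  rw [InfinitePlace.prod_eq_abs_norm]
  have h1 : Ideal.absNorm I ∣ (Algebra.norm ℤ x).natAbs := by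
    rw [← Ideal.absNorm_span_singleton]
    exact Ideal.absNorm_dvd_absNorm_of_le ((Ideal.span_singleton_le_iff_mem I).2 hx)
  have h2 : 0 < (Algebra.norm ℤ x).natAbs := Int.natAbs_pos.2 (Algebra.norm_ne_zero_iff.2 h0)
  have h3 := Nat.le_of_dvd h2 h1
  have h4 : ((|Algebra.norm ℚ (x : K)| : ℚ) : ℝ) = ((Algebra.norm ℤ x).natAbs : ℝ) := by
    rw [← Algebra.coe_norm_int, ← Int.cast_abs, Rat.cast_intCast, Int.abs_eq_natAbs,
      Int.cast_natCast]
  rw [h4]
  exact_mod_cast h3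

theorem absNorm_span (x : 𝓞 K) :
    (Ideal.absNorm (Ideal.span {x}) : ℝ) = ∏ w : InfinitePlace K, w (x : K) ^ w.mult := by
  rw [InfinitePlace.prod_eq_abs_norm, Ideal.absNorm_span_singleton]
  have h4 : ((|Algebra.norm ℚ (x : K)| : ℚ) : ℝ) = ((Algebra.norm ℤ x).natAbs : ℝ) := by
    rw [← Algebra.coe_norm_int, ← Int.cast_abs, Rat.cast_intCast, Int.abs_eq_natAbs,
      Int.cast_natCast]
  rw [h4]

/-- lower bound at one place -/
theorem place_ge (v : InfinitePlace K) {B : ℝ} (hB : 1 ≤ B) (I : Ideal (𝓞 K)) {x : 𝓞 K}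
    (hx : x ∈ I) (h0 : x ≠ 0) (h : ∀ w : InfinitePlace K, w ≠ v → w (x : K) ≤ B) :
    (Ideal.absNorm I : ℝ) ≤ v (x : K) ^ v.mult * B ^ Module.finrank ℚ K := by
  classical
  refine (norm_ge I hx h0).trans ?_
  rw [← Finset.mul_prod_erase univ _ (mem_univ v)]
  refine mul_le_mul_of_nonneg_left ?_ (pow_nonneg (apply_nonneg _ _) _)
  rw [← InfinitePlace.sum_mult_eq, ← Finset.prod_pow_eq_pow_sum]
  refine (Finset.prod_le_prod (fun w _ => pow_nonneg (apply_nonneg _ _) _)
    (fun w hw => pow_le_pow_left₀ (apply_nonneg _ _) (h w (Finset.ne_of_mem_erase hw)) _)).trans ?_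
  refine Finset.prod_le_prod_of_subset_of_one_le (Finset.erase_subset _ _)
    (fun w _ => pow_nonneg (by linarith) _) fun w _ _ => one_le_pow₀ hB

end Bx

open Bx

theorem box : S_box := by
  intro K _ _ v C₀
  set B : ℝ := 2 * |C₀| + 1 with hB
  have hB1 : 1 ≤ B := by have := abs_nonneg C₀; linarith
  set D : ℝ := B ^ Module.finrank ℚ K with hD
  have hD1 : 1 ≤ D := one_le_pow₀ hB1
  refine ⟨32 * D + 8, by linarith, ?_⟩
  intro I hI X hX s hs hsI
  have hN : (0 : ℝ) < Ideal.absNorm I := by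
    have : 0 < Ideal.absNorm I := Nat.pos_of_ne_zero fun h => hI (Ideal.absNorm_eq_zero_iff.1 h)
    exact_mod_cast this
  have hsep : ∀ x ∈ s, ∀ y ∈ s, x ≠ y →
      (Ideal.absNorm I : ℝ) / D ≤ v ((x : K) - (y : K)) ^ v.mult := by
    intro x hx y hy hxy
    have h1 := place_ge v hB1 I (hsI x hx y hy) (sub_ne_zero.2 hxy) (fun w hw => by
      have h2 : w (((x - y : 𝓞 K)) : K) = w ((x : K) - (y : K)) := by push_cast; rfl
      rw [h2]
      refine (w.1.sub_le_add _ _).trans ?_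
      have h3 := (hs x hx).2 w hw
      have h4 := (hs y hy).2 w hw
      have h5 := le_abs_self C₀
      change w (x : K) + w (y : K) ≤ B
      linarith)
    rw [div_le_iff₀ (by linarith)]
    have h2 : ((((x - y : 𝓞 K)) : K)) = ((x : K) - (y : K)) := by push_cast; rfl
    rw [h2] at h1
    exact h1
  rcases v.isReal_or_isComplex with hv | hv
  · rw [hv.mult_eq_one] at hs hsep
    simp only [pow_one] at hs hsep
    have h1 := sep1 s (fun x => InfinitePlace.embedding_of_isReal hv (x : K)) (R := X)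
      (δ := (Ideal.absNorm I : ℝ) / D) hX (by positivity)
      (fun x hx => by
        rw [← Real.norm_eq_abs, InfinitePlace.norm_embedding_of_isReal]
        exact (hs x hx).1)
      (fun x hx y hy hxy => by
        rw [← map_sub, ← Real.norm_eq_abs, InfinitePlace.norm_embedding_of_isReal]
        exact hsep x hx y hy hxy)
    refine h1.trans ?_
    rw [div_div_eq_mul_div]
    have h2 : 0 ≤ X / Ideal.absNorm I := by positivity
    have h3 : X * D / Ideal.absNorm I = D * (X / Ideal.absNorm I) := by ring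
    rw [h3]
    nlinarith
  · rw [hv.mult_eq_two] at hs hsep
    have hδ : 0 < √((Ideal.absNorm I : ℝ) / D) := Real.sqrt_pos.2 (by positivity)
    have h1 := sep2 s (fun x => v.embedding (x : K)) (R := √X)
      (δ := √((Ideal.absNorm I : ℝ) / D)) (Real.sqrt_nonneg _) hδ
      (fun x hx => by
        rw [InfinitePlace.norm_embedding_eq]
        exact Real.le_sqrt_of_sq_le (hs x hx).1)
      (fun x hx y hy hxy => by
        rw [← map_sub, InfinitePlace.norm_embedding_eq]
        exact Real.sqrt_le_iff.2 ⟨apply_nonneg _ _, hsep x hx y hy hxy⟩)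
    refine h1.trans ?_
    have h4 : (√X / (√((Ideal.absNorm I : ℝ) / D) / 2)) ^ 2 = 4 * D * (X / Ideal.absNorm I) := by
      rw [div_pow, div_pow, Real.sq_sqrt hX, Real.sq_sqrt (by positivity)]
      field_simp
      ring
    set q : ℝ := √X / (√((Ideal.absNorm I : ℝ) / D) / 2) with hq
    have h5 : (2 * q + 2) ^ 2 ≤ 8 * q ^ 2 + 8 := by nlinarith [sq_nonneg (q - 1)]
    refine h5.trans ?_
    rw [h4]
    have h2 : 0 ≤ X / Ideal.absNorm I := by positivity
    nlinarith

namespace Bx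

theorem finite_small (K : Type) [Field K] [NumberField K] (B : ℝ) :
    {u : 𝓞 K | ∀ w : InfinitePlace K, w (u : K) ≤ B}.Finite := by
  have h := (Embeddings.finite_of_norm_le K ℂ B).preimage
    (f := fun u : 𝓞 K => (u : K)) (RingOfIntegers.coe_injective.injOn)
  refine h.subset ?_
  intro u hu
  exact ⟨u.isIntegral_coe, (InfinitePlace.le_iff_le _ _).1 hu⟩

variable {K : Type} [Field K] [NumberField K]

/-- `1 ≤ w x ^ mult * B ^ d` for a nonzero integer -/
theorem place_ge_one (v : InfinitePlace K) {B : ℝ} (hB : 1 ≤ B) {x : 𝓞 K} (h0 : x ≠ 0)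
    (h : ∀ w : InfinitePlace K, w ≠ v → w (x : K) ≤ B) :
    1 ≤ v (x : K) ^ v.mult * B ^ Module.finrank ℚ K := by
  have h1 := place_ge v hB ⊤ (x := x) Submodule.mem_top h0 h
  rwa [Ideal.absNorm_top, Nat.cast_one] at h1

/-- the logarithms in a box -/
theorem log_bound {B : ℝ} (hB : 1 ≤ B) {x : 𝓞 K} (h0 : x ≠ 0)
    (h : ∀ w : InfinitePlace K, w (x : K) ≤ B) (v : InfinitePlace K) :
    |Real.log (v (x : K))| ≤ (Module.finrank ℚ K + 1) * Real.log B := by
  have hB0 : 0 ≤ Real.log B := Real.log_nonneg hB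
  have hv : 0 < v (x : K) := InfinitePlace.pos_iff.2 (by simpa using h0)
  have hd : (0 : ℝ) ≤ Module.finrank ℚ K := Nat.cast_nonneg _
  have hup : Real.log (v (x : K)) ≤ Real.log B := Real.log_le_log hv (h v)
  have h1 := place_ge_one v hB h0 fun w _ => h w
  have h2 : 0 ≤ v.mult * Real.log (v (x : K)) + Module.finrank ℚ K * Real.log B := by
    have h3 := Real.log_nonneg h1
    rwa [Real.log_mul (by positivity) (by positivity), Real.log_pow, Real.log_pow] at h3
  rw [abs_le]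
  constructor
  · rcases le_or_gt 0 (Real.log (v (x : K))) with h4 | h4
    · nlinarith
    · have h5 : (v.mult : ℝ) * Real.log (v (x : K)) ≤ 1 * Real.log (v (x : K)) :=
        mul_le_mul_of_nonpos_right InfinitePlace.one_le_mult h4.le
      nlinarith
  · nlinarith

theorem log_poly (n : ℕ) (a b ε : ℝ) (ha : 0 ≤ a) (hb : 0 ≤ b) (hε : 0 < ε) :
    ∃ C : ℝ, 0 < C ∧ ∀ X : ℝ, 1 ≤ X → (a + b * Real.log X) ^ n ≤ C * X ^ ε := by
  have hδ : 0 < ε / (n + 1) := by positivity
  refine ⟨(a + b / (ε / (n + 1)) + 1) ^ n, by positivity, ?_⟩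
  intro X hX
  have h1 := Real.log_le_rpow_div (by linarith : (0 : ℝ) ≤ X) hδ
  have h2 : 1 ≤ X ^ (ε / (n + 1)) := Real.one_le_rpow hX hδ.le
  have h3 : a + b * Real.log X ≤ (a + b / (ε / (n + 1)) + 1) * X ^ (ε / (n + 1)) := by
    have h4 : b * Real.log X ≤ b / (ε / (n + 1)) * X ^ (ε / (n + 1)) := by
      calc b * Real.log X ≤ b * (X ^ (ε / (n + 1)) / (ε / (n + 1))) :=
            mul_le_mul_of_nonneg_left h1 hb
        _ = _ := by ring
    nlinarith
  have h5 : 0 ≤ a + b * Real.log X := by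
    have := Real.log_nonneg hX
    positivity
  refine (pow_le_pow_left₀ h5 h3 n).trans ?_
  rw [mul_pow, ← Real.rpow_natCast (X ^ (ε / (n + 1))), ← Real.rpow_mul (by linarith)]
  refine mul_le_mul_of_nonneg_left ?_ (by positivity)
  apply Real.rpow_le_rpow_of_exponent_le hX
  rw [div_mul_eq_mul_div, div_le_iff₀ (by positivity)]
  nlinarith

end Bx

theorem fac (hdiv : S_div) : S_fac := by
  classical
  intro K _ _ v C₀ ε hε
  set C₁ : ℝ := |C₀| + 1 with hC₁
  have hC₁1 : 1 ≤ C₁ := by have := abs_nonneg C₀; linarith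
  obtain ⟨C₂, hC₂, hdiv⟩ := hdiv K (ε / 4) (by positivity)
  set d : ℕ := Module.finrank ℚ K with hd
  set n : ℕ := Fintype.card (InfinitePlace K) with hn
  set M : ℕ := (finite_small K (Real.exp 1)).toFinset.card with hM
  have hlogC : 0 ≤ Real.log C₁ := Real.log_nonneg hC₁1
  obtain ⟨C₃, hC₃, hlog⟩ := log_poly n (2 * ((d + 1) * Real.log C₁) + 3) (2 * (d + 1)) (ε / 2)
    (by positivity) (by positivity) (by positivity)
  refine ⟨M * (C₂ * (C₁ ^ (2 * d)) ^ (ε / 4)) * C₃ + 1, by positivity, ?_⟩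
  intro X hX k hk s hs
  have hX0 : (0 : ℝ) < X := by linarith
  set B : ℝ := C₁ * X with hB
  have hB1 : 1 ≤ B := by nlinarith
  have hXB : X ≤ B := by nlinarith
  have hCB : C₁ ≤ B := by nlinarith
  -- all the absolute values are at most `B`
  have hle : ∀ y : 𝓞 K, v (y : K) ^ v.mult ≤ X → (∀ w : InfinitePlace K, w ≠ v → w (y : K) ≤ C₀) →
      ∀ w : InfinitePlace K, w (y : K) ≤ B := by
    intro y h1 h2 w
    by_cases hw : w = v
    · subst hw
      rcases le_or_gt (w (y : K)) 1 with h3 | h3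
      · exact h3.trans hB1
      · exact ((le_self_pow₀ h3.le InfinitePlace.mult_ne_zero).trans h1).trans hXB
    · have := le_abs_self C₀
      have := h2 w hw
      linarith
  -- the norm of `k`
  have hspan : Ideal.span {k} ≠ ⊥ := by rwa [Ne, Ideal.span_singleton_eq_bot]
  have hnormk : s.Nonempty → (Ideal.absNorm (Ideal.span {k}) : ℝ) ≤ X ^ 2 * C₁ ^ (2 * d) := by
    rintro ⟨x, hx⟩
    obtain ⟨h1, h2, h3, h4⟩ := hs x hx
    rw [absNorm_span, ← h1]
    have e1 : ∀ w : InfinitePlace K, w ((x.1 * x.2 : 𝓞 K) : K) ^ w.mult =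
        w (x.1 : K) ^ w.mult * w (x.2 : K) ^ w.mult := by
      intro w
      rw [← mul_pow, ← map_mul]
      push_cast
      rfl
    simp only [e1]
    rw [← Finset.mul_prod_erase univ _ (mem_univ v)]
    have k1 : v (x.1 : K) ^ v.mult * v (x.2 : K) ^ v.mult ≤ X ^ 2 := by
      rw [sq]
      exact mul_le_mul h2 h3 (pow_nonneg (apply_nonneg _ _) _) hX0.le
    have k2 : ∏ w ∈ univ.erase v, w (x.1 : K) ^ w.mult * w (x.2 : K) ^ w.mult ≤ C₁ ^ (2 * d) := by
      rw [hd, ← InfinitePlace.sum_mult_eq, pow_mul, ← Finset.prod_pow_eq_pow_sum]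
      refine (Finset.prod_le_prod (fun w _ => mul_nonneg (pow_nonneg (apply_nonneg _ _) _)
        (pow_nonneg (apply_nonneg _ _) _)) (fun w hw => ?_) :
        _ ≤ ∏ w ∈ univ.erase v, (C₁ ^ 2) ^ w.mult).trans ?_
      · rw [← mul_pow]
        refine pow_le_pow_left₀ (mul_nonneg (apply_nonneg _ _) (apply_nonneg _ _)) ?_ _
        rw [sq]
        have h5 := h4 w (Finset.ne_of_mem_erase hw)
        have h6 := le_abs_self C₀
        exact mul_le_mul (by linarith) (by linarith) (apply_nonneg _ _) (by linarith)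
      · exact Finset.prod_le_prod_of_subset_of_one_le (Finset.erase_subset _ _)
          (fun w _ => by positivity) fun w _ _ => one_le_pow₀ (one_le_pow₀ hC₁1)
    exact mul_le_mul k1 k2 (Finset.prod_nonneg fun w _ => mul_nonneg
      (pow_nonneg (apply_nonneg _ _) _) (pow_nonneg (apply_nonneg _ _) _)) (by positivity)
  rcases s.eq_empty_or_nonempty with rfl | hne
  · simp only [card_empty, Nat.cast_zero]; positivity
  have hnk := hnormk hne
  haveI : Finite (𝓞 K ⧸ Ideal.span {k}) := Ideal.finiteQuotientOfFreeOfNeBot _ hspan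
  haveI : Finite (Ideal (𝓞 K ⧸ Ideal.span {k})) :=
    Finite.of_injective (fun I => (I : Set (𝓞 K ⧸ Ideal.span {k}))) SetLike.coe_injective
  letI : Fintype (Ideal (𝓞 K ⧸ Ideal.span {k})) := Fintype.ofFinite _
  set L : ℝ := (d + 1) * Real.log B with hL
  have hL0 : 0 ≤ L := by have := Real.log_nonneg hB1; positivity
  have h0 : ∀ x ∈ s, x.1 ≠ 0 ∧ x.2 ≠ 0 := by
    intro x hx
    have := (hs x hx).1
    refine ⟨fun h => hk ?_, fun h => hk ?_⟩ <;> rw [← this, h] <;> simp
  -- the map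
  let f : 𝓞 K × 𝓞 K → Ideal (𝓞 K ⧸ Ideal.span {k}) × (InfinitePlace K → ℤ) := fun x =>
    (Ideal.map (Ideal.Quotient.mk (Ideal.span {k})) (Ideal.span {x.1}),
      fun w => ⌊Real.log (w (x.1 : K)) / 1⌋)
  let t : Finset (Ideal (𝓞 K ⧸ Ideal.span {k}) × (InfinitePlace K → ℤ)) :=
    univ ×ˢ Fintype.piFinset fun _ : InfinitePlace K => Finset.Icc ⌊-L / 1⌋ ⌊L / 1⌋
  have hmaps : ∀ x ∈ s, f x ∈ t := by
    intro x hx
    obtain ⟨h1, h2, h3, h4⟩ := hs x hx
    rw [Finset.mem_product]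
    refine ⟨mem_univ _, Fintype.mem_piFinset.2 fun w => ?_⟩
    exact floor_mem one_pos (log_bound hB1 (h0 x hx).1 (hle x.1 h2 fun w hw => (h4 w hw).1) w)
  have hfib : ∀ b ∈ t, (s.filter fun x => f x = b).card ≤ M := by
    intro b _
    rcases (s.filter fun x => f x = b).eq_empty_or_nonempty with h | ⟨y, hy⟩
    · rw [h]; simp
    rw [Finset.mem_filter] at hy
    have hu : ∀ x ∈ s.filter fun x => f x = b, ∃ u : 𝓞 K, x.1 = u * y.1 ∧
        ∀ w : InfinitePlace K, w (u : K) ≤ Real.exp 1 := by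
      intro x hx
      rw [Finset.mem_filter] at hx
      have hxy : f x = f y := hx.2.trans hy.2.symm
      have h1 := (Prod.mk.inj hxy).1
      have h2 := (Prod.mk.inj hxy).2
      -- the ideals agree
      have hcomap : ∀ z ∈ s, Ideal.comap (Ideal.Quotient.mk (Ideal.span {k}))
          (Ideal.map (Ideal.Quotient.mk (Ideal.span {k})) (Ideal.span {z.1})) =
          Ideal.span {z.1} := by
        intro z hz
        rw [Ideal.comap_map_of_surjective' _ Ideal.Quotient.mk_surjective, Ideal.mk_ker,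
          sup_eq_left, Ideal.span_singleton_le_span_singleton]
        exact ⟨z.2, (hs z hz).1.symm⟩
      have h3 : Ideal.span {x.1} = Ideal.span {y.1} := by
        rw [← hcomap x hx.1, ← hcomap y hy.1, h1]
      rw [Ideal.span_singleton_eq_span_singleton] at h3
      obtain ⟨u, hu⟩ := h3.symm
      refine ⟨u, by rw [mul_comm]; exact hu.symm, ?_⟩
      intro w
      have h4 : ⌊Real.log (w (x.1 : K)) / 1⌋ = ⌊Real.log (w (y.1 : K)) / 1⌋ := congrFun h2 w
      have h5 := floor_near one_pos h4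
      have hx0 : 0 < w (x.1 : K) := InfinitePlace.pos_iff.2 (by simpa using (h0 x hx.1).1)
      have hy0 : 0 < w (y.1 : K) := InfinitePlace.pos_iff.2 (by simpa using (h0 y hy.1).1)
      have h6 : w (x.1 : K) = w (y.1 : K) * w ((u : 𝓞 K) : K) := by
        rw [← map_mul, ← hu]
        push_cast
        rfl
      have hu0 : 0 < w ((u : 𝓞 K) : K) := InfinitePlace.pos_iff.2 (by simp)
      have h7 : Real.log (w (x.1 : K)) - Real.log (w (y.1 : K)) = Real.log (w ((u : 𝓞 K) : K)) := by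
        rw [h6, Real.log_mul hy0.ne' hu0.ne']; ring
      rw [h7] at h5
      rw [← Real.log_le_iff_le_exp hu0]
      exact (le_abs_self _).trans h5.le
    choose! u hu1 hu2 using hu
    refine Finset.card_le_card_of_injOn u ?_ ?_
    · intro x hx
      rw [Finset.mem_coe, Set.Finite.mem_toFinset]
      exact hu2 x hx
    · intro x hx z hz hxz
      have e1 : x.1 = z.1 := by rw [hu1 x hx, hu1 z hz, hxz]
      have hx' := (Finset.mem_filter.1 (Finset.mem_coe.1 hx)).1
      have hz' := (Finset.mem_filter.1 (Finset.mem_coe.1 hz)).1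
      have e2 : z.1 * x.2 = z.1 * z.2 := by
        rw [(hs z hz').1, ← (hs x hx').1, e1]
      exact Prod.ext e1 (mul_left_cancel₀ (h0 z hz').1 e2)
  have hcard := Finset.card_le_mul_card_image_of_maps_to hmaps M hfib
  have htcard : (t.card : ℝ) ≤ C₂ * (C₁ ^ (2 * d)) ^ (ε / 4) * X ^ (ε / 2) * (C₃ * X ^ (ε / 2)) := by
    rw [Finset.card_product, Nat.cast_mul, Fintype.card_piFinset]
    refine mul_le_mul ?_ ?_ (Nat.cast_nonneg _) (by positivity)
    · rw [Finset.card_univ, ← Nat.card_eq_fintype_card]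
      refine (hdiv _ hspan).trans ?_
      rw [mul_assoc]
      refine mul_le_mul_of_nonneg_left ?_ hC₂.le
      refine (Real.rpow_le_rpow (Nat.cast_nonneg _) hnk (by positivity)).trans (le_of_eq ?_)
      rw [Real.mul_rpow (by positivity) (by positivity), ← Real.rpow_natCast X 2,
        ← Real.rpow_mul hX0.le, mul_comm]
      congr 2
      push_cast
      ring
    · rw [Finset.prod_const, Finset.card_univ, ← hn]
      push_cast
      refine (pow_le_pow_left₀ (Nat.cast_nonneg _) (Icc_bound one_pos hL0) n).trans ?_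
      refine (pow_le_pow_left₀ (by positivity) ?_ n).trans (hlog X hX)
      rw [div_one, hL, hB, Real.log_mul (by positivity) hX0.ne']
      linarith
  have h7 : (s.card : ℝ) ≤ M * t.card := by exact_mod_cast hcard
  refine h7.trans ?_
  have h8 : X ^ (ε / 2) * X ^ (ε / 2) = X ^ ε := by
    rw [← Real.rpow_add hX0]; congr 1; ring
  have h9 : (M : ℝ) * t.card ≤ M * (C₂ * (C₁ ^ (2 * d)) ^ (ε / 4) * X ^ (ε / 2) * (C₃ * X ^ (ε / 2))) :=
    mul_le_mul_of_nonneg_left htcard (Nat.cast_nonneg _)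
  refine h9.trans ?_
  have h10 : (M : ℝ) * (C₂ * (C₁ ^ (2 * d)) ^ (ε / 4) * X ^ (ε / 2) * (C₃ * X ^ (ε / 2))) =
      M * (C₂ * (C₁ ^ (2 * d)) ^ (ε / 4)) * C₃ * X ^ ε := by
    rw [← h8]; ring
  rw [h10, add_mul, one_mul]
  have : 0 < X ^ ε := Real.rpow_pos_of_pos hX0 _
  linarith

end Pool.Agent.T2h77
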