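import Pool.Agent.T2h77.Index

/-!
# Centralisers in `SL₂` of a finite principal ideal ring
-/

set_option autoImplicit false

open Matrix
open scoped MatrixGroups

noncomputable section

namespace Pool.Agent.T2h77

namespace Cen

variable {A : Type} [CommRing A]

/-- linear algebra for a unimodular triple -/
lemma triple {B : Type} [CommRing B] {x y z β γ κ a1 a2 a3 : B} (h1 : a1 * β + a2 * γ + a3 * κ = 1)
    (h2 : x * γ = β * y) (h3 : z * β = κ * x) (h4 : y * κ = γ * z) :
    x = (a1 * x + a2 * y + a3 * z) * β ∧ y = (a1 * x + a2 * y + a3 * z) * γ ∧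
      z = (a1 * x + a2 * y + a3 * z) * κ := by
  refine ⟨?_, ?_, ?_⟩
  · linear_combination (-x) * h1 + a2 * h2 - a3 * h3
  · linear_combination (-y) * h1 - a1 * h2 + a3 * h4
  · linear_combination (-z) * h1 + a1 * h3 - a2 * h4

theorem commutant [Finite A] (R : Ideal A) (s : A) (hR : ∀ x : A, s * x = 0 → x ∈ R)
    (h : Matrix (Fin 2) (Fin 2) A) (β γ κ a1 a2 a3 : A) (hβ : h 0 1 = s * β) (hγ : h 1 0 = s * γ)
    (hκ : h 0 0 - h 1 1 = s * κ) (hab : s * (a1 * β + a2 * γ + a3 * κ - 1) = 0) :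
    Nat.card {g : Matrix (Fin 2) (Fin 2) A // g * h = h * g} ≤ (Nat.card A * Nat.card R) ^ 2 := by
  have : Finite (A ⧸ R) := Quotient.finite _
  have : Finite R := Subtype.finite
  set π := Ideal.Quotient.mk R with hπ
  have hab' : π a1 * π β + π a2 * π γ + π a3 * π κ = 1 := by
    have := hR _ hab
    rw [← Ideal.Quotient.eq] at this
    simpa using this
  have ratio : ∀ x y β γ : A, x * (s * γ) = (s * β) * y → π x * π γ = π β * π y := by
    intro x y β γ h
    rw [← map_mul, ← map_mul, Ideal.Quotient.eq]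
    apply hR
    linear_combination h
  -- the relations
  have key : ∀ g : Matrix (Fin 2) (Fin 2) A, g * h = h * g →
      π (g 0 1) = (π a1 * π (g 0 1) + π a2 * π (g 1 0) + π a3 * π (g 0 0 - g 1 1)) * π β ∧
      π (g 1 0) = (π a1 * π (g 0 1) + π a2 * π (g 1 0) + π a3 * π (g 0 0 - g 1 1)) * π γ ∧
      π (g 0 0 - g 1 1) = (π a1 * π (g 0 1) + π a2 * π (g 1 0) + π a3 * π (g 0 0 - g 1 1)) * π κ := by
    intro g hgh
    have e00 := congrFun (congrFun hgh 0) 0
    have e01 := congrFun (congrFun hgh 0) 1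
    have e10 := congrFun (congrFun hgh 1) 0
    simp only [Matrix.mul_apply, Fin.sum_univ_two] at e00 e01 e10
    refine triple hab' ?_ ?_ ?_
    · apply ratio
      rw [← hβ, ← hγ]
      linear_combination e00
    · apply ratio
      rw [← hβ, ← hκ]
      linear_combination e01
    · apply ratio
      rw [← hγ, ← hκ]
      linear_combination e10
  have hout : ∀ x : A, x - Quotient.out (π x) ∈ R := by
    intro x
    rw [← Ideal.Quotient.eq]
    exact (Ideal.Quotient.mk_out _).symm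
  have hval : ∀ x y : A, π x = π y → x - Quotient.out (π x) = y - Quotient.out (π y) → x = y := by
    intro x y h1 h2
    rw [h1] at h2
    exact sub_left_injective h2
  let f : {g : Matrix (Fin 2) (Fin 2) A // g * h = h * g} →
      ((A ⧸ R) × (A ⧸ R)) × (Fin 2 → Fin 2 → R) := fun g =>
    ((π (g.1 1 1), π a1 * π (g.1 0 1) + π a2 * π (g.1 1 0) + π a3 * π (g.1 0 0 - g.1 1 1)),
      fun i j => ⟨_, hout (g.1 i j)⟩)
  have hf : Function.Injective f := by
    intro g g' hgg
    have e1 := congrArg (fun x => x.1.1) hgg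
    have e2 := congrArg (fun x => x.1.2) hgg
    have e3 := congrArg (fun x => x.2) hgg
    simp only [f] at e1 e2 e3
    have e4 : ∀ i j, g.1 i j - Quotient.out (π (g.1 i j)) = g'.1 i j - Quotient.out (π (g'.1 i j)) := by
      intro i j
      exact congrArg Subtype.val (congrFun (congrFun e3 i) j)
    obtain ⟨k1, k2, k3⟩ := key g.1 g.2
    obtain ⟨l1, l2, l3⟩ := key g'.1 g'.2
    rw [← e2] at l1 l2 l3
    have d01 : π (g.1 0 1) = π (g'.1 0 1) := k1.trans l1.symm
    have d10 : π (g.1 1 0) = π (g'.1 1 0) := k2.trans l2.symm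
    have d00' : π (g.1 0 0 - g.1 1 1) = π (g'.1 0 0 - g'.1 1 1) := k3.trans l3.symm
    rw [map_sub, map_sub, e1] at d00'
    have d00 : π (g.1 0 0) = π (g'.1 0 0) := by linear_combination d00'
    apply Subtype.ext
    ext i j
    fin_cases i <;> fin_cases j
    · exact hval _ _ d00 (e4 0 0)
    · exact hval _ _ d01 (e4 0 1)
    · exact hval _ _ d10 (e4 1 0)
    · exact hval _ _ e1 (e4 1 1)
  have hcard := Nat.card_le_card_of_injective f hf
  refine hcard.trans (le_of_eq ?_)
  have hA : Nat.card A = Nat.card R * Nat.card (A ⧸ R) :=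
    Submodule.card_eq_card_quotient_mul_card (R := A) R
  rw [Nat.card_prod, Nat.card_prod, hA, Nat.card_fun, Nat.card_fun,
    Nat.card_eq_fintype_card (α := Fin 2), Fintype.card_fin]
  ring

lemma lift_units [Finite A] (h : SL(2, A)) :
    Nat.card {g : SL(2, A) // g * h = h * g} * Nat.card Aˣ ≤
      Nat.card {u : A // u ^ 2 = 1} *
        Nat.card {g : Matrix (Fin 2) (Fin 2) A // g * h.1 = h.1 * g} := by
  classical
  have : Finite SL(2, A) := Ind.finSL
  rw [← Nat.card_prod, ← Nat.card_prod]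
  -- the map
  let F : {g : SL(2, A) // g * h = h * g} × Aˣ →
      {g : Matrix (Fin 2) (Fin 2) A // g * h.1 = h.1 * g} := fun x =>
    ⟨(x.2 : A) • x.1.1.1, by
      have h1 : x.1.1.1 * h.1 = h.1 * x.1.1.1 := by
        have := congrArg Subtype.val x.1.2
        simpa using this
      rw [Matrix.smul_mul, h1, Matrix.mul_smul]⟩
  have hdet : ∀ x, (F x).1.det = (x.2 : A) ^ 2 := by
    intro x
    simp only [F]
    rw [Matrix.det_smul, x.1.1.2, mul_one, Fintype.card_fin]
  have hch : ∀ r : {g : Matrix (Fin 2) (Fin 2) A // g * h.1 = h.1 * g},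
      ∃ u0 : Aˣ, ∀ x, F x = r → (x.2 : A) ^ 2 = (u0 : A) ^ 2 := by
    intro r
    by_cases hr : ∃ x, F x = r
    · obtain ⟨x0, hx0⟩ := hr
      refine ⟨x0.2, fun x hx => ?_⟩
      rw [← hdet, ← hdet, hx, hx0]
    · exact ⟨1, fun x hx => absurd ⟨x, hx⟩ hr⟩
  choose u0 hu0 using hch
  let G : {g : SL(2, A) // g * h = h * g} × Aˣ →
      {u : A // u ^ 2 = 1} × {g : Matrix (Fin 2) (Fin 2) A // g * h.1 = h.1 * g} :=
    fun x => (⟨((x.2 * (u0 (F x))⁻¹ : Aˣ) : A), by
      have h1 := hu0 (F x) x rfl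
      have h2 : (x.2 * (u0 (F x))⁻¹) ^ 2 = 1 := by
        have h3 : x.2 ^ 2 = (u0 (F x)) ^ 2 := by
          apply Units.ext
          push_cast
          exact h1
        rw [mul_pow, h3, inv_pow, mul_inv_cancel]
      have h4 := congrArg (Units.val) h2
      rw [Units.val_pow_eq_pow_val] at h4
      exact h4⟩, F x)
  refine Nat.card_le_card_of_injective G ?_
  intro x y hxy
  have e1 : F x = F y := congrArg Prod.snd hxy
  have e2 := congrArg (fun z => z.1.1) hxy
  simp only [G] at e2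
  have e3 : x.2 * (u0 (F x))⁻¹ = y.2 * (u0 (F y))⁻¹ := Units.ext e2
  rw [e1] at e3
  have e4 : x.2 = y.2 := mul_right_cancel e3
  have e5 := congrArg Subtype.val e1
  simp only [F] at e5
  rw [e4] at e5
  have e6 : x.1.1.1 = y.1.1.1 := by
    have := congrArg (fun B : Matrix (Fin 2) (Fin 2) A => ((y.2⁻¹ : Aˣ) : A) • B) e5
    simpa [smul_smul] using this
  exact Prod.ext (Subtype.ext (Subtype.ext e6)) e4

end Cen

/-- A3: the size of centralisers -/
theorem cent : S_cent := by
  intro A _ _ _ h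
  have : Finite SL(2, A) := Ind.finSL
  obtain ⟨s, hs⟩ := (IsPrincipalIdealRing.principal (lev h)).principal
  have hs' : lev h = Ideal.span {s} := hs
  have hmem : ∀ x ∈ lev h, ∃ y, x = s * y := by
    intro x hx
    rw [hs'] at hx
    obtain ⟨a, ha⟩ := Ideal.mem_span_singleton'.1 hx
    exact ⟨a, by rw [← ha, mul_comm]⟩
  obtain ⟨β, hβ⟩ := hmem (h 0 1) (Ideal.subset_span (by simp))
  obtain ⟨γ, hγ⟩ := hmem (h 1 0) (Ideal.subset_span (by simp))
  obtain ⟨κ, hκ⟩ := hmem (h 0 0 - h 1 1) (Ideal.subset_span (by simp))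
  have hsl : s ∈ lev h := by rw [hs']; exact Ideal.mem_span_singleton_self s
  obtain ⟨a1, a2, a3, hab⟩ : ∃ a1 a2 a3 : A, s = a1 * h 0 1 + a2 * h 1 0 + a3 * (h 0 0 - h 1 1) := by
    rw [lev, Ideal.mem_span_insert] at hsl
    obtain ⟨a1, z, hz, rfl⟩ := hsl
    rw [Ideal.mem_span_insert] at hz
    obtain ⟨a2, z2, hz2, rfl⟩ := hz
    obtain ⟨a3, rfl⟩ := Ideal.mem_span_singleton'.1 hz2
    exact ⟨a1, a2, a3, by ring⟩
  refine (Cen.lift_units h).trans (Nat.mul_le_mul_left _ ?_)
  rw [← Ind.card_ann (lev h)]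
  refine Cen.commutant (Submodule.annihilator (lev h)) s ?_ h.1 β γ κ a1 a2 a3 hβ hγ hκ ?_
  · intro x hx
    rw [Submodule.mem_annihilator]
    intro n hn
    obtain ⟨y, rfl⟩ := hmem n hn
    rw [smul_eq_mul]
    linear_combination y * hx
  · rw [hβ, hγ, hκ] at hab
    linear_combination -hab

end Pool.Agent.T2h77
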