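import Pool.Agent.T2h77.Index

/-!
# Double counting, traces, level sums
-/

set_option autoImplicit false
set_option linter.unusedSectionVars false

open Matrix
open scoped MatrixGroups

noncomputable section

namespace Pool.Agent.T2h77

namespace Cnt

/-! ### Double counting -/

section dbl

variable {Λ G : Type} [Group Λ] [Group G] [Finite G] (f : Λ →* G) (Γ : Subgroup Λ)

theorem mem_of_map (hΓ : f.ker ≤ Γ) (x : Λ) (hx : f x ∈ Γ.map f) : x ∈ Γ := by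
  obtain ⟨y, hy, hxy⟩ := hx
  have h1 : y⁻¹ * x ∈ f.ker := by
    rw [MonoidHom.mem_ker, map_mul, map_inv, hxy, inv_mul_cancel]
  have h2 := Γ.mul_mem hy (hΓ h1)
  rwa [mul_inv_cancel_left] at h2

theorem one (hΓ : f.ker ≤ Γ) (S : Finset G) (hS : ∀ h, h ∈ S ↔ h ∈ Γ.map f) (D : G)
    (p : Λ ⧸ Γ → Prop) (hp : ∀ x, p x → (f x.out)⁻¹ * D * f x.out ∈ Γ.map f) :
    S.card * Nat.card {x : Λ ⧸ Γ // p x} ≤ Nat.card {g : G // g⁻¹ * D * g ∈ S} := by
  have h1 : S.card * Nat.card {x : Λ ⧸ Γ // p x} = Nat.card (S × {x : Λ ⧸ Γ // p x}) := by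
    rw [Nat.card_prod, Nat.card_eq_fintype_card (α := S), Fintype.card_coe]
  rw [h1]
  refine Nat.card_le_card_of_injective
    (fun q : S × {x : Λ ⧸ Γ // p x} =>
      (⟨f q.2.1.out * q.1.1, ?_⟩ : {g : G // g⁻¹ * D * g ∈ S})) ?_
  · rw [hS]
    have h2 := hp q.2.1 q.2.2
    have h3 : (f q.2.1.out * q.1.1)⁻¹ * D * (f q.2.1.out * q.1.1) =
        (q.1.1)⁻¹ * ((f q.2.1.out)⁻¹ * D * f q.2.1.out) * q.1.1 := by
      group
    rw [h3]
    have h4 : q.1.1 ∈ Γ.map f := (hS _).1 q.1.2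
    exact Subgroup.mul_mem _ (Subgroup.mul_mem _ (Subgroup.inv_mem _ h4) h2) h4
  · rintro ⟨h, x⟩ ⟨h', x'⟩ hh
    have h2 : f x.1.out * h.1 = f x'.1.out * h'.1 := congrArg Subtype.val hh
    have h3 : f ((x.1.out)⁻¹ * x'.1.out) = h.1 * (h'.1)⁻¹ := by
      rw [map_mul, map_inv]
      rw [eq_mul_inv_iff_mul_eq, mul_assoc, ← h2, inv_mul_cancel_left]
    have h4 : (x.1.out)⁻¹ * x'.1.out ∈ Γ := by
      refine mem_of_map f Γ hΓ _ ?_
      rw [h3]
      exact Subgroup.mul_mem _ ((hS _).1 h.2) (Subgroup.inv_mem _ ((hS _).1 h'.2))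
    have h5 : x = x' := by
      apply Subtype.ext
      have h6 := QuotientGroup.eq.2 h4
      rwa [QuotientGroup.out_eq', QuotientGroup.out_eq'] at h6
    subst h5
    have h6 := mul_left_cancel h2
    have h7 : h = h' := Subtype.ext h6
    rw [h7]

theorem aux (g0 g D h : G) (h1 : g0⁻¹ * D * g0 = h)
    (h2 : g⁻¹ * D * g = h) : g0⁻¹ * g * h = h * (g0⁻¹ * g) := by
  have h4 : D * g = g * h := by
    rw [← h2]
    group
  calc g0⁻¹ * g * h = g0⁻¹ * (g * h) := by group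
    _ = g0⁻¹ * (D * g) := by rw [h4]
    _ = g0⁻¹ * D * g0 * (g0⁻¹ * g) := by group
    _ = h * (g0⁻¹ * g) := by rw [h1]

theorem two (D h : G) :
    Nat.card {g : G // g⁻¹ * D * g = h} ≤
      (open Classical in if IsConj D h then Nat.card {g : G // g * h = h * g} else 0) := by
  classical
  by_cases hc : ∃ g0 : G, g0⁻¹ * D * g0 = h
  · obtain ⟨g0, hg0⟩ := hc
    have h1 : IsConj D h := by
      rw [isConj_iff]
      refine ⟨g0⁻¹, ?_⟩
      rw [inv_inv]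
      exact hg0
    rw [if_pos h1]
    refine Nat.card_le_card_of_injective
      (fun g : {g : G // g⁻¹ * D * g = h} =>
        (⟨g0⁻¹ * g.1, ?_⟩ : {g : G // g * h = h * g})) ?_
    · exact aux g0 g.1 D h hg0 g.2
    · intro a b hab
      have h2 : g0⁻¹ * a.1 = g0⁻¹ * b.1 := congrArg Subtype.val hab
      exact Subtype.ext (mul_left_cancel h2)
  · have h1 : IsEmpty {g : G // g⁻¹ * D * g = h} :=
      ⟨fun g => hc ⟨g.1, g.2⟩⟩
    rw [Nat.card_of_isEmpty]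
    exact Nat.zero_le _

theorem three (S : Finset G) (D : G) :
    Nat.card {g : G // g⁻¹ * D * g ∈ S} = ∑ h ∈ S, Nat.card {g : G // g⁻¹ * D * g = h} := by
  classical
  have := Fintype.ofFinite G
  have h1 : Nat.card {g : G // g⁻¹ * D * g ∈ S} =
      (Finset.univ.filter fun g : G => g⁻¹ * D * g ∈ S).card :=
    Nat.subtype_card _ (by simp)
  rw [h1, Finset.card_eq_sum_card_fiberwise (f := fun g => g⁻¹ * D * g) (t := S)
    (by intro g hg; simpa using hg)]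
  refine Finset.sum_congr rfl fun h hh => ?_
  symm
  refine Nat.subtype_card _ ?_
  intro g
  simp only [Finset.mem_filter, Finset.mem_univ, true_and]
  constructor
  · exact fun h2 => h2.2
  · intro h2
    exact ⟨by rw [h2]; exact hh, h2⟩

open Classical in
/-- double counting of fixed points -/
theorem dbl (hΓ : f.ker ≤ Γ) (S : Finset G) (hS : ∀ h, h ∈ S ↔ h ∈ Γ.map f) {ι : Type} (s : Finset ι)
    (D : ι → G) (p : ι → Λ ⧸ Γ → Prop)
    (hp : ∀ i x, p i x → (f x.out)⁻¹ * D i * f x.out ∈ Γ.map f) :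
    S.card * ∑ i ∈ s, Nat.card {x : Λ ⧸ Γ // p i x} ≤
      ∑ h ∈ S, Nat.card {g : G // g * h = h * g} * (s.filter fun i => IsConj (D i) h).card := by
  rw [Finset.mul_sum]
  calc ∑ i ∈ s, S.card * Nat.card {x : Λ ⧸ Γ // p i x} ≤
      ∑ i ∈ s, ∑ h ∈ S, (if IsConj (D i) h then Nat.card {g : G // g * h = h * g} else 0) := by
        refine Finset.sum_le_sum fun i _ => ?_
        refine (one f Γ hΓ S hS (D i) (p i) (hp i)).trans ?_
        rw [three]
        exact Finset.sum_le_sum fun h _ => two _ h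
    _ = ∑ h ∈ S, Nat.card {g : G // g * h = h * g} * (s.filter fun i => IsConj (D i) h).card := by
        rw [Finset.sum_comm]
        refine Finset.sum_congr rfl fun h _ => ?_
        rw [← Finset.sum_filter, Finset.sum_const, smul_eq_mul, mul_comm]

end dbl

/-! ### Traces -/

section trace

variable {R : Type} [CommRing R]

theorem trace (𝔫 m : Ideal R) (hnm : 𝔫 ≤ m) (δ δ' : SL(2, R))
    (hred : ∀ i j, δ' i j - δ i j ∈ 𝔫) (h01 : δ 0 1 ∈ m) (h10 : δ 1 0 ∈ m)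
    (hd : δ 0 0 - δ 1 1 ∈ m) : (δ 0 0 + δ 1 1) - (δ' 0 0 + δ' 1 1) ∈ 𝔫 * m := by
  have hdet : δ 0 0 * δ 1 1 - δ 0 1 * δ 1 0 = 1 := by
    have := δ.det_coe; rwa [Matrix.det_fin_two] at this
  have hdet' : δ' 0 0 * δ' 1 1 - δ' 0 1 * δ' 1 0 = 1 := by
    have := δ'.det_coe; rwa [Matrix.det_fin_two] at this
  set a := δ 0 0
  set b := δ 0 1
  set c := δ 1 0
  set d := δ 1 1
  obtain ⟨z00, e00⟩ : ∃ z, δ' 0 0 = a + z := ⟨δ' 0 0 - a, by ring⟩
  obtain ⟨z01, e01⟩ : ∃ z, δ' 0 1 = b + z := ⟨δ' 0 1 - b, by ring⟩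
  obtain ⟨z10, e10⟩ : ∃ z, δ' 1 0 = c + z := ⟨δ' 1 0 - c, by ring⟩
  obtain ⟨z11, e11⟩ : ∃ z, δ' 1 1 = d + z := ⟨δ' 1 1 - d, by ring⟩
  have m00 : z00 ∈ 𝔫 := by have := hred 0 0; rwa [e00, add_sub_cancel_left] at this
  have m01 : z01 ∈ 𝔫 := by have := hred 0 1; rwa [e01, add_sub_cancel_left] at this
  have m10 : z10 ∈ 𝔫 := by have := hred 1 0; rwa [e10, add_sub_cancel_left] at this
  have m11 : z11 ∈ 𝔫 := by have := hred 1 1; rwa [e11, add_sub_cancel_left] at this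
  rw [e00, e01, e10, e11] at hdet'
  rw [e00, e11]
  have k1 : d * (z00 + z11) ∈ 𝔫 * m := by
    have : d * (z00 + z11) = z10 * b + z01 * c - z00 * z11 + z01 * z10 - z11 * (a - d) := by
      linear_combination hdet' - hdet
    rw [this]
    refine Ideal.sub_mem _ (Ideal.add_mem _ (Ideal.sub_mem _ (Ideal.add_mem _ ?_ ?_) ?_) ?_) ?_
    · exact Ideal.mul_mem_mul m10 h01
    · exact Ideal.mul_mem_mul m01 h10
    · exact Ideal.mul_mem_mul m00 (hnm m11)
    · exact Ideal.mul_mem_mul m01 (hnm m10)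
    · exact Ideal.mul_mem_mul m11 hd
  have k2 : z00 + z11 ∈ 𝔫 * m := by
    have : z00 + z11 = a * (d * (z00 + z11)) - ((z00 + z11) * b) * c := by
      linear_combination (-(z00 + z11)) * hdet
    rw [this]
    refine Ideal.sub_mem _ (Ideal.mul_mem_left _ _ k1) (Ideal.mul_mem_right _ _ ?_)
    exact Ideal.mul_mem_mul (𝔫.add_mem m00 m11) h01
  have : (a + d) - ((a + z00) + (d + z11)) = -(z00 + z11) := by ring
  rw [this]
  exact Ideal.neg_mem_iff _ |>.2 k2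

/-- conjugates of a matrix which is scalar modulo an ideal -/
theorem conj_scalar (I : Ideal R) (g h : SL(2, R)) (h01 : h 0 1 ∈ I) (h10 : h 1 0 ∈ I)
    (hd : h 0 0 - h 1 1 ∈ I) : (g * h * g⁻¹) 0 1 ∈ I ∧ (g * h * g⁻¹) 1 0 ∈ I ∧
      (g * h * g⁻¹) 0 0 - (g * h * g⁻¹) 1 1 ∈ I := by
  have hdet : g 0 0 * g 1 1 - g 0 1 * g 1 0 = 1 := by
    have := g.det_coe; rwa [Matrix.det_fin_two] at this
  have e : ∀ i j, (g * h * g⁻¹) i j =
      (g i 0 * h 0 0 + g i 1 * h 1 0) * g⁻¹ 0 j + (g i 0 * h 0 1 + g i 1 * h 1 1) * g⁻¹ 1 j := by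
    intro i j
    rw [Matrix.SpecialLinearGroup.coe_mul, Matrix.SpecialLinearGroup.coe_mul, Matrix.mul_apply,
      Fin.sum_univ_two, Matrix.mul_apply, Matrix.mul_apply, Fin.sum_univ_two, Fin.sum_univ_two]
  have i00 : g⁻¹ 0 0 = g 1 1 := by
    rw [Matrix.SpecialLinearGroup.coe_inv, Matrix.adjugate_fin_two]; rfl
  have i01 : g⁻¹ 0 1 = - g 0 1 := by
    rw [Matrix.SpecialLinearGroup.coe_inv, Matrix.adjugate_fin_two]; rfl
  have i10 : g⁻¹ 1 0 = - g 1 0 := by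
    rw [Matrix.SpecialLinearGroup.coe_inv, Matrix.adjugate_fin_two]; rfl
  have i11 : g⁻¹ 1 1 = g 0 0 := by
    rw [Matrix.SpecialLinearGroup.coe_inv, Matrix.adjugate_fin_two]; rfl
  rw [e, e, e, e, i00, i01, i10, i11]
  refine ⟨?_, ?_, ?_⟩
  · have : (g 0 0 * h 0 0 + g 0 1 * h 1 0) * (-g 0 1) + (g 0 0 * h 0 1 + g 0 1 * h 1 1) * g 0 0 =
        g 0 0 ^ 2 * h 0 1 - g 0 1 ^ 2 * h 1 0 - g 0 0 * g 0 1 * (h 0 0 - h 1 1) := by ring
    rw [this]
    exact I.sub_mem (I.sub_mem (I.mul_mem_left _ h01) (I.mul_mem_left _ h10)) (I.mul_mem_left _ hd)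
  · have : (g 1 0 * h 0 0 + g 1 1 * h 1 0) * g 1 1 + (g 1 0 * h 0 1 + g 1 1 * h 1 1) * (-g 1 0) =
        g 1 1 ^ 2 * h 1 0 - g 1 0 ^ 2 * h 0 1 + g 1 0 * g 1 1 * (h 0 0 - h 1 1) := by ring
    rw [this]
    exact I.add_mem (I.sub_mem (I.mul_mem_left _ h10) (I.mul_mem_left _ h01)) (I.mul_mem_left _ hd)
  · have : (g 0 0 * h 0 0 + g 0 1 * h 1 0) * g 1 1 + (g 0 0 * h 0 1 + g 0 1 * h 1 1) * (-g 1 0) -
        ((g 1 0 * h 0 0 + g 1 1 * h 1 0) * (-g 0 1) + (g 1 0 * h 0 1 + g 1 1 * h 1 1) * g 0 0) =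
        2 * g 0 1 * g 1 1 * h 1 0 - 2 * g 0 0 * g 1 0 * h 0 1 +
          (g 0 0 * g 1 1 + g 0 1 * g 1 0) * (h 0 0 - h 1 1) := by ring
    rw [this]
    exact I.add_mem (I.sub_mem (I.mul_mem_left _ h10) (I.mul_mem_left _ h01)) (I.mul_mem_left _ hd)

theorem lev_mem (h : SL(2, R)) : h 0 1 ∈ lev h ∧ h 1 0 ∈ lev h ∧ h 0 0 - h 1 1 ∈ lev h :=
  ⟨Ideal.subset_span (by simp), Ideal.subset_span (by simp), Ideal.subset_span (by simp)⟩

theorem tr_conj (g h : SL(2, R)) : (g * h * g⁻¹) 0 0 + (g * h * g⁻¹) 1 1 = h 0 0 + h 1 1 := by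
  have h1 : Matrix.trace (g * h * g⁻¹).1 = Matrix.trace h.1 := by
    rw [Matrix.SpecialLinearGroup.coe_mul, Matrix.SpecialLinearGroup.coe_mul, Matrix.trace_mul_comm,
      ← mul_assoc, ← Matrix.SpecialLinearGroup.coe_mul, inv_mul_cancel,
      Matrix.SpecialLinearGroup.coe_one, one_mul]
  rw [Matrix.trace_fin_two, Matrix.trace_fin_two] at h1
  exact h1

end trace

/-! ### The order of `SL₂` -/

section order

variable {A : Type} [CommRing A] [Finite A]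

theorem card_SL_ge : Nat.card A ^ 2 * Nat.card Aˣ ≤ Nat.card SL(2, A) := by
  have hfin : Finite SL(2, A) := Finite.of_injective
    (fun g : SL(2, A) => (g : Matrix (Fin 2) (Fin 2) A)) Subtype.val_injective
  have h1 : Nat.card A ^ 2 * Nat.card Aˣ = Nat.card ((A × A) × Aˣ) := by
    rw [Nat.card_prod, Nat.card_prod, sq]
  rw [h1]
  refine Nat.card_le_card_of_injective (fun p : (A × A) × Aˣ =>
    (⟨!![(p.2 : A), p.2 * p.1.2; p.1.1 * p.2, ((p.2⁻¹ : Aˣ) : A) + p.1.1 * p.2 * p.1.2], ?_⟩ : SL(2, A))) ?_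
  · rw [Matrix.det_fin_two]
    simp only [Matrix.of_apply, Matrix.cons_val', Matrix.cons_val_zero, Matrix.cons_val_one,
      Matrix.cons_val_fin_one]
    have := p.2.mul_inv
    linear_combination this
  · rintro ⟨⟨x, y⟩, u⟩ ⟨⟨x', y'⟩, u'⟩ h
    have h00 := congrArg (fun M : SL(2, A) => M.1 0 0) h
    have h01 := congrArg (fun M : SL(2, A) => M.1 0 1) h
    have h10 := congrArg (fun M : SL(2, A) => M.1 1 0) h
    simp at h00 h01 h10
    have hu : u = u' := Units.ext h00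
    subst hu
    have hy : y = y' := by simpa using h01
    have hx : x = x' := by simpa using h10
    rw [hx, hy]

end order

end Cnt

end Pool.Agent.T2h77
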