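import Pool.Agent.T2h77.Defs

/-!
# The density theorem for `SL₂` over number fields: statements of the steps
-/

set_option autoImplicit false

open NumberField NumberField.mixedEmbedding MeasureTheory Matrix
open scoped MatrixGroups ENNReal

noncomputable section

namespace Pool.Agent.T2h77

/-! ### Finite rings -/

/-- upper unipotent matrices -/
def nU {A : Type} [CommRing A] (x : A) : SL(2, A) := ⟨!![1, x; 0, 1], by simp [Matrix.det_fin_two]⟩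

/-- lower unipotent matrices -/
def nL {A : Type} [CommRing A] (x : A) : SL(2, A) := ⟨!![1, 0; x, 1], by simp [Matrix.det_fin_two]⟩

/-- diagonal matrices -/
def tD {A : Type} [CommRing A] (u : Aˣ) : SL(2, A) :=
  ⟨!![(u : A), 0; 0, ((u⁻¹ : Aˣ) : A)], by simp [Matrix.det_fin_two]⟩

/-- reduction modulo an ideal -/
abbrev rd {A : Type} [CommRing A] (I : Ideal A) : SL(2, A) →* SL(2, A ⧸ I) :=
  Matrix.SpecialLinearGroup.map (Ideal.Quotient.mk I)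

/-- the ideal generated by the entries of `h` modulo scalars -/
def lev {A : Type} [CommRing A] (h : SL(2, A)) : Ideal A :=
  Ideal.span {h 0 1, h 1 0, h 0 0 - h 1 1}

/-- A1: relative elementary generation -/
def S_gen : Prop :=
  ∀ (A : Type) [CommRing A] [Finite A] (T : Ideal A) (H : Subgroup SL(2, A)),
    (∀ (g : SL(2, A)) (x : A), x ∈ T → g * nU x * g⁻¹ ∈ H) → (rd T).ker ≤ H

/-- A2: strong approximation -/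
def S_surj : Prop :=
  ∀ (K : Type) [Field K] [NumberField K] (𝔫 : Ideal (𝓞 K)), 𝔫 ≠ ⊥ → Function.Surjective (rd 𝔫)

/-- A3: centralisers -/
def S_cent : Prop :=
  ∀ (A : Type) [CommRing A] [Finite A] [IsPrincipalIdealRing A] (h : SL(2, A)),
    Nat.card {g : SL(2, A) // g * h = h * g} * Nat.card Aˣ ≤
      Nat.card {u : A // u ^ 2 = 1} * (Nat.card A * Nat.card (A ⧸ lev h)) ^ 2

/-- A4: characters of an ideal of `𝓞 K ⧸ 𝔫`, trivial on a subgroup which contains no ideal -/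
def S_psi : Prop :=
  ∀ (K : Type) [Field K] [NumberField K], ∃ c : ℕ, ∀ 𝔫 : Ideal (𝓞 K), 𝔫 ≠ ⊥ →
    ∀ (m : Ideal (𝓞 K ⧸ 𝔫)) (B : AddSubgroup (𝓞 K ⧸ 𝔫)),
      (∀ T : Ideal (𝓞 K ⧸ 𝔫), T ≠ ⊥ → T ≤ m → ∃ x ∈ T, x ∉ B) →
      ∃ ψ : AddChar m ℂ, (∀ x : m, (x : 𝓞 K ⧸ 𝔫) ∈ B → ψ x = 1) ∧
        ∀ T : Ideal (𝓞 K ⧸ 𝔫), T ≤ m → (∀ x : m, (x : 𝓞 K ⧸ 𝔫) ∈ T → ψ x = 1) → Nat.card T ≤ c

/-- A5: the index lemma. If every nonzero ideal `T` has a conjugate of some `nU x`, `x ∈ T`, outside `H`,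
then the congruence subgroups of `H` are small. -/
def S_index : Prop :=
  ∀ (A : Type) [CommRing A] [Finite A] [IsPrincipalIdealRing A] (M c : ℕ),
    (∀ J : Ideal A, Nat.card {u : A ⧸ J // u ^ 2 = 1} ≤ M) →
    (∀ (m : Ideal A) (B : AddSubgroup A), (∀ T : Ideal A, T ≠ ⊥ → T ≤ m → ∃ x ∈ T, x ∉ B) →
      ∃ ψ : AddChar m ℂ, (∀ x : m, (x : A) ∈ B → ψ x = 1) ∧
        ∀ T : Ideal A, T ≤ m → (∀ x : m, (x : A) ∈ T → ψ x = 1) → Nat.card T ≤ c) →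
    ∀ (H : Subgroup SL(2, A)), (∀ T : Ideal A, T ≠ ⊥ → ∃ (g : SL(2, A)) (x : A), x ∈ T ∧ g * nU x * g⁻¹ ∉ H) →
    ∀ m : Ideal A, Nat.card (H ⊓ (rd m).ker : Subgroup SL(2, A)) * Nat.card (A ⧸ m) * Nat.card Aˣ ^ 2 ≤
      M * c * Nat.card A ^ 4

/-- A6: the number of ideal divisors -/
def S_div : Prop :=
  ∀ (K : Type) [Field K] [NumberField K] (ε : ℝ), 0 < ε → ∃ C : ℝ, 0 < C ∧ ∀ 𝔫 : Ideal (𝓞 K), 𝔫 ≠ ⊥ →
    (Nat.card (Ideal (𝓞 K ⧸ 𝔫)) : ℝ) ≤ C * (Ideal.absNorm 𝔫 : ℝ) ^ ε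

/-- A7: square roots of one -/
def S_sqrt : Prop :=
  ∀ (K : Type) [Field K] [NumberField K] (ε : ℝ), 0 < ε → ∃ C : ℝ, 0 < C ∧ ∀ 𝔫 : Ideal (𝓞 K), 𝔫 ≠ ⊥ →
    (Nat.card {u : 𝓞 K ⧸ 𝔫 // u ^ 2 = 1} : ℝ) ≤ C * (Ideal.absNorm 𝔫 : ℝ) ^ ε

/-- A8: the number of units -/
def S_unit : Prop :=
  ∀ (K : Type) [Field K] [NumberField K] (ε : ℝ), 0 < ε → ∃ C : ℝ, 0 < C ∧ ∀ 𝔫 : Ideal (𝓞 K), 𝔫 ≠ ⊥ →
    (Ideal.absNorm 𝔫 : ℝ) ≤ C * (Ideal.absNorm 𝔫 : ℝ) ^ ε * (Nat.card (𝓞 K ⧸ 𝔫)ˣ : ℝ)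

/-! ### Lattice points -/

/-- P1: integers in a box congruent modulo `I` -/
def S_box : Prop :=
  ∀ (K : Type) [Field K] [NumberField K] (v : InfinitePlace K) (C₀ : ℝ), ∃ C : ℝ, 0 < C ∧
    ∀ (I : Ideal (𝓞 K)), I ≠ ⊥ → ∀ X : ℝ, 0 ≤ X → ∀ s : Finset (𝓞 K),
      (∀ x ∈ s, v (x : K) ^ v.mult ≤ X ∧ ∀ w, w ≠ v → w (x : K) ≤ C₀) →
      (∀ x ∈ s, ∀ y ∈ s, x - y ∈ I) → (s.card : ℝ) ≤ C * (1 + X / Ideal.absNorm I)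

/-- P2: factorisations in a box -/
def S_fac : Prop :=
  ∀ (K : Type) [Field K] [NumberField K] (v : InfinitePlace K) (C₀ ε : ℝ), 0 < ε → ∃ C : ℝ, 0 < C ∧
    ∀ X : ℝ, 1 ≤ X → ∀ k : 𝓞 K, k ≠ 0 → ∀ s : Finset (𝓞 K × 𝓞 K),
      (∀ x ∈ s, x.1 * x.2 = k ∧ v (x.1 : K) ^ v.mult ≤ X ∧ v (x.2 : K) ^ v.mult ≤ X ∧
        ∀ w, w ≠ v → w (x.1 : K) ≤ C₀ ∧ w (x.2 : K) ≤ C₀) → (s.card : ℝ) ≤ C * X ^ ε

/-- P3: integer matrices which are scalar modulo `m`, with prescribed trace modulo `𝔫 m` -/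
def S_points : Prop :=
  ∀ (K : Type) [Field K] [NumberField K] (v : InfinitePlace K) (C₀ ε : ℝ), 0 < ε → ∃ C : ℝ, 0 < C ∧
    ∀ (𝔫 m : Ideal (𝓞 K)), 𝔫 ≠ ⊥ → m ≠ ⊥ → ∀ (t : 𝓞 K) (X : ℝ), 1 ≤ X → ∀ s : Finset SL(2, 𝓞 K),
      (∀ δ ∈ s, δ ≠ 1 ∧ δ ≠ -1 ∧ mn v (io K δ) ^ v.mult ≤ X ∧ (∀ w, w ≠ v → mn w (io K δ) ≤ C₀) ∧
        δ 0 1 ∈ m ∧ δ 1 0 ∈ m ∧ δ 0 0 - δ 1 1 ∈ m ∧ δ 0 0 + δ 1 1 - t ∈ 𝔫 * m) →
      (s.card : ℝ) ≤ C * X ^ ε * (X / Ideal.absNorm m) * (1 + X / (Ideal.absNorm 𝔫 * Ideal.absNorm m))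

/-- the number of fixed points of `δ` on `SL(2,𝓞 K) ⧸ Γ` -/
def fix {K : Type} [Field K] [NumberField K] (Γ : Subgroup SL(2, 𝓞 K)) (δ : SL(2, 𝓞 K)) : ℕ :=
  Nat.card {x : SL(2, 𝓞 K) ⧸ Γ // δ • x = x}

/-- A9: the counting theorem -/
def S_count : Prop :=
  ∀ (K : Type) [Field K] [NumberField K] (v : InfinitePlace K) (C₀ ε : ℝ), 0 < ε → ∃ C : ℝ, 0 < C ∧
    ∀ Γ : Subgroup SL(2, 𝓞 K), IsCongr Γ → ∀ X : ℝ, 1 ≤ X → ∀ s : Finset SL(2, 𝓞 K),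
      (∀ δ ∈ s, δ ≠ 1 ∧ δ ≠ -1 ∧ mn v (io K δ) ^ v.mult ≤ X ∧ ∀ w, w ≠ v → mn w (io K δ) ≤ C₀) →
      ∑ δ ∈ s, (fix Γ δ : ℝ) ≤ C * (Γ.index * X) ^ ε * (Γ.index * X + X ^ 2)

/-! ### The group `SL₂(K ⊗ ℝ)` -/

/-- B1: the Haar measure is right invariant -/
def S_unimod : Prop :=
  ∀ (K : Type) [Field K] [NumberField K], (mu K).IsMulRightInvariant

/-- the radii: `ρ` at `v`, `ρ₀` at the other places -/
def rad {K : Type} [Field K] [NumberField K] (v : InfinitePlace K) (ρ ρ₀ : ℝ) : InfinitePlace K → ℝ :=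
  open Classical in fun w => if w = v then ρ else ρ₀

/-- B2: the volume of the balls -/
def S_vol : Prop :=
  ∀ (K : Type) [Field K] [NumberField K] (v : InfinitePlace K) (ρ₀ : ℝ), √2 < ρ₀ →
    ∃ c C : ℝ, 0 < c ∧ 0 < C ∧ ∀ ρ : ℝ, 2 ≤ ρ →
      ENNReal.ofReal (c * ρ ^ (2 * v.mult)) ≤ mu K (ball (rad v ρ ρ₀)) ∧
        mu K (ball (rad v ρ ρ₀)) ≤ ENNReal.ofReal (C * ρ ^ (2 * v.mult))

/-- B3: the integral of `‖z h‖_v ^ (-d_v)` over the balls -/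
def S_xi : Prop :=
  ∀ (K : Type) [Field K] [NumberField K] (v : InfinitePlace K) (ρ₀ : ℝ), √2 < ρ₀ →
    ∃ C : ℝ, 0 < C ∧ ∀ ρ : ℝ, 2 ≤ ρ → ∀ z : Fin 2 → mixedSpace K, rn v z ≠ 0 →
      ∫⁻ h in ball (rad v ρ ρ₀), ENNReal.ofReal ((rn v (Matrix.vecMul z h.1) ^ v.mult)⁻¹) ∂(mu K) ≤
        ENNReal.ofReal (C * ρ ^ v.mult * (1 + Real.log ρ) * (rn v z ^ v.mult)⁻¹)

/-- the row vector `x`, embedded -/
def emb (K : Type) [Field K] [NumberField K] (x : Fin 2 → 𝓞 K) : Fin 2 → mixedSpace K :=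
  fun i => mixedEmbedding K (x i : K)

/-- the product of the norms of the row vector `x g` -/
def nn {K : Type} [Field K] [NumberField K] (x : Fin 2 → 𝓞 K) (g : GG K) : ℝ :=
  ∏ w : InfinitePlace K, rn w (Matrix.vecMul (emb K x) g.1) ^ w.mult

/-- the norm of the ideal generated by the entries -/
def na {K : Type} [Field K] [NumberField K] (x : Fin 2 → 𝓞 K) : ℝ :=
  (Ideal.absNorm (Ideal.span {x 0, x 1}) : ℝ)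

/-- the height of `g` with respect to all cusps is at most `Y` -/
def Wle {K : Type} [Field K] [NumberField K] (Y : ℝ) (g : GG K) : Prop :=
  ∀ x : Fin 2 → 𝓞 K, x ≠ 0 → na x ≤ Y * nn x g

/-- B4: reduction theory -/
def S_red : Prop :=
  ∀ (K : Type) [Field K] [NumberField K] (Y : ℝ), ∃ Ω : Set (GG K), IsCompact Ω ∧
    ∀ g : GG K, Wle Y g → ∃ γ : SL(2, 𝓞 K), io K γ * g ∈ Ω

end Pool.Agent.T2h77
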