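import Pool.Agent.T2h77.Cnt1
import Pool.Agent.T2h77.Stm

/-!
# The level sums and the core inequality
-/

set_option autoImplicit false
set_option linter.unusedSectionVars false

open Matrix NumberField
open scoped MatrixGroups

noncomputable section

namespace Pool.Agent.T2h77

namespace Cnt

section lev

variable {A : Type} [CommRing A] [Finite A]

theorem entry_rd (J : Ideal A) (h : SL(2, A)) (i j : Fin 2) :
    (rd J h) i j = Ideal.Quotient.mk J (h i j) := rfl

theorem card_lev_le (H : Subgroup SL(2, A)) (J : Ideal A) (M : ℕ)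
    (hM : Nat.card {u : A ⧸ J // u ^ 2 = 1} ≤ M) (S : Finset SL(2, A)) (hS : ∀ h ∈ S, h ∈ H) :
    (open Classical in (S.filter fun h => lev h = J).card) ≤
      M * Nat.card (H ⊓ (rd J).ker : Subgroup SL(2, A)) := by
  classical
  have hfin : Finite SL(2, A) := Finite.of_injective
    (fun g : SL(2, A) => (g : Matrix (Fin 2) (Fin 2) A)) Subtype.val_injective
  have : Finite (A ⧸ J) := Quotient.finite _
  have := Fintype.ofFinite (A ⧸ J)
  set T : Finset (A ⧸ J) := Finset.univ.filter fun u => u ^ 2 = 1 with hT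
  have hTc : T.card ≤ M := by
    refine le_trans (le_of_eq ?_) hM
    exact (Nat.subtype_card _ (by simp [hT])).symm
  have hsc : ∀ h : SL(2, A), lev h = J → Ideal.Quotient.mk J (h 0 1) = 0 ∧
      Ideal.Quotient.mk J (h 1 0) = 0 ∧ Ideal.Quotient.mk J (h 0 0) = Ideal.Quotient.mk J (h 1 1) := by
    intro h hh
    obtain ⟨m1, m2, m3⟩ := lev_mem h
    rw [hh] at m1 m2 m3
    exact ⟨Ideal.Quotient.eq_zero_iff_mem.2 m1, Ideal.Quotient.eq_zero_iff_mem.2 m2,
      Ideal.Quotient.eq.2 m3⟩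
  have hmain : (S.filter fun h => lev h = J).card ≤
      Nat.card (H ⊓ (rd J).ker : Subgroup SL(2, A)) * T.card := by
    refine Finset.card_le_mul_card_image_of_maps_to
      (f := fun h : SL(2, A) => Ideal.Quotient.mk J (h 0 0)) ?_ _ ?_
    · intro h hh
      rw [Finset.mem_filter] at hh
      obtain ⟨e1, e2, e3⟩ := hsc h hh.2
      rw [hT, Finset.mem_filter]
      refine ⟨Finset.mem_univ _, ?_⟩
      have hdet := h.2
      rw [Matrix.det_fin_two] at hdet
      have h5 := congrArg (Ideal.Quotient.mk J) hdet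
      rw [map_sub, map_mul, map_mul, map_one] at h5
      change Ideal.Quotient.mk J (h 0 0) * Ideal.Quotient.mk J (h 1 1) -
        Ideal.Quotient.mk J (h 0 1) * Ideal.Quotient.mk J (h 1 0) = 1 at h5
      rw [e1, ← e3, zero_mul, sub_zero] at h5
      rw [sq]
      exact h5
    · intro b _
      set F := (S.filter fun h => lev h = J).filter
        (fun h : SL(2, A) => Ideal.Quotient.mk J (h 0 0) = b) with hF
      rcases F.eq_empty_or_nonempty with he | ⟨h0, hh0⟩
      · rw [he]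
        simp
      · have hred : ∀ h ∈ F, rd J h = rd J h0 := by
          intro h hh
          rw [hF, Finset.mem_filter, Finset.mem_filter] at hh hh0
          obtain ⟨e1, e2, e3⟩ := hsc h hh.1.2
          obtain ⟨e1', e2', e3'⟩ := hsc h0 hh0.1.2
          ext i j
          rw [entry_rd, entry_rd]
          fin_cases i <;> fin_cases j
          · exact hh.2.trans hh0.2.symm
          · exact e1.trans e1'.symm
          · exact e2.trans e2'.symm
          · exact (e3.symm.trans (hh.2.trans hh0.2.symm)).trans e3'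
        have hFc : F.card = Nat.card F := by rw [Nat.card_eq_fintype_card, Fintype.card_coe]
        rw [hFc]
        have hmem : ∀ h ∈ F, h ∈ H := by
          intro h hh
          rw [hF, Finset.mem_filter, Finset.mem_filter] at hh
          exact hS h hh.1.1
        refine Nat.card_le_card_of_injective (fun h : F =>
          (⟨(h : SL(2, A)) * h0⁻¹, ?_⟩ : (H ⊓ (rd J).ker : Subgroup SL(2, A)))) ?_
        · refine ⟨Subgroup.mul_mem _ (hmem _ h.2) (Subgroup.inv_mem _ (hmem _ hh0)), ?_⟩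
          change rd J ((h : SL(2, A)) * h0⁻¹) = 1
          rw [map_mul, map_inv, hred _ h.2, mul_inv_cancel]
        · intro x y hxy
          have := congrArg (fun z : (H ⊓ (rd J).ker : Subgroup SL(2, A)) => (z : SL(2, A))) hxy
          exact Subtype.ext (mul_right_cancel this)
  calc _ ≤ Nat.card (H ⊓ (rd J).ker : Subgroup SL(2, A)) * T.card := hmain
    _ ≤ Nat.card (H ⊓ (rd J).ker : Subgroup SL(2, A)) * M := Nat.mul_le_mul_left _ hTc
    _ = _ := mul_comm _ _

instance : Finite (Ideal A) := Finite.of_injective (fun I : Ideal A => (I : Set A)) SetLike.coe_injective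

theorem levsum (H : Subgroup SL(2, A)) (M B : ℕ) (hM : ∀ J : Ideal A, Nat.card {u : A ⧸ J // u ^ 2 = 1} ≤ M)
    (hidx : ∀ J : Ideal A, Nat.card (H ⊓ (rd J).ker : Subgroup SL(2, A)) * Nat.card (A ⧸ J) *
      Nat.card Aˣ ^ 2 ≤ B)
    (S : Finset SL(2, A)) (hS : ∀ h ∈ S, h ∈ H) :
    (∑ h ∈ S, Nat.card (A ⧸ lev h)) * Nat.card Aˣ ^ 2 ≤ Nat.card (Ideal A) * (M * B) := by
  classical
  have := Fintype.ofFinite (Ideal A)
  have e1 : ∑ h ∈ S, Nat.card (A ⧸ lev h) =
      ∑ J : Ideal A, ∑ h ∈ S.filter (fun h => lev h = J), Nat.card (A ⧸ lev h) :=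
    (Finset.sum_fiberwise_of_maps_to (fun h _ => Finset.mem_univ _) _).symm
  rw [e1, Finset.sum_mul]
  calc ∑ J : Ideal A, (∑ h ∈ S.filter (fun h => lev h = J), Nat.card (A ⧸ lev h)) * Nat.card Aˣ ^ 2
      ≤ ∑ J : Ideal A, M * B := by
        refine Finset.sum_le_sum fun J _ => ?_
        have e3 : ∑ h ∈ S.filter (fun h => lev h = J), Nat.card (A ⧸ lev h) =
            (S.filter (fun h => lev h = J)).card * Nat.card (A ⧸ J) := by
          rw [Finset.sum_congr rfl (fun h hh => by rw [(Finset.mem_filter.1 hh).2]), Finset.sum_const,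
            smul_eq_mul]
        rw [e3]
        calc (S.filter (fun h => lev h = J)).card * Nat.card (A ⧸ J) * Nat.card Aˣ ^ 2
            ≤ (M * Nat.card (H ⊓ (rd J).ker : Subgroup SL(2, A))) * Nat.card (A ⧸ J) *
                Nat.card Aˣ ^ 2 := by
              gcongr
              exact card_lev_le H J M (hM J) S hS
          _ = M * (Nat.card (H ⊓ (rd J).ker : Subgroup SL(2, A)) * Nat.card (A ⧸ J) *
                Nat.card Aˣ ^ 2) := by ring
          _ ≤ M * B := Nat.mul_le_mul_left _ (hidx J)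
    _ = Nat.card (Ideal A) * (M * B) := by
        rw [Finset.sum_const, smul_eq_mul, Finset.card_univ, Nat.card_eq_fintype_card]

end lev

/-! ### Quotients of the ring of integers -/

section quot

variable {K : Type} [Field K] [NumberField K]

theorem pir {𝔫 : Ideal (𝓞 K)} (h𝔫 : 𝔫 ≠ ⊥) : IsPrincipalIdealRing (𝓞 K ⧸ 𝔫) := by
  refine ⟨fun J => ?_⟩
  obtain ⟨a, ha⟩ := IsDedekindDomain.exists_sup_span_eq (I := 𝔫)
    (J := J.comap (Ideal.Quotient.mk 𝔫)) (fun x hx => by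
      rw [Ideal.mem_comap, Ideal.Quotient.eq_zero_iff_mem.2 hx]; exact J.zero_mem) h𝔫
  refine ⟨Ideal.Quotient.mk 𝔫 a, ?_⟩
  have h1 := congrArg (Ideal.map (Ideal.Quotient.mk 𝔫)) ha
  rw [Ideal.map_sup, Ideal.map_quotient_self, bot_sup_eq, Ideal.map_span, Set.image_singleton,
    Ideal.map_comap_of_surjective _ Ideal.Quotient.mk_surjective] at h1
  exact h1.symm

theorem card_comap (𝔫 : Ideal (𝓞 K)) (J : Ideal (𝓞 K ⧸ 𝔫)) :
    Ideal.absNorm (J.comap (Ideal.Quotient.mk 𝔫)) = Nat.card ((𝓞 K ⧸ 𝔫) ⧸ J) := by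
  have hs : Function.Surjective ((Ideal.Quotient.mk J).comp (Ideal.Quotient.mk 𝔫)) :=
    Ideal.Quotient.mk_surjective.comp Ideal.Quotient.mk_surjective
  have hk : RingHom.ker ((Ideal.Quotient.mk J).comp (Ideal.Quotient.mk 𝔫)) =
      J.comap (Ideal.Quotient.mk 𝔫) := by
    ext x
    rw [RingHom.mem_ker, RingHom.comp_apply, Ideal.Quotient.eq_zero_iff_mem, Ideal.mem_comap]
  rw [Ideal.absNorm_apply, Submodule.cardQuot_apply, ← hk]
  exact Nat.card_congr (RingHom.quotientKerEquivOfSurjective hs).toEquiv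

theorem le_comap (𝔫 : Ideal (𝓞 K)) (J : Ideal (𝓞 K ⧸ 𝔫)) : 𝔫 ≤ J.comap (Ideal.Quotient.mk 𝔫) :=
  fun x hx => by rw [Ideal.mem_comap, Ideal.Quotient.eq_zero_iff_mem.2 hx]; exact J.zero_mem

theorem comap_ne_bot {𝔫 : Ideal (𝓞 K)} (h𝔫 : 𝔫 ≠ ⊥) (J : Ideal (𝓞 K ⧸ 𝔫)) :
    J.comap (Ideal.Quotient.mk 𝔫) ≠ ⊥ := fun h => h𝔫 (le_bot_iff.1 (h ▸ le_comap 𝔫 J))

theorem card_sqrt_comap (𝔫 : Ideal (𝓞 K)) (J : Ideal (𝓞 K ⧸ 𝔫)) :
    Nat.card {u : (𝓞 K ⧸ 𝔫) ⧸ J // u ^ 2 = 1} ≤
      Nat.card {u : 𝓞 K ⧸ (J.comap (Ideal.Quotient.mk 𝔫)) // u ^ 2 = 1} ∨ 𝔫 = ⊥ := by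
  by_cases h𝔫 : 𝔫 = ⊥
  · exact Or.inr h𝔫
  left
  have hs : Function.Surjective ((Ideal.Quotient.mk J).comp (Ideal.Quotient.mk 𝔫)) :=
    Ideal.Quotient.mk_surjective.comp Ideal.Quotient.mk_surjective
  have hk : RingHom.ker ((Ideal.Quotient.mk J).comp (Ideal.Quotient.mk 𝔫)) =
      J.comap (Ideal.Quotient.mk 𝔫) := by
    ext x
    rw [RingHom.mem_ker, RingHom.comp_apply, Ideal.Quotient.eq_zero_iff_mem, Ideal.mem_comap]
  have : Finite (𝓞 K ⧸ (J.comap (Ideal.Quotient.mk 𝔫))) :=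
    Ideal.finiteQuotientOfFreeOfNeBot _ (comap_ne_bot h𝔫 J)
  rw [← hk] at this ⊢
  have e := (RingHom.quotientKerEquivOfSurjective hs).symm
  refine Nat.card_le_card_of_injective (fun u => ⟨e u.1, by rw [← map_pow, u.2, map_one]⟩) ?_
  intro u u' h
  exact Subtype.ext (e.injective (congrArg Subtype.val h))

theorem norm_comap_le {𝔫 : Ideal (𝓞 K)} (h𝔫 : 𝔫 ≠ ⊥) (J : Ideal (𝓞 K ⧸ 𝔫)) :
    Ideal.absNorm (J.comap (Ideal.Quotient.mk 𝔫)) ≤ Ideal.absNorm 𝔫 := by
  have h1 := Ideal.absNorm_dvd_absNorm_of_le (le_comap 𝔫 J)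
  have h2 : Ideal.absNorm 𝔫 ≠ 0 := by rwa [ne_eq, Ideal.absNorm_eq_zero_iff]
  exact Nat.le_of_dvd (Nat.pos_of_ne_zero h2) h1

theorem norm_eq_card (𝔫 : Ideal (𝓞 K)) : Ideal.absNorm 𝔫 = Nat.card (𝓞 K ⧸ 𝔫) := by
  rw [Ideal.absNorm_apply, Submodule.cardQuot_apply]

end quot

end Cnt

end Pool.Agent.T2h77
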