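import Pool.Agent.T2h77.Index

/-!
# Generation of `SL₂` of a finite ring by elementary matrices
-/

set_option autoImplicit false

open NumberField Matrix
open scoped MatrixGroups

noncomputable section

namespace Pool.Agent.T2h77

namespace GenA

variable {A : Type} [CommRing A]

theorem exists_unit [Finite A] (T : Ideal A) (a b c d : A) (hdet : a * d - b * c = 1)
    (ha : a - 1 ∈ T) : ∃ x ∈ T, IsUnit (a + x * c) := by
  classical
  have hI : Pairwise (Function.onFun IsCoprime fun P : MaximalSpectrum A => P.asIdeal) := by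
    intro P Q hPQ
    apply Ideal.isCoprime_of_isMaximal
    intro h
    exact hPQ (MaximalSpectrum.ext h)
  have : Finite (MaximalSpectrum A) := inferInstance
  obtain ⟨e, he⟩ := Ideal.exists_forall_sub_mem_ideal hI
    (fun P => if a ∈ P.asIdeal then (1 : A) else 0)
  refine ⟨e * (a - 1), T.mul_mem_left _ ha, ?_⟩
  by_contra hn
  obtain ⟨P, hP, hx⟩ := exists_max_ideal_of_mem_nonunits hn
  have h1 := he ⟨P, hP⟩
  by_cases haP : a ∈ P
  · simp only [if_pos haP] at h1
    have h2 : (1 : A) ∈ P := by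
      have : (1 : A) = a * d - b * c := hdet.symm
      have h3 : c ∈ P := by
        have h4 : c = -(a + e * (a - 1) * c) + a + (e * a - (e - 1)) * c := by ring
        rw [h4]
        exact P.add_mem (P.add_mem (P.neg_mem hx) haP)
          (P.mul_mem_right _ (P.sub_mem (P.mul_mem_left _ haP) h1))
      rw [this]
      exact P.sub_mem (P.mul_mem_right _ haP) (P.mul_mem_left _ h3)
    exact hP.ne_top ((Ideal.eq_top_iff_one P).2 h2)
  · simp only [if_neg haP, sub_zero] at h1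
    apply haP
    have h4 : a = (a + e * (a - 1) * c) - e * ((a - 1) * c) := by ring
    rw [h4]
    exact P.sub_mem hx (P.mul_mem_right _ h1)

/-- the relative elementary group is everything -/
theorem key [Finite A] (T : Ideal A) (H : Subgroup SL(2, A)) (h1 : ∀ x ∈ T, nU x ∈ H)
    (h2 : ∀ x ∈ T, nL x ∈ H) (h3 : ∀ x ∈ T, nU 1 * nL x * nU (-1) ∈ H) : (rd T).ker ≤ H := by
  have hT : ∀ u : Aˣ, (u : A) - 1 ∈ T → tD u ∈ H := by
    intro u hu
    have e : tD u = nL (-(((u : A) - 1) * ((u⁻¹ : Aˣ) : A))) * (nU 1 * nL ((u : A) - 1) * nU (-1)) *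
        nU (((u : A) - 1) * ((u⁻¹ : Aˣ) : A)) := by
      have hi := u.mul_inv
      apply Subtype.ext
      rw [Matrix.SpecialLinearGroup.coe_mul, Matrix.SpecialLinearGroup.coe_mul,
        Matrix.SpecialLinearGroup.coe_mul, Matrix.SpecialLinearGroup.coe_mul]
      ext i j
      fin_cases i <;> fin_cases j <;>
        simp [nU, nL, tD, Matrix.mul_apply, Fin.sum_univ_two]
      · linear_combination (-((u : A) - 1)) * hi
      · linear_combination (2 - (u : A)) * hi
    rw [e]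
    exact H.mul_mem (H.mul_mem (h2 _ (T.neg_mem (T.mul_mem_right _ hu))) (h3 _ hu))
      (h1 _ (T.mul_mem_right _ hu))
  intro g hg
  rw [Ind.mem_ker_iff] at hg
  have g00 := hg 0 0
  have g01 := hg 0 1
  have g10 := hg 1 0
  rw [Matrix.one_apply_eq] at g00
  rw [Matrix.one_apply_ne (by decide), sub_zero] at g01 g10
  have hdet : g 0 0 * g 1 1 - g 0 1 * g 1 0 = 1 := by
    have := g.2
    rwa [Matrix.det_fin_two] at this
  obtain ⟨x, hx, u, hu⟩ := exists_unit T _ _ _ _ hdet g00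
  have hu1 : (u : A) - 1 ∈ T := by
    rw [hu]
    have : g 0 0 + x * g 1 0 - 1 = (g 0 0 - 1) + x * g 1 0 := by ring
    rw [this]
    exact T.add_mem g00 (T.mul_mem_right _ hx)
  have e : g = nU (-x) * (nL (g 1 0 * ((u⁻¹ : Aˣ) : A)) * tD u *
      nU ((g 0 1 + x * g 1 1) * ((u⁻¹ : Aˣ) : A))) := by
    have hi := u.mul_inv
    apply Subtype.ext
    rw [Matrix.SpecialLinearGroup.coe_mul, Matrix.SpecialLinearGroup.coe_mul,
      Matrix.SpecialLinearGroup.coe_mul]
    ext i j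
    fin_cases i <;> fin_cases j <;>
      simp [nU, nL, tD, Matrix.mul_apply, Fin.sum_univ_two]
    · linear_combination -hu
    · linear_combination (-g 0 1) * hi - x * g 1 1 * (u⁻¹ : Aˣ) * hu - x * (u⁻¹ : Aˣ) * hdet
    · linear_combination (-g 1 1) * hi + g 1 1 * (u⁻¹ : Aˣ) * hu + (u⁻¹ : Aˣ) * hdet
  rw [e]
  exact H.mul_mem (h1 _ (T.neg_mem hx)) (H.mul_mem (H.mul_mem (h2 _ (T.mul_mem_right _ g10)) (hT u hu1))
    (h1 _ (T.mul_mem_right _ (T.add_mem g01 (T.mul_mem_right _ hx)))))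

end GenA

/-- A1 -/
theorem gen : S_gen := by
  intro A _ _ T H hH
  have h1 : ∀ x ∈ T, nU x ∈ H := by
    intro x hx
    simpa using hH 1 x hx
  have h2 : ∀ x ∈ T, ∀ g : SL(2, A), g * nL x * g⁻¹ ∈ H := by
    intro x hx g
    set w : SL(2, A) := ⟨!![0, -1; 1, 0], by simp [Matrix.det_fin_two]⟩ with hw
    have e : nL x = w * nU (-x) * w⁻¹ := by
      apply Subtype.ext
      rw [Matrix.SpecialLinearGroup.coe_mul, Matrix.SpecialLinearGroup.coe_mul,
        Matrix.SpecialLinearGroup.coe_inv, Matrix.adjugate_fin_two]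
      ext i j
      fin_cases i <;> fin_cases j <;> simp [nU, nL, hw, Matrix.mul_apply, Fin.sum_univ_two]
    have := hH (g * w) (-x) (T.neg_mem hx)
    rw [e]
    simpa [mul_assoc] using this
  refine GenA.key T H h1 (fun x hx => by simpa using h2 x hx 1) (fun x hx => ?_)
  have := h2 x hx (nU 1)
  rwa [Ind.nU_inv] at this

/-- A2 -/
theorem surj : S_surj := by
  intro K _ _ 𝔫 h𝔫
  have : Finite (𝓞 K ⧸ 𝔫) := Ideal.finiteQuotientOfFreeOfNeBot 𝔫 h𝔫
  have hU : ∀ x : 𝓞 K ⧸ 𝔫, nU x ∈ (rd 𝔫).range := by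
    intro x
    obtain ⟨y, rfl⟩ := Ideal.Quotient.mk_surjective x
    refine ⟨nU y, ?_⟩
    apply Subtype.ext
    ext i j
    show Ideal.Quotient.mk 𝔫 ((nU y : SL(2, 𝓞 K)) i j) = _
    fin_cases i <;> fin_cases j <;> simp [nU]
  have hL : ∀ x : 𝓞 K ⧸ 𝔫, nL x ∈ (rd 𝔫).range := by
    intro x
    obtain ⟨y, rfl⟩ := Ideal.Quotient.mk_surjective x
    refine ⟨nL y, ?_⟩
    apply Subtype.ext
    ext i j
    show Ideal.Quotient.mk 𝔫 ((nL y : SL(2, 𝓞 K)) i j) = _
    fin_cases i <;> fin_cases j <;> simp [nL]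
  have h := GenA.key (⊤ : Ideal (𝓞 K ⧸ 𝔫)) (rd 𝔫).range (fun x _ => hU x) (fun x _ => hL x)
    (fun x _ => Subgroup.mul_mem _ (Subgroup.mul_mem _ (hU _) (hL _)) (hU _))
  intro g
  have hg : g ∈ (rd (⊤ : Ideal (𝓞 K ⧸ 𝔫))).ker := by
    rw [Ind.mem_ker_iff]
    intro i j
    exact Submodule.mem_top
  exact h hg

end Pool.Agent.T2h77
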