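import Pool.Agent.T2h77.Box

/-!
# The density theorem for `SL₂` over number fields: integer matrices

Integer matrices in a box which are scalar modulo an ideal `m`, with prescribed trace modulo
another ideal (`points`).
-/

set_option autoImplicit false

open NumberField NumberField.mixedEmbedding Finset
open scoped MatrixGroups

noncomputable section

namespace Pool.Agent.T2h77

namespace Pt

variable {K : Type} [Field K] [NumberField K]

set_option linter.unusedSectionVars false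

theorem card_le_real {α β : Type*} [DecidableEq β] (s : Finset α) (f : α → β) {M N : ℝ}
    (hM0 : 0 ≤ M) (hM : ∀ b ∈ s.image f, ((s.filter fun x => f x = b).card : ℝ) ≤ M)
    (hN : ((s.image f).card : ℝ) ≤ N) : (s.card : ℝ) ≤ N * M := by
  rw [Finset.card_eq_sum_card_image f s]
  push_cast
  refine (Finset.sum_le_sum hM).trans ?_
  rw [Finset.sum_const, nsmul_eq_mul]
  exact mul_le_mul_of_nonneg_right hN hM0

/-- the box -/
def Bd (v : InfinitePlace K) (C₀ X : ℝ) (y : 𝓞 K) : Prop :=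
  v (y : K) ^ v.mult ≤ X ∧ ∀ w : InfinitePlace K, w ≠ v → w (y : K) ≤ C₀

theorem pow_add_le (v : InfinitePlace K) {a b X : ℝ} (ha : 0 ≤ a) (_hb : 0 ≤ b)
    (h1 : a ^ v.mult ≤ X) (h2 : b ^ v.mult ≤ X) : (a + b) ^ v.mult ≤ 4 * X := by
  rcases v.isReal_or_isComplex with hv | hv
  · rw [hv.mult_eq_one] at h1 h2 ⊢
    simp only [pow_one] at h1 h2 ⊢
    linarith
  · rw [hv.mult_eq_two] at h1 h2 ⊢
    nlinarith [sq_nonneg (a - b)]

theorem bd_add {v : InfinitePlace K} {C₀ X : ℝ} {y z : 𝓞 K} (hy : Bd v C₀ X y)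
    (hz : Bd v C₀ X z) : Bd v (2 * C₀) (4 * X) (y + z) := by
  have e : ((y + z : 𝓞 K) : K) = (y : K) + z := by push_cast; rfl
  constructor
  · rw [e]
    refine (pow_le_pow_left₀ (apply_nonneg _ _) (v.1.add_le _ _) _).trans ?_
    exact pow_add_le v (apply_nonneg _ _) (apply_nonneg _ _) hy.1 hz.1
  · intro w hw
    rw [e]
    refine (w.1.add_le _ _).trans ?_
    have h1 := hy.2 w hw
    have h2 := hz.2 w hw
    change w (y : K) + w (z : K) ≤ _
    linarith

theorem bd_neg {v : InfinitePlace K} {C₀ X : ℝ} {z : 𝓞 K} (hz : Bd v C₀ X z) :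
    Bd v C₀ X (-z) := by
  have e : ((-z : 𝓞 K) : K) = -(z : K) := by push_cast; rfl
  have e2 : ∀ w : InfinitePlace K, w (-(z : K)) = w (z : K) := fun w => w.1.map_neg _
  unfold Bd
  simp only [e, e2]
  exact hz

theorem bd_sub {v : InfinitePlace K} {C₀ X : ℝ} {y z : 𝓞 K} (hy : Bd v C₀ X y)
    (hz : Bd v C₀ X z) : Bd v (2 * C₀) (4 * X) (y - z) := by
  rw [sub_eq_add_neg]
  exact bd_add hy (bd_neg hz)

theorem bd_mono {v : InfinitePlace K} {C₀ C₁ X Y : ℝ} {y : 𝓞 K} (hy : Bd v C₀ X y)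
    (hC : C₀ ≤ C₁) (hX : X ≤ Y) : Bd v C₁ Y y :=
  ⟨hy.1.trans hX, fun w hw => (hy.2 w hw).trans hC⟩

theorem entry_le (w : InfinitePlace K) (δ : SL(2, 𝓞 K)) (i j : Fin 2) :
    w ((δ i j : 𝓞 K) : K) ≤ mn w (io K δ) := by
  have h0 : normAtPlace w ((io K δ) i j) = w ((δ i j : 𝓞 K) : K) := by
    have : (io K δ) i j = mixedEmbedding K ((δ i j : 𝓞 K) : K) := by
      simp [io, Matrix.SpecialLinearGroup.map_apply_coe, RingHom.mapMatrix_apply]
    rw [this, normAtPlace_apply]
  have h1 : normAtPlace w ((io K δ) i j) ≤ rn w ((io K δ) i) := by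
    unfold rn
    apply Real.le_sqrt_of_sq_le
    fin_cases j
    · have := sq_nonneg (normAtPlace w ((io K δ) i 1)); simpa using this
    · have := sq_nonneg (normAtPlace w ((io K δ) i 0)); simpa using this
  have h2 : rn w ((io K δ) i) ≤ mn w (io K δ) := by
    unfold mn
    apply Real.le_sqrt_of_sq_le
    fin_cases i
    · have := sq_nonneg (rn w ((io K δ) 1)); simpa using this
    · have := sq_nonneg (rn w ((io K δ) 0)); simpa using this
  rw [← h0]
  exact h1.trans h2

theorem det_eq (δ : SL(2, 𝓞 K)) : δ 0 0 * δ 1 1 - δ 0 1 * δ 1 0 = 1 := by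
  have := δ.2
  rwa [Matrix.det_fin_two] at this

theorem sl_ext {δ η : SL(2, 𝓞 K)} (h1 : δ 0 0 = η 0 0) (h2 : δ 0 1 = η 0 1)
    (h3 : δ 1 0 = η 1 0) (h4 : δ 1 1 = η 1 1) : δ = η := by
  ext i j
  fin_cases i <;> fin_cases j
  · exact congrArg _ h1
  · exact congrArg _ h2
  · exact congrArg _ h3
  · exact congrArg _ h4

end Pt

open Pt Bx

theorem points (h1 : S_box) (h2 : S_fac) : S_points := by
  classical
  intro K _ _ v C₀ ε hε
  set B : ℝ := 2 * |C₀| + 1 with hB
  have hC0 := abs_nonneg C₀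
  have hB1 : 1 ≤ B := by linarith
  set D : ℝ := B ^ Module.finrank ℚ K with hD
  have hD1 : 1 ≤ D := one_le_pow₀ hB1
  obtain ⟨C₁, hC₁, hbox⟩ := h1 K v B
  obtain ⟨C₃, hC₃, hfac⟩ := h2 K v B ε hε
  refine ⟨16 * C₁ ^ 2 * (D + 1) * (C₃ + 4), by positivity, ?_⟩
  intro 𝔫 m h𝔫 hm t X hX s hs
  have hX0 : (0 : ℝ) < X := by linarith
  have hNm : (0 : ℝ) < Ideal.absNorm m := by
    have : 0 < Ideal.absNorm m := Nat.pos_of_ne_zero fun h => hm (Ideal.absNorm_eq_zero_iff.1 h)
    exact_mod_cast this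
  have hNn : (0 : ℝ) < Ideal.absNorm 𝔫 := by
    have : 0 < Ideal.absNorm 𝔫 := Nat.pos_of_ne_zero fun h => h𝔫 (Ideal.absNorm_eq_zero_iff.1 h)
    exact_mod_cast this
  have hbd : ∀ δ ∈ s, ∀ i j, Bd v |C₀| X (δ i j) := by
    intro δ hδ i j
    obtain ⟨-, -, k1, k2, -⟩ := hs δ hδ
    refine ⟨(pow_le_pow_left₀ (apply_nonneg _ _) (entry_le v δ i j) _).trans k1, fun w hw => ?_⟩
    exact (entry_le w δ i j).trans ((k2 w hw).trans (le_abs_self _))
  have hbox' : ∀ (I : Ideal (𝓞 K)), I ≠ ⊥ → ∀ S : Finset (𝓞 K), (∀ x ∈ S, Bd v B (4 * X) x) →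
      (∀ x ∈ S, ∀ y ∈ S, x - y ∈ I) → (S.card : ℝ) ≤ C₁ * (1 + 4 * X / Ideal.absNorm I) :=
    fun I hI S hS hS' => hbox I hI (4 * X) (by positivity) S hS hS'
  -- traces
  have hT : ((s.image fun δ => δ 0 0 + δ 1 1).card : ℝ) ≤
      C₁ * (1 + 4 * X / Ideal.absNorm (𝔫 * m)) := by
    apply hbox' _ (mul_ne_zero h𝔫 hm)
    · intro x hx
      obtain ⟨δ, hδ, rfl⟩ := Finset.mem_image.1 hx
      exact bd_mono (bd_add (hbd δ hδ 0 0) (hbd δ hδ 1 1)) (by linarith) le_rfl
    · intro x hx y hy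
      obtain ⟨δ, hδ, rfl⟩ := Finset.mem_image.1 hx
      obtain ⟨η, hη, rfl⟩ := Finset.mem_image.1 hy
      obtain ⟨-, -, -, -, -, -, -, k1⟩ := hs δ hδ
      obtain ⟨-, -, -, -, -, -, -, k2⟩ := hs η hη
      have := sub_mem k1 k2
      rwa [sub_sub_sub_cancel_right] at this
  set β : ℝ := C₁ * (1 + 4 * X / Ideal.absNorm m) with hβ
  have hβ0 : 0 ≤ β := by positivity
  have hXε : 1 ≤ X ^ ε := Real.one_le_rpow hX hε.le
  have two_ne : (2 : 𝓞 K) ≠ 0 := two_ne_zero
  -- fibres
  have hfib : ∀ τ ∈ s.image (fun δ => δ 0 0 + δ 1 1),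
      ((s.filter fun δ => δ 0 0 + δ 1 1 = τ).card : ℝ) ≤ β * (C₃ * X ^ ε) + 2 * (2 * β) := by
    intro τ _
    set F := s.filter fun δ => δ 0 0 + δ 1 1 = τ with hF
    have hFs : ∀ δ ∈ F, δ ∈ s ∧ δ 0 0 + δ 1 1 = τ := fun δ hδ => Finset.mem_filter.1 hδ
    rw [← Finset.card_filter_add_card_filter_not (s := F) fun δ => δ 0 1 * δ 1 0 ≠ 0]
    push_cast
    apply add_le_add
    · -- nonzero product
      apply card_le_real _ (fun δ => δ 0 0 - δ 1 1) (by positivity)
      · intro u _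
        set G := (F.filter fun δ => δ 0 1 * δ 1 0 ≠ 0).filter fun δ => δ 0 0 - δ 1 1 = u with hG
        have hGm : ∀ δ ∈ G, (δ ∈ s ∧ δ 0 0 + δ 1 1 = τ) ∧ δ 0 1 * δ 1 0 ≠ 0 ∧
            δ 0 0 - δ 1 1 = u := by
          intro δ hδ
          rw [hG, Finset.mem_filter, Finset.mem_filter] at hδ
          exact ⟨hFs δ hδ.1.1, hδ.1.2, hδ.2⟩
        rcases G.eq_empty_or_nonempty with hGe | ⟨δ₀, hδ₀⟩
        · rw [hGe]; simp only [card_empty, Nat.cast_zero]; positivity
        have hdiag : ∀ δ ∈ G, δ 0 0 = δ₀ 0 0 ∧ δ 1 1 = δ₀ 1 1 := by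
          intro δ hδ
          obtain ⟨⟨-, a1⟩, -, a2⟩ := hGm δ hδ
          obtain ⟨⟨-, b1⟩, -, b2⟩ := hGm δ₀ hδ₀
          constructor
          · apply mul_left_cancel₀ two_ne
            linear_combination a1 + a2 - b1 - b2
          · apply mul_left_cancel₀ two_ne
            linear_combination a1 - a2 - b1 + b2
        have hinj : Set.InjOn (fun δ : SL(2, 𝓞 K) => (δ 0 1, δ 1 0)) G := by
          intro δ hδ η hη h
          have d1 := hdiag δ hδ
          have d2 := hdiag η hη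
          exact sl_ext (d1.1.trans d2.1.symm) (Prod.mk.inj h).1 (Prod.mk.inj h).2
            (d1.2.trans d2.2.symm)
        rw [← Finset.card_image_of_injOn hinj]
        apply hfac X hX (δ₀ 0 1 * δ₀ 1 0) (hGm δ₀ hδ₀).2.1
        intro x hx
        obtain ⟨δ, hδ, rfl⟩ := Finset.mem_image.1 hx
        have d1 := hdiag δ hδ
        have e1 := det_eq δ
        have e2 := det_eq δ₀
        rw [d1.1, d1.2] at e1
        have hδs := (hGm δ hδ).1.1
        refine ⟨by linear_combination e2 - e1, (hbd δ hδs 0 1).1, (hbd δ hδs 1 0).1,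
          fun w hw => ⟨?_, ?_⟩⟩
        · have := (hbd δ hδs 0 1).2 w hw
          simp only at this ⊢
          linarith
        · have := (hbd δ hδs 1 0).2 w hw
          simp only at this ⊢
          linarith
      · apply hbox' m hm
        · intro x hx
          obtain ⟨δ, hδ, rfl⟩ := Finset.mem_image.1 hx
          have hδs := (hFs δ (Finset.mem_filter.1 hδ).1).1
          exact bd_mono (bd_sub (hbd δ hδs 0 0) (hbd δ hδs 1 1)) (by linarith) le_rfl
        · intro x hx y hy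
          obtain ⟨δ, hδ, rfl⟩ := Finset.mem_image.1 hx
          obtain ⟨η, hη, rfl⟩ := Finset.mem_image.1 hy
          have hδs := (hFs δ (Finset.mem_filter.1 hδ).1).1
          have hηs := (hFs η (Finset.mem_filter.1 hη).1).1
          obtain ⟨-, -, -, -, -, -, k1, -⟩ := hs δ hδs
          obtain ⟨-, -, -, -, -, -, k2, -⟩ := hs η hηs
          exact sub_mem k1 k2
    · -- zero product
      set F2 := F.filter fun δ => ¬ (δ 0 1 * δ 1 0 ≠ 0) with hF2
      have hF2m : ∀ δ ∈ F2, (δ ∈ s ∧ δ 0 0 + δ 1 1 = τ) ∧ δ 0 1 * δ 1 0 = 0 := by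
        intro δ hδ
        rw [hF2, Finset.mem_filter, not_not] at hδ
        exact ⟨hFs δ hδ.1, hδ.2⟩
      apply card_le_real _ (fun δ => δ 0 0) (by positivity)
      · intro a _
        set G := F2.filter fun δ => δ 0 0 = a with hG
        have hGm : ∀ δ ∈ G, (δ ∈ s ∧ δ 0 0 + δ 1 1 = τ) ∧ δ 0 1 * δ 1 0 = 0 ∧ δ 0 0 = a := by
          intro δ hδ
          rw [hG, Finset.mem_filter] at hδ
          exact ⟨(hF2m δ hδ.1).1, (hF2m δ hδ.1).2, hδ.2⟩
        rw [← Finset.card_filter_add_card_filter_not (s := G) fun δ => δ 0 1 = 0]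
        push_cast
        rw [two_mul]
        have hentry : ∀ (i j : Fin 2), (∀ δ ∈ s, δ i j ∈ m) → ∀ H : Finset SL(2, 𝓞 K),
            (∀ δ ∈ H, δ ∈ s) → Set.InjOn (fun δ : SL(2, 𝓞 K) => δ i j) H → (H.card : ℝ) ≤ β := by
          intro i j hij H hH hinj
          rw [← Finset.card_image_of_injOn hinj]
          apply hbox' m hm
          · intro x hx
            obtain ⟨δ, hδ, rfl⟩ := Finset.mem_image.1 hx
            exact bd_mono (hbd δ (hH δ hδ) i j) (by linarith) (by linarith)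
          · intro x hx y hy
            obtain ⟨δ, hδ, rfl⟩ := Finset.mem_image.1 hx
            obtain ⟨η, hη, rfl⟩ := Finset.mem_image.1 hy
            exact sub_mem (hij δ (hH δ hδ)) (hij η (hH η hη))
        apply add_le_add
        · apply hentry 1 0 (fun δ hδ => by
            obtain ⟨-, -, -, -, -, k, -, -⟩ := hs δ hδ
            exact k)
          · intro δ hδ
            exact (hGm δ (Finset.mem_filter.1 hδ).1).1.1
          · intro δ hδ η hη h
            obtain ⟨hδG, hδ0⟩ := Finset.mem_filter.1 (Finset.mem_coe.1 hδ)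
            obtain ⟨hηG, hη0⟩ := Finset.mem_filter.1 (Finset.mem_coe.1 hη)
            obtain ⟨⟨-, a1⟩, -, a2⟩ := hGm δ hδG
            obtain ⟨⟨-, b1⟩, -, b2⟩ := hGm η hηG
            exact sl_ext (a2.trans b2.symm) (hδ0.trans hη0.symm) h
              (by linear_combination a1 - b1 - a2 + b2)
        · apply hentry 0 1 (fun δ hδ => by
            obtain ⟨-, -, -, -, k, -, -, -⟩ := hs δ hδ
            exact k)
          · intro δ hδ
            exact (hGm δ (Finset.mem_filter.1 hδ).1).1.1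
          · intro δ hδ η hη h
            obtain ⟨hδG, hδ0⟩ := Finset.mem_filter.1 (Finset.mem_coe.1 hδ)
            obtain ⟨hηG, hη0⟩ := Finset.mem_filter.1 (Finset.mem_coe.1 hη)
            obtain ⟨⟨-, a1⟩, a3, a2⟩ := hGm δ hδG
            obtain ⟨⟨-, b1⟩, b3, b2⟩ := hGm η hηG
            have c1 : δ 1 0 = 0 := (mul_eq_zero.1 a3).resolve_left hδ0
            have c2 : η 1 0 = 0 := (mul_eq_zero.1 b3).resolve_left hη0
            exact sl_ext (a2.trans b2.symm) h (c1.trans c2.symm)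
              (by linear_combination a1 - b1 - a2 + b2)
      · rcases F2.eq_empty_or_nonempty with hFe | ⟨δ₀, hδ₀⟩
        · rw [hFe]; simp
        have hsub : (F2.image fun δ => δ 0 0) ⊆ {δ₀ 0 0, τ - δ₀ 0 0} := by
          intro x hx
          obtain ⟨δ, hδ, rfl⟩ := Finset.mem_image.1 hx
          obtain ⟨⟨-, a1⟩, a3⟩ := hF2m δ hδ
          obtain ⟨⟨-, b1⟩, b3⟩ := hF2m δ₀ hδ₀
          have e1 := det_eq δ
          have e2 := det_eq δ₀
          have e3 : (δ 0 0 - δ₀ 0 0) * (δ 0 0 - (τ - δ₀ 0 0)) = 0 := by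
            linear_combination (-1 : 𝓞 K) * e1 + e2 + δ 0 0 * a1 - δ₀ 0 0 * b1 - a3 + b3
          rw [Finset.mem_insert, Finset.mem_singleton]
          rcases mul_eq_zero.1 e3 with h | h
          · exact Or.inl (sub_eq_zero.1 h)
          · exact Or.inr (sub_eq_zero.1 h)
        exact_mod_cast (Finset.card_le_card hsub).trans Finset.card_le_two
  have hall := card_le_real s (fun δ => δ 0 0 + δ 1 1) (by positivity) hfib hT
  rcases s.eq_empty_or_nonempty with rfl | ⟨δ, hδ⟩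
  · simp only [card_empty, Nat.cast_zero]; positivity
  -- the norm of `m` is small
  have hsmall : (Ideal.absNorm m : ℝ) ≤ 4 * X * D := by
    have key : ∀ y : 𝓞 K, y ∈ m → y ≠ 0 → Bd v B (4 * X) y → (Ideal.absNorm m : ℝ) ≤ 4 * X * D := by
      intro y hy h0 hb
      refine (place_ge v hB1 m hy h0 hb.2).trans ?_
      exact mul_le_mul_of_nonneg_right hb.1 (by positivity)
    obtain ⟨n1, n2, -, -, k1, k2, k3, -⟩ := hs δ hδ
    by_cases c1 : δ 0 1 = 0
    · by_cases c2 : δ 1 0 = 0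
      · by_cases c3 : δ 0 0 - δ 1 1 = 0
        · exfalso
          have e1 := det_eq δ
          have c4 : δ 0 0 = δ 1 1 := sub_eq_zero.1 c3
          have e2 : (δ 0 0 - 1) * (δ 0 0 + 1) = 0 := by
            rw [c1, ← c4] at e1
            linear_combination e1
          rcases mul_eq_zero.1 e2 with h | h
          · apply n1
            have h' : δ 0 0 = 1 := sub_eq_zero.1 h
            refine sl_ext ?_ ?_ ?_ ?_
            · rw [h']; simp
            · rw [c1]; simp
            · rw [c2]; simp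
            · rw [← c4, h']; simp
          · apply n2
            have h' : δ 0 0 = -1 := eq_neg_of_add_eq_zero_left h
            refine sl_ext ?_ ?_ ?_ ?_
            · rw [h']; simp
            · rw [c1]; simp
            · rw [c2]; simp
            · rw [← c4, h']; simp
        · exact key _ k3 c3 (bd_mono (bd_sub (hbd δ hδ 0 0) (hbd δ hδ 1 1)) (by linarith) le_rfl)
      · exact key _ k2 c2 (bd_mono (hbd δ hδ 1 0) (by linarith) (by linarith))
    · exact key _ k1 c1 (bd_mono (hbd δ hδ 0 1) (by linarith) (by linarith))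
  have hq : 1 ≤ 4 * D * (X / Ideal.absNorm m) := by
    rw [mul_div_assoc', le_div_iff₀ hNm, one_mul]
    linarith
  have hβ' : β ≤ C₁ * (4 * (D + 1) * (X / Ideal.absNorm m)) := by
    rw [hβ]
    refine mul_le_mul_of_nonneg_left ?_ hC₁.le
    have : 4 * X / Ideal.absNorm m = 4 * (X / Ideal.absNorm m) := by ring
    rw [this]
    linarith
  have hM : β * (C₃ * X ^ ε) + 2 * (2 * β) ≤ C₁ * (4 * (D + 1) * (X / Ideal.absNorm m)) *
      ((C₃ + 4) * X ^ ε) := by
    have : β * (C₃ * X ^ ε) + 2 * (2 * β) ≤ β * ((C₃ + 4) * X ^ ε) := by nlinarith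
    exact this.trans (mul_le_mul_of_nonneg_right hβ' (by positivity))
  have hT' : C₁ * (1 + 4 * X / Ideal.absNorm (𝔫 * m)) ≤
      C₁ * (4 * (1 + X / (Ideal.absNorm 𝔫 * Ideal.absNorm m))) := by
    refine mul_le_mul_of_nonneg_left ?_ hC₁.le
    rw [map_mul, Nat.cast_mul]
    have : 4 * X / (Ideal.absNorm 𝔫 * Ideal.absNorm m : ℝ) =
      4 * (X / (Ideal.absNorm 𝔫 * Ideal.absNorm m : ℝ)) := by ring
    rw [this]
    have : 0 ≤ X / (Ideal.absNorm 𝔫 * Ideal.absNorm m : ℝ) := by positivity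
    linarith
  refine hall.trans ((mul_le_mul hT' hM (by positivity) (by positivity)).trans (le_of_eq ?_))
  ring

end Pool.Agent.T2h77
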