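import Pool.Agent.T2h77.Index

/-!
# Characters of ideals of `𝓞 K ⧸ 𝔫` which are nontrivial on all large ideals
-/

set_option autoImplicit false

open NumberField
open scoped MatrixGroups

noncomputable section

namespace Pool.Agent.T2h77

namespace Psi

/-! ### Characters of finite abelian groups -/

theorem card_ker {Q : Type} [AddCommGroup Q] [Finite Q] (t : Q) :
    addOrderOf t * Nat.card {ψ : AddChar Q ℂ // ψ t = 1} = Nat.card (AddChar Q ℂ) := by
  classical
  cases nonempty_fintype Q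
  set n := addOrderOf t with hn
  have hn0 : 0 < n := addOrderOf_pos t
  have h1 : ∑ j ∈ Finset.range n, ∑ ψ : AddChar Q ℂ, ψ (j • t) = (Fintype.card Q : ℂ) := by
    rw [Finset.sum_eq_single_of_mem 0 (Finset.mem_range.2 hn0)]
    · rw [AddChar.sum_apply_eq_ite, if_pos (zero_nsmul t)]
    · intro j hj hj0
      rw [AddChar.sum_apply_eq_ite, if_neg]
      intro h
      exact Nat.not_dvd_of_pos_of_lt (Nat.pos_of_ne_zero hj0) (Finset.mem_range.1 hj)
        (addOrderOf_dvd_of_nsmul_eq_zero h)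
  have h2 : ∀ ψ : AddChar Q ℂ, ∑ j ∈ Finset.range n, ψ (j • t) = if ψ t = 1 then (n : ℂ) else 0 := by
    intro ψ
    simp only [AddChar.map_nsmul_eq_pow]
    split_ifs with h
    · simp [h]
    · have h3 : (ψ t - 1) * ∑ j ∈ Finset.range n, ψ t ^ j = 0 := by
        rw [mul_geom_sum, ← AddChar.map_nsmul_eq_pow, hn, addOrderOf_nsmul_eq_zero,
          AddChar.map_zero_eq_one, sub_self]
      rcases mul_eq_zero.1 h3 with h4 | h4
      · exact absurd (sub_eq_zero.1 h4) h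
      · exact h4
  rw [Finset.sum_comm] at h1
  simp only [h2] at h1
  rw [← Finset.sum_filter, Finset.sum_const, nsmul_eq_mul] at h1
  have h5 : Nat.card {ψ : AddChar Q ℂ // ψ t = 1} =
      (Finset.univ.filter fun ψ : AddChar Q ℂ => ψ t = 1).card := by
    rw [Nat.card_eq_fintype_card, Fintype.card_subtype]
  rw [h5, Nat.card_eq_fintype_card, AddChar.card_eq, mul_comm]
  exact_mod_cast h1

/-- a character which is nontrivial at all of a few elements of large order -/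
theorem exists_char {Q ι : Type} [AddCommGroup Q] [Finite Q] [Finite ι] (t : ι → Q) (n : ℕ)
    (hn : ∀ i, n ≤ addOrderOf (t i)) (hι : Nat.card ι < n) :
    ∃ ψ : AddChar Q ℂ, ∀ i, ψ (t i) ≠ 1 := by
  classical
  cases nonempty_fintype Q
  cases nonempty_fintype ι
  by_contra hcon
  push Not at hcon
  have h1 : (Finset.univ : Finset (AddChar Q ℂ)) ⊆
      Finset.univ.biUnion fun i : ι => Finset.univ.filter fun ψ : AddChar Q ℂ => ψ (t i) = 1 := by
    intro ψ _
    obtain ⟨i, hi⟩ := hcon ψ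
    simp only [Finset.mem_biUnion, Finset.mem_univ, true_and, Finset.mem_filter]
    exact ⟨i, hi⟩
  have h2 := (Finset.card_le_card h1).trans Finset.card_biUnion_le
  have h3 : ∀ i, n * (Finset.univ.filter fun ψ : AddChar Q ℂ => ψ (t i) = 1).card ≤
      Fintype.card (AddChar Q ℂ) := by
    intro i
    have h4 := card_ker (t i)
    rw [Nat.card_eq_fintype_card, Fintype.card_subtype, Nat.card_eq_fintype_card] at h4
    rw [← h4]
    exact Nat.mul_le_mul_right _ (hn i)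
  have h4 : n * Fintype.card (AddChar Q ℂ) ≤ Fintype.card ι * Fintype.card (AddChar Q ℂ) := by
    calc n * Fintype.card (AddChar Q ℂ) ≤
        n * ∑ i : ι, (Finset.univ.filter fun ψ : AddChar Q ℂ => ψ (t i) = 1).card :=
          Nat.mul_le_mul_left _ h2
      _ = ∑ i : ι, n * (Finset.univ.filter fun ψ : AddChar Q ℂ => ψ (t i) = 1).card := by
          rw [Finset.mul_sum]
      _ ≤ ∑ _i : ι, Fintype.card (AddChar Q ℂ) := Finset.sum_le_sum fun i _ => h3 i
      _ = Fintype.card ι * Fintype.card (AddChar Q ℂ) := by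
          rw [Finset.sum_const, Finset.card_univ, smul_eq_mul]
  have h5 : 0 < Fintype.card (AddChar Q ℂ) := Fintype.card_pos
  have h6 := Nat.le_of_mul_le_mul_right h4 h5
  rw [Nat.card_eq_fintype_card] at hι
  omega

/-! ### Finite principal ideal rings -/

variable {A : Type} [CommRing A]

theorem chain [IsPrincipalIdealRing A] (P : Ideal A) (hP : P.IsMaximal) (x y : A) :
    ∃ w, w ∉ P ∧ (w * x ∈ Ideal.span {y} ∨ w * y ∈ Ideal.span {x}) := by
  obtain ⟨g, hg⟩ := (IsPrincipalIdealRing.principal (Ideal.span {x, y})).principal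
  have hg' : Ideal.span {x, y} = Ideal.span {g} := hg
  have hx : x ∈ Ideal.span {g} := by rw [← hg']; exact Ideal.subset_span (by simp)
  have hy : y ∈ Ideal.span {g} := by rw [← hg']; exact Ideal.subset_span (by simp)
  obtain ⟨x', hx'⟩ := Ideal.mem_span_singleton'.1 hx
  obtain ⟨y', hy'⟩ := Ideal.mem_span_singleton'.1 hy
  have hgm : g ∈ Ideal.span {x, y} := by rw [hg']; exact Ideal.mem_span_singleton_self g
  obtain ⟨α, β, hαβ⟩ := Ideal.mem_span_pair.1 hgm
  by_cases h1 : x' ∈ P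
  · by_cases h2 : y' ∈ P
    · refine ⟨1 - α * x' - β * y', ?_, Or.inl ?_⟩
      · intro h
        apply hP.ne_top
        rw [Ideal.eq_top_iff_one]
        have : (1 : A) = (1 - α * x' - β * y') + α * x' + β * y' := by ring
        rw [this]
        exact P.add_mem (P.add_mem h (P.mul_mem_left _ h1)) (P.mul_mem_left _ h2)
      · have h3 : (1 - α * x' - β * y') * g = 0 := by
          linear_combination (-1) * hαβ - α * hx' - β * hy'
        have h4 : (1 - α * x' - β * y') * x = 0 := by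
          rw [← hx']
          linear_combination x' * h3
        rw [h4]
        exact Ideal.zero_mem _
    · refine ⟨y', h2, Or.inl ?_⟩
      rw [Ideal.mem_span_singleton']
      exact ⟨x', by rw [← hx', ← hy']; ring⟩
  · refine ⟨x', h1, Or.inr ?_⟩
    rw [Ideal.mem_span_singleton']
    exact ⟨y', by rw [← hx', ← hy']; ring⟩

/-- the smallest ideal whose multiple contains the socle element -/
theorem min_exists [Finite A] [IsPrincipalIdealRing A] (P : Ideal A) (hP : P.IsMaximal) (s : A)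
    (hs : ∀ p ∈ P, p * s = 0) (q : A) (h : ∃ t, q * t = s) :
    ∃ U : Ideal A, (∃ t ∈ U, q * t = s) ∧ ∀ T : Ideal A, (∃ t ∈ T, q * t = s) → U ≤ T := by
  have : Finite (Ideal A) := inferInstance
  obtain ⟨U, hU⟩ := (Set.toFinite {T : Ideal A | ∃ t ∈ T, q * t = s}).exists_minimal
    ⟨⊤, by obtain ⟨t, ht⟩ := h; exact ⟨t, Submodule.mem_top, ht⟩⟩
  refine ⟨U, hU.1, ?_⟩
  intro T hT
  have hinf : (∃ t ∈ U ⊓ T, q * t = s) := by
    obtain ⟨t, ht, hts⟩ := hU.1
    obtain ⟨t', ht', hts'⟩ := hT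
    obtain ⟨w, hw, hcase⟩ := chain P hP t t'
    obtain ⟨b, i, hi, hb⟩ := hP.exists_inv hw
    have hbs : b * w * s = s := by
      have := hs i hi
      linear_combination s * hb - this
    rcases hcase with h1 | h1
    · refine ⟨b * (w * t), ⟨U.mul_mem_left _ (U.mul_mem_left _ ht), ?_⟩, ?_⟩
      · exact T.mul_mem_left _ ((Ideal.span_singleton_le_iff_mem T).2 ht' h1)
      · calc q * (b * (w * t)) = b * w * (q * t) := by ring
          _ = s := by rw [hts, hbs]
    · refine ⟨b * (w * t'), ⟨?_, T.mul_mem_left _ (T.mul_mem_left _ ht')⟩, ?_⟩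
      · exact U.mul_mem_left _ ((Ideal.span_singleton_le_iff_mem U).2 ht h1)
      · calc q * (b * (w * t')) = b * w * (q * t') := by ring
          _ = s := by rw [hts', hbs]
  exact (hU.2 hinf inf_le_left).trans inf_le_right

/-- the test element at a maximal ideal -/
theorem good [Finite A] [IsPrincipalIdealRing A] (P : Ideal A) (hP : P.IsMaximal) (s : A)
    (hs0 : s ≠ 0) (hs : ∀ p ∈ P, p * s = 0) (l e : ℕ) (hl : (l : A) ∈ P) (m : Ideal A)
    (B : AddSubgroup A) (hB : ∀ T : Ideal A, T ≠ ⊥ → T ≤ m → ∃ x ∈ T, x ∉ B)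
    (T₀ : Ideal A) (hT₀ : T₀ ≤ m) (h : ∃ t ∈ T₀, (l : A) ^ e * t = s) :
    ∃ t ∈ m, (l : A) ^ (e + 1) * t = 0 ∧ (l : A) ^ e * t ∉ B ∧
      ∀ T : Ideal A, (∃ t ∈ T, (l : A) ^ e * t = s) → t ∈ T := by
  obtain ⟨U, ⟨u, huU, hu⟩, hmin⟩ := min_exists P hP s hs ((l : A) ^ e) (by
    obtain ⟨t, _, ht⟩ := h
    exact ⟨t, ht⟩)
  have hUm : U ≤ m := (hmin T₀ h).trans hT₀
  have hne : Ideal.span {(l : A) ^ e} * U ≠ ⊥ := by
    intro h0
    apply hs0
    have : s ∈ Ideal.span {(l : A) ^ e} * U := by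
      rw [← hu]
      exact Ideal.mul_mem_mul (Ideal.mem_span_singleton_self _) huU
    rw [h0] at this
    simpa using this
  obtain ⟨x, hx, hxB⟩ := hB _ hne (Ideal.mul_le_right.trans hUm)
  obtain ⟨t, ht, rfl⟩ := Ideal.mem_span_singleton_mul.1 hx
  refine ⟨t, hUm ht, ?_, hxB, fun T hT => hmin T hT ht⟩
  have h1 : U ≤ Ideal.span {u} := hmin _ ⟨u, Ideal.mem_span_singleton_self u, hu⟩
  obtain ⟨a, ha⟩ := Ideal.mem_span_singleton'.1 (h1 ht)
  have h2 := hs _ hl
  rw [← ha, pow_succ]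
  calc (l : A) ^ e * l * (a * u) = a * (l * ((l : A) ^ e * u)) := by ring
    _ = 0 := by rw [hu, h2, mul_zero]

section nf

variable {K : Type} [Field K] [NumberField K]

theorem pir (𝔫 : Ideal (𝓞 K)) (h : 𝔫 ≠ ⊥) : IsPrincipalIdealRing (𝓞 K ⧸ 𝔫) := by
  refine ⟨fun I => ?_⟩
  have h1 : 𝔫 ≤ I.comap (Ideal.Quotient.mk 𝔫) := by
    intro x hx
    rw [Ideal.mem_comap, Ideal.Quotient.eq_zero_iff_mem.2 hx]
    exact I.zero_mem
  obtain ⟨a, ha⟩ := IsDedekindDomain.exists_sup_span_eq h1 h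
  refine ⟨Ideal.Quotient.mk 𝔫 a, ?_⟩
  have h2 : I = (I.comap (Ideal.Quotient.mk 𝔫)).map (Ideal.Quotient.mk 𝔫) :=
    (Ideal.map_comap_of_surjective _ Ideal.Quotient.mk_surjective I).symm
  rw [h2, ← ha, Ideal.map_sup, Ideal.map_quotient_self, bot_sup_eq, Ideal.map_span,
    Set.image_singleton]

theorem card_nat (N : ℕ) :
    Nat.card (𝓞 K ⧸ Ideal.span {(N : 𝓞 K)}) = N ^ Module.finrank ℤ (𝓞 K) := by
  rw [← Ideal.absNorm_span_natCast (S := 𝓞 K) N, Ideal.absNorm_apply, Submodule.cardQuot_apply]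

theorem card_tors (𝔫 : Ideal (𝓞 K)) (h : 𝔫 ≠ ⊥) (N : ℕ) (hN : 0 < N) :
    Nat.card {x : 𝓞 K ⧸ 𝔫 // (N : 𝓞 K ⧸ 𝔫) * x = 0} ≤ N ^ Module.finrank ℤ (𝓞 K) := by
  have : Finite (𝓞 K ⧸ 𝔫) := Ideal.finiteQuotientOfFreeOfNeBot 𝔫 h
  have hN' : Ideal.span {(N : 𝓞 K)} ≠ ⊥ := by
    rw [Ne, Ideal.span_singleton_eq_bot]
    exact_mod_cast hN.ne'
  have : Finite (𝓞 K ⧸ Ideal.span {(N : 𝓞 K)}) := Ideal.finiteQuotientOfFreeOfNeBot _ hN'
  set A := 𝓞 K ⧸ 𝔫 with hA
  set I : Ideal A := Ideal.span {(N : A)} with hI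
  have h1 := Ind.card_hom (AddMonoidHom.mulRight (N : A) : A →+ A)
  have h2 : Nat.card (AddMonoidHom.mulRight (N : A) : A →+ A).range = Nat.card I := by
    refine Nat.card_congr (Equiv.subtypeEquivRight fun x => ?_)
    rw [AddMonoidHom.mem_range, Ideal.mem_span_singleton']
    rfl
  have h3 : Nat.card (AddMonoidHom.mulRight (N : A) : A →+ A).ker =
      Nat.card {x : A // (N : A) * x = 0} := by
    refine Nat.card_congr (Equiv.subtypeEquivRight fun x => ?_)
    rw [AddMonoidHom.mem_ker, mul_comm]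
    rfl
  have h4 := Submodule.card_eq_card_quotient_mul_card (R := A) I
  rw [h2, h3, h4, mul_comm] at h1
  have hpos : 0 < Nat.card I := Nat.card_pos
  have h5 : Nat.card {x : A // (N : A) * x = 0} = Nat.card (A ⧸ I) :=
    (Nat.eq_of_mul_eq_mul_left hpos (by linarith)).symm
  rw [h5, ← card_nat (K := K) N]
  have hle : ∀ x ∈ Ideal.span {(N : 𝓞 K)},
      ((Ideal.Quotient.mk I).comp (Ideal.Quotient.mk 𝔫)) x = 0 := by
    intro x hx
    obtain ⟨a, rfl⟩ := Ideal.mem_span_singleton'.1 hx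
    rw [RingHom.comp_apply, Ideal.Quotient.eq_zero_iff_mem, map_mul, map_natCast]
    exact I.mul_mem_left _ (Ideal.mem_span_singleton_self _)
  refine Nat.card_le_card_of_surjective (Ideal.Quotient.lift _ _ hle) ?_
  intro y
  obtain ⟨z, rfl⟩ := Ideal.Quotient.mk_surjective y
  obtain ⟨w, rfl⟩ := Ideal.Quotient.mk_surjective z
  exact ⟨Ideal.Quotient.mk _ w, rfl⟩

theorem le_card_quot [Finite A] (P : Ideal A) (hP : P.IsMaximal) (l : ℕ) (hl : l.Prime)
    (hlP : (l : A) ∈ P) : l ∣ Nat.card (A ⧸ P) := by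
  have hne : (1 : A ⧸ P) ≠ 0 := by
    have := Ideal.Quotient.nontrivial_iff.2 hP.ne_top
    exact one_ne_zero
  have : Fact l.Prime := ⟨hl⟩
  have h1 : addOrderOf (1 : A ⧸ P) = l := by
    apply addOrderOf_eq_prime _ hne
    rw [nsmul_eq_mul, mul_one, ← map_natCast (Ideal.Quotient.mk P), Ideal.Quotient.eq_zero_iff_mem]
    exact hlP
  rw [← h1]
  exact addOrderOf_dvd_natCard _

theorem card_above (𝔫 : Ideal (𝓞 K)) (h : 𝔫 ≠ ⊥) (l : ℕ) (hl : l.Prime) :
    Nat.card {P : MaximalSpectrum (𝓞 K ⧸ 𝔫) // (l : 𝓞 K ⧸ 𝔫) ∈ P.asIdeal} ≤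
      Module.finrank ℤ (𝓞 K) := by
  classical
  have : Finite (𝓞 K ⧸ 𝔫) := Ideal.finiteQuotientOfFreeOfNeBot 𝔫 h
  have hN' : Ideal.span {(l : 𝓞 K)} ≠ ⊥ := by
    rw [Ne, Ideal.span_singleton_eq_bot]
    exact_mod_cast hl.pos.ne'
  have : Finite (𝓞 K ⧸ Ideal.span {(l : 𝓞 K)}) := Ideal.finiteQuotientOfFreeOfNeBot _ hN'
  set A := 𝓞 K ⧸ 𝔫 with hA
  have : Finite (MaximalSpectrum A) := inferInstance
  set ι := {P : MaximalSpectrum A // (l : A) ∈ P.asIdeal} with hι
  have : Fintype ι := Fintype.ofFinite ι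
  have hI : Pairwise (Function.onFun IsCoprime fun P : ι => P.1.asIdeal) := by
    intro P Q hPQ
    apply Ideal.isCoprime_of_isMaximal
    intro h
    exact hPQ (Subtype.ext (MaximalSpectrum.ext h))
  have hle : ∀ x ∈ Ideal.span {(l : 𝓞 K)},
      ((RingHom.pi fun P : ι => Ideal.Quotient.mk P.1.asIdeal).comp (Ideal.Quotient.mk 𝔫)) x = 0 := by
    intro x hx
    obtain ⟨a, rfl⟩ := Ideal.mem_span_singleton'.1 hx
    funext P
    show Ideal.Quotient.mk P.1.asIdeal (Ideal.Quotient.mk 𝔫 (a * (l : 𝓞 K))) = 0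
    rw [Ideal.Quotient.eq_zero_iff_mem, map_mul, map_natCast]
    exact P.1.asIdeal.mul_mem_left _ P.2
  have h1 : Nat.card (∀ P : ι, A ⧸ P.1.asIdeal) ≤ l ^ Module.finrank ℤ (𝓞 K) := by
    rw [← card_nat (K := K) l]
    refine Nat.card_le_card_of_surjective (Ideal.Quotient.lift _ _ hle) ?_
    intro y
    obtain ⟨r, hr⟩ := Ideal.pi_quotient_surjective hI y
    obtain ⟨w, rfl⟩ := Ideal.Quotient.mk_surjective r
    exact ⟨Ideal.Quotient.mk _ w, funext hr⟩
  rw [Nat.card_pi] at h1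
  have h2 : l ^ Nat.card ι ≤ ∏ P : ι, Nat.card (A ⧸ P.1.asIdeal) := by
    rw [Nat.card_eq_fintype_card, ← Finset.card_univ, ← Finset.prod_const]
    refine Finset.prod_le_prod' fun P _ => ?_
    have : Finite (A ⧸ P.1.asIdeal) := Quotient.finite _
    exact Nat.le_of_dvd Nat.card_pos (le_card_quot P.1.asIdeal P.1.isMaximal l hl P.2)
  exact (Nat.pow_le_pow_iff_right hl.one_lt).1 (h2.trans h1)

end nf

theorem exists_char_prime [Finite A] [IsPrincipalIdealRing A] (d l e : ℕ) (hl : l.Prime)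
    (hle : d < l ^ (e + 1))
    (hd : Nat.card {P : MaximalSpectrum A // (l : A) ∈ P.asIdeal} ≤ d)
    (s : MaximalSpectrum A → A)
    (hs : ∀ P : MaximalSpectrum A, ∀ p ∈ P.asIdeal, p * s P = 0)
    (m : Ideal A) (B : AddSubgroup A) (hB : ∀ T : Ideal A, T ≠ ⊥ → T ≤ m → ∃ x ∈ T, x ∉ B) :
    ∃ ψ : AddChar (m ⧸ B.comap (m.subtype : m →+ A)) ℂ,
      ∀ P : MaximalSpectrum A, (l : A) ∈ P.asIdeal → s P ≠ 0 →
        (∃ T ≤ m, ∃ t ∈ T, (l : A) ^ e * t = s P) →
        ∃ t : m, ψ (QuotientAddGroup.mk t) ≠ 1 ∧ l ^ (e + 1) • t = 0 ∧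
          ∀ T : Ideal A, (∃ t ∈ T, (l : A) ^ e * t = s P) → (t : A) ∈ T := by
  classical
  have : Finite m := Subtype.finite
  have : Finite (MaximalSpectrum A) := inferInstance
  set Q := m ⧸ B.comap (m.subtype : m →+ A) with hQ
  set ι := {P : MaximalSpectrum A // (l : A) ∈ P.asIdeal ∧ s P ≠ 0 ∧
    ∃ T ≤ m, ∃ t ∈ T, (l : A) ^ e * t = s P} with hι
  have key : ∀ P : ι, ∃ t : m, addOrderOf (QuotientAddGroup.mk t : Q) = l ^ (e + 1) ∧
      l ^ (e + 1) • t = 0 ∧
      ∀ T : Ideal A, (∃ t ∈ T, (l : A) ^ e * t = s P.1) → (t : A) ∈ T := by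
    intro P
    obtain ⟨hlP, hs0, T₀, hT₀, hT⟩ := P.2
    obtain ⟨t, htm, ht0, htB, htT⟩ := good P.1.asIdeal P.1.isMaximal (s P.1) hs0 (hs P.1) l e hlP m B hB
      T₀ hT₀ hT
    have h0 : l ^ (e + 1) • (⟨t, htm⟩ : m) = 0 := by
      apply Subtype.ext
      rw [Submodule.coe_smul_of_tower, nsmul_eq_mul, Nat.cast_pow]
      exact ht0
    refine ⟨⟨t, htm⟩, ?_, h0, htT⟩
    have : Fact l.Prime := ⟨hl⟩
    apply addOrderOf_eq_prime_pow
    · intro h
      apply htB
      rw [← QuotientAddGroup.mk_nsmul, QuotientAddGroup.eq_zero_iff, AddSubgroup.mem_comap] at h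
      have h1 : ((l ^ e • (⟨t, htm⟩ : m) : m) : A) ∈ B := h
      rw [Submodule.coe_smul_of_tower, nsmul_eq_mul, Nat.cast_pow] at h1
      exact h1
    · rw [← QuotientAddGroup.mk_nsmul, h0]
      rfl
  choose t ht1 ht2 ht3 using key
  have hι' : Nat.card ι < l ^ (e + 1) := by
    refine lt_of_le_of_lt (le_trans ?_ hd) hle
    exact Nat.card_le_card_of_injective (fun P : ι => (⟨P.1, P.2.1⟩ :
      {P : MaximalSpectrum A // (l : A) ∈ P.asIdeal})) (by
        intro P P' h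
        exact Subtype.ext (congrArg (fun z => z.1) h))
  have : Finite Q := Quotient.finite _
  obtain ⟨ψ, hψ⟩ := exists_char (fun P : ι => (QuotientAddGroup.mk (t P) : Q)) (l ^ (e + 1))
    (fun P => (ht1 P).ge) hι'
  exact ⟨ψ, fun P h1 h2 h3 => ⟨t ⟨P, h1, h2, h3⟩, hψ _, ht2 _, ht3 ⟨P, h1, h2, h3⟩⟩⟩

theorem exists_prime_mem [Finite A] (P : Ideal A) (hP : P.IsMaximal) :
    ∃ l : ℕ, l.Prime ∧ (l : A) ∈ P := by
  have : Finite (A ⧸ P) := Quotient.finite _
  have : IsDomain (A ⧸ P) := (Ideal.Quotient.isDomain_iff_prime P).2 hP.isPrime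
  obtain ⟨p, hp⟩ := CharP.exists (A ⧸ P)
  refine ⟨p, CharP.char_is_prime (A ⧸ P) p, ?_⟩
  rw [← Ideal.Quotient.eq_zero_iff_mem, map_natCast]
  exact CharP.cast_eq_zero _ _

theorem nsmul_zero_of {G : Type} [AddCommGroup G] [Finite G] (t : G) (l l' k : ℕ) (hl : l.Prime)
    (hl' : l'.Prime) (hne : l ≠ l') (ht : l ^ k • t = 0) (N : ℕ) (hN : N ≠ 0) (hNt : N • t = 0)
    (E : ℕ) (hE : E ≡ 0 [MOD N / l' ^ N.factorization l']) : E • t = 0 := by
  have h1 : addOrderOf t ∣ l ^ k := addOrderOf_dvd_of_nsmul_eq_zero ht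
  have h2 : addOrderOf t ∣ N := addOrderOf_dvd_of_nsmul_eq_zero hNt
  rw [← Nat.ordProj_mul_ordCompl_eq_self N l'] at h2
  have h3 : Nat.Coprime (addOrderOf t) (l' ^ N.factorization l') :=
    Nat.Coprime.coprime_dvd_left h1
      (Nat.Coprime.pow _ _ ((Nat.coprime_primes hl hl').2 hne))
  have h4 := h3.dvd_of_dvd_mul_left h2
  have h5 : addOrderOf t ∣ E := h4.trans ((Nat.modEq_zero_iff_dvd).1 hE)
  exact addOrderOf_dvd_iff_nsmul_eq_zero.1 h5

theorem nsmul_self_of {G : Type} [AddCommGroup G] [Finite G] (t : G) (l k : ℕ) (hl : l.Prime)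
    (ht : l ^ k • t = 0) (N : ℕ) (hN : N ≠ 0) (hNt : N • t = 0)
    (E : ℕ) (hE : E ≡ 1 [MOD l ^ N.factorization l]) : E • t = t := by
  have h1 : addOrderOf t ∣ l ^ k := addOrderOf_dvd_of_nsmul_eq_zero ht
  have h2 : addOrderOf t ∣ N := addOrderOf_dvd_of_nsmul_eq_zero hNt
  rw [← Nat.ordProj_mul_ordCompl_eq_self N l] at h2
  have h3 : Nat.Coprime (addOrderOf t) (N / l ^ N.factorization l) :=
    Nat.Coprime.coprime_dvd_left h1 (Nat.Coprime.pow_left _ (Nat.coprime_ordCompl hl hN))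
  have h4 := h3.dvd_of_dvd_mul_right h2
  have h5 : E • t = 1 • t := by
    rw [nsmul_eq_nsmul_iff_modEq]
    exact hE.of_dvd h4
  rw [h5, one_nsmul]

theorem main [Finite A] [IsPrincipalIdealRing A] (d c : ℕ)
    (hab : ∀ l : ℕ, l.Prime → Nat.card {P : MaximalSpectrum A // (l : A) ∈ P.asIdeal} ≤ d)
    (htors : Nat.card {x : A // ((d.factorial ^ d : ℕ) : A) * x = 0} ≤ c)
    (m : Ideal A) (B : AddSubgroup A) (hB : ∀ T : Ideal A, T ≠ ⊥ → T ≤ m → ∃ x ∈ T, x ∉ B) :
    ∃ ψ : AddChar m ℂ, (∀ x : m, (x : A) ∈ B → ψ x = 1) ∧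
      ∀ T : Ideal A, T ≤ m → (∀ x : m, (x : A) ∈ T → ψ x = 1) → Nat.card T ≤ c := by
  classical
  have : Finite m := Subtype.finite
  have hprin : ∀ P : MaximalSpectrum A, ∃ s : A, Submodule.annihilator P.asIdeal = Ideal.span {s} :=
    fun P => (IsPrincipalIdealRing.principal (Submodule.annihilator P.asIdeal)).principal
  choose s hs using hprin
  have hsP : ∀ P : MaximalSpectrum A, ∀ p ∈ P.asIdeal, p * s P = 0 := by
    intro P p hp
    have : s P ∈ Submodule.annihilator P.asIdeal := by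
      rw [hs]
      exact Ideal.mem_span_singleton_self _
    rw [mul_comm]
    exact (Submodule.mem_annihilator.1 this) p hp
  set e : ℕ → ℕ := fun l => if l ≤ d then d else 0 with he
  have hle : ∀ l : ℕ, l.Prime → d < l ^ (e l + 1) := by
    intro l hl
    simp only [he]
    split_ifs with h
    · calc d < 2 ^ d := Nat.lt_two_pow_self
        _ ≤ l ^ d := Nat.pow_le_pow_left hl.two_le d
        _ ≤ l ^ (d + 1) := Nat.pow_le_pow_right hl.pos (Nat.le_succ d)
    · simpa using h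
  have hex : ∀ l : ℕ, ∃ ψ : AddChar (m ⧸ B.comap (m.subtype : m →+ A)) ℂ, l.Prime →
      ∀ P : MaximalSpectrum A, (l : A) ∈ P.asIdeal → s P ≠ 0 →
        (∃ T ≤ m, ∃ t ∈ T, (l : A) ^ (e l) * t = s P) →
        ∃ t : m, ψ (QuotientAddGroup.mk t) ≠ 1 ∧ l ^ (e l + 1) • t = 0 ∧
          ∀ T : Ideal A, (∃ t ∈ T, (l : A) ^ (e l) * t = s P) → (t : A) ∈ T := by
    intro l
    by_cases hl : l.Prime
    · obtain ⟨ψ, hψ⟩ := exists_char_prime d l (e l) hl (hle l hl) (hab l hl) s hsP m B hB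
      exact ⟨ψ, fun _ => hψ⟩
    · exact ⟨0, fun h => absurd h hl⟩
  choose ψ hψ using hex
  set N := Nat.card A with hN
  have hN0 : N ≠ 0 := Nat.card_pos.ne'
  have hEex : ∀ l : ℕ, ∃ E : ℕ, l.Prime → E ≡ 1 [MOD l ^ N.factorization l] ∧
      E ≡ 0 [MOD N / l ^ N.factorization l] := by
    intro l
    by_cases hl : l.Prime
    · obtain ⟨k, hk⟩ := Nat.chineseRemainder
        (Nat.Coprime.pow_left (N.factorization l) (Nat.coprime_ordCompl hl hN0)) 1 0
      exact ⟨k, fun _ => hk⟩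
    · exact ⟨0, fun h => absurd h hl⟩
  choose E hE using hEex
  set Ψ : AddChar (m ⧸ B.comap (m.subtype : m →+ A)) ℂ := ∏ l ∈ N.primeFactors, ψ l ^ E l with hΨ
  have hNt : ∀ t : m, N • t = 0 := by
    intro t
    apply Subtype.ext
    rw [Submodule.coe_smul_of_tower, Submodule.coe_zero, hN]
    exact card_nsmul_eq_zero'
  have hΨt : ∀ (l k : ℕ) (t : m), l ∈ N.primeFactors → l ^ k • t = 0 →
      Ψ (QuotientAddGroup.mk t) = ψ l (QuotientAddGroup.mk t) := by
    intro l k t hl ht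
    have hlp := Nat.prime_of_mem_primeFactors hl
    rw [hΨ, AddChar.prod_apply, Finset.prod_eq_single_of_mem l hl]
    · rw [AddChar.pow_apply, ← AddChar.map_nsmul_eq_pow, ← QuotientAddGroup.mk_nsmul,
        nsmul_self_of t l k hlp ht N hN0 (hNt t) (E l) (hE l hlp).1]
    · intro l' hl' hne
      have hlp' := Nat.prime_of_mem_primeFactors hl'
      rw [AddChar.pow_apply, ← AddChar.map_nsmul_eq_pow, ← QuotientAddGroup.mk_nsmul,
        nsmul_zero_of t l l' k hlp hlp' hne.symm ht N hN0 (hNt t) (E l') (hE l' hlp').2]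
      exact AddChar.map_zero_eq_one _
  refine ⟨Ψ.compAddMonoidHom (QuotientAddGroup.mk' _), ?_, ?_⟩
  · intro x hx
    rw [AddChar.compAddMonoidHom_apply, QuotientAddGroup.mk'_apply,
      (QuotientAddGroup.eq_zero_iff x).2 hx, AddChar.map_zero_eq_one]
  · intro T hT hψT
    refine le_trans ?_ htors
    have hz : ∀ x ∈ T, ((d.factorial ^ d : ℕ) : A) * x = 0 := by
      by_contra hcon
      push Not at hcon
      obtain ⟨x, hxT, hx0⟩ := hcon
      have hne : Ideal.span {((d.factorial ^ d : ℕ) : A)} * T ≠ ⊥ := by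
        intro h0
        apply hx0
        have := Ideal.mul_mem_mul (Ideal.mem_span_singleton_self ((d.factorial ^ d : ℕ) : A)) hxT
        rw [h0] at this
        simpa using this
      obtain ⟨P, hP0, hPle⟩ := Ind.soc _ hne
      have hs0 : s P ≠ 0 := by
        intro h
        apply hP0
        rw [hs, h, Ideal.span_singleton_eq_bot]
      have hsm : s P ∈ Ideal.span {((d.factorial ^ d : ℕ) : A)} * T := by
        apply hPle
        rw [hs]
        exact Ideal.mem_span_singleton_self _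
      obtain ⟨t, ht, hst⟩ := Ideal.mem_span_singleton_mul.1 hsm
      obtain ⟨l, hl, hlP⟩ := exists_prime_mem P.asIdeal P.isMaximal
      have hlS : l ∈ N.primeFactors := by
        rw [Nat.mem_primeFactors]
        refine ⟨hl, (le_card_quot P.asIdeal P.isMaximal l hl hlP).trans ?_, hN0⟩
        exact ⟨Nat.card P.asIdeal, by
          rw [hN, mul_comm]
          exact Submodule.card_eq_card_quotient_mul_card (R := A) P.asIdeal⟩
      have hdvd : l ^ e l ∣ d.factorial ^ d := by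
        simp only [he]
        split_ifs with h
        · exact pow_dvd_pow_of_dvd (hl.dvd_factorial.2 h) d
        · exact one_dvd _
      obtain ⟨N', hN'⟩ := hdvd
      have hT' : ∃ t ∈ T, (l : A) ^ e l * t = s P := by
        refine ⟨(N' : A) * t, T.mul_mem_left _ ht, ?_⟩
        rw [← hst, hN']
        push_cast
        ring
      obtain ⟨u, hu1, hu2, hu3⟩ := hψ l hl P hlP hs0 ⟨T, hT, hT'⟩
      have h5 := hψT u (hu3 T hT')
      rw [AddChar.compAddMonoidHom_apply, QuotientAddGroup.mk'_apply, hΨt l _ u hlS hu2] at h5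
      exact hu1 h5
    exact Nat.card_le_card_of_injective (fun x : T => (⟨x.1, hz x.1 x.2⟩ :
      {x : A // ((d.factorial ^ d : ℕ) : A) * x = 0})) (by
        intro x y h
        exact Subtype.ext (congrArg (fun z => z.1) h))

end Psi

/-- A4 -/
theorem psi : S_psi := by
  intro K _ _
  set d := Module.finrank ℤ (𝓞 K) with hd
  refine ⟨(d.factorial ^ d) ^ d, ?_⟩
  intro 𝔫 h𝔫 m B hB
  have : Finite (𝓞 K ⧸ 𝔫) := Ideal.finiteQuotientOfFreeOfNeBot 𝔫 h𝔫
  have : IsPrincipalIdealRing (𝓞 K ⧸ 𝔫) := Psi.pir 𝔫 h𝔫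
  exact Psi.main d _ (Psi.card_above 𝔫 h𝔫)
    (Psi.card_tors 𝔫 h𝔫 (d.factorial ^ d) (pow_pos d.factorial_pos d)) m B hB

end Pool.Agent.T2h77
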