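import Pool.Agent.T2h77.Cnt2
import Pool.Agent.T2h77.Psi
import Pool.Agent.T2h77.Gen
import Pool.Agent.T2h77.Cent
import Pool.Agent.T2h77.Div
import Pool.Agent.T2h77.Points
import Pool.Agent.T2h77.Box

/-!
# The core inequality of the counting theorem
-/

set_option autoImplicit false
set_option linter.unusedSectionVars false

open Matrix NumberField
open scoped MatrixGroups

noncomputable section

namespace Pool.Agent.T2h77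

namespace Cnt

/-- the final computation with real numbers -/
lemma calc_real {N φ n G s D M c Cd Cs Cu ε X P F L : ℝ}
    (hN1 : 1 ≤ N) (hφ : 0 < φ) (hn : 1 ≤ n) (hs : 0 < s) (hM : 0 ≤ M) (hc : 0 ≤ c)
    (hD0 : 0 ≤ D) (hCd : 0 < Cd) (hCs : 0 < Cs) (hCu : 0 < Cu) (hε : 0 < ε) (hε1 : ε ≤ 1 / 8)
    (hX : 1 ≤ X) (hP : 0 ≤ P)
    (hD : D ≤ Cd * N ^ ε) (hMs : M ≤ Cs * N ^ ε) (hu : N ≤ Cu * N ^ ε * φ)
    (hG : N ^ 2 * φ ≤ G) (hGs : G = s * n)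
    (hL : L * φ ^ 2 ≤ D * (M * (M * c * N ^ 4))) (hs2 : s * φ ^ 2 ≤ M * c * N ^ 4)
    (hF : s * F ≤ (M * N ^ 2 / φ) * P * (X * L + s * (X ^ 2 / N))) :
    F ≤ (Cd * Cs ^ 3 * c * Cu ^ 4 + Cs * Cu) * (Cs * c * Cu ^ 3 + 1) ^ (16 * ε) * P * n ^ (16 * ε) *
      (n * X + X ^ 2) := by
  have hN0 : 0 < N := by linarith
  have hn0 : 0 < n := by linarith
  have hX0 : 0 < X := by linarith
  set E := N ^ ε with hE
  have hE0 : 0 < E := by positivity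
  have hE1 : 1 ≤ E := Real.one_le_rpow hN1 hε.le
  -- `N / φ`
  have hr : N / φ ≤ Cu * E := by
    rw [div_le_iff₀ hφ]; exact hu
  have hr0 : 0 ≤ N / φ := by positivity
  -- bound of `F`
  have hF1 : F ≤ P * (D * M ^ 3 * c * (N / φ) ^ 4 * (n * X) + M * (N / φ) * X ^ 2) := by
    have h1 : N ^ 2 * φ ≤ s * n := by rw [← hGs]; exact hG
    have h2 : L ≤ D * (M * (M * c * N ^ 4)) / φ ^ 2 := by
      rw [le_div_iff₀ (by positivity)]; exact hL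
    -- `1 ≤ s n / (N² φ)`
    have h3 : 1 ≤ s * n / (N ^ 2 * φ) := by
      rw [le_div_iff₀ (by positivity)]; linarith
    have h4 : (M * N ^ 2 / φ) * P * (X * L + s * (X ^ 2 / N)) ≤
        s * (P * (D * M ^ 3 * c * (N / φ) ^ 4 * (n * X) + M * (N / φ) * X ^ 2)) := by
      have h5 : X * L ≤ X * (D * (M * (M * c * N ^ 4)) / φ ^ 2) * (s * n / (N ^ 2 * φ)) := by
        have h6 : X * L ≤ X * (D * (M * (M * c * N ^ 4)) / φ ^ 2) := by gcongr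
        have h7 : 0 ≤ X * (D * (M * (M * c * N ^ 4)) / φ ^ 2) := by positivity
        nlinarith
      calc (M * N ^ 2 / φ) * P * (X * L + s * (X ^ 2 / N))
          ≤ (M * N ^ 2 / φ) * P * (X * (D * (M * (M * c * N ^ 4)) / φ ^ 2) * (s * n / (N ^ 2 * φ)) +
              s * (X ^ 2 / N)) := by gcongr
        _ = _ := by
            field_simp
    exact le_of_mul_le_mul_left (hF.trans h4) hs
  -- bound of `N`
  have hNn : N ≤ n * (Cs * c * Cu ^ 3) * E ^ 4 := by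
    -- `N² φ · φ² ≤ n s φ² ≤ n M c N⁴`
    have h1 : N ^ 2 * φ ^ 3 ≤ n * (M * c * N ^ 4) := by
      calc N ^ 2 * φ ^ 3 = (N ^ 2 * φ) * φ ^ 2 := by ring
        _ ≤ (s * n) * φ ^ 2 := by rw [← hGs]; gcongr
        _ = n * (s * φ ^ 2) := by ring
        _ ≤ _ := by gcongr
    have h2 : N ^ 3 ≤ (Cu * E) ^ 3 * φ ^ 3 := by
      rw [← mul_pow]; exact pow_le_pow_left₀ hN0.le hu 3
    have h3 : N ^ 5 ≤ n * (M * c * N ^ 4) * (Cu * E) ^ 3 := by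
      calc N ^ 5 = N ^ 2 * N ^ 3 := by ring
        _ ≤ N ^ 2 * ((Cu * E) ^ 3 * φ ^ 3) := by gcongr
        _ = (N ^ 2 * φ ^ 3) * (Cu * E) ^ 3 := by ring
        _ ≤ _ := by gcongr
    have h4 : N ^ 4 * N ≤ N ^ 4 * (n * (Cs * c * Cu ^ 3) * E ^ 4) := by
      calc N ^ 4 * N = N ^ 5 := by ring
        _ ≤ n * (M * c * N ^ 4) * (Cu * E) ^ 3 := h3
        _ ≤ n * ((Cs * E) * c * N ^ 4) * (Cu * E) ^ 3 := by gcongr
        _ = _ := by ring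
    exact le_of_mul_le_mul_left h4 (by positivity)
  set B := Cs * c * Cu ^ 3 + 1 with hB
  have hB1 : 1 ≤ B := by rw [hB]; have : 0 ≤ Cs * c * Cu ^ 3 := by positivity
                         linarith
  have hNn' : N ≤ (n * B) ^ 2 := by
    have h1 : N ≤ n * B * N ^ (1 / 2 : ℝ) := by
      have h2 : E ^ 4 ≤ N ^ (1 / 2 : ℝ) := by
        rw [hE, ← Real.rpow_natCast, ← Real.rpow_mul hN0.le]
        apply Real.rpow_le_rpow_of_exponent_le hN1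
        push_cast
        linarith
      calc N ≤ n * (Cs * c * Cu ^ 3) * E ^ 4 := hNn
        _ ≤ n * B * N ^ (1 / 2 : ℝ) := by
            have : Cs * c * Cu ^ 3 ≤ B := by rw [hB]; linarith
            gcongr
    have h3 : N = N ^ (1 / 2 : ℝ) * N ^ (1 / 2 : ℝ) := by
      rw [← Real.rpow_add hN0]; norm_num
    have h4 : N ^ (1 / 2 : ℝ) ≤ n * B := by
      have h5 : 0 < N ^ (1 / 2 : ℝ) := by positivity
      rw [h3] at h1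
      have h6 : N ^ (1 / 2 : ℝ) * N ^ (1 / 2 : ℝ) ≤ n * B * (N ^ (1 / 2 : ℝ)) := by
        calc N ^ (1 / 2 : ℝ) * N ^ (1 / 2 : ℝ) ≤ _ := h1
          _ = _ := by rw [← h3]
      exact le_of_mul_le_mul_right h6 h5
    rw [h3, sq]
    have h5 : 0 ≤ N ^ (1 / 2 : ℝ) := by positivity
    gcongr
  have hE8 : E ^ 8 ≤ B ^ (16 * ε) * n ^ (16 * ε) := by
    have h1 : E ^ 8 = N ^ (8 * ε) := by
      rw [hE, ← Real.rpow_natCast, ← Real.rpow_mul hN0.le]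
      congr 1
      push_cast
      ring
    rw [h1, mul_comm (B ^ _), ← Real.mul_rpow hn0.le (by linarith)]
    calc N ^ (8 * ε) ≤ ((n * B) ^ 2) ^ (8 * ε) :=
          Real.rpow_le_rpow hN0.le hNn' (by positivity)
      _ = (n * B) ^ (16 * ε) := by
          rw [← Real.rpow_natCast (n * B) 2, ← Real.rpow_mul (by positivity)]
          congr 1
          push_cast
          ring
  have hE2 : E ^ 2 ≤ E ^ 8 := pow_le_pow_right₀ hE1 (by norm_num)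
  refine hF1.trans ?_
  calc P * (D * M ^ 3 * c * (N / φ) ^ 4 * (n * X) + M * (N / φ) * X ^ 2)
      ≤ P * ((Cd * E) * (Cs * E) ^ 3 * c * (Cu * E) ^ 4 * (n * X) + (Cs * E) * (Cu * E) * X ^ 2) := by
        gcongr
    _ = P * (Cd * Cs ^ 3 * c * Cu ^ 4 * E ^ 8 * (n * X) + Cs * Cu * E ^ 2 * X ^ 2) := by ring
    _ ≤ P * ((Cd * Cs ^ 3 * c * Cu ^ 4 + Cs * Cu) * E ^ 8 * (n * X + X ^ 2)) := by
        gcongr
        have h1 : 0 ≤ Cd * Cs ^ 3 * c * Cu ^ 4 * E ^ 8 * X ^ 2 := by positivity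
        have h2 : 0 ≤ Cs * Cu * E ^ 8 * (n * X) := by positivity
        have h3 : Cs * Cu * E ^ 2 * X ^ 2 ≤ Cs * Cu * E ^ 8 * X ^ 2 := by gcongr
        nlinarith
    _ ≤ P * ((Cd * Cs ^ 3 * c * Cu ^ 4 + Cs * Cu) * (B ^ (16 * ε) * n ^ (16 * ε)) * (n * X + X ^ 2)) := by
        gcongr
    _ = _ := by ring

/-- the core inequality -/
theorem core (K : Type) [Field K] [NumberField K] (ε : ℝ) (hε : 0 < ε) : ∃ C : ℝ, 0 < C ∧
    ∀ 𝔫 : Ideal (𝓞 K), 𝔫 ≠ ⊥ → ∀ H : Subgroup SL(2, 𝓞 K ⧸ 𝔫),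
      (∀ T : Ideal (𝓞 K ⧸ 𝔫), T ≠ ⊥ → ¬ (rd T).ker ≤ H) →
      ∀ S : Finset SL(2, 𝓞 K ⧸ 𝔫), (∀ h, h ∈ S ↔ h ∈ H) → ∀ X P F : ℝ, 1 ≤ X → 0 ≤ P →
      ∀ cnt : SL(2, 𝓞 K ⧸ 𝔫) → ℝ,
      (∀ h ∈ S, cnt h ≤ P * (X / Nat.card ((𝓞 K ⧸ 𝔫) ⧸ lev h)) *
        (1 + X / (Ideal.absNorm 𝔫 * Nat.card ((𝓞 K ⧸ 𝔫) ⧸ lev h)))) →
      (S.card : ℝ) * F ≤ ∑ h ∈ S, (Nat.card {g : SL(2, 𝓞 K ⧸ 𝔫) // g * h = h * g} : ℝ) * cnt h →
      F ≤ C * P * (H.index : ℝ) ^ ε * (H.index * X + X ^ 2) := by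
  classical
  set ε' : ℝ := min (ε / 16) (1 / 8) with hε'
  have hε'0 : 0 < ε' := by positivity
  obtain ⟨c, hpsi⟩ := psi K
  obtain ⟨Cd, hCd, hdiv⟩ := sdiv K ε' hε'0
  obtain ⟨Cs, hCs, hsq⟩ := ssqrt K ε' hε'0
  obtain ⟨Cu, hCu, hun⟩ := sunit K ε' hε'0
  refine ⟨(Cd * Cs ^ 3 * c * Cu ^ 4 + Cs * Cu) * (Cs * c * Cu ^ 3 + 1) ^ (16 * ε'), by positivity,
    fun 𝔫 h𝔫 H hH S hS X P F hX hP cnt hcnt hF => ?_⟩
  have hfA : Finite (𝓞 K ⧸ 𝔫) := Ideal.finiteQuotientOfFreeOfNeBot 𝔫 h𝔫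
  have hpir : IsPrincipalIdealRing (𝓞 K ⧸ 𝔫) := pir h𝔫
  have hfG : Finite SL(2, 𝓞 K ⧸ 𝔫) := Ind.finSL
  set N : ℝ := (Ideal.absNorm 𝔫 : ℝ) with hN
  have hNA : N = (Nat.card (𝓞 K ⧸ 𝔫) : ℝ) := by rw [hN, norm_eq_card]
  have hN1 : 1 ≤ N := by
    rw [hNA]
    exact_mod_cast Nat.one_le_iff_ne_zero.2 Nat.card_pos.ne'
  have hN0 : 0 < N := by linarith
  set φ : ℝ := (Nat.card (𝓞 K ⧸ 𝔫)ˣ : ℝ) with hφ
  have hφ0 : 0 < φ := by
    rw [hφ]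
    exact_mod_cast Nat.card_pos
  set n : ℝ := (H.index : ℝ) with hn
  have hn1 : 1 ≤ n := by
    rw [hn]
    exact_mod_cast Nat.one_le_iff_ne_zero.2 Subgroup.FiniteIndex.index_ne_zero
  set M : ℕ := ⌊Cs * N ^ ε'⌋₊ with hM
  have hMr : (M : ℝ) ≤ Cs * N ^ ε' := Nat.floor_le (by positivity)
  have hMJ : ∀ J : Ideal (𝓞 K ⧸ 𝔫), Nat.card {u : (𝓞 K ⧸ 𝔫) ⧸ J // u ^ 2 = 1} ≤ M := by
    intro J
    rcases card_sqrt_comap 𝔫 J with h | h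
    · refine h.trans (Nat.le_floor ?_)
      refine (hsq _ (comap_ne_bot h𝔫 J)).trans ?_
      have h1 : (Ideal.absNorm (J.comap (Ideal.Quotient.mk 𝔫)) : ℝ) ≤ N := by
        rw [hN]; exact_mod_cast norm_comap_le h𝔫 J
      gcongr
    · exact absurd h h𝔫
  have hMA : Nat.card {u : 𝓞 K ⧸ 𝔫 // u ^ 2 = 1} ≤ M := Nat.le_floor (hsq 𝔫 h𝔫)
  have hHT : ∀ T : Ideal (𝓞 K ⧸ 𝔫), T ≠ ⊥ → ∃ (g : SL(2, 𝓞 K ⧸ 𝔫)) (x : 𝓞 K ⧸ 𝔫),
      x ∈ T ∧ g * nU x * g⁻¹ ∉ H := by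
    intro T hT
    by_contra hcon
    push Not at hcon
    exact hH T hT (gen _ T H fun g x hx => hcon g x hx)
  have hidx := index (𝓞 K ⧸ 𝔫) M c hMJ (hpsi 𝔫 h𝔫) H hHT
  have hlev := levsum H M _ hMJ hidx S (fun h hh => (hS h).1 hh)
  -- the order of `H`
  have hScard : S.card = Nat.card H := by
    rw [← Nat.card_congr (Equiv.subtypeEquivRight (fun h => hS h)), Nat.card_eq_fintype_card,
      Fintype.card_coe]
  have hs0 : (0 : ℝ) < S.card := by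
    rw [hScard]; exact_mod_cast Nat.card_pos
  have hGs : (Nat.card SL(2, 𝓞 K ⧸ 𝔫) : ℝ) = (S.card : ℝ) * n := by
    rw [hScard, hn]
    exact_mod_cast (Subgroup.card_mul_index H).symm
  have hG : N ^ 2 * φ ≤ (Nat.card SL(2, 𝓞 K ⧸ 𝔫) : ℝ) := by
    rw [hNA, hφ]
    exact_mod_cast card_SL_ge (A := 𝓞 K ⧸ 𝔫)
  -- the level sum
  set L : ℝ := ∑ h ∈ S, (Nat.card ((𝓞 K ⧸ 𝔫) ⧸ lev h) : ℝ) with hL
  have hL1 : L * φ ^ 2 ≤ (Nat.card (Ideal (𝓞 K ⧸ 𝔫)) : ℝ) * (M * (M * c * N ^ 4)) := by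
    rw [hL, hφ, hNA]
    exact_mod_cast hlev
  have hs2 : (S.card : ℝ) * φ ^ 2 ≤ M * c * N ^ 4 := by
    have h1 := hidx ⊤
    have h2 : Nat.card ((𝓞 K ⧸ 𝔫) ⧸ (⊤ : Ideal (𝓞 K ⧸ 𝔫))) = 1 := by
      have : Subsingleton ((𝓞 K ⧸ 𝔫) ⧸ (⊤ : Ideal (𝓞 K ⧸ 𝔫))) :=
        Ideal.Quotient.subsingleton_iff.2 rfl
      exact Nat.card_unique
    have h3 : (H ⊓ (rd (⊤ : Ideal (𝓞 K ⧸ 𝔫))).ker : Subgroup SL(2, 𝓞 K ⧸ 𝔫)) = H := by
      rw [inf_eq_left]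
      intro x _
      rw [Ind.mem_ker_iff]
      simp
    rw [h2, h3, mul_one, ← hScard] at h1
    rw [hφ, hNA]
    exact_mod_cast h1
  -- the centralisers
  have hcent : ∀ h : SL(2, 𝓞 K ⧸ 𝔫), (Nat.card {g : SL(2, 𝓞 K ⧸ 𝔫) // g * h = h * g} : ℝ) ≤
      M * N ^ 2 / φ * (Nat.card ((𝓞 K ⧸ 𝔫) ⧸ lev h) : ℝ) ^ 2 := by
    intro h
    have h1 := cent (𝓞 K ⧸ 𝔫) h
    have h2 : (Nat.card {g : SL(2, 𝓞 K ⧸ 𝔫) // g * h = h * g} : ℝ) * φ ≤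
        M * (N * Nat.card ((𝓞 K ⧸ 𝔫) ⧸ lev h)) ^ 2 := by
      calc (Nat.card {g : SL(2, 𝓞 K ⧸ 𝔫) // g * h = h * g} : ℝ) * φ
          ≤ (Nat.card {u : 𝓞 K ⧸ 𝔫 // u ^ 2 = 1} : ℝ) *
              (N * Nat.card ((𝓞 K ⧸ 𝔫) ⧸ lev h)) ^ 2 := by
            rw [hφ, hNA]
            exact_mod_cast h1
        _ ≤ _ := by
            have : (Nat.card {u : 𝓞 K ⧸ 𝔫 // u ^ 2 = 1} : ℝ) ≤ M := by exact_mod_cast hMA
            gcongr
    rw [div_mul_eq_mul_div, le_div_iff₀ hφ0]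
    calc _ ≤ M * (N * Nat.card ((𝓞 K ⧸ 𝔫) ⧸ lev h)) ^ 2 := h2
      _ = _ := by ring
  have hFb : (S.card : ℝ) * F ≤ (M * N ^ 2 / φ) * P * (X * L + S.card * (X ^ 2 / N)) := by
    refine hF.trans ?_
    have hX0 : 0 < X := by linarith
    calc ∑ h ∈ S, (Nat.card {g : SL(2, 𝓞 K ⧸ 𝔫) // g * h = h * g} : ℝ) * cnt h
        ≤ ∑ h ∈ S, (M * N ^ 2 / φ) * P *
            (X * (Nat.card ((𝓞 K ⧸ 𝔫) ⧸ lev h) : ℝ) + X ^ 2 / N) := by
          refine Finset.sum_le_sum fun h hh => ?_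
          have hfq : Finite ((𝓞 K ⧸ 𝔫) ⧸ lev h) := Quotient.finite _
          have hl0 : (0 : ℝ) < Nat.card ((𝓞 K ⧸ 𝔫) ⧸ lev h) := by exact_mod_cast Nat.card_pos
          set l : ℝ := (Nat.card ((𝓞 K ⧸ 𝔫) ⧸ lev h) : ℝ) with hl
          calc (Nat.card {g : SL(2, 𝓞 K ⧸ 𝔫) // g * h = h * g} : ℝ) * cnt h
              ≤ (Nat.card {g : SL(2, 𝓞 K ⧸ 𝔫) // g * h = h * g} : ℝ) *
                (P * (X / l) * (1 + X / (N * l))) := by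
                have := hcnt h hh
                gcongr
            _ ≤ (M * N ^ 2 / φ * l ^ 2) * (P * (X / l) * (1 + X / (N * l))) := by
                have := hcent h
                gcongr
            _ = _ := by
                field_simp
      _ = (M * N ^ 2 / φ) * P * (X * L + S.card * (X ^ 2 / N)) := by
          rw [← Finset.mul_sum, Finset.sum_add_distrib, ← Finset.mul_sum, Finset.sum_const,
            nsmul_eq_mul]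
  have hres := calc_real (N := N) (φ := φ) (n := n) (s := S.card) (M := M) (c := c) hN1 hφ0 hn1 hs0
    (Nat.cast_nonneg _) (Nat.cast_nonneg _) (Nat.cast_nonneg _) hCd hCs hCu hε'0 (min_le_right _ _)
    hX hP (hdiv 𝔫 h𝔫) hMr (hun 𝔫 h𝔫) hG hGs hL1 hs2 hFb
  refine hres.trans ?_
  have hexp : n ^ (16 * ε') ≤ n ^ ε := by
    apply Real.rpow_le_rpow_of_exponent_le hn1
    have := min_le_left (ε / 16) (1 / 8)
    rw [← hε'] at this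
    linarith
  have hX0 : 0 < X := by linarith
  gcongr

end Cnt

end Pool.Agent.T2h77
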