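import Pool.Agent.T2h77.Cnt3

/-!
# The counting theorem
-/

set_option autoImplicit false
set_option linter.unusedSectionVars false

open Matrix NumberField
open scoped MatrixGroups

noncomputable section

namespace Pool.Agent.T2h77

namespace Cnt

variable {K : Type} [Field K] [NumberField K]

/-- a minimal level -/
theorem exists_level {P : Ideal (𝓞 K) → Prop} (hP : ∃ 𝔫, 𝔫 ≠ ⊥ ∧ P 𝔫) :
    ∃ 𝔫 : Ideal (𝓞 K), 𝔫 ≠ ⊥ ∧ P 𝔫 ∧ ∀ T : Ideal (𝓞 K ⧸ 𝔫), T ≠ ⊥ →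
      ¬ P (T.comap (Ideal.Quotient.mk 𝔫)) := by
  classical
  have hex : ∃ N : ℕ, ∃ 𝔫 : Ideal (𝓞 K), 𝔫 ≠ ⊥ ∧ P 𝔫 ∧ Ideal.absNorm 𝔫 = N := by
    obtain ⟨𝔫, h1, h2⟩ := hP
    exact ⟨_, 𝔫, h1, h2, rfl⟩
  obtain ⟨𝔫, h1, h2, h3⟩ := Nat.find_spec hex
  refine ⟨𝔫, h1, h2, fun T hT hPT => ?_⟩
  have h4 := Nat.find_min' hex ⟨_, comap_ne_bot h1 T, hPT, rfl⟩
  rw [← h3, card_comap, norm_eq_card] at h4
  have hfA : Finite (𝓞 K ⧸ 𝔫) := Ideal.finiteQuotientOfFreeOfNeBot 𝔫 h1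
  have h5 : Nat.card (𝓞 K ⧸ 𝔫) = Nat.card ((𝓞 K ⧸ 𝔫) ⧸ T) * Nat.card T := by
    rw [mul_comm]
    exact Submodule.card_eq_card_quotient_mul_card T
  have h6 : 0 < Nat.card ((𝓞 K ⧸ 𝔫) ⧸ T) := by
    have : Finite ((𝓞 K ⧸ 𝔫) ⧸ T) := Quotient.finite _
    exact Nat.card_pos
  have h7 : Nat.card T ≤ 1 := by
    rw [h5] at h4
    exact Nat.le_of_mul_le_mul_left (by omega) h6
  apply hT
  have : Finite T := Subtype.finite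
  have h8 : Subsingleton T := (Finite.card_le_one_iff_subsingleton).1 h7
  rw [eq_bot_iff]
  intro x hx
  have := congrArg Subtype.val (h8.elim ⟨x, hx⟩ 0)
  simpa using this

theorem conj_entries {𝔫 : Ideal (𝓞 K)} {δ : SL(2, 𝓞 K)} {h : SL(2, 𝓞 K ⧸ 𝔫)}
    (hc : IsConj (rd 𝔫 δ) h) :
    δ 0 1 ∈ (lev h).comap (Ideal.Quotient.mk 𝔫) ∧ δ 1 0 ∈ (lev h).comap (Ideal.Quotient.mk 𝔫) ∧
      δ 0 0 - δ 1 1 ∈ (lev h).comap (Ideal.Quotient.mk 𝔫) := by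
  obtain ⟨c, hc⟩ := isConj_iff.1 hc.symm
  obtain ⟨m1, m2, m3⟩ := lev_mem h
  obtain ⟨k1, k2, k3⟩ := conj_scalar (lev h) c h m1 m2 m3
  rw [hc] at k1 k2 k3
  refine ⟨k1, k2, ?_⟩
  rw [Ideal.mem_comap, map_sub]
  exact k3

theorem conj_trace {𝔫 : Ideal (𝓞 K)} (h𝔫 : 𝔫 ≠ ⊥) {δ δ₀ : SL(2, 𝓞 K)} {h : SL(2, 𝓞 K ⧸ 𝔫)}
    (hc : IsConj (rd 𝔫 δ) h) (hc₀ : IsConj (rd 𝔫 δ₀) h) :
    δ 0 0 + δ 1 1 - (δ₀ 0 0 + δ₀ 1 1) ∈ 𝔫 * (lev h).comap (Ideal.Quotient.mk 𝔫) := by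
  obtain ⟨c, hc'⟩ := isConj_iff.1 (hc₀.trans hc.symm)
  obtain ⟨g, rfl⟩ := surj K 𝔫 h𝔫 c
  obtain ⟨k1, k2, k3⟩ := conj_entries hc
  have h1 := trace 𝔫 _ (le_comap 𝔫 (lev h)) δ (g * δ₀ * g⁻¹) (fun i j => by
    rw [← Ideal.Quotient.eq]
    have h2 : rd 𝔫 (g * δ₀ * g⁻¹) = rd 𝔫 δ := by rw [map_mul, map_mul, map_inv, hc']
    exact congrArg (fun M : SL(2, 𝓞 K ⧸ 𝔫) => M i j) h2) k1 k2 k3
  rwa [tr_conj] at h1

end Cnt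

open Cnt in
/-- A9: the counting theorem -/
theorem count : S_count := by
  intro K _ _ v C₀ ε hε
  classical
  obtain ⟨C, hC, hcore⟩ := core K ε hε
  obtain ⟨C', hC', hpts⟩ := points box (fac sdiv) K v C₀ ε hε
  refine ⟨C * C', by positivity, fun Γ hΓ X hX s hs => ?_⟩
  obtain ⟨𝔫, h𝔫, hker, hmin⟩ := exists_level (P := fun 𝔫 => (rd 𝔫).ker ≤ Γ) hΓ
  have hfA : Finite (𝓞 K ⧸ 𝔫) := Ideal.finiteQuotientOfFreeOfNeBot 𝔫 h𝔫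
  have hfG : Finite SL(2, 𝓞 K ⧸ 𝔫) := Ind.finSL
  set H : Subgroup SL(2, 𝓞 K ⧸ 𝔫) := Γ.map (rd 𝔫) with hH
  have hHT : ∀ T : Ideal (𝓞 K ⧸ 𝔫), T ≠ ⊥ → ¬ (rd T).ker ≤ H := by
    intro T hT hle
    refine hmin T hT fun γ hγ => ?_
    refine mem_of_map (rd 𝔫) Γ hker γ (hle ?_)
    rw [Ind.mem_ker_iff] at hγ ⊢
    intro i j
    have h1 := hγ i j
    rw [Ideal.mem_comap, map_sub] at h1
    have h2 : (rd 𝔫 γ) i j = Ideal.Quotient.mk 𝔫 (γ i j) := rfl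
    have h3 : (1 : Matrix (Fin 2) (Fin 2) (𝓞 K ⧸ 𝔫)) i j =
        Ideal.Quotient.mk 𝔫 ((1 : Matrix (Fin 2) (Fin 2) (𝓞 K)) i j) := by
      rw [Matrix.one_apply, Matrix.one_apply]
      split_ifs <;> simp
    rw [h3]
    exact h1
  set S : Finset SL(2, 𝓞 K ⧸ 𝔫) := (Set.toFinite (H : Set SL(2, 𝓞 K ⧸ 𝔫))).toFinset with hS
  have hSm : ∀ h, h ∈ S ↔ h ∈ H := fun h => by simp [hS]
  have hidx : H.index = Γ.index := Subgroup.index_map_eq Γ (surj K 𝔫 h𝔫) hker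
  have hX0 : 0 < X := by linarith
  set P : ℝ := C' * X ^ ε with hP
  have hdbl := dbl (rd 𝔫) Γ hker S hSm s (fun δ => rd 𝔫 δ) (fun δ x => δ • x = x) (fun δ x hx => by
    have h2 : ((δ * x.out : SL(2, 𝓞 K)) : SL(2, 𝓞 K) ⧸ Γ) = ((x.out : SL(2, 𝓞 K)) : SL(2, 𝓞 K) ⧸ Γ) := by
      have h3 : δ • ((x.out : SL(2, 𝓞 K)) : SL(2, 𝓞 K) ⧸ Γ) = ((x.out : SL(2, 𝓞 K)) : SL(2, 𝓞 K) ⧸ Γ) := by
        rw [QuotientGroup.out_eq']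
        exact hx
      exact h3
    have h3 := QuotientGroup.eq.1 h2.symm
    rw [← mul_assoc] at h3
    rw [← map_inv, ← map_mul, ← map_mul]
    exact Subgroup.mem_map_of_mem _ h3)
  have hres := hcore 𝔫 h𝔫 H hHT S hSm X P (∑ δ ∈ s, (fix Γ δ : ℝ)) hX (by positivity)
    (fun h => ((s.filter fun δ => IsConj (rd 𝔫 δ) h).card : ℝ)) ?_ ?_
  · rw [hidx] at hres
    refine hres.trans (le_of_eq ?_)
    rw [hP, Real.mul_rpow (Nat.cast_nonneg _) hX0.le]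
    ring
  · intro h _
    rcases (s.filter fun δ => IsConj (rd 𝔫 δ) h).eq_empty_or_nonempty with he | ⟨δ₀, hδ₀⟩
    · simp only [he, Finset.card_empty, Nat.cast_zero]
      positivity
    · have h0 := (Finset.mem_filter.1 hδ₀).2
      have := hpts 𝔫 ((lev h).comap (Ideal.Quotient.mk 𝔫)) h𝔫 (comap_ne_bot h𝔫 _)
        (δ₀ 0 0 + δ₀ 1 1) X hX (s.filter fun δ => IsConj (rd 𝔫 δ) h) (fun δ hδ => by
          obtain ⟨hδ1, hδ2⟩ := Finset.mem_filter.1 hδ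
          obtain ⟨k1, k2, k3⟩ := conj_entries hδ2
          obtain ⟨g1, g2, g3, g4⟩ := hs δ hδ1
          exact ⟨g1, g2, g3, g4, k1, k2, k3, conj_trace h𝔫 hδ2 h0⟩)
      rw [card_comap] at this
      exact this
  · exact_mod_cast hdbl

end Pool.Agent.T2h77
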