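import Pool.Agent.T2h77.Cnt4
import Pool.Agent.T2h77.Stm2

/-!
# Reduction of `SL₂(𝓞[1/𝔭])` modulo ideals
-/

set_option autoImplicit false
set_option linter.unusedSectionVars false
set_option linter.unusedSimpArgs false

open Matrix NumberField
open scoped MatrixGroups

noncomputable section

namespace Pool.Agent.T2h77

namespace Cnt

variable {K : Type} [Field K] [NumberField K]

/-! ### The fractional ideals -/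

theorem cv_add (a b : 𝓞 K) : ((a + b : 𝓞 K) : K) = (a : K) + (b : K) := map_add (algebraMap (𝓞 K) K) a b
theorem cv_sub (a b : 𝓞 K) : ((a - b : 𝓞 K) : K) = (a : K) - (b : K) := map_sub (algebraMap (𝓞 K) K) a b
theorem cv_mul (a b : 𝓞 K) : ((a * b : 𝓞 K) : K) = (a : K) * (b : K) := map_mul (algebraMap (𝓞 K) K) a b
theorem cv_neg (a : 𝓞 K) : ((-a : 𝓞 K) : K) = -(a : K) := map_neg (algebraMap (𝓞 K) K) a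
theorem cv_one : ((1 : 𝓞 K) : K) = 1 := map_one (algebraMap (𝓞 K) K)
theorem cv_zero : ((0 : 𝓞 K) : K) = 0 := map_zero (algebraMap (𝓞 K) K)
theorem cv_pow (a : 𝓞 K) (n : ℕ) : ((a ^ n : 𝓞 K) : K) = (a : K) ^ n := map_pow (algebraMap (𝓞 K) K) a n

theorem Fr_mono {𝔭 : Ideal (𝓞 K)} {k l : ℕ} (hkl : k ≤ l) {I J : Ideal (𝓞 K)} (hIJ : I ≤ J) :
    Fr 𝔭 k I ⊆ Fr 𝔭 l J := by
  intro x hx a ha
  obtain ⟨b, hb, h⟩ := hx a (Ideal.pow_le_pow_right hkl ha)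
  exact ⟨b, hIJ hb, h⟩

theorem Fr_coe {𝔭 : Ideal (𝓞 K)} {k : ℕ} {I : Ideal (𝓞 K)} {x : 𝓞 K} (hx : x ∈ I) :
    (x : K) ∈ Fr 𝔭 k I := by
  intro a _
  exact ⟨a * x, I.mul_mem_left _ hx, (cv_mul a x).symm⟩

theorem Fr_zero {𝔭 : Ideal (𝓞 K)} {k : ℕ} {I : Ideal (𝓞 K)} : (0 : K) ∈ Fr 𝔭 k I :=
  fun a _ => ⟨0, I.zero_mem, by simp⟩

theorem Fr_add {𝔭 : Ideal (𝓞 K)} {k : ℕ} {I : Ideal (𝓞 K)} {x y : K} (hx : x ∈ Fr 𝔭 k I)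
    (hy : y ∈ Fr 𝔭 k I) : x + y ∈ Fr 𝔭 k I := by
  intro a ha
  obtain ⟨b, hb, h⟩ := hx a ha
  obtain ⟨c, hc, h'⟩ := hy a ha
  exact ⟨b + c, I.add_mem hb hc, by simp only [cv_add, cv_sub, cv_mul, cv_neg, cv_one, cv_zero, cv_pow]; rw [mul_add, h, h']⟩

theorem Fr_neg {𝔭 : Ideal (𝓞 K)} {k : ℕ} {I : Ideal (𝓞 K)} {x : K} (hx : x ∈ Fr 𝔭 k I) :
    -x ∈ Fr 𝔭 k I := by
  intro a ha
  obtain ⟨b, hb, h⟩ := hx a ha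
  exact ⟨-b, I.neg_mem hb, by simp only [cv_add, cv_sub, cv_mul, cv_neg, cv_one, cv_zero, cv_pow]; rw [mul_neg, h]⟩

theorem Fr_sub {𝔭 : Ideal (𝓞 K)} {k : ℕ} {I : Ideal (𝓞 K)} {x y : K} (hx : x ∈ Fr 𝔭 k I)
    (hy : y ∈ Fr 𝔭 k I) : x - y ∈ Fr 𝔭 k I := by
  rw [sub_eq_add_neg]
  exact Fr_add hx (Fr_neg hy)

theorem Fr_mul {𝔭 : Ideal (𝓞 K)} {k l : ℕ} {I J : Ideal (𝓞 K)} {x y : K} (hx : x ∈ Fr 𝔭 k I)
    (hy : y ∈ Fr 𝔭 l J) : x * y ∈ Fr 𝔭 (k + l) (I * J) := by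
  intro a ha
  rw [pow_add] at ha
  refine Submodule.mul_induction_on ha ?_ ?_
  · intro a ha a' ha'
    obtain ⟨b, hb, h⟩ := hx a ha
    obtain ⟨c, hc, h'⟩ := hy a' ha'
    refine ⟨b * c, Ideal.mul_mem_mul hb hc, ?_⟩
    simp only [cv_add, cv_sub, cv_mul, cv_neg, cv_one, cv_zero, cv_pow]
    rw [← h, ← h']
    ring
  · rintro a a' ⟨b, hb, h⟩ ⟨c, hc, h'⟩
    refine ⟨b + c, (I * J).add_mem hb hc, ?_⟩
    simp only [cv_add, cv_sub, cv_mul, cv_neg, cv_one, cv_zero, cv_pow]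
    rw [← h, ← h']
    ring

theorem Fr_mul_left {𝔭 : Ideal (𝓞 K)} {l : ℕ} {J : Ideal (𝓞 K)} (c : 𝓞 K) {y : K}
    (hy : y ∈ Fr 𝔭 l J) : (c : K) * y ∈ Fr 𝔭 l J := by
  intro a ha
  obtain ⟨b, hb, h⟩ := hy a ha
  refine ⟨c * b, J.mul_mem_left _ hb, ?_⟩
  simp only [cv_add, cv_sub, cv_mul, cv_neg, cv_one, cv_zero, cv_pow]
  rw [← h]
  ring

theorem Fr_coprime {𝔭 : Ideal (𝓞 K)} {k l : ℕ} {J : Ideal (𝓞 K)} (hJ : 𝔭 ⊔ J = ⊤) {x : K}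
    (hx : x ∈ Fr 𝔭 l J) (hx' : x ∈ Fr 𝔭 k ⊤) : x ∈ Fr 𝔭 k J := by
  intro a ha
  obtain ⟨b, -, hb⟩ := hx' a ha
  refine ⟨b, ?_, hb⟩
  have h1 : 𝔭 ^ l ⊔ J = ⊤ := Ideal.pow_sup_eq_top hJ
  rw [Ideal.eq_top_iff_one, Submodule.mem_sup] at h1
  obtain ⟨p, hp, j, hj, hpj⟩ := h1
  have h2 : b = p * b + j * b := by rw [← add_mul, hpj, one_mul]
  rw [h2]
  refine J.add_mem ?_ (J.mul_mem_right _ hj)
  obtain ⟨c, hc, h3⟩ := hx p hp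
  have h4 : p * b = a * c := by
    apply RingOfIntegers.coe_injective
    change ((p * b : 𝓞 K) : K) = ((a * c : 𝓞 K) : K)
    simp only [cv_add, cv_sub, cv_mul, cv_neg, cv_one, cv_zero, cv_pow]
    rw [← hb, ← h3]
    ring
  rw [h4]
  exact J.mul_mem_left _ hc

/-- the trace lemma with sets -/
theorem traceS {F : Type} [Field F] (N M NM R : Set F)
    (hadd : ∀ x ∈ NM, ∀ y ∈ NM, x + y ∈ NM) (hneg : ∀ x ∈ NM, -x ∈ NM)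
    (hNadd : ∀ x ∈ N, ∀ y ∈ N, x + y ∈ N)
    (hmul : ∀ x ∈ N, ∀ y ∈ M, x * y ∈ NM) (hR : ∀ r ∈ R, ∀ x ∈ NM, r * x ∈ NM) (hNM : N ⊆ M)
    (δ δ' : SL(2, F)) (hred : ∀ i j, δ' i j - δ i j ∈ N) (h00 : δ 0 0 ∈ R) (h10' : δ 1 0 ∈ R)
    (h01 : δ 0 1 ∈ M) (h10 : δ 1 0 ∈ M)
    (hd : δ 0 0 - δ 1 1 ∈ M) : (δ 0 0 + δ 1 1) - (δ' 0 0 + δ' 1 1) ∈ NM := by
  have hdet : δ 0 0 * δ 1 1 - δ 0 1 * δ 1 0 = 1 := by
    have := δ.det_coe; rwa [Matrix.det_fin_two] at this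
  have hdet' : δ' 0 0 * δ' 1 1 - δ' 0 1 * δ' 1 0 = 1 := by
    have := δ'.det_coe; rwa [Matrix.det_fin_two] at this
  have hsub : ∀ x ∈ NM, ∀ y ∈ NM, x - y ∈ NM := fun x hx y hy => by
    rw [sub_eq_add_neg]; exact hadd x hx _ (hneg y hy)
  set a := δ 0 0
  set b := δ 0 1
  set c := δ 1 0
  set d := δ 1 1
  obtain ⟨z00, e00⟩ : ∃ z, δ' 0 0 = a + z := ⟨δ' 0 0 - a, by ring⟩
  obtain ⟨z01, e01⟩ : ∃ z, δ' 0 1 = b + z := ⟨δ' 0 1 - b, by ring⟩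
  obtain ⟨z10, e10⟩ : ∃ z, δ' 1 0 = c + z := ⟨δ' 1 0 - c, by ring⟩
  obtain ⟨z11, e11⟩ : ∃ z, δ' 1 1 = d + z := ⟨δ' 1 1 - d, by ring⟩
  have m00 : z00 ∈ N := by have := hred 0 0; rwa [e00, add_sub_cancel_left] at this
  have m01 : z01 ∈ N := by have := hred 0 1; rwa [e01, add_sub_cancel_left] at this
  have m10 : z10 ∈ N := by have := hred 1 0; rwa [e10, add_sub_cancel_left] at this
  have m11 : z11 ∈ N := by have := hred 1 1; rwa [e11, add_sub_cancel_left] at this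
  rw [e00, e01, e10, e11] at hdet'
  rw [e00, e11]
  have k1 : d * (z00 + z11) ∈ NM := by
    have : d * (z00 + z11) = z10 * b + z01 * c - z00 * z11 + z01 * z10 - z11 * (a - d) := by
      linear_combination hdet' - hdet
    rw [this]
    refine hsub _ (hadd _ (hsub _ (hadd _ ?_ _ ?_) _ ?_) _ ?_) _ ?_
    · exact hmul _ m10 _ h01
    · exact hmul _ m01 _ h10
    · exact hmul _ m00 _ (hNM m11)
    · exact hmul _ m01 _ (hNM m10)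
    · exact hmul _ m11 _ hd
  have k2 : z00 + z11 ∈ NM := by
    have : z00 + z11 = a * (d * (z00 + z11)) - c * ((z00 + z11) * b) := by
      linear_combination (-(z00 + z11)) * hdet
    rw [this]
    exact hsub _ (hR _ h00 _ k1) _ (hR _ h10' _ (hmul _ (hNadd _ m00 _ m11) _ h01))
  have : (a + d) - ((a + z00) + (d + z11)) = -(z00 + z11) := by ring
  rw [this]
  exact hneg _ k2

/-! ### Reduction -/

/-- the relation `γ ≡ γ₀` -/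
def Rel (𝔭 : Ideal (𝓞 K)) (k : ℕ) (𝔫 : Ideal (𝓞 K)) (γ : SL(2, K)) (γ₀ : SL(2, 𝓞 K)) : Prop :=
  ∀ i j, γ i j - (γ₀ i j : K) ∈ Fr 𝔭 k 𝔫

theorem oK_apply (γ : SL(2, 𝓞 K)) (i j : Fin 2) : oK K γ i j = (γ i j : K) := rfl

theorem rd_apply {𝔫 : Ideal (𝓞 K)} (γ : SL(2, 𝓞 K)) (i j : Fin 2) :
    rd 𝔫 γ i j = Ideal.Quotient.mk 𝔫 (γ i j) := rfl

theorem exists_one {𝔭 𝔫 : Ideal (𝓞 K)} (hc : 𝔭 ⊔ 𝔫 = ⊤) (k : ℕ) : ∃ a ∈ 𝔭 ^ k, 1 - a ∈ 𝔫 := by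
  have h1 : 𝔭 ^ k ⊔ 𝔫 = ⊤ := Ideal.pow_sup_eq_top hc
  rw [Ideal.eq_top_iff_one, Submodule.mem_sup] at h1
  obtain ⟨p, hp, j, hj, hpj⟩ := h1
  exact ⟨p, hp, by rw [← hpj, add_sub_cancel_left]; exact hj⟩

/-- R1 -/
theorem exists_Rel {𝔭 𝔫 : Ideal (𝓞 K)} (h𝔫 : 𝔫 ≠ ⊥) (hc : 𝔭 ⊔ 𝔫 = ⊤) {k : ℕ} {γ : SL(2, K)}
    (hγ : γ ∈ Lk 𝔭 k) : ∃ γ₀ : SL(2, 𝓞 K), Rel 𝔭 k 𝔫 γ γ₀ := by
  obtain ⟨a, ha, ha1⟩ := exists_one hc k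
  have hM : ∀ i j, ∃ b : 𝓞 K, (a : K) * γ i j = b := fun i j => by
    obtain ⟨b, -, hb⟩ := hγ i j a ha
    exact ⟨b, hb⟩
  choose M hM using hM
  have hdet : γ 0 0 * γ 1 1 - γ 0 1 * γ 1 0 = 1 := by
    have := γ.det_coe; rwa [Matrix.det_fin_two] at this
  have hdM : M 0 0 * M 1 1 - M 0 1 * M 1 0 = a ^ 2 := by
    apply RingOfIntegers.coe_injective
    change ((M 0 0 * M 1 1 - M 0 1 * M 1 0 : 𝓞 K) : K) = ((a ^ 2 : 𝓞 K) : K)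
    simp only [cv_add, cv_sub, cv_mul, cv_neg, cv_one, cv_zero, cv_pow]
    rw [← hM, ← hM, ← hM, ← hM]
    linear_combination ((a : K) ^ 2) * hdet
  have ha' : Ideal.Quotient.mk 𝔫 a = 1 := by
    rw [← map_one (Ideal.Quotient.mk 𝔫), eq_comm, Ideal.Quotient.eq]
    exact ha1
  set D : SL(2, 𝓞 K ⧸ 𝔫) := ⟨Matrix.of fun i j => Ideal.Quotient.mk 𝔫 (M i j), by
    rw [Matrix.det_fin_two]
    simp only [Matrix.of_apply]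
    rw [← map_mul, ← map_mul, ← map_sub, hdM, map_pow, ha', one_pow]⟩ with hD
  obtain ⟨γ₀, hγ₀⟩ := surj K 𝔫 h𝔫 D
  refine ⟨γ₀, fun i j => ?_⟩
  have h1 : Ideal.Quotient.mk 𝔫 (γ₀ i j) = Ideal.Quotient.mk 𝔫 (M i j) :=
    congrArg (fun X : SL(2, 𝓞 K ⧸ 𝔫) => X i j) hγ₀
  rw [eq_comm, Ideal.Quotient.eq] at h1
  have h2 : γ i j - (γ₀ i j : K) = ((M i j - γ₀ i j : 𝓞 K) : K) + ((1 - a : 𝓞 K) : K) * γ i j := by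
    simp only [cv_add, cv_sub, cv_mul, cv_neg, cv_one, cv_zero, cv_pow]
    rw [← hM]
    ring
  rw [h2]
  refine Fr_add (Fr_coe h1) ?_
  intro c hc'
  obtain ⟨b, -, hb⟩ := hγ i j c hc'
  refine ⟨(1 - a) * b, 𝔫.mul_mem_right _ ha1, ?_⟩
  simp only [cv_add, cv_sub, cv_mul, cv_neg, cv_one, cv_zero, cv_pow]
  rw [← hb]
  ring

/-- R2 -/
theorem Rel_conj {𝔭 𝔫 : Ideal (𝓞 K)} {k : ℕ} {γ : SL(2, K)} {γ₀ : SL(2, 𝓞 K)} (h : Rel 𝔭 k 𝔫 γ γ₀)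
    (y z : SL(2, 𝓞 K)) : Rel 𝔭 k 𝔫 (oK K y * γ * oK K z) (y * γ₀ * z) := by
  have e1 : ∀ i j, (oK K y * γ * oK K z) i j =
      ((y i 0 : K) * γ 0 0 + (y i 1 : K) * γ 1 0) * (z 0 j : K) +
        ((y i 0 : K) * γ 0 1 + (y i 1 : K) * γ 1 1) * (z 1 j : K) := by
    intro i j
    rw [Matrix.SpecialLinearGroup.coe_mul, Matrix.SpecialLinearGroup.coe_mul, Matrix.mul_apply,
      Fin.sum_univ_two, Matrix.mul_apply, Matrix.mul_apply, Fin.sum_univ_two, Fin.sum_univ_two]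
    rfl
  have e2 : ∀ i j, (y * γ₀ * z) i j =
      (y i 0 * γ₀ 0 0 + y i 1 * γ₀ 1 0) * z 0 j + (y i 0 * γ₀ 0 1 + y i 1 * γ₀ 1 1) * z 1 j := by
    intro i j
    rw [Matrix.SpecialLinearGroup.coe_mul, Matrix.SpecialLinearGroup.coe_mul, Matrix.mul_apply,
      Fin.sum_univ_two, Matrix.mul_apply, Matrix.mul_apply, Fin.sum_univ_two, Fin.sum_univ_two]
  intro i j
  rw [e1, e2]
  have e3 : ((y i 0 : K) * γ 0 0 + (y i 1 : K) * γ 1 0) * (z 0 j : K) +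
        ((y i 0 : K) * γ 0 1 + (y i 1 : K) * γ 1 1) * (z 1 j : K) -
      (((y i 0 * γ₀ 0 0 + y i 1 * γ₀ 1 0) * z 0 j + (y i 0 * γ₀ 0 1 + y i 1 * γ₀ 1 1) * z 1 j : 𝓞 K) : K) =
      ((y i 0 * z 0 j : 𝓞 K) : K) * (γ 0 0 - γ₀ 0 0) + ((y i 1 * z 0 j : 𝓞 K) : K) * (γ 1 0 - γ₀ 1 0) +
      (((y i 0 * z 1 j : 𝓞 K) : K) * (γ 0 1 - γ₀ 0 1) + ((y i 1 * z 1 j : 𝓞 K) : K) * (γ 1 1 - γ₀ 1 1)) := by
    simp only [cv_add, cv_sub, cv_mul, cv_neg, cv_one, cv_zero, cv_pow]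
    ring
  rw [e3]
  exact Fr_add (Fr_add (Fr_mul_left _ (h 0 0)) (Fr_mul_left _ (h 1 0)))
    (Fr_add (Fr_mul_left _ (h 0 1)) (Fr_mul_left _ (h 1 1)))

/-- `Γ` contains the elements which are `1` modulo `𝔫` -/
def HasLevel (𝔭 : Ideal (𝓞 K)) (Γ : Subgroup SL(2, K)) (𝔫 : Ideal (𝓞 K)) : Prop :=
  ∀ γ : SL(2, K), (∀ i j, ∃ k, γ i j - (1 : Matrix (Fin 2) (Fin 2) K) i j ∈ Fr 𝔭 k 𝔫) → γ ∈ Γ

/-- R3 -/
theorem Rel_mem {𝔭 𝔫 : Ideal (𝓞 K)} {Γ : Subgroup SL(2, K)} (hΓ : HasLevel 𝔭 Γ 𝔫) {k : ℕ}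
    {γ : SL(2, K)} {γ₀ : SL(2, 𝓞 K)} (h : Rel 𝔭 k 𝔫 γ γ₀) : γ ∈ Γ ↔ γ₀ ∈ ic Γ := by
  have h1 : (oK K γ₀)⁻¹ * γ ∈ Γ := by
    apply hΓ
    have h2 := Rel_conj h γ₀⁻¹ 1
    rw [map_inv, map_one, mul_one, mul_one, inv_mul_cancel] at h2
    intro i j
    refine ⟨k, ?_⟩
    have h3 := h2 i j
    have h4 : (((1 : SL(2, 𝓞 K)) i j : 𝓞 K) : K) = (1 : Matrix (Fin 2) (Fin 2) K) i j := by
      rw [Matrix.SpecialLinearGroup.coe_one, Matrix.one_apply, Matrix.one_apply]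
      split_ifs <;> simp [cv_sub, cv_one, cv_zero]
    rwa [h4] at h3
  change γ ∈ Γ ↔ oK K γ₀ ∈ Γ
  constructor
  · intro h3
    have := Γ.mul_mem h3 (Γ.inv_mem h1)
    rwa [_root_.mul_inv_rev, inv_inv, mul_inv_cancel_left] at this
  · intro h3
    have := Γ.mul_mem h3 h1
    rwa [mul_inv_cancel_left] at this

theorem ker_le_ic {𝔭 𝔫 : Ideal (𝓞 K)} {Γ : Subgroup SL(2, K)} (hΓ : HasLevel 𝔭 Γ 𝔫) :
    (rd 𝔫).ker ≤ ic Γ := by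
  intro γ hγ
  rw [Ind.mem_ker_iff] at hγ
  apply hΓ
  intro i j
  refine ⟨0, ?_⟩
  have h1 := hγ i j
  have h4 : oK K γ i j - (1 : Matrix (Fin 2) (Fin 2) K) i j =
      ((γ i j - (1 : Matrix (Fin 2) (Fin 2) (𝓞 K)) i j : 𝓞 K) : K) := by
    rw [oK_apply, Matrix.one_apply, Matrix.one_apply]
    split_ifs <;> simp [cv_sub, cv_one, cv_zero]
  rw [h4]
  exact Fr_coe h1

/-- a minimal level is prime to `𝔭` -/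
theorem coprime_of_min {𝔭 : Ideal (𝓞 K)} (h𝔭 : 𝔭.IsPrime) (h𝔭0 : 𝔭 ≠ ⊥) {Γ : Subgroup SL(2, K)}
    {𝔫 : Ideal (𝓞 K)} (h𝔫 : 𝔫 ≠ ⊥) (hΓ : HasLevel 𝔭 Γ 𝔫)
    (hmin : ∀ T : Ideal (𝓞 K ⧸ 𝔫), T ≠ ⊥ → ¬ HasLevel 𝔭 Γ (T.comap (Ideal.Quotient.mk 𝔫))) :
    𝔭 ⊔ 𝔫 = ⊤ := by
  have hmax : 𝔭.IsMaximal := h𝔭.isMaximal h𝔭0
  by_contra hcon
  have hle : 𝔫 ≤ 𝔭 := by
    have h1 : 𝔭 ⊔ 𝔫 = 𝔭 := by
      by_contra hne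
      have : 𝔭 < 𝔭 ⊔ 𝔫 := lt_of_le_of_ne le_sup_left (Ne.symm hne)
      exact hcon (hmax.1.2 _ this)
    exact le_trans le_sup_right (le_of_eq h1)
  obtain ⟨𝔫', h𝔫'⟩ := Ideal.dvd_iff_le.2 hle
  have hn'0 : 𝔫' ≠ ⊥ := by
    rintro rfl
    apply h𝔫
    rw [h𝔫']; simp
  have hlt : 𝔫 < 𝔫' := by
    have hle' : 𝔫 ≤ 𝔫' := by rw [h𝔫']; exact Ideal.mul_le_right (I := 𝔭) (J := 𝔫')
    refine lt_of_le_of_ne hle' fun heq => ?_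
    have h2 : 𝔭 * 𝔫' = 1 * 𝔫' := by rw [← h𝔫', one_mul, heq]
    have h3 : 𝔭 = 1 := mul_right_cancel₀ hn'0 h2
    exact hmax.ne_top (by rw [h3, Ideal.one_eq_top])
  apply hmin (𝔫'.map (Ideal.Quotient.mk 𝔫))
  · intro h
    apply hlt.not_ge
    intro x hx
    have : Ideal.Quotient.mk 𝔫 x ∈ (⊥ : Ideal (𝓞 K ⧸ 𝔫)) := by
      rw [← h]; exact Ideal.mem_map_of_mem _ hx
    rw [Ideal.mem_bot, Ideal.Quotient.eq_zero_iff_mem] at this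
    exact this
  · rw [Ideal.comap_map_mk hlt.le]
    intro γ hγ
    apply hΓ
    intro i j
    obtain ⟨k, hk⟩ := hγ i j
    refine ⟨k + 1, ?_⟩
    intro a ha
    rw [pow_succ, mul_comm] at ha
    have hgoal : ∀ a ∈ 𝔭 * 𝔭 ^ k, ∃ b ∈ 𝔫, (a : K) * (γ i j - (1 : Matrix (Fin 2) (Fin 2) K) i j) = b := by
      intro a ha
      refine Submodule.mul_induction_on ha ?_ ?_
      · intro p hp q hq
        obtain ⟨b, hb, h⟩ := hk q hq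
        refine ⟨p * b, ?_, ?_⟩
        · rw [h𝔫']; exact Ideal.mul_mem_mul hp hb
        · simp only [cv_add, cv_sub, cv_mul, cv_neg, cv_one, cv_zero, cv_pow]
          rw [← h]; ring
      · rintro p q ⟨b, hb, h⟩ ⟨c, hc, h'⟩
        refine ⟨b + c, 𝔫.add_mem hb hc, ?_⟩
        simp only [cv_add, cv_sub, cv_mul, cv_neg, cv_one, cv_zero, cv_pow]
        rw [← h, ← h']; ring
    exact hgoal a ha

/-- minimality in terms of the finite group -/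
theorem not_ker_le {𝔭 : Ideal (𝓞 K)} {Γ : Subgroup SL(2, K)}
    {𝔫 : Ideal (𝓞 K)} (h𝔫 : 𝔫 ≠ ⊥) (hc : 𝔭 ⊔ 𝔫 = ⊤) (hΓ : HasLevel 𝔭 Γ 𝔫) (T : Ideal (𝓞 K ⧸ 𝔫))
    (hle : (rd T).ker ≤ (ic Γ).map (rd 𝔫)) : HasLevel 𝔭 Γ (T.comap (Ideal.Quotient.mk 𝔫)) := by
  intro γ hγ
  -- a common `k`
  obtain ⟨k, hk⟩ : ∃ k, ∀ i j, γ i j - (1 : Matrix (Fin 2) (Fin 2) K) i j ∈
      Fr 𝔭 k (T.comap (Ideal.Quotient.mk 𝔫)) := by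
    choose κ hκ using hγ
    refine ⟨∑ i, ∑ j, κ i j, fun i j => Fr_mono ?_ le_rfl (hκ i j)⟩
    calc κ i j ≤ ∑ j, κ i j := Finset.single_le_sum (f := fun j => κ i j) (fun _ _ => Nat.zero_le _) (Finset.mem_univ j)
      _ ≤ ∑ i, ∑ j, κ i j := Finset.single_le_sum (f := fun i => ∑ j, κ i j) (fun _ _ => Nat.zero_le _) (Finset.mem_univ i)
  have hL : γ ∈ Lk 𝔭 k := by
    intro i j
    have h1 : γ i j = (γ i j - (1 : Matrix (Fin 2) (Fin 2) K) i j) +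
        ((((1 : Matrix (Fin 2) (Fin 2) (𝓞 K)) i j : 𝓞 K)) : K) := by
      rw [Matrix.one_apply, Matrix.one_apply]
      split_ifs <;> simp [cv_sub, cv_one, cv_zero]
    rw [h1]
    exact Fr_add (Fr_mono le_rfl le_top (hk i j)) (Fr_coe trivial)
  obtain ⟨γ₀, hγ₀⟩ := exists_Rel h𝔫 hc hL
  rw [Rel_mem hΓ hγ₀]
  have hfA : Finite (𝓞 K ⧸ 𝔫) := Ideal.finiteQuotientOfFreeOfNeBot 𝔫 h𝔫
  have hfG : Finite SL(2, 𝓞 K ⧸ 𝔫) := Ind.finSL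
  refine mem_of_map (rd 𝔫) (ic Γ) (ker_le_ic hΓ) γ₀ (hle ?_)
  rw [Ind.mem_ker_iff]
  intro i j
  -- `γ₀ - 1` is in the comap
  have h1 : (((γ₀ i j - (1 : Matrix (Fin 2) (Fin 2) (𝓞 K)) i j : 𝓞 K)) : K) ∈
      Fr 𝔭 k (T.comap (Ideal.Quotient.mk 𝔫)) := by
    have h2 : (((γ₀ i j - (1 : Matrix (Fin 2) (Fin 2) (𝓞 K)) i j : 𝓞 K)) : K) =
        (γ i j - (1 : Matrix (Fin 2) (Fin 2) K) i j) - (γ i j - (γ₀ i j : K)) := by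
      rw [Matrix.one_apply, Matrix.one_apply]
      split_ifs <;> simp [cv_sub, cv_one, cv_zero]
    rw [h2]
    exact Fr_sub (hk i j) (Fr_mono le_rfl (le_comap 𝔫 T) (hγ₀ i j))
  have hc' : 𝔭 ⊔ T.comap (Ideal.Quotient.mk 𝔫) = ⊤ :=
    top_le_iff.1 (hc ▸ sup_le_sup_left (le_comap 𝔫 T) 𝔭)
  obtain ⟨a, ha, ha1⟩ := exists_one hc' k
  obtain ⟨b, hb, h3⟩ := h1 a ha
  have h4 : γ₀ i j - (1 : Matrix (Fin 2) (Fin 2) (𝓞 K)) i j ∈ T.comap (Ideal.Quotient.mk 𝔫) := by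
    set x := γ₀ i j - (1 : Matrix (Fin 2) (Fin 2) (𝓞 K)) i j
    have h5 : a * x = b := RingOfIntegers.coe_injective (by
      change ((a * x : 𝓞 K) : K) = (b : K)
      simp only [cv_add, cv_sub, cv_mul, cv_neg, cv_one, cv_zero, cv_pow]
      exact h3)
    have h6 : x = b + (1 - a) * x := by rw [← h5]; ring
    rw [h6]
    exact Ideal.add_mem _ hb (Ideal.mul_mem_right _ _ ha1)
  rw [Ideal.mem_comap, map_sub] at h4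
  have h7 : (1 : Matrix (Fin 2) (Fin 2) (𝓞 K ⧸ 𝔫)) i j =
      Ideal.Quotient.mk 𝔫 ((1 : Matrix (Fin 2) (Fin 2) (𝓞 K)) i j) := by
    rw [Matrix.one_apply, Matrix.one_apply]
    split_ifs <;> simp [cv_sub, cv_one, cv_zero]
  rw [h7]
  exact h4

/-- the traces of related matrices -/
theorem Rel_trace {𝔭 𝔫 m : Ideal (𝓞 K)} (hnm : 𝔫 ≤ m) (hc : 𝔭 ⊔ 𝔫 = ⊤) {k : ℕ} {δ : SL(2, K)}
    {δ₀ : SL(2, 𝓞 K)} (hδ : δ ∈ Lk 𝔭 k) (h : Rel 𝔭 k 𝔫 δ δ₀)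
    (h01 : δ 0 1 ∈ Fr 𝔭 k m) (h10 : δ 1 0 ∈ Fr 𝔭 k m) (hd : δ 0 0 - δ 1 1 ∈ Fr 𝔭 k m) :
    δ 0 0 + δ 1 1 - ((δ₀ 0 0 + δ₀ 1 1 : 𝓞 K) : K) ∈ Fr 𝔭 k (𝔫 * m) := by
  have hcm : 𝔭 ⊔ m = ⊤ := top_le_iff.1 (hc ▸ sup_le_sup_left hnm 𝔭)
  have hcnm : 𝔭 ⊔ 𝔫 * m = ⊤ := (Ideal.sup_mul_eq_of_coprime_left hc).trans hcm
  have h1 := traceS (F := K) {x | ∃ l, x ∈ Fr 𝔭 l 𝔫} {x | ∃ l, x ∈ Fr 𝔭 l m}
    {x | ∃ l, x ∈ Fr 𝔭 l (𝔫 * m)} {x | ∃ l, x ∈ Fr 𝔭 l ⊤} ?_ ?_ ?_ ?_ ?_ ?_ δ (oK K δ₀)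
    (fun i j => ⟨k, ?_⟩) ⟨k, hδ 0 0⟩ ⟨k, hδ 1 0⟩ ⟨k, h01⟩ ⟨k, h10⟩ ⟨k, hd⟩
  · obtain ⟨l, hl⟩ := h1
    rw [oK_apply, oK_apply] at hl
    have e : ((δ₀ 0 0 + δ₀ 1 1 : 𝓞 K) : K) = (δ₀ 0 0 : K) + (δ₀ 1 1 : K) := cv_add _ _
    rw [e]
    refine Fr_coprime hcnm hl ?_
    refine Fr_sub (Fr_add (hδ 0 0) (hδ 1 1)) ?_
    rw [← e]
    exact Fr_coe trivial
  · rintro x ⟨l, hl⟩ y ⟨l', hl'⟩
    exact ⟨max l l', Fr_add (Fr_mono (le_max_left _ _) le_rfl hl) (Fr_mono (le_max_right _ _) le_rfl hl')⟩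
  · rintro x ⟨l, hl⟩
    exact ⟨l, Fr_neg hl⟩
  · rintro x ⟨l, hl⟩ y ⟨l', hl'⟩
    exact ⟨max l l', Fr_add (Fr_mono (le_max_left _ _) le_rfl hl) (Fr_mono (le_max_right _ _) le_rfl hl')⟩
  · rintro x ⟨l, hl⟩ y ⟨l', hl'⟩
    exact ⟨_, Fr_mul hl hl'⟩
  · rintro x ⟨l, hl⟩ y ⟨l', hl'⟩
    refine ⟨l + l', ?_⟩
    have := Fr_mul hl hl'
    rwa [Ideal.top_mul] at this
  · rintro x ⟨l, hl⟩
    exact ⟨l, Fr_mono le_rfl hnm hl⟩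
  · have h2 := Fr_neg (h i j)
    rwa [neg_sub] at h2

end Cnt

open Cnt in
/-- L5: the counting theorem -/
theorem count2 (hpt : S_points2) : S_count2 := by
  intro K _ _ 𝔭 C₀ ε h𝔭 h𝔭0 hε
  classical
  obtain ⟨C, hC, hcore⟩ := core K ε hε
  obtain ⟨C', hC', hpts⟩ := hpt K 𝔭 C₀ ε h𝔭 h𝔭0 hε
  refine ⟨C * C', by positivity, fun Γ hΓ k s hs => ?_⟩
  obtain ⟨𝔫, h𝔫, hlev, hmin⟩ := exists_level (P := fun 𝔫 => HasLevel 𝔭 Γ 𝔫) hΓ.2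
  have hc := coprime_of_min h𝔭 h𝔭0 h𝔫 hlev hmin
  have hfA : Finite (𝓞 K ⧸ 𝔫) := Ideal.finiteQuotientOfFreeOfNeBot 𝔫 h𝔫
  have hfG : Finite SL(2, 𝓞 K ⧸ 𝔫) := Ind.finSL
  have hker := ker_le_ic hlev
  set H : Subgroup SL(2, 𝓞 K ⧸ 𝔫) := (ic Γ).map (rd 𝔫) with hH
  have hHT : ∀ T : Ideal (𝓞 K ⧸ 𝔫), T ≠ ⊥ → ¬ (rd T).ker ≤ H := fun T hT hle =>
    hmin T hT (not_ker_le h𝔫 hc hlev T hle)
  set S : Finset SL(2, 𝓞 K ⧸ 𝔫) := (Set.toFinite (H : Set SL(2, 𝓞 K ⧸ 𝔫))).toFinset with hS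
  have hSm : ∀ h, h ∈ S ↔ h ∈ H := fun h => by simp [hS]
  have hidx : H.index = (ic Γ).index := Subgroup.index_map_eq (ic Γ) (surj K 𝔫 h𝔫) hker
  set X : ℝ := (Ideal.absNorm 𝔭 : ℝ) ^ k with hX
  have hX1 : 1 ≤ X := by
    apply one_le_pow₀
    have h1 : Ideal.absNorm 𝔭 ≠ 0 := by rwa [ne_eq, Ideal.absNorm_eq_zero_iff]
    exact_mod_cast Nat.one_le_iff_ne_zero.2 h1
  have hX0 : 0 < X := by linarith
  set P : ℝ := C' * X ^ ε with hP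
  -- the reduction
  have hex : ∀ δ : SL(2, K), ∃ δ₀ : SL(2, 𝓞 K), δ ∈ Lk 𝔭 k → Rel 𝔭 k 𝔫 δ δ₀ := by
    intro δ
    by_cases h : δ ∈ Lk 𝔭 k
    · obtain ⟨δ₀, h0⟩ := exists_Rel h𝔫 hc h
      exact ⟨δ₀, fun _ => h0⟩
    · exact ⟨1, fun h' => absurd h' h⟩
  choose r hr using hex
  have hdbl := dbl (rd 𝔫) (ic Γ) hker S hSm s (fun δ => rd 𝔫 (r δ))
    (fun δ x => δ ∈ Lk 𝔭 k ∧ (oK K x.out)⁻¹ * δ * oK K x.out ∈ Γ) (fun δ x hx => by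
      rw [← map_inv, ← map_mul, ← map_mul]
      apply Subgroup.mem_map_of_mem
      rw [← Rel_mem hlev (Rel_conj (hr δ hx.1) (x.out)⁻¹ x.out), map_inv]
      exact hx.2)
  have hfix : ∀ δ ∈ s, Nat.card {x : SL(2, 𝓞 K) ⧸ ic Γ // δ ∈ Lk 𝔭 k ∧
      (oK K x.out)⁻¹ * δ * oK K x.out ∈ Γ} = fixP Γ δ := by
    intro δ hδ
    unfold fixP
    refine Nat.card_congr (Equiv.subtypeEquivRight fun x => ?_)
    have := (hs δ hδ).2.2.1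
    tauto
  rw [Finset.sum_congr rfl hfix] at hdbl
  have hres := hcore 𝔫 h𝔫 H hHT S hSm X P (∑ δ ∈ s, (fixP Γ δ : ℝ)) hX1 (by positivity)
    (fun h => ((s.filter fun δ => IsConj (rd 𝔫 (r δ)) h).card : ℝ)) ?_ ?_
  · rw [hidx] at hres
    refine hres.trans (le_of_eq ?_)
    rw [hP, Real.mul_rpow (Nat.cast_nonneg _) hX0.le]
    ring
  · intro h _
    rcases (s.filter fun δ => IsConj (rd 𝔫 (r δ)) h).eq_empty_or_nonempty with he | ⟨δ₁, hδ₁⟩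
    · simp only [he, Finset.card_empty, Nat.cast_zero]
      positivity
    · obtain ⟨hδ₁s, h1⟩ := Finset.mem_filter.1 hδ₁
      set m := (lev h).comap (Ideal.Quotient.mk 𝔫) with hm
      have hnm : 𝔫 ≤ m := le_comap 𝔫 (lev h)
      have hent : ∀ δ ∈ s, IsConj (rd 𝔫 (r δ)) h → δ 0 1 ∈ Fr 𝔭 k m ∧ δ 1 0 ∈ Fr 𝔭 k m ∧
          δ 0 0 - δ 1 1 ∈ Fr 𝔭 k m := by
        intro δ hδ hcj
        have hL := (hs δ hδ).2.2.1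
        obtain ⟨k1, k2, k3⟩ := conj_entries hcj
        have hR := hr δ hL
        refine ⟨?_, ?_, ?_⟩
        · have e : δ 0 1 = (δ 0 1 - (r δ 0 1 : K)) + (r δ 0 1 : K) := by ring
          rw [e]
          exact Fr_add (Fr_mono le_rfl hnm (hR 0 1)) (Fr_coe k1)
        · have e : δ 1 0 = (δ 1 0 - (r δ 1 0 : K)) + (r δ 1 0 : K) := by ring
          rw [e]
          exact Fr_add (Fr_mono le_rfl hnm (hR 1 0)) (Fr_coe k2)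
        · have e : δ 0 0 - δ 1 1 = (δ 0 0 - (r δ 0 0 : K)) - (δ 1 1 - (r δ 1 1 : K)) +
              ((r δ 0 0 - r δ 1 1 : 𝓞 K) : K) := by simp only [cv_add, cv_sub, cv_mul, cv_neg, cv_one, cv_zero, cv_pow]; ring
          rw [e]
          exact Fr_add (Fr_sub (Fr_mono le_rfl hnm (hR 0 0)) (Fr_mono le_rfl hnm (hR 1 1))) (Fr_coe k3)
      have := hpts 𝔫 m h𝔫 (comap_ne_bot h𝔫 _)
        ((r δ₁ 0 0 + r δ₁ 1 1 : 𝓞 K) : K) k (s.filter fun δ => IsConj (rd 𝔫 (r δ)) h) (fun δ hδ => by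
          obtain ⟨hδ1, hδ2⟩ := Finset.mem_filter.1 hδ
          obtain ⟨g1, g2, g3, g4⟩ := hs δ hδ1
          obtain ⟨k1, k2, k3⟩ := hent δ hδ1 hδ2
          refine ⟨g1, g2, g3, g4, k1, k2, k3, ?_⟩
          have e1 := Rel_trace hnm hc g3 (hr δ g3) k1 k2 k3
          have e2 := conj_trace h𝔫 hδ2 h1
          have e3 := Fr_add e1 (Fr_coe (𝔭 := 𝔭) (k := k) e2)
          have e4 : δ 0 0 + δ 1 1 - ((r δ₁ 0 0 + r δ₁ 1 1 : 𝓞 K) : K) =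
              δ 0 0 + δ 1 1 - ((r δ 0 0 + r δ 1 1 : 𝓞 K) : K) +
                ((r δ 0 0 + r δ 1 1 - (r δ₁ 0 0 + r δ₁ 1 1) : 𝓞 K) : K) := by simp only [cv_add, cv_sub, cv_mul, cv_neg, cv_one, cv_zero, cv_pow]; ring
          rw [e4]
          exact e3)
      rw [card_comap] at this
      exact this
  · exact_mod_cast hdbl

end Pool.Agent.T2h77
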