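import Mathlib

/-!
# The density theorem for `SL₂` over number fields: definitions

`K` is a number field, `mixedSpace K = K ⊗ ℝ = ∏_w K_w`, the product over the infinite places `w`.
-/

set_option autoImplicit false

open NumberField NumberField.mixedEmbedding MeasureTheory Matrix
open scoped MatrixGroups ENNReal

noncomputable section

namespace Pool.Agent.T2h77

variable (K : Type) [Field K] [NumberField K]

/-- The group `SL₂(K ⊗ ℝ)`, the product of the groups `SL₂(K_w)` over the infinite places `w`. -/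
abbrev GG : Type := Matrix.SpecialLinearGroup (Fin 2) (mixedSpace K)

instance : MeasurableSpace (GG K) := borel _

instance : BorelSpace (GG K) := ⟨rfl⟩

instance : LocallyCompactSpace (Matrix (Fin 2) (Fin 2) (mixedSpace K)) :=
  inferInstanceAs (LocallyCompactSpace (Fin 2 → Fin 2 → mixedSpace K))

instance : SecondCountableTopology (Matrix (Fin 2) (Fin 2) (mixedSpace K)) :=
  inferInstanceAs (SecondCountableTopology (Fin 2 → Fin 2 → mixedSpace K))

instance : LocallyCompactSpace (GG K) :=
  Matrix.SpecialLinearGroup.isClosedEmbedding_val.locallyCompactSpace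

instance : SecondCountableTopology (GG K) :=
  Matrix.SpecialLinearGroup.isClosedEmbedding_val.isEmbedding.secondCountableTopology

/-- The embedding of `SL₂(𝓞 K)` in `SL₂(K ⊗ ℝ)`. -/
def io : SL(2, 𝓞 K) →* GG K :=
  Matrix.SpecialLinearGroup.map ((mixedEmbedding K).comp (algebraMap (𝓞 K) K))

variable {K}

/-- The euclidean norm of a row vector at the place `w`. -/
def rn (w : InfinitePlace K) (z : Fin 2 → mixedSpace K) : ℝ :=
  √(normAtPlace w (z 0) ^ 2 + normAtPlace w (z 1) ^ 2)

/-- The euclidean (Hilbert-Schmidt) norm of a matrix at the place `w`. -/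
def mn (w : InfinitePlace K) (h : GG K) : ℝ :=
  √(rn w (h 0) ^ 2 + rn w (h 1) ^ 2)

/-- The compact set of the `h` with `‖h‖_w ≤ r w` for all `w`. It is invariant on both sides under
the maximal compact subgroup, the product of the groups `SO(2)` and `SU(2)`. -/
def ball (r : InfinitePlace K → ℝ) : Set (GG K) := {h | ∀ w, mn w h ≤ r w}

/-- The function `∏_w ‖(1, 0) h‖_w ^ (- d_w (1 - 2 ν_w))`, `d_w = [K_w : ℝ]`, on `SL₂(K ⊗ ℝ)`. Its average over
the maximal compact subgroup (acting from the left) is the spherical function with parameters `ν_w`. -/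
def sph (ν : InfinitePlace K → ℂ) (h : GG K) : ℂ :=
  ∏ w, ((rn w (h 0) : ℝ) : ℂ) ^ (-(w.mult : ℂ) * (1 - 2 * ν w))

variable (K) in
/-- A Haar measure on `SL₂(K ⊗ ℝ)`. -/
def mu : Measure (GG K) := Measure.haar

/-- `f` is an eigenfunction of the averaging operators over all balls (they generate the algebra of
the operators given by the bi-invariant functions under the maximal compact subgroup), with the same
eigenvalues as the spherical vector in the representation of `SL₂(K ⊗ ℝ)` with parameters `ν_w`. -/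
def IsSpherical (ν : InfinitePlace K → ℂ) (f : GG K → ℂ) : Prop :=
  ∀ (r : InfinitePlace K → ℝ) (g : GG K),
    ∫ h in ball r, f (g * h) ∂(mu K) = (∫ h in ball r, sph ν h ∂(mu K)) * f g

/-- `Γ` is a congruence subgroup of `SL₂(𝓞 K)`. -/
def IsCongr (Γ : Subgroup SL(2, 𝓞 K)) : Prop :=
  ∃ 𝔫 : Ideal (𝓞 K), 𝔫 ≠ ⊥ ∧ (Matrix.SpecialLinearGroup.map (n := Fin 2) (Ideal.Quotient.mk 𝔫)).ker ≤ Γ

/-- `f` is an automorphic function for `Γ` which is spherical with the parameters `ν_w` at the
infinite places. -/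
structure IsAutomorphic (Γ : Subgroup SL(2, 𝓞 K)) (ν : InfinitePlace K → ℂ) (f : GG K → ℂ) : Prop where
  continuous : Continuous f
  invariant : ∀ γ ∈ Γ, ∀ g : GG K, f (io K γ * g) = f g
  spherical : IsSpherical ν f

/-- The density theorem. -/
def Density (K : Type) [Field K] [NumberField K] : Prop :=
  ∀ (v : InfinitePlace K) (ε L : ℝ), 0 < ε → ∃ C : ℝ, 0 < C ∧
    ∀ Γ : Subgroup SL(2, 𝓞 K), IsCongr Γ →
    ∀ 𝓕 : Set (GG K), IsFundamentalDomain (Γ.map (io K)) 𝓕 (mu K) →
    ∀ (k : ℕ) (ν : Fin k → InfinitePlace K → ℂ) (f : Fin k → GG K → ℂ),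
      (∀ i, IsAutomorphic Γ (ν i) (f i)) →
      (∀ i, MemLp (f i) 2 ((mu K).restrict 𝓕)) →
      (∀ i, (ν i v).im = 0 ∧ ε ≤ (ν i v).re ∧ (ν i v).re ≤ 1 / 2) →
      (∀ i w, w ≠ v → ‖ν i w‖ ≤ L) → LinearIndependent ℂ f →
      ∑ i, (Γ.index : ℝ) ^ (2 * (ν i v).re) ≤ C * (Γ.index : ℝ) ^ (1 + ε)

end Pool.Agent.T2h77
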