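import Pool.Agent.T2h77.Defs

/-!
# The density theorem for `SL₂` over number fields: further definitions
-/

set_option autoImplicit false

open NumberField NumberField.mixedEmbedding MeasureTheory Matrix
open scoped MatrixGroups ENNReal

noncomputable section

namespace Pool.Agent.T2h77

variable {K : Type} [Field K] [NumberField K]

/-- Left multiplication by an element of `SL₂(𝓞 K)`. -/
def lm (γ : SL(2, 𝓞 K)) (g : GG K) : GG K := io K γ * g

/-- `𝓕` is a fundamental domain for the action of `Γ` on `SL₂(K ⊗ ℝ)` by left multiplication. -/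
def IsFD (Γ : Subgroup SL(2, 𝓞 K)) (𝓕 : Set (GG K)) : Prop :=
  NullMeasurableSet 𝓕 (mu K) ∧ (∀ᵐ g ∂(mu K), ∃ γ ∈ Γ, lm γ g ∈ 𝓕) ∧
    ∀ γ ∈ Γ, γ ≠ 1 → mu K {g | g ∈ 𝓕 ∧ lm γ g ∈ 𝓕} = 0

/-- `f` is square integrable on `𝓕`. -/
def IsL2 (𝓕 : Set (GG K)) (f : GG K → ℂ) : Prop := MemLp f 2 ((mu K).restrict 𝓕)

/-- The parameters `ν` are real and between `ε` and `1 / 2` at `v`, and bounded by `L` at the other places. -/
def InRange (v : InfinitePlace K) (ε L : ℝ) (ν : InfinitePlace K → ℂ) : Prop :=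
  ((ν v).im = 0 ∧ ε ≤ (ν v).re ∧ (ν v).re ≤ 1 / 2) ∧ ∀ w, w ≠ v → ‖ν w‖ ≤ L

end Pool.Agent.T2h77
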