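import Pool.Agent.T2h77.Geo1
import Pool.Agent.T2h77.Anal6

/-!
# The kernels and the eigenvalues
-/

set_option autoImplicit false
set_option linter.unusedSectionVars false
set_option linter.deprecated false

open NumberField NumberField.mixedEmbedding MeasureTheory Matrix
open scoped MatrixGroups ENNReal

noncomputable section

namespace Pool.Agent.T2h77

open An

variable {K : Type} [Field K] [NumberField K]

instance : (mu K).IsHaarMeasure := by unfold mu; infer_instance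

lemma SC_ball (r : InfinitePlace K → ℝ) : SC (mu K) (ball r) := ⟨isCompact_ball r, inv_mem_ball r⟩

lemma rad_self (v : InfinitePlace K) (ρ ρ₀ : ℝ) : rad v ρ ρ₀ v = ρ := by simp [rad]

lemma rad_ne {v w : InfinitePlace K} (h : w ≠ v) (ρ ρ₀ : ℝ) : rad v ρ ρ₀ w = ρ₀ := by simp [rad, h]

lemma mult_pos' (w : InfinitePlace K) : 0 < w.mult := InfinitePlace.mult_pos

/-- the support of the kernel -/
theorem kk_supp (v : InfinitePlace K) {ρ ρ₀ : ℝ} {h : GG K}
    (hk : kk (mu K) (ball (rad v ρ ρ₀)) h ≠ 0) :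
    mn v h ≤ ρ ^ 2 ∧ ∀ w, w ≠ v → mn w h ≤ ρ₀ ^ 2 := by
  have hne : (ball (rad v ρ ρ₀) ∩ (fun x => h * x) '' ball (rad v ρ ρ₀)).Nonempty := by
    by_contra hcon
    rw [Set.not_nonempty_iff_eq_empty] at hcon
    apply hk
    unfold kk
    rw [hcon, measure_empty]
  obtain ⟨g, hg, b, hb, hgb⟩ := hne
  have hh : h = g * b⁻¹ := by rw [← hgb]; simp
  have key : ∀ w, mn w h ≤ rad v ρ ρ₀ w ^ 2 := by
    intro w
    have h1 := mn_mul_le w g b⁻¹
    rw [← hh, mn_inv] at h1
    have h2 := hg w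
    have h3 := hb w
    have h4 := mn_nonneg w g
    have h5 := mn_nonneg w b
    calc mn w h ≤ mn w g * mn w b := h1
      _ ≤ rad v ρ ρ₀ w * rad v ρ ρ₀ w := by
          apply mul_le_mul h2 h3 h5 (h4.trans h2)
      _ = _ := by ring
  refine ⟨by simpa [rad_self] using key v, fun w hw => by simpa [rad_ne hw] using key w⟩

/-- the bound of the kernel -/
theorem kk_le (hxi : S_xi) (v : InfinitePlace K) (ρ₀ : ℝ) (hρ₀ : √2 < ρ₀) :
    ∃ C : ℝ, 0 < C ∧ ∀ ρ : ℝ, 2 ≤ ρ → ∀ h : GG K,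
      kk (mu K) (ball (rad v ρ ρ₀)) h ≤
        ENNReal.ofReal (C * ρ ^ (2 * v.mult) * (1 + Real.log ρ) * (mn v h ^ v.mult)⁻¹) := by
  obtain ⟨C, hC, hx⟩ := hxi K v ρ₀ hρ₀
  refine ⟨C * 2 ^ v.mult, by positivity, fun ρ hρ h => ?_⟩
  have hρ0 : (0 : ℝ) < ρ := by linarith
  have hlog : 0 ≤ 1 + Real.log ρ := by
    have := Real.log_nonneg (by linarith : (1 : ℝ) ≤ ρ)
    linarith
  set B := ball (rad v ρ ρ₀) with hB
  have hBm : MeasurableSet B := (isCompact_ball _).measurableSet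
  obtain ⟨i, hi⟩ : ∃ i : Fin 2, mn v h ≤ 2 * rn v (h⁻¹ i) := by
    by_contra hcon
    push Not at hcon
    have h0 := hcon 0
    have h1 := hcon 1
    have h2 := mn_sq v h⁻¹
    rw [mn_inv] at h2
    have h3 := rn_nonneg v (h⁻¹ 0)
    have h4 := rn_nonneg v (h⁻¹ 1)
    have h5 := mn_pos v h
    nlinarith
  set u := h⁻¹ i with hu
  have hu0 : 0 < rn v u := by
    have := mn_pos v h
    nlinarith
  set S : Set (GG K) := {g | rn v (Matrix.vecMul u g.1) ≤ ρ} with hS
  have hcont : Continuous fun g : GG K => rn v (Matrix.vecMul u g.1) :=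
    (continuous_rn v).comp (continuous_vecMul.comp (Continuous.prodMk_right u))
  have hSm : MeasurableSet S := (isClosed_le hcont continuous_const).measurableSet
  have hpos : ∀ g : GG K, 0 < rn v (Matrix.vecMul u g.1) := by
    intro g
    have h1 := rn_le_vecMul v u g
    have h2 := mn_pos v g
    by_contra hcon
    push Not at hcon
    nlinarith
  have h1 : kk (mu K) B h ≤ mu K (B ∩ S) := by
    refine measure_mono ?_
    rintro g ⟨hg, b, hb, hgb⟩
    refine ⟨hg, ?_⟩
    have e : b = h⁻¹ * g := by rw [← hgb]; simp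
    have e2 : Matrix.vecMul u g.1 = b i := by rw [e]; rfl
    rw [hS, Set.mem_setOf_eq, e2]
    have h3 := hb v
    rw [rad_self] at h3
    exact (rn_row_le v b i).trans h3
  refine h1.trans ?_
  have h2 : mu K (B ∩ S) ≤
      ∫⁻ g in B, ENNReal.ofReal (ρ ^ v.mult) * ENNReal.ofReal ((rn v (Matrix.vecMul u g.1) ^ v.mult)⁻¹)
        ∂(mu K) := by
    calc mu K (B ∩ S) = ∫⁻ g in B ∩ S, 1 ∂(mu K) := by rw [setLIntegral_one]
      _ ≤ ∫⁻ g in B ∩ S, ENNReal.ofReal (ρ ^ v.mult) *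
            ENNReal.ofReal ((rn v (Matrix.vecMul u g.1) ^ v.mult)⁻¹) ∂(mu K) := by
          refine setLIntegral_mono' (hBm.inter hSm) fun g hg => ?_
          rw [← ENNReal.ofReal_mul (by positivity)]
          have : (1 : ℝ) ≤ ρ ^ v.mult * (rn v (Matrix.vecMul u g.1) ^ v.mult)⁻¹ := by
            rw [← div_eq_mul_inv, one_le_div (pow_pos (hpos g) _)]
            exact pow_le_pow_left₀ (hpos g).le hg.2 _
          calc (1 : ℝ≥0∞) = ENNReal.ofReal 1 := by simp
            _ ≤ _ := ENNReal.ofReal_le_ofReal this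
      _ ≤ _ := lintegral_mono_set Set.inter_subset_left
  refine h2.trans ?_
  have hmm : Measurable fun g : GG K => ENNReal.ofReal ((rn v (Matrix.vecMul u g.1) ^ v.mult)⁻¹) :=
    ((hcont.measurable.pow_const _).inv).ennreal_ofReal
  rw [lintegral_const_mul _ hmm]
  calc ENNReal.ofReal (ρ ^ v.mult) *
        ∫⁻ g in B, ENNReal.ofReal ((rn v (Matrix.vecMul u g.1) ^ v.mult)⁻¹) ∂(mu K)
      ≤ ENNReal.ofReal (ρ ^ v.mult) *
        ENNReal.ofReal (C * ρ ^ v.mult * (1 + Real.log ρ) * (rn v u ^ v.mult)⁻¹) := by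
        gcongr
        exact hx ρ hρ u hu0.ne'
    _ = ENNReal.ofReal (ρ ^ v.mult * (C * ρ ^ v.mult * (1 + Real.log ρ) * (rn v u ^ v.mult)⁻¹)) :=
        (ENNReal.ofReal_mul (by positivity)).symm
    _ ≤ _ := by
        apply ENNReal.ofReal_le_ofReal
        have h4 : (rn v u ^ v.mult)⁻¹ ≤ 2 ^ v.mult * (mn v h ^ v.mult)⁻¹ := by
          rw [← div_eq_mul_inv, le_div_iff₀ (pow_pos (mn_pos v h) _),
            inv_mul_le_iff₀ (pow_pos hu0 _), ← mul_pow]
          exact pow_le_pow_left₀ (mn_nonneg _ _) (by linarith) _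
        calc ρ ^ v.mult * (C * ρ ^ v.mult * (1 + Real.log ρ) * (rn v u ^ v.mult)⁻¹)
            ≤ ρ ^ v.mult * (C * ρ ^ v.mult * (1 + Real.log ρ) * (2 ^ v.mult * (mn v h ^ v.mult)⁻¹)) := by
              gcongr
          _ = _ := by rw [two_mul, pow_add]; ring

/-! ### Eigenvalues -/

lemma abs_log_rn_le (w : InfinitePlace K) {η : ℝ} (hη : 0 ≤ η) {h : GG K}
    (hh : mn w h ≤ √(2 * Real.cosh (2 * η))) : |Real.log (rn w (h 0))| ≤ η := by
  set t := Real.log (rn w (h 0)) with ht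
  have hr := rn_row_pos w h 0
  have hr1 := rn_row_pos w h 1
  have e : Real.exp t = rn w (h 0) := Real.exp_log hr
  have h1 := one_le_rn_mul w h
  have h2 : mn w h ^ 2 ≤ 2 * Real.cosh (2 * η) := by
    have := Real.sq_sqrt (by positivity : 0 ≤ 2 * Real.cosh (2 * η))
    rw [← this]
    exact pow_le_pow_left₀ (mn_nonneg _ _) hh 2
  rw [mn_sq] at h2
  have h3 : Real.exp (-t) ≤ rn w (h 1) := by
    rw [Real.exp_neg, e, inv_le_iff_one_le_mul₀ hr]
    linarith
  have h4 : Real.cosh (2 * t) ≤ Real.cosh (2 * η) := by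
    rw [Real.cosh_eq (2 * t)]
    have e1 : Real.exp (2 * t) = rn w (h 0) ^ 2 := by
      rw [two_mul, Real.exp_add, e, sq]
    have e2 : Real.exp (-(2 * t)) ≤ rn w (h 1) ^ 2 := by
      have : Real.exp (-(2 * t)) = Real.exp (-t) ^ 2 := by
        rw [sq, ← Real.exp_add]; ring_nf
      rw [this]
      exact pow_le_pow_left₀ (Real.exp_pos _).le h3 2
    linarith
  rw [Real.cosh_le_cosh] at h4
  rw [abs_mul, abs_mul, abs_of_nonneg hη] at h4
  norm_num at h4
  exact h4

variable (K) in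
/-- `[K : ℚ]` -/
def deg : ℝ := ∑ w : InfinitePlace K, (w.mult : ℝ)

lemma deg_pos : 0 < deg K := by
  unfold deg
  exact Finset.sum_pos (fun w _ => by exact_mod_cast mult_pos' w) Finset.univ_nonempty

lemma cpow_eq_exp {x : ℝ} (hx : 0 < x) (s : ℂ) : (x : ℂ) ^ s = Complex.exp (s * (Real.log x : ℝ)) := by
  rw [Complex.cpow_def_of_ne_zero (by exact_mod_cast hx.ne'), ← Complex.ofReal_log hx.le, mul_comm]

/-- lower bound of the real part of `sph` -/
lemma sph_re_lower (v : InfinitePlace K) {L η ρ : ℝ} (hη : 0 ≤ η)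
    (hη1 : deg K * (1 + 2 * |L|) * η ≤ 1 / 4)
    {ν : InfinitePlace K → ℂ} (h1 : (ν v).im = 0) (h2 : (ν v).re ≤ 1 / 2)
    (h3 : ∀ w, w ≠ v → ‖ν w‖ ≤ L) {h : GG K} (hh : h ∈ ball (rad v ρ (√(2 * Real.cosh (2 * η))))) :
    ρ ^ (-(v.mult : ℝ) * (1 - 2 * (ν v).re)) / 2 ≤ (sph ν h).re := by
  classical
  have hrv := rn_row_pos v h 0
  have hv : (((rn v (h 0) : ℝ) : ℂ) ^ (-(v.mult : ℂ) * (1 - 2 * ν v))) =
      ((rn v (h 0) ^ (-(v.mult : ℝ) * (1 - 2 * (ν v).re)) : ℝ) : ℂ) := by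
    have : ν v = ((ν v).re : ℂ) := by
      apply Complex.ext <;> simp [h1]
    rw [this, Complex.ofReal_cpow hrv.le]
    push_cast
    simp
  set S : ℂ := ∑ w ∈ Finset.univ.erase v,
    (-(w.mult : ℂ) * (1 - 2 * ν w)) * (Real.log (rn w (h 0)) : ℝ) with hS
  have hsph : sph ν h = ((rn v (h 0) ^ (-(v.mult : ℝ) * (1 - 2 * (ν v).re)) : ℝ) : ℂ) *
      Complex.exp S := by
    unfold sph
    rw [← Finset.mul_prod_erase _ _ (Finset.mem_univ v), hv, hS, Complex.exp_sum]
    congr 1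
    exact Finset.prod_congr rfl fun w _ => cpow_eq_exp (rn_row_pos w h 0) _
  have hSn : ‖S‖ ≤ 1 / 4 := by
    calc ‖S‖ ≤ ∑ w ∈ Finset.univ.erase v,
          ‖(-(w.mult : ℂ) * (1 - 2 * ν w)) * (Real.log (rn w (h 0)) : ℝ)‖ := norm_sum_le _ _
      _ ≤ ∑ w ∈ Finset.univ.erase v, (w.mult : ℝ) * ((1 + 2 * |L|) * η) := by
          refine Finset.sum_le_sum fun w hw => ?_
          have hwv : w ≠ v := Finset.ne_of_mem_erase hw
          have h4 : ‖(1 - 2 * ν w)‖ ≤ 1 + 2 * |L| := by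
            calc ‖(1 - 2 * ν w)‖ ≤ ‖(1 : ℂ)‖ + ‖2 * ν w‖ := norm_sub_le _ _
              _ = 1 + 2 * ‖ν w‖ := by simp
              _ ≤ 1 + 2 * |L| := by
                  have := (h3 w hwv).trans (le_abs_self L)
                  linarith
          have h5 : |Real.log (rn w (h 0))| ≤ η := by
            apply abs_log_rn_le w hη
            have := hh w
            rwa [rad_ne hwv] at this
          rw [norm_mul, norm_mul, norm_neg, Complex.norm_natCast, Complex.norm_real, Real.norm_eq_abs,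
            mul_assoc]
          gcongr
      _ ≤ ∑ w : InfinitePlace K, (w.mult : ℝ) * ((1 + 2 * |L|) * η) := by
          refine Finset.sum_le_sum_of_subset_of_nonneg (Finset.erase_subset _ _) fun w _ _ => ?_
          positivity
      _ = deg K * (1 + 2 * |L|) * η := by
          rw [← Finset.sum_mul, deg]; ring
      _ ≤ 1 / 4 := hη1
  have hexp : 1 / 2 ≤ (Complex.exp S).re := by
    have h4 := Complex.norm_exp_sub_one_le (x := S) (by linarith)
    have h5 : |(Complex.exp S - 1).re| ≤ 1 / 2 := (Complex.abs_re_le_norm _).trans (by linarith)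
    rw [Complex.sub_re, Complex.one_re] at h5
    have := (abs_le.1 h5).1
    linarith
  rw [hsph, Complex.re_ofReal_mul]
  have h6 : ρ ^ (-(v.mult : ℝ) * (1 - 2 * (ν v).re)) ≤
      rn v (h 0) ^ (-(v.mult : ℝ) * (1 - 2 * (ν v).re)) := by
    apply Real.rpow_le_rpow_of_nonpos hrv
    · have := hh v
      rw [rad_self] at this
      exact (rn_row_le v h 0).trans this
    · have : (0 : ℝ) ≤ v.mult := by positivity
      nlinarith
  have h7 : 0 ≤ rn v (h 0) ^ (-(v.mult : ℝ) * (1 - 2 * (ν v).re)) := by positivity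
  nlinarith

lemma continuous_sph (ν : InfinitePlace K → ℂ) : Continuous (sph ν) := by
  unfold sph
  refine continuous_finsetProd _ fun w _ => ?_
  have h1 : Continuous fun h : GG K => rn w (h 0) := by
    refine (continuous_rn w).comp ?_
    exact (continuous_apply 0).comp Matrix.SpecialLinearGroup.isClosedEmbedding_val.continuous
  have h2 : Continuous fun h : GG K => ((rn w (h 0) : ℝ) : ℂ) := Complex.continuous_ofReal.comp h1
  refine h2.cpow continuous_const fun h => ?_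
  rw [Complex.mem_slitPlane_iff]
  left
  simpa using rn_row_pos w h 0

/-- the lower bound of the eigenvalues -/
theorem eig_lower (v : InfinitePlace K) (L : ℝ) : ∃ ρ₀ : ℝ, √2 < ρ₀ ∧ ∀ ρ : ℝ,
    ∀ ν : InfinitePlace K → ℂ, (ν v).im = 0 → (ν v).re ≤ 1 / 2 → (∀ w, w ≠ v → ‖ν w‖ ≤ L) →
      (mu K (ball (rad v ρ ρ₀))).toReal * (ρ ^ (-(v.mult : ℝ) * (1 - 2 * (ν v).re)) / 2) ≤
        ‖∫ h in ball (rad v ρ ρ₀), sph ν h ∂(mu K)‖ := by
  have hd := deg_pos (K := K)
  set η : ℝ := 1 / (4 * (deg K * (1 + 2 * |L|))) with hη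
  have hη0 : 0 < η := by positivity
  have hη1 : deg K * (1 + 2 * |L|) * η ≤ 1 / 4 := by
    rw [hη]
    have : 0 < deg K * (1 + 2 * |L|) := by positivity
    field_simp
    rfl
  refine ⟨√(2 * Real.cosh (2 * η)), ?_, fun ρ ν h1 h2 h3 => ?_⟩
  · apply Real.sqrt_lt_sqrt (by norm_num)
    have : 1 < Real.cosh (2 * η) := Real.one_lt_cosh.2 (by positivity)
    linarith
  set B := ball (rad v ρ (√(2 * Real.cosh (2 * η)))) with hB
  have hint : IntegrableOn (sph ν) B (mu K) :=
    (continuous_sph ν).continuousOn.integrableOn_compact (isCompact_ball _)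
  have hre : (∫ h in B, sph ν h ∂(mu K)).re = ∫ h in B, (sph ν h).re ∂(mu K) := by
    have := integral_re hint
    exact this.symm
  calc (mu K B).toReal * (ρ ^ (-(v.mult : ℝ) * (1 - 2 * (ν v).re)) / 2)
      = ∫ h in B, (ρ ^ (-(v.mult : ℝ) * (1 - 2 * (ν v).re)) / 2) ∂(mu K) := by
        rw [setIntegral_const, smul_eq_mul]; rfl
    _ ≤ ∫ h in B, (sph ν h).re ∂(mu K) := by
        refine setIntegral_mono_on ?_ ?_ (isCompact_ball _).measurableSet fun h hh => ?_
        · exact continuous_const.continuousOn.integrableOn_compact (isCompact_ball _)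
        · exact (Complex.continuous_re.comp (continuous_sph ν)).continuousOn.integrableOn_compact
            (isCompact_ball _)
        · exact sph_re_lower v hη0.le hη1 h1 h2 h3 hh
    _ = (∫ h in B, sph ν h ∂(mu K)).re := hre.symm
    _ ≤ ‖∫ h in B, sph ν h ∂(mu K)‖ := Complex.re_le_norm _

end Pool.Agent.T2h77
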