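import Pool.Agent.T2h77.DefsA
import Pool.Agent.T2h77.Geo2

/-!
# Fundamental domains
-/

set_option autoImplicit false

open NumberField NumberField.mixedEmbedding MeasureTheory Matrix
open scoped MatrixGroups ENNReal Pointwise

noncomputable section

namespace Pool.Agent.T2h77

variable {K : Type} [Field K] [NumberField K]

theorem IsFD.isFundamentalDomain {Γ : Subgroup SL(2, 𝓞 K)} {𝓕 : Set (GG K)} (h : IsFD Γ 𝓕) :
    IsFundamentalDomain (Γ.map (io K)) 𝓕 (mu K) := by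
  obtain ⟨h1, h2, h3⟩ := h
  refine IsFundamentalDomain.mk'' h1 ?_ ?_ ?_
  · filter_upwards [h2] with g hg
    obtain ⟨γ, hγ, hg⟩ := hg
    exact ⟨⟨io K γ, Subgroup.mem_map_of_mem _ hγ⟩, hg⟩
  · rintro ⟨_, γ, hγ, rfl⟩ hne
    have hγ1 : γ⁻¹ ≠ 1 := by
      intro h
      apply hne
      have h4 : γ = 1 := inv_eq_one.1 h
      subst h4
      exact Subtype.ext (map_one _)
    have := h3 γ⁻¹ (Γ.inv_mem hγ) hγ1
    unfold AEDisjoint
    rw [← this]
    congr 1
    ext g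
    rw [Set.mem_inter_iff, Set.mem_smul_set_iff_inv_smul_mem, and_comm]
    have e : ((⟨io K γ, Subgroup.mem_map_of_mem _ hγ⟩ : Γ.map (io K))⁻¹ • g) = lm γ⁻¹ g := by
      unfold lm
      rw [map_inv]
      rfl
    change _ ↔ (g ∈ 𝓕 ∧ lm γ⁻¹ g ∈ 𝓕)
    constructor
    · rintro ⟨ha, hb⟩
      exact ⟨ha, by rw [← e]; exact hb⟩
    · rintro ⟨ha, hb⟩
      exact ⟨ha, by rw [← e] at hb; exact hb⟩
  · intro g
    exact (measurePreserving_mul_left (mu K) (g : GG K)).quasiMeasurePreserving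

end Pool.Agent.T2h77
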