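import Pool.Agent.T2h77.Stm

/-!
# The norms on `SL₂(K ⊗ ℝ)`
-/

set_option autoImplicit false
set_option linter.unusedSectionVars false
set_option linter.deprecated false

open NumberField NumberField.mixedEmbedding MeasureTheory Matrix
open scoped MatrixGroups ENNReal

noncomputable section

namespace Pool.Agent.T2h77

variable {K : Type} [Field K] [NumberField K]

lemma nP_nonneg (w : InfinitePlace K) (x : mixedSpace K) : 0 ≤ normAtPlace w x :=
  normAtPlace_nonneg w x

lemma nP_sub_le (w : InfinitePlace K) (x y : mixedSpace K) :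
    normAtPlace w (x - y) ≤ normAtPlace w x + normAtPlace w y := by
  rw [sub_eq_add_neg, ← normAtPlace_neg w y]
  exact normAtPlace_add_le w x (-y)

lemma rn_nonneg (w : InfinitePlace K) (z : Fin 2 → mixedSpace K) : 0 ≤ rn w z := Real.sqrt_nonneg _

lemma mn_nonneg (w : InfinitePlace K) (h : GG K) : 0 ≤ mn w h := Real.sqrt_nonneg _

lemma rn_sq (w : InfinitePlace K) (z : Fin 2 → mixedSpace K) :
    rn w z ^ 2 = normAtPlace w (z 0) ^ 2 + normAtPlace w (z 1) ^ 2 :=
  Real.sq_sqrt (by positivity)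

lemma mn_sq (w : InfinitePlace K) (h : GG K) :
    mn w h ^ 2 = rn w (h 0) ^ 2 + rn w (h 1) ^ 2 :=
  Real.sq_sqrt (by positivity)

lemma mn_sq' (w : InfinitePlace K) (h : GG K) :
    mn w h ^ 2 = normAtPlace w (h 0 0) ^ 2 + normAtPlace w (h 0 1) ^ 2 +
      (normAtPlace w (h 1 0) ^ 2 + normAtPlace w (h 1 1) ^ 2) := by
  rw [mn_sq, rn_sq, rn_sq]

lemma rn_vecMul_le (w : InfinitePlace K) (z : Fin 2 → mixedSpace K) (h : GG K) :
    rn w (Matrix.vecMul z h.1) ≤ rn w z * mn w h := by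
  refine abs_le_of_sq_le_sq' ?_ (mul_nonneg (rn_nonneg _ _) (mn_nonneg _ _)) |>.2
  rw [mul_pow, rn_sq, rn_sq, mn_sq']
  have e : ∀ j, Matrix.vecMul z h.1 j = z 0 * h 0 j + z 1 * h 1 j := by
    intro j
    rw [Matrix.vecMul_eq_sum]
    simp [Fin.sum_univ_two]
  have b : ∀ j, normAtPlace w (Matrix.vecMul z h.1 j) ≤
      normAtPlace w (z 0) * normAtPlace w (h 0 j) + normAtPlace w (z 1) * normAtPlace w (h 1 j) := by
    intro j
    rw [e, ← map_mul, ← map_mul]
    exact normAtPlace_add_le w _ _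
  have h0 := b 0
  have h1 := b 1
  have n0 := nP_nonneg w (Matrix.vecMul z h.1 0)
  have n1 := nP_nonneg w (Matrix.vecMul z h.1 1)
  set p := normAtPlace w (z 0)
  set r := normAtPlace w (z 1)
  set a := normAtPlace w (h 0 0)
  set b' := normAtPlace w (h 0 1)
  set c := normAtPlace w (h 1 0)
  set d := normAtPlace w (h 1 1)
  have s0 : normAtPlace w (Matrix.vecMul z h.1 0) ^ 2 ≤ (p * a + r * c) ^ 2 := by gcongr
  have s1 : normAtPlace w (Matrix.vecMul z h.1 1) ^ 2 ≤ (p * b' + r * d) ^ 2 := by gcongr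
  nlinarith [sq_nonneg (p * c - r * a), sq_nonneg (p * d - r * b')]

lemma mn_mul_le (w : InfinitePlace K) (g h : GG K) : mn w (g * h) ≤ mn w g * mn w h := by
  refine abs_le_of_sq_le_sq' ?_ (mul_nonneg (mn_nonneg _ _) (mn_nonneg _ _)) |>.2
  have e : ∀ i, (g * h) i = Matrix.vecMul (g i) h.1 := fun i => rfl
  rw [mul_pow, mn_sq, mn_sq w g, e, e]
  have h0 := rn_vecMul_le w (g 0) h
  have h1 := rn_vecMul_le w (g 1) h
  have n0 := rn_nonneg w (Matrix.vecMul (g 0) h.1)
  have n1 := rn_nonneg w (Matrix.vecMul (g 1) h.1)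
  have s0 : rn w (Matrix.vecMul (g 0) h.1) ^ 2 ≤ (rn w (g 0) * mn w h) ^ 2 := by gcongr
  have s1 : rn w (Matrix.vecMul (g 1) h.1) ^ 2 ≤ (rn w (g 1) * mn w h) ^ 2 := by gcongr
  nlinarith

lemma inv_apply00 (h : GG K) : h⁻¹ 0 0 = h 1 1 := by
  rw [Matrix.SpecialLinearGroup.coe_inv, Matrix.adjugate_fin_two]; rfl
lemma inv_apply01 (h : GG K) : h⁻¹ 0 1 = - h 0 1 := by
  rw [Matrix.SpecialLinearGroup.coe_inv, Matrix.adjugate_fin_two]; rfl
lemma inv_apply10 (h : GG K) : h⁻¹ 1 0 = - h 1 0 := by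
  rw [Matrix.SpecialLinearGroup.coe_inv, Matrix.adjugate_fin_two]; rfl
lemma inv_apply11 (h : GG K) : h⁻¹ 1 1 = h 0 0 := by
  rw [Matrix.SpecialLinearGroup.coe_inv, Matrix.adjugate_fin_two]; rfl

lemma mn_inv (w : InfinitePlace K) (h : GG K) : mn w h⁻¹ = mn w h := by
  have : mn w h⁻¹ ^ 2 = mn w h ^ 2 := by
    rw [mn_sq', mn_sq', inv_apply00, inv_apply01, inv_apply10, inv_apply11, normAtPlace_neg,
      normAtPlace_neg]
    ring
  exact (sq_eq_sq₀ (mn_nonneg _ _) (mn_nonneg _ _)).1 this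

lemma mn_neg (w : InfinitePlace K) (h : GG K) : mn w (-h) = mn w h := by
  have : mn w (-h) ^ 2 = mn w h ^ 2 := by
    rw [mn_sq', mn_sq']
    simp only [Matrix.SpecialLinearGroup.coe_neg, Matrix.neg_apply, normAtPlace_neg]
  exact (sq_eq_sq₀ (mn_nonneg _ _) (mn_nonneg _ _)).1 this

/-- the determinant of two row vectors -/
def dtm {A : Type} [CommRing A] (x y : Fin 2 → A) : A := x 0 * y 1 - x 1 * y 0

lemma dtm_le (w : InfinitePlace K) (x y : Fin 2 → mixedSpace K) :
    normAtPlace w (dtm x y) ≤ rn w x * rn w y := by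
  refine abs_le_of_sq_le_sq' ?_ (mul_nonneg (rn_nonneg _ _) (rn_nonneg _ _)) |>.2
  have h := nP_sub_le w (x 0 * y 1) (x 1 * y 0)
  rw [map_mul, map_mul] at h
  have n0 := nP_nonneg w (dtm x y)
  rw [mul_pow, rn_sq, rn_sq]
  unfold dtm at *
  set a := normAtPlace w (x 0)
  set b := normAtPlace w (x 1)
  set c := normAtPlace w (y 0)
  set d := normAtPlace w (y 1)
  calc normAtPlace w (x 0 * y 1 - x 1 * y 0) ^ 2 ≤ (a * d + b * c) ^ 2 := by gcongr
    _ ≤ (a ^ 2 + b ^ 2) * (c ^ 2 + d ^ 2) := by nlinarith [sq_nonneg (a * c - b * d)]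

lemma dtm_vecMul {A : Type} [CommRing A] (x y : Fin 2 → A) (h : SL(2, A)) :
    dtm (Matrix.vecMul x h.1) (Matrix.vecMul y h.1) = dtm x y := by
  have hd : h.1 0 0 * h.1 1 1 - h.1 0 1 * h.1 1 0 = 1 := by
    rw [← Matrix.det_fin_two]; exact h.2
  have e : ∀ (z : Fin 2 → A) (j), Matrix.vecMul z h.1 j = z 0 * h.1 0 j + z 1 * h.1 1 j := by
    intro z j
    rw [Matrix.vecMul_eq_sum]
    simp [Fin.sum_univ_two]
  unfold dtm
  rw [e, e, e, e]
  linear_combination (x 0 * y 1 - x 1 * y 0) * hd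

lemma one_le_rn_mul (w : InfinitePlace K) (h : GG K) : 1 ≤ rn w (h 0) * rn w (h 1) := by
  have := dtm_le w (h 0) (h 1)
  have hd : dtm (h 0) (h 1) = 1 := by
    have := h.2
    rw [Matrix.det_fin_two] at this
    exact this
  rwa [hd, map_one] at this

lemma two_le_mn_sq (w : InfinitePlace K) (h : GG K) : 2 ≤ mn w h ^ 2 := by
  rw [mn_sq]
  nlinarith [one_le_rn_mul w h, sq_nonneg (rn w (h 0) - rn w (h 1))]

lemma one_le_mn (w : InfinitePlace K) (h : GG K) : 1 ≤ mn w h := by
  nlinarith [two_le_mn_sq w h, mn_nonneg w h]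

lemma mn_pos (w : InfinitePlace K) (h : GG K) : 0 < mn w h := lt_of_lt_of_le one_pos (one_le_mn w h)

lemma rn_row_le (w : InfinitePlace K) (h : GG K) (i : Fin 2) : rn w (h i) ≤ mn w h := by
  refine abs_le_of_sq_le_sq' ?_ (mn_nonneg _ _) |>.2
  rw [mn_sq]
  fin_cases i
  · simpa using sq_nonneg (rn w (h 1))
  · simpa using sq_nonneg (rn w (h 0))

lemma rn_row_pos (w : InfinitePlace K) (h : GG K) (i : Fin 2) : 0 < rn w (h i) := by
  have h1 := one_le_rn_mul w h
  have h2 := rn_nonneg w (h 0)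
  have h3 := rn_nonneg w (h 1)
  fin_cases i
  · rcases h2.eq_or_lt with h | h
    · rw [← h] at h1; linarith
    · exact h
  · rcases h3.eq_or_lt with h | h
    · rw [← h] at h1; linarith
    · exact h

lemma entry_le (w : InfinitePlace K) (h : GG K) (i j : Fin 2) : normAtPlace w (h i j) ≤ mn w h := by
  refine (le_trans ?_ (rn_row_le w h i))
  refine abs_le_of_sq_le_sq' ?_ (rn_nonneg _ _) |>.2
  rw [rn_sq]
  fin_cases j
  · simpa using sq_nonneg (normAtPlace w (h i 1))
  · simpa using sq_nonneg (normAtPlace w (h i 0))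

lemma vecMul_inv (z : Fin 2 → mixedSpace K) (h : GG K) :
    Matrix.vecMul (Matrix.vecMul z h.1) (h⁻¹).1 = z := by
  rw [Matrix.vecMul_vecMul]
  have : h.1 * (h⁻¹).1 = 1 := by
    rw [← Matrix.SpecialLinearGroup.coe_mul, mul_inv_cancel, Matrix.SpecialLinearGroup.coe_one]
  rw [this, Matrix.vecMul_one]

lemma rn_le_vecMul (w : InfinitePlace K) (z : Fin 2 → mixedSpace K) (h : GG K) :
    rn w z ≤ rn w (Matrix.vecMul z h.1) * mn w h := by
  have := rn_vecMul_le w (Matrix.vecMul z h.1) h⁻¹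
  rwa [vecMul_inv, mn_inv] at this

/-! ### Continuity and compactness -/

lemma continuous_entry (i j : Fin 2) : Continuous fun h : GG K => h i j :=
  (continuous_apply_apply i j).comp Matrix.SpecialLinearGroup.isClosedEmbedding_val.continuous

lemma continuous_rn (w : InfinitePlace K) : Continuous (rn w) := by
  unfold rn
  have := continuous_normAtPlace w (K := K)
  fun_prop

lemma continuous_mn (w : InfinitePlace K) : Continuous (mn w) := by
  unfold mn rn
  have := continuous_normAtPlace w (K := K)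
  have h := fun i j => continuous_entry (K := K) i j
  have := h 0 0
  have := h 0 1
  have := h 1 0
  have := h 1 1
  fun_prop

lemma continuous_vecMul : Continuous fun p : (Fin 2 → mixedSpace K) × GG K => Matrix.vecMul p.1 p.2.1 := by
  have : Continuous fun p : (Fin 2 → mixedSpace K) × GG K => p.2.1 :=
    Matrix.SpecialLinearGroup.isClosedEmbedding_val.continuous.comp continuous_snd
  exact Continuous.matrix_vecMul continuous_fst this

lemma isClosed_ball (r : InfinitePlace K → ℝ) : IsClosed (ball r) := by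
  have : ball r = ⋂ w, {h : GG K | mn w h ≤ r w} := by
    ext h
    simp [ball]
  rw [this]
  exact isClosed_iInter fun w => isClosed_le (continuous_mn w) continuous_const

open scoped Classical in
lemma isCompact_ball (r : InfinitePlace K → ℝ) : IsCompact (ball r) := by
  obtain ⟨R, hR⟩ : ∃ R : ℝ, ∀ w, r w ≤ R :=
    ⟨Finset.univ.sup' Finset.univ_nonempty r, fun w => Finset.le_sup' r (Finset.mem_univ w)⟩
  set Q : Set (Matrix (Fin 2) (Fin 2) (mixedSpace K)) :=
    {M | ∀ i, M i ∈ {v : Fin 2 → mixedSpace K | ∀ j, v j ∈ Metric.closedBall (0 : mixedSpace K) R}}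
    with hQ
  have hQc : IsCompact Q := by
    have h1 : IsCompact {v : Fin 2 → mixedSpace K | ∀ j, v j ∈ Metric.closedBall (0 : mixedSpace K) R} :=
      isCompact_pi_infinite fun j => isCompact_closedBall _ _
    exact isCompact_pi_infinite fun i => h1
  refine ((Matrix.SpecialLinearGroup.isClosedEmbedding_val.isCompact_preimage hQc)).of_isClosed_subset
    (isClosed_ball r) ?_
  intro h hh
  rw [Set.mem_preimage, hQ, Set.mem_setOf_eq]
  intro i
  rw [Set.mem_setOf_eq]
  intro j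
  rw [mem_closedBall_zero_iff, norm_eq_sup'_normAtPlace]
  refine Finset.sup'_le _ _ fun w _ => ?_
  exact (entry_le w h i j).trans ((hh w).trans (hR w))

lemma inv_mem_ball (r : InfinitePlace K → ℝ) (h : GG K) : h⁻¹ ∈ ball r ↔ h ∈ ball r := by
  simp only [ball, Set.mem_setOf_eq, mn_inv]

/-! ### The embedding of `SL(2, 𝓞 K)` -/

lemma io_apply (δ : SL(2, 𝓞 K)) (i j : Fin 2) : io K δ i j = mixedEmbedding K (δ i j : K) := rfl

lemma io_injective : Function.Injective (io K) := by
  intro a b hab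
  ext i j
  have h1 : io K a i j = io K b i j := by rw [hab]
  rw [io_apply, io_apply] at h1
  exact mixedEmbedding_injective K h1

instance : Countable (𝓞 K) :=
  (RingOfIntegers.basis K).equivFun.toEquiv.injective.countable

instance : Countable SL(2, 𝓞 K) := by
  have : Function.Injective (fun a : SL(2, 𝓞 K) => fun i j => a i j) := by
    intro a b hab
    ext i j
    rw [show a i j = b i j from congrFun (congrFun hab i) j]
  exact this.countable

lemma emb_vecMul (x : Fin 2 → 𝓞 K) (γ : SL(2, 𝓞 K)) :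
    emb K (Matrix.vecMul x γ.1) = Matrix.vecMul (emb K x) (io K γ).1 := by
  funext j
  have e1 : Matrix.vecMul x γ.1 j = x 0 * γ 0 j + x 1 * γ 1 j := by
    rw [Matrix.vecMul_eq_sum]
    simp [Fin.sum_univ_two]
  have e2 : Matrix.vecMul (emb K x) (io K γ).1 j = emb K x 0 * io K γ 0 j + emb K x 1 * io K γ 1 j := by
    rw [Matrix.vecMul_eq_sum]
    simp [Fin.sum_univ_two]
  rw [e2, io_apply, io_apply]
  unfold emb
  rw [e1]
  simp

end Pool.Agent.T2h77
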