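import Pool.Agent.T2h77.Geo2

/-!
# The height functions and the Schur test in the cusps
-/

set_option autoImplicit false
set_option linter.unusedSectionVars false
set_option linter.deprecated false

open NumberField NumberField.mixedEmbedding MeasureTheory Matrix
open scoped MatrixGroups ENNReal

noncomputable section

namespace Pool.Agent.T2h77

open An

variable {K : Type} [Field K] [NumberField K]

lemma vecMul_two {A : Type} [CommRing A] (z : Fin 2 → A) (h : SL(2, A)) (j : Fin 2) :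
    Matrix.vecMul z h.1 j = z 0 * h.1 0 j + z 1 * h.1 1 j := by
  rw [Matrix.vecMul_eq_sum]
  simp [Fin.sum_univ_two]

lemma rn_emb_pos (w : InfinitePlace K) {x : Fin 2 → 𝓞 K} (hx : x ≠ 0) : 0 < rn w (emb K x) := by
  have h : rn w (emb K x) ^ 2 = w (x 0 : K) ^ 2 + w (x 1 : K) ^ 2 := by
    rw [rn_sq]; simp [emb, normAtPlace_apply]
  have h2 : 0 < rn w (emb K x) ^ 2 := by
    rw [h]
    by_cases h0 : x 0 = 0
    · have h1 : x 1 ≠ 0 := by
        intro h1
        apply hx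
        funext i
        fin_cases i
        · exact h0
        · exact h1
      have : 0 < w (x 1 : K) := by
        rw [InfinitePlace.pos_iff]
        exact_mod_cast h1
      positivity
    · have : 0 < w (x 0 : K) := by
        rw [InfinitePlace.pos_iff]
        exact_mod_cast h0
      positivity
  exact pos_of_sq_pos' h2 (rn_nonneg _ _)
where
  pos_of_sq_pos' {a : ℝ} (h : 0 < a ^ 2) (h0 : 0 ≤ a) : 0 < a := by
    rcases h0.eq_or_lt with h1 | h1
    · rw [← h1] at h; norm_num at h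
    · exact h1

lemma rn_vecMul_pos (w : InfinitePlace K) {x : Fin 2 → 𝓞 K} (hx : x ≠ 0) (g : GG K) :
    0 < rn w (Matrix.vecMul (emb K x) g.1) := by
  have h1 := rn_le_vecMul w (emb K x) g
  have h2 := mn_pos w g
  have h3 := rn_emb_pos w hx
  by_contra hcon
  push Not at hcon
  nlinarith

lemma nn_pos {x : Fin 2 → 𝓞 K} (hx : x ≠ 0) (g : GG K) : 0 < nn x g :=
  Finset.prod_pos fun w _ => pow_pos (rn_vecMul_pos w hx g) _

lemma span_ne_bot {x : Fin 2 → 𝓞 K} (hx : x ≠ 0) : Ideal.span {x 0, x 1} ≠ (⊥ : Ideal (𝓞 K)) := by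
  intro h
  rw [Ideal.span_eq_bot] at h
  apply hx
  funext i
  fin_cases i
  · exact h _ (by simp)
  · exact h _ (by simp)

lemma na_pos {x : Fin 2 → 𝓞 K} (hx : x ≠ 0) : 0 < na x := by
  unfold na
  have : Ideal.absNorm (Ideal.span {x 0, x 1} : Ideal (𝓞 K)) ≠ 0 := by
    rw [ne_eq, Ideal.absNorm_eq_zero_iff]
    exact span_ne_bot hx
  positivity

lemma vecMul_mul' {A : Type} [CommRing A] (x : Fin 2 → A) (g h : SL(2, A)) :
    Matrix.vecMul x (g * h).1 = Matrix.vecMul (Matrix.vecMul x g.1) h.1 := by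
  rw [Matrix.vecMul_vecMul]; rfl

lemma nn_vecMul (x : Fin 2 → 𝓞 K) (γ : SL(2, 𝓞 K)) (g : GG K) :
    nn (Matrix.vecMul x γ.1) g = nn x (io K γ * g) := by
  unfold nn
  rw [emb_vecMul, vecMul_mul']

lemma na_vecMul_le (x : Fin 2 → 𝓞 K) (γ : SL(2, 𝓞 K)) :
    (Ideal.span {Matrix.vecMul x γ.1 0, Matrix.vecMul x γ.1 1} : Ideal (𝓞 K)) ≤
      Ideal.span {x 0, x 1} := by
  rw [Ideal.span_le]
  intro y hy
  simp only [Set.mem_insert_iff, Set.mem_singleton_iff] at hy
  have key : ∀ j, Matrix.vecMul x γ.1 j ∈ (Ideal.span {x 0, x 1} : Ideal (𝓞 K)) := by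
    intro j
    rw [vecMul_two]
    refine Ideal.add_mem _ (Ideal.mul_mem_right _ _ (Ideal.subset_span (by simp)))
      (Ideal.mul_mem_right _ _ (Ideal.subset_span (by simp)))
  rcases hy with rfl | rfl
  · exact key 0
  · exact key 1

lemma vecMul_inv' {A : Type} [CommRing A] (z : Fin 2 → A) (h : SL(2, A)) :
    Matrix.vecMul (Matrix.vecMul z h.1) (h⁻¹).1 = z := by
  rw [← vecMul_mul', mul_inv_cancel]
  exact Matrix.vecMul_one z

lemma na_vecMul (x : Fin 2 → 𝓞 K) (γ : SL(2, 𝓞 K)) : na (Matrix.vecMul x γ.1) = na x := by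
  unfold na
  congr 2
  apply le_antisymm (na_vecMul_le x γ)
  have := na_vecMul_le (Matrix.vecMul x γ.1) γ⁻¹
  rw [vecMul_inv'] at this
  exact this

lemma vecMul_ne_zero {x : Fin 2 → 𝓞 K} (hx : x ≠ 0) (γ : SL(2, 𝓞 K)) : Matrix.vecMul x γ.1 ≠ 0 := by
  intro h
  apply hx
  have := vecMul_inv' x γ
  rw [h, Matrix.zero_vecMul] at this
  exact this.symm

/-- the height of `g` at the cusp `x` -/
def ht (x : Fin 2 → 𝓞 K) (g : GG K) : ℝ := na x / nn x g

lemma ht_pos {x : Fin 2 → 𝓞 K} (hx : x ≠ 0) (g : GG K) : 0 < ht x g := div_pos (na_pos hx) (nn_pos hx g)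

lemma ht_vecMul (x : Fin 2 → 𝓞 K) (γ : SL(2, 𝓞 K)) (g : GG K) :
    ht (Matrix.vecMul x γ.1) g = ht x (io K γ * g) := by
  unfold ht; rw [na_vecMul, nn_vecMul]

/-- the upper bound of `mn w h` over the places -/
def bd (r : InfinitePlace K → ℝ) : ℝ := ∏ w, r w ^ w.mult

lemma nn_mul_le {x : Fin 2 → 𝓞 K} {r : InfinitePlace K → ℝ} (g : GG K) {h : GG K} (hh : h ∈ ball r) :
    nn x (g * h) ≤ nn x g * bd r := by
  unfold nn bd
  rw [← Finset.prod_mul_distrib]
  refine Finset.prod_le_prod (fun w _ => pow_nonneg (rn_nonneg _ _) _) fun w _ => ?_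
  rw [← mul_pow, vecMul_mul']
  refine pow_le_pow_left₀ (rn_nonneg _ _) ?_ _
  exact (rn_vecMul_le _ _ _).trans (mul_le_mul_of_nonneg_left (hh w) (rn_nonneg _ _))

lemma nn_le_mul {x : Fin 2 → 𝓞 K} {r : InfinitePlace K → ℝ} (g : GG K) {h : GG K} (hh : h ∈ ball r) :
    nn x g ≤ nn x (g * h) * bd r := by
  have := nn_mul_le (x := x) (g * h) ((inv_mem_ball r h).2 hh)
  rwa [mul_inv_cancel_right] at this

/-- cusps do not interfere -/
lemma ht_mul_le {x y : Fin 2 → 𝓞 K} (hx : x ≠ 0) (hy : y ≠ 0) (hd : dtm x y ≠ 0) (g : GG K) :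
    ht x g * ht y g ≤ 1 := by
  unfold ht
  rw [div_mul_div_comm, div_le_one (mul_pos (nn_pos hx g) (nn_pos hy g))]
  have h1 : na x * na y ≤ (Ideal.absNorm (Ideal.span {dtm x y} : Ideal (𝓞 K)) : ℝ) := by
    unfold na
    rw [← Nat.cast_mul, ← map_mul]
    have hmem : dtm x y ∈ (Ideal.span {x 0, x 1} : Ideal (𝓞 K)) * Ideal.span {y 0, y 1} := by
      unfold dtm
      refine Ideal.sub_mem _ (Ideal.mul_mem_mul (Ideal.subset_span (by simp)) (Ideal.subset_span (by simp)))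
        (Ideal.mul_mem_mul (Ideal.subset_span (by simp)) (Ideal.subset_span (by simp)))
    have hdvd := Ideal.absNorm_dvd_absNorm_of_le ((Ideal.span_singleton_le_iff_mem _).2 hmem)
    have hpos : Ideal.absNorm (Ideal.span {dtm x y} : Ideal (𝓞 K)) ≠ 0 := by
      rw [ne_eq, Ideal.absNorm_eq_zero_iff, Ideal.span_singleton_eq_bot]
      exact hd
    exact_mod_cast Nat.le_of_dvd (Nat.pos_of_ne_zero hpos) hdvd
  refine h1.trans ?_
  rw [Ideal.absNorm_span_singleton]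
  have h2 : ((Algebra.norm ℤ (dtm x y)).natAbs : ℝ) = ∏ w : InfinitePlace K, w ((dtm x y : 𝓞 K) : K) ^ w.mult := by
    rw [InfinitePlace.prod_eq_abs_norm, ← Algebra.coe_norm_int]
    rw [Nat.cast_natAbs]
    push_cast
    rfl
  rw [h2]
  unfold nn
  rw [← Finset.prod_mul_distrib]
  refine Finset.prod_le_prod (fun w _ => pow_nonneg (apply_nonneg _ _) _) fun w _ => ?_
  rw [← mul_pow]
  refine pow_le_pow_left₀ (apply_nonneg _ _) ?_ _
  have h3 := dtm_le w (Matrix.vecMul (emb K x) g.1) (Matrix.vecMul (emb K y) g.1)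
  rw [dtm_vecMul] at h3
  have h4 : normAtPlace w (dtm (emb K x) (emb K y)) = w ((dtm x y : 𝓞 K) : K) := by
    have : dtm (emb K x) (emb K y) = mixedEmbedding K ((dtm x y : 𝓞 K) : K) := by
      unfold dtm emb; simp
    rw [this, normAtPlace_apply]
  rwa [h4] at h3

lemma nn_smul (a : 𝓞 K) (x : Fin 2 → 𝓞 K) (g : GG K) :
    nn (a • x) g = ((Algebra.norm ℤ a).natAbs : ℝ) * nn x g := by
  have h2 : ((Algebra.norm ℤ a).natAbs : ℝ) = ∏ w : InfinitePlace K, w (a : K) ^ w.mult := by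
    rw [InfinitePlace.prod_eq_abs_norm, ← Algebra.coe_norm_int]
    rw [Nat.cast_natAbs]
    push_cast
    rfl
  rw [h2]
  unfold nn
  rw [← Finset.prod_mul_distrib]
  refine Finset.prod_congr rfl fun w _ => ?_
  rw [← mul_pow]
  congr 1
  have e : Matrix.vecMul (emb K (a • x)) g.1 =
      fun j => mixedEmbedding K (a : K) * Matrix.vecMul (emb K x) g.1 j := by
    funext j
    rw [vecMul_two, vecMul_two]
    unfold emb
    simp
    ring
  have : rn w (Matrix.vecMul (emb K (a • x)) g.1) ^ 2 =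
      (w (a : K) * rn w (Matrix.vecMul (emb K x) g.1)) ^ 2 := by
    rw [e, mul_pow, rn_sq, rn_sq]
    simp only [map_mul, normAtPlace_apply]
    ring
  exact (sq_eq_sq₀ (rn_nonneg _ _) (mul_nonneg (apply_nonneg _ _) (rn_nonneg _ _))).1 this

lemma na_smul (a : 𝓞 K) (x : Fin 2 → 𝓞 K) :
    na (a • x) = ((Algebra.norm ℤ a).natAbs : ℝ) * na x := by
  unfold na
  rw [← Ideal.absNorm_span_singleton, ← Nat.cast_mul, ← map_mul]
  congr 2
  rw [Ideal.span_mul_span']
  congr 1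
  ext y
  simp [eq_comm]

lemma ht_eq {x y : Fin 2 → 𝓞 K} (hx : x ≠ 0) (hy : y ≠ 0) (hd : dtm x y = 0) (g : GG K) :
    ht x g = ht y g := by
  have key : ∃ a b : 𝓞 K, a ≠ 0 ∧ b ≠ 0 ∧ a • y = b • x := by
    have h0 : x 0 * y 1 = x 1 * y 0 := sub_eq_zero.1 hd
    by_cases hx0 : x 0 = 0
    · have hx1 : x 1 ≠ 0 := by
        intro h1
        apply hx
        funext i
        fin_cases i
        · exact hx0
        · exact h1
      rw [hx0, zero_mul] at h0
      have hy0 : y 0 = 0 := by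
        rcases mul_eq_zero.1 h0.symm with h | h
        · exact absurd h hx1
        · exact h
      have hy1 : y 1 ≠ 0 := by
        intro h1
        apply hy
        funext i
        fin_cases i
        · exact hy0
        · exact h1
      refine ⟨x 1, y 1, hx1, hy1, ?_⟩
      funext i
      fin_cases i
      · simp [hx0, hy0]
      · exact mul_comm _ _
    · have hy0 : y 0 ≠ 0 := by
        intro h
        rw [h, mul_zero] at h0
        rcases mul_eq_zero.1 h0 with h1 | h1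
        · exact hx0 h1
        · apply hy
          funext i
          fin_cases i
          · exact h
          · exact h1
      refine ⟨x 0, y 0, hx0, hy0, ?_⟩
      funext i
      fin_cases i
      · exact mul_comm _ _
      · simp only [Fin.mk_one, Pi.smul_apply, smul_eq_mul]
        rw [h0, mul_comm]
  obtain ⟨a, b, ha, hb, hab⟩ := key
  have ha' : ((Algebra.norm ℤ a).natAbs : ℝ) ≠ 0 := by
    rw [Nat.cast_ne_zero, Int.natAbs_ne_zero, ne_eq, Algebra.norm_eq_zero_iff]; exact ha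
  have hb' : ((Algebra.norm ℤ b).natAbs : ℝ) ≠ 0 := by
    rw [Nat.cast_ne_zero, Int.natAbs_ne_zero, ne_eq, Algebra.norm_eq_zero_iff]; exact hb
  have h1 := na_smul a y
  have h2 := nn_smul a y g
  rw [hab, na_smul] at h1
  rw [hab, nn_smul] at h2
  unfold ht
  have e1 : na x / nn x g =
      (((Algebra.norm ℤ b).natAbs : ℝ) * na x) / (((Algebra.norm ℤ b).natAbs : ℝ) * nn x g) := by
    rw [mul_div_mul_left _ _ hb']
  rw [e1, h1, h2, mul_div_mul_left _ _ ha']

/-- two high cusps are equal -/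
lemma ht_eq_of_one_lt {x y : Fin 2 → 𝓞 K} (hx : x ≠ 0) (hy : y ≠ 0) {g : GG K} (h1 : 1 < ht x g)
    (h2 : 1 < ht y g) (g' : GG K) : ht x g' = ht y g' := by
  apply ht_eq hx hy
  by_contra hd
  have := ht_mul_le hx hy hd g
  nlinarith

/-- the height -/
def WW (g : GG K) : ℝ≥0∞ := ⨆ x : {x : Fin 2 → 𝓞 K // x ≠ 0}, ENNReal.ofReal (ht x.1 g)

lemma WW_eq {x : Fin 2 → 𝓞 K} (hx : x ≠ 0) {g : GG K} (h1 : 1 < ht x g) :
    WW g = ENNReal.ofReal (ht x g) := by
  apply le_antisymm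
  · refine iSup_le fun y => ENNReal.ofReal_le_ofReal ?_
    by_cases hd : dtm x y.1 = 0
    · rw [ht_eq hx y.2 hd]
    · have h2 := ht_mul_le hx y.2 hd g
      have h3 := ht_pos y.2 g
      nlinarith
  · exact le_iSup (fun x : {x : Fin 2 → 𝓞 K // x ≠ 0} => ENNReal.ofReal (ht x.1 g)) ⟨x, hx⟩

lemma WW_io (γ : SL(2, 𝓞 K)) (g : GG K) : WW (io K γ * g) = WW g := by
  have key : ∀ (γ : SL(2, 𝓞 K)) (g : GG K), WW (io K γ * g) ≤ WW g := by
    intro γ g
    refine iSup_le fun x => ?_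
    rw [← ht_vecMul]
    exact le_iSup (fun x : {x : Fin 2 → 𝓞 K // x ≠ 0} => ENNReal.ofReal (ht x.1 g))
      ⟨_, vecMul_ne_zero x.2 γ⟩
  refine le_antisymm (key γ g) ?_
  have := key γ⁻¹ (io K γ * g)
  rwa [← mul_assoc, ← map_mul, inv_mul_cancel, map_one, one_mul] at this

/-- the cuspidal region -/
def DD (Y : ℝ) : Set (GG K) := {g | ¬ Wle Y g}

lemma mem_DD {Y : ℝ} {g : GG K} : g ∈ DD Y ↔ ∃ x : Fin 2 → 𝓞 K, x ≠ 0 ∧ Y < ht x g := by
  unfold DD Wle
  simp only [Set.mem_setOf_eq, not_forall, not_le, exists_prop]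
  refine exists_congr fun x => and_congr_right fun hx => ?_
  unfold ht
  rw [lt_div_iff₀ (nn_pos hx g)]

lemma DD_io (Y : ℝ) (γ : SL(2, 𝓞 K)) (g : GG K) : io K γ * g ∈ DD Y ↔ g ∈ DD Y := by
  have key : ∀ (γ : SL(2, 𝓞 K)) (g : GG K), io K γ * g ∈ DD Y → g ∈ DD Y := by
    intro γ g h
    rw [mem_DD] at h ⊢
    obtain ⟨x, hx, h⟩ := h
    exact ⟨_, vecMul_ne_zero hx γ, by rwa [ht_vecMul]⟩
  refine ⟨key γ g, fun h => ?_⟩
  apply key γ⁻¹
  rwa [← mul_assoc, ← map_mul, inv_mul_cancel, map_one, one_mul]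

lemma continuous_nn (x : Fin 2 → 𝓞 K) : Continuous (nn x : GG K → ℝ) := by
  unfold nn
  refine continuous_finsetProd _ fun w _ => Continuous.pow ?_ _
  exact (continuous_rn w).comp (continuous_vecMul.comp (Continuous.prodMk_right (emb K x)))

lemma measurable_ht (x : Fin 2 → 𝓞 K) : Measurable (ht x : GG K → ℝ) := by
  unfold ht
  exact (continuous_nn x).measurable.const_div _

lemma measurable_WW : Measurable (WW : GG K → ℝ≥0∞) := by
  unfold WW
  exact Measurable.iSup fun x => (measurable_ht x.1).ennreal_ofReal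

lemma measurableSet_DD (Y : ℝ) : MeasurableSet (DD Y : Set (GG K)) := by
  have : (DD Y : Set (GG K)) = ⋃ x : {x : Fin 2 → 𝓞 K // x ≠ 0}, {g | Y < ht x.1 g} := by
    ext g
    rw [mem_DD, Set.mem_iUnion]
    constructor
    · rintro ⟨x, hx, h⟩
      exact ⟨⟨x, hx⟩, h⟩
    · rintro ⟨⟨x, hx⟩, h⟩
      exact ⟨x, hx, h⟩
  rw [this]
  exact MeasurableSet.iUnion fun x => measurableSet_lt measurable_const (measurable_ht x.1)

/-- the integral of the height over a ball -/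
theorem int_ht (hxi : S_xi) (v : InfinitePlace K) (ρ₀ : ℝ) (hρ₀ : √2 < ρ₀) :
    ∃ C : ℝ, 0 < C ∧ ∀ ρ : ℝ, 2 ≤ ρ → ∀ x : Fin 2 → 𝓞 K, x ≠ 0 → ∀ g : GG K,
      ∫⁻ h in ball (rad v ρ ρ₀), ENNReal.ofReal (ht x (g * h)) ∂(mu K) ≤
        ENNReal.ofReal (C * ρ ^ v.mult * (1 + Real.log ρ)) * ENNReal.ofReal (ht x g) := by
  classical
  obtain ⟨C, hC, hint⟩ := hxi K v ρ₀ hρ₀
  have hρ0 : 0 < ρ₀ := lt_trans (by positivity) hρ₀
  set E : ℝ := ∏ w ∈ Finset.univ.erase v, ρ₀ ^ w.mult with hE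
  have hE0 : 0 < E := Finset.prod_pos fun w _ => by positivity
  refine ⟨C * E, by positivity, fun ρ hρ x hx g => ?_⟩
  have hlog : 0 ≤ 1 + Real.log ρ := by
    have := Real.log_nonneg (by linarith : (1 : ℝ) ≤ ρ)
    linarith
  have hρp : 0 < ρ := by linarith
  set z := Matrix.vecMul (emb K x) g.1 with hz
  have hzp : ∀ w, 0 < rn w z := fun w => rn_vecMul_pos w hx g
  set F : ℝ := ∏ w ∈ Finset.univ.erase v, (rn w z ^ w.mult)⁻¹ with hF
  have hF0 : 0 < F := Finset.prod_pos fun w _ => by have := hzp w; positivity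
  have hnx : 0 < na x := na_pos hx
  have hpt : ∀ h ∈ ball (rad v ρ ρ₀), ENNReal.ofReal (ht x (g * h)) ≤
      ENNReal.ofReal (na x * E * F) * ENNReal.ofReal ((rn v (Matrix.vecMul z h.1) ^ v.mult)⁻¹) := by
    intro h hh
    rw [← ENNReal.ofReal_mul (by positivity)]
    apply ENNReal.ofReal_le_ofReal
    unfold ht nn
    rw [div_eq_mul_inv, ← Finset.prod_inv_distrib, ← Finset.mul_prod_erase _ _ (Finset.mem_univ v)]
    have h1 : ∏ w ∈ Finset.univ.erase v, (rn w (Matrix.vecMul (emb K x) (g * h).1) ^ w.mult)⁻¹ ≤ E * F := by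
      rw [hE, hF, ← Finset.prod_mul_distrib]
      refine Finset.prod_le_prod (fun w _ => by have := rn_nonneg w (Matrix.vecMul (emb K x) (g * h).1); positivity)
        fun w hw => ?_
      have hwv : w ≠ v := Finset.ne_of_mem_erase hw
      rw [vecMul_mul', ← hz]
      have h2 := rn_le_vecMul w z h
      have h3 : rn w (Matrix.vecMul z h.1) * mn w h ≤ rn w (Matrix.vecMul z h.1) * ρ₀ := by
        have := hh w
        rw [rad_ne hwv] at this
        exact mul_le_mul_of_nonneg_left this (rn_nonneg _ _)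
      have h4 : 0 < rn w (Matrix.vecMul z h.1) := by
        rw [hz, ← vecMul_mul']
        exact rn_vecMul_pos w hx _
      rw [← div_eq_mul_inv, le_div_iff₀ (pow_pos (hzp w) _), inv_mul_le_iff₀ (pow_pos h4 _), ← mul_pow]
      exact pow_le_pow_left₀ (hzp w).le (h2.trans h3) _
    have h5 : (rn v (Matrix.vecMul (emb K x) (g * h).1) ^ v.mult)⁻¹ =
        (rn v (Matrix.vecMul z h.1) ^ v.mult)⁻¹ := by rw [vecMul_mul']
    rw [h5]
    have h6 : 0 ≤ (rn v (Matrix.vecMul z h.1) ^ v.mult)⁻¹ := by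
      have := rn_nonneg v (Matrix.vecMul z h.1); positivity
    calc na x * ((rn v (Matrix.vecMul z h.1) ^ v.mult)⁻¹ *
          ∏ w ∈ Finset.univ.erase v, (rn w (Matrix.vecMul (emb K x) (g * h).1) ^ w.mult)⁻¹)
        ≤ na x * ((rn v (Matrix.vecMul z h.1) ^ v.mult)⁻¹ * (E * F)) := by gcongr
      _ = _ := by ring
  have hcont : Continuous fun h : GG K => rn v (Matrix.vecMul z h.1) :=
    (continuous_rn v).comp (continuous_vecMul.comp (Continuous.prodMk_right z))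
  have hmm : Measurable fun g : GG K => ENNReal.ofReal ((rn v (Matrix.vecMul z g.1) ^ v.mult)⁻¹) :=
    ((hcont.measurable.pow_const _).inv).ennreal_ofReal
  calc ∫⁻ h in ball (rad v ρ ρ₀), ENNReal.ofReal (ht x (g * h)) ∂(mu K)
      ≤ ∫⁻ h in ball (rad v ρ ρ₀), ENNReal.ofReal (na x * E * F) *
          ENNReal.ofReal ((rn v (Matrix.vecMul z h.1) ^ v.mult)⁻¹) ∂(mu K) :=
        setLIntegral_mono' (isCompact_ball _).measurableSet hpt
    _ = ENNReal.ofReal (na x * E * F) * ∫⁻ h in ball (rad v ρ ρ₀),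
          ENNReal.ofReal ((rn v (Matrix.vecMul z h.1) ^ v.mult)⁻¹) ∂(mu K) :=
        lintegral_const_mul _ hmm
    _ ≤ ENNReal.ofReal (na x * E * F) *
          ENNReal.ofReal (C * ρ ^ v.mult * (1 + Real.log ρ) * (rn v z ^ v.mult)⁻¹) := by
        gcongr
        exact hint ρ hρ z (hzp v).ne'
    _ = ENNReal.ofReal (C * E * ρ ^ v.mult * (1 + Real.log ρ)) * ENNReal.ofReal (ht x g) := by
        rw [← ENNReal.ofReal_mul (by positivity), ← ENNReal.ofReal_mul (by positivity)]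
        congr 1
        unfold ht nn
        rw [div_eq_mul_inv, ← Finset.prod_inv_distrib, ← Finset.mul_prod_erase _ _ (Finset.mem_univ v)]
        rw [← hz, ← hF]
        ring

lemma rad_nonneg {v : InfinitePlace K} {ρ ρ₀ : ℝ} (h1 : 0 ≤ ρ) (h2 : 0 ≤ ρ₀) (w : InfinitePlace K) :
    0 ≤ rad v ρ ρ₀ w := by
  unfold rad; split_ifs <;> assumption

/-- the Schur test in the cusps -/
theorem schur_cusp (hxi : S_xi) [(mu K).IsMulRightInvariant] (v : InfinitePlace K) (ρ₀ : ℝ)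
    (hρ₀ : √2 < ρ₀) :
    ∃ C : ℝ, 0 < C ∧ ∀ ρ : ℝ, 2 ≤ ρ → ∀ Y : ℝ, 1 ≤ Y → bd (rad v ρ ρ₀) ≤ Y →
      ∀ (Γ : Subgroup SL(2, 𝓞 K)) (𝓕 : Set (GG K)), IsFundamentalDomain (Γ.map (io K)) 𝓕 (mu K) →
      ∀ F : GG K → ℝ≥0∞, Measurable F → (∀ γ ∈ Γ.map (io K), ∀ g, F (γ * g) = F g) →
      ∫⁻ g in 𝓕 ∩ DD Y, Ap (mu K) (ball (rad v ρ ρ₀)) F g ^ 2 ∂(mu K) ≤
        ENNReal.ofReal (C * ρ ^ v.mult * (1 + Real.log ρ)) ^ 2 * ∫⁻ g in 𝓕, F g ^ 2 ∂(mu K) := by
  obtain ⟨C, hC, hint⟩ := int_ht hxi v ρ₀ hρ₀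
  refine ⟨C, hC, fun ρ hρ Y hY1 hY Γ 𝓕 h𝓕 F hFm hFi => ?_⟩
  have hρ0 : 0 < ρ₀ := lt_trans (by positivity) hρ₀
  set B := ball (rad v ρ ρ₀) with hB
  have hcount : Countable (Γ.map (io K)) := by
    have : Function.Surjective (fun γ : Γ => (⟨io K γ, Subgroup.mem_map_of_mem _ γ.2⟩ : Γ.map (io K))) := by
      rintro ⟨_, γ, hγ, rfl⟩
      exact ⟨⟨γ, hγ⟩, rfl⟩
    exact this.countable
  have hbd0 : 0 ≤ bd (rad v ρ ρ₀) :=
    Finset.prod_nonneg fun w _ => pow_nonneg (rad_nonneg (by linarith) hρ0.le w) _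
  -- from `g ∈ D` to `g h`
  have up : ∀ (x : Fin 2 → 𝓞 K), x ≠ 0 → ∀ (g h : GG K), h ∈ B → Y < ht x g → 1 < ht x (g * h) := by
    intro x hx g h hh hgt
    unfold ht at *
    rw [lt_div_iff₀ (nn_pos hx _)] at *
    have h1 := nn_mul_le (x := x) g hh
    have h2 := nn_pos hx g
    nlinarith
  have down : ∀ (x : Fin 2 → 𝓞 K), x ≠ 0 → ∀ (g h : GG K), h ∈ B → Y < ht x (g * h) → 1 < ht x g := by
    intro x hx g h hh hgt
    have := up x hx (g * h) h⁻¹ ((inv_mem_ball _ _).2 hh) hgt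
    rwa [mul_inv_cancel_right] at this
  refine schur h𝓕 (isCompact_ball _).measurableSet (inv_mem_ball _) measurable_WW ?_
    (measurableSet_DD Y) ?_ ?_ ?_ ?_ F hFm hFi
  · rintro _ ⟨γ, -, rfl⟩ g
    exact WW_io γ g
  · rintro _ ⟨γ, -, rfl⟩ g
    exact DD_io Y γ g
  · intro g hg h hh
    obtain ⟨x, hx, hgt⟩ := mem_DD.1 hg
    rw [WW_eq hx (up x hx g h hh hgt)]
    exact ⟨by simpa using ht_pos hx _, ENNReal.ofReal_ne_top⟩
  · intro g hg
    obtain ⟨x, hx, hgt⟩ := mem_DD.1 hg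
    rw [WW_eq hx (lt_of_le_of_lt hY1 hgt)]
    refine le_trans (le_of_eq ?_) (hint ρ hρ x hx g)
    exact setLIntegral_congr_fun (isCompact_ball _).measurableSet fun h hh => by
      rw [WW_eq hx (up x hx g h hh hgt)]
  · intro g
    by_cases hne : ∃ h₀ ∈ B, g * h₀ ∈ DD Y
    · obtain ⟨h₀, hh₀, hg₀⟩ := hne
      obtain ⟨x, hx, hgt⟩ := mem_DD.1 hg₀
      have hxg := down x hx g h₀ hh₀ hgt
      rw [WW_eq hx hxg]
      refine le_trans ?_ (hint ρ hρ x hx g)
      refine setLIntegral_mono' (isCompact_ball _).measurableSet fun h hh => ?_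
      by_cases hm : g * h ∈ DD Y
      · rw [Set.indicator_of_mem hm]
        obtain ⟨y, hy, hgy⟩ := mem_DD.1 hm
        have hyg := down y hy g h hh hgy
        have hxy := ht_eq_of_one_lt hx hy hxg hyg (g * h)
        rw [WW_eq hx (by rw [hxy]; linarith)]
      · rw [Set.indicator_of_notMem hm]
        exact bot_le
    · push Not at hne
      have : ∫⁻ h in B, (DD Y).indicator WW (g * h) ∂(mu K) = 0 := by
        rw [← lintegral_zero (μ := (mu K).restrict B)]
        exact setLIntegral_congr_fun (isCompact_ball _).measurableSet fun h hh => by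
          rw [Set.indicator_of_notMem (hne h hh)]
      rw [this]
      exact bot_le

end Pool.Agent.T2h77
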