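import Pool.Agent.T2h77.Geo3

/-!
# Sums over lattice points
-/

set_option autoImplicit false
set_option linter.unusedSectionVars false
set_option linter.deprecated false

open NumberField NumberField.mixedEmbedding MeasureTheory Matrix
open scoped MatrixGroups ENNReal

noncomputable section

namespace Pool.Agent.T2h77

open An

variable {K : Type} [Field K] [NumberField K]

lemma exists_rho {c C ε : ℝ} (hc : 0 < c) (hε : 0 < ε) :
    ∃ ρ : ℝ, 2 ≤ ρ ∧ C * (1 + Real.log ρ) ≤ c * ρ ^ ε := by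
  have h1 : Filter.Tendsto (fun x : ℝ => x ^ (ε / 2)) Filter.atTop Filter.atTop :=
    tendsto_rpow_atTop (by positivity)
  have h2 := h1.eventually (Filter.eventually_ge_atTop (|C| * (1 + 2 / ε) / c))
  obtain ⟨ρ, hρ1, hρ2⟩ := (h2.and (Filter.eventually_ge_atTop (2 : ℝ))).exists
  refine ⟨ρ, hρ2, ?_⟩
  have hρ0 : 0 < ρ := by linarith
  have h3 : Real.log ρ ≤ ρ ^ (ε / 2) / (ε / 2) := Real.log_le_rpow_div hρ0.le (by positivity)
  have h4 : 1 ≤ ρ ^ (ε / 2) := Real.one_le_rpow (by linarith) (by positivity)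
  have hlog := Real.log_nonneg (by linarith : (1 : ℝ) ≤ ρ)
  have h5 : 1 + Real.log ρ ≤ (1 + 2 / ε) * ρ ^ (ε / 2) := by
    have : ρ ^ (ε / 2) / (ε / 2) = 2 / ε * ρ ^ (ε / 2) := by field_simp
    rw [this] at h3
    linarith
  have h6 : ρ ^ ε = ρ ^ (ε / 2) * ρ ^ (ε / 2) := by
    rw [← Real.rpow_add hρ0]; ring_nf
  calc C * (1 + Real.log ρ) ≤ |C| * (1 + Real.log ρ) := by
        gcongr; exact le_abs_self C
    _ ≤ |C| * ((1 + 2 / ε) * ρ ^ (ε / 2)) := by gcongr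
    _ = (|C| * (1 + 2 / ε) / c) * (c * ρ ^ (ε / 2)) := by field_simp
    _ ≤ ρ ^ (ε / 2) * (c * ρ ^ (ε / 2)) := by gcongr
    _ = c * ρ ^ ε := by rw [h6]; ring

lemma fix_le_index (Γ : Subgroup SL(2, 𝓞 K)) [Γ.FiniteIndex] (δ : SL(2, 𝓞 K)) :
    (fix Γ δ : ℝ) ≤ Γ.index := by
  unfold fix
  rw [Subgroup.index]
  exact_mod_cast Nat.card_le_card_of_injective _ Subtype.val_injective

/-- dyadic decomposition -/
theorem sum_fix_le (hc : S_count) (v : InfinitePlace K) (C₀ ε : ℝ) (hε : 0 < ε) :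
    ∃ C : ℝ, 0 < C ∧ ∀ Γ : Subgroup SL(2, 𝓞 K), IsCongr Γ → Γ.FiniteIndex → ∀ X : ℝ, 1 ≤ X →
      ∀ s : Finset SL(2, 𝓞 K),
      (∀ δ ∈ s, mn v (io K δ) ^ v.mult ≤ X ∧ ∀ w, w ≠ v → mn w (io K δ) ≤ C₀) →
      ∑ δ ∈ s, (fix Γ δ : ℝ) * (mn v (io K δ) ^ v.mult)⁻¹ ≤ C * (Γ.index * X) ^ (2 * ε) * (Γ.index + X) := by
  classical
  obtain ⟨C, hC, hcount⟩ := hc K v C₀ ε hε
  set A : ℝ := 1 + 2 / ε with hA
  have hA0 : 0 < A := by positivity
  refine ⟨2 + A * (C * 2 ^ ε * 4), by positivity, fun Γ hΓ hfi X hX s hs => ?_⟩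
  set n : ℝ := (Γ.index : ℝ) with hn
  have hn1 : 1 ≤ n := by
    rw [hn]
    exact_mod_cast Nat.one_le_iff_ne_zero.2 hfi.index_ne_zero
  have hn0 : 0 < n := by linarith
  have hX0 : 0 < X := by linarith
  set T : SL(2, 𝓞 K) → ℝ := fun δ => mn v (io K δ) ^ v.mult with hT
  have hT1 : ∀ δ, 1 ≤ T δ := fun δ => one_le_pow₀ (one_le_mn v _)
  have hnX : 1 ≤ n * X := by nlinarith
  have hP1 : 1 ≤ (n * X) ^ (2 * ε) := Real.one_le_rpow hnX (by positivity)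
  -- the part `δ = ± 1`
  set s₁ := s.filter (fun δ => δ = 1 ∨ δ = -1) with hs₁
  set s₂ := s.filter (fun δ => ¬ (δ = 1 ∨ δ = -1)) with hs₂
  have hsplit : ∑ δ ∈ s, (fix Γ δ : ℝ) * (T δ)⁻¹ =
      ∑ δ ∈ s₁, (fix Γ δ : ℝ) * (T δ)⁻¹ + ∑ δ ∈ s₂, (fix Γ δ : ℝ) * (T δ)⁻¹ :=
    (Finset.sum_filter_add_sum_filter_not _ _ _).symm
  have hsum1 : ∑ δ ∈ s₁, (fix Γ δ : ℝ) * (T δ)⁻¹ ≤ 2 * n := by
    have h1 : ∑ δ ∈ s₁, (fix Γ δ : ℝ) * (T δ)⁻¹ ≤ ∑ δ ∈ s₁, n := by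
      refine Finset.sum_le_sum fun δ _ => ?_
      have h2 := fix_le_index Γ δ
      have h3 : (T δ)⁻¹ ≤ 1 := inv_le_one_of_one_le₀ (hT1 δ)
      have h4 : (0 : ℝ) ≤ fix Γ δ := Nat.cast_nonneg _
      nlinarith
    rw [Finset.sum_const, nsmul_eq_mul] at h1
    have h5 : s₁.card ≤ 2 := by
      have : s₁ ⊆ {1, -1} := by
        intro δ hδ
        rw [hs₁, Finset.mem_filter] at hδ
        simpa using hδ.2
      exact (Finset.card_le_card this).trans Finset.card_le_two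
    have h6 : (s₁.card : ℝ) ≤ 2 := by exact_mod_cast h5
    nlinarith
  -- the dyadic pieces
  set lg : SL(2, 𝓞 K) → ℕ := fun δ => Nat.log 2 ⌊T δ⌋₊ with hlg
  set J : ℕ := Nat.log 2 ⌊X⌋₊ with hJ
  have hfl : ∀ t : ℝ, 1 ≤ t → (2 : ℝ) ^ (Nat.log 2 ⌊t⌋₊) ≤ t ∧ t ≤ 2 ^ (Nat.log 2 ⌊t⌋₊ + 1) := by
    intro t ht
    have h0 : ⌊t⌋₊ ≠ 0 := by
      rw [← Nat.pos_iff_ne_zero, Nat.floor_pos]; exact ht
    constructor
    · have h1 : 2 ^ (Nat.log 2 ⌊t⌋₊) ≤ ⌊t⌋₊ := Nat.pow_log_le_self 2 h0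
      have h2 : ((2 ^ (Nat.log 2 ⌊t⌋₊) : ℕ) : ℝ) ≤ t :=
        (Nat.cast_le.2 h1).trans (Nat.floor_le (by linarith))
      exact_mod_cast h2
    · have h1 : ⌊t⌋₊ < 2 ^ (Nat.log 2 ⌊t⌋₊ + 1) := Nat.lt_pow_succ_log_self (by norm_num) _
      have h2 : t < ((2 ^ (Nat.log 2 ⌊t⌋₊ + 1) : ℕ) : ℝ) := (Nat.floor_lt (by linarith)).1 h1
      exact_mod_cast h2.le
  have hmaps : ∀ δ ∈ s₂, lg δ ∈ Finset.range (J + 1) := by
    intro δ hδ
    rw [hs₂, Finset.mem_filter] at hδ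
    rw [Finset.mem_range, Nat.lt_succ_iff]
    exact Nat.log_mono_right (Nat.floor_le_floor (hs δ hδ.1).1)
  have hpiece : ∀ j ∈ Finset.range (J + 1), ∑ δ ∈ s₂ with lg δ = j, (fix Γ δ : ℝ) * (T δ)⁻¹ ≤
      C * 2 ^ ε * 4 * (n * X) ^ ε * (n + X) := by
    intro j hj
    have hjJ : j ≤ J := Nat.lt_succ_iff.1 (Finset.mem_range.1 hj)
    have h2J : (2 : ℝ) ^ j ≤ X := by
      calc (2 : ℝ) ^ j ≤ 2 ^ J := pow_le_pow_right₀ (by norm_num) hjJ
        _ ≤ X := (hfl X hX).1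
    have h2j : (0 : ℝ) < 2 ^ j := by positivity
    have h1 : ∑ δ ∈ s₂ with lg δ = j, (fix Γ δ : ℝ) * (T δ)⁻¹ ≤
        (2 ^ j)⁻¹ * ∑ δ ∈ s₂ with lg δ = j, (fix Γ δ : ℝ) := by
      rw [Finset.mul_sum]
      refine Finset.sum_le_sum fun δ hδ => ?_
      rw [Finset.mem_filter] at hδ
      rw [mul_comm]
      have h3 := (hfl (T δ) (hT1 δ)).1
      change (2 : ℝ) ^ (lg δ) ≤ T δ at h3
      rw [hδ.2] at h3
      gcongr
    have h2 := hcount Γ hΓ (2 ^ (j + 1)) (one_le_pow₀ (by norm_num)) (s₂.filter fun δ => lg δ = j)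
      (fun δ hδ => by
        rw [Finset.mem_filter, hs₂, Finset.mem_filter, not_or] at hδ
        refine ⟨hδ.1.2.1, hδ.1.2.2, ?_, (hs δ hδ.1.1).2⟩
        have h3 := (hfl (T δ) (hT1 δ)).2
        change T δ ≤ 2 ^ (lg δ + 1) at h3
        rwa [hδ.2] at h3)
    calc ∑ δ ∈ s₂ with lg δ = j, (fix Γ δ : ℝ) * (T δ)⁻¹
        ≤ (2 ^ j)⁻¹ * (C * (n * 2 ^ (j + 1)) ^ ε * (n * 2 ^ (j + 1) + (2 ^ (j + 1)) ^ 2)) :=
          h1.trans (by gcongr)
      _ = C * (n * 2 ^ (j + 1)) ^ ε * (2 * n + 4 * 2 ^ j) := by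
          field_simp
          ring
      _ ≤ C * (2 * (n * X)) ^ ε * (4 * n + 4 * X) := by
          have h5 : n * 2 ^ (j + 1) ≤ 2 * (n * X) := by
            rw [pow_succ]; nlinarith
          have h6 : (n * 2 ^ (j + 1)) ^ ε ≤ (2 * (n * X)) ^ ε :=
            Real.rpow_le_rpow (by positivity) h5 hε.le
          have h7 : 2 * n + 4 * 2 ^ j ≤ 4 * n + 4 * X := by linarith
          gcongr
      _ = _ := by
          rw [Real.mul_rpow (by norm_num) (by positivity)]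
          ring
  have hJ1 : (J : ℝ) + 1 ≤ A * (n * X) ^ ε := by
    have h1 : (2 : ℝ) ^ J ≤ n * X := ((hfl X hX).1).trans (by nlinarith)
    have h2 : (J : ℝ) * Real.log 2 ≤ Real.log (n * X) := by
      rw [← Real.log_pow]
      exact Real.log_le_log (by positivity) h1
    have h3 : (1 / 2 : ℝ) ≤ Real.log 2 := by
      have := Real.log_two_gt_d9; linarith
    have h4 : Real.log (n * X) ≤ (n * X) ^ ε / ε := Real.log_le_rpow_div (by positivity) hε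
    have h5 : 1 ≤ (n * X) ^ ε := Real.one_le_rpow hnX hε.le
    have h6 : (J : ℝ) ≤ 2 * ((n * X) ^ ε / ε) := by
      have : (0 : ℝ) ≤ J := Nat.cast_nonneg _
      nlinarith
    rw [hA, add_mul, one_mul]
    have : 2 / ε * (n * X) ^ ε = 2 * ((n * X) ^ ε / ε) := by ring
    rw [this]
    linarith
  have hsum2 : ∑ δ ∈ s₂, (fix Γ δ : ℝ) * (T δ)⁻¹ ≤
      A * (C * 2 ^ ε * 4) * (n * X) ^ (2 * ε) * (n + X) := by
    rw [← Finset.sum_fiberwise_of_maps_to hmaps]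
    calc _ ≤ ∑ j ∈ Finset.range (J + 1), C * 2 ^ ε * 4 * (n * X) ^ ε * (n + X) :=
          Finset.sum_le_sum hpiece
      _ = ((J : ℝ) + 1) * (C * 2 ^ ε * 4 * (n * X) ^ ε * (n + X)) := by
          rw [Finset.sum_const, Finset.card_range, nsmul_eq_mul]; push_cast; ring
      _ ≤ (A * (n * X) ^ ε) * (C * 2 ^ ε * 4 * (n * X) ^ ε * (n + X)) := by gcongr
      _ = _ := by
          have : (n * X) ^ (2 * ε) = (n * X) ^ ε * (n * X) ^ ε := by
            rw [← Real.rpow_add (by positivity)]; ring_nf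
          rw [this]; ring
  rw [hsplit]
  calc _ ≤ 2 * n + A * (C * 2 ^ ε * 4) * (n * X) ^ (2 * ε) * (n + X) := add_le_add hsum1 hsum2
    _ ≤ 2 * (n * X) ^ (2 * ε) * (n + X) + A * (C * 2 ^ ε * 4) * (n * X) ^ (2 * ε) * (n + X) := by
        have : 2 * n ≤ 2 * (n * X) ^ (2 * ε) * (n + X) := by nlinarith
        linarith
    _ = _ := by ring

lemma index_ne_zero_of_congr {Γ : Subgroup SL(2, 𝓞 K)} (h : IsCongr Γ) : Γ.FiniteIndex := by
  obtain ⟨𝔫, h𝔫, hle⟩ := h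
  have : Finite (𝓞 K ⧸ 𝔫) := Ideal.finiteQuotientOfFreeOfNeBot 𝔫 h𝔫
  have : Finite SL(2, 𝓞 K ⧸ 𝔫) := by
    have hinj : Function.Injective (fun a : SL(2, 𝓞 K ⧸ 𝔫) => fun i j => a i j) := by
      intro a b hab
      ext i j
      exact congrFun (congrFun hab i) j
    exact Finite.of_injective _ hinj
  have h1 : (Matrix.SpecialLinearGroup.map (n := Fin 2) (Ideal.Quotient.mk 𝔫)).ker.FiniteIndex :=
    inferInstance
  exact Subgroup.finiteIndex_of_le hle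

/-- compact sets are bounded -/
lemma exists_bound {Ω : Set (GG K)} (hΩ : IsCompact Ω) : ∃ R : ℝ, 1 ≤ R ∧ ∀ g ∈ Ω, ∀ w, mn w g ≤ R := by
  have hcont : Continuous fun g : GG K => ∑ w, mn w g :=
    continuous_finsetSum _ fun w _ => continuous_mn w
  obtain ⟨C, hC⟩ := hΩ.exists_bound_of_continuousOn hcont.continuousOn
  refine ⟨max 1 C, le_max_left _ _, fun g hg w => ?_⟩
  have h1 := hC g hg
  have h2 : mn w g ≤ ∑ w, mn w g :=
    Finset.single_le_sum (f := fun w => mn w g) (fun w _ => mn_nonneg w g) (Finset.mem_univ w)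
  rw [Real.norm_eq_abs] at h1
  exact h2.trans ((le_abs_self _).trans (h1.trans (le_max_right _ _)))

lemma mn_conj_le (w : InfinitePlace K) (g δ : GG K) :
    mn w δ ≤ mn w g ^ 2 * mn w (g⁻¹ * δ * g) := by
  have e : δ = g * (g⁻¹ * δ * g) * g⁻¹ := by group
  have h1 := mn_mul_le w (g * (g⁻¹ * δ * g)) g⁻¹
  have h2 := mn_mul_le w g (g⁻¹ * δ * g)
  rw [← e, mn_inv] at h1
  calc mn w δ ≤ mn w (g * (g⁻¹ * δ * g)) * mn w g := h1
    _ ≤ (mn w g * mn w (g⁻¹ * δ * g)) * mn w g := by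
        gcongr; exact mn_nonneg _ _
    _ = _ := by ring

/-- the trace of the kernel at a point of a compact set -/
theorem trace_le (hc : S_count) (hxi : S_xi) (v : InfinitePlace K) (ρ₀ : ℝ) (hρ₀ : √2 < ρ₀)
    {R : ℝ} (hR : 1 ≤ R) (ε : ℝ) (hε : 0 < ε) :
    ∃ C : ℝ, 0 < C ∧ ∀ Γ : Subgroup SL(2, 𝓞 K), IsCongr Γ → ∀ ρ : ℝ, 2 ≤ ρ →
      ∀ g : GG K, (∀ w, mn w g ≤ R) →
      ∑' δ : SL(2, 𝓞 K), (Nat.card {x : SL(2, 𝓞 K) ⧸ Γ // δ • x = x} : ℝ≥0∞) *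
        kk (mu K) (ball (rad v ρ ρ₀)) (g⁻¹ * io K δ * g) ≤
      ENNReal.ofReal (C * ρ ^ (2 * v.mult) * (1 + Real.log ρ) * (Γ.index * ρ ^ (2 * v.mult)) ^ (2 * ε) *
        (Γ.index + ρ ^ (2 * v.mult))) := by
  classical
  obtain ⟨C₁, hC₁, hk⟩ := kk_le (K := K) hxi v ρ₀ hρ₀
  obtain ⟨C₂, hC₂, hs⟩ := sum_fix_le (K := K) hc v (R ^ 2 * ρ₀ ^ 2) ε hε
  set Q : ℝ := R ^ (2 * v.mult) with hQ
  have hQ1 : 1 ≤ Q := one_le_pow₀ hR
  refine ⟨C₁ * Q * C₂ * Q ^ (2 * ε) * Q, by positivity, fun Γ hΓ ρ hρ g hg => ?_⟩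
  have hfi := index_ne_zero_of_congr hΓ
  set n : ℝ := (Γ.index : ℝ) with hn
  have hn1 : 1 ≤ n := by
    rw [hn]
    exact_mod_cast Nat.one_le_iff_ne_zero.2 hfi.index_ne_zero
  have hlog : 0 ≤ 1 + Real.log ρ := by
    have := Real.log_nonneg (by linarith : (1 : ℝ) ≤ ρ)
    linarith
  have hρ0 : 0 < ρ := by linarith
  have hρ1 : (1 : ℝ) ≤ ρ ^ (2 * v.mult) := one_le_pow₀ (by linarith)
  set X : ℝ := Q * ρ ^ (2 * v.mult) with hX
  have hX1 : 1 ≤ X := by nlinarith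
  set A : ℝ := C₁ * ρ ^ (2 * v.mult) * (1 + Real.log ρ) with hA
  have hA0 : 0 ≤ A := by positivity
  set P : SL(2, 𝓞 K) → Prop := fun δ => mn v (io K δ) ^ v.mult ≤ X ∧
    ∀ w, w ≠ v → mn w (io K δ) ≤ R ^ 2 * ρ₀ ^ 2 with hP
  -- pointwise bound
  have hpt : ∀ δ : SL(2, 𝓞 K), (Nat.card {x : SL(2, 𝓞 K) ⧸ Γ // δ • x = x} : ℝ≥0∞) *
        kk (mu K) (ball (rad v ρ ρ₀)) (g⁻¹ * io K δ * g) ≤
      ENNReal.ofReal (A * Q) * (if P δ then ENNReal.ofReal ((fix Γ δ : ℝ) * (mn v (io K δ) ^ v.mult)⁻¹)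
        else 0) := by
    intro δ
    set h := g⁻¹ * io K δ * g with hh
    by_cases hk0 : kk (mu K) (ball (rad v ρ ρ₀)) h = 0
    · rw [hk0, mul_zero]; exact bot_le
    obtain ⟨hs1, hs2⟩ := kk_supp v hk0
    have hcj : ∀ w, mn w (io K δ) ≤ R ^ 2 * mn w h := by
      intro w
      refine (mn_conj_le w g (io K δ)).trans ?_
      have := hg w
      have h0 := mn_nonneg w g
      have h1 := mn_nonneg w h
      gcongr
    have hPδ : P δ := by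
      refine ⟨?_, fun w hw => (hcj w).trans (by have := hs2 w hw; gcongr)⟩
      calc mn v (io K δ) ^ v.mult ≤ (R ^ 2 * ρ ^ 2) ^ v.mult := by
            have h1 := mn_nonneg v (io K δ)
            have h2 : mn v (io K δ) ≤ R ^ 2 * ρ ^ 2 := (hcj v).trans (by gcongr)
            gcongr
        _ = X := by rw [hX, hQ, mul_pow, ← pow_mul, ← pow_mul]
    rw [if_pos hPδ, ← ENNReal.ofReal_mul (by positivity)]
    have h3 : (Nat.card {x : SL(2, 𝓞 K) ⧸ Γ // δ • x = x} : ℝ≥0∞) = ENNReal.ofReal (fix Γ δ : ℝ) := by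
      rw [ENNReal.ofReal_natCast]; rfl
    rw [h3]
    calc ENNReal.ofReal (fix Γ δ : ℝ) * kk (mu K) (ball (rad v ρ ρ₀)) h
        ≤ ENNReal.ofReal (fix Γ δ : ℝ) * ENNReal.ofReal (A * (mn v h ^ v.mult)⁻¹) := by
          gcongr
          exact hk ρ hρ h
      _ = ENNReal.ofReal ((fix Γ δ : ℝ) * (A * (mn v h ^ v.mult)⁻¹)) :=
          (ENNReal.ofReal_mul (Nat.cast_nonneg _)).symm
      _ ≤ _ := by
          apply ENNReal.ofReal_le_ofReal
          have h4 : (mn v h ^ v.mult)⁻¹ ≤ Q * (mn v (io K δ) ^ v.mult)⁻¹ := by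
            rw [← div_eq_mul_inv, le_div_iff₀ (pow_pos (mn_pos v _) _),
              inv_mul_le_iff₀ (pow_pos (mn_pos v h) _)]
            calc mn v (io K δ) ^ v.mult ≤ (R ^ 2 * mn v h) ^ v.mult :=
                  pow_le_pow_left₀ (mn_nonneg _ _) (hcj v) _
              _ = _ := by rw [hQ, mul_pow, ← pow_mul]; ring
          calc (fix Γ δ : ℝ) * (A * (mn v h ^ v.mult)⁻¹)
              ≤ (fix Γ δ : ℝ) * (A * (Q * (mn v (io K δ) ^ v.mult)⁻¹)) := by gcongr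
            _ = _ := by ring
  refine (ENNReal.tsum_le_tsum hpt).trans ?_
  rw [ENNReal.tsum_mul_left]
  have hsum : ∑' δ : SL(2, 𝓞 K), (if P δ then
      ENNReal.ofReal ((fix Γ δ : ℝ) * (mn v (io K δ) ^ v.mult)⁻¹) else 0) ≤
      ENNReal.ofReal (C₂ * (n * X) ^ (2 * ε) * (n + X)) := by
    rw [ENNReal.tsum_eq_iSup_sum]
    refine iSup_le fun s => ?_
    rw [← Finset.sum_filter, ← ENNReal.ofReal_sum_of_nonneg fun δ _ => ?_]
    · apply ENNReal.ofReal_le_ofReal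
      exact hs Γ hΓ hfi X hX1 _ fun δ hδ => (Finset.mem_filter.1 hδ).2
    · have := mn_pos v (io K δ)
      positivity
  calc _ ≤ ENNReal.ofReal (A * Q) * ENNReal.ofReal (C₂ * (n * X) ^ (2 * ε) * (n + X)) := by gcongr
    _ = ENNReal.ofReal (A * Q * (C₂ * (n * X) ^ (2 * ε) * (n + X))) :=
        (ENNReal.ofReal_mul (by positivity)).symm
    _ ≤ _ := by
        apply ENNReal.ofReal_le_ofReal
        set q : ℝ := ρ ^ (2 * v.mult) with hq
        have h1 : (n * X) ^ (2 * ε) = Q ^ (2 * ε) * (n * q) ^ (2 * ε) := by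
          rw [← Real.mul_rpow (by positivity) (by positivity), hX]
          congr 1; ring
        have h2 : n + X ≤ Q * (n + q) := by
          rw [hX]; nlinarith
        calc A * Q * (C₂ * (n * X) ^ (2 * ε) * (n + X))
            ≤ A * Q * (C₂ * (Q ^ (2 * ε) * (n * q) ^ (2 * ε)) * (Q * (n + q))) := by
              rw [h1]; gcongr
          _ = _ := by rw [hA]; ring

end Pool.Agent.T2h77
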