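import Mathlib

/-!
# The local count: abstract form

Cosets `SL₂(O) g` with bounded entries and `|g z|` small, over a field with a discrete absolute value.
-/

set_option autoImplicit false

open Matrix
open scoped MatrixGroups

namespace Pool.Agent.T2h77.LocA

variable {K : Type} [Field K]

/-- all entries are integral -/
def Itg (v : AbsoluteValue K ℝ) (A : SL(2, K)) : Prop := ∀ i j, v (A i j) ≤ 1

lemma Itg.mul {v : AbsoluteValue K ℝ} (hv : IsNonarchimedean v) {A B : SL(2, K)} (hA : Itg v A)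
    (hB : Itg v B) : Itg v (A * B) := by
  intro i j
  rw [Matrix.SpecialLinearGroup.coe_mul, Matrix.mul_apply, Fin.sum_univ_two]
  refine (hv _ _).trans (max_le ?_ ?_)
  · rw [map_mul]; exact mul_le_one₀ (hA i 0) (v.nonneg _) (hB 0 j)
  · rw [map_mul]; exact mul_le_one₀ (hA i 1) (v.nonneg _) (hB 1 j)

lemma Itg.inv {v : AbsoluteValue K ℝ} {A : SL(2, K)} (hA : Itg v A) : Itg v A⁻¹ := by
  intro i j
  rw [Matrix.SpecialLinearGroup.SL2_inv_expl]
  fin_cases i <;> fin_cases j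
  · simpa using hA 1 1
  · simpa using hA 0 1
  · simpa using hA 1 0
  · simpa using hA 0 0

/-- upper unipotent matrices -/
def nx (x : K) : SL(2, K) := ⟨!![1, x; 0, 1], by simp [Matrix.det_fin_two]⟩

lemma itg_nx {v : AbsoluteValue K ℝ} {x : K} (hx : v x ≤ 1) : Itg v (nx x) := by
  intro i j
  fin_cases i <;> fin_cases j
  · simp [nx]
  · simpa [nx] using hx
  · simp [nx]
  · simp [nx]

/-- moving a vector to the first axis -/
lemma exists_kappa {v : AbsoluteValue K ℝ} (c0 c1 w : K) (hw : w ≠ 0)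
    (h : v w = max (v c0) (v c1)) :
    ∃ κ : SL(2, K), Itg v κ ∧ κ 0 0 * c0 + κ 0 1 * c1 = w ∧ κ 1 0 * c0 + κ 1 1 * c1 = 0 := by
  have hw0 : 0 < v w := v.pos hw
  have hab : ∃ a b : K, v a ≤ 1 ∧ v b ≤ 1 ∧ a * c0 + b * c1 = w := by
    rcases le_total (v c0) (v c1) with h1 | h1
    · rw [max_eq_right h1] at h
      have hc : c1 ≠ 0 := by
        rintro rfl
        rw [map_zero] at h
        exact hw0.ne' h
      refine ⟨0, w / c1, by simp, ?_, by field_simp; ring⟩
      rw [map_div₀, h, div_self (v.pos hc).ne']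
    · rw [max_eq_left h1] at h
      have hc : c0 ≠ 0 := by
        rintro rfl
        rw [map_zero] at h
        exact hw0.ne' h
      refine ⟨w / c0, 0, ?_, by simp, by field_simp; ring⟩
      rw [map_div₀, h, div_self (v.pos hc).ne']
  obtain ⟨a, b, ha, hb, hab⟩ := hab
  refine ⟨⟨!![a, b; -c1 / w, c0 / w], ?_⟩, ?_, ?_, ?_⟩
  · rw [Matrix.det_fin_two_of]
    field_simp
    linear_combination hab
  · intro i j
    fin_cases i <;> fin_cases j
    · simpa using ha
    · simpa using hb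
    · change v (-c1 / w) ≤ 1
      rw [map_div₀, v.map_neg, div_le_one hw0, h]
      exact le_max_right _ _
    · change v (c0 / w) ≤ 1
      rw [map_div₀, div_le_one hw0, h]
      exact le_max_left _ _
  · simpa using hab
  · simp
    field_simp
    ring

/-- the fibre: all `g z` of the same size -/
lemma fibre {v : AbsoluteValue K ℝ} (hv : IsNonarchimedean v) {q : ℝ} (hq : 0 < q)
    (k m : ℕ) (z : Fin 2 → K) (hz : 0 < max (v (z 0)) (v (z 1)))
    (hcount : ∀ t : Finset K, (∀ x ∈ t, v x ≤ q ^ m) → (∀ x ∈ t, ∀ y ∈ t, v (x - y) ≤ 1 → x = y) →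
      (t.card : ℝ) ≤ q ^ m)
    (s : Finset SL(2, K))
    (h1 : ∀ g ∈ s, ∀ i j, v (g i j) ≤ q ^ k)
    (h2 : ∀ g ∈ s, max (v (g 0 0 * z 0 + g 0 1 * z 1)) (v (g 1 0 * z 0 + g 1 1 * z 1)) * q ^ k =
      q ^ m * max (v (z 0)) (v (z 1)))
    (h3 : ∀ g ∈ s, ∀ g' ∈ s, Itg v (g' * g⁻¹) → g = g') :
    (s.card : ℝ) ≤ q ^ m := by
  classical
  rcases s.eq_empty_or_nonempty with rfl | ⟨g₀, hg₀⟩
  · simp only [Finset.card_empty, Nat.cast_zero]; positivity
  obtain ⟨ρ, hρ⟩ : ∃ ρ : ℝ, ρ = max (v (z 0)) (v (z 1)) := ⟨_, rfl⟩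
  rw [← hρ] at hz
  -- the fixed vector
  obtain ⟨w, hw⟩ : ∃ w : K, v w = max (v (g₀ 0 0 * z 0 + g₀ 0 1 * z 1))
      (v (g₀ 1 0 * z 0 + g₀ 1 1 * z 1)) := by
    rcases max_choice (v (g₀ 0 0 * z 0 + g₀ 0 1 * z 1)) (v (g₀ 1 0 * z 0 + g₀ 1 1 * z 1)) with h | h
    · exact ⟨_, h.symm⟩
    · exact ⟨_, h.symm⟩
  have hwq : v w * q ^ k = q ^ m * ρ := by rw [hw, hρ]; exact h2 g₀ hg₀
  have hvw : 0 < v w := by
    have : 0 < v w * q ^ k := by rw [hwq]; positivity
    exact pos_of_mul_pos_left this (by positivity)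
  have hw0 : w ≠ 0 := by
    rintro rfl
    rw [map_zero] at hvw
    exact lt_irrefl _ hvw
  have hsame : ∀ g ∈ s, v w = max (v (g 0 0 * z 0 + g 0 1 * z 1)) (v (g 1 0 * z 0 + g 1 1 * z 1)) := by
    intro g hg
    have e1 := h2 g hg
    rw [← hρ, ← hwq] at e1
    exact (mul_right_cancel₀ (by positivity) e1).symm
  have hκ : ∀ g ∈ s, ∃ κ : SL(2, K), Itg v κ ∧ (κ * g) 0 0 * z 0 + (κ * g) 0 1 * z 1 = w ∧
      (κ * g) 1 0 * z 0 + (κ * g) 1 1 * z 1 = 0 := by
    intro g hg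
    obtain ⟨κ, e1, e2, e3⟩ := exists_kappa _ _ w hw0 (hsame g hg)
    refine ⟨κ, e1, ?_, ?_⟩
    · rw [Matrix.SpecialLinearGroup.coe_mul, Matrix.mul_apply, Matrix.mul_apply, Fin.sum_univ_two,
        Fin.sum_univ_two]
      linear_combination e2
    · rw [Matrix.SpecialLinearGroup.coe_mul, Matrix.mul_apply, Matrix.mul_apply, Fin.sum_univ_two,
        Fin.sum_univ_two]
      linear_combination e3
  choose! κ hκ1 hκ2 hκ3 using hκ
  -- the bottom row
  have hbot : ∀ g ∈ s, (κ g * g) 1 1 * w = z 0 ∧ (κ g * g) 1 0 * w = -z 1 := by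
    intro g hg
    have hd : (κ g * g) 0 0 * (κ g * g) 1 1 - (κ g * g) 0 1 * (κ g * g) 1 0 = 1 := by
      have := (κ g * g).2
      rwa [Matrix.det_fin_two] at this
    have e2 := hκ2 g hg
    have e3 := hκ3 g hg
    constructor
    · linear_combination (-(κ g * g) 1 1) * e2 + (κ g * g) 0 1 * e3 + z 0 * hd
    · linear_combination (-(κ g * g) 1 0) * e2 + (κ g * g) 0 0 * e3 - z 1 * hd
  -- the pivot
  obtain ⟨j, i, b, hb0, hvb, hzi, hb⟩ : ∃ (j i : Fin 2) (b : K), b ≠ 0 ∧ v b * v w = ρ ∧ z i ≠ 0 ∧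
      j ≠ i ∧ ∀ g ∈ s, (κ g * g) 1 j = b := by
    rcases le_total (v (z 0)) (v (z 1)) with h | h
    · rw [max_eq_right h] at hρ
      have hz1 : z 1 ≠ 0 := by
        intro h'
        rw [h', map_zero] at hρ
        exact hz.ne' hρ
      refine ⟨0, 1, -z 1 / w, ?_, ?_, hz1, by simp, fun g hg => ?_⟩
      · exact div_ne_zero (neg_ne_zero.2 hz1) hw0
      · rw [map_div₀, v.map_neg, hρ]; field_simp
      · rw [eq_div_iff hw0]; exact (hbot g hg).2
    · rw [max_eq_left h] at hρ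
      have hz1 : z 0 ≠ 0 := by
        intro h'
        rw [h', map_zero] at hρ
        exact hz.ne' hρ
      refine ⟨1, 0, z 0 / w, ?_, ?_, hz1, by simp, fun g hg => ?_⟩
      · exact div_ne_zero hz1 hw0
      · rw [map_div₀, hρ]; field_simp
      · rw [eq_div_iff hw0]; exact (hbot g hg).1
  obtain ⟨hji, hb⟩ := hb
  have hvb0 : 0 < v b := v.pos hb0
  -- the key
  have key : ∀ g ∈ s, ∀ g' ∈ s, v ((κ g * g) 0 j / b - (κ g' * g') 0 j / b) ≤ 1 → g = g' := by
    intro g hg g' hg' hx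
    apply h3 g hg g' hg'
    obtain ⟨x, hxd⟩ : ∃ x : K, x = (κ g' * g') 0 j / b - (κ g * g) 0 j / b := ⟨_, rfl⟩
    have hx1 : v x ≤ 1 := by
      rw [hxd, ← v.map_neg, neg_sub]; exact hx
    have hj : (κ g' * g') 0 j = (κ g * g) 0 j + x * (κ g * g) 1 j := by
      rw [hb g hg, hxd]; field_simp; ring
    have hbb : ∀ l, (κ g' * g') 1 l = (κ g * g) 1 l := by
      have e1 := hbot g hg
      have e2 := hbot g' hg'
      intro l
      fin_cases l
      · exact mul_right_cancel₀ hw0 (e2.2.trans e1.2.symm)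
      · exact mul_right_cancel₀ hw0 (e2.1.trans e1.1.symm)
    have hi : (κ g' * g') 0 i = (κ g * g) 0 i + x * (κ g * g) 1 i := by
      have e1 := hκ2 g hg
      have e2 := hκ2 g' hg'
      have e3 := hκ3 g hg
      fin_cases j <;> fin_cases i <;> simp only [Fin.zero_eta, Fin.mk_one] at *
      · exact absurd rfl hji
      · apply mul_right_cancel₀ hzi
        linear_combination e2 - e1 - x * e3 - z 0 * hj
      · apply mul_right_cancel₀ hzi
        linear_combination e2 - e1 - x * e3 - z 1 * hj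
      · exact absurd rfl hji
    have hall : ∀ l, (κ g' * g') 0 l = (κ g * g) 0 l + x * (κ g * g) 1 l := by
      intro l
      have h2 : ∀ j i l : Fin 2, j ≠ i → (l = j ∨ l = i) := by decide
      rcases h2 j i l hji with rfl | rfl
      · exact hj
      · exact hi
    have hmat : κ g' * g' = nx x * (κ g * g) := by
      ext a c
      rw [Matrix.SpecialLinearGroup.coe_mul (nx x), Matrix.mul_apply, Fin.sum_univ_two]
      fin_cases a
      · simp only [Fin.zero_eta, nx, of_apply, cons_val', cons_val_zero, cons_val_one]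
        rw [hall c]
        simp
      · simp only [Fin.mk_one, nx, of_apply, cons_val', cons_val_zero, cons_val_one]
        rw [hbb c]
        simp
    have e5 : g' * g⁻¹ = (κ g')⁻¹ * (nx x * κ g) := by
      calc g' * g⁻¹ = (κ g')⁻¹ * (κ g' * g') * g⁻¹ := by group
        _ = (κ g')⁻¹ * (nx x * (κ g * g)) * g⁻¹ := by rw [hmat]
        _ = _ := by group
    rw [e5]
    exact ((hκ1 g' hg').inv).mul hv ((itg_nx hx1).mul hv (hκ1 g hg))
  have hinj : Set.InjOn (fun g => (κ g * g) 0 j / b) (s : Set SL(2, K)) := by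
    intro g hg g' hg' h
    apply key g hg g' hg'
    simp only at h
    rw [h, sub_self, map_zero]
    exact zero_le_one
  rw [← Finset.card_image_of_injOn hinj]
  apply hcount
  · intro y hy
    obtain ⟨g, hg, rfl⟩ := Finset.mem_image.1 hy
    rw [map_div₀, div_le_iff₀ hvb0]
    have e1 : v ((κ g * g) 0 j) ≤ q ^ k := by
      rw [Matrix.SpecialLinearGroup.coe_mul, Matrix.mul_apply, Fin.sum_univ_two]
      refine (hv _ _).trans (max_le ?_ ?_)
      · rw [map_mul]
        exact (mul_le_of_le_one_left (v.nonneg _) (hκ1 g hg 0 0)).trans (h1 g hg 0 j)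
      · rw [map_mul]
        exact (mul_le_of_le_one_left (v.nonneg _) (hκ1 g hg 0 1)).trans (h1 g hg 1 j)
    have e2 : q ^ m * v b = q ^ k := by
      have e3 : v w * q ^ k = v w * (q ^ m * v b) := by rw [hwq, ← hvb]; ring
      exact (mul_left_cancel₀ hvw.ne' e3).symm
    rw [e2]
    exact e1
  · intro x hx y hy hxy
    obtain ⟨g, hg, rfl⟩ := Finset.mem_image.1 hx
    obtain ⟨g', hg', rfl⟩ := Finset.mem_image.1 hy
    rw [key g hg g' hg' hxy]

/-- **The local count**, abstract form. -/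
theorem loc_abs {v : AbsoluteValue K ℝ} (hv : IsNonarchimedean v) {q : ℝ} (hq : 2 ≤ q)
    (hval : ∀ x : K, x ≠ 0 → ∃ n : ℤ, v x = q ^ n)
    (hcount : ∀ (m : ℕ) (t : Finset K), (∀ x ∈ t, v x ≤ q ^ m) →
      (∀ x ∈ t, ∀ y ∈ t, v (x - y) ≤ 1 → x = y) → (t.card : ℝ) ≤ q ^ m)
    (k : ℕ) (r : ℝ) (z : Fin 2 → K) (hr : 0 ≤ r) (hz : z ≠ 0) (s : Finset SL(2, K))
    (h1 : ∀ g ∈ s, ∀ i j, v (g i j) ≤ q ^ k)
    (h2 : ∀ g ∈ s, ∀ i, v (Matrix.mulVec g.1 z i) ≤ r * max (v (z 0)) (v (z 1)))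
    (h3 : ∀ g ∈ s, ∀ g' ∈ s, (∀ i j, v ((g' * g⁻¹) i j) ≤ 1) → g = g') :
    (s.card : ℝ) ≤ 2 * q ^ k * r := by
  classical
  have hq0 : 0 < q := by linarith
  have hq1 : 1 < q := by linarith
  obtain ⟨ρ, hρ⟩ : ∃ ρ : ℝ, ρ = max (v (z 0)) (v (z 1)) := ⟨_, rfl⟩
  have hρ0 : 0 < ρ := by
    rw [hρ]
    by_contra hcon
    push Not at hcon
    apply hz
    have e0 : v (z 0) = 0 := le_antisymm ((le_max_left _ _).trans hcon) (v.nonneg _)
    have e1 : v (z 1) = 0 := le_antisymm ((le_max_right _ _).trans hcon) (v.nonneg _)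
    funext i
    fin_cases i
    · exact (v.eq_zero).1 e0
    · exact (v.eq_zero).1 e1
  have hmv : ∀ g : SL(2, K), ∀ i, Matrix.mulVec g.1 z i = g i 0 * z 0 + g i 1 * z 1 := by
    intro g i
    rw [Matrix.mulVec, dotProduct, Fin.sum_univ_two]
  -- the size of g z
  obtain ⟨N, hN⟩ : ∃ N : SL(2, K) → ℝ, N = fun g =>
      max (v (g 0 0 * z 0 + g 0 1 * z 1)) (v (g 1 0 * z 0 + g 1 1 * z 1)) := ⟨_, rfl⟩
  have hzρ0 : v (z 0) ≤ ρ := by rw [hρ]; exact le_max_left _ _
  have hzρ1 : v (z 1) ≤ ρ := by rw [hρ]; exact le_max_right _ _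
  have hNr : ∀ g ∈ s, N g ≤ r * ρ := by
    intro g hg
    rw [hN, hρ]
    refine max_le ?_ ?_
    · rw [← hmv]; exact h2 g hg 0
    · rw [← hmv]; exact h2 g hg 1
  have hNlow : ∀ g ∈ s, ρ ≤ q ^ k * N g := by
    intro g hg
    have hd : g 0 0 * g 1 1 - g 0 1 * g 1 0 = 1 := by
      have := g.2
      rwa [Matrix.det_fin_two] at this
    have c0 : v (g 0 0 * z 0 + g 0 1 * z 1) ≤ N g := by rw [hN]; exact le_max_left _ _
    have c1 : v (g 1 0 * z 0 + g 1 1 * z 1) ≤ N g := by rw [hN]; exact le_max_right _ _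
    have e0 : z 0 = g 1 1 * (g 0 0 * z 0 + g 0 1 * z 1) - g 0 1 * (g 1 0 * z 0 + g 1 1 * z 1) := by
      linear_combination (-z 0) * hd
    have e1 : z 1 = -g 1 0 * (g 0 0 * z 0 + g 0 1 * z 1) - -g 0 0 * (g 1 0 * z 0 + g 1 1 * z 1) := by
      linear_combination (-z 1) * hd
    have hsub : ∀ x y : K, v (x - y) ≤ max (v x) (v y) := by
      intro x y
      have := hv x (-y)
      rwa [v.map_neg, ← sub_eq_add_neg] at this
    rw [hρ]
    refine max_le ?_ ?_
    · rw [e0]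
      refine (hsub _ _).trans (max_le ?_ ?_)
      · rw [map_mul]; exact mul_le_mul (h1 g hg 1 1) c0 (v.nonneg _) (by positivity)
      · rw [map_mul]; exact mul_le_mul (h1 g hg 0 1) c1 (v.nonneg _) (by positivity)
    · rw [e1]
      refine (hsub _ _).trans (max_le ?_ ?_)
      · rw [map_mul, v.map_neg]; exact mul_le_mul (h1 g hg 1 0) c0 (v.nonneg _) (by positivity)
      · rw [map_mul, v.map_neg]; exact mul_le_mul (h1 g hg 0 0) c1 (v.nonneg _) (by positivity)
  have hval2 : ∀ x y : K, ∃ u : K, v u = max (v x) (v y) := fun x y => by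
    rcases max_choice (v x) (v y) with h | h
    · exact ⟨x, h.symm⟩
    · exact ⟨y, h.symm⟩
  have hm : ∀ g ∈ s, ∃ m : ℕ, N g * q ^ k = q ^ m * ρ := by
    intro g hg
    have hNg0 : 0 < N g := by
      have := hρ0.trans_le (hNlow g hg)
      exact pos_of_mul_pos_right this (by positivity)
    obtain ⟨u, hu⟩ := hval2 (g 0 0 * z 0 + g 0 1 * z 1) (g 1 0 * z 0 + g 1 1 * z 1)
    obtain ⟨u', hu'⟩ := hval2 (z 0) (z 1)
    have hNu : v u = N g := by rw [hu, hN]
    have hρu : v u' = ρ := by rw [hu', hρ]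
    obtain ⟨n, hn⟩ := hval u (by rintro rfl; rw [map_zero] at hNu; exact hNg0.ne hNu)
    obtain ⟨n', hn'⟩ := hval u' (by rintro rfl; rw [map_zero] at hρu; exact hρ0.ne hρu)
    have hle : q ^ n' ≤ q ^ (k + n : ℤ) := by
      rw [zpow_add₀ hq0.ne', zpow_natCast, ← hn, ← hn', hNu, hρu]
      exact hNlow g hg
    rw [zpow_le_zpow_iff_right₀ hq1] at hle
    refine ⟨(k + n - n').toNat, ?_⟩
    rw [← hNu, ← hρu, hn, hn', ← zpow_natCast, ← zpow_natCast, ← zpow_add₀ hq0.ne',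
      ← zpow_add₀ hq0.ne', Int.toNat_of_nonneg (by omega)]
    congr 1
    ring
  choose! m hm using hm
  obtain ⟨M, hM⟩ : ∃ M : ℕ, M = s.sup m := ⟨_, rfl⟩
  rcases s.eq_empty_or_nonempty with rfl | hne
  · simp only [Finset.card_empty, Nat.cast_zero]; positivity
  obtain ⟨g₁, hg₁, hM1⟩ := Finset.exists_mem_eq_sup s hne m
  have hMle : q ^ M ≤ q ^ k * r := by
    have e1 := hm g₁ hg₁
    rw [← hM1, ← hM] at e1
    have e2 := hNr g₁ hg₁
    have e3 : q ^ M * ρ ≤ (q ^ k * r) * ρ := by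
      rw [← e1]
      calc N g₁ * q ^ k ≤ (r * ρ) * q ^ k := by gcongr
        _ = _ := by ring
    exact le_of_mul_le_mul_right e3 hρ0
  have hfib : ∀ a ∈ Finset.range (M + 1), ((s.filter fun g => m g = a).card : ℝ) ≤ q ^ a := by
    intro a _
    apply fibre hv hq0 k a z (by rw [← hρ]; exact hρ0) (hcount a)
    · intro g hg
      exact h1 g (Finset.mem_filter.1 hg).1
    · intro g hg
      obtain ⟨hg, hga⟩ := Finset.mem_filter.1 hg
      have := hm g hg
      rw [hga, hN, hρ] at this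
      exact this
    · intro g hg g' hg' hI
      exact h3 g (Finset.mem_filter.1 hg).1 g' (Finset.mem_filter.1 hg').1 hI
  have hmaps : (s : Set SL(2, K)).MapsTo m (Finset.range (M + 1)) := by
    intro g hg
    rw [Finset.mem_coe, Finset.mem_range, hM]
    exact Nat.lt_succ_of_le (Finset.le_sup (f := m) hg)
  have hcard : (s.card : ℝ) ≤ ∑ a ∈ Finset.range (M + 1), q ^ a := by
    rw [Finset.card_eq_sum_card_fiberwise hmaps]
    push_cast
    exact Finset.sum_le_sum hfib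
  have hgeom : ∀ n : ℕ, ∑ a ∈ Finset.range (n + 1), q ^ a ≤ 2 * q ^ n := by
    intro n
    induction n with
    | zero => simp
    | succ n ih =>
      rw [Finset.sum_range_succ]
      have : 2 * q ^ n ≤ q ^ (n + 1) := by
        rw [pow_succ']; gcongr
      linarith
  calc (s.card : ℝ) ≤ 2 * q ^ M := hcard.trans (hgeom M)
    _ ≤ 2 * (q ^ k * r) := by gcongr
    _ = _ := by ring

end Pool.Agent.T2h77.LocA
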