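import Pool.Agent.T2h77.Stm2
import Pool.Agent.T2h77.LocA

/-!
# The local count
-/

set_option autoImplicit false

open NumberField NumberField.mixedEmbedding MeasureTheory Matrix IsDedekindDomain
open scoped MatrixGroups ENNReal

noncomputable section

namespace Pool.Agent.T2h77

variable {K : Type} [Field K] [NumberField K]

lemma toNN_exp (𝔭 : HeightOneSpectrum (𝓞 K)) (n : ℤ) :
    ((WithZeroMulInt.toNNReal (HeightOneSpectrum.absNorm_ne_zero 𝔭) (WithZero.exp n) : NNReal) : ℝ) =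
      (Ideal.absNorm 𝔭.asIdeal : ℝ) ^ n := by
  rw [WithZeroMulInt.toNNReal_neg_apply _ WithZero.exp_ne_zero]
  push_cast
  congr 1

lemma pab_le_iff (𝔭 : HeightOneSpectrum (𝓞 K)) (x : K) (n : ℤ) :
    pab 𝔭 x ≤ (Ideal.absNorm 𝔭.asIdeal : ℝ) ^ n ↔ 𝔭.valuation K x ≤ WithZero.exp n := by
  rw [← toNN_exp]
  unfold pab
  rw [HeightOneSpectrum.adicAbv_def, NNReal.coe_le_coe]
  exact (WithZeroMulInt.toNNReal_strictMono (HeightOneSpectrum.one_lt_absNorm_nnreal 𝔭)).le_iff_le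

lemma pab_eq (𝔭 : HeightOneSpectrum (𝓞 K)) (x : K) (n : ℤ) (h : 𝔭.valuation K x = WithZero.exp n) :
    pab 𝔭 x = (Ideal.absNorm 𝔭.asIdeal : ℝ) ^ n := by
  rw [← toNN_exp, ← h]
  rfl

lemma pab_val (𝔭 : HeightOneSpectrum (𝓞 K)) (x : K) (hx : x ≠ 0) :
    ∃ n : ℤ, pab 𝔭 x = (Ideal.absNorm 𝔭.asIdeal : ℝ) ^ n := by
  have h : 𝔭.valuation K x ≠ 0 := (Valuation.ne_zero_iff _).2 hx
  exact ⟨WithZero.log (𝔭.valuation K x), pab_eq 𝔭 x _ (WithZero.exp_log h).symm⟩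

lemma pab_count (𝔭 : HeightOneSpectrum (𝓞 K)) (m : ℕ) (t : Finset K)
    (h1 : ∀ x ∈ t, pab 𝔭 x ≤ (Ideal.absNorm 𝔭.asIdeal : ℝ) ^ m)
    (h2 : ∀ x ∈ t, ∀ y ∈ t, pab 𝔭 (x - y) ≤ 1 → x = y) :
    (t.card : ℝ) ≤ (Ideal.absNorm 𝔭.asIdeal : ℝ) ^ m := by
  classical
  obtain ⟨q, hq⟩ : ∃ q : ℕ, q = Ideal.absNorm 𝔭.asIdeal := ⟨_, rfl⟩
  have hq1 : 1 < q := by rw [hq]; exact HeightOneSpectrum.one_lt_absNorm 𝔭
  have hqR : (0 : ℝ) < q := by exact_mod_cast (by omega : 0 < q)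
  obtain ⟨π, hπ⟩ := 𝔭.valuation_exists_uniformizer K
  have hπm : pab 𝔭 (π ^ m) * (q : ℝ) ^ m = 1 := by
    rw [map_pow, pab_eq 𝔭 π (-1) hπ, ← hq, ← mul_pow, _root_.zpow_neg_one, inv_mul_cancel₀ hqR.ne', one_pow]
  have happ : ∀ x ∈ t, ∃ a : 𝓞 K, pab 𝔭 (algebraMap (𝓞 K) K a - π ^ m * x) * (q : ℝ) ^ m ≤ 1 := by
    intro x hx
    have e1 : 𝔭.valuation K (π ^ m * x) ≤ 1 := by
      rw [show (1 : WithZero (Multiplicative ℤ)) = WithZero.exp (0 : ℤ) from rfl, ← pab_le_iff,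
        _root_.zpow_zero, map_mul]
      calc pab 𝔭 (π ^ m) * pab 𝔭 x ≤ pab 𝔭 (π ^ m) * (q : ℝ) ^ m := by
            rw [hq]; exact mul_le_mul_of_nonneg_left (h1 x hx) ((pab 𝔭).nonneg _)
        _ = 1 := hπm
    obtain ⟨a, ha⟩ := HeightOneSpectrum.exists_valuation_sub_lt_of_integer (K := K) 𝔭 e1
      (Units.mk0 (WithZero.exp (-(m : ℤ))) WithZero.exp_ne_zero)
    refine ⟨a, ?_⟩
    have e2 := (pab_le_iff 𝔭 _ _).2 ha.le
    rw [← hq, _root_.zpow_neg, _root_.zpow_natCast] at e2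
    calc _ ≤ ((q : ℝ) ^ m)⁻¹ * (q : ℝ) ^ m := mul_le_mul_of_nonneg_right e2 (by positivity)
      _ = 1 := inv_mul_cancel₀ (by positivity)
  choose! a ha using happ
  have hinj : Set.InjOn (fun x => Ideal.Quotient.mk (𝔭.asIdeal ^ m) (a x)) (t : Set K) := by
    intro x hx y hy hxy
    apply h2 x hx y hy
    have e1 : a x - a y ∈ 𝔭.asIdeal ^ m := Ideal.Quotient.eq.1 hxy
    rw [← HeightOneSpectrum.intValuation_le_pow_iff_mem,
      ← HeightOneSpectrum.valuation_of_algebraMap (K := K), ← pab_le_iff, _root_.zpow_neg, _root_.zpow_natCast,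
      ← hq] at e1
    have e2 : pab 𝔭 (algebraMap (𝓞 K) K (a x - a y)) * (q : ℝ) ^ m ≤ 1 := by
      calc _ ≤ ((q : ℝ) ^ m)⁻¹ * (q : ℝ) ^ m := mul_le_mul_of_nonneg_right e1 (by positivity)
        _ = 1 := inv_mul_cancel₀ (by positivity)
    have hqm : (0 : ℝ) < (q : ℝ) ^ m := by positivity
    have e3 : π ^ m * (x - y) = -(algebraMap (𝓞 K) K (a x) - π ^ m * x) +
        ((algebraMap (𝓞 K) K (a y) - π ^ m * y) + algebraMap (𝓞 K) K (a x - a y)) := by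
      rw [map_sub]; ring
    have e4 : pab 𝔭 (π ^ m * (x - y)) * (q : ℝ) ^ m ≤ 1 := by
      rw [← le_div_iff₀ hqm, e3]
      refine ((HeightOneSpectrum.isNonarchimedean_adicAbv K 𝔭) _ _).trans (max_le ?_ ?_)
      · rw [(pab 𝔭).map_neg, le_div_iff₀ hqm]
        exact ha x hx
      · refine ((HeightOneSpectrum.isNonarchimedean_adicAbv K 𝔭) _ _).trans (max_le ?_ ?_)
        · rw [le_div_iff₀ hqm]
          exact ha y hy
        · rw [le_div_iff₀ hqm]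
          exact e2
    rw [map_mul] at e4
    calc pab 𝔭 (x - y) = pab 𝔭 (π ^ m) * pab 𝔭 (x - y) * (q : ℝ) ^ m := by
          rw [mul_right_comm, hπm, one_mul]
      _ ≤ 1 := e4
  have hcard : Nat.card (𝓞 K ⧸ 𝔭.asIdeal ^ m) = q ^ m := by
    have : Ideal.absNorm (𝔭.asIdeal ^ m) = q ^ m := by rw [map_pow, hq]
    rw [← this]
    rfl
  have hfin : Finite (𝓞 K ⧸ 𝔭.asIdeal ^ m) := by
    apply Nat.finite_of_card_ne_zero
    rw [hcard]
    positivity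
  have hle : t.card ≤ q ^ m := by
    rw [← Finset.card_image_of_injOn hinj, ← hcard, ← Set.ncard_coe_finset]
    exact (Set.ncard_le_ncard (Set.subset_univ _)).trans (by rw [Set.ncard_univ])
  rw [← hq]
  exact_mod_cast hle

/-- **L1.** -/
theorem loc : S_loc := by
  intro K _ _ 𝔭 k r z hr hz s h1 h2 h3
  refine LocA.loc_abs (v := pab 𝔭) (HeightOneSpectrum.isNonarchimedean_adicAbv K 𝔭) ?_
    (fun x hx => pab_val 𝔭 x hx) (fun m t => pab_count 𝔭 m t) k r z hr hz s h1 h2 h3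
  have := HeightOneSpectrum.one_lt_absNorm 𝔭
  exact_mod_cast this

end Pool.Agent.T2h77
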