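import Pool.Agent.T2h77.Cnt5
import Pool.Agent.T2h77.Loc
import Pool.Agent.T2h77.Geo3

/-!
# Arithmetic of the `𝔭`-adic absolute value
-/

set_option autoImplicit false
set_option linter.unusedSectionVars false
set_option linter.unusedSimpArgs false

open NumberField NumberField.mixedEmbedding MeasureTheory Matrix IsDedekindDomain
open scoped MatrixGroups ENNReal

noncomputable section

namespace Pool.Agent.T2h77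

namespace PP

open Cnt

variable {K : Type} [Field K] [NumberField K]

/-- the norm of `𝔭` -/
abbrev qq (𝔭 : HeightOneSpectrum (𝓞 K)) : ℝ := (Ideal.absNorm 𝔭.asIdeal : ℝ)

lemma two_le_qq (𝔭 : HeightOneSpectrum (𝓞 K)) : 2 ≤ qq 𝔭 := by
  have := HeightOneSpectrum.one_lt_absNorm 𝔭
  exact_mod_cast this

lemma qq_pos (𝔭 : HeightOneSpectrum (𝓞 K)) : 0 < qq 𝔭 := by have := two_le_qq 𝔭; linarith

lemma pab_val_le_one (𝔭 : HeightOneSpectrum (𝓞 K)) (x : K) :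
    pab 𝔭 x ≤ 1 ↔ 𝔭.valuation K x ≤ 1 := by
  have := pab_le_iff 𝔭 x 0
  rwa [_root_.zpow_zero, WithZero.exp_zero] at this

lemma pab_int (𝔭 : HeightOneSpectrum (𝓞 K)) (a : 𝓞 K) : pab 𝔭 (a : K) ≤ 1 :=
  (pab_val_le_one 𝔭 _).2 (𝔭.valuation_le_one a)

lemma pab_add_le (𝔭 : HeightOneSpectrum (𝓞 K)) (x y : K) :
    pab 𝔭 (x + y) ≤ max (pab 𝔭 x) (pab 𝔭 y) := HeightOneSpectrum.isNonarchimedean_adicAbv K 𝔭 x y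

lemma pab_sub_le (𝔭 : HeightOneSpectrum (𝓞 K)) (x y : K) :
    pab 𝔭 (x - y) ≤ max (pab 𝔭 x) (pab 𝔭 y) := by
  rw [sub_eq_add_neg, ← (pab 𝔭).map_neg y]
  exact pab_add_le 𝔭 x (-y)

/-- an element of `𝔭 ^ m` with the smallest order -/
lemma exists_pow (𝔭 : HeightOneSpectrum (𝓞 K)) (m : ℕ) :
    ∃ a ∈ 𝔭.asIdeal ^ m, pab 𝔭 (a : K) = (qq 𝔭 ^ m)⁻¹ := by
  obtain ⟨π, hπ⟩ := 𝔭.intValuation_exists_uniformizer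
  refine ⟨π ^ m, ?_, ?_⟩
  · apply Ideal.pow_mem_pow
    rw [← 𝔭.intValuation_lt_one_iff_mem, hπ]
    exact WithZero.exp_lt_exp.2 (by norm_num)
  · rw [cv_pow, map_pow]
    have h1 : 𝔭.valuation K (π : K) = WithZero.exp (-1) := by
      rw [← hπ]; exact 𝔭.valuation_of_algebraMap (K := K) π
    rw [pab_eq 𝔭 _ (-1) h1, _root_.zpow_neg_one, inv_pow]

/-- localisation -/
lemma exists_den (𝔭 : HeightOneSpectrum (𝓞 K)) {x : K} (hx : pab 𝔭 x ≤ 1) :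
    ∃ u n : 𝓞 K, u ∉ 𝔭.asIdeal ∧ (u : K) * x = n := by
  obtain ⟨n, d, h⟩ := 𝔭.exists_primeCompl_mul_eq_of_integer x ((pab_val_le_one 𝔭 x).1 hx)
  exact ⟨d, n, d.2, by rw [mul_comm]; exact h⟩

/-- A3 -/
lemma pab_of_Fr (𝔭 : HeightOneSpectrum (𝓞 K)) {x : K} {k : ℕ} (hx : x ∈ Fr 𝔭.asIdeal k ⊤) :
    pab 𝔭 x ≤ qq 𝔭 ^ k := by
  obtain ⟨a, ha, h1⟩ := exists_pow 𝔭 k
  obtain ⟨b, -, hb⟩ := hx a ha
  have h2 : pab 𝔭 ((a : K) * x) ≤ 1 := by rw [hb]; exact pab_int 𝔭 b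
  rw [map_mul, h1, inv_mul_le_iff₀ (pow_pos (qq_pos 𝔭) k), mul_one] at h2
  exact h2

lemma sup_span_eq_top (𝔭 : HeightOneSpectrum (𝓞 K)) {u : 𝓞 K} (hu : u ∉ 𝔭.asIdeal) (m : ℕ) :
    𝔭.asIdeal ^ m ⊔ Ideal.span {u} = ⊤ := by
  apply Ideal.pow_sup_eq_top
  have hmax : 𝔭.asIdeal.IsMaximal := 𝔭.isMaximal
  apply hmax.1.2
  refine lt_of_le_of_ne le_sup_left fun h => hu ?_
  rw [h]
  exact Ideal.mem_sup_right (Ideal.mem_span_singleton_self u)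

/-- the local-global principle for membership -/
lemma mem_of_local (𝔭 : HeightOneSpectrum (𝓞 K)) {J : Ideal (𝓞 K)} {w : 𝓞 K} {m : ℕ}
    (h1 : ∀ a ∈ 𝔭.asIdeal ^ m, a * w ∈ J) {u : 𝓞 K} (hu : u ∉ 𝔭.asIdeal) (h2 : u * w ∈ J) : w ∈ J := by
  have h := sup_span_eq_top 𝔭 hu m
  rw [Ideal.eq_top_iff_one, Submodule.mem_sup] at h
  obtain ⟨p, hp, r, hr, hpr⟩ := h
  obtain ⟨c, rfl⟩ := Ideal.mem_span_singleton'.1 hr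
  have e : w = p * w + c * (u * w) := by rw [← mul_assoc, ← add_mul, hpr, one_mul]
  rw [e]
  exact J.add_mem (h1 p hp) (J.mul_mem_left _ h2)

/-- an element of `𝓞[1/𝔭]` which is integral at `𝔭` -/
lemma int_of_Fr (𝔭 : HeightOneSpectrum (𝓞 K)) {x : K} {l : ℕ} (hx : x ∈ Fr 𝔭.asIdeal l ⊤)
    (h1 : pab 𝔭 x ≤ 1) : ∃ b : 𝓞 K, x = b := by
  obtain ⟨u, n, hu, hn⟩ := exists_den 𝔭 h1
  have h := sup_span_eq_top 𝔭 hu l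
  rw [Ideal.eq_top_iff_one, Submodule.mem_sup] at h
  obtain ⟨p, hp, r, hr, hpr⟩ := h
  obtain ⟨c, rfl⟩ := Ideal.mem_span_singleton'.1 hr
  obtain ⟨b, -, hb⟩ := hx p hp
  refine ⟨b + c * n, ?_⟩
  rw [cv_add, cv_mul, ← hb, ← hn, ← mul_assoc, ← cv_mul, ← add_mul, ← cv_add, hpr, cv_one, one_mul]

/-- A4 -/
lemma Fr_of_pab (𝔭 : HeightOneSpectrum (𝓞 K)) {x : K} {k l : ℕ} (hx : x ∈ Fr 𝔭.asIdeal l ⊤)
    (h1 : pab 𝔭 x ≤ qq 𝔭 ^ k) : x ∈ Fr 𝔭.asIdeal k ⊤ := by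
  intro a ha
  have h2 : pab 𝔭 (a : K) ≤ (qq 𝔭 ^ k)⁻¹ := by
    rw [← HeightOneSpectrum.intValuation_le_pow_iff_mem,
      ← HeightOneSpectrum.valuation_of_algebraMap (K := K), ← pab_le_iff, _root_.zpow_neg,
      _root_.zpow_natCast] at ha
    exact ha
  have h3 : pab 𝔭 ((a : K) * x) ≤ 1 := by
    rw [map_mul]
    calc pab 𝔭 (a : K) * pab 𝔭 x ≤ (qq 𝔭 ^ k)⁻¹ * qq 𝔭 ^ k :=
          mul_le_mul h2 h1 ((pab 𝔭).nonneg _) (by have := qq_pos 𝔭; positivity)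
      _ = 1 := inv_mul_cancel₀ (pow_pos (qq_pos 𝔭) k).ne'
  obtain ⟨b, hb⟩ := int_of_Fr 𝔭 (Fr_mul_left a hx) h3
  exact ⟨b, trivial, hb⟩

/-! ### Matrices -/

lemma Lk_mono {𝔭 : Ideal (𝓞 K)} {k l : ℕ} (h : k ≤ l) : Lk 𝔭 k ⊆ Lk 𝔭 l :=
  fun _ hγ i j => Fr_mono h le_rfl (hγ i j)

lemma sl_inv (γ : SL(2, K)) : γ⁻¹ 0 0 = γ 1 1 ∧ γ⁻¹ 0 1 = - γ 0 1 ∧ γ⁻¹ 1 0 = - γ 1 0 ∧ γ⁻¹ 1 1 = γ 0 0 := by
  refine ⟨?_, ?_, ?_, ?_⟩ <;> rw [Matrix.SpecialLinearGroup.coe_inv, Matrix.adjugate_fin_two] <;> rfl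

lemma Lk_inv {𝔭 : Ideal (𝓞 K)} {k : ℕ} {γ : SL(2, K)} (h : γ ∈ Lk 𝔭 k) : γ⁻¹ ∈ Lk 𝔭 k := by
  obtain ⟨h1, h2, h3, h4⟩ := sl_inv γ
  intro i j
  fin_cases i <;> fin_cases j
  · change γ⁻¹ 0 0 ∈ _; rw [h1]; exact h 1 1
  · change γ⁻¹ 0 1 ∈ _; rw [h2]; exact Fr_neg (h 0 1)
  · change γ⁻¹ 1 0 ∈ _; rw [h3]; exact Fr_neg (h 1 0)
  · change γ⁻¹ 1 1 ∈ _; rw [h4]; exact h 0 0

lemma sl_mul (γ δ : SL(2, K)) (i j : Fin 2) : (γ * δ) i j = γ i 0 * δ 0 j + γ i 1 * δ 1 j := by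
  rw [Matrix.SpecialLinearGroup.coe_mul, Matrix.mul_apply, Fin.sum_univ_two]

lemma Lk_mul {𝔭 : Ideal (𝓞 K)} {k l : ℕ} {γ δ : SL(2, K)} (h : γ ∈ Lk 𝔭 k) (h' : δ ∈ Lk 𝔭 l) :
    γ * δ ∈ Lk 𝔭 (k + l) := by
  intro i j
  rw [sl_mul]
  refine Fr_add ?_ ?_
  · have := Fr_mul (h i 0) (h' 0 j); rwa [Ideal.top_mul] at this
  · have := Fr_mul (h i 1) (h' 1 j); rwa [Ideal.top_mul] at this

lemma oK_Lk (𝔭 : Ideal (𝓞 K)) (δ : SL(2, 𝓞 K)) : oK K δ ∈ Lk 𝔭 0 := fun i j => by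
  rw [oK_apply]; exact Fr_coe trivial

lemma Lk_mul_oK {𝔭 : Ideal (𝓞 K)} {k : ℕ} {γ : SL(2, K)} (h : γ ∈ Lk 𝔭 k) (δ : SL(2, 𝓞 K)) :
    γ * oK K δ ∈ Lk 𝔭 k := by
  have := Lk_mul h (oK_Lk 𝔭 δ); rwa [add_zero] at this

lemma oK_mul_Lk {𝔭 : Ideal (𝓞 K)} {k : ℕ} {γ : SL(2, K)} (h : γ ∈ Lk 𝔭 k) (δ : SL(2, 𝓞 K)) :
    oK K δ * γ ∈ Lk 𝔭 k := by
  have := Lk_mul (oK_Lk 𝔭 δ) h; rwa [zero_add] at this

/-- integral matrices -/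
lemma exists_oK (𝔭 : HeightOneSpectrum (𝓞 K)) {γ : SL(2, K)} {k : ℕ} (h : γ ∈ Lk 𝔭.asIdeal k)
    (h1 : ∀ i j, pab 𝔭 (γ i j) ≤ 1) : ∃ δ : SL(2, 𝓞 K), oK K δ = γ := by
  have : ∀ i j, ∃ b : 𝓞 K, γ i j = b := fun i j => int_of_Fr 𝔭 (h i j) (h1 i j)
  choose M hM using this
  have hdet : (Matrix.of M).det = 1 := by
    rw [Matrix.det_fin_two]
    simp only [Matrix.of_apply]
    apply RingOfIntegers.coe_injective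
    change ((M 0 0 * M 1 1 - M 0 1 * M 1 0 : 𝓞 K) : K) = ((1 : 𝓞 K) : K)
    rw [cv_sub, cv_mul, cv_mul, cv_one, ← hM, ← hM, ← hM, ← hM]
    have := γ.det_coe; rwa [Matrix.det_fin_two] at this
  refine ⟨⟨Matrix.of M, hdet⟩, ?_⟩
  ext i j
  exact (hM i j).symm

lemma oK_injective : Function.Injective (oK K) := by
  intro a b hab
  ext i j
  have h1 : oK K a i j = oK K b i j := by rw [hab]
  rw [oK_apply, oK_apply] at h1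
  exact h1

lemma jo_injective : Function.Injective (jo K) := by
  intro a b hab
  ext i j
  have h1 : jo K a i j = jo K b i j := by rw [hab]
  exact mixedEmbedding_injective K h1

lemma jo_oK (δ : SL(2, 𝓞 K)) : jo K (oK K δ) = io K δ := rfl

/-- the `𝔭`-adic norm of a matrix -/
def pn (𝔭 : HeightOneSpectrum (𝓞 K)) (γ : SL(2, K)) : ℝ :=
  max (max (pab 𝔭 (γ 0 0)) (pab 𝔭 (γ 0 1))) (max (pab 𝔭 (γ 1 0)) (pab 𝔭 (γ 1 1)))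

lemma pab_le_pn (𝔭 : HeightOneSpectrum (𝓞 K)) (γ : SL(2, K)) (i j : Fin 2) : pab 𝔭 (γ i j) ≤ pn 𝔭 γ := by
  unfold pn
  fin_cases i <;> fin_cases j
  · exact (le_max_left _ _).trans (le_max_left _ _)
  · exact (le_max_right _ _).trans (le_max_left _ _)
  · exact (le_max_left _ _).trans (le_max_right _ _)
  · exact (le_max_right _ _).trans (le_max_right _ _)

lemma pn_le (𝔭 : HeightOneSpectrum (𝓞 K)) {γ : SL(2, K)} {c : ℝ} (h : ∀ i j, pab 𝔭 (γ i j) ≤ c) :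
    pn 𝔭 γ ≤ c := max_le (max_le (h 0 0) (h 0 1)) (max_le (h 1 0) (h 1 1))

lemma pn_inv (𝔭 : HeightOneSpectrum (𝓞 K)) (γ : SL(2, K)) : pn 𝔭 γ⁻¹ = pn 𝔭 γ := by
  obtain ⟨h1, h2, h3, h4⟩ := sl_inv γ
  unfold pn
  rw [h1, h2, h3, h4, (pab 𝔭).map_neg, (pab 𝔭).map_neg]
  rw [max_comm (max _ _), max_comm (pab 𝔭 (γ 1 0)), max_comm (pab 𝔭 (γ 1 1)), max_max_max_comm,
    max_comm (pab 𝔭 (γ 1 0)), max_max_max_comm]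

lemma pn_mul_le (𝔭 : HeightOneSpectrum (𝓞 K)) (γ δ : SL(2, K)) : pn 𝔭 (γ * δ) ≤ pn 𝔭 γ * pn 𝔭 δ := by
  apply pn_le
  intro i j
  rw [sl_mul]
  refine (pab_add_le 𝔭 _ _).trans (max_le ?_ ?_)
  · rw [map_mul]
    exact mul_le_mul (pab_le_pn _ _ _ _) (pab_le_pn _ _ _ _) ((pab 𝔭).nonneg _)
      (((pab 𝔭).nonneg _).trans (pab_le_pn 𝔭 γ 0 0))
  · rw [map_mul]
    exact mul_le_mul (pab_le_pn _ _ _ _) (pab_le_pn _ _ _ _) ((pab 𝔭).nonneg _)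
      (((pab 𝔭).nonneg _).trans (pab_le_pn 𝔭 γ 0 0))

lemma one_le_pn (𝔭 : HeightOneSpectrum (𝓞 K)) (γ : SL(2, K)) : 1 ≤ pn 𝔭 γ := by
  have h0 : 0 ≤ pn 𝔭 γ := ((pab 𝔭).nonneg _).trans (pab_le_pn 𝔭 γ 0 0)
  have hdet : γ 0 0 * γ 1 1 - γ 0 1 * γ 1 0 = 1 := by
    have := γ.det_coe; rwa [Matrix.det_fin_two] at this
  have h1 : (1 : ℝ) ≤ pn 𝔭 γ * pn 𝔭 γ := by
    calc (1 : ℝ) = pab 𝔭 (γ 0 0 * γ 1 1 - γ 0 1 * γ 1 0) := by rw [hdet, map_one]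
      _ ≤ max (pab 𝔭 (γ 0 0 * γ 1 1)) (pab 𝔭 (γ 0 1 * γ 1 0)) := pab_sub_le 𝔭 _ _
      _ ≤ pn 𝔭 γ * pn 𝔭 γ := by
          rw [map_mul, map_mul]
          exact max_le (mul_le_mul (pab_le_pn _ _ _ _) (pab_le_pn _ _ _ _) ((pab 𝔭).nonneg _) h0)
            (mul_le_mul (pab_le_pn _ _ _ _) (pab_le_pn _ _ _ _) ((pab 𝔭).nonneg _) h0)
  nlinarith

lemma pn_oK (𝔭 : HeightOneSpectrum (𝓞 K)) (δ : SL(2, 𝓞 K)) : pn 𝔭 (oK K δ) = 1 :=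
  le_antisymm (pn_le 𝔭 fun i j => by rw [oK_apply]; exact pab_int 𝔭 _) (one_le_pn 𝔭 _)

lemma pn_conj (𝔭 : HeightOneSpectrum (𝓞 K)) (l : SL(2, 𝓞 K)) (δ : SL(2, K)) :
    pn 𝔭 (oK K l * δ * (oK K l)⁻¹) = pn 𝔭 δ := by
  have key : ∀ (l : SL(2, 𝓞 K)) (δ : SL(2, K)), pn 𝔭 (oK K l * δ * (oK K l)⁻¹) ≤ pn 𝔭 δ := by
    intro l δ
    have h1 := pn_mul_le 𝔭 (oK K l * δ) (oK K l)⁻¹
    have h2 := pn_mul_le 𝔭 (oK K l) δ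
    rw [pn_inv, pn_oK, mul_one] at h1
    rw [pn_oK, one_mul] at h2
    exact h1.trans h2
  refine le_antisymm (key l δ) ?_
  have := key l⁻¹ (oK K l * δ * (oK K l)⁻¹)
  have e : oK K l⁻¹ * (oK K l * δ * (oK K l)⁻¹) * (oK K l⁻¹)⁻¹ = δ := by
    rw [map_inv]; group
  rwa [e] at this

lemma Lk_of_pn (𝔭 : HeightOneSpectrum (𝓞 K)) {γ : SL(2, K)} {k l : ℕ} (h : γ ∈ Lk 𝔭.asIdeal l)
    (h1 : pn 𝔭 γ ≤ qq 𝔭 ^ k) : γ ∈ Lk 𝔭.asIdeal k :=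
  fun i j => Fr_of_pab 𝔭 (h i j) ((pab_le_pn 𝔭 γ i j).trans h1)

lemma pn_of_Lk (𝔭 : HeightOneSpectrum (𝓞 K)) {γ : SL(2, K)} {k : ℕ} (h : γ ∈ Lk 𝔭.asIdeal k) :
    pn 𝔭 γ ≤ qq 𝔭 ^ k := pn_le 𝔭 fun i j => pab_of_Fr 𝔭 (h i j)

end PP

end Pool.Agent.T2h77
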