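import Pool.Agent.T2h77.Anal6

/-!
# Abstract Hecke operators on `Γ \ G`: symmetry
-/

set_option autoImplicit false
set_option linter.unusedSectionVars false

open MeasureTheory Measure
open scoped ENNReal NNReal Pointwise ComplexConjugate

noncomputable section

namespace Pool.Agent.T2h77.An

section alg

variable {G : Type} [Group G]

/-- `S = Γ s` satisfies `Γ S Γ = S = S⁻¹`, and `s` is a set of representatives of `Γ \ S` -/
structure HS (Γ : Subgroup G) (s : Finset G) : Prop where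
  uniq : ∀ η ∈ s, ∀ η' ∈ s, η' * η⁻¹ ∈ Γ → η = η'
  right : ∀ η ∈ s, ∀ γ ∈ Γ, ∃ η' ∈ s, η * γ * η'⁻¹ ∈ Γ
  inv : ∀ η ∈ s, ∃ η' ∈ s, η⁻¹ * η'⁻¹ ∈ Γ

/-- the set `Γ s` -/
def Ss (Γ : Subgroup G) (s : Finset G) : Set G := {x | ∃ η ∈ s, x * η⁻¹ ∈ Γ}

/-- the Hecke operator -/
def HT (s : Finset G) (f : G → ℂ) (g : G) : ℂ := ∑ η ∈ s, f (η * g)

/-- the Hecke operator for nonnegative functions -/
def HP (s : Finset G) (F : G → ℝ≥0∞) (g : G) : ℝ≥0∞ := ∑ η ∈ s, F (η * g)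

variable {Γ : Subgroup G} {s : Finset G}

lemma mem_Ss {x : G} : x ∈ Ss Γ s ↔ ∃ η ∈ s, x * η⁻¹ ∈ Γ := Iff.rfl

lemma HS.mul_right_mem (hs : HS Γ s) {x γ : G} (hx : x ∈ Ss Γ s) (hγ : γ ∈ Γ) : x * γ ∈ Ss Γ s := by
  obtain ⟨η, hη, h1⟩ := hx
  obtain ⟨η', hη', h2⟩ := hs.right η hη γ hγ
  refine ⟨η', hη', ?_⟩
  have e : x * γ * η'⁻¹ = (x * η⁻¹) * (η * γ * η'⁻¹) := by group
  rw [e]
  exact Γ.mul_mem h1 h2

lemma Ss_mul_left_mem {x γ : G} (hx : x ∈ Ss Γ s) (hγ : γ ∈ Γ) : γ * x ∈ Ss Γ s := by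
  obtain ⟨η, hη, h1⟩ := hx
  refine ⟨η, hη, ?_⟩
  rw [mul_assoc]
  exact Γ.mul_mem hγ h1

lemma HS.inv_mem (hs : HS Γ s) {x : G} (hx : x ∈ Ss Γ s) : x⁻¹ ∈ Ss Γ s := by
  obtain ⟨η, hη, h1⟩ := hx
  obtain ⟨η', hη', h2⟩ := hs.inv η hη
  have h3 : η⁻¹ ∈ Ss Γ s := ⟨η', hη', h2⟩
  have h4 := hs.mul_right_mem h3 (Γ.inv_mem h1)
  have e : η⁻¹ * (x * η⁻¹)⁻¹ = x⁻¹ := by group
  rwa [e] at h4

/-- `s × Γ = S` -/
def HS.e1 (hs : HS Γ s) : s × Γ ≃ Ss Γ s :=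
  Equiv.ofBijective (fun p => ⟨(p.2 : G) * p.1, ⟨p.1, p.1.2, by
    rw [mul_assoc, mul_inv_cancel, mul_one]; exact p.2.2⟩⟩) (by
    constructor
    · rintro ⟨⟨η, hη⟩, γ⟩ ⟨⟨η', hη'⟩, γ'⟩ h
      have h1 : (γ : G) * η = γ' * η' := congrArg Subtype.val h
      have h2 : η = η' := by
        refine hs.uniq η hη η' hη' ?_
        have e : η' * η⁻¹ = (γ' : G)⁻¹ * γ := by
          have e1 : η' = (γ' : G)⁻¹ * (γ * η) := by rw [h1]; group
          rw [e1]; group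
        rw [e]
        exact Γ.mul_mem (Γ.inv_mem γ'.2) γ.2
      subst h2
      have h3 : (γ : G) = γ' := mul_right_cancel h1
      have h4 : γ = γ' := Subtype.ext h3
      rw [h4]
    · rintro ⟨x, η, hη, h1⟩
      refine ⟨⟨⟨η, hη⟩, ⟨x * η⁻¹, h1⟩⟩, ?_⟩
      apply Subtype.ext
      change x * η⁻¹ * η = x
      group)

lemma HS.e1_apply (hs : HS Γ s) (p : s × Γ) : ((hs.e1 p : Ss Γ s) : G) = p.2 * p.1 := rfl

/-- inversion -/
def HS.ei (hs : HS Γ s) : Ss Γ s ≃ Ss Γ s where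
  toFun x := ⟨(x : G)⁻¹, hs.inv_mem x.2⟩
  invFun x := ⟨(x : G)⁻¹, hs.inv_mem x.2⟩
  left_inv x := by simp
  right_inv x := by simp

lemma HS.tsum1 (hs : HS Γ s) (φ : G → ℝ≥0∞) :
    ∑' x : Ss Γ s, φ x = ∑ η ∈ s, ∑' γ : Γ, φ (γ * η) := by
  rw [← hs.e1.tsum_eq]
  rw [ENNReal.tsum_prod' (f := fun p : s × Γ => φ (hs.e1 p))]
  simp only [HS.e1_apply]
  rw [Finset.tsum_subtype s (fun η => ∑' γ : Γ, φ (γ * η))]

lemma HS.tsum2 (hs : HS Γ s) (φ : G → ℝ≥0∞) :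
    ∑' x : Ss Γ s, φ x = ∑ η ∈ s, ∑' γ : Γ, φ (η⁻¹ * γ) := by
  rw [← hs.ei.tsum_eq (fun x : Ss Γ s => φ x)]
  have h := hs.tsum1 (fun x => φ x⁻¹)
  change ∑' x : Ss Γ s, φ ((x : G)⁻¹) = _
  rw [h]
  refine Finset.sum_congr rfl fun η _ => ?_
  rw [← (Equiv.inv Γ).tsum_eq]
  refine tsum_congr fun γ => ?_
  congr 1
  simp

lemma HS.tsum_right (hs : HS Γ s) (φ : G → ℝ≥0∞) {γ : G} (hγ : γ ∈ Γ) :
    ∑' x : Ss Γ s, φ (x * γ) = ∑' x : Ss Γ s, φ x := by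
  let e : Ss Γ s ≃ Ss Γ s :=
    { toFun := fun x => ⟨(x : G) * γ, hs.mul_right_mem x.2 hγ⟩
      invFun := fun x => ⟨(x : G) * γ⁻¹, hs.mul_right_mem x.2 (Γ.inv_mem hγ)⟩
      left_inv := fun x => by simp
      right_inv := fun x => by simp }
  exact e.tsum_eq (fun x : Ss Γ s => φ x)

/-- right translation by `Γ` permutes the cosets -/
lemma HS.sum_right {M : Type} [AddCommMonoid M] (hs : HS Γ s) (Φ : G → M)
    (hΦ : ∀ γ ∈ Γ, ∀ g, Φ (γ * g) = Φ g) {γ : G} (hγ : γ ∈ Γ) (g : G) :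
    ∑ η ∈ s, Φ (η * (γ * g)) = ∑ η ∈ s, Φ (η * g) := by
  classical
  choose σ hσ1 hσ2 using fun (η : G) (hη : η ∈ s) => hs.right η hη γ hγ
  let τ : G → G := fun η => if h : η ∈ s then σ η h else η
  have hτ : ∀ η (h : η ∈ s), τ η = σ η h := fun η h => dif_pos h
  have hmaps : ∀ η ∈ s, τ η ∈ s := fun η h => by rw [hτ η h]; exact hσ1 η h
  have hinj : Set.InjOn τ s := by
    intro η hη η' hη' h
    have hη0 : η ∈ s := hη
    have hη0' : η' ∈ s := hη'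
    rw [hτ η hη0, hτ η' hη0'] at h
    refine hs.uniq η hη0 η' hη0' ?_
    have h1 := hσ2 η hη0
    have h2 := hσ2 η' hη0'
    rw [← h] at h2
    have e : η' * η⁻¹ = (η' * γ * (σ η hη0)⁻¹) * (η * γ * (σ η hη0)⁻¹)⁻¹ := by group
    rw [e]
    exact Γ.mul_mem h2 (Γ.inv_mem h1)
  have hsurj : Set.SurjOn τ s s := Finset.surjOn_of_injOn_of_card_le τ hmaps hinj le_rfl
  refine Finset.sum_nbij τ hmaps hinj hsurj fun η hη => ?_
  rw [hτ η hη]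
  have e : η * (γ * g) = (η * γ * (σ η hη)⁻¹) * (σ η hη * g) := by group
  rw [e, hΦ _ (hσ2 η hη)]

lemma HP_inv (hs : HS Γ s) {F : G → ℝ≥0∞} (hF : ∀ γ ∈ Γ, ∀ g, F (γ * g) = F g) :
    ∀ γ ∈ Γ, ∀ g, HP s F (γ * g) = HP s F g := fun _ hγ g => hs.sum_right F hF hγ g

lemma HT_inv (hs : HS Γ s) {f : G → ℂ} (hf : ∀ γ ∈ Γ, ∀ g, f (γ * g) = f g) :
    ∀ γ ∈ Γ, ∀ g, HT s f (γ * g) = HT s f g := fun _ hγ g => hs.sum_right f hf hγ g

end alg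

variable {G : Type} [Group G] [TopologicalSpace G] [IsTopologicalGroup G] [LocallyCompactSpace G]
  [SecondCountableTopology G] [T2Space G] [MeasurableSpace G] [BorelSpace G]

variable {μ : Measure G} {Γ : Subgroup G} {𝓕 : Set G} {s : Finset G}

lemma measurable_HP {F : G → ℝ≥0∞} (hF : Measurable F) : Measurable (HP s F) := by
  unfold HP
  exact Finset.measurable_fun_sum _ fun η _ => hF.comp (measurable_const_mul _)

lemma continuous_HT {f : G → ℂ} (hf : Continuous f) : Continuous (HT s f) := by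
  unfold HT
  exact continuous_finset_sum _ fun η _ => hf.comp (continuous_const.mul continuous_id)

/-- almost every orbit meets the fundamental domain exactly once -/
lemma ae_one [Countable Γ] (h𝓕 : IsFundamentalDomain Γ 𝓕 μ) :
    ∀ᵐ x ∂μ, ∑' γ : Γ, 𝓕.indicator (1 : G → ℝ≥0∞) (γ * x) = 1 := by
  have h2 : ∀ᵐ x ∂μ, ∀ γ γ' : Γ, γ ≠ γ' → x ∉ (γ • 𝓕) ∩ (γ' • 𝓕) := by
    rw [ae_all_iff]
    intro γ
    rw [ae_all_iff]
    intro γ'
    by_cases h : γ = γ'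
    · exact Filter.Eventually.of_forall fun x hx => absurd h hx
    · have h3 : μ ((γ • 𝓕) ∩ (γ' • 𝓕)) = 0 := h𝓕.aedisjoint h
      filter_upwards [measure_eq_zero_iff_ae_notMem.1 h3] with x hx _
      exact hx
  filter_upwards [h𝓕.ae_covers, h2] with x hx1 hx2
  obtain ⟨γ0, h0⟩ := hx1
  have h0' : (γ0 : G) * x ∈ 𝓕 := h0
  rw [tsum_eq_single γ0]
  · rw [Set.indicator_of_mem h0']
    rfl
  · intro γ hγ
    rw [Set.indicator_of_notMem]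
    intro h1
    refine hx2 γ⁻¹ γ0⁻¹ (fun h => hγ (inv_injective h)) ⟨?_, ?_⟩
    · rw [Set.mem_smul_set_iff_inv_smul_mem, inv_inv]
      exact h1
    · rw [Set.mem_smul_set_iff_inv_smul_mem, inv_inv]
      exact h0

/-- the Hecke operators are symmetric (nonnegative functions) -/
theorem symmP [μ.IsMulLeftInvariant] [Countable Γ]
    (h𝓕 : IsFundamentalDomain Γ 𝓕 μ) (hs : HS Γ s) {F F' : G → ℝ≥0∞}
    (hFm : Measurable F) (hF : ∀ γ ∈ Γ, ∀ g, F (γ * g) = F g)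
    (hFm' : Measurable F') (hF' : ∀ γ ∈ Γ, ∀ g, F' (γ * g) = F' g) :
    ∫⁻ g in 𝓕, HP s F g * F' g ∂μ = ∫⁻ g in 𝓕, F g * HP s F' g ∂μ := by
  classical
  set χ : G → ℝ≥0∞ := 𝓕.indicator 1 with hχ
  have hχm : AEMeasurable χ μ := (measurable_one.aemeasurable).indicator₀ h𝓕.nullMeasurableSet
  set ψ : G → ℝ≥0∞ := fun x => χ x * F' x with hψ
  have hψm : AEMeasurable ψ μ := hχm.mul hFm'.aemeasurable
  have hψl : ∀ y : G, AEMeasurable (fun g => ψ (y * g)) μ := fun y =>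
    hψm.comp_quasiMeasurePreserving (measurePreserving_mul_left μ y).quasiMeasurePreserving
  -- the left hand side
  have h1 : ∫⁻ g in 𝓕, HP s F g * F' g ∂μ = ∫⁻ g, ∑ η ∈ s, F (η * g) * ψ g ∂μ := by
    rw [← lintegral_indicator₀ h𝓕.nullMeasurableSet]
    refine lintegral_congr fun g => ?_
    rw [← Finset.sum_mul]
    by_cases hg : g ∈ 𝓕
    · simp only [hψ, hχ, Set.indicator_of_mem hg, Pi.one_apply, one_mul]
      rfl
    · simp only [hψ, hχ, Set.indicator_of_notMem hg, zero_mul, mul_zero]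
  have hm1 : ∀ η ∈ s, AEMeasurable (fun g => F (η * g) * ψ g) μ := fun η _ =>
    ((hFm.comp (measurable_const_mul η)).aemeasurable).mul hψm
  rw [h1, lintegral_finset_sum' s hm1]
  have h2 : ∀ η ∈ s, ∫⁻ g, F (η * g) * ψ g ∂μ = ∫⁻ g in 𝓕, F g * ∑' γ : Γ, ψ (η⁻¹ * γ * g) ∂μ := by
    intro η _
    rw [← lintegral_mul_left_eq_self (μ := μ) (fun g => F (η * g) * ψ g) η⁻¹]
    simp only [mul_inv_cancel_left]
    rw [h𝓕.lintegral_eq_tsum'']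
    have h3 : ∀ g, F g * ∑' γ : Γ, ψ (η⁻¹ * γ * g) = ∑' γ : Γ, F g * ψ (η⁻¹ * γ * g) := fun g =>
      ENNReal.tsum_mul_left.symm
    simp only [h3]
    have hm2 : ∀ γ : Γ, AEMeasurable (fun g => F g * ψ (η⁻¹ * γ * g)) (μ.restrict 𝓕) := fun γ =>
      ((hFm.aemeasurable).mul (hψl _)).restrict
    rw [lintegral_tsum hm2]
    refine tsum_congr fun γ => lintegral_congr fun g => ?_
    change F ((γ : G) * g) * ψ (η⁻¹ * ((γ : G) * g)) = _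
    rw [hF γ.1 γ.2, mul_assoc]
  rw [Finset.sum_congr rfl h2]
  have h4 : ∀ η : G, AEMeasurable (fun g => F g * ∑' γ : Γ, ψ (η⁻¹ * γ * g)) (μ.restrict 𝓕) := by
    intro η
    exact ((hFm.aemeasurable).mul (AEMeasurable.ennreal_tsum fun γ => hψl _)).restrict
  rw [← lintegral_finset_sum' _ fun η _ => h4 η]
  have h5 : ∀ g, ∑ η ∈ s, F g * ∑' γ : Γ, ψ (η⁻¹ * γ * g) = F g * ∑ η ∈ s, ∑' γ : Γ, ψ (γ * η * g) := by
    intro g
    rw [← Finset.mul_sum, ← hs.tsum2 (fun x => ψ (x * g)), ← hs.tsum1 (fun x => ψ (x * g))]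
  simp only [h5]
  refine lintegral_congr_ae (ae_restrict_of_ae ?_)
  have h6 : ∀ᵐ g ∂μ, ∀ η ∈ s, ∑' γ : Γ, χ (γ * (η * g)) = 1 := by
    have h7 : ∀ᵐ g ∂μ, ∀ η : s, ∑' γ : Γ, χ (γ * ((η : G) * g)) = 1 := by
      rw [ae_all_iff]
      intro η
      exact (eventually_mul_left_iff μ (η : G) (p := fun g => ∑' γ : Γ, χ (γ * g) = 1)).2 (ae_one h𝓕)
    filter_upwards [h7] with g hg η hη
    exact hg ⟨η, hη⟩
  filter_upwards [h6] with g hg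
  congr 1
  unfold HP
  refine Finset.sum_congr rfl fun η hη => ?_
  have h8 : ∀ γ : Γ, ψ (γ * η * g) = χ (γ * (η * g)) * F' (γ * (η * g)) := fun γ => by
    rw [mul_assoc]
  simp only [h8, hF' _ (Subtype.prop _)]
  rw [ENNReal.tsum_mul_right, hg η hη, one_mul]

end Pool.Agent.T2h77.An
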