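import Pool.Agent.T2h77.GeoP1
import Pool.Agent.T2h77.Hecke

/-!
# Representatives, and the number of representations
-/

set_option autoImplicit false
set_option linter.unusedSectionVars false
set_option linter.unusedSimpArgs false

open NumberField NumberField.mixedEmbedding MeasureTheory Matrix IsDedekindDomain
open scoped MatrixGroups ENNReal

noncomputable section

namespace Pool.Agent.T2h77

namespace PP

open Cnt An

variable {K : Type} [Field K] [NumberField K]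

/-- `s` is a set of inequivalent elements -/
def Ineq (s : Finset SL(2, K)) : Prop :=
  ∀ g ∈ s, ∀ g' ∈ s, (∃ δ : SL(2, 𝓞 K), g' * g⁻¹ = oK K δ) → g = g'

lemma loc' (𝔭 : HeightOneSpectrum (𝓞 K)) {k : ℕ} {r : ℝ} (hr : 0 ≤ r) {z : Fin 2 → K} (hz : z ≠ 0)
    {s : Finset SL(2, K)} (h1 : ∀ g ∈ s, g ∈ Lk 𝔭.asIdeal k) (hs : Ineq s)
    (h2 : ∀ g ∈ s, ∀ i, pab 𝔭 (Matrix.mulVec g.1 z i) ≤ r * max (pab 𝔭 (z 0)) (pab 𝔭 (z 1))) :
    (s.card : ℝ) ≤ 2 * qq 𝔭 ^ k * r := by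
  refine loc K 𝔭 k r z hr hz s (fun g hg i j => pab_of_Fr 𝔭 (h1 g hg i j)) h2 ?_
  intro g hg g' hg' h
  apply hs g hg g' hg'
  obtain ⟨δ, hδ⟩ := exists_oK 𝔭 (Lk_mul (h1 g' hg') (Lk_inv (h1 g hg))) h
  exact ⟨δ, hδ.symm⟩

lemma mulVec_two (g : SL(2, K)) (z : Fin 2 → K) (i : Fin 2) :
    Matrix.mulVec g.1 z i = g.1 i 0 * z 0 + g.1 i 1 * z 1 := by
  rw [Matrix.mulVec_eq_sum]
  simp [Fin.sum_univ_two, mul_comm]

lemma card_ineq (𝔭 : HeightOneSpectrum (𝓞 K)) {k : ℕ}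
    {s : Finset SL(2, K)} (h1 : ∀ g ∈ s, g ∈ Lk 𝔭.asIdeal k) (hs : Ineq s) :
    (s.card : ℝ) ≤ 2 * qq 𝔭 ^ k * qq 𝔭 ^ k := by
  have hq := qq_pos 𝔭
  refine loc' 𝔭 (by positivity) (z := ![1, 0]) (fun h => by simpa using congrFun h 0) h1 hs ?_
  intro g hg i
  rw [mulVec_two]
  simp only [Matrix.cons_val_zero, Matrix.cons_val_one, mul_one, mul_zero, add_zero, map_one, map_zero]
  rw [max_eq_left (by norm_num), mul_one]
  exact pab_of_Fr 𝔭 (h1 g hg i 0)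

/-- existence of representatives -/
theorem exists_reps (𝔭 : HeightOneSpectrum (𝓞 K)) (Γ : Subgroup SL(2, K)) (k : ℕ) :
    ∃ s, IsReps 𝔭.asIdeal Γ k s := by
  classical
  set Q : ℕ → Prop := fun n => ∃ s : Finset SL(2, K),
    (∀ η ∈ s, η ∈ Γ ∧ η ∈ Lk 𝔭.asIdeal k) ∧ Ineq s ∧ s.card = n with hQ
  set B : ℕ := ⌊2 * qq 𝔭 ^ k * qq 𝔭 ^ k⌋₊ with hB
  have hbd : ∀ n, Q n → n ≤ B := by
    rintro n ⟨s, h1, h2, rfl⟩
    exact Nat.le_floor (card_ineq 𝔭 (fun g hg => (h1 g hg).2) h2)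
  have hQ0 : Q 0 := ⟨∅, by simp, fun g hg => by simp at hg, by simp⟩
  obtain ⟨s, h1, h2, h3⟩ := Nat.findGreatest_spec (P := Q) (Nat.zero_le B) hQ0
  refine ⟨s, h1, fun γ hγ hL => ?_⟩
  have hex : ∃ η ∈ s, ∃ δ : SL(2, 𝓞 K), γ = oK K δ * η := by
    by_contra hcon
    push Not at hcon
    have hns : γ ∉ s := fun h => hcon γ h 1 (by rw [map_one, one_mul])
    have hQ' : Q (s.card + 1) := by
      refine ⟨insert γ s, ?_, ?_, Finset.card_insert_of_notMem hns⟩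
      · intro η hη
        rcases Finset.mem_insert.1 hη with rfl | h
        · exact ⟨hγ, hL⟩
        · exact h1 η h
      · intro g hg g' hg' ⟨δ, hδ⟩
        rcases Finset.mem_insert.1 hg with rfl | h <;> rcases Finset.mem_insert.1 hg' with rfl | h'
        · rfl
        · exfalso
          apply hcon g' h' δ⁻¹
          rw [map_inv, ← hδ]
          group
        · exfalso
          apply hcon g h δ
          rw [← hδ]
          group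
        · exact h2 g h g' h' ⟨δ, hδ⟩
    have h4 := Nat.le_findGreatest (hbd _ hQ') hQ'
    omega
  obtain ⟨η, hη, δ, hδ⟩ := hex
  refine ⟨η, ⟨hη, δ, hδ⟩, ?_⟩
  rintro η' ⟨hη', δ', hδ'⟩
  symm
  apply h2 η hη η' hη'
  refine ⟨δ'⁻¹ * δ, ?_⟩
  have : η' = (oK K δ')⁻¹ * γ := by rw [hδ']; group
  rw [this, hδ, map_mul, map_inv]
  group

lemma reps_ineq {𝔭 : Ideal (𝓞 K)} {Γ : Subgroup SL(2, K)} {k : ℕ} {s : Finset SL(2, K)}
    (h : IsReps 𝔭 Γ k s) : Ineq s := by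
  intro g hg g' hg' ⟨δ, hδ⟩
  obtain ⟨h1, h2⟩ := h.1 g' hg'
  obtain ⟨η, -, hu⟩ := h.2 g' h1 h2
  have e1 := hu g ⟨hg, δ, by rw [← hδ]; group⟩
  have e2 := hu g' ⟨hg', 1, by rw [map_one, one_mul]⟩
  rw [e1, e2]

/-- the image in `SL₂(K ⊗ ℝ)` -/
def im (s : Finset SL(2, K)) : Finset (GG K) := s.map ⟨jo K, jo_injective⟩

lemma mem_im {s : Finset SL(2, K)} {x : GG K} : x ∈ im s ↔ ∃ η ∈ s, jo K η = x := by
  unfold im
  rw [Finset.mem_map]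
  rfl

lemma mem_map_io {Γ : Subgroup SL(2, K)} {γ : SL(2, K)} :
    jo K γ ∈ (ic Γ).map (io K) ↔ γ ∈ Γ ∧ ∃ δ : SL(2, 𝓞 K), oK K δ = γ := by
  constructor
  · rintro ⟨δ, hδ, h⟩
    have : oK K δ = γ := jo_injective h
    rw [← this]
    exact ⟨hδ, δ, rfl⟩
  · rintro ⟨h, δ, rfl⟩
    exact ⟨δ, h, rfl⟩

theorem reps_hs {𝔭 : Ideal (𝓞 K)} {Γ : Subgroup SL(2, K)} {k : ℕ} {s : Finset SL(2, K)}
    (h : IsReps 𝔭 Γ k s) : HS ((ic Γ).map (io K)) (im s) := by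
  refine ⟨?_, ?_, ?_⟩
  · intro η hη η' hη' hm
    obtain ⟨η₁, hη₁, rfl⟩ := mem_im.1 hη
    obtain ⟨η₂, hη₂, rfl⟩ := mem_im.1 hη'
    rw [← map_inv, ← map_mul, mem_map_io] at hm
    obtain ⟨-, δ, hδ⟩ := hm
    rw [reps_ineq h η₁ hη₁ η₂ hη₂ ⟨δ, hδ.symm⟩]
  · intro η hη γ hγ
    obtain ⟨η₁, hη₁, rfl⟩ := mem_im.1 hη
    obtain ⟨γ₁, hγ₁, rfl⟩ := hγ
    obtain ⟨h1, h2⟩ := h.1 η₁ hη₁
    obtain ⟨η', ⟨hη', δ, hδ⟩, -⟩ := h.2 (η₁ * oK K γ₁) (Γ.mul_mem h1 hγ₁) (Lk_mul_oK h2 γ₁)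
    refine ⟨jo K η', mem_im.2 ⟨η', hη', rfl⟩, ?_⟩
    rw [← jo_oK, ← map_mul, ← map_inv, ← map_mul, mem_map_io, hδ]
    refine ⟨?_, δ, by group⟩
    rw [← hδ]
    exact Γ.mul_mem (Γ.mul_mem h1 hγ₁) (Γ.inv_mem (h.1 η' hη').1)
  · intro η hη
    obtain ⟨η₁, hη₁, rfl⟩ := mem_im.1 hη
    obtain ⟨h1, h2⟩ := h.1 η₁ hη₁
    obtain ⟨η', ⟨hη', δ, hδ⟩, -⟩ := h.2 η₁⁻¹ (Γ.inv_mem h1) (Lk_inv h2)
    refine ⟨jo K η', mem_im.2 ⟨η', hη', rfl⟩, ?_⟩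
    rw [← map_inv, ← map_inv, ← map_mul, mem_map_io, hδ]
    refine ⟨?_, δ, by group⟩
    rw [← hδ]
    exact Γ.mul_mem (Γ.inv_mem h1) (Γ.inv_mem (h.1 η' hη').1)

theorem reps_mem_Ss {𝔭 : Ideal (𝓞 K)} {Γ : Subgroup SL(2, K)} {k : ℕ} {s : Finset SL(2, K)}
    (h : IsReps 𝔭 Γ k s) {x : GG K} :
    x ∈ Ss ((ic Γ).map (io K)) (im s) ↔ ∃ γ ∈ Γ, γ ∈ Lk 𝔭 k ∧ jo K γ = x := by
  constructor
  · rintro ⟨η, hη, hx⟩
    obtain ⟨η₁, hη₁, rfl⟩ := mem_im.1 hη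
    obtain ⟨δ, hδ, hδx⟩ := hx
    obtain ⟨h1, h2⟩ := h.1 η₁ hη₁
    refine ⟨oK K δ * η₁, Γ.mul_mem hδ h1, oK_mul_Lk h2 δ, ?_⟩
    rw [map_mul, jo_oK, hδx]
    group
  · rintro ⟨γ, hγ, hL, rfl⟩
    obtain ⟨η₁, ⟨hη₁, δ, hδ⟩, -⟩ := h.2 γ hγ hL
    refine ⟨jo K η₁, mem_im.2 ⟨η₁, hη₁, rfl⟩, ?_⟩
    rw [← map_inv, ← map_mul, mem_map_io]
    refine ⟨Γ.mul_mem hγ (Γ.inv_mem (h.1 η₁ hη₁).1), δ, ?_⟩
    rw [hδ]
    group

/-! ### The number of representations -/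

open Classical in
/-- the bound of the number of representations -/
def cc (𝔭 : HeightOneSpectrum (𝓞 K)) (k : ℕ) : GG K → ℝ≥0∞ :=
  Function.extend (jo K) (fun γ => if γ ∈ Lk 𝔭.asIdeal (2 * k) then
    ENNReal.ofReal (2 * qq 𝔭 ^ (2 * k) * (pn 𝔭 γ)⁻¹) else 0) 0

open Classical in
lemma cc_apply (𝔭 : HeightOneSpectrum (𝓞 K)) (k : ℕ) (γ : SL(2, K)) :
    cc 𝔭 k (jo K γ) = if γ ∈ Lk 𝔭.asIdeal (2 * k) then
      ENNReal.ofReal (2 * qq 𝔭 ^ (2 * k) * (pn 𝔭 γ)⁻¹) else 0 :=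
  jo_injective.extend_apply _ _ _

lemma cc_conj (𝔭 : HeightOneSpectrum (𝓞 K)) (k : ℕ) (l : SL(2, 𝓞 K)) (δ : GG K) :
    cc 𝔭 k (io K l * δ * (io K l)⁻¹) = cc 𝔭 k δ := by
  classical
  by_cases h : ∃ γ, jo K γ = δ
  · obtain ⟨γ, rfl⟩ := h
    rw [← jo_oK, ← map_mul, ← map_inv, ← map_mul, cc_apply, cc_apply, pn_conj]
    have hiff : oK K l * γ * (oK K l)⁻¹ ∈ Lk 𝔭.asIdeal (2 * k) ↔ γ ∈ Lk 𝔭.asIdeal (2 * k) := by
      constructor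
      · intro h1
        have h2 := Lk_mul_oK (oK_mul_Lk h1 l⁻¹) l
        have e : oK K l⁻¹ * (oK K l * γ * (oK K l)⁻¹) * oK K l = γ := by rw [map_inv]; group
        rwa [e] at h2
      · intro h1
        rw [← map_inv]
        exact Lk_mul_oK (oK_mul_Lk h1 l) l⁻¹
    by_cases h1 : γ ∈ Lk 𝔭.asIdeal (2 * k)
    · rw [if_pos h1, if_pos (hiff.2 h1)]
    · rw [if_neg h1, if_neg (fun h => h1 (hiff.1 h))]
  · have h' : ¬ ∃ γ, jo K γ = io K l * δ * (io K l)⁻¹ := by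
      rintro ⟨γ, hγ⟩
      apply h
      refine ⟨(oK K l)⁻¹ * γ * oK K l, ?_⟩
      rw [map_mul, map_mul, map_inv, hγ, jo_oK]
      group
    unfold cc
    rw [Function.extend_apply' _ _ _ h, Function.extend_apply' _ _ _ h']
    rfl

open Classical in
/-- the number of representations `γ = x η` -/
theorem card_rep_le {𝔭 : HeightOneSpectrum (𝓞 K)} {Γ : Subgroup SL(2, K)} {k : ℕ}
    {s : Finset SL(2, K)} (h : IsReps 𝔭.asIdeal Γ k s) (γ : SL(2, K)) :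
    ((s.filter fun η => γ * η⁻¹ ∈ Lk 𝔭.asIdeal k).card : ℝ≥0∞) ≤ cc 𝔭 k (jo K γ) := by
  set t := s.filter fun η => γ * η⁻¹ ∈ Lk 𝔭.asIdeal k with ht
  rcases t.eq_empty_or_nonempty with he | ⟨η₀, hη₀⟩
  · rw [he]; simp
  have hL : γ ∈ Lk 𝔭.asIdeal (2 * k) := by
    obtain ⟨h1, h2⟩ := Finset.mem_filter.1 hη₀
    have := Lk_mul h2 (h.1 η₀ h1).2
    rwa [inv_mul_cancel_right, ← two_mul] at this
  rw [cc_apply, if_pos hL]
  have hpn := one_le_pn 𝔭 γ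
  have hq := qq_pos 𝔭
  -- a column of `γ⁻¹`
  obtain ⟨j, hj⟩ : ∃ j : Fin 2, max (pab 𝔭 (γ⁻¹ 0 j)) (pab 𝔭 (γ⁻¹ 1 j)) = pn 𝔭 γ := by
    have e : pn 𝔭 γ = max (max (pab 𝔭 (γ⁻¹ 0 0)) (pab 𝔭 (γ⁻¹ 1 0)))
        (max (pab 𝔭 (γ⁻¹ 0 1)) (pab 𝔭 (γ⁻¹ 1 1))) := by
      rw [← pn_inv, pn, max_max_max_comm]
    rcases max_choice (max (pab 𝔭 (γ⁻¹ 0 0)) (pab 𝔭 (γ⁻¹ 1 0)))
        (max (pab 𝔭 (γ⁻¹ 0 1)) (pab 𝔭 (γ⁻¹ 1 1))) with h | h
    · exact ⟨0, by rw [e, h]⟩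
    · exact ⟨1, by rw [e, h]⟩
  set z : Fin 2 → K := fun i => γ⁻¹ i j with hz
  have hz0 : z ≠ 0 := by
    intro h0
    have e0 : γ⁻¹ 0 j = 0 := congrFun h0 0
    have e1 : γ⁻¹ 1 j = 0 := congrFun h0 1
    rw [e0, e1, map_zero, max_self] at hj
    linarith
  have hcard : (t.card : ℝ) ≤ 2 * qq 𝔭 ^ k * (qq 𝔭 ^ k * (pn 𝔭 γ)⁻¹) := by
    refine loc' 𝔭 (by positivity) hz0 (fun g hg => (h.1 g (Finset.mem_filter.1 hg).1).2) ?_ ?_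
    · intro g hg g' hg' hgg
      exact reps_ineq h g (Finset.mem_filter.1 hg).1 g' (Finset.mem_filter.1 hg').1 hgg
    · intro g hg i
      have h1 : Matrix.mulVec g.1 z i = (g * γ⁻¹) i j := by
        rw [mulVec_two, sl_mul]
      have h2 : g * γ⁻¹ ∈ Lk 𝔭.asIdeal k := by
        have := Lk_inv (Finset.mem_filter.1 hg).2
        rwa [_root_.mul_inv_rev, inv_inv] at this
      rw [h1]
      have h3 : max (pab 𝔭 (z 0)) (pab 𝔭 (z 1)) = pn 𝔭 γ := hj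
      rw [h3, inv_mul_cancel_right₀ (by positivity)]
      exact pab_of_Fr 𝔭 (h2 i j)
  calc (t.card : ℝ≥0∞) = ENNReal.ofReal (t.card : ℝ) := (ENNReal.ofReal_natCast _).symm
    _ ≤ ENNReal.ofReal (2 * qq 𝔭 ^ (2 * k) * (pn 𝔭 γ)⁻¹) := by
        apply ENNReal.ofReal_le_ofReal
        refine hcard.trans (le_of_eq ?_)
        rw [two_mul k, pow_add]
        ring

/-- the double sum in terms of the number of representations -/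
theorem sum_Ss_le {𝔭 : HeightOneSpectrum (𝓞 K)} {Γ : Subgroup SL(2, K)} {k : ℕ}
    {s : Finset SL(2, K)} (h : IsReps 𝔭.asIdeal Γ k s) (F : GG K → ℝ≥0∞) :
    ∑ η ∈ im s, ∑' x : Ss ((ic Γ).map (io K)) (im s), F (x * η) ≤
      ∑' δ : Γ.map (jo K), cc 𝔭 k δ * F δ := by
  classical
  have h1 : ∀ η ∈ im s, ∑' x : Ss ((ic Γ).map (io K)) (im s), F (x * η) =
      ∑' δ : Γ.map (jo K), (if (δ : GG K) * η⁻¹ ∈ Ss ((ic Γ).map (io K)) (im s) then F δ else 0) := by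
    intro η hη
    obtain ⟨η, hη₁, rfl⟩ := mem_im.1 hη
    have hmem : ∀ x : Ss ((ic Γ).map (io K)) (im s), (x : GG K) * jo K η ∈ Γ.map (jo K) := by
      intro x
      obtain ⟨γ, hγ, -, hx⟩ := (reps_mem_Ss h).1 x.2
      rw [← hx, ← map_mul]
      exact Subgroup.mem_map_of_mem _ (Γ.mul_mem hγ (h.1 η hη₁).1)
    set e : Ss ((ic Γ).map (io K)) (im s) → Γ.map (jo K) := fun x => ⟨x * jo K η, hmem x⟩ with he
    have hinj : Function.Injective e := by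
      intro x y hxy
      have := congrArg Subtype.val hxy
      exact Subtype.ext (mul_right_cancel this)
    rw [← hinj.tsum_eq]
    · refine tsum_congr fun x => ?_
      have e2 : ((e x : Γ.map (jo K)) : GG K) * (jo K η)⁻¹ = x := by
        rw [he]; simp
      rw [e2, if_pos x.2]
    · intro δ hδ
      rw [Function.mem_support] at hδ
      have h3 : (δ : GG K) * (jo K η)⁻¹ ∈ Ss ((ic Γ).map (io K)) (im s) := by
        by_contra hcon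
        rw [if_neg hcon] at hδ
        exact hδ rfl
      exact ⟨⟨_, h3⟩, Subtype.ext (by simp [he])⟩
  rw [Finset.sum_congr rfl h1]
  have h2 : ∑ η ∈ im s, ∑' δ : Γ.map (jo K),
      (if (δ : GG K) * η⁻¹ ∈ Ss ((ic Γ).map (io K)) (im s) then F δ else 0) =
      ∑' δ : Γ.map (jo K), ∑ η ∈ im s,
        (if (δ : GG K) * η⁻¹ ∈ Ss ((ic Γ).map (io K)) (im s) then F δ else 0) :=
    (Summable.tsum_finsetSum fun _ _ => ENNReal.summable).symm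
  rw [h2]
  refine ENNReal.tsum_le_tsum fun δ => ?_
  obtain ⟨_, γ, hγ, rfl⟩ := δ
  rw [← Finset.sum_filter, Finset.sum_const, nsmul_eq_mul]
  refine mul_le_mul_left ?_ (F (jo K γ))
  refine le_trans ?_ (card_rep_le h γ)
  rw [Nat.cast_le]
  have himg : (im s).filter (fun η => jo K γ * η⁻¹ ∈ Ss ((ic Γ).map (io K)) (im s)) ⊆
      im (s.filter fun η => γ * η⁻¹ ∈ Lk 𝔭.asIdeal k) := by
    intro x hx
    obtain ⟨hx1, hx2⟩ := Finset.mem_filter.1 hx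
    obtain ⟨η, hη, rfl⟩ := mem_im.1 hx1
    rw [mem_im]
    refine ⟨η, Finset.mem_filter.2 ⟨hη, ?_⟩, rfl⟩
    rw [← map_inv, ← map_mul, reps_mem_Ss h] at hx2
    obtain ⟨γ', -, hL, he⟩ := hx2
    rw [← jo_injective he]
    exact hL
  refine (Finset.card_le_card himg).trans (le_of_eq ?_)
  unfold im
  rw [Finset.card_map]

end PP

end Pool.Agent.T2h77
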