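import Pool.Agent.T2h77.GeoP2
import Pool.Agent.T2h77.Geo4

/-!
# Sums over the points of `SL₂(𝓞[1/𝔭])`, and the eigenvalues
-/

set_option autoImplicit false
set_option linter.unusedSectionVars false
set_option linter.deprecated false

open NumberField NumberField.mixedEmbedding MeasureTheory Matrix IsDedekindDomain
open scoped MatrixGroups ENNReal

noncomputable section

namespace Pool.Agent.T2h77

namespace PP

open Cnt An

variable {K : Type} [Field K] [NumberField K]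

lemma congr_ic {𝔭 : Ideal (𝓞 K)} {Γ : Subgroup SL(2, K)} (h : IsCongrP 𝔭 Γ) : IsCongr (ic Γ) := by
  obtain ⟨-, 𝔫, h𝔫, hlev⟩ := h
  exact ⟨𝔫, h𝔫, ker_le_ic hlev⟩

lemma fixP_le_index (Γ : Subgroup SL(2, K)) [(ic Γ).FiniteIndex] (δ : SL(2, K)) :
    (fixP Γ δ : ℝ) ≤ (ic Γ).index := by
  unfold fixP
  rw [Subgroup.index]
  exact_mod_cast Nat.card_le_card_of_injective _ Subtype.val_injective

open Classical in
/-- the level of a matrix -/
def lvl (𝔭 : Ideal (𝓞 K)) (δ : SL(2, K)) : ℕ :=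
  if h : ∃ l, δ ∈ Lk 𝔭 l then Nat.find h else 0

lemma lvl_mem {𝔭 : Ideal (𝓞 K)} {δ : SL(2, K)} {m : ℕ} (h : δ ∈ Lk 𝔭 m) : δ ∈ Lk 𝔭 (lvl 𝔭 δ) := by
  classical
  have hex : ∃ l, δ ∈ Lk 𝔭 l := ⟨m, h⟩
  unfold lvl
  rw [dif_pos hex]
  convert Nat.find_spec hex

lemma lvl_le {𝔭 : Ideal (𝓞 K)} {δ : SL(2, K)} {m : ℕ} (h : δ ∈ Lk 𝔭 m) : lvl 𝔭 δ ≤ m := by
  classical
  have hex : ∃ l, δ ∈ Lk 𝔭 l := ⟨m, h⟩
  unfold lvl
  rw [dif_pos hex]
  convert Nat.find_min' hex h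

lemma pow_lvl_le (𝔭 : HeightOneSpectrum (𝓞 K)) {δ : SL(2, K)} {m : ℕ} (h : δ ∈ Lk 𝔭.asIdeal m) :
    qq 𝔭 ^ (lvl 𝔭.asIdeal δ) ≤ qq 𝔭 * pn 𝔭 δ := by
  have hq := two_le_qq 𝔭
  have h1 := one_le_pn 𝔭 δ
  rcases Nat.eq_zero_or_pos (lvl 𝔭.asIdeal δ) with h0 | h0
  · rw [h0, pow_zero]; nlinarith
  · obtain ⟨l, hl⟩ := Nat.exists_eq_succ_of_ne_zero h0.ne'
    rw [hl, Nat.succ_eq_add_one, pow_succ, mul_comm]
    have h2 : qq 𝔭 ^ l ≤ pn 𝔭 δ := by
      by_contra hcon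
      push Not at hcon
      have h3 := Lk_of_pn 𝔭 h hcon.le
      have h4 := lvl_le h3
      omega
    gcongr

/-- decomposition with respect to the level -/
theorem sum_fixP_le (hc : S_count2) (𝔭 : HeightOneSpectrum (𝓞 K)) (C₀ ε : ℝ) (hε : 0 < ε) :
    ∃ C : ℝ, 0 < C ∧ ∀ Γ : Subgroup SL(2, K), IsCongrP 𝔭.asIdeal Γ → ∀ m : ℕ,
      ∀ s : Finset SL(2, K), (∀ δ ∈ s, δ ∈ Lk 𝔭.asIdeal m ∧ ∀ w, mn w (jo K δ) ≤ C₀) →
      ∑ δ ∈ s, (fixP Γ δ : ℝ) * (pn 𝔭 δ)⁻¹ ≤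
        C * ((ic Γ).index * qq 𝔭 ^ m) ^ (2 * ε) * ((ic Γ).index + qq 𝔭 ^ m) := by
  classical
  obtain ⟨C, hC, hcount⟩ := hc K 𝔭.asIdeal C₀ ε 𝔭.isPrime 𝔭.ne_bot hε
  have hq2 := two_le_qq 𝔭
  have hq0 := qq_pos 𝔭
  set q := qq 𝔭 with hq
  set A : ℝ := 1 + 2 / ε with hA
  have hA0 : 0 < A := by positivity
  refine ⟨2 + A * (q * C), by positivity, fun Γ hΓ m s hs => ?_⟩
  have hfi := index_ne_zero_of_congr (congr_ic hΓ)
  set n : ℝ := ((ic Γ).index : ℝ) with hn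
  have hn1 : 1 ≤ n := by
    rw [hn]
    exact_mod_cast Nat.one_le_iff_ne_zero.2 hfi.index_ne_zero
  have hn0 : 0 < n := by linarith
  set X : ℝ := q ^ m with hX
  have hX1 : 1 ≤ X := one_le_pow₀ (by linarith)
  have hX0 : 0 < X := by linarith
  set T : SL(2, K) → ℝ := fun δ => pn 𝔭 δ with hT
  have hT1 : ∀ δ, 1 ≤ T δ := fun δ => one_le_pn 𝔭 δ
  have hnX : 1 ≤ n * X := by nlinarith
  have hP1 : 1 ≤ (n * X) ^ (2 * ε) := Real.one_le_rpow hnX (by positivity)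
  -- the part `δ = ± 1`
  set s₁ := s.filter (fun δ => δ = 1 ∨ δ = -1) with hs₁
  set s₂ := s.filter (fun δ => ¬ (δ = 1 ∨ δ = -1)) with hs₂
  have hsplit : ∑ δ ∈ s, (fixP Γ δ : ℝ) * (T δ)⁻¹ =
      ∑ δ ∈ s₁, (fixP Γ δ : ℝ) * (T δ)⁻¹ + ∑ δ ∈ s₂, (fixP Γ δ : ℝ) * (T δ)⁻¹ :=
    (Finset.sum_filter_add_sum_filter_not _ _ _).symm
  have hsum1 : ∑ δ ∈ s₁, (fixP Γ δ : ℝ) * (T δ)⁻¹ ≤ 2 * n := by
    have h1 : ∑ δ ∈ s₁, (fixP Γ δ : ℝ) * (T δ)⁻¹ ≤ ∑ δ ∈ s₁, n := by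
      refine Finset.sum_le_sum fun δ _ => ?_
      have h2 := fixP_le_index Γ δ
      have h3 : (T δ)⁻¹ ≤ 1 := inv_le_one_of_one_le₀ (hT1 δ)
      have h4 : (0 : ℝ) ≤ fixP Γ δ := Nat.cast_nonneg _
      nlinarith
    rw [Finset.sum_const, nsmul_eq_mul] at h1
    have h5 : s₁.card ≤ 2 := by
      have : s₁ ⊆ {1, -1} := by
        intro δ hδ
        rw [hs₁, Finset.mem_filter] at hδ
        simpa using hδ.2
      exact (Finset.card_le_card this).trans Finset.card_le_two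
    have h6 : (s₁.card : ℝ) ≤ 2 := by exact_mod_cast h5
    nlinarith
  -- the pieces
  have hmaps : ∀ δ ∈ s₂, lvl 𝔭.asIdeal δ ∈ Finset.range (m + 1) := by
    intro δ hδ
    rw [hs₂, Finset.mem_filter] at hδ
    rw [Finset.mem_range, Nat.lt_succ_iff]
    exact lvl_le (hs δ hδ.1).1
  have hpiece : ∀ j ∈ Finset.range (m + 1), ∑ δ ∈ s₂ with lvl 𝔭.asIdeal δ = j, (fixP Γ δ : ℝ) * (T δ)⁻¹ ≤
      q * C * (n * X) ^ ε * (n + X) := by
    intro j hj
    have hjJ : j ≤ m := Nat.lt_succ_iff.1 (Finset.mem_range.1 hj)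
    have h2J : q ^ j ≤ X := pow_le_pow_right₀ (by linarith) hjJ
    have h2j : (0 : ℝ) < q ^ j := by positivity
    have h1 : ∑ δ ∈ s₂ with lvl 𝔭.asIdeal δ = j, (fixP Γ δ : ℝ) * (T δ)⁻¹ ≤
        (q * (q ^ j)⁻¹) * ∑ δ ∈ s₂ with lvl 𝔭.asIdeal δ = j, (fixP Γ δ : ℝ) := by
      rw [Finset.mul_sum]
      refine Finset.sum_le_sum fun δ hδ => ?_
      rw [Finset.mem_filter] at hδ
      rw [mul_comm]
      have h3 := pow_lvl_le 𝔭 (hs δ (Finset.mem_filter.1 hδ.1).1).1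
      rw [hδ.2] at h3
      have h4 : (T δ)⁻¹ ≤ q * (q ^ j)⁻¹ := by
        rw [← div_eq_mul_inv, le_div_iff₀ h2j, inv_mul_le_iff₀ (by linarith [hT1 δ])]
        rw [mul_comm]
        exact h3
      gcongr
    have h2 := hcount Γ hΓ j (s₂.filter fun δ => lvl 𝔭.asIdeal δ = j)
      (fun δ hδ => by
        rw [Finset.mem_filter, hs₂, Finset.mem_filter, not_or] at hδ
        refine ⟨hδ.1.2.1, hδ.1.2.2, ?_, (hs δ hδ.1.1).2⟩
        have h3 := lvl_mem (hs δ hδ.1.1).1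
        rwa [hδ.2] at h3)
    calc ∑ δ ∈ s₂ with lvl 𝔭.asIdeal δ = j, (fixP Γ δ : ℝ) * (T δ)⁻¹
        ≤ (q * (q ^ j)⁻¹) * (C * (n * q ^ j) ^ ε * (n * q ^ j + (q ^ j) ^ 2)) :=
          h1.trans (by gcongr)
      _ = q * C * (n * q ^ j) ^ ε * (n + q ^ j) := by
          field_simp
      _ ≤ q * C * (n * X) ^ ε * (n + X) := by
          have h6 : (n * q ^ j) ^ ε ≤ (n * X) ^ ε :=
            Real.rpow_le_rpow (by positivity) (by gcongr) hε.le
          gcongr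
  have hJ1 : (m : ℝ) + 1 ≤ A * (n * X) ^ ε := by
    have h1 : (2 : ℝ) ^ m ≤ n * X := by
      calc (2 : ℝ) ^ m ≤ q ^ m := by gcongr
        _ ≤ n * X := by nlinarith
    have h2 : (m : ℝ) * Real.log 2 ≤ Real.log (n * X) := by
      rw [← Real.log_pow]
      exact Real.log_le_log (by positivity) h1
    have h3 : (1 / 2 : ℝ) ≤ Real.log 2 := by
      have := Real.log_two_gt_d9; linarith
    have h4 : Real.log (n * X) ≤ (n * X) ^ ε / ε := Real.log_le_rpow_div (by positivity) hε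
    have h5 : 1 ≤ (n * X) ^ ε := Real.one_le_rpow hnX hε.le
    have h6 : (m : ℝ) ≤ 2 * ((n * X) ^ ε / ε) := by
      have : (0 : ℝ) ≤ m := Nat.cast_nonneg _
      nlinarith
    rw [hA, add_mul, one_mul]
    have : 2 / ε * (n * X) ^ ε = 2 * ((n * X) ^ ε / ε) := by ring
    rw [this]
    linarith
  have hsum2 : ∑ δ ∈ s₂, (fixP Γ δ : ℝ) * (T δ)⁻¹ ≤
      A * (q * C) * (n * X) ^ (2 * ε) * (n + X) := by
    rw [← Finset.sum_fiberwise_of_maps_to hmaps]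
    calc _ ≤ ∑ j ∈ Finset.range (m + 1), q * C * (n * X) ^ ε * (n + X) :=
          Finset.sum_le_sum hpiece
      _ = ((m : ℝ) + 1) * (q * C * (n * X) ^ ε * (n + X)) := by
          rw [Finset.sum_const, Finset.card_range, nsmul_eq_mul]; push_cast; ring
      _ ≤ (A * (n * X) ^ ε) * (q * C * (n * X) ^ ε * (n + X)) := by gcongr
      _ = _ := by
          have : (n * X) ^ (2 * ε) = (n * X) ^ ε * (n * X) ^ ε := by
            rw [← Real.rpow_add (by positivity)]; ring_nf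
          rw [this]; ring
  rw [hsplit]
  calc _ ≤ 2 * n + A * (q * C) * (n * X) ^ (2 * ε) * (n + X) := add_le_add hsum1 hsum2
    _ ≤ 2 * (n * X) ^ (2 * ε) * (n + X) + A * (q * C) * (n * X) ^ (2 * ε) * (n + X) := by
        have : 2 * n ≤ 2 * (n * X) ^ (2 * ε) * (n + X) := by nlinarith
        linarith
    _ = _ := by ring

lemma kk_supp' {ρ₀ : ℝ} {h : GG K} (hk : kk (mu K) (ball (fun _ => ρ₀)) h ≠ 0) (w : InfinitePlace K) :
    mn w h ≤ ρ₀ ^ 2 := by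
  have e : (fun _ => ρ₀ : InfinitePlace K → ℝ) = rad w ρ₀ ρ₀ := by
    funext w'; simp [rad]
  rw [e] at hk
  exact (kk_supp w hk).1

/-- the trace of the kernel at a point of a compact set -/
theorem trace_leP (hc : S_count2) (𝔭 : HeightOneSpectrum (𝓞 K)) (ρ₀ : ℝ) {R : ℝ} (hR : 1 ≤ R) (ε : ℝ)
    (hε : 0 < ε) :
    ∃ C : ℝ, 0 < C ∧ ∀ Γ : Subgroup SL(2, K), IsCongrP 𝔭.asIdeal Γ → ∀ k : ℕ,
      ∀ g : GG K, (∀ w, mn w g ≤ R) →
      ∑' δ : (jo K).range, (Nat.card {y : SL(2, 𝓞 K) ⧸ ic Γ //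
          (io K y.out)⁻¹ * δ * io K y.out ∈ Γ.map (jo K)} : ℝ≥0∞) * cc 𝔭 k δ *
        kk (mu K) (ball fun _ => ρ₀) (g⁻¹ * δ * g) ≤
      ENNReal.ofReal (C * qq 𝔭 ^ (2 * k) * ((ic Γ).index * qq 𝔭 ^ (2 * k)) ^ (2 * ε) *
        ((ic Γ).index + qq 𝔭 ^ (2 * k))) := by
  classical
  obtain ⟨C₂, hC₂, hs⟩ := sum_fixP_le (K := K) hc 𝔭 (R ^ 2 * ρ₀ ^ 2) ε hε
  set B : Set (GG K) := ball fun _ => ρ₀ with hB
  have hBfin : mu K B ≠ ∞ := (isCompact_ball _).measure_lt_top.ne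
  set V : ℝ := (mu K B).toReal with hV
  have hV0 : 0 ≤ V := ENNReal.toReal_nonneg
  refine ⟨2 * V * C₂ + 1, by positivity, fun Γ hΓ k g hg => ?_⟩
  have hq0 := qq_pos 𝔭
  set q := qq 𝔭 with hq
  set n : ℝ := ((ic Γ).index : ℝ) with hn
  have hn0 : 0 ≤ n := Nat.cast_nonneg _
  set X : ℝ := q ^ (2 * k) with hX
  have hX0 : 0 < X := by positivity
  set P : SL(2, K) → Prop := fun δ => δ ∈ Lk 𝔭.asIdeal (2 * k) ∧ ∀ w, mn w (jo K δ) ≤ R ^ 2 * ρ₀ ^ 2 with hP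
  rw [← (MonoidHom.ofInjective (jo_injective (K := K))).toEquiv.tsum_eq]
  have hpt : ∀ γ : SL(2, K), (Nat.card {y : SL(2, 𝓞 K) ⧸ ic Γ //
          (io K y.out)⁻¹ * jo K γ * io K y.out ∈ Γ.map (jo K)} : ℝ≥0∞) * cc 𝔭 k (jo K γ) *
        kk (mu K) B (g⁻¹ * jo K γ * g) ≤
      ENNReal.ofReal (2 * X * V) * (if P γ then ENNReal.ofReal ((fixP Γ γ : ℝ) * (pn 𝔭 γ)⁻¹) else 0) := by
    intro γ
    have hcard : Nat.card {y : SL(2, 𝓞 K) ⧸ ic Γ //
          (io K y.out)⁻¹ * jo K γ * io K y.out ∈ Γ.map (jo K)} = fixP Γ γ := by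
      unfold fixP
      refine Nat.card_congr (Equiv.subtypeEquivRight fun y => ?_)
      rw [← jo_oK, ← map_inv, ← map_mul, ← map_mul]
      constructor
      · rintro ⟨γ', h1, h2⟩
        rw [← jo_injective h2]
        exact h1
      · exact fun h => Subgroup.mem_map_of_mem _ h
    rw [hcard]
    by_cases hL : γ ∈ Lk 𝔭.asIdeal (2 * k)
    · by_cases hk0 : kk (mu K) B (g⁻¹ * jo K γ * g) = 0
      · rw [hk0, mul_zero]; exact bot_le
      have hPγ : P γ := by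
        refine ⟨hL, fun w => (mn_conj_le w g (jo K γ)).trans ?_⟩
        have h1 := kk_supp' hk0 w
        have h2 := hg w
        have h3 := mn_nonneg w g
        have h4 := mn_nonneg w (g⁻¹ * jo K γ * g)
        gcongr
      rw [if_pos hPγ, cc_apply, if_pos hL, ← ENNReal.ofReal_mul (by positivity)]
      have hkV : kk (mu K) B (g⁻¹ * jo K γ * g) ≤ ENNReal.ofReal V := by
        rw [hV, ENNReal.ofReal_toReal hBfin]
        exact measure_mono Set.inter_subset_left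
      have h1 := one_le_pn 𝔭 γ
      have hpn : 0 ≤ (pn 𝔭 γ)⁻¹ := by positivity
      calc (fixP Γ γ : ℝ≥0∞) * ENNReal.ofReal (2 * X * (pn 𝔭 γ)⁻¹) * kk (mu K) B (g⁻¹ * jo K γ * g)
          ≤ (fixP Γ γ : ℝ≥0∞) * ENNReal.ofReal (2 * X * (pn 𝔭 γ)⁻¹) * ENNReal.ofReal V := by gcongr
        _ = ENNReal.ofReal (fixP Γ γ : ℝ) * ENNReal.ofReal (2 * X * (pn 𝔭 γ)⁻¹) * ENNReal.ofReal V := by
            rw [ENNReal.ofReal_natCast]
        _ = ENNReal.ofReal ((fixP Γ γ : ℝ) * (2 * X * (pn 𝔭 γ)⁻¹) * V) := by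
            rw [← ENNReal.ofReal_mul (Nat.cast_nonneg _), ← ENNReal.ofReal_mul (by positivity)]
        _ = _ := by congr 1; ring
    · rw [cc_apply, if_neg hL, mul_zero, zero_mul]; exact bot_le
  refine (ENNReal.tsum_le_tsum hpt).trans ?_
  rw [ENNReal.tsum_mul_left]
  have hsum : ∑' δ : SL(2, K), (if P δ then
      ENNReal.ofReal ((fixP Γ δ : ℝ) * (pn 𝔭 δ)⁻¹) else 0) ≤
      ENNReal.ofReal (C₂ * (n * X) ^ (2 * ε) * (n + X)) := by
    rw [ENNReal.tsum_eq_iSup_sum]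
    refine iSup_le fun s => ?_
    rw [← Finset.sum_filter, ← ENNReal.ofReal_sum_of_nonneg fun δ _ => ?_]
    · apply ENNReal.ofReal_le_ofReal
      exact hs Γ hΓ (2 * k) _ fun δ hδ => (Finset.mem_filter.1 hδ).2
    · have := one_le_pn 𝔭 δ
      positivity
  calc _ ≤ ENNReal.ofReal (2 * X * V) * ENNReal.ofReal (C₂ * (n * X) ^ (2 * ε) * (n + X)) := by gcongr
    _ = ENNReal.ofReal (2 * X * V * (C₂ * (n * X) ^ (2 * ε) * (n + X))) :=
        (ENNReal.ofReal_mul (by positivity)).symm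
    _ ≤ _ := by
        apply ENNReal.ofReal_le_ofReal
        have h1 : 0 ≤ (n * X) ^ (2 * ε) := by positivity
        have h2 : 0 ≤ X * (n * X) ^ (2 * ε) * (n + X) := by positivity
        calc 2 * X * V * (C₂ * (n * X) ^ (2 * ε) * (n + X))
            = (2 * V * C₂) * (X * (n * X) ^ (2 * ε) * (n + X)) := by ring
          _ ≤ (2 * V * C₂ + 1) * (X * (n * X) ^ (2 * ε) * (n + X)) := by gcongr; linarith
          _ = _ := by ring

/-! ### Eigenvalues of the averaging operators -/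

/-- lower bound of the real part of `sph` -/
lemma sph_re_lower' {L η : ℝ} (hη : 0 ≤ η) (hη1 : deg K * (1 + 2 * |L|) * η ≤ 1 / 4)
    {ν : InfinitePlace K → ℂ} (h3 : ∀ w, ‖ν w‖ ≤ L) {h : GG K}
    (hh : h ∈ ball (fun _ => √(2 * Real.cosh (2 * η)))) : 1 / 2 ≤ (sph ν h).re := by
  classical
  set S : ℂ := ∑ w : InfinitePlace K,
    (-(w.mult : ℂ) * (1 - 2 * ν w)) * (Real.log (rn w (h 0)) : ℝ) with hS
  have hsph : sph ν h = Complex.exp S := by
    unfold sph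
    rw [hS, Complex.exp_sum]
    exact Finset.prod_congr rfl fun w _ => cpow_eq_exp (rn_row_pos w h 0) _
  have hSn : ‖S‖ ≤ 1 / 4 := by
    calc ‖S‖ ≤ ∑ w : InfinitePlace K,
          ‖(-(w.mult : ℂ) * (1 - 2 * ν w)) * (Real.log (rn w (h 0)) : ℝ)‖ := norm_sum_le _ _
      _ ≤ ∑ w : InfinitePlace K, (w.mult : ℝ) * ((1 + 2 * |L|) * η) := by
          refine Finset.sum_le_sum fun w hw => ?_
          have h4 : ‖(1 - 2 * ν w)‖ ≤ 1 + 2 * |L| := by
            calc ‖(1 - 2 * ν w)‖ ≤ ‖(1 : ℂ)‖ + ‖2 * ν w‖ := norm_sub_le _ _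
              _ = 1 + 2 * ‖ν w‖ := by simp
              _ ≤ 1 + 2 * |L| := by
                  have := (h3 w).trans (le_abs_self L)
                  linarith
          have h5 : |Real.log (rn w (h 0))| ≤ η := abs_log_rn_le w hη (hh w)
          rw [norm_mul, norm_mul, norm_neg, Complex.norm_natCast, Complex.norm_real, Real.norm_eq_abs,
            mul_assoc]
          gcongr
      _ = deg K * (1 + 2 * |L|) * η := by
          rw [← Finset.sum_mul, deg]; ring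
      _ ≤ 1 / 4 := hη1
  have h4 := Complex.norm_exp_sub_one_le (x := S) (by linarith)
  have h5 : |(Complex.exp S - 1).re| ≤ 1 / 2 := (Complex.abs_re_le_norm _).trans (by linarith)
  rw [Complex.sub_re, Complex.one_re] at h5
  have := (abs_le.1 h5).1
  rw [hsph]
  linarith

/-- the lower bound of the eigenvalues -/
theorem eig_lowerP (K : Type) [Field K] [NumberField K] (L : ℝ) : ∃ ρ₀ : ℝ, √2 < ρ₀ ∧
    ∀ ν : InfinitePlace K → ℂ, (∀ w, ‖ν w‖ ≤ L) →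
      (mu K (ball fun _ => ρ₀)).toReal / 2 ≤ ‖∫ h in ball fun _ => ρ₀, sph ν h ∂(mu K)‖ := by
  have hd := deg_pos (K := K)
  set η : ℝ := 1 / (4 * (deg K * (1 + 2 * |L|))) with hη
  have hη0 : 0 < η := by positivity
  have hη1 : deg K * (1 + 2 * |L|) * η ≤ 1 / 4 := by
    rw [hη]
    have : 0 < deg K * (1 + 2 * |L|) := by positivity
    field_simp
    rfl
  refine ⟨√(2 * Real.cosh (2 * η)), ?_, fun ν h3 => ?_⟩
  · apply Real.sqrt_lt_sqrt (by norm_num)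
    have : 1 < Real.cosh (2 * η) := Real.one_lt_cosh.2 (by positivity)
    linarith
  set B : Set (GG K) := ball (fun _ => √(2 * Real.cosh (2 * η))) with hB
  have hint : IntegrableOn (sph ν) B (mu K) :=
    (continuous_sph ν).continuousOn.integrableOn_compact (isCompact_ball _)
  have hre : (∫ h in B, sph ν h ∂(mu K)).re = ∫ h in B, (sph ν h).re ∂(mu K) := by
    have := integral_re hint
    exact this.symm
  calc (mu K B).toReal / 2 = ∫ h in B, (1 / 2 : ℝ) ∂(mu K) := by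
        rw [setIntegral_const, smul_eq_mul]
        change (mu K B).toReal / 2 = (mu K B).toReal * (1 / 2)
        ring
    _ ≤ ∫ h in B, (sph ν h).re ∂(mu K) := by
        refine setIntegral_mono_on ?_ ?_ (isCompact_ball _).measurableSet fun h hh => ?_
        · exact continuous_const.continuousOn.integrableOn_compact (isCompact_ball _)
        · exact (Complex.continuous_re.comp (continuous_sph ν)).continuousOn.integrableOn_compact
            (isCompact_ball _)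
        · exact sph_re_lower' hη0.le hη1 h3 hh
    _ = (∫ h in B, sph ν h ∂(mu K)).re := hre.symm
    _ ≤ ‖∫ h in B, sph ν h ∂(mu K)‖ := Complex.re_le_norm _

end PP

end Pool.Agent.T2h77
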