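import Pool.Agent.T2h77.GeoP3

/-!
# The heights and the matrices in `SL₂(𝓞[1/𝔭])`
-/

set_option autoImplicit false
set_option linter.unusedSectionVars false
set_option linter.deprecated false

open NumberField NumberField.mixedEmbedding MeasureTheory Matrix IsDedekindDomain
open scoped MatrixGroups ENNReal

noncomputable section

namespace Pool.Agent.T2h77

namespace PP

open Cnt An

variable {K : Type} [Field K] [NumberField K]

/-- the `𝔭`-adic norm of a row vector -/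
def pv (𝔭 : HeightOneSpectrum (𝓞 K)) (y : Fin 2 → K) : ℝ := max (pab 𝔭 (y 0)) (pab 𝔭 (y 1))

/-- the product of a row vector and a matrix -/
def rm (y : Fin 2 → K) (η : SL(2, K)) : Fin 2 → K := fun j => y 0 * η 0 j + y 1 * η 1 j

/-- integral vectors as vectors -/
def cK (x : Fin 2 → 𝓞 K) : Fin 2 → K := fun i => (x i : K)

/-- the absolute norm of an integer -/
def Nn (a : 𝓞 K) : ℝ := ((Algebra.norm ℤ a).natAbs : ℝ)

lemma pv_nonneg (𝔭 : HeightOneSpectrum (𝓞 K)) (y : Fin 2 → K) : 0 ≤ pv 𝔭 y :=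
  le_max_of_le_left ((pab 𝔭).nonneg _)

lemma le_pv (𝔭 : HeightOneSpectrum (𝓞 K)) (y : Fin 2 → K) (j : Fin 2) : pab 𝔭 (y j) ≤ pv 𝔭 y := by
  fin_cases j
  · exact le_max_left _ _
  · exact le_max_right _ _

lemma exists_pv (𝔭 : HeightOneSpectrum (𝓞 K)) (y : Fin 2 → K) : ∃ j, pab 𝔭 (y j) = pv 𝔭 y := by
  unfold pv
  rcases max_choice (pab 𝔭 (y 0)) (pab 𝔭 (y 1)) with h | h
  · exact ⟨0, h.symm⟩
  · exact ⟨1, h.symm⟩

lemma pv_pos (𝔭 : HeightOneSpectrum (𝓞 K)) {y : Fin 2 → K} (hy : y ≠ 0) : 0 < pv 𝔭 y := by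
  by_contra hcon
  push Not at hcon
  apply hy
  funext j
  have h1 := (le_pv 𝔭 y j).trans hcon
  by_contra h2
  exact absurd h1 (not_le.2 ((pab 𝔭).pos h2))

lemma exists_ne {y : Fin 2 → K} (hy : y ≠ 0) : ∃ j, y j ≠ 0 := by
  by_contra hcon
  push Not at hcon
  exact hy (funext hcon)

lemma pv_val (𝔭 : HeightOneSpectrum (𝓞 K)) {y : Fin 2 → K} (hy : y ≠ 0) : ∃ n : ℤ, pv 𝔭 y = qq 𝔭 ^ n := by
  obtain ⟨j, hj⟩ := exists_pv 𝔭 y
  have h0 : y j ≠ 0 := by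
    intro h
    have := pv_pos 𝔭 hy
    rw [← hj, h, map_zero] at this
    exact lt_irrefl _ this
  obtain ⟨n, hn⟩ := pab_val 𝔭 (y j) h0
  exact ⟨n, by rw [← hj, hn]⟩

lemma pv_mul (𝔭 : HeightOneSpectrum (𝓞 K)) (a : K) (y : Fin 2 → K) :
    pv 𝔭 (fun j => a * y j) = pab 𝔭 a * pv 𝔭 y := by
  unfold pv
  rw [map_mul, map_mul, mul_max_of_nonneg _ _ ((pab 𝔭).nonneg _)]

lemma pv_rm_le (𝔭 : HeightOneSpectrum (𝓞 K)) {k : ℕ} {η : SL(2, K)} (hη : η ∈ Lk 𝔭.asIdeal k)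
    (y : Fin 2 → K) : pv 𝔭 (rm y η) ≤ qq 𝔭 ^ k * pv 𝔭 y := by
  have hq := qq_pos 𝔭
  have key : ∀ j, pab 𝔭 (rm y η j) ≤ qq 𝔭 ^ k * pv 𝔭 y := by
    intro j
    unfold rm
    refine (pab_add_le 𝔭 _ _).trans (max_le ?_ ?_)
    · rw [map_mul, mul_comm]
      exact mul_le_mul (pab_of_Fr 𝔭 (hη 0 j)) (le_pv 𝔭 y 0) ((pab 𝔭).nonneg _) (by positivity)
    · rw [map_mul, mul_comm]
      exact mul_le_mul (pab_of_Fr 𝔭 (hη 1 j)) (le_pv 𝔭 y 1) ((pab 𝔭).nonneg _) (by positivity)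
  exact max_le (key 0) (key 1)

lemma rm_mul (y : Fin 2 → K) (η δ : SL(2, K)) : rm (rm y η) δ = rm y (η * δ) := by
  funext j
  unfold rm
  rw [sl_mul, sl_mul]
  ring

lemma rm_one (y : Fin 2 → K) : rm y 1 = y := by
  funext j
  unfold rm
  fin_cases j <;> simp

lemma rm_inv (y : Fin 2 → K) (η : SL(2, K)) : rm (rm y η) η⁻¹ = y := by
  rw [rm_mul, mul_inv_cancel, rm_one]

lemma rm_inv' (y : Fin 2 → K) (η : SL(2, K)) : rm (rm y η⁻¹) η = y := by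
  rw [rm_mul, inv_mul_cancel, rm_one]

lemma rm_zero (η : SL(2, K)) : rm (0 : Fin 2 → K) η = 0 := by
  funext j
  unfold rm
  simp

lemma rm_ne_zero {y : Fin 2 → K} (hy : y ≠ 0) (η : SL(2, K)) : rm y η ≠ 0 := by
  intro h
  apply hy
  rw [← rm_inv y η, h, rm_zero]

lemma rm_smul (a : K) (y : Fin 2 → K) (η : SL(2, K)) :
    rm (fun j => a * y j) η = fun j => a * rm y η j := by
  funext j
  unfold rm
  ring

lemma pv_le_rm (𝔭 : HeightOneSpectrum (𝓞 K)) {k : ℕ} {η : SL(2, K)} (hη : η ∈ Lk 𝔭.asIdeal k)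
    (y : Fin 2 → K) : pv 𝔭 y ≤ qq 𝔭 ^ k * pv 𝔭 (rm y η) := by
  have := pv_rm_le 𝔭 (Lk_inv hη) (rm y η)
  rwa [rm_inv] at this

lemma cK_ne_zero {x : Fin 2 → 𝓞 K} (hx : x ≠ 0) : cK x ≠ 0 := by
  intro h
  apply hx
  funext i
  have h1 : (x i : K) = 0 := congrFun h i
  exact RingOfIntegers.coe_injective (by
    change (x i : K) = ((0 : 𝓞 K) : K)
    rw [h1]; exact cv_zero.symm)

lemma mem_pow_iff (𝔭 : HeightOneSpectrum (𝓞 K)) (m : ℕ) (a : 𝓞 K) :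
    a ∈ 𝔭.asIdeal ^ m ↔ pab 𝔭 (a : K) ≤ (qq 𝔭 ^ m)⁻¹ := by
  rw [← HeightOneSpectrum.intValuation_le_pow_iff_mem,
    ← HeightOneSpectrum.valuation_of_algebraMap (K := K), ← pab_le_iff, _root_.zpow_neg,
    _root_.zpow_natCast]

/-- the `𝔭`-part of an ideal -/
lemma mem_pow_mul (𝔭 : HeightOneSpectrum (𝓞 K)) {x : Fin 2 → 𝓞 K} (hx : x ≠ 0) {w : 𝓞 K}
    (hw : w ∈ (Ideal.span {x 0, x 1} : Ideal (𝓞 K))) {m : ℕ}
    (h : pab 𝔭 (w : K) ≤ (qq 𝔭 ^ m)⁻¹ * pv 𝔭 (cK x)) :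
    w ∈ 𝔭.asIdeal ^ m * Ideal.span {x 0, x 1} := by
  have hq := qq_pos 𝔭
  have hq2 := two_le_qq 𝔭
  have hpv := pv_pos 𝔭 (cK_ne_zero hx)
  obtain ⟨j, hj⟩ := exists_pv 𝔭 (cK x)
  have hxj : (x j : K) ≠ 0 := by
    intro h0
    have h1 : cK x j = 0 := h0
    rw [h1, map_zero] at hj
    linarith
  have hle1 : (qq 𝔭 ^ m)⁻¹ ≤ 1 := inv_le_one_of_one_le₀ (one_le_pow₀ (by linarith))
  have ht : pab 𝔭 ((w : K) / x j) ≤ (qq 𝔭 ^ m)⁻¹ := by
    rw [map_div₀]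
    have e : pab 𝔭 (x j : K) = pv 𝔭 (cK x) := hj
    rw [e, div_le_iff₀ hpv]
    exact h
  obtain ⟨u, n, hu, hn⟩ := exists_den 𝔭 (ht.trans hle1)
  have hnm : n ∈ 𝔭.asIdeal ^ m := by
    rw [mem_pow_iff, ← hn, map_mul]
    calc pab 𝔭 (u : K) * pab 𝔭 ((w : K) / x j) ≤ 1 * (qq 𝔭 ^ m)⁻¹ :=
          mul_le_mul (pab_int 𝔭 u) ht ((pab 𝔭).nonneg _) (by norm_num)
      _ = _ := one_mul _
  have huw : u * w = n * x j := by
    apply RingOfIntegers.coe_injective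
    change ((u * w : 𝓞 K) : K) = ((n * x j : 𝓞 K) : K)
    rw [cv_mul, cv_mul, ← hn, mul_assoc, div_mul_cancel₀ _ hxj]
  refine mem_of_local 𝔭 (m := m) (fun a ha => Ideal.mul_mem_mul ha hw) hu ?_
  rw [huw]
  refine Ideal.mul_mem_mul hnm (Ideal.subset_span ?_)
  fin_cases j <;> simp

/-- comparison of the norms of the ideals -/
lemma na_rel (𝔭 : HeightOneSpectrum (𝓞 K)) {k : ℕ} {η : SL(2, K)} (hη : η ∈ Lk 𝔭.asIdeal k)
    {x y : Fin 2 → 𝓞 K} (hx : x ≠ 0) (hy : y ≠ 0) {c d : 𝓞 K} (hc : c ≠ 0) (hd : d ≠ 0)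
    (h : ∀ j, (c : K) * y j = d * rm (cK x) η j) :
    Nn d * na x * (pab 𝔭 (d : K) * pv 𝔭 (cK x)) ≤ Nn c * na y * (pab 𝔭 (c : K) * pv 𝔭 (cK y)) := by
  have hq := qq_pos 𝔭
  have hq2 := two_le_qq 𝔭
  have hc' : (c : K) ≠ 0 := by exact_mod_cast hc
  have hd' : (d : K) ≠ 0 := by exact_mod_cast hd
  set D : ℝ := pab 𝔭 (d : K) * pv 𝔭 (cK x) with hD
  set E : ℝ := pab 𝔭 (c : K) * pv 𝔭 (cK y) with hE
  have hE' : E = pab 𝔭 (d : K) * pv 𝔭 (rm (cK x) η) := by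
    rw [hE, ← pv_mul, ← pv_mul]
    congr 1
    funext j
    exact h j
  have hD0 : 0 < D := mul_pos ((pab 𝔭).pos hd') (pv_pos 𝔭 (cK_ne_zero hx))
  have hE0 : 0 < E := mul_pos ((pab 𝔭).pos hc') (pv_pos 𝔭 (cK_ne_zero hy))
  have hED : E ≤ qq 𝔭 ^ k * D := by
    rw [hE', hD]
    have := pv_rm_le 𝔭 hη (cK x)
    have h2 := (pab 𝔭).nonneg (d : K)
    nlinarith
  obtain ⟨m, hm⟩ : ∃ m : ℕ, qq 𝔭 ^ m * E = qq 𝔭 ^ k * D := by
    have h1 : (fun j => (d : K) * cK x j) ≠ 0 := by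
      intro h0
      apply cK_ne_zero hx
      funext j
      rcases mul_eq_zero.1 (congrFun h0 j) with h2 | h2
      · exact absurd h2 hd'
      · exact h2
    have h2 : (fun j => (c : K) * cK y j) ≠ 0 := by
      intro h0
      apply cK_ne_zero hy
      funext j
      rcases mul_eq_zero.1 (congrFun h0 j) with h2 | h2
      · exact absurd h2 hc'
      · exact h2
    obtain ⟨f, hf⟩ := pv_val 𝔭 h1
    obtain ⟨e, he⟩ := pv_val 𝔭 h2
    rw [pv_mul] at hf he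
    change D = _ at hf
    change E = _ at he
    have h3 : e ≤ k + f := by
      rw [hf, he, ← _root_.zpow_natCast, ← zpow_add₀ hq.ne'] at hED
      exact (zpow_le_zpow_iff_right₀ (by linarith)).1 hED
    refine ⟨(k + f - e).toNat, ?_⟩
    rw [hf, he, ← _root_.zpow_natCast, ← _root_.zpow_natCast, Int.toNat_of_nonneg (by linarith),
      ← zpow_add₀ hq.ne', ← zpow_add₀ hq.ne']
    congr 1
    ring
  -- the inclusion of ideals
  have hmem : ∀ a ∈ 𝔭.asIdeal ^ k, ∀ j, a * c * y j ∈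
      Ideal.span {d} * (𝔭.asIdeal ^ m * Ideal.span {x 0, x 1}) := by
    intro a ha j
    obtain ⟨b0, -, hb0⟩ := hη 0 j a ha
    obtain ⟨b1, -, hb1⟩ := hη 1 j a ha
    have e1 : ((x 0 * b0 + x 1 * b1 : 𝓞 K) : K) = (a : K) * rm (cK x) η j := by
      rw [cv_add, cv_mul, cv_mul, ← hb0, ← hb1]
      unfold rm cK
      ring
    have e2 : a * c * y j = d * (x 0 * b0 + x 1 * b1) := by
      apply RingOfIntegers.coe_injective
      change ((a * c * y j : 𝓞 K) : K) = ((d * (x 0 * b0 + x 1 * b1) : 𝓞 K) : K)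
      rw [cv_mul d, e1, cv_mul, cv_mul, mul_assoc, h j]
      ring
    rw [e2]
    refine Ideal.mul_mem_mul (Ideal.mem_span_singleton_self d) (mem_pow_mul 𝔭 hx ?_ ?_)
    · exact Ideal.add_mem _ (Ideal.mul_mem_right _ _ (Ideal.subset_span (by simp)))
        (Ideal.mul_mem_right _ _ (Ideal.subset_span (by simp)))
    · rw [e1, map_mul]
      have h1 := (mem_pow_iff 𝔭 k a).1 ha
      have h2 := le_pv 𝔭 (rm (cK x) η) j
      have hpd := (pab 𝔭).pos hd'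
      have h3 : (qq 𝔭 ^ m)⁻¹ * pv 𝔭 (cK x) = (qq 𝔭 ^ k)⁻¹ * pv 𝔭 (rm (cK x) η) := by
        rw [hE', hD] at hm
        field_simp
        have : pab 𝔭 (d : K) * (qq 𝔭 ^ k * pv 𝔭 (cK x)) =
            pab 𝔭 (d : K) * (pv 𝔭 (rm (cK x) η) * qq 𝔭 ^ m) := by linarith
        have := mul_left_cancel₀ hpd.ne' this
        linarith
      rw [h3]
      exact mul_le_mul h1 h2 ((pab 𝔭).nonneg _) (by positivity)
  have hle : 𝔭.asIdeal ^ k * Ideal.span {c} * Ideal.span {y 0, y 1} ≤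
      Ideal.span {d} * (𝔭.asIdeal ^ m * Ideal.span {x 0, x 1}) := by
    rw [Ideal.mul_le]
    intro r hr v hv
    obtain ⟨a, ha, rfl⟩ := Ideal.mem_mul_span_singleton.1 hr
    obtain ⟨s, t, rfl⟩ := Ideal.mem_span_pair.1 hv
    have e : a * c * (s * y 0 + t * y 1) = s * (a * c * y 0) + t * (a * c * y 1) := by ring
    rw [e]
    exact Ideal.add_mem _ (Ideal.mul_mem_left _ _ (hmem a ha 0)) (Ideal.mul_mem_left _ _ (hmem a ha 1))
  have hdvd := Ideal.absNorm_dvd_absNorm_of_le hle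
  have hne : Ideal.absNorm (𝔭.asIdeal ^ k * Ideal.span {c} * Ideal.span {y 0, y 1}) ≠ 0 := by
    rw [map_mul, map_mul, map_pow]
    refine mul_ne_zero (mul_ne_zero (pow_ne_zero _ ?_) ?_) ?_
    · rw [ne_eq, Ideal.absNorm_eq_zero_iff]; exact 𝔭.ne_bot
    · rw [ne_eq, Ideal.absNorm_eq_zero_iff, Ideal.span_singleton_eq_bot]; exact hc
    · rw [ne_eq, Ideal.absNorm_eq_zero_iff]; exact span_ne_bot hy
  have hnle := Nat.le_of_dvd (Nat.pos_of_ne_zero hne) hdvd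
  rw [map_mul, map_mul, map_mul, map_mul, map_pow, map_pow, Ideal.absNorm_span_singleton,
    Ideal.absNorm_span_singleton] at hnle
  have hR : Nn d * (qq 𝔭 ^ m * na x) ≤ qq 𝔭 ^ k * Nn c * na y := by
    unfold Nn na
    exact_mod_cast hnle
  have hkey : Nn d * na x * D * (qq 𝔭 ^ m * qq 𝔭 ^ k) ≤ Nn c * na y * E * (qq 𝔭 ^ m * qq 𝔭 ^ k) := by
    calc Nn d * na x * D * (qq 𝔭 ^ m * qq 𝔭 ^ k) = (Nn d * (qq 𝔭 ^ m * na x)) * (qq 𝔭 ^ k * D) := by ring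
      _ ≤ (qq 𝔭 ^ k * Nn c * na y) * (qq 𝔭 ^ k * D) := by gcongr
      _ = (qq 𝔭 ^ k * Nn c * na y) * (qq 𝔭 ^ m * E) := by rw [hm]
      _ = _ := by ring
  exact le_of_mul_le_mul_right hkey (by positivity)

lemma nn_rel {η : SL(2, K)} {x y : Fin 2 → 𝓞 K} {c d : 𝓞 K}
    (h : ∀ j, (c : K) * y j = d * rm (cK x) η j) (g : GG K) :
    Nn d * nn x (jo K η * g) = Nn c * nn y g := by
  have h1 := nn_smul d x (jo K η * g)
  have h2 := nn_smul c y g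
  have h3 : Matrix.vecMul (emb K (d • x)) (jo K η).1 = emb K (c • y) := by
    funext j
    rw [vecMul_two]
    have e0 : (jo K η).1 0 j = mixedEmbedding K (η 0 j) := rfl
    have e1 : (jo K η).1 1 j = mixedEmbedding K (η 1 j) := rfl
    have e2 : emb K (c • y) j = mixedEmbedding K ((c : K) * y j) := by
      unfold emb
      rw [Pi.smul_apply, smul_eq_mul, cv_mul]
    have e3 : ∀ i, emb K (d • x) i = mixedEmbedding K ((d : K) * x i) := fun i => by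
      unfold emb
      rw [Pi.smul_apply, smul_eq_mul, cv_mul]
    have e5 : mixedEmbedding K ((d : K) * x 0) * mixedEmbedding K (η 0 j) +
        mixedEmbedding K ((d : K) * x 1) * mixedEmbedding K (η 1 j) =
        mixedEmbedding K ((d : K) * rm (cK x) η j) := by
      rw [← map_mul (mixedEmbedding K), ← map_mul (mixedEmbedding K), ← map_add (mixedEmbedding K)]
      congr 1
      unfold rm cK
      ring
    rw [e0, e1, e2, e3, e3, h j, e5]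
  have h4 : nn (d • x) (jo K η * g) = nn (c • y) g := by
    unfold nn
    rw [vecMul_mul', h3]
  unfold Nn
  rw [← h1, ← h2, h4]

lemma Nn_pos {a : 𝓞 K} (ha : a ≠ 0) : 0 < Nn a := by
  unfold Nn
  have : (Algebra.norm ℤ a).natAbs ≠ 0 := by
    rw [Int.natAbs_ne_zero, ne_eq, Algebra.norm_eq_zero_iff]; exact ha
  positivity

/-- the change of the height -/
lemma ht_rel (𝔭 : HeightOneSpectrum (𝓞 K)) {k : ℕ} {η : SL(2, K)} (hη : η ∈ Lk 𝔭.asIdeal k)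
    {x y : Fin 2 → 𝓞 K} (hx : x ≠ 0) (hy : y ≠ 0) {c d : 𝓞 K} (hc : c ≠ 0) (hd : d ≠ 0)
    (h : ∀ j, (c : K) * y j = d * rm (cK x) η j) (g : GG K) :
    ht x (jo K η * g) ≤ ht y g * (pv 𝔭 (cK y) / pv 𝔭 (rm (cK y) η⁻¹)) := by
  have hc' : (c : K) ≠ 0 := by exact_mod_cast hc
  have hd' : (d : K) ≠ 0 := by exact_mod_cast hd
  have h1 := na_rel 𝔭 hη hx hy hc hd h
  have h2 := nn_rel h g
  have hn1 := nn_pos hx (jo K η * g)
  have hn2 := nn_pos hy g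
  have hNc := Nn_pos hc
  have hNd := Nn_pos hd
  have hpc := (pab 𝔭).pos hc'
  have hpd := (pab 𝔭).pos hd'
  have hpx := pv_pos 𝔭 (cK_ne_zero hx)
  have hpy := pv_pos 𝔭 (cK_ne_zero hy)
  have hpr := pv_pos 𝔭 (rm_ne_zero (cK_ne_zero hy) η⁻¹)
  have h3 : pab 𝔭 (d : K) * pv 𝔭 (cK x) = pab 𝔭 (c : K) * pv 𝔭 (rm (cK y) η⁻¹) := by
    rw [← pv_mul, ← pv_mul]
    congr 1
    have e : (fun j => (c : K) * cK y j) = fun j => (d : K) * rm (cK x) η j := funext h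
    have e2 := rm_smul (c : K) (cK y) η⁻¹
    rw [e, rm_smul, rm_inv] at e2
    exact e2
  rw [h3] at h1
  have h4 : Nn d * na x * pv 𝔭 (rm (cK y) η⁻¹) ≤ Nn c * na y * pv 𝔭 (cK y) := by
    have : pab 𝔭 (c : K) * (Nn d * na x * pv 𝔭 (rm (cK y) η⁻¹)) ≤
        pab 𝔭 (c : K) * (Nn c * na y * pv 𝔭 (cK y)) := by linarith
    exact le_of_mul_le_mul_left this hpc
  unfold ht
  rw [div_mul_div_comm, div_le_div_iff₀ hn1 (by positivity)]
  have h5 : Nn c * (na x * (nn y g * pv 𝔭 (rm (cK y) η⁻¹))) ≤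
      Nn c * (na y * pv 𝔭 (cK y) * nn x (jo K η * g)) := by
    calc Nn c * (na x * (nn y g * pv 𝔭 (rm (cK y) η⁻¹)))
        = (Nn c * nn y g) * (na x * pv 𝔭 (rm (cK y) η⁻¹)) := by ring
      _ = nn x (jo K η * g) * (Nn d * na x * pv 𝔭 (rm (cK y) η⁻¹)) := by rw [← h2]; ring
      _ ≤ nn x (jo K η * g) * (Nn c * na y * pv 𝔭 (cK y)) := by gcongr
      _ = _ := by ring
  exact le_of_mul_le_mul_left h5 hNc

lemma ratio_le (𝔭 : HeightOneSpectrum (𝓞 K)) {k : ℕ} {η : SL(2, K)} (hη : η ∈ Lk 𝔭.asIdeal k)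
    {y : Fin 2 → K} (hy : y ≠ 0) : pv 𝔭 y / pv 𝔭 (rm y η⁻¹) ≤ qq 𝔭 ^ k := by
  rw [div_le_iff₀ (pv_pos 𝔭 (rm_ne_zero hy _))]
  exact pv_le_rm 𝔭 (Lk_inv hη) y

lemma le_ratio (𝔭 : HeightOneSpectrum (𝓞 K)) {k : ℕ} {η : SL(2, K)} (hη : η ∈ Lk 𝔭.asIdeal k)
    {y : Fin 2 → K} (hy : y ≠ 0) : 1 ≤ qq 𝔭 ^ k * (pv 𝔭 y / pv 𝔭 (rm y η⁻¹)) := by
  rw [← mul_div_assoc, one_le_div (pv_pos 𝔭 (rm_ne_zero hy _))]
  exact pv_rm_le 𝔭 (Lk_inv hη) y

lemma exists_rel (𝔭 : HeightOneSpectrum (𝓞 K)) {k : ℕ} {η : SL(2, K)} (hη : η ∈ Lk 𝔭.asIdeal k)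
    {x : Fin 2 → 𝓞 K} (hx : x ≠ 0) : ∃ y : Fin 2 → 𝓞 K, y ≠ 0 ∧ ∃ d : 𝓞 K, d ≠ 0 ∧
      ∀ j, (y j : K) = d * rm (cK x) η j := by
  obtain ⟨a, ha, hpa⟩ := exists_pow 𝔭 k
  have hq := qq_pos 𝔭
  have ha0 : (a : K) ≠ 0 := by
    intro h0
    rw [h0, map_zero] at hpa
    have : (0 : ℝ) < (qq 𝔭 ^ k)⁻¹ := by positivity
    linarith
  have : ∀ j, ∃ b : 𝓞 K, (b : K) = a * rm (cK x) η j := by
    intro j
    obtain ⟨b0, -, hb0⟩ := hη 0 j a ha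
    obtain ⟨b1, -, hb1⟩ := hη 1 j a ha
    refine ⟨x 0 * b0 + x 1 * b1, ?_⟩
    rw [cv_add, cv_mul, cv_mul, ← hb0, ← hb1]
    unfold rm cK
    ring
  choose y hy using this
  refine ⟨y, ?_, a, fun h => ha0 (by rw [h]; exact cv_zero), hy⟩
  intro h0
  have h1 := rm_ne_zero (cK_ne_zero hx) η
  apply h1
  funext j
  have h2 := hy j
  rw [h0] at h2
  have h3 : ((0 : 𝓞 K) : K) = a * rm (cK x) η j := h2
  rw [cv_zero] at h3
  rcases mul_eq_zero.1 h3.symm with h4 | h4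
  · exact absurd h4 ha0
  · exact h4

lemma prop_of_dtm {x y : Fin 2 → 𝓞 K} (hx : x ≠ 0) (hy : y ≠ 0) (hd : dtm x y = 0) :
    ∃ a b : 𝓞 K, a ≠ 0 ∧ b ≠ 0 ∧ ∀ j, a * y j = b * x j := by
  have h0 : x 0 * y 1 = x 1 * y 0 := sub_eq_zero.1 hd
  by_cases hx0 : x 0 = 0
  · have hx1 : x 1 ≠ 0 := by
      intro h1
      apply hx
      funext i
      fin_cases i
      · exact hx0
      · exact h1
    rw [hx0, zero_mul] at h0
    have hy0 : y 0 = 0 := by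
      rcases mul_eq_zero.1 h0.symm with h | h
      · exact absurd h hx1
      · exact h
    have hy1 : y 1 ≠ 0 := by
      intro h1
      apply hy
      funext i
      fin_cases i
      · exact hy0
      · exact h1
    refine ⟨x 1, y 1, hx1, hy1, ?_⟩
    intro i
    fin_cases i
    · simp [hx0, hy0]
    · exact mul_comm _ _
  · have hy0 : y 0 ≠ 0 := by
      intro h
      rw [h, mul_zero] at h0
      rcases mul_eq_zero.1 h0 with h1 | h1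
      · exact hx0 h1
      · apply hy
        funext i
        fin_cases i
        · exact h
        · exact h1
    refine ⟨x 0, y 0, hx0, hy0, ?_⟩
    intro i
    fin_cases i
    · exact mul_comm _ _
    · simp only [Fin.mk_one]
      rw [h0, mul_comm]

/-- the highest cusp determines the height -/
lemma ht_le_of_high (𝔭 : HeightOneSpectrum (𝓞 K)) {k : ℕ} {η : SL(2, K)} (hη : η ∈ Lk 𝔭.asIdeal k)
    {x y : Fin 2 → 𝓞 K} (hx : x ≠ 0) (hy : y ≠ 0) {g : GG K} (hg : qq 𝔭 ^ k ≤ ht y g) :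
    ht x (jo K η * g) ≤ ht y g * (pv 𝔭 (cK y) / pv 𝔭 (rm (cK y) η⁻¹)) := by
  have hq := qq_pos 𝔭
  obtain ⟨y', hy', d, hd, hrel⟩ := exists_rel 𝔭 hη hx
  by_cases hdt : dtm y' y = 0
  · obtain ⟨a, b, ha, hb, hab⟩ := prop_of_dtm hy' hy hdt
    refine ht_rel 𝔭 hη hx hy ha (mul_ne_zero hb hd) (fun j => ?_) g
    have h1 := congrArg (fun z : 𝓞 K => (z : K)) (hab j)
    simp only [cv_mul] at h1
    rw [h1, hrel j, cv_mul]
    ring
  · have h1 := ht_rel 𝔭 hη hx hy' one_ne_zero hd (fun j => by rw [cv_one, one_mul]; exact hrel j) g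
    have h2 := ratio_le 𝔭 hη (cK_ne_zero hy')
    have h3 := ht_mul_le hy' hy hdt g
    have h4 := le_ratio 𝔭 hη (cK_ne_zero hy)
    have hp1 := ht_pos hy' g
    have hp2 := ht_pos hy g
    have hqk : (0 : ℝ) < qq 𝔭 ^ k := by positivity
    set r := pv 𝔭 (cK y) / pv 𝔭 (rm (cK y) η⁻¹) with hr
    have h5 : ht x (jo K η * g) ≤ 1 := by
      calc ht x (jo K η * g) ≤ ht y' g * (pv 𝔭 (cK y') / pv 𝔭 (rm (cK y') η⁻¹)) := h1
        _ ≤ ht y' g * qq 𝔭 ^ k := by gcongr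
        _ ≤ ht y' g * ht y g := by gcongr
        _ ≤ 1 := h3
    have hr0 : 0 < r := by
      by_contra hcon
      push Not at hcon
      nlinarith
    calc ht x (jo K η * g) ≤ 1 := h5
      _ ≤ qq 𝔭 ^ k * r := h4
      _ ≤ ht y g * r := by gcongr

/-- from a high cusp of `η g` to a high cusp of `g` -/
lemma exists_high (𝔭 : HeightOneSpectrum (𝓞 K)) {k : ℕ} {η : SL(2, K)} (hη : η ∈ Lk 𝔭.asIdeal k)
    {x : Fin 2 → 𝓞 K} (hx : x ≠ 0) (g : GG K) :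
    ∃ y : Fin 2 → 𝓞 K, y ≠ 0 ∧ ht x (jo K η * g) ≤ qq 𝔭 ^ k * ht y g := by
  obtain ⟨y', hy', d, hd, hrel⟩ := exists_rel 𝔭 hη hx
  refine ⟨y', hy', ?_⟩
  have h1 := ht_rel 𝔭 hη hx hy' one_ne_zero hd (fun j => by rw [cv_one, one_mul]; exact hrel j) g
  have h2 := ratio_le 𝔭 hη (cK_ne_zero hy')
  have hp1 := ht_pos hy' g
  calc ht x (jo K η * g) ≤ ht y' g * (pv 𝔭 (cK y') / pv 𝔭 (rm (cK y') η⁻¹)) := h1
    _ ≤ ht y' g * qq 𝔭 ^ k := by gcongr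
    _ = _ := mul_comm _ _

lemma exists_pow_ratio (𝔭 : HeightOneSpectrum (𝓞 K)) {k : ℕ} {η : SL(2, K)} (hη : η ∈ Lk 𝔭.asIdeal k)
    {y : Fin 2 → K} (hy : y ≠ 0) : ∃ e : ℕ, e ∈ Finset.range (2 * k + 1) ∧
      pv 𝔭 y / pv 𝔭 (rm y η⁻¹) = qq 𝔭 ^ e / qq 𝔭 ^ k := by
  have hq := qq_pos 𝔭
  have hq2 := two_le_qq 𝔭
  obtain ⟨f, hf⟩ := pv_val 𝔭 hy
  obtain ⟨e, he⟩ := pv_val 𝔭 (rm_ne_zero hy η⁻¹)
  have h1 := pv_rm_le 𝔭 (Lk_inv hη) y
  have h2 := pv_le_rm 𝔭 (Lk_inv hη) y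
  rw [hf, he, ← _root_.zpow_natCast, ← zpow_add₀ hq.ne'] at h1 h2
  have h3 : e ≤ k + f := (zpow_le_zpow_iff_right₀ (by linarith)).1 h1
  have h4 : f ≤ k + e := (zpow_le_zpow_iff_right₀ (by linarith)).1 h2
  refine ⟨(k + f - e).toNat, ?_, ?_⟩
  · rw [Finset.mem_range]; omega
  · rw [hf, he, eq_div_iff (by positivity), ← _root_.zpow_natCast, ← _root_.zpow_natCast,
      Int.toNat_of_nonneg (by linarith), ← zpow_sub₀ hq.ne', ← zpow_add₀ hq.ne']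
    congr 1
    ring

/-- the sum of the changes of the height -/
lemma sum_ratio_le (𝔭 : HeightOneSpectrum (𝓞 K)) {k : ℕ} {s : Finset SL(2, K)}
    (h1 : ∀ g ∈ s, g ∈ Lk 𝔭.asIdeal k) (hs : Ineq s) {y : Fin 2 → K} (hy : y ≠ 0) :
    ∑ η ∈ s, pv 𝔭 y / pv 𝔭 (rm y η⁻¹) ≤ 2 * (2 * k + 1) * qq 𝔭 ^ k := by
  classical
  have hq := qq_pos 𝔭
  choose! e he1 he2 using fun (η : SL(2, K)) (hη : η ∈ s) => exists_pow_ratio 𝔭 (h1 η hη) hy
  set z : Fin 2 → K := ![y 1, - y 0] with hz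
  have hz0 : z ≠ 0 := by
    intro h0
    apply hy
    funext j
    have e0 : y 1 = 0 := congrFun h0 0
    have e1 : - y 0 = 0 := congrFun h0 1
    fin_cases j
    · exact neg_eq_zero.1 e1
    · exact e0
  have hzpv : max (pab 𝔭 (z 0)) (pab 𝔭 (z 1)) = pv 𝔭 y := by
    change max (pab 𝔭 (y 1)) (pab 𝔭 (- y 0)) = _
    rw [(pab 𝔭).map_neg, max_comm]
    rfl
  have hez : ∀ η : SL(2, K), ∀ i, pab 𝔭 (Matrix.mulVec η.1 z i) ≤ pv 𝔭 (rm y η⁻¹) := by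
    intro η i
    obtain ⟨g1, g2, g3, g4⟩ := sl_inv η
    have k0 : Matrix.mulVec η.1 z 0 = rm y η⁻¹ 1 := by
      rw [mulVec_two]
      change η 0 0 * y 1 + η 0 1 * (- y 0) = y 0 * η⁻¹ 0 1 + y 1 * η⁻¹ 1 1
      rw [g2, g4]; ring
    have k1 : Matrix.mulVec η.1 z 1 = - rm y η⁻¹ 0 := by
      rw [mulVec_two]
      change η 1 0 * y 1 + η 1 1 * (- y 0) = - (y 0 * η⁻¹ 0 0 + y 1 * η⁻¹ 1 0)
      rw [g1, g3]; ring
    fin_cases i
    · change pab 𝔭 (Matrix.mulVec η.1 z 0) ≤ _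
      rw [k0]; exact le_pv _ _ _
    · change pab 𝔭 (Matrix.mulVec η.1 z 1) ≤ _
      rw [k1, (pab 𝔭).map_neg]; exact le_pv _ _ _
  rw [← Finset.sum_fiberwise_of_maps_to (t := Finset.range (2 * k + 1)) (g := e) he1]
  have hpiece : ∀ j ∈ Finset.range (2 * k + 1),
      ∑ η ∈ s with e η = j, pv 𝔭 y / pv 𝔭 (rm y η⁻¹) ≤ 2 * qq 𝔭 ^ k := by
    intro j _
    have hc : ((s.filter fun η => e η = j).card : ℝ) ≤ 2 * qq 𝔭 ^ k * (qq 𝔭 ^ k / qq 𝔭 ^ j) := by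
      refine loc' 𝔭 (by positivity) hz0 (fun g hg => h1 g (Finset.mem_filter.1 hg).1) ?_ ?_
      · intro g hg g' hg' hgg
        exact hs g (Finset.mem_filter.1 hg).1 g' (Finset.mem_filter.1 hg').1 hgg
      · intro g hg i
        obtain ⟨hg1, hg2⟩ := Finset.mem_filter.1 hg
        refine (hez g i).trans (le_of_eq ?_)
        have h3 := he2 g hg1
        rw [hg2] at h3
        have h4 := pv_pos 𝔭 (rm_ne_zero hy g⁻¹)
        rw [hzpv]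
        rw [div_eq_div_iff h4.ne' (by positivity)] at h3
        rw [div_mul_eq_mul_div, eq_div_iff (by positivity)]
        linarith
    calc ∑ η ∈ s with e η = j, pv 𝔭 y / pv 𝔭 (rm y η⁻¹)
        = ∑ η ∈ s with e η = j, qq 𝔭 ^ j / qq 𝔭 ^ k := by
          refine Finset.sum_congr rfl fun η hη => ?_
          obtain ⟨hg1, hg2⟩ := Finset.mem_filter.1 hη
          rw [he2 η hg1, hg2]
      _ = ((s.filter fun η => e η = j).card : ℝ) * (qq 𝔭 ^ j / qq 𝔭 ^ k) := by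
          rw [Finset.sum_const, nsmul_eq_mul]
      _ ≤ (2 * qq 𝔭 ^ k * (qq 𝔭 ^ k / qq 𝔭 ^ j)) * (qq 𝔭 ^ j / qq 𝔭 ^ k) := by gcongr
      _ = 2 * qq 𝔭 ^ k := by field_simp
  calc _ ≤ ∑ j ∈ Finset.range (2 * k + 1), 2 * qq 𝔭 ^ k := Finset.sum_le_sum hpiece
    _ = _ := by
        rw [Finset.sum_const, Finset.card_range, nsmul_eq_mul]; push_cast; ring

end PP

end Pool.Agent.T2h77
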