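import Pool.Agent.T2h77.Hecke2

/-!
# Abstract Hecke operators on `Γ \ G`: the Schur test
-/

set_option autoImplicit false
set_option linter.unusedSectionVars false

open MeasureTheory Measure
open scoped ENNReal NNReal Pointwise ComplexConjugate

noncomputable section

namespace Pool.Agent.T2h77.An

variable {G : Type} [Group G] [TopologicalSpace G] [IsTopologicalGroup G] [LocallyCompactSpace G]
  [SecondCountableTopology G] [T2Space G] [MeasurableSpace G] [BorelSpace G]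

variable {μ : Measure G} {Γ : Subgroup G} {𝓕 : Set G} {s : Finset G}

/-- symmetry of the averaging operators for nonnegative functions -/
theorem symmAp [μ.IsHaarMeasure] [μ.IsMulRightInvariant] [Countable Γ]
    (h𝓕 : IsFundamentalDomain Γ 𝓕 μ) {B : Set G} (hB : MeasurableSet B)
    (hBi : ∀ h, h⁻¹ ∈ B ↔ h ∈ B) {F F' : G → ℝ≥0∞} (hFm : Measurable F) (hFm' : Measurable F')
    (hF : ∀ γ ∈ Γ, ∀ g, F (γ * g) = F g) (hF' : ∀ γ ∈ Γ, ∀ g, F' (γ * g) = F' g) :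
    ∫⁻ g in 𝓕, Ap μ B F g * F' g ∂μ = ∫⁻ g in 𝓕, F g * Ap μ B F' g ∂μ := by
  have hii : μ.IsInvInvariant := invInvariant μ
  have e1 : ∀ g, Ap μ B F g * F' g = ∫⁻ h in B, F (g * h) * F' g ∂μ := fun g =>
    (lintegral_mul_const _ (hFm.comp (measurable_const_mul g))).symm
  have e2 : ∀ g, F g * Ap μ B F' g = ∫⁻ h in B, F g * F' (g * h) ∂μ := fun g =>
    (lintegral_const_mul _ (hFm'.comp (measurable_const_mul g))).symm
  have m1 : Measurable fun p : G × G => F (p.1 * p.2) * F' p.1 := by fun_prop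
  have m2 : Measurable fun p : G × G => F p.1 * F' (p.1 * p.2) := by fun_prop
  simp only [e1, e2]
  have s1 : ∫⁻ g in 𝓕, ∫⁻ h in B, F (g * h) * F' g ∂μ ∂μ = ∫⁻ h in B, ∫⁻ g in 𝓕, F (g * h) * F' g ∂μ ∂μ :=
    lintegral_lintegral_swap m1.aemeasurable
  have s2 : ∫⁻ g in 𝓕, ∫⁻ h in B, F g * F' (g * h) ∂μ ∂μ = ∫⁻ h in B, ∫⁻ g in 𝓕, F g * F' (g * h) ∂μ ∂μ :=
    lintegral_lintegral_swap m2.aemeasurable
  rw [s1, s2]
  have e3 : ∀ h : G, ∫⁻ g in 𝓕, F (g * h) * F' g ∂μ = ∫⁻ g in 𝓕, F g * F' (g * h⁻¹) ∂μ := by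
    intro h
    have := trans h𝓕 (fun g => F g * F' (g * h⁻¹)) (fun γ hγ g => by
      simp only [mul_assoc, hF γ hγ, hF' γ hγ]) h
    rw [← this]
    simp only [mul_inv_cancel_right]
  simp only [e3]
  rw [← lintegral_indicator hB, ← lintegral_indicator hB, ← lintegral_inv_eq_self (μ := μ)]
  refine lintegral_congr fun h => ?_
  by_cases hh : h ∈ B
  · rw [Set.indicator_of_mem ((hBi h).2 hh), Set.indicator_of_mem hh, inv_inv]
  · rw [Set.indicator_of_notMem (fun h1 => hh ((hBi h).1 h1)), Set.indicator_of_notMem hh]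

/-- Cauchy-Schwarz for finite sums -/
lemma cs_sum {ι : Type} (s : Finset ι) (a w v : ι → ℝ≥0∞) (h : ∀ i ∈ s, a i ^ 2 ≤ w i * v i) :
    (∑ i ∈ s, a i) ^ 2 ≤ (∑ i ∈ s, w i) * ∑ i ∈ s, v i := by
  have h1 : ∀ i ∈ s, a i ≤ w i ^ (1 / 2 : ℝ) * v i ^ (1 / 2 : ℝ) := by
    intro i hi
    have h2 := ENNReal.rpow_le_rpow (h i hi) (show (0 : ℝ) ≤ 1 / 2 by norm_num)
    rw [ENNReal.mul_rpow_of_nonneg _ _ (by norm_num), ← ENNReal.rpow_natCast, ← ENNReal.rpow_mul] at h2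
    norm_num at h2
    simpa using h2
  have h3 := ENNReal.inner_le_Lp_mul_Lq s (fun i => w i ^ (1 / 2 : ℝ)) (fun i => v i ^ (1 / 2 : ℝ))
    Real.HolderConjugate.two_two
  have e : ∀ x : ℝ≥0∞, (x ^ (1 / 2 : ℝ)) ^ (2 : ℝ) = x := fun x => by
    rw [← ENNReal.rpow_mul]; norm_num
  simp only [e] at h3
  calc (∑ i ∈ s, a i) ^ 2 ≤ (∑ i ∈ s, w i ^ (1 / 2 : ℝ) * v i ^ (1 / 2 : ℝ)) ^ 2 := by
        gcongr with i hi
        exact h1 i hi
    _ ≤ ((∑ i ∈ s, w i) ^ (1 / 2 : ℝ) * (∑ i ∈ s, v i) ^ (1 / 2 : ℝ)) ^ 2 := by gcongr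
    _ = _ := by
        rw [mul_pow, ← ENNReal.rpow_natCast, ← ENNReal.rpow_natCast, ← ENNReal.rpow_mul,
          ← ENNReal.rpow_mul]
        norm_num

lemma HP_Ap (F : G → ℝ≥0∞) (B : Set G) (g : G) : HP s (Ap μ B F) g = ∑ η ∈ s, ∫⁻ h in B, F (η * g * h) ∂μ := rfl

lemma Ap_HP [SFinite μ] {F : G → ℝ≥0∞} (hFm : Measurable F) (B : Set G) (g : G) :
    Ap μ B (HP s F) g = ∑ η ∈ s, ∫⁻ h in B, F (η * g * h) ∂μ := by
  unfold Ap HP
  have hm : ∀ η ∈ s, Measurable fun h => F (η * (g * h)) := fun η _ =>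
    (hFm.comp (measurable_const_mul η)).comp (measurable_const_mul g)
  rw [lintegral_finset_sum s hm]
  simp only [mul_assoc]

/-- the Schur test with Hecke operators -/
theorem schurH [μ.IsHaarMeasure] [μ.IsMulRightInvariant] [Countable Γ]
    (h𝓕 : IsFundamentalDomain Γ 𝓕 μ) (hs : HS Γ s) {B : Set G} (hB : MeasurableSet B)
    (hBi : ∀ h, h⁻¹ ∈ B ↔ h ∈ B) {W : G → ℝ≥0∞} (hW : Measurable W)
    (hWi : ∀ γ ∈ Γ, ∀ g, W (γ * g) = W g) {D : Set G} (hD : MeasurableSet D)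
    (hDi : ∀ γ ∈ Γ, ∀ g, γ * g ∈ D ↔ g ∈ D) {Λ : ℝ≥0∞}
    (h1 : ∀ g ∈ D, ∀ η ∈ s, ∀ h ∈ B, W (η * g * h) ≠ 0 ∧ W (η * g * h) ≠ ∞)
    (h2 : ∀ g ∈ D, ∑ η ∈ s, ∫⁻ h in B, W (η * g * h) ∂μ ≤ Λ * W g)
    (h3 : ∀ g, ∑ η ∈ s, ∫⁻ h in B, D.indicator W (η * g * h) ∂μ ≤ Λ * W g)
    (F : G → ℝ≥0∞) (hFm : Measurable F) (hF : ∀ γ ∈ Γ, ∀ g, F (γ * g) = F g) :
    ∫⁻ g in 𝓕 ∩ D, HP s (Ap μ B F) g ^ 2 ∂μ ≤ Λ ^ 2 * ∫⁻ g in 𝓕, F g ^ 2 ∂μ := by
  have hDW : Measurable (D.indicator W) := hW.indicator hD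
  have hDWi : ∀ γ ∈ Γ, ∀ g, D.indicator W (γ * g) = D.indicator W g := by
    intro γ hγ g
    by_cases hg : g ∈ D
    · rw [Set.indicator_of_mem hg, Set.indicator_of_mem ((hDi γ hγ g).2 hg), hWi γ hγ]
    · rw [Set.indicator_of_notMem hg, Set.indicator_of_notMem (fun h => hg ((hDi γ hγ g).1 h))]
  set V : G → ℝ≥0∞ := fun g => F g ^ 2 * (W g)⁻¹ with hV
  have hVm : Measurable V := (hFm.pow_const 2).mul hW.inv
  have hVi : ∀ γ ∈ Γ, ∀ g, V (γ * g) = V g := fun γ hγ g => by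
    simp only [hV, hF γ hγ, hWi γ hγ]
  have hAVm : Measurable (Ap μ B V) := measurable_Ap B hVm
  have hAVi := Ap_inv (μ := μ) hVi B
  -- the pointwise bound
  have hpt : ∀ g ∈ D, HP s (Ap μ B F) g ^ 2 ≤ Λ * (D.indicator W g * HP s (Ap μ B V) g) := by
    intro g hg
    rw [HP_Ap, HP_Ap]
    refine (cs_sum s _ (fun η => ∫⁻ h in B, W (η * g * h) ∂μ) (fun η => ∫⁻ h in B, V (η * g * h) ∂μ) ?_).trans ?_
    · intro η hη
      exact cs_weight (hFm.comp (measurable_const_mul _)) (hW.comp (measurable_const_mul _)) hB (h1 g hg η hη)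
    · rw [Set.indicator_of_mem hg, ← mul_assoc]
      gcongr
      exact h2 g hg
  have hHAm : Measurable fun g => D.indicator W g * HP s (Ap μ B V) g := hDW.mul (measurable_HP hAVm)
  calc ∫⁻ g in 𝓕 ∩ D, HP s (Ap μ B F) g ^ 2 ∂μ
      = ∫⁻ g in 𝓕, D.indicator (fun g => HP s (Ap μ B F) g ^ 2) g ∂μ := by
        rw [lintegral_indicator hD, Measure.restrict_restrict hD, Set.inter_comm]
    _ ≤ ∫⁻ g in 𝓕, Λ * (D.indicator W g * HP s (Ap μ B V) g) ∂μ := by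
        refine lintegral_mono fun g => ?_
        by_cases hg : g ∈ D
        · rw [Set.indicator_of_mem hg]
          exact hpt g hg
        · rw [Set.indicator_of_notMem hg]
          exact bot_le
    _ = Λ * ∫⁻ g in 𝓕, D.indicator W g * HP s (Ap μ B V) g ∂μ := lintegral_const_mul _ hHAm
    _ = Λ * ∫⁻ g in 𝓕, HP s (D.indicator W) g * Ap μ B V g ∂μ := by
        rw [symmP h𝓕 hs hDW hDWi hAVm hAVi]
    _ = Λ * ∫⁻ g in 𝓕, Ap μ B (HP s (D.indicator W)) g * V g ∂μ := by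
        rw [symmAp h𝓕 hB hBi (measurable_HP hDW) hVm (HP_inv hs hDWi) hVi]
    _ ≤ Λ * ∫⁻ g in 𝓕, Λ * F g ^ 2 ∂μ := by
        gcongr Λ * ?_
        refine lintegral_mono fun g => ?_
        rw [Ap_HP hDW]
        calc (∑ η ∈ s, ∫⁻ h in B, D.indicator W (η * g * h) ∂μ) * V g
            ≤ (Λ * W g) * (F g ^ 2 * (W g)⁻¹) := by
              gcongr
              exact h3 g
          _ = Λ * F g ^ 2 * (W g * (W g)⁻¹) := by ring
          _ ≤ Λ * F g ^ 2 * 1 := by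
              gcongr
              exact ENNReal.mul_inv_le_one _
          _ = Λ * F g ^ 2 := mul_one _
    _ = Λ ^ 2 * ∫⁻ g in 𝓕, F g ^ 2 ∂μ := by
        rw [lintegral_const_mul _ (hFm.pow_const 2), ← mul_assoc, sq]

end Pool.Agent.T2h77.An
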