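import Pool.Agent.T2h77.GeoP4
import Pool.Agent.T2h77.Hecke3

/-!
# The Schur test in the cusps with Hecke operators
-/

set_option autoImplicit false
set_option linter.unusedSectionVars false
set_option linter.deprecated false

open NumberField NumberField.mixedEmbedding MeasureTheory Matrix IsDedekindDomain
open scoped MatrixGroups ENNReal

noncomputable section

namespace Pool.Agent.T2h77

namespace PP

open Cnt An

variable {K : Type} [Field K] [NumberField K]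

lemma WW_ne_zero (g : GG K) : WW g ≠ 0 := by
  have hx : (fun _ => 1 : Fin 2 → 𝓞 K) ≠ 0 := fun h => one_ne_zero (congrFun h 0)
  have h1 := le_iSup (fun x : {x : Fin 2 → 𝓞 K // x ≠ 0} => ENNReal.ofReal (ht x.1 g)) ⟨_, hx⟩
  have h2 : 0 < ENNReal.ofReal (ht (fun _ => 1 : Fin 2 → 𝓞 K) g) := ENNReal.ofReal_pos.2 (ht_pos hx g)
  exact (lt_of_lt_of_le h2 h1).ne'

lemma countable_ic (Γ : Subgroup SL(2, K)) : Countable ((ic Γ).map (io K)) := by
  have : Function.Surjective (fun γ : ic Γ =>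
      (⟨io K γ, Subgroup.mem_map_of_mem _ γ.2⟩ : (ic Γ).map (io K))) := by
    rintro ⟨_, γ, hγ, rfl⟩
    exact ⟨⟨γ, hγ⟩, rfl⟩
  exact this.countable

lemma one_le_bd {ρ₀ : ℝ} (h : 1 ≤ ρ₀) : 1 ≤ bd (K := K) (fun _ => ρ₀) := by
  unfold bd
  exact Finset.prod_induction _ (fun x : ℝ => 1 ≤ x) (fun a b ha hb => by nlinarith) le_rfl
    fun w _ => one_le_pow₀ h

/-- the Schur test in the cusps with Hecke operators -/
theorem schur_cuspP [(mu K).IsMulRightInvariant] (𝔭 : HeightOneSpectrum (𝓞 K)) {ρ₀ : ℝ} (hρ₀ : 1 ≤ ρ₀)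
    (k : ℕ) {Y : ℝ} (hY : bd (K := K) (fun _ => ρ₀) * qq 𝔭 ^ (2 * k) ≤ Y) {Γ : Subgroup SL(2, K)}
    {s : Finset SL(2, K)} (hs : IsReps 𝔭.asIdeal Γ k s) {𝓕 : Set (GG K)}
    (h𝓕 : IsFundamentalDomain ((ic Γ).map (io K)) 𝓕 (mu K)) (F : GG K → ℝ≥0∞) (hFm : Measurable F)
    (hF : ∀ γ ∈ (ic Γ).map (io K), ∀ g, F (γ * g) = F g) :
    ∫⁻ g in 𝓕 ∩ DD Y, HP (im s) (Ap (mu K) (ball fun _ => ρ₀) F) g ^ 2 ∂(mu K) ≤
      ENNReal.ofReal ((mu K (ball fun _ => ρ₀)).toReal * bd (K := K) (fun _ => ρ₀) *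
        (2 * (2 * k + 1) * qq 𝔭 ^ k)) ^ 2 * ∫⁻ g in 𝓕, F g ^ 2 ∂(mu K) := by
  classical
  have hcount := countable_ic Γ
  set B : Set (GG K) := ball fun _ => ρ₀ with hB
  set V : ℝ := (mu K B).toReal with hV
  set b : ℝ := bd (K := K) (fun _ => ρ₀) with hb
  have hb1 : 1 ≤ b := one_le_bd hρ₀
  have hq := qq_pos 𝔭
  have hq2 := two_le_qq 𝔭
  have hBfin : mu K B ≠ ∞ := (isCompact_ball _).measure_lt_top.ne
  have hV0 : 0 ≤ V := ENNReal.toReal_nonneg
  have hL : ∀ η ∈ s, η ∈ Lk 𝔭.asIdeal k := fun η hη => (hs.1 η hη).2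
  have hqk : (1 : ℝ) ≤ qq 𝔭 ^ k := one_le_pow₀ (by linarith)
  have hqk2 : qq 𝔭 ^ (2 * k) = qq 𝔭 ^ k * qq 𝔭 ^ k := by rw [two_mul, pow_add]
  rw [hqk2] at hY
  have hY1 : 1 ≤ Y := le_trans
    (one_le_mul_of_one_le_of_one_le hb1 (one_le_mul_of_one_le_of_one_le hqk hqk)) hY
  -- the heights of `g` and `g h`
  have up : ∀ (y : Fin 2 → 𝓞 K), y ≠ 0 → ∀ (g h : GG K), h ∈ B → ht y g ≤ b * ht y (g * h) := by
    intro y hy g h hh
    unfold ht
    rw [← mul_div_assoc, div_le_div_iff₀ (nn_pos hy _) (nn_pos hy _)]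
    have h1 := nn_mul_le (x := y) g hh
    have h2 := na_pos hy
    calc na y * nn y (g * h) ≤ na y * (nn y g * b) := by gcongr
      _ = _ := by ring
  have down : ∀ (y : Fin 2 → 𝓞 K), y ≠ 0 → ∀ (g h : GG K), h ∈ B → ht y (g * h) ≤ b * ht y g := by
    intro y hy g h hh
    have := up y hy (g * h) h⁻¹ ((inv_mem_ball _ _).2 hh)
    rwa [mul_inv_cancel_right] at this
  -- the pointwise bound
  have hpt : ∀ (y : Fin 2 → 𝓞 K), y ≠ 0 → ∀ η ∈ s, ∀ (g h : GG K), h ∈ B → qq 𝔭 ^ k ≤ ht y (g * h) →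
      WW (jo K η * g * h) ≤ ENNReal.ofReal (b * ht y g * (pv 𝔭 (cK y) / pv 𝔭 (rm (cK y) η⁻¹))) := by
    intro y hy η hη g h hh hgh
    refine iSup_le fun x => ENNReal.ofReal_le_ofReal ?_
    rw [mul_assoc]
    refine (ht_le_of_high 𝔭 (hL η hη) x.2 hy hgh).trans ?_
    have h1 := down y hy g h hh
    have h2 : 0 ≤ pv 𝔭 (cK y) / pv 𝔭 (rm (cK y) η⁻¹) := div_nonneg (pv_nonneg _ _) (pv_nonneg _ _)
    gcongr
  -- the sum
  have hsum : ∀ (y : Fin 2 → 𝓞 K), y ≠ 0 → ∀ g : GG K,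
      ∑ η ∈ s, ENNReal.ofReal (b * ht y g * (pv 𝔭 (cK y) / pv 𝔭 (rm (cK y) η⁻¹))) * mu K B ≤
        ENNReal.ofReal (V * b * (2 * (2 * k + 1) * qq 𝔭 ^ k)) * ENNReal.ofReal (ht y g) := by
    intro y hy g
    have h1 := sum_ratio_le 𝔭 hL (reps_ineq hs) (cK_ne_zero hy)
    have hp := ht_pos hy g
    have h0 : ∀ η ∈ s, 0 ≤ b * ht y g * (pv 𝔭 (cK y) / pv 𝔭 (rm (cK y) η⁻¹)) := fun η _ =>
      mul_nonneg (by positivity) (div_nonneg (pv_nonneg _ _) (pv_nonneg _ _))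
    rw [← Finset.sum_mul, ← ENNReal.ofReal_sum_of_nonneg h0, ← Finset.mul_sum,
      ← ENNReal.ofReal_toReal hBfin, ← ENNReal.ofReal_mul (by
        rw [Finset.mul_sum]; exact Finset.sum_nonneg h0), ← ENNReal.ofReal_mul (by positivity)]
    apply ENNReal.ofReal_le_ofReal
    change b * ht y g * _ * V ≤ _
    calc b * ht y g * (∑ η ∈ s, pv 𝔭 (cK y) / pv 𝔭 (rm (cK y) η⁻¹)) * V
        ≤ b * ht y g * (2 * (2 * k + 1) * qq 𝔭 ^ k) * V := by gcongr
      _ = _ := by ring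
  refine schurH h𝓕 (reps_hs hs) (isCompact_ball _).measurableSet (inv_mem_ball _) measurable_WW ?_
    (measurableSet_DD Y) ?_ ?_ ?_ ?_ F hFm hF
  · rintro _ ⟨γ, -, rfl⟩ g
    exact WW_io γ g
  · rintro _ ⟨γ, -, rfl⟩ g
    exact DD_io Y γ g
  · intro g hg x hx h hh
    obtain ⟨y, hy, hgt⟩ := mem_DD.1 hg
    obtain ⟨η, hη, rfl⟩ := mem_im.1 hx
    refine ⟨WW_ne_zero _, ?_⟩
    have h1 := up y hy g h hh
    have h2 : qq 𝔭 ^ k ≤ ht y (g * h) := by
      have : b * qq 𝔭 ^ k ≤ b * ht y (g * h) := by nlinarith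
      exact le_of_mul_le_mul_left this (by linarith)
    exact ne_top_of_le_ne_top ENNReal.ofReal_ne_top (hpt y hy η hη g h hh h2)
  · intro g hg
    obtain ⟨y, hy, hgt⟩ := mem_DD.1 hg
    have hgt1 : 1 < ht y g := lt_of_le_of_lt hY1 hgt
    rw [WW_eq hy hgt1]
    refine le_trans ?_ (hsum y hy g)
    unfold im
    rw [Finset.sum_map]
    refine Finset.sum_le_sum fun η hη => ?_
    change ∫⁻ h in B, WW (jo K η * g * h) ∂(mu K) ≤ _
    rw [← setLIntegral_const]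
    refine setLIntegral_mono' (isCompact_ball _).measurableSet fun h hh => ?_
    have h1 := up y hy g h hh
    have h2 : qq 𝔭 ^ k ≤ ht y (g * h) := by
      have : b * qq 𝔭 ^ k ≤ b * ht y (g * h) := by nlinarith
      exact le_of_mul_le_mul_left this (by linarith)
    exact hpt y hy η hη g h hh h2
  · intro g
    -- a high cusp
    have hfind : ∀ η ∈ s, ∀ h ∈ B, jo K η * g * h ∈ DD Y → ∃ y : Fin 2 → 𝓞 K, y ≠ 0 ∧
        b * qq 𝔭 ^ k < ht y (g * h) ∧ 1 < ht y g := by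
      intro η hη h hh hm
      obtain ⟨x, hx, hgt⟩ := mem_DD.1 hm
      rw [mul_assoc] at hgt
      obtain ⟨y, hy, hyx⟩ := exists_high 𝔭 (hL η hη) hx (g * h)
      have h1 : b * qq 𝔭 ^ k < ht y (g * h) := by
        have : qq 𝔭 ^ k * (b * qq 𝔭 ^ k) < qq 𝔭 ^ k * ht y (g * h) := by nlinarith
        exact lt_of_mul_lt_mul_left this (by linarith)
      refine ⟨y, hy, h1, ?_⟩
      have h2 := down y hy g h hh
      have h3 : b * qq 𝔭 ^ k < b * ht y g := lt_of_lt_of_le h1 h2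
      have h4 : qq 𝔭 ^ k < ht y g := lt_of_mul_lt_mul_left h3 (by linarith)
      linarith
    by_cases hne : ∃ η ∈ s, ∃ h₀ ∈ B, jo K η * g * h₀ ∈ DD Y
    · obtain ⟨η₀, hη₀, h₀, hh₀, hm₀⟩ := hne
      obtain ⟨y, hy, -, hyg⟩ := hfind η₀ hη₀ h₀ hh₀ hm₀
      rw [WW_eq hy hyg]
      refine le_trans ?_ (hsum y hy g)
      unfold im
      rw [Finset.sum_map]
      refine Finset.sum_le_sum fun η hη => ?_
      change ∫⁻ h in B, (DD Y).indicator WW (jo K η * g * h) ∂(mu K) ≤ _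
      rw [← setLIntegral_const]
      refine setLIntegral_mono' (isCompact_ball _).measurableSet fun h hh => ?_
      by_cases hm : jo K η * g * h ∈ DD Y
      · rw [Set.indicator_of_mem hm]
        obtain ⟨y', hy', h1, h2⟩ := hfind η hη h hh hm
        have h3 := ht_eq_of_one_lt hy hy' hyg h2 (g * h)
        refine hpt y hy η hη g h hh ?_
        rw [h3]
        nlinarith
      · rw [Set.indicator_of_notMem hm]
        exact bot_le
    · push Not at hne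
      have : ∑ η ∈ im s, ∫⁻ h in B, (DD Y).indicator WW (η * g * h) ∂(mu K) = 0 := by
        refine Finset.sum_eq_zero fun x hx => ?_
        obtain ⟨η, hη, rfl⟩ := mem_im.1 hx
        rw [← lintegral_zero (μ := (mu K).restrict B)]
        exact setLIntegral_congr_fun (isCompact_ball _).measurableSet fun h hh => by
          rw [Set.indicator_of_notMem (hne η hη h hh)]
      rw [this]
      exact bot_le

end PP

end Pool.Agent.T2h77
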