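import Pool.Agent.T2h77.Hecke

/-!
# Abstract Hecke operators on `Γ \ G`: symmetry for complex functions, the pre-trace inequality
-/

set_option autoImplicit false
set_option linter.unusedSectionVars false

open MeasureTheory Measure
open scoped ENNReal NNReal Pointwise ComplexConjugate

noncomputable section

namespace Pool.Agent.T2h77.An

variable {G : Type} [Group G] [TopologicalSpace G] [IsTopologicalGroup G] [LocallyCompactSpace G]
  [SecondCountableTopology G] [T2Space G] [MeasurableSpace G] [BorelSpace G]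

variable {μ : Measure G} {Γ : Subgroup G} {𝓕 : Set G} {s : Finset G}

/-- the square integral of `HT s f` -/
theorem LI.ht [μ.IsMulLeftInvariant] [Countable Γ]
    (h𝓕 : IsFundamentalDomain Γ 𝓕 μ) (hs : HS Γ s) {f : G → ℂ} (hf : LI μ Γ 𝓕 f) :
    LI μ Γ 𝓕 (HT s f) := by
  refine ⟨continuous_HT hf.cont, HT_inv hs hf.inv, ?_⟩
  set F : G → ℝ≥0∞ := fun g => ‖f g‖ₑ ^ 2 with hF
  have hFm : Measurable F := hf.cont.measurable.enorm.pow_const 2
  have hFi : ∀ γ ∈ Γ, ∀ g, F (γ * g) = F g := fun γ hγ g => by simp only [hF, hf.inv γ hγ]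
  have h1 : ∀ g, ‖HT s f g‖ₑ ^ 2 ≤ (s.card : ℝ≥0∞) * (HP s F g * (fun _ => (1 : ℝ≥0∞)) g) := by
    intro g
    have h2 : ‖HT s f g‖ ^ 2 ≤ s.card * ∑ η ∈ s, ‖f (η * g)‖ ^ 2 := by
      have h3 : ‖HT s f g‖ ≤ ∑ η ∈ s, ‖f (η * g)‖ := norm_sum_le _ _
      calc ‖HT s f g‖ ^ 2 ≤ (∑ η ∈ s, ‖f (η * g)‖) ^ 2 := by gcongr
        _ ≤ s.card * ∑ η ∈ s, ‖f (η * g)‖ ^ 2 := sq_sum_le_card_mul_sum_sq
    rw [enorm_sq_eq, mul_one]
    refine (ENNReal.ofReal_le_ofReal h2).trans ?_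
    rw [ENNReal.ofReal_mul (by positivity), ENNReal.ofReal_natCast,
      ENNReal.ofReal_sum_of_nonneg fun i _ => by positivity]
    gcongr
    unfold HP
    refine le_of_eq (Finset.sum_congr rfl fun η _ => ?_)
    simp only [hF, enorm_sq_eq]
  refine ne_top_of_le_ne_top ?_ (lintegral_mono h1)
  have hm0 : Measurable fun g => HP s F g * (fun _ => (1 : ℝ≥0∞)) g :=
    (measurable_HP hFm).mul measurable_const
  rw [lintegral_const_mul _ hm0,
    symmP h𝓕 hs hFm hFi measurable_const (fun _ _ _ => rfl)]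
  have h4 : ∀ g, F g * HP s (fun _ => (1 : ℝ≥0∞)) g = F g * s.card := fun g => by
    simp [HP]
  simp only [h4]
  rw [lintegral_mul_const _ hFm]
  exact ENNReal.mul_ne_top (ENNReal.natCast_ne_top _) (ENNReal.mul_ne_top hf.fin (ENNReal.natCast_ne_top _))

/-- symmetry for nonnegative real functions -/
theorem symmR [μ.IsMulLeftInvariant] [Countable Γ]
    (h𝓕 : IsFundamentalDomain Γ 𝓕 μ) (hs : HS Γ s) {u v : G → ℝ} (hu : Continuous u) (hv : Continuous v)
    (hu0 : ∀ g, 0 ≤ u g) (hv0 : ∀ g, 0 ≤ v g)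
    (hui : ∀ γ ∈ Γ, ∀ g, u (γ * g) = u g) (hvi : ∀ γ ∈ Γ, ∀ g, v (γ * g) = v g) :
    ∫ g in 𝓕, (∑ η ∈ s, u (η * g)) * v g ∂μ = ∫ g in 𝓕, u g * ∑ η ∈ s, v (η * g) ∂μ := by
  have hcu : Continuous fun g => ∑ η ∈ s, u (η * g) :=
    continuous_finset_sum _ fun η _ => hu.comp (continuous_const.mul continuous_id)
  have hcv : Continuous fun g => ∑ η ∈ s, v (η * g) :=
    continuous_finset_sum _ fun η _ => hv.comp (continuous_const.mul continuous_id)
  rw [integral_eq_lintegral_of_nonneg_ae (.of_forall fun g =>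
      mul_nonneg (Finset.sum_nonneg fun η _ => hu0 _) (hv0 g)) (hcu.mul hv).aestronglyMeasurable,
    integral_eq_lintegral_of_nonneg_ae (.of_forall fun g =>
      mul_nonneg (hu0 g) (Finset.sum_nonneg fun η _ => hv0 _)) (hu.mul hcv).aestronglyMeasurable]
  congr 1
  have h := symmP h𝓕 hs (F := fun g => ENNReal.ofReal (u g)) (F' := fun g => ENNReal.ofReal (v g))
    hu.measurable.ennreal_ofReal (fun γ hγ g => by simp only [hui γ hγ])
    hv.measurable.ennreal_ofReal (fun γ hγ g => by simp only [hvi γ hγ])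
  have e1 : ∀ g, ENNReal.ofReal ((∑ η ∈ s, u (η * g)) * v g) =
      HP s (fun g => ENNReal.ofReal (u g)) g * ENNReal.ofReal (v g) := by
    intro g
    rw [ENNReal.ofReal_mul (Finset.sum_nonneg fun η _ => hu0 _),
      ENNReal.ofReal_sum_of_nonneg fun η _ => hu0 _]
    rfl
  have e2 : ∀ g, ENNReal.ofReal (u g * ∑ η ∈ s, v (η * g)) =
      ENNReal.ofReal (u g) * HP s (fun g => ENNReal.ofReal (v g)) g := by
    intro g
    rw [ENNReal.ofReal_mul (hu0 g), ENNReal.ofReal_sum_of_nonneg fun η _ => hv0 _]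
    rfl
  simp only [e1, e2]
  exact h

/-- the four nonnegative parts of a complex number -/
def pt (k : Fin 4) (z : ℂ) : ℝ := ![max z.re 0, max z.im 0, max (-z.re) 0, max (-z.im) 0] k

lemma pt_nonneg (k : Fin 4) (z : ℂ) : 0 ≤ pt k z := by
  fin_cases k <;> simp [pt]

lemma continuous_pt (k : Fin 4) : Continuous (pt k) := by
  fin_cases k
  · exact Complex.continuous_re.max continuous_const
  · exact Complex.continuous_im.max continuous_const
  · exact Complex.continuous_re.neg.max continuous_const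
  · exact Complex.continuous_im.neg.max continuous_const

lemma pt_le (k : Fin 4) (z : ℂ) : pt k z ≤ ‖z‖ := by
  have h1 := Complex.abs_re_le_norm z
  have h2 := Complex.abs_im_le_norm z
  have h3 := norm_nonneg z
  fin_cases k
  · exact max_le ((le_abs_self _).trans h1) h3
  · exact max_le ((le_abs_self _).trans h2) h3
  · exact max_le ((neg_le_abs _).trans h1) h3
  · exact max_le ((neg_le_abs _).trans h2) h3

lemma sum_pt (z : ℂ) : ∑ k : Fin 4, Complex.I ^ (k : ℕ) * (pt k z : ℂ) = z := by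
  rw [Fin.sum_univ_four]
  have h1 : max z.re 0 - max (-z.re) 0 = z.re := max_zero_sub_max_neg_zero_eq_self _
  have h2 : max z.im 0 - max (-z.im) 0 = z.im := max_zero_sub_max_neg_zero_eq_self _
  have e3 : Complex.I ^ 3 = -Complex.I := Complex.I_pow_three
  change Complex.I ^ 0 * ((max z.re 0 : ℝ) : ℂ) + Complex.I ^ 1 * ((max z.im 0 : ℝ) : ℂ) +
    Complex.I ^ 2 * ((max (-z.re) 0 : ℝ) : ℂ) + Complex.I ^ 3 * ((max (-z.im) 0 : ℝ) : ℂ) = z
  rw [e3, Complex.I_sq]
  calc _ = ((max z.re 0 - max (-z.re) 0 : ℝ) : ℂ) + ((max z.im 0 - max (-z.im) 0 : ℝ) : ℂ) * Complex.I := by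
        push_cast
        ring
    _ = z := by rw [h1, h2, Complex.re_add_im]

lemma LI.part {f : G → ℂ} (hf : LI μ Γ 𝓕 f) (k : Fin 4) : LI μ Γ 𝓕 (fun g => (pt k (f g) : ℂ)) := by
  refine ⟨Complex.continuous_ofReal.comp ((continuous_pt k).comp hf.cont),
    fun γ hγ g => by simp only [hf.inv γ hγ], ?_⟩
  refine ne_top_of_le_ne_top hf.fin (lintegral_mono fun g => ?_)
  gcongr
  rw [← ofReal_norm, ← ofReal_norm]
  apply ENNReal.ofReal_le_ofReal
  rw [Complex.norm_real, Real.norm_of_nonneg (pt_nonneg k _)]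
  exact pt_le k _

/-- the Hecke operators are symmetric -/
theorem symmC [μ.IsMulLeftInvariant] [Countable Γ]
    (h𝓕 : IsFundamentalDomain Γ 𝓕 μ) (hs : HS Γ s) {f f' : G → ℂ}
    (hf : LI μ Γ 𝓕 f) (hf' : LI μ Γ 𝓕 f') :
    ∫ g in 𝓕, conj (HT s f g) * f' g ∂μ = ∫ g in 𝓕, conj (f g) * HT s f' g ∂μ := by
  set u : Fin 4 → G → ℂ := fun k g => (pt k (f g) : ℂ) with hu
  set v : Fin 4 → G → ℂ := fun k g => (pt k (f' g) : ℂ) with hv
  have hfu : ∀ g, f g = ∑ k : Fin 4, Complex.I ^ (k : ℕ) * u k g := fun g => (sum_pt (f g)).symm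
  have hfv : ∀ g, f' g = ∑ k : Fin 4, Complex.I ^ (k : ℕ) * v k g := fun g => (sum_pt (f' g)).symm
  have hHu : ∀ g, HT s f g = ∑ k : Fin 4, Complex.I ^ (k : ℕ) * HT s (u k) g := by
    intro g
    unfold HT
    rw [Finset.sum_congr rfl fun η _ => hfu (η * g), Finset.sum_comm]
    exact Finset.sum_congr rfl fun k _ => by rw [Finset.mul_sum]
  have hHv : ∀ g, HT s f' g = ∑ k : Fin 4, Complex.I ^ (k : ℕ) * HT s (v k) g := by
    intro g
    unfold HT
    rw [Finset.sum_congr rfl fun η _ => hfv (η * g), Finset.sum_comm]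
    exact Finset.sum_congr rfl fun k _ => by rw [Finset.mul_sum]
  have hLu : ∀ k, LI μ Γ 𝓕 (u k) := fun k => hf.part k
  have hLv : ∀ k, LI μ Γ 𝓕 (v k) := fun k => hf'.part k
  set c : Fin 4 → Fin 4 → ℂ := fun k l => conj (Complex.I ^ (k : ℕ)) * Complex.I ^ (l : ℕ) with hc
  have e1 : ∀ g, conj (HT s f g) * f' g = ∑ k, ∑ l, c k l * (conj (HT s (u k) g) * v l g) := by
    intro g
    rw [hHu, hfv, _root_.map_sum, Finset.sum_mul_sum]
    refine Finset.sum_congr rfl fun k _ => Finset.sum_congr rfl fun l _ => ?_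
    rw [hc, map_mul]
    ring
  have e2 : ∀ g, conj (f g) * HT s f' g = ∑ k, ∑ l, c k l * (conj (u k g) * HT s (v l) g) := by
    intro g
    rw [hHv, hfu, _root_.map_sum, Finset.sum_mul_sum]
    refine Finset.sum_congr rfl fun k _ => Finset.sum_congr rfl fun l _ => ?_
    rw [hc, map_mul]
    ring
  have i1 : ∀ k l, Integrable (fun g => c k l * (conj (HT s (u k) g) * v l g)) (μ.restrict 𝓕) :=
    fun k l => (((hLu k).ht h𝓕 hs).integrable_mul (hLv l)).const_mul _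
  have i2 : ∀ k l, Integrable (fun g => c k l * (conj (u k g) * HT s (v l) g)) (μ.restrict 𝓕) :=
    fun k l => ((hLu k).integrable_mul ((hLv l).ht h𝓕 hs)).const_mul _
  simp only [e1, e2]
  rw [integral_finset_sum _ fun k _ => integrable_finset_sum _ fun l _ => i1 k l,
    integral_finset_sum _ fun k _ => integrable_finset_sum _ fun l _ => i2 k l]
  refine Finset.sum_congr rfl fun k _ => ?_
  rw [integral_finset_sum _ fun l _ => i1 k l, integral_finset_sum _ fun l _ => i2 k l]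
  refine Finset.sum_congr rfl fun l _ => ?_
  rw [integral_const_mul, integral_const_mul]
  congr 1
  have hR := symmR h𝓕 hs ((continuous_pt k).comp hf.cont) ((continuous_pt l).comp hf'.cont)
    (fun g => pt_nonneg k _) (fun g => pt_nonneg l _)
    (fun γ hγ g => by simp only [Function.comp, hf.inv γ hγ]) (fun γ hγ g => by simp only [Function.comp, hf'.inv γ hγ])
  have e3 : ∀ g, conj (HT s (u k) g) * v l g =
      (((∑ η ∈ s, (pt k ∘ f) (η * g)) * (pt l ∘ f') g : ℝ) : ℂ) := by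
    intro g
    have : HT s (u k) g = ((∑ η ∈ s, (pt k ∘ f) (η * g) : ℝ) : ℂ) := by
      unfold HT
      push_cast
      rfl
    rw [this, Complex.conj_ofReal, Complex.ofReal_mul]
    rfl
  have e4 : ∀ g, conj (u k g) * HT s (v l) g =
      (((pt k ∘ f) g * ∑ η ∈ s, (pt l ∘ f') (η * g) : ℝ) : ℂ) := by
    intro g
    have : HT s (v l) g = ((∑ η ∈ s, (pt l ∘ f') (η * g) : ℝ) : ℂ) := by
      unfold HT
      push_cast
      rfl
    rw [this, Complex.ofReal_mul]
    congr 1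
    exact Complex.conj_ofReal _
  simp only [e3, e4]
  rw [integral_complex_ofReal, integral_complex_ofReal, hR]

/-- Pointwise bound (the pre-trace inequality with Hecke operators). -/
theorem besselH [μ.IsMulLeftInvariant] [SFinite μ] [Countable Γ]
    (h𝓕 : IsFundamentalDomain Γ 𝓕 μ) (hs : HS Γ s) {B : Set G} (hB : MeasurableSet B) {F : G → ℝ≥0∞}
    (hFm : Measurable F) (hF : ∀ γ ∈ Γ, ∀ g, F (γ * g) = F g) (g : G) :
    HP s (Ap μ B F) g ^ 2 ≤ (∑ η ∈ s, ∑' x : Ss Γ s, kk μ B (g⁻¹ * x * η * g)) * ∫⁻ x in 𝓕, F x ^ 2 ∂μ := by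
  classical
  have hSc : Countable (Ss Γ s) := hs.e1.symm.injective.countable
  set b : G → ℝ≥0∞ := B.indicator 1 with hb
  have hbm : Measurable b := measurable_one.indicator hB
  have hbg : ∀ y : G, Measurable fun x : G => b (g⁻¹ * (y * x)) := fun y =>
    (hbm.comp (measurable_const_mul _)).comp (measurable_const_mul _)
  set P : G → ℝ≥0∞ := fun x => ∑' y : Ss Γ s, b (g⁻¹ * (y * x)) with hP
  have hPm : Measurable P := Measurable.tsum fun y => hbg _
  have hPinv : ∀ γ ∈ Γ, ∀ x, P (γ * x) = P x := by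
    intro γ hγ x
    rw [hP]
    simp only
    rw [← hs.tsum_right (fun y => b (g⁻¹ * (y * x))) hγ]
    refine tsum_congr fun δ => ?_
    rw [mul_assoc (δ : G) γ x]
  have hP2 : ∀ x, P x = ∑ η ∈ s, ∑' γ : Γ, b (g⁻¹ * (η⁻¹ * γ * x)) := fun x =>
    hs.tsum2 (fun y => b (g⁻¹ * (y * x)))
  -- the average as an integral over `Γ \ G`
  have hfold : ∀ (φ : G → ℝ≥0∞), Measurable φ → (∀ γ ∈ Γ, ∀ x, φ (γ * x) = φ x) →
      ∑ η ∈ s, ∫⁻ x, φ x * b (g⁻¹ * (η⁻¹ * x)) ∂μ = ∫⁻ x in 𝓕, φ x * P x ∂μ := by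
    intro φ hφ hφi
    have e1 : ∀ η ∈ s, ∫⁻ x, φ x * b (g⁻¹ * (η⁻¹ * x)) ∂μ =
        ∫⁻ x in 𝓕, φ x * ∑' γ : Γ, b (g⁻¹ * (η⁻¹ * γ * x)) ∂μ := by
      intro η _
      rw [unfold h𝓕 (fun x => φ x * b (g⁻¹ * (η⁻¹ * x))) (hφ.mul (hbg _))]
      refine lintegral_congr fun x => ?_
      rw [← ENNReal.tsum_mul_left]
      refine tsum_congr fun γ => ?_
      rw [hφi γ.1 γ.2, mul_assoc η⁻¹ (γ : G) x]
    have hm3 : ∀ η ∈ s, Measurable fun x => φ x * ∑' γ : Γ, b (g⁻¹ * (η⁻¹ * γ * x)) := fun η _ =>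
      hφ.mul (Measurable.tsum fun γ => hbg _)
    rw [Finset.sum_congr rfl e1, ← lintegral_finset_sum s hm3]
    refine lintegral_congr fun x => ?_
    rw [hP2, Finset.mul_sum]
  have h1 : HP s (Ap μ B F) g = ∫⁻ x in 𝓕, F x * P x ∂μ := by
    rw [← hfold F hFm hF]
    unfold HP
    refine Finset.sum_congr rfl fun η _ => ?_
    unfold Ap
    rw [← lintegral_indicator hB]
    rw [← lintegral_mul_left_eq_self (μ := μ) (fun x => F x * b (g⁻¹ * (η⁻¹ * x))) (η * g)]
    refine lintegral_congr fun h => ?_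
    have : g⁻¹ * (η⁻¹ * (η * g * h)) = h := by group
    rw [this, hb]
    by_cases hh : h ∈ B
    · simp [Set.indicator_of_mem hh]
    · simp [Set.indicator_of_notMem hh]
  -- the square integral of `P`
  have h2 : ∫⁻ x in 𝓕, P x ^ 2 ∂μ = ∑ η ∈ s, ∑' x : Ss Γ s, kk μ B (g⁻¹ * x * η * g) := by
    have e0 : ∫⁻ x in 𝓕, P x ^ 2 ∂μ = ∫⁻ x in 𝓕, P x * P x ∂μ := by simp only [sq]
    rw [e0, ← hfold P hPm hPinv]
    refine Finset.sum_congr rfl fun η _ => ?_
    have e2 : ∀ x, P x * b (g⁻¹ * (η⁻¹ * x)) =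
        ∑' y : Ss Γ s, b (g⁻¹ * (y * x)) * b (g⁻¹ * (η⁻¹ * x)) := fun x => by
      rw [hP]; simp only; rw [ENNReal.tsum_mul_right]
    simp only [e2]
    rw [lintegral_tsum (f := fun (y : Ss Γ s) (x : G) => b (g⁻¹ * (y * x)) * b (g⁻¹ * (η⁻¹ * x)))
      fun y => ((hbg _).mul (hbg _)).aemeasurable]
    refine tsum_congr fun y => ?_
    rw [← lintegral_mul_left_eq_self (μ := μ) _ (η * g)]
    set k : G := g⁻¹ * (y : G) * η * g with hk
    have e3 : ∀ x : G, b (g⁻¹ * ((y : G) * (η * g * x))) * b (g⁻¹ * (η⁻¹ * (η * g * x))) =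
        ((fun x => k * x) ⁻¹' (B ∩ (fun x => k * x) '' B)).indicator 1 x := by
      intro x
      have a1 : g⁻¹ * ((y : G) * (η * g * x)) = k * x := by rw [hk]; group
      have a2 : g⁻¹ * (η⁻¹ * (η * g * x)) = x := by group
      rw [a1, a2]
      have e4 : x ∈ (fun x => k * x) ⁻¹' (B ∩ (fun x => k * x) '' B) ↔ k * x ∈ B ∧ x ∈ B := by
        constructor
        · rintro ⟨hx1, z, hz, hzx⟩
          have : z = x := mul_left_cancel hzx
          exact ⟨hx1, this ▸ hz⟩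
        · rintro ⟨hx1, hx2⟩
          exact ⟨hx1, x, hx2, rfl⟩
      by_cases h1 : k * x ∈ B
      · by_cases h2 : x ∈ B
        · rw [Set.indicator_of_mem (e4.2 ⟨h1, h2⟩), hb, Set.indicator_of_mem h1, Set.indicator_of_mem h2]
          simp
        · rw [Set.indicator_of_notMem (fun h => h2 (e4.1 h).2), hb, Set.indicator_of_notMem h2, mul_zero]
      · rw [Set.indicator_of_notMem (fun h => h1 (e4.1 h).1), hb, Set.indicator_of_notMem h1, zero_mul]
    simp only [e3]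
    have hmeas : MeasurableSet (B ∩ (fun x => k * x) '' B) :=
      hB.inter ((Homeomorph.mulLeft k).measurableEmbedding.measurableSet_image.2 hB)
    rw [lintegral_indicator_one (measurable_const_mul k hmeas), measure_preimage_mul]
    rfl
  rw [h1, ← h2]
  -- Cauchy-Schwarz
  have h3 := ENNReal.lintegral_mul_le_Lp_mul_Lq (μ.restrict 𝓕) (Real.HolderConjugate.two_two)
    hFm.aemeasurable hPm.aemeasurable
  simp only [Pi.mul_apply, ENNReal.rpow_ofNat] at h3
  calc (∫⁻ x in 𝓕, F x * P x ∂μ) ^ 2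
      ≤ ((∫⁻ x in 𝓕, F x ^ 2 ∂μ) ^ (1 / 2 : ℝ) * (∫⁻ x in 𝓕, P x ^ 2 ∂μ) ^ (1 / 2 : ℝ)) ^ 2 := by
        gcongr
    _ = (∫⁻ x in 𝓕, P x ^ 2 ∂μ) * ∫⁻ x in 𝓕, F x ^ 2 ∂μ := by
        rw [mul_pow, ← ENNReal.rpow_natCast, ← ENNReal.rpow_natCast, ← ENNReal.rpow_mul,
          ← ENNReal.rpow_mul]
        norm_num
        rw [mul_comm]

end Pool.Agent.T2h77.An
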