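import Pool.Agent.T2h77.Stm

/-!
# The index lemma over finite principal ideal rings
-/

set_option autoImplicit false

open Matrix
open scoped MatrixGroups

noncomputable section

namespace Pool.Agent.T2h77

namespace Ind

variable {A : Type} [CommRing A]

theorem finSL [Finite A] : Finite SL(2, A) := by
  unfold Matrix.SpecialLinearGroup
  infer_instance

/-! ### The socle -/

/-- every nonzero ideal contains the (nonzero) annihilator of some maximal ideal -/
theorem soc [Finite A] [IsPrincipalIdealRing A] (T : Ideal A) (hT : T ≠ ⊥) :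
    ∃ P : MaximalSpectrum A, Submodule.annihilator P.asIdeal ≠ ⊥ ∧
      Submodule.annihilator P.asIdeal ≤ T := by
  have : Finite (Ideal A) := inferInstance
  have : IsAtomic (Ideal A) := inferInstance
  obtain ⟨T₀, hat, hle⟩ := (IsAtomic.eq_bot_or_exists_atom_le T).resolve_left hT
  obtain ⟨t, ht, ht0⟩ := Submodule.exists_mem_ne_zero_of_ne_bot hat.1
  have hspan : Ideal.span {t} = T₀ := by
    refine (hat.le_iff_eq ?_).1 ?_
    · rwa [Ne, Ideal.span_singleton_eq_bot]
    · rwa [Ideal.span_singleton_le_iff_mem]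
  have hne : Submodule.annihilator (Ideal.span {t}) ≠ ⊤ := by
    rw [Ne, Ideal.eq_top_iff_one, Submodule.mem_annihilator]
    intro h
    exact ht0 (by simpa using h t (Ideal.mem_span_singleton_self t))
  obtain ⟨P, hP, hPle⟩ := Ideal.exists_le_maximal _ hne
  have hPt : ∀ p ∈ P, p * t = 0 := by
    intro p hp
    by_contra hpt
    have h1 : Ideal.span {p * t} = T₀ := by
      refine (hat.le_iff_eq ?_).1 ?_
      · rwa [Ne, Ideal.span_singleton_eq_bot]
      · rw [Ideal.span_singleton_le_iff_mem]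
        exact T₀.mul_mem_left p ht
    rw [← h1] at ht
    obtain ⟨a, ha⟩ := Ideal.mem_span_singleton'.1 ht
    have h2 : (1 - a * p) * t = 0 := by linear_combination -ha
    have h3 : 1 - a * p ∈ P := by
      apply hPle
      rw [Submodule.mem_annihilator]
      intro n hn
      obtain ⟨b, rfl⟩ := Ideal.mem_span_singleton'.1 hn
      rw [smul_eq_mul]
      linear_combination b * h2
    exact hP.ne_top ((Ideal.eq_top_iff_one P).2 (by
      have := P.add_mem h3 (P.mul_mem_left a hp)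
      simpa using this))
  have hta : t ∈ Submodule.annihilator P := by
    rw [Submodule.mem_annihilator]
    intro n hn
    rw [smul_eq_mul, mul_comm]
    exact hPt n hn
  refine ⟨⟨P, hP⟩, ?_, ?_⟩
  · intro h
    apply ht0
    have : t ∈ (⊥ : Ideal A) := by rw [← h]; exact hta
    simpa using this
  · refine le_trans ?_ hle
    obtain ⟨s, hs⟩ := (IsPrincipalIdealRing.principal (Submodule.annihilator P : Ideal A)).principal
    have hs' : (Submodule.annihilator P : Ideal A) = Ideal.span {s} := hs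
    have hsP : ∀ p ∈ P, s * p = 0 := by
      intro p hp
      have : s ∈ Submodule.annihilator P := by
        rw [hs']
        exact Ideal.mem_span_singleton_self s
      exact (Submodule.mem_annihilator.1 this) p hp
    show Submodule.annihilator P ≤ T₀
    rw [hs'] at hta ⊢
    rw [Ideal.span_singleton_le_iff_mem]
    obtain ⟨a, ha⟩ := Ideal.mem_span_singleton'.1 hta
    have haP : a ∉ P := by
      intro haP
      apply ht0
      rw [← ha, mul_comm]
      exact hsP a haP
    obtain ⟨b, i, hi, hb⟩ := hP.exists_inv haP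
    have : s = b * t := by
      have h1 := hsP i hi
      linear_combination s * (-hb) + h1 + b * ha
    rw [this]
    exact T₀.mul_mem_left b ht

/-- a matrix close to given matrices modulo all maximal ideals -/
theorem crt [Finite A] (G : MaximalSpectrum A → SL(2, A)) :
    ∃ g : SL(2, A), ∀ (P : MaximalSpectrum A) (i j : Fin 2), g i j - G P i j ∈ P.asIdeal := by
  have : Finite (MaximalSpectrum A) := inferInstance
  have hI : Pairwise (Function.onFun IsCoprime fun P : MaximalSpectrum A => P.asIdeal) := by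
    intro P Q hPQ
    apply Ideal.isCoprime_of_isMaximal
    intro h
    exact hPQ (MaximalSpectrum.ext h)
  have h1 : ∀ i j : Fin 2, ∃ r : A, ∀ P : MaximalSpectrum A, r - G P i j ∈ P.asIdeal := fun i j =>
    Ideal.exists_forall_sub_mem_ideal hI fun P => G P i j
  choose M hM using h1
  set d := M 0 0 * M 1 1 - M 0 1 * M 1 0 with hd
  have hdP : ∀ P : MaximalSpectrum A, d - 1 ∈ P.asIdeal := by
    intro P
    have h2 : G P 0 0 * G P 1 1 - G P 0 1 * G P 1 0 = 1 := by
      have := (G P).2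
      rwa [Matrix.det_fin_two] at this
    have h3 : d - 1 = (M 0 0 - G P 0 0) * M 1 1 + G P 0 0 * (M 1 1 - G P 1 1) -
        (M 0 1 - G P 0 1) * M 1 0 - G P 0 1 * (M 1 0 - G P 1 0) := by
      rw [hd]
      linear_combination h2
    rw [h3]
    exact P.asIdeal.sub_mem (P.asIdeal.sub_mem (P.asIdeal.add_mem
      (P.asIdeal.mul_mem_right _ (hM 0 0 P)) (P.asIdeal.mul_mem_left _ (hM 1 1 P)))
      (P.asIdeal.mul_mem_right _ (hM 0 1 P))) (P.asIdeal.mul_mem_left _ (hM 1 0 P))
  have hu : IsUnit d := by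
    by_contra hn
    obtain ⟨P, hP, hdP'⟩ := exists_max_ideal_of_mem_nonunits hn
    have := P.sub_mem hdP' (hdP ⟨P, hP⟩)
    exact hP.ne_top ((Ideal.eq_top_iff_one P).2 (by simpa using this))
  obtain ⟨u, hu⟩ := hu
  have huP : ∀ P : MaximalSpectrum A, ((u⁻¹ : Aˣ) : A) - 1 ∈ P.asIdeal := by
    intro P
    have h1 : ((u⁻¹ : Aˣ) : A) - 1 = -((u⁻¹ : Aˣ) : A) * (d - 1) := by
      have := u.inv_mul
      rw [← hu]
      linear_combination this
    rw [h1]
    exact P.asIdeal.mul_mem_left _ (hdP P)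
  refine ⟨⟨!![M 0 0 * ((u⁻¹ : Aˣ) : A), M 0 1; M 1 0 * ((u⁻¹ : Aˣ) : A), M 1 1], ?_⟩, ?_⟩
  · rw [Matrix.det_fin_two_of]
    have := u.inv_mul
    rw [hu] at this
    linear_combination this
  · intro P i j
    have key : ∀ i : Fin 2, M i 0 * ((u⁻¹ : Aˣ) : A) - G P i 0 ∈ P.asIdeal := by
      intro i
      have : M i 0 * ((u⁻¹ : Aˣ) : A) - G P i 0 = (M i 0 - G P i 0) +
          M i 0 * (((u⁻¹ : Aˣ) : A) - 1) := by ring
      rw [this]
      exact P.asIdeal.add_mem (hM i 0 P) (P.asIdeal.mul_mem_left _ (huP P))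
    fin_cases i <;> fin_cases j
    · exact key 0
    · exact hM 0 1 P
    · exact key 1
    · exact hM 1 1 P

/-- conjugates of `nU x` only depend on the matrix modulo the annihilator of `x` -/
theorem conj_congr (P : Ideal A) (x : A) (hx : x ∈ Submodule.annihilator P) (g g' : SL(2, A))
    (h : ∀ i j, g i j - g' i j ∈ P) : g * nU x * g⁻¹ = g' * nU x * g'⁻¹ := by
  have hz : ∀ p ∈ P, x * p = 0 := fun p hp => (Submodule.mem_annihilator.1 hx) p hp
  have h00 := hz _ (h 0 0)
  have h01 := hz _ (h 0 1)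
  have h10 := hz _ (h 1 0)
  have h11 := hz _ (h 1 1)
  have d1 : g 0 0 * g 1 1 - g 0 1 * g 1 0 = 1 := by
    have := g.2
    rwa [Matrix.det_fin_two] at this
  have d2 : g' 0 0 * g' 1 1 - g' 0 1 * g' 1 0 = 1 := by
    have := g'.2
    rwa [Matrix.det_fin_two] at this
  apply Subtype.ext
  have e : ∀ k : SL(2, A), ((k * nU x * k⁻¹ : SL(2, A)) : Matrix (Fin 2) (Fin 2) A) =
      !![k 0 0 * k 1 1 - (k 0 0 * x + k 0 1) * k 1 0, -(k 0 0 * k 0 1) + (k 0 0 * x + k 0 1) * k 0 0;
        k 1 0 * k 1 1 - (k 1 0 * x + k 1 1) * k 1 0, -(k 1 0 * k 0 1) + (k 1 0 * x + k 1 1) * k 0 0] := by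
    intro k
    rw [Matrix.SpecialLinearGroup.coe_mul, Matrix.SpecialLinearGroup.coe_mul,
      Matrix.SpecialLinearGroup.coe_inv, Matrix.adjugate_fin_two]
    ext i j
    fin_cases i <;> fin_cases j <;>
      simp [nU, Matrix.mul_apply, Fin.sum_univ_two] <;> ring
  rw [e, e]
  ext i j
  fin_cases i <;> fin_cases j <;> simp
  · linear_combination d1 - d2 - g 1 0 * h00 - g' 0 0 * h10
  · linear_combination g 0 0 * h00 + g' 0 0 * h00
  · linear_combination (- g 1 0 * h10 - g' 1 0 * h10)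
  · linear_combination d1 - d2 + g 1 0 * h00 + g' 0 0 * h10

/-! ### Eigenfunctions with distinct characters -/

theorem card_le {X V ι : Type} [Finite X] [AddCommGroup V] [Finite V] [Finite ι] (act : V → X → X)
    (F : ι → X → ℂ) (χ : ι → AddChar V ℂ) (hχ : Function.Injective χ)
    (h : ∀ i u x, F i (act u x) = χ i u * F i x) (h0 : ∀ i, ∃ x, F i x ≠ 0) :
    Nat.card ι ≤ Nat.card X := by
  have hlin : LinearIndependent ℂ (fun i => ((χ i : AddChar V ℂ) : V → ℂ)) :=
    (AddChar.linearIndependent V ℂ).comp χ hχ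
  have hF : LinearIndependent ℂ F := by
    rw [linearIndependent_iff'] at hlin ⊢
    intro s g hg i hi
    obtain ⟨x, hx⟩ := h0 i
    have := hlin s (fun j => g j * F j x) (by
      funext u
      have h1 := congrFun hg (act u x)
      simp only [Finset.sum_apply, Pi.smul_apply, smul_eq_mul, h, Pi.zero_apply] at h1 ⊢
      rw [← h1]
      exact Finset.sum_congr rfl fun j _ => by ring) i hi
    exact (mul_eq_zero.1 this).resolve_right hx
  cases nonempty_fintype X
  cases nonempty_fintype ι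
  have := hF.fintype_card_le_finrank
  rw [Module.finrank_fintype_fun_eq_card] at this
  rwa [Nat.card_eq_fintype_card, Nat.card_eq_fintype_card]

theorem nU_mul (x y : A) : nU x * nU y = nU (x + y) := by
  apply Subtype.ext
  rw [Matrix.SpecialLinearGroup.coe_mul]
  ext i j
  fin_cases i <;> fin_cases j <;> simp [nU, Matrix.mul_apply, Fin.sum_univ_two, add_comm]

theorem nU_zero : nU (0 : A) = 1 := by
  apply Subtype.ext
  ext i j
  fin_cases i <;> fin_cases j <;> simp [nU]

theorem nU_inv (x : A) : (nU x)⁻¹ = nU (-x) := by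
  rw [inv_eq_iff_mul_eq_one, nU_mul, add_neg_cancel, nU_zero]

theorem tD_nU (u : Aˣ) (x : A) : nU x * tD u = tD u * nU (((u⁻¹ : Aˣ) : A) ^ 2 * x) := by
  apply Subtype.ext
  rw [Matrix.SpecialLinearGroup.coe_mul, Matrix.SpecialLinearGroup.coe_mul]
  have h := u.mul_inv
  ext i j
  fin_cases i <;> fin_cases j <;> simp [nU, tD, Matrix.mul_apply, Fin.sum_univ_two]
  rw [pow_two, ← mul_assoc, ← mul_assoc, h, one_mul, mul_comm]

/-! ### The index -/

theorem mem_ker_iff (m : Ideal A) (x : SL(2, A)) :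
    x ∈ (rd m).ker ↔ ∀ i j, x i j - (1 : Matrix (Fin 2) (Fin 2) A) i j ∈ m := by
  have h1 : ∀ i j, Ideal.Quotient.mk m ((1 : Matrix (Fin 2) (Fin 2) A) i j) =
      (1 : Matrix (Fin 2) (Fin 2) (A ⧸ m)) i j := by
    intro i j
    rw [Matrix.one_apply, Matrix.one_apply]
    split_ifs
    · exact map_one _
    · exact map_zero _
  simp only [← Ideal.Quotient.eq, h1]
  rw [MonoidHom.mem_ker]
  constructor
  · intro hx i j
    exact congrFun (congrFun (congrArg Subtype.val hx) i) j
  · intro hx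
    apply Subtype.ext
    funext i j
    exact hx i j

theorem nU_mem (m : Ideal A) {x : A} (hx : x ∈ m) : nU x ∈ (rd m).ker := by
  rw [mem_ker_iff]
  intro i j
  fin_cases i <;> fin_cases j <;> simp [nU, hx]

theorem tD_mem (m : Ideal A) {u : Aˣ} (hu : (u : A) - 1 ∈ m) (hu' : ((u⁻¹ : Aˣ) : A) - 1 ∈ m) :
    tD u ∈ (rd m).ker := by
  rw [mem_ker_iff]
  intro i j
  fin_cases i <;> fin_cases j <;> simp [tD, hu, hu']

/-- the units congruent to one modulo `m` -/
def SS (m : Ideal A) : Subgroup Aˣ := (Units.map (Ideal.Quotient.mk m : A →* A ⧸ m)).ker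

theorem mem_SS (m : Ideal A) (u : Aˣ) : u ∈ SS m ↔ (u : A) - 1 ∈ m := by
  rw [SS, MonoidHom.mem_ker, Units.ext_iff, Units.coe_map, Units.val_one]
  show Ideal.Quotient.mk m (u : A) = 1 ↔ _
  rw [← map_one (Ideal.Quotient.mk m), Ideal.Quotient.eq]

theorem card_SS [Finite A] (m : Ideal A) :
    Nat.card Aˣ ≤ Nat.card (SS m) * Nat.card (A ⧸ m) := by
  have : Finite Aˣ := inferInstance
  have : Finite (A ⧸ m) := Quotient.finite _
  have : Finite (A ⧸ m)ˣ := inferInstance
  have h1 : Nat.card Aˣ = Nat.card (Aˣ ⧸ SS m) * Nat.card (SS m) :=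
    Subgroup.card_eq_card_quotient_mul_card_subgroup _
  have h2 : Nat.card (Aˣ ⧸ SS m) ≤ Nat.card (A ⧸ m) := by
    have h3 : Function.Injective (QuotientGroup.kerLift (Units.map (Ideal.Quotient.mk m : A →* A ⧸ m))) :=
      QuotientGroup.kerLift_injective _
    have h4 : Nat.card (Aˣ ⧸ SS m) ≤ Nat.card (A ⧸ m)ˣ := Nat.card_le_card_of_injective _ h3
    exact h4.trans (Nat.card_le_card_of_injective _ Units.val_injective)
  rw [h1, mul_comm]
  exact Nat.mul_le_mul_left _ h2

/-- the number of elements of the kernel -/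
theorem card_ker [Finite A] (m : Ideal A) :
    Nat.card (rd m).ker * Nat.card (SS m) ≤ Nat.card m ^ 4 := by
  have : Finite SL(2, A) := finSL
  have : Finite m := Subtype.finite
  have hcard : Nat.card (Fin 4 → m) = Nat.card m ^ 4 := by
    rw [Nat.card_fun, Nat.card_eq_fintype_card (α := Fin 4), Fintype.card_fin]
  rw [← Nat.card_prod, ← hcard]
  have key : ∀ p : (rd m).ker × SS m, ∀ i j : Fin 2,
      ((p.1 : SL(2, A)) i j * (if j = 0 then ((p.2 : Aˣ) : A) else 1)) -
        (1 : Matrix (Fin 2) (Fin 2) A) i j ∈ m := by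
    intro p i j
    have h1 := (mem_ker_iff m p.1.1).1 p.1.2
    have h2 := (mem_SS m p.2.1).1 p.2.2
    split_ifs with hj
    · have : (p.1 : SL(2, A)) i j * ((p.2 : Aˣ) : A) - (1 : Matrix (Fin 2) (Fin 2) A) i j =
          ((p.1 : SL(2, A)) i j - (1 : Matrix (Fin 2) (Fin 2) A) i j) * ((p.2 : Aˣ) : A) +
            (1 : Matrix (Fin 2) (Fin 2) A) i j * (((p.2 : Aˣ) : A) - 1) := by ring
      rw [this]
      exact m.add_mem (m.mul_mem_right _ (h1 i j)) (m.mul_mem_left _ h2)
    · rw [mul_one]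
      exact h1 i j
  refine Nat.card_le_card_of_injective (fun p => ![⟨_, key p 0 0⟩, ⟨_, key p 0 1⟩, ⟨_, key p 1 0⟩,
    ⟨_, key p 1 1⟩]) ?_
  intro p q hpq
  have e0 := congrArg Subtype.val (congrFun hpq 0)
  have e1 := congrArg Subtype.val (congrFun hpq 1)
  have e2 := congrArg Subtype.val (congrFun hpq 2)
  have e3 := congrArg Subtype.val (congrFun hpq 3)
  simp at e0 e1 e2 e3
  have dp : (p.1 : SL(2, A)) 0 0 * (p.1 : SL(2, A)) 1 1 - (p.1 : SL(2, A)) 0 1 * (p.1 : SL(2, A)) 1 0 = 1 := by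
    have := (p.1 : SL(2, A)).2
    rwa [Matrix.det_fin_two] at this
  have dq : (q.1 : SL(2, A)) 0 0 * (q.1 : SL(2, A)) 1 1 - (q.1 : SL(2, A)) 0 1 * (q.1 : SL(2, A)) 1 0 = 1 := by
    have := (q.1 : SL(2, A)).2
    rwa [Matrix.det_fin_two] at this
  have hu : ((p.2 : Aˣ) : A) = ((q.2 : Aˣ) : A) := by
    rw [e1, e3] at dp
    linear_combination (-((p.2 : Aˣ) : A)) * dp + ((q.2 : Aˣ) : A) * dq +
      (q.1 : SL(2, A)) 1 1 * e0 - (q.1 : SL(2, A)) 0 1 * e2
  have hinv := (p.2 : Aˣ).mul_inv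
  have f0 : (p.1 : SL(2, A)) 0 0 = (q.1 : SL(2, A)) 0 0 := by
    rw [← hu] at e0
    exact (Units.mul_left_inj _).1 e0
  have f2 : (p.1 : SL(2, A)) 1 0 = (q.1 : SL(2, A)) 1 0 := by
    rw [← hu] at e2
    exact (Units.mul_left_inj _).1 e2
  refine Prod.ext ?_ ?_
  · apply Subtype.ext
    apply Subtype.ext
    ext i j
    fin_cases i <;> fin_cases j
    · exact f0
    · exact e1
    · exact f2
    · exact e3
  · apply Subtype.ext
    exact Units.ext hu

theorem card_hom {G H : Type} [AddGroup G] [AddGroup H] [Finite G] (f : G →+ H) :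
    Nat.card G = Nat.card f.range * Nat.card f.ker := by
  rw [AddSubgroup.card_eq_card_quotient_mul_card_addSubgroup f.ker,
    Nat.card_congr (QuotientAddGroup.quotientKerEquivRange f).toEquiv]

theorem card_ann [Finite A] [IsPrincipalIdealRing A] (m : Ideal A) :
    Nat.card (Submodule.annihilator m : Ideal A) = Nat.card (A ⧸ m) := by
  obtain ⟨s, hs⟩ := (IsPrincipalIdealRing.principal m).principal
  have hs' : m = Ideal.span {s} := hs
  have h1 := card_hom (AddMonoidHom.mulRight s : A →+ A)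
  have h2 : Nat.card (AddMonoidHom.mulRight s : A →+ A).range = Nat.card m := by
    refine Nat.card_congr (Equiv.subtypeEquivRight fun x => ?_)
    rw [AddMonoidHom.mem_range, hs', Ideal.mem_span_singleton']
    rfl
  have h3 : Nat.card (AddMonoidHom.mulRight s : A →+ A).ker = Nat.card (Submodule.annihilator m : Ideal A) := by
    refine Nat.card_congr (Equiv.subtypeEquivRight fun x => ?_)
    rw [AddMonoidHom.mem_ker, Submodule.mem_annihilator, hs']
    constructor
    · intro h n hn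
      obtain ⟨b, rfl⟩ := Ideal.mem_span_singleton'.1 hn
      have h' : x * s = 0 := h
      rw [smul_eq_mul]
      linear_combination b * h'
    · intro h
      exact h s (Ideal.mem_span_singleton_self s)
  have h4 := Submodule.card_eq_card_quotient_mul_card (R := A) m
  rw [h2, h3, h4, mul_comm] at h1
  have hpos : 0 < Nat.card m := Nat.card_pos
  exact (Nat.eq_of_mul_eq_mul_left hpos (by linarith)).symm

theorem card_J [Finite A] [IsPrincipalIdealRing A] (m J : Ideal A) (c : ℕ)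
    (hc : Nat.card (J * m : Ideal A) ≤ c) : Nat.card J ≤ c * Nat.card (A ⧸ m) := by
  obtain ⟨s, hs⟩ := (IsPrincipalIdealRing.principal m).principal
  have hs' : m = Ideal.span {s} := hs
  have hsm : s ∈ m := by rw [hs']; exact Ideal.mem_span_singleton_self s
  set f : J →+ A := (AddMonoidHom.mulRight s : A →+ A).comp (J.toAddSubgroup.subtype) with hf
  have hfa : ∀ x : J, f x = (x : A) * s := fun x => rfl
  have : Finite J := Subtype.finite
  rw [card_hom f, ← card_ann m]
  apply Nat.mul_le_mul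
  · refine le_trans ?_ hc
    refine Nat.card_le_card_of_injective (fun x : f.range => (⟨x.1, ?_⟩ : (J * m : Ideal A))) ?_
    · obtain ⟨y, hy⟩ := x.2
      rw [← hy, hfa]
      exact Ideal.mul_mem_mul y.2 hsm
    · intro x y hxy
      exact Subtype.ext (congrArg (fun z : (J * m : Ideal A) => (z : A)) hxy)
  · refine Nat.card_le_card_of_injective
      (fun x : f.ker => (⟨(x.1 : A), ?_⟩ : (Submodule.annihilator m : Ideal A))) ?_
    · rw [Submodule.mem_annihilator, hs']
      intro n hn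
      obtain ⟨b, rfl⟩ := Ideal.mem_span_singleton'.1 hn
      have h' : (x.1 : A) * s = 0 := by
        have := x.2
        rw [AddMonoidHom.mem_ker, hfa] at this
        exact this
      rw [smul_eq_mul]
      linear_combination b * h'
    · intro x y hxy
      exact Subtype.ext (Subtype.ext
        (congrArg (fun z : (Submodule.annihilator m : Ideal A) => (z : A)) hxy))

theorem ne0 {V : Type} [AddCommGroup V] (ψ : AddChar V ℂ) (y : V) : ψ y ≠ 0 := by
  have : ψ y * ψ (-y) = 1 := by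
    rw [← AddChar.map_add_eq_mul, add_neg_cancel, AddChar.map_zero_eq_one]
  exact left_ne_zero_of_mul_eq_one this

/-- the ideal attached to a character of `m` -/
def JJ (m : Ideal A) (ψ : AddChar m ℂ) : Ideal A where
  carrier := {j | ∀ x : m, ψ (j • x) = 1}
  add_mem' := by
    intro a b ha hb x
    rw [add_smul, AddChar.map_add_eq_mul, ha, hb, one_mul]
  zero_mem' := by
    intro x
    rw [zero_smul, AddChar.map_zero_eq_one]
  smul_mem' := by
    intro c a ha x
    rw [smul_eq_mul, mul_comm, mul_smul]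
    exact ha _

theorem mem_JJ (m : Ideal A) (ψ : AddChar m ℂ) (j : A) : j ∈ JJ m ψ ↔ ∀ x : m, ψ (j • x) = 1 :=
  Iff.rfl

/-- the translated character -/
def tw (m : Ideal A) (ψ : AddChar m ℂ) (a : A) : AddChar m ℂ where
  toFun x := ψ (a • x)
  map_zero_eq_one' := by rw [smul_zero, AddChar.map_zero_eq_one]
  map_add_eq_mul' := by
    intro x y
    rw [smul_add, AddChar.map_add_eq_mul]

theorem tw_apply (m : Ideal A) (ψ : AddChar m ℂ) (a : A) (x : m) : tw m ψ a x = ψ (a • x) := rfl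

theorem tw_eq (m : Ideal A) (ψ : AddChar m ℂ) (a b : A) (h : tw m ψ a = tw m ψ b) :
    a - b ∈ JJ m ψ := by
  rw [mem_JJ]
  intro x
  have h1 : ψ (a • x) = ψ (b • x) := by
    rw [← tw_apply, h, tw_apply]
  rw [sub_smul, AddChar.map_sub_eq_div, h1, div_self (ne0 ψ _)]

theorem card_sq [Finite A] (J : Ideal A) (M : ℕ) (hM : Nat.card {u : A ⧸ J // u ^ 2 = 1} ≤ M) :
    Nat.card {u : A // u ^ 2 - 1 ∈ J} ≤ M * Nat.card J := by
  have : Finite (A ⧸ J) := Quotient.finite _
  have : Finite J := Subtype.finite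
  refine le_trans ?_ (Nat.mul_le_mul_right _ hM)
  rw [← Nat.card_prod]
  refine Nat.card_le_card_of_injective (fun u : {u : A // u ^ 2 - 1 ∈ J} =>
    ((⟨Ideal.Quotient.mk J u.1, ?_⟩ : {u : A ⧸ J // u ^ 2 = 1}),
      (⟨u.1 - Quotient.out (Ideal.Quotient.mk J u.1), ?_⟩ : J))) ?_
  · rw [← map_pow, ← map_one (Ideal.Quotient.mk J), Ideal.Quotient.eq]
    exact u.2
  · rw [← Ideal.Quotient.eq]
    exact (Ideal.Quotient.mk_out _).symm
  · intro u v huv
    have h1 := congrArg (fun p => p.1.1) huv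
    have h2 := congrArg (fun p => p.2.1) huv
    simp only at h1 h2
    rw [h1] at h2
    exact Subtype.ext (sub_left_injective h2)

/-- the base point extension of the character to the quotient space -/
theorem exists_f (m : Ideal A) (ψ : AddChar m ℂ) (X : Type) [MulAction (rd m).ker X] (x₀ : X)
    (hψ : ∀ x : m, (⟨nU (x : A), nU_mem m x.2⟩ : (rd m).ker) • x₀ = x₀ → ψ x = 1) :
    ∃ f : X → ℂ, f x₀ ≠ 0 ∧
      ∀ (u : m) (q : X), f ((⟨nU (u : A), nU_mem m u.2⟩ : (rd m).ker) • q) = ψ u * f q := by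
  classical
  set n : m → (rd m).ker := fun u => ⟨nU (u : A), nU_mem m u.2⟩ with hn
  have hadd : ∀ u v : m, n (u + v) = n u * n v := by
    intro u v
    apply Subtype.ext
    show nU ((u + v : m) : A) = nU (u : A) * nU (v : A)
    rw [nU_mul]
    rfl
  have h0 : n 0 = 1 := by
    apply Subtype.ext
    show nU ((0 : m) : A) = 1
    rw [Submodule.coe_zero, nU_zero]
  have hwell : ∀ u v : m, n u • x₀ = n v • x₀ → ψ u = ψ v := by
    intro u v huv
    have h1 : n (u - v) • x₀ = x₀ := by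
      have : u - v = -v + u := by abel
      rw [this, hadd, mul_smul, huv, ← mul_smul, ← hadd, neg_add_cancel, h0, one_smul]
    have h2 := hψ (u - v) h1
    rw [AddChar.map_sub_eq_div] at h2
    exact eq_of_div_eq_one h2
  refine ⟨fun q => if h : ∃ u : m, q = n u • x₀ then ψ (Classical.choose h) else 0, ?_, ?_⟩
  · have h : ∃ u : m, x₀ = n u • x₀ := ⟨0, by rw [h0, one_smul]⟩
    simp only [dif_pos h]
    exact ne0 ψ _
  · intro u q
    show (if h : ∃ v : m, n u • q = n v • x₀ then ψ (Classical.choose h) else 0) =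
      ψ u * (if h : ∃ v : m, q = n v • x₀ then ψ (Classical.choose h) else 0)
    by_cases h : ∃ v : m, q = n v • x₀
    · have h' : ∃ v : m, n u • q = n v • x₀ := by
        obtain ⟨v, hv⟩ := h
        exact ⟨u + v, by rw [hadd, mul_smul, ← hv]⟩
      simp only [dif_pos h, dif_pos h']
      rw [← AddChar.map_add_eq_mul]
      apply hwell
      rw [← Classical.choose_spec h', hadd, mul_smul, ← Classical.choose_spec h]
    · have h' : ¬ ∃ v : m, n u • q = n v • x₀ := by
        rintro ⟨v, hv⟩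
        apply h
        refine ⟨-u + v, ?_⟩
        rw [hadd, mul_smul, ← hv, ← mul_smul, ← hadd, neg_add_cancel, h0, one_smul]
      simp only [dif_neg h, dif_neg h', mul_zero]

theorem card_SS_le [Finite A] (M : ℕ) (hM : ∀ J : Ideal A, Nat.card {u : A ⧸ J // u ^ 2 = 1} ≤ M)
    (m : Ideal A) (ψ : AddChar m ℂ) (X : Type) [Finite X] [MulAction (rd m).ker X] (x₀ : X)
    (hψ : ∀ x : m, (⟨nU (x : A), nU_mem m x.2⟩ : (rd m).ker) • x₀ = x₀ → ψ x = 1) :
    Nat.card (SS m) ≤ Nat.card X * (M * Nat.card (JJ m ψ)) := by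
  classical
  have : Finite m := Subtype.finite
  have : Finite (SS m) := Subtype.finite
  obtain ⟨f, hf0, hf⟩ := exists_f m ψ X x₀ hψ
  set χ : SS m → AddChar m ℂ := fun a => tw m ψ (((a : Aˣ) : A) ^ 2) with hχ
  have : Finite (Set.range χ) := Set.finite_range χ
  have hrep : ∀ k : Set.range χ, ∃ a : SS m, χ a = k := fun k => k.2
  choose rep hrep using hrep
  have hinvm : ∀ a : SS m, (((a : Aˣ)⁻¹ : Aˣ) : A) - 1 ∈ m := fun a =>
    (mem_SS m _).1 ((SS m).inv_mem a.2)
  set t : SS m → (rd m).ker := fun a => ⟨tD (a : Aˣ), tD_mem m ((mem_SS m _).1 a.2) (hinvm a)⟩ with ht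
  have h1 : Nat.card (Set.range χ) ≤ Nat.card X := by
    refine card_le (fun (u : m) (q : X) => (⟨nU (u : A), nU_mem m u.2⟩ : (rd m).ker) • q)
      (fun k q => f (t (rep k) • q)) (fun k => (k : AddChar m ℂ)) Subtype.val_injective ?_ ?_
    · intro k u q
      have h2 : t (rep k) * ⟨nU (u : A), nU_mem m u.2⟩ =
          (⟨nU ((((((rep k : SS m) : Aˣ) : A) ^ 2 • u : m)) : A), nU_mem m (Subtype.mem _)⟩ : (rd m).ker) *
            t (rep k) := by
        apply Subtype.ext
        show tD ((rep k : SS m) : Aˣ) * nU (u : A) =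
          nU ((((((rep k : SS m) : Aˣ) : A) ^ 2 • u : m)) : A) * tD ((rep k : SS m) : Aˣ)
        rw [tD_nU]
        congr 2
        rw [Submodule.coe_smul, smul_eq_mul, ← mul_assoc, ← mul_pow, Units.inv_mul, one_pow, one_mul]
      show f (t (rep k) • (⟨nU (u : A), nU_mem m u.2⟩ : (rd m).ker) • q) = _
      rw [← mul_smul, h2, mul_smul, hf, ← hrep k]
      rfl
    · intro k
      refine ⟨(t (rep k))⁻¹ • x₀, ?_⟩
      show f (t (rep k) • (t (rep k))⁻¹ • x₀) ≠ 0
      rw [smul_inv_smul]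
      exact hf0
  refine le_trans ?_ (Nat.mul_le_mul h1 (card_sq (JJ m ψ) M (hM _)))
  rw [← Nat.card_prod]
  have hdiv : ∀ a : SS m, (((a : Aˣ) * ((rep ⟨χ a, a, rfl⟩ : SS m) : Aˣ)⁻¹ : Aˣ) : A) ^ 2 - 1 ∈ JJ m ψ := by
    intro a
    set b : Aˣ := ((rep ⟨χ a, a, rfl⟩ : SS m) : Aˣ) with hb
    have h3 : ((a : Aˣ) : A) ^ 2 - (b : A) ^ 2 ∈ JJ m ψ := by
      apply tw_eq
      exact (hrep ⟨χ a, a, rfl⟩).symm
    have h4 := b.mul_inv
    have h5 : (((a : Aˣ) * b⁻¹ : Aˣ) : A) ^ 2 - 1 =
        ((b⁻¹ : Aˣ) : A) ^ 2 * (((a : Aˣ) : A) ^ 2 - (b : A) ^ 2) := by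
      rw [Units.val_mul]
      linear_combination ((b : A) * ((b⁻¹ : Aˣ) : A) + 1) * h4
    rw [h5]
    exact Ideal.mul_mem_left _ _ h3
  refine Nat.card_le_card_of_injective (fun a : SS m =>
    ((⟨χ a, a, rfl⟩ : Set.range χ), (⟨_, hdiv a⟩ : {u : A // u ^ 2 - 1 ∈ JJ m ψ}))) ?_
  intro a b hab
  have h6 := congrArg (fun p => p.1.1) hab
  have h7 := congrArg (fun p => p.2.1) hab
  simp only at h6 h7
  have h8 := Units.ext h7
  have h9 : (⟨χ a, a, rfl⟩ : Set.range χ) = ⟨χ b, b, rfl⟩ := Subtype.ext h6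
  rw [h9] at h8
  exact Subtype.ext (mul_right_cancel h8)

theorem main [Finite A] [IsPrincipalIdealRing A] (M c : ℕ)
    (hM : ∀ J : Ideal A, Nat.card {u : A ⧸ J // u ^ 2 = 1} ≤ M)
    (H : Subgroup SL(2, A)) (m : Ideal A) (ψ : AddChar m ℂ)
    (hψ : ∀ x : m, nU (x : A) ∈ H → ψ x = 1)
    (hc : ∀ T : Ideal A, T ≤ m → (∀ x : m, (x : A) ∈ T → ψ x = 1) → Nat.card T ≤ c) :
    Nat.card (H ⊓ (rd m).ker : Subgroup SL(2, A)) * Nat.card (A ⧸ m) * Nat.card Aˣ ^ 2 ≤
      M * c * Nat.card A ^ 4 := by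
  have : Finite SL(2, A) := finSL
  have : Finite m := Subtype.finite
  set L : Subgroup (rd m).ker := H.subgroupOf (rd m).ker with hL
  have e1 : Nat.card (rd m).ker = Nat.card ((rd m).ker ⧸ L) * Nat.card L :=
    Subgroup.card_eq_card_quotient_mul_card_subgroup _
  have e2 : Nat.card L = Nat.card (H ⊓ (rd m).ker : Subgroup SL(2, A)) := by
    refine Nat.card_congr ⟨fun x => ⟨x.1.1, x.2, x.1.2⟩, fun x => ⟨⟨x.1, x.2.2⟩, x.2.1⟩, ?_, ?_⟩
    · intro x
      rfl
    · intro x
      rfl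
  have e3 := card_SS_le M hM m ψ ((rd m).ker ⧸ L) ((1 : (rd m).ker) : (rd m).ker ⧸ L) (by
    intro x hx
    apply hψ
    have h1 : (((⟨nU (x : A), nU_mem m x.2⟩ : (rd m).ker) * 1 : (rd m).ker) : (rd m).ker ⧸ L) =
        ((1 : (rd m).ker) : (rd m).ker ⧸ L) := hx
    rw [mul_one, eq_comm, QuotientGroup.eq, inv_one, one_mul] at h1
    exact h1)
  have e4 : Nat.card (JJ m ψ) ≤ c * Nat.card (A ⧸ m) := by
    apply card_J
    refine hc (JJ m ψ * m) (Ideal.mul_le.2 fun r _ s hs => m.mul_mem_left r hs) ?_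
    intro x hx
    have h2 : ∀ y ∈ (JJ m ψ * m : Ideal A), ∃ hy : y ∈ m, ψ ⟨y, hy⟩ = 1 := by
      intro y hy
      refine Submodule.mul_induction_on hy ?_ ?_
      · intro j hj n hn
        exact ⟨m.mul_mem_left j hn, hj ⟨n, hn⟩⟩
      · rintro y z ⟨hy, hy'⟩ ⟨hz, hz'⟩
        refine ⟨m.add_mem hy hz, ?_⟩
        have h3 : (⟨y + z, m.add_mem hy hz⟩ : m) = ⟨y, hy⟩ + ⟨z, hz⟩ := rfl
        rw [h3, AddChar.map_add_eq_mul, hy', hz', one_mul]
    obtain ⟨hy, hy'⟩ := h2 x hx
    exact hy'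
  have e5 := card_ker m
  have e6 := card_SS m
  have e7 := Submodule.card_eq_card_quotient_mul_card (R := A) m
  rw [e2] at e1
  generalize Nat.card (H ⊓ (rd m).ker : Subgroup SL(2, A)) = h at *
  generalize Nat.card ((rd m).ker ⧸ L) = X at *
  generalize Nat.card (rd m).ker = g at *
  generalize Nat.card (SS m) = s at *
  generalize Nat.card (JJ m ψ) = J at *
  generalize Nat.card (A ⧸ m) = q at *
  generalize Nat.card m = μ at *
  generalize Nat.card Aˣ = U at *
  generalize Nat.card A = a at *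
  subst e1
  subst e7
  calc h * q * U ^ 2 ≤ h * q * (s * q) ^ 2 := by gcongr
    _ = h * q ^ 3 * s * s := by ring
    _ ≤ h * q ^ 3 * s * (X * (M * (c * q))) := by gcongr; exact e3.trans (by gcongr)
    _ = M * c * q ^ 4 * (X * h * s) := by ring
    _ ≤ M * c * q ^ 4 * μ ^ 4 := by gcongr
    _ = M * c * (μ * q) ^ 4 := by ring

end Ind

theorem index : S_index := by
  intro A _ _ _ M c hM hm H hH m
  have : Finite SL(2, A) := Ind.finSL
  -- one matrix for all ideals
  have h1 : ∀ P : MaximalSpectrum A, ∃ g : SL(2, A), Submodule.annihilator P.asIdeal ≠ ⊥ →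
      ∃ x ∈ Submodule.annihilator P.asIdeal, g * nU x * g⁻¹ ∉ H := by
    intro P
    by_cases h : Submodule.annihilator P.asIdeal = ⊥
    · exact ⟨1, fun h' => absurd h h'⟩
    · obtain ⟨g, x, hx, hgx⟩ := hH _ h
      exact ⟨g, fun _ => ⟨x, hx, hgx⟩⟩
  choose G hG using h1
  obtain ⟨g, hg⟩ := Ind.crt G
  have h2 : ∀ T : Ideal A, T ≠ ⊥ → ∃ x ∈ T, g * nU x * g⁻¹ ∉ H := by
    intro T hT
    obtain ⟨P, hP, hPT⟩ := Ind.soc T hT
    obtain ⟨x, hx, hgx⟩ := hG P hP
    refine ⟨x, hPT hx, ?_⟩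
    rwa [Ind.conj_congr P.asIdeal x hx g (G P) (hg P)]
  set H' : Subgroup SL(2, A) := H.comap (MulAut.conj g).toMonoidHom with hH'
  have hmem : ∀ x, x ∈ H' ↔ g * x * g⁻¹ ∈ H := fun x => Iff.rfl
  set B : AddSubgroup A :=
    { carrier := {x | nU x ∈ H'}
      add_mem' := by
        intro x y hx hy
        show nU (x + y) ∈ H'
        rw [← Ind.nU_mul]
        exact H'.mul_mem hx hy
      zero_mem' := by
        show nU (0 : A) ∈ H'
        rw [Ind.nU_zero]
        exact H'.one_mem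
      neg_mem' := by
        intro x hx
        show nU (-x) ∈ H'
        rw [← Ind.nU_inv]
        exact H'.inv_mem hx } with hB
  obtain ⟨ψ, hψ, hc⟩ := hm m B (fun T hT _ => by
    obtain ⟨x, hx, hgx⟩ := h2 T hT
    exact ⟨x, hx, hgx⟩)
  have h3 := Ind.main M c hM H' m ψ (fun x hx => hψ x hx) hc
  have h4 : Nat.card (H ⊓ (rd m).ker : Subgroup SL(2, A)) =
      Nat.card (H' ⊓ (rd m).ker : Subgroup SL(2, A)) := by
    have hn : ∀ x : SL(2, A), x ∈ (rd m).ker ↔ g * x * g⁻¹ ∈ (rd m).ker := by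
      intro x
      refine ⟨fun h => (MonoidHom.normal_ker (rd m)).conj_mem x h g, fun h => ?_⟩
      have := (MonoidHom.normal_ker (rd m)).conj_mem _ h g⁻¹
      simpa [mul_assoc] using this
    refine (Nat.card_congr (Equiv.subtypeEquiv (MulAut.conj g).toEquiv fun x => ?_)).symm
    constructor
    · rintro ⟨hx1, hx2⟩
      exact ⟨hx1, (hn x).1 hx2⟩
    · rintro ⟨hx1, hx2⟩
      exact ⟨hx1, (hn x).2 hx2⟩
  rw [h4]
  exact h3

end Pool.Agent.T2h77
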