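import Pool.Agent.T2h77.Stm

/-!
# Reduction theory, first part: homomorphisms to commutative groups, Minkowski's theorem
-/

set_option autoImplicit false

open NumberField NumberField.mixedEmbedding MeasureTheory Matrix
open scoped MatrixGroups ENNReal

noncomputable section

namespace Pool.Agent.T2h77

variable {K : Type} [Field K] [NumberField K]

/-- the componentwise inverse in the mixed space -/
def miv (z : mixedSpace K) : mixedSpace K := (fun w => (z.1 w)⁻¹, fun w => (z.2 w)⁻¹)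

lemma mul_miv (z : mixedSpace K) (h1 : ∀ w, z.1 w ≠ 0) (h2 : ∀ w, z.2 w ≠ 0) : z * miv z = 1 := by
  refine Prod.ext (funext fun w => ?_) (funext fun w => ?_)
  · exact mul_inv_cancel₀ (h1 w)
  · exact mul_inv_cancel₀ (h2 w)

/-- a unit from nonvanishing components -/
def muni (z : mixedSpace K) (h1 : ∀ w, z.1 w ≠ 0) (h2 : ∀ w, z.2 w ≠ 0) : (mixedSpace K)ˣ :=
  ⟨z, miv z, mul_miv z h1 h2, by rw [mul_comm]; exact mul_miv z h1 h2⟩

section gen

variable {A : Type} [CommRing A]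

@[simp] lemma coe_nU (x : A) : ((nU x : SL(2, A)) : Matrix (Fin 2) (Fin 2) A) = !![1, x; 0, 1] := rfl

@[simp] lemma coe_nL (x : A) : ((nL x : SL(2, A)) : Matrix (Fin 2) (Fin 2) A) = !![1, 0; x, 1] := rfl

@[simp] lemma coe_tD (u : Aˣ) :
    ((tD u : SL(2, A)) : Matrix (Fin 2) (Fin 2) A) = !![(u : A), 0; 0, ((u⁻¹ : Aˣ) : A)] := rfl

lemma nU_mul (x y : A) : nU x * nU y = nU (x + y) := by
  apply Subtype.ext
  simp only [Matrix.SpecialLinearGroup.coe_mul, coe_nU, Matrix.mul_fin_two]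
  congr! 3 <;> ring_nf

lemma nL_mul (x y : A) : nL x * nL y = nL (x + y) := by
  apply Subtype.ext
  simp only [Matrix.SpecialLinearGroup.coe_mul, coe_nL, Matrix.mul_fin_two]
  congr! 3 <;> ring_nf

lemma mat_ext {a b c d a' b' c' d' : A} (h1 : a = a') (h2 : b = b') (h3 : c = c') (h4 : d = d') :
    !![a, b; c, d] = !![a', b'; c', d'] := by rw [h1, h2, h3, h4]

lemma tD_nU (u : Aˣ) (x : A) : tD u * nU x = nU ((u : A) * x * u) * tD u := by
  have h : (u : A) * ((u⁻¹ : Aˣ) : A) = 1 := by simp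
  apply Subtype.ext
  simp only [Matrix.SpecialLinearGroup.coe_mul, coe_nU, coe_tD, Matrix.mul_fin_two]
  refine mat_ext (by ring) ?_ (by ring) (by ring)
  linear_combination (-(u : A) * x) * h

lemma tD_nL (u : Aˣ) (x : A) : nL x * tD u = tD u * nL ((u : A) * x * u) := by
  have h : (u : A) * ((u⁻¹ : Aˣ) : A) = 1 := by simp
  apply Subtype.ext
  simp only [Matrix.SpecialLinearGroup.coe_mul, coe_nL, coe_tD, Matrix.mul_fin_two]
  refine mat_ext (by ring) (by ring) ?_ (by ring)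
  linear_combination (-(u : A) * x) * h

lemma tD_eq (u : Aˣ) : tD u =
    nU (u : A) * nL (-((u⁻¹ : Aˣ) : A)) * nU (u : A) * (nU (-1) * nL 1 * nU (-1)) := by
  have h : (u : A) * ((u⁻¹ : Aˣ) : A) = 1 := by simp
  apply Subtype.ext
  simp only [Matrix.SpecialLinearGroup.coe_mul, coe_nU, coe_nL, coe_tD, Matrix.mul_fin_two]
  refine mat_ext ?_ ?_ ?_ ?_
  · linear_combination (u : A) * h
  · linear_combination (-1 : A) * h
  · linear_combination h
  · ring

lemma ldu (g : SL(2, A)) (u : Aˣ) (h : g 0 0 = (u : A)) :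
    g = nL (g 1 0 * ((u⁻¹ : Aˣ) : A)) * tD u * nU (((u⁻¹ : Aˣ) : A) * g 0 1) := by
  have hu : (u : A) * ((u⁻¹ : Aˣ) : A) = 1 := by simp
  have hd : g 0 0 * g 1 1 - g 0 1 * g 1 0 = 1 := by
    have := g.2
    rwa [Matrix.det_fin_two] at this
  rw [h] at hd
  apply Subtype.ext
  simp only [Matrix.SpecialLinearGroup.coe_mul, coe_nU, coe_nL, coe_tD, Matrix.mul_fin_two]
  refine (Matrix.eta_fin_two _).trans (mat_ext ?_ ?_ ?_ ?_)
  · rw [show (g : Matrix (Fin 2) (Fin 2) A) 0 0 = (u : A) from h]; ring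
  · linear_combination (-(g 0 1)) * hu
  · linear_combination (-(g 1 0)) * hu
  · linear_combination ((u⁻¹ : Aˣ) : A) * hd - (g 1 1 + ((u⁻¹ : Aˣ) : A) * g 0 1 * g 1 0) * hu

end gen

/-- The group `SL₂(K ⊗ ℝ)` has no nontrivial homomorphism to a commutative group. -/
theorem hom_trivial {M : Type} [CommGroup M] (Φ : GG K →* M) (g : GG K) : Φ g = 1 := by
  have h2 : ((algebraMap ℝ (mixedSpace K) 2) * (algebraMap ℝ (mixedSpace K) (1 / 2))) = 1 := by
    rw [← map_mul]; norm_num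
  rw [map_ofNat] at h2
  obtain ⟨u, hu⟩ : ∃ u : (mixedSpace K)ˣ, (u : mixedSpace K) = 2 :=
    ⟨⟨2, algebraMap ℝ (mixedSpace K) (1 / 2), h2, by rw [mul_comm]; exact h2⟩, rfl⟩
  have h3 : ∀ x : mixedSpace K, ∃ s : mixedSpace K, x = 3 * s := fun x =>
    ⟨algebraMap ℝ (mixedSpace K) (1 / 3) * x, by
      rw [← mul_assoc]
      have : (3 : mixedSpace K) * (algebraMap ℝ (mixedSpace K) (1 / 3)) = 1 := by
        rw [← map_ofNat (algebraMap ℝ (mixedSpace K)) 3, ← map_mul]
        norm_num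
      rw [this, one_mul]⟩
  have hU : ∀ x : mixedSpace K, Φ (nU x) = 1 := by
    intro x
    obtain ⟨s, rfl⟩ := h3 x
    have h := congrArg Φ (tD_nU u s)
    rw [map_mul, map_mul, hu, show (2 : mixedSpace K) * s * 2 = 3 * s + s by ring, ← nU_mul,
      map_mul] at h
    have h4 : Φ (nU (3 * s)) * (Φ (nU s) * Φ (tD u)) = Φ (nU s) * Φ (tD u) := by
      rw [← mul_assoc, ← h, mul_comm]
    exact mul_eq_right.1 h4
  have hL : ∀ x : mixedSpace K, Φ (nL x) = 1 := by
    intro x
    obtain ⟨s, rfl⟩ := h3 x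
    have h := congrArg Φ (tD_nL u s)
    rw [map_mul, map_mul, hu, show (2 : mixedSpace K) * s * 2 = 3 * s + s by ring, ← nL_mul,
      map_mul] at h
    have h4 : Φ (nL (3 * s)) * (Φ (nL s) * Φ (tD u)) = Φ (nL s) * Φ (tD u) := by
      rw [← mul_assoc, mul_comm, ← h, mul_comm]
    exact mul_eq_right.1 h4
  classical
  have hd : g 0 0 * g 1 1 - g 0 1 * g 1 0 = 1 := by
    have := g.2
    rwa [Matrix.det_fin_two] at this
  obtain ⟨x, hx⟩ : ∃ x : mixedSpace K, x =
    (fun w => if (g 0 0).1 w = 0 then 1 else 0, fun w => if (g 0 0).2 w = 0 then 1 else 0) :=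
    ⟨_, rfl⟩
  have h1 : ∀ w, ((nU x * g) 0 0).1 w ≠ 0 := by
    intro w
    have h5 : (nU x * g) 0 0 = g 0 0 + x * g 1 0 := by
      simp [Matrix.mul_apply, Fin.sum_univ_two]
    have h6 := congrArg (fun z : mixedSpace K => z.1 w) hd
    simp only [Prod.fst_sub, Prod.fst_mul, Pi.sub_apply, Pi.mul_apply, Prod.fst_one,
      Pi.one_apply] at h6
    rw [h5]
    simp only [Prod.fst_add, Prod.fst_mul, Pi.add_apply, Pi.mul_apply, hx]
    split_ifs with h7
    · intro h8
      rw [h7] at h6 h8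
      rw [zero_add, one_mul] at h8
      rw [h8] at h6
      simp at h6
    · simpa using h7
  have h1' : ∀ w, ((nU x * g) 0 0).2 w ≠ 0 := by
    intro w
    have h5 : (nU x * g) 0 0 = g 0 0 + x * g 1 0 := by
      simp [Matrix.mul_apply, Fin.sum_univ_two]
    have h6 := congrArg (fun z : mixedSpace K => z.2 w) hd
    simp only [Prod.snd_sub, Prod.snd_mul, Pi.sub_apply, Pi.mul_apply, Prod.snd_one,
      Pi.one_apply] at h6
    rw [h5]
    simp only [Prod.snd_add, Prod.snd_mul, Pi.add_apply, Pi.mul_apply, hx]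
    split_ifs with h7
    · intro h8
      rw [h7] at h6 h8
      rw [zero_add, one_mul] at h8
      rw [h8] at h6
      simp at h6
    · simpa using h7
  have h9 := ldu (nU x * g) (muni _ h1 h1') rfl
  have h10 : Φ (nU x * g) = 1 := by
    rw [h9, map_mul, map_mul, hL, hU, tD_eq]
    simp only [map_mul, hL, hU, mul_one]
  rwa [map_mul, hU, one_mul] at h10

end Pool.Agent.T2h77
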