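import Pool.Agent.T2h77.Red0

/-!
# Reduction theory, second part: Minkowski's theorem for the lattices `𝓞 K ^ 2 g`
-/

set_option autoImplicit false

open NumberField NumberField.mixedEmbedding MeasureTheory Matrix
open scoped MatrixGroups ENNReal

noncomputable section

namespace Pool.Agent.T2h77

variable {K : Type} [Field K] [NumberField K]

/-- right multiplication by `g` on row vectors -/
def rho (g : GG K) : (Fin 2 → mixedSpace K) →ₗ[ℝ] (Fin 2 → mixedSpace K) where
  toFun z := Matrix.vecMul z g.1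
  map_add' a b := Matrix.add_vecMul g.1 a b
  map_smul' c z := Matrix.smul_vecMul c z g.1

lemma rho_apply (g : GG K) (z : Fin 2 → mixedSpace K) : rho g z = Matrix.vecMul z g.1 := rfl

lemma rho_mul (g h : GG K) : rho (g * h) = (rho h).comp (rho g) := by
  refine LinearMap.ext fun z => ?_
  simp only [LinearMap.comp_apply, rho_apply, Matrix.SpecialLinearGroup.coe_mul,
    Matrix.vecMul_vecMul]

lemma rho_one : rho (1 : GG K) = LinearMap.id := by
  refine LinearMap.ext fun z => ?_
  simp only [rho_apply, Matrix.SpecialLinearGroup.coe_one, Matrix.vecMul_one, LinearMap.id_apply]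

/-- the determinant of `rho g` -/
def rdet : GG K →* ℝ where
  toFun g := LinearMap.det (rho g)
  map_one' := by rw [rho_one, LinearMap.det_id]
  map_mul' g h := by rw [rho_mul, LinearMap.det_comp, mul_comm]

lemma det_rho (g : GG K) : LinearMap.det (rho g) = 1 := by
  have h := hom_trivial (rdet (K := K)).toHomUnits g
  have h1 := congrArg (fun u : ℝˣ => (u : ℝ)) h
  exact h1

variable (K) in
/-- the real basis of `(K ⊗ ℝ)²` given by a basis of `𝓞 K` -/
def bb : Module.Basis (Σ _ : Fin 2, Module.Free.ChooseBasisIndex ℤ (𝓞 K)) ℝ (Fin 2 → mixedSpace K) :=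
  Pi.basis fun _ : Fin 2 => latticeBasis K

lemma emb_add (x y : Fin 2 → 𝓞 K) : emb K (x + y) = emb K x + emb K y := by
  funext i
  simp [emb]

lemma mem_emb {z : Fin 2 → mixedSpace K} (hz : z ∈ Submodule.span ℤ (Set.range (bb K))) :
    ∃ x : Fin 2 → 𝓞 K, emb K x = z := by
  induction hz using Submodule.span_induction with
  | mem z hz =>
    obtain ⟨⟨i, j⟩, rfl⟩ := hz
    refine ⟨Pi.single i (RingOfIntegers.basis K j), ?_⟩
    funext k
    simp only [bb, Pi.basis_apply, emb]
    by_cases h : k = i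
    · subst h
      rw [Pi.single_eq_same]
      simp [latticeBasis_apply, integralBasis_apply]
    · rw [Pi.single_eq_of_ne h, Pi.single_eq_of_ne h]
      simp
  | zero => exact ⟨0, by funext i; simp [emb]⟩
  | add x y _ _ hx hy =>
    obtain ⟨a, rfl⟩ := hx
    obtain ⟨b, rfl⟩ := hy
    exact ⟨a + b, emb_add a b⟩
  | smul n x _ hx =>
    obtain ⟨a, rfl⟩ := hx
    exact ⟨n • a, by funext i; simp [emb]⟩

open scoped Classical in
lemma np_le_norm (w : InfinitePlace K) (z : mixedSpace K) : normAtPlace w z ≤ ‖z‖ := by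
  rw [norm_eq_sup'_normAtPlace]
  exact Finset.le_sup' (fun w => normAtPlace w z) (Finset.mem_univ w)

open scoped Classical in
/-- Minkowski's theorem: a constant `c` such that for every `g` there is a nonzero vector
`x ∈ 𝓞 K ^ 2` with `‖x g‖ ≤ c`. -/
theorem exists_small (K : Type) [Field K] [NumberField K] : ∃ c : ℝ, 0 < c ∧
    ∀ g : GG K, ∃ x : Fin 2 → 𝓞 K, x ≠ 0 ∧
      ∀ w i, normAtPlace w (Matrix.vecMul (emb K x) g.1 i) ≤ c := by
  let _ : MeasurableSpace (Fin 2 → mixedSpace K) := borel _
  have : BorelSpace (Fin 2 → mixedSpace K) := ⟨rfl⟩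
  have : Countable (Submodule.span ℤ (Set.range (bb K))).toAddSubgroup := by
    change Countable (Submodule.span ℤ (Set.range (bb K)))
    infer_instance
  obtain ⟨μ, hμ⟩ : ∃ μ : Measure (Fin 2 → mixedSpace K), μ = Measure.addHaar := ⟨_, rfl⟩
  have : μ.IsAddHaarMeasure := by rw [hμ]; infer_instance
  have : Nontrivial (Fin 2 → mixedSpace K) := inferInstance
  have : NoncompactSpace (Fin 2 → mixedSpace K) := NormedSpace.noncompactSpace ℝ _
  have fund := ZSpan.isAddFundamentalDomain' (bb K) μ
  have hF : μ (ZSpan.fundamentalDomain (bb K)) < ⊤ :=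
    (ZSpan.fundamentalDomain_isBounded (bb K)).measure_lt_top
  have hM : μ (ZSpan.fundamentalDomain (bb K)) * 2 ^ Module.finrank ℝ (Fin 2 → mixedSpace K) < ⊤ :=
    ENNReal.mul_lt_top hF (by finiteness)
  have hlim : Filter.Tendsto (fun n : ℕ => μ (Metric.closedBall (0 : Fin 2 → mixedSpace K) n))
      Filter.atTop (nhds ⊤) := by
    have h1 := tendsto_measure_iUnion_atTop (μ := μ)
      (s := fun n : ℕ => Metric.closedBall (0 : Fin 2 → mixedSpace K) (n : ℝ))
      (fun a b hab => Metric.closedBall_subset_closedBall (by exact_mod_cast hab))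
    have h2 : μ (⋃ n : ℕ, Metric.closedBall (0 : Fin 2 → mixedSpace K) (n : ℝ)) = ⊤ := by
      rw [Metric.iUnion_closedBall_nat]
      exact measure_univ_of_isAddLeftInvariant μ
    rw [h2] at h1
    exact h1
  obtain ⟨n, hn⟩ := (hlim.eventually (lt_mem_nhds hM)).exists
  refine ⟨n + 1, by positivity, fun g => ?_⟩
  have hn1 : μ (ZSpan.fundamentalDomain (bb K)) * 2 ^ Module.finrank ℝ (Fin 2 → mixedSpace K) <
      μ (rho g ⁻¹' Metric.closedBall 0 n) := by
    rw [Measure.addHaar_preimage_linearMap μ (by rw [det_rho]; exact one_ne_zero), det_rho]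
    simpa using hn
  obtain ⟨x, hx0, hx⟩ := exists_ne_zero_mem_lattice_of_measure_mul_two_pow_lt_measure fund
    (s := rho g ⁻¹' Metric.closedBall 0 n)
    (fun z hz => by
      simp only [Set.mem_preimage, map_neg, Metric.mem_closedBall, dist_zero_right, norm_neg] at hz ⊢
      exact hz)
    ((convex_closedBall 0 (n : ℝ)).linear_preimage (rho g)) hn1
  obtain ⟨y, hy⟩ := mem_emb (show (x : Fin 2 → mixedSpace K) ∈ Submodule.span ℤ (Set.range (bb K))
    from x.2)
  refine ⟨y, ?_, ?_⟩
  · rintro rfl
    apply hx0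
    apply Subtype.ext
    rw [← hy]
    funext i
    simp [emb]
  · rw [hy]
    intro w i
    simp only [Set.mem_preimage, Metric.mem_closedBall, dist_zero_right, rho_apply] at hx
    have h1 := np_le_norm w (Matrix.vecMul (x : Fin 2 → mixedSpace K) g.1 i)
    have h2 := norm_le_pi_norm (Matrix.vecMul (x : Fin 2 → mixedSpace K) g.1) i
    linarith

end Pool.Agent.T2h77
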