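import Pool.Agent.T2h77.Red1

/-!
# Reduction theory, third part: the second basis vector
-/

set_option autoImplicit false

open NumberField NumberField.mixedEmbedding MeasureTheory Matrix
open scoped MatrixGroups ENNReal

noncomputable section

namespace Pool.Agent.T2h77

variable {K : Type} [Field K] [NumberField K]

open scoped Classical in
/-- the component at the place `w`, as a complex number -/
def cw (w : InfinitePlace K) : mixedSpace K →+* ℂ :=
  if h : w.IsReal then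
    Complex.ofRealHom.comp ((Pi.evalRingHom (fun _ : {w : InfinitePlace K // w.IsReal} => ℝ) ⟨w, h⟩).comp
      (RingHom.fst _ _))
  else (Pi.evalRingHom (fun _ : {w : InfinitePlace K // w.IsComplex} => ℂ)
    ⟨w, InfinitePlace.not_isReal_iff_isComplex.mp h⟩).comp (RingHom.snd _ _)

lemma cw_real {w : InfinitePlace K} (h : w.IsReal) (z : mixedSpace K) :
    cw w z = ((z.1 ⟨w, h⟩ : ℝ) : ℂ) := by
  rw [cw, dif_pos h]
  rfl

lemma cw_complex {w : InfinitePlace K} (h : w.IsComplex) (z : mixedSpace K) :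
    cw w z = z.2 ⟨w, h⟩ := by
  rw [cw, dif_neg (InfinitePlace.not_isReal_iff_isComplex.mpr h)]
  rfl

lemma norm_cw (w : InfinitePlace K) (z : mixedSpace K) : ‖cw w z‖ = normAtPlace w z := by
  rcases w.isReal_or_isComplex with h | h
  · rw [cw_real h, normAtPlace_apply_of_isReal h, Complex.norm_real]
  · rw [cw_complex h, normAtPlace_apply_of_isComplex h]

/-- complex conjugation on the mixed space -/
def mconj (z : mixedSpace K) : mixedSpace K := (z.1, fun w => (starRingEnd ℂ) (z.2 w))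

lemma cw_mconj (w : InfinitePlace K) (z : mixedSpace K) :
    cw w (mconj z) = (starRingEnd ℂ) (cw w z) := by
  rcases w.isReal_or_isComplex with h | h
  · rw [cw_real h, cw_real h, Complex.conj_ofReal]
    rfl
  · rw [cw_complex h, cw_complex h]
    rfl

lemma cw_miv (w : InfinitePlace K) (z : mixedSpace K) : cw w (miv z) = (cw w z)⁻¹ := by
  rcases w.isReal_or_isComplex with h | h
  · rw [cw_real h, cw_real h, ← Complex.ofReal_inv]
    rfl
  · rw [cw_complex h, cw_complex h]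
    rfl

lemma rn_eq (w : InfinitePlace K) (z : Fin 2 → mixedSpace K) :
    rn w z ^ 2 = ‖cw w (z 0)‖ ^ 2 + ‖cw w (z 1)‖ ^ 2 := by
  rw [rn, Real.sq_sqrt (by positivity), norm_cw, norm_cw]

lemma rn_nonneg (w : InfinitePlace K) (z : Fin 2 → mixedSpace K) : 0 ≤ rn w z := Real.sqrt_nonneg _

open scoped Classical in
/-- `𝓞 K` is cocompact -/
lemma exists_round (K : Type) [Field K] [NumberField K] : ∃ R : ℝ, 0 < R ∧
    ∀ t : mixedSpace K, ∃ m : 𝓞 K, ∀ w, normAtPlace w (t - mixedEmbedding K (m : K)) ≤ R := by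
  refine ⟨∑ i, ‖latticeBasis K i‖ + 1, by positivity, fun t => ?_⟩
  have h1 : ((ZSpan.floor (latticeBasis K) t : Submodule.span ℤ (Set.range (latticeBasis K))) :
      mixedSpace K) ∈ Submodule.span ℤ (Set.range (latticeBasis K)) := Subtype.mem _
  rw [mem_span_latticeBasis] at h1
  obtain ⟨m, hm⟩ := h1
  refine ⟨m, fun w => (np_le_norm w _).trans ?_⟩
  have h2 := ZSpan.norm_fract_le (latticeBasis K) t
  rw [ZSpan.fract_apply, ← hm] at h2
  have h3 : mixedEmbedding K (m : K) =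
      ((mixedEmbedding K).comp (algebraMap (𝓞 K) K)).toIntAlgHom.toLinearMap m := rfl
  rw [h3]
  linarith

lemma lagrange (a b c d : ℂ) :
    (‖a‖ ^ 2 + ‖b‖ ^ 2) * (‖c‖ ^ 2 + ‖d‖ ^ 2) =
      ‖c * (starRingEnd ℂ) a + d * (starRingEnd ℂ) b‖ ^ 2 + ‖a * d - b * c‖ ^ 2 := by
  simp only [← Complex.normSq_eq_norm_sq, Complex.normSq_apply]
  simp only [Complex.add_re, Complex.mul_re, Complex.conj_re, Complex.conj_im, Complex.add_im,
    Complex.mul_im, Complex.sub_re, Complex.sub_im]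
  ring

/-- the determinant of two vectors -/
def dt (x y : Fin 2 → 𝓞 K) : 𝓞 K := x 0 * y 1 - x 1 * y 0

lemma vm (x : Fin 2 → 𝓞 K) (g : GG K) (j : Fin 2) : Matrix.vecMul (emb K x) g.1 j =
    mixedEmbedding K (x 0 : K) * g 0 j + mixedEmbedding K (x 1 : K) * g 1 j := by
  simp [Matrix.vecMul, dotProduct, Fin.sum_univ_two, emb]

lemma det_mul (x y : Fin 2 → 𝓞 K) (g : GG K) :
    Matrix.vecMul (emb K x) g.1 0 * Matrix.vecMul (emb K y) g.1 1 -
      Matrix.vecMul (emb K x) g.1 1 * Matrix.vecMul (emb K y) g.1 0 =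
      mixedEmbedding K ((dt x y : 𝓞 K) : K) := by
  have hd : g 0 0 * g 1 1 - g 0 1 * g 1 0 = 1 := by
    have := g.2
    rwa [Matrix.det_fin_two] at this
  rw [vm, vm, vm, vm, dt]
  simp only [map_sub, map_mul]
  linear_combination (mixedEmbedding K (x 0 : K) * mixedEmbedding K (y 1 : K) -
    mixedEmbedding K (x 1 : K) * mixedEmbedding K (y 0 : K)) * hd

/-- adjusting the second vector -/
lemma adjust (R c c' Δ : ℝ) (hR : ∀ t : mixedSpace K, ∃ m : 𝓞 K, ∀ w,
      normAtPlace w (t - mixedEmbedding K (m : K)) ≤ R) (hc' : 0 < c')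
    (x y : Fin 2 → 𝓞 K) (g : GG K)
    (h1 : ∀ w i, normAtPlace w (Matrix.vecMul (emb K x) g.1 i) ≤ c)
    (h2 : ∀ w, c' ≤ rn w (Matrix.vecMul (emb K x) g.1))
    (h3 : ∀ w : InfinitePlace K, w ((dt x y : 𝓞 K) : K) ≤ Δ) :
    ∃ y' : Fin 2 → 𝓞 K, dt x y' = dt x y ∧
      ∀ w i, normAtPlace w (Matrix.vecMul (emb K y') g.1 i) ≤
        √(2 * R ^ 2 * c ^ 2 + Δ ^ 2 / c' ^ 2) := by
  obtain ⟨u, hu⟩ : ∃ u, u = Matrix.vecMul (emb K x) g.1 := ⟨_, rfl⟩
  obtain ⟨v, hv⟩ : ∃ v, v = Matrix.vecMul (emb K y) g.1 := ⟨_, rfl⟩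
  obtain ⟨m, hm⟩ := hR ((v 0 * mconj (u 0) + v 1 * mconj (u 1)) *
    miv (u 0 * mconj (u 0) + u 1 * mconj (u 1)))
  refine ⟨fun i => y i - m * x i, ?_, ?_⟩
  · simp only [dt]
    ring
  · intro w i
    rw [← hu] at h1 h2
    have hv' : ∀ i, Matrix.vecMul (emb K (fun i => y i - m * x i)) g.1 i =
        v i - mixedEmbedding K (m : K) * u i := by
      intro i
      rw [hv, hu, vm, vm, vm]
      simp only [map_sub, map_mul]
      ring
    have hN : 0 < ‖cw w (u 0)‖ ^ 2 + ‖cw w (u 1)‖ ^ 2 := by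
      rw [← rn_eq]
      have := hc'.trans_le (h2 w)
      positivity
    have hL := lagrange (cw w (u 0)) (cw w (u 1)) (cw w (v 0 - mixedEmbedding K (m : K) * u 0))
      (cw w (v 1 - mixedEmbedding K (m : K) * u 1))
    have hdet : cw w (u 0) * cw w (v 1 - mixedEmbedding K (m : K) * u 1) -
        cw w (u 1) * cw w (v 0 - mixedEmbedding K (m : K) * u 0) =
        cw w (mixedEmbedding K ((dt x y : 𝓞 K) : K)) := by
      rw [← det_mul x y g, ← hu, ← hv]
      simp only [map_sub, map_mul]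
      ring
    have hNc : cw w (u 0) * (starRingEnd ℂ) (cw w (u 0)) + cw w (u 1) * (starRingEnd ℂ) (cw w (u 1)) =
        ((‖cw w (u 0)‖ ^ 2 + ‖cw w (u 1)‖ ^ 2 : ℝ) : ℂ) := by
      rw [Complex.mul_conj, Complex.mul_conj, Complex.normSq_eq_norm_sq, Complex.normSq_eq_norm_sq]
      push_cast
      ring
    have hin : cw w (v 0 - mixedEmbedding K (m : K) * u 0) * (starRingEnd ℂ) (cw w (u 0)) +
        cw w (v 1 - mixedEmbedding K (m : K) * u 1) * (starRingEnd ℂ) (cw w (u 1)) =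
        cw w ((v 0 * mconj (u 0) + v 1 * mconj (u 1)) *
          miv (u 0 * mconj (u 0) + u 1 * mconj (u 1)) - mixedEmbedding K (m : K)) *
          ((‖cw w (u 0)‖ ^ 2 + ‖cw w (u 1)‖ ^ 2 : ℝ) : ℂ) := by
      have hN' : ((‖cw w (u 0)‖ ^ 2 + ‖cw w (u 1)‖ ^ 2 : ℝ) : ℂ) ≠ 0 := by
        exact_mod_cast hN.ne'
      have e1 : cw w ((v 0 * mconj (u 0) + v 1 * mconj (u 1)) *
          miv (u 0 * mconj (u 0) + u 1 * mconj (u 1)) - mixedEmbedding K (m : K)) =
          (cw w (v 0) * (starRingEnd ℂ) (cw w (u 0)) + cw w (v 1) * (starRingEnd ℂ) (cw w (u 1))) *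
            ((‖cw w (u 0)‖ ^ 2 + ‖cw w (u 1)‖ ^ 2 : ℝ) : ℂ)⁻¹ - cw w (mixedEmbedding K (m : K)) := by
        rw [map_sub, map_mul, cw_miv]
        simp only [map_add, map_mul, cw_mconj]
        rw [hNc]
      rw [e1, sub_mul, mul_assoc, inv_mul_cancel₀ hN', mul_one, ← hNc]
      simp only [map_sub, map_mul]
      ring
    rw [hdet, hin, norm_mul, norm_cw w (mixedEmbedding K _), normAtPlace_apply,
      Complex.norm_real, Real.norm_of_nonneg hN.le] at hL
    have hR' := hm w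
    rw [← norm_cw] at hR'
    have h0 := norm_nonneg (cw w ((v 0 * mconj (u 0) + v 1 * mconj (u 1)) *
          miv (u 0 * mconj (u 0) + u 1 * mconj (u 1)) - mixedEmbedding K (m : K)))
    have hrn := rn_eq w u
    have hlow := h2 w
    have hup : ‖cw w (u 0)‖ ^ 2 + ‖cw w (u 1)‖ ^ 2 ≤ 2 * c ^ 2 := by
      have e0 := h1 w 0
      have e1 := h1 w 1
      rw [← norm_cw] at e0 e1
      have n0 := norm_nonneg (cw w (u 0))
      have n1 := norm_nonneg (cw w (u 1))
      nlinarith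
    have hδ := h3 w
    have hδ0 : 0 ≤ w ((dt x y : 𝓞 K) : K) := apply_nonneg _ _
    have hlow2 : c' ^ 2 ≤ ‖cw w (u 0)‖ ^ 2 + ‖cw w (u 1)‖ ^ 2 := by
      rw [← hrn]
      exact pow_le_pow_left₀ hc'.le hlow 2
    obtain ⟨N, hNN⟩ : ∃ N, N = ‖cw w (u 0)‖ ^ 2 + ‖cw w (u 1)‖ ^ 2 := ⟨_, rfl⟩
    obtain ⟨V, hV⟩ : ∃ V, V = ‖cw w (v 0 - mixedEmbedding K (m : K) * u 0)‖ ^ 2 +
      ‖cw w (v 1 - mixedEmbedding K (m : K) * u 1)‖ ^ 2 := ⟨_, rfl⟩
    rw [← hNN, ← hV] at hL
    rw [← hNN] at hN hup hlow2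
    have hVle : V ≤ 2 * R ^ 2 * c ^ 2 + Δ ^ 2 / c' ^ 2 := by
      have k1 : V = ‖cw w ((v 0 * mconj (u 0) + v 1 * mconj (u 1)) *
          miv (u 0 * mconj (u 0) + u 1 * mconj (u 1)) - mixedEmbedding K (m : K))‖ ^ 2 * N +
          (w ((dt x y : 𝓞 K) : K)) ^ 2 / N := by
        field_simp
        linear_combination hL
      rw [k1]
      have k2 : ‖cw w ((v 0 * mconj (u 0) + v 1 * mconj (u 1)) *
          miv (u 0 * mconj (u 0) + u 1 * mconj (u 1)) - mixedEmbedding K (m : K))‖ ^ 2 ≤ R ^ 2 :=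
        pow_le_pow_left₀ h0 hR' 2
      have k3 : (w ((dt x y : 𝓞 K) : K)) ^ 2 / N ≤ Δ ^ 2 / c' ^ 2 := by
        apply div_le_div₀ (by positivity) (pow_le_pow_left₀ hδ0 hδ 2) (by positivity) hlow2
      have k4 := mul_le_mul k2 hup hN.le (sq_nonneg R)
      linarith
    rw [hv' i, ← norm_cw]
    apply Real.le_sqrt_of_sq_le
    refine le_trans ?_ hVle
    rw [hV]
    fin_cases i
    · simp only [Fin.zero_eta]
      nlinarith [sq_nonneg ‖cw w (v 1 - mixedEmbedding K (m : K) * u 1)‖]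
    · simp only [Fin.mk_one]
      nlinarith [sq_nonneg ‖cw w (v 0 - mixedEmbedding K (m : K) * u 0)‖]

end Pool.Agent.T2h77
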