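import Pool.Agent.T2h77.VolA

/-!
# The component of `K ⊗ ℝ` at one place
-/

set_option autoImplicit false

open NumberField NumberField.mixedEmbedding MeasureTheory Matrix
open NumberField.InfinitePlace
open scoped MatrixGroups ENNReal

noncomputable section

namespace Pool.Agent.T2h77

namespace VolPkg

/-- the component at `v` -/
structure Comp (K : Type) [Field K] [NumberField K] (v : InfinitePlace K) (𝕜 : Type) [RCLike 𝕜] where
  π : mixedSpace K →+* 𝕜
  ι : 𝕜 → mixedSpace K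
  π_cont : Continuous π
  ι_cont : Continuous ι
  ι_add : ∀ s t, ι (s + t) = ι s + ι t
  ι_mul : ∀ s x, ι s * x = ι (s * π x)
  π_ι : ∀ s, π (ι s) = s
  norm_v : ∀ x, normAtPlace v x = ‖π x‖
  norm_w : ∀ w, w ≠ v → ∀ x s, normAtPlace w (x + ι s) = normAtPlace w x
  rank : Module.finrank ℝ 𝕜 = v.mult

section mk

variable {K : Type} [Field K] [NumberField K]

/-- the component at a real place -/
def compReal (v : InfinitePlace K) (hv : IsReal v) : Comp K v ℝ := by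
  classical
  exact
  { π := (Pi.evalRingHom (fun _ : {w : InfinitePlace K // IsReal w} => ℝ) ⟨v, hv⟩).comp (RingHom.fst _ _)
    ι := fun s => (Pi.single ⟨v, hv⟩ s, 0)
    π_cont := (continuous_apply _).comp continuous_fst
    ι_cont := by
      refine Continuous.prodMk ?_ continuous_const
      exact continuous_single (A := fun _ : {w : InfinitePlace K // IsReal w} => ℝ) ⟨v, hv⟩
    ι_add := by
      intro s t
      refine Prod.ext ?_ (by simp)
      simp [Pi.single_add]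
    ι_mul := by
      intro s x
      refine Prod.ext ?_ (by simp)
      ext w
      by_cases h : w = ⟨v, hv⟩
      · subst h
        simp
      · simp [Pi.single_eq_of_ne h]
    π_ι := by
      intro s
      simp
    norm_v := by
      intro x
      rw [normAtPlace_apply_of_isReal hv]
      rfl
    norm_w := by
      intro w hw x s
      rcases w.isReal_or_isComplex with h | h
      · rw [normAtPlace_apply_of_isReal h, normAtPlace_apply_of_isReal h]
        have h1 : (⟨w, h⟩ : {w : InfinitePlace K // IsReal w}) ≠ ⟨v, hv⟩ := by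
          intro h2
          exact hw (congrArg Subtype.val h2)
        simp [Pi.single_eq_of_ne h1]
      · rw [normAtPlace_apply_of_isComplex h, normAtPlace_apply_of_isComplex h]
        simp
    rank := by
      rw [mult_isReal ⟨v, hv⟩]
      simp }

/-- the component at a complex place -/
def compComplex (v : InfinitePlace K) (hv : IsComplex v) : Comp K v ℂ := by
  classical
  exact
  { π := (Pi.evalRingHom (fun _ : {w : InfinitePlace K // IsComplex w} => ℂ) ⟨v, hv⟩).comp (RingHom.snd _ _)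
    ι := fun s => (0, Pi.single ⟨v, hv⟩ s)
    π_cont := (continuous_apply _).comp continuous_snd
    ι_cont := by
      refine Continuous.prodMk continuous_const ?_
      exact continuous_single (A := fun _ : {w : InfinitePlace K // IsComplex w} => ℂ) ⟨v, hv⟩
    ι_add := by
      intro s t
      refine Prod.ext (by simp) ?_
      simp [Pi.single_add]
    ι_mul := by
      intro s x
      refine Prod.ext (by simp) ?_
      ext w
      by_cases h : w = ⟨v, hv⟩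
      · subst h
        simp
      · simp [Pi.single_eq_of_ne h]
    π_ι := by
      intro s
      simp
    norm_v := by
      intro x
      rw [normAtPlace_apply_of_isComplex hv]
      rfl
    norm_w := by
      intro w hw x s
      rcases w.isReal_or_isComplex with h | h
      · rw [normAtPlace_apply_of_isReal h, normAtPlace_apply_of_isReal h]
        simp
      · rw [normAtPlace_apply_of_isComplex h, normAtPlace_apply_of_isComplex h]
        have h1 : (⟨w, h⟩ : {w : InfinitePlace K // IsComplex w}) ≠ ⟨v, hv⟩ := by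
          intro h2
          exact hw (congrArg Subtype.val h2)
        simp [Pi.single_eq_of_ne h1]
    rank := by
      rw [mult_isComplex ⟨v, hv⟩]
      simp }

end mk

section phi

variable {K : Type} [Field K] [NumberField K] {v : InfinitePlace K} {𝕜 : Type} [RCLike 𝕜] (C : Comp K v 𝕜)

lemma Comp.ι_zero : C.ι 0 = 0 := by
  have := C.ι_add 0 0
  simpa using this

/-- the embedding of `SL₂` of the component at `v` -/
def Phi (k : SL(2, 𝕜)) : GG K :=
  ⟨!![1 + C.ι (k 0 0 - 1), C.ι (k 0 1); C.ι (k 1 0), 1 + C.ι (k 1 1 - 1)], by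
    rw [Matrix.det_fin_two_of, C.ι_mul, C.π_ι]
    have h1 : (1 + C.ι (k 0 0 - 1)) * (1 + C.ι (k 1 1 - 1)) =
        1 + C.ι (k 0 0 - 1) + C.ι (k 1 1 - 1) + C.ι ((k 0 0 - 1) * (k 1 1 - 1)) := by
      have := C.ι_mul (k 0 0 - 1) (C.ι (k 1 1 - 1))
      rw [C.π_ι] at this
      rw [← this]
      ring
    rw [h1]
    have h2 := det2 k
    have h3 : C.ι (k 0 1 * k 1 0) = C.ι (k 0 0 - 1) + C.ι (k 1 1 - 1) + C.ι ((k 0 0 - 1) * (k 1 1 - 1)) := by
      rw [← C.ι_add, ← C.ι_add]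
      congr 1
      linear_combination (-1 : 𝕜) * h2
    rw [h3]
    ring⟩

lemma Phi00 (k : SL(2, 𝕜)) (h : GG K) :
    (Phi C k * h) 0 0 = h 0 0 + C.ι ((k 0 0 - 1) * C.π (h 0 0) + k 0 1 * C.π (h 1 0)) := by
  rw [m00]
  change (1 + C.ι (k 0 0 - 1)) * h 0 0 + C.ι (k 0 1) * h 1 0 = _
  rw [add_mul, C.ι_mul, C.ι_mul, C.ι_add]
  ring

lemma Phi01 (k : SL(2, 𝕜)) (h : GG K) :
    (Phi C k * h) 0 1 = h 0 1 + C.ι ((k 0 0 - 1) * C.π (h 0 1) + k 0 1 * C.π (h 1 1)) := by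
  rw [m01]
  change (1 + C.ι (k 0 0 - 1)) * h 0 1 + C.ι (k 0 1) * h 1 1 = _
  rw [add_mul, C.ι_mul, C.ι_mul, C.ι_add]
  ring

lemma Phi10 (k : SL(2, 𝕜)) (h : GG K) :
    (Phi C k * h) 1 0 = h 1 0 + C.ι (k 1 0 * C.π (h 0 0) + (k 1 1 - 1) * C.π (h 1 0)) := by
  rw [m10]
  change C.ι (k 1 0) * h 0 0 + (1 + C.ι (k 1 1 - 1)) * h 1 0 = _
  rw [add_mul, C.ι_mul, C.ι_mul, C.ι_add]
  ring

lemma Phi11 (k : SL(2, 𝕜)) (h : GG K) :
    (Phi C k * h) 1 1 = h 1 1 + C.ι (k 1 0 * C.π (h 0 1) + (k 1 1 - 1) * C.π (h 1 1)) := by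
  rw [m11]
  change C.ι (k 1 0) * h 0 1 + (1 + C.ι (k 1 1 - 1)) * h 1 1 = _
  rw [add_mul, C.ι_mul, C.ι_mul, C.ι_add]
  ring

/-- the row `i` of the component at `v` -/
def row (h : GG K) (i : Fin 2) : EuclideanSpace 𝕜 (Fin 2) := WithLp.toLp 2 (fun j => C.π (h i j))

lemma rn_eq (z : Fin 2 → mixedSpace K) :
    rn v z = ‖(WithLp.toLp 2 (fun j => C.π (z j)) : EuclideanSpace 𝕜 (Fin 2))‖ := by
  rw [EuclideanSpace.norm_eq, Fin.sum_univ_two, rn, C.norm_v, C.norm_v]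

lemma rn_row (h : GG K) (i : Fin 2) : rn v (h i) = ‖row C h i‖ := rn_eq C (h i)

lemma row_Phi0 (k : SL(2, 𝕜)) (h : GG K) :
    row C (Phi C k * h) 0 = k 0 0 • row C h 0 + k 0 1 • row C h 1 := by
  ext j
  fin_cases j
  · change C.π ((Phi C k * h) 0 0) = k 0 0 * C.π (h 0 0) + k 0 1 * C.π (h 1 0)
    rw [Phi00, map_add, C.π_ι]
    ring
  · change C.π ((Phi C k * h) 0 1) = k 0 0 * C.π (h 0 1) + k 0 1 * C.π (h 1 1)
    rw [Phi01, map_add, C.π_ι]
    ring

lemma row_Phi1 (k : SL(2, 𝕜)) (h : GG K) :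
    row C (Phi C k * h) 1 = k 1 0 • row C h 0 + k 1 1 • row C h 1 := by
  ext j
  fin_cases j
  · change C.π ((Phi C k * h) 1 0) = k 1 0 * C.π (h 0 0) + k 1 1 * C.π (h 1 0)
    rw [Phi10, map_add, C.π_ι]
    ring
  · change C.π ((Phi C k * h) 1 1) = k 1 0 * C.π (h 0 1) + k 1 1 * C.π (h 1 1)
    rw [Phi11, map_add, C.π_ι]
    ring

lemma mn_Phi (k : SL(2, 𝕜)) (h : GG K) (w : InfinitePlace K) (hw : w ≠ v) : mn w (Phi C k * h) = mn w h := by
  have e00 := congrArg (normAtPlace w) (Phi00 C k h)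
  have e01 := congrArg (normAtPlace w) (Phi01 C k h)
  have e10 := congrArg (normAtPlace w) (Phi10 C k h)
  have e11 := congrArg (normAtPlace w) (Phi11 C k h)
  rw [C.norm_w w hw] at e00 e01 e10 e11
  unfold mn rn
  rw [e00, e01, e10, e11]

lemma mn_eq (h : GG K) : mn v h = √(‖row C h 0‖ ^ 2 + ‖row C h 1‖ ^ 2) := by
  rw [mn, rn_row C, rn_row C]

/-- the Gram-Schmidt step -/
lemma gram (h : GG K) : ∃ s : 𝕜, ‖row C h 1 - s • row C h 0‖ * ‖row C h 0‖ = 1 := by
  have hdet : C.π (h 0 0) * C.π (h 1 1) - C.π (h 0 1) * C.π (h 1 0) = 1 := by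
    rw [← map_mul, ← map_mul, ← map_sub, det2 h, map_one]
  set x0 := C.π (h 0 0) with hx0
  set x1 := C.π (h 0 1) with hx1
  set y0 := C.π (h 1 0) with hy0
  set y1 := C.π (h 1 1) with hy1
  have hN : ‖row C h 0‖ ^ 2 = ‖x0‖ ^ 2 + ‖x1‖ ^ 2 := by
    rw [EuclideanSpace.norm_eq, Fin.sum_univ_two, Real.sq_sqrt (by positivity)]
    rfl
  set n : ℝ := ‖row C h 0‖ with hn
  have hn0 : n ≠ 0 := by
    intro h0
    rw [h0] at hN
    have a0 : ‖x0‖ ^ 2 = 0 := by nlinarith [sq_nonneg ‖x0‖, sq_nonneg ‖x1‖]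
    have a1 : ‖x1‖ ^ 2 = 0 := by nlinarith [sq_nonneg ‖x0‖, sq_nonneg ‖x1‖]
    have b0 : x0 = 0 := by simpa using a0
    have b1 : x1 = 0 := by simpa using a1
    rw [b0, b1] at hdet
    simp at hdet
  have hn0' : (n : 𝕜) ≠ 0 := by exact_mod_cast hn0
  have hN' : (starRingEnd 𝕜) x0 * x0 + (starRingEnd 𝕜) x1 * x1 = (n : 𝕜) ^ 2 := by
    rw [RCLike.conj_mul, RCLike.conj_mul]
    exact_mod_cast hN.symm
  refine ⟨(y0 * (starRingEnd 𝕜) x0 + y1 * (starRingEnd 𝕜) x1) / (n : 𝕜) ^ 2, ?_⟩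
  have hrow : row C h 1 - ((y0 * (starRingEnd 𝕜) x0 + y1 * (starRingEnd 𝕜) x1) / (n : 𝕜) ^ 2) • row C h 0 =
      WithLp.toLp 2 ![-(starRingEnd 𝕜) x1 / (n : 𝕜) ^ 2, (starRingEnd 𝕜) x0 / (n : 𝕜) ^ 2] := by
    ext j
    fin_cases j
    · change y0 - ((y0 * (starRingEnd 𝕜) x0 + y1 * (starRingEnd 𝕜) x1) / (n : 𝕜) ^ 2) * x0 =
        -(starRingEnd 𝕜) x1 / (n : 𝕜) ^ 2
      field_simp
      linear_combination (-y0) * hN' - (starRingEnd 𝕜) x1 * hdet
    · change y1 - ((y0 * (starRingEnd 𝕜) x0 + y1 * (starRingEnd 𝕜) x1) / (n : 𝕜) ^ 2) * x1 =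
        (starRingEnd 𝕜) x0 / (n : 𝕜) ^ 2
      field_simp
      linear_combination (-y1) * hN' + (starRingEnd 𝕜) x0 * hdet
  rw [hrow, EuclideanSpace.norm_eq, Fin.sum_univ_two]
  have hnn : 0 < n := lt_of_le_of_ne (norm_nonneg _) (Ne.symm hn0)
  have e : ‖(WithLp.toLp 2 ![-(starRingEnd 𝕜) x1 / (n : 𝕜) ^ 2, (starRingEnd 𝕜) x0 / (n : 𝕜) ^ 2] :
      EuclideanSpace 𝕜 (Fin 2)) 0‖ ^ 2 + ‖(WithLp.toLp 2 ![-(starRingEnd 𝕜) x1 / (n : 𝕜) ^ 2,
        (starRingEnd 𝕜) x0 / (n : 𝕜) ^ 2] : EuclideanSpace 𝕜 (Fin 2)) 1‖ ^ 2 = (1 / n) ^ 2 := by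
    change ‖-(starRingEnd 𝕜) x1 / (n : 𝕜) ^ 2‖ ^ 2 + ‖(starRingEnd 𝕜) x0 / (n : 𝕜) ^ 2‖ ^ 2 = (1 / n) ^ 2
    rw [norm_div, norm_div, norm_neg, RCLike.norm_conj, RCLike.norm_conj, norm_pow, RCLike.norm_ofReal,
      abs_of_pos hnn]
    field_simp
    linarith [hN]
  rw [e, Real.sqrt_sq (by positivity)]
  field_simp

end phi

end VolPkg

end Pool.Agent.T2h77
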