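import Pool.Agent.T2h77.VolB

/-!
# Balls in `SL₂(K ⊗ ℝ)`: compactness, and the volume of the basic sets
-/

set_option autoImplicit false

open NumberField NumberField.mixedEmbedding MeasureTheory Matrix
open NumberField.InfinitePlace
open scoped MatrixGroups ENNReal

noncomputable section

namespace Pool.Agent.T2h77

namespace VolPkg

section top

variable {K : Type} [Field K] [NumberField K]

lemma cont_entry (i j : Fin 2) : Continuous fun h : GG K => h i j := by
  have h1 : Continuous fun h : GG K => h.1 := continuous_subtype_val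
  exact h1.matrix_elem i j

lemma cont_rn (w : InfinitePlace K) (i : Fin 2) : Continuous fun h : GG K => rn w (h i) := by
  unfold rn
  have h0 := (continuous_normAtPlace w).comp (cont_entry (K := K) i 0)
  have h1 := (continuous_normAtPlace w).comp (cont_entry (K := K) i 1)
  exact ((h0.pow 2).add (h1.pow 2)).sqrt

lemma cont_mn (w : InfinitePlace K) : Continuous fun h : GG K => mn w h := by
  unfold mn
  exact (((cont_rn w 0).pow 2).add ((cont_rn w 1).pow 2)).sqrt

lemma rn_nonneg (w : InfinitePlace K) (z : Fin 2 → mixedSpace K) : 0 ≤ rn w z := Real.sqrt_nonneg _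

lemma rn_le_mn (w : InfinitePlace K) (h : GG K) (i : Fin 2) : rn w (h i) ≤ mn w h := by
  unfold mn
  apply Real.le_sqrt_of_sq_le
  fin_cases i
  · change rn w (h 0) ^ 2 ≤ _
    nlinarith [sq_nonneg (rn w (h 1))]
  · change rn w (h 1) ^ 2 ≤ _
    nlinarith [sq_nonneg (rn w (h 0))]

lemma norm_le_rn (w : InfinitePlace K) (z : Fin 2 → mixedSpace K) (j : Fin 2) : normAtPlace w (z j) ≤ rn w z := by
  unfold rn
  apply Real.le_sqrt_of_sq_le
  fin_cases j
  · change normAtPlace w (z 0) ^ 2 ≤ _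
    nlinarith [sq_nonneg (normAtPlace w (z 1))]
  · change normAtPlace w (z 1) ^ 2 ≤ _
    nlinarith [sq_nonneg (normAtPlace w (z 0))]

lemma isClosed_ball (r : InfinitePlace K → ℝ) : IsClosed (ball r) := by
  have : ball r = ⋂ w, {h : GG K | mn w h ≤ r w} := by
    ext h
    simp [ball]
  rw [this]
  exact isClosed_iInter fun w => isClosed_le (cont_mn w) continuous_const

open scoped Classical in
/-- the balls are compact -/
theorem isCompact_ball (r : InfinitePlace K → ℝ) : IsCompact (ball r) := by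
  set R : ℝ := ∑ w, |r w| with hR
  have hc : IsCompact (Set.pi Set.univ fun _ : Fin 2 => Set.pi Set.univ fun _ : Fin 2 =>
      Metric.closedBall (0 : mixedSpace K) R) :=
    isCompact_univ_pi fun _ => isCompact_univ_pi fun _ => isCompact_closedBall _ _
  have hkey : ∀ h ∈ ball r, ∀ i j : Fin 2, h.1 i j ∈ Metric.closedBall (0 : mixedSpace K) R := by
    intro h hh i j
    rw [mem_closedBall_zero_iff, norm_eq_sup'_normAtPlace, Finset.sup'_le_iff]
    intro w _
    calc normAtPlace w (h.1 i j) ≤ rn w (h i) := norm_le_rn w (h i) j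
      _ ≤ mn w h := rn_le_mn w h i
      _ ≤ r w := hh w
      _ ≤ |r w| := le_abs_self _
      _ ≤ R := Finset.single_le_sum (f := fun w => |r w|) (fun w _ => abs_nonneg _) (Finset.mem_univ w)
  have h1 := (Matrix.SpecialLinearGroup.isClosedEmbedding_val (n := Fin 2) (R := mixedSpace K)).isCompact_preimage hc
  refine h1.of_isClosed_subset (isClosed_ball r) ?_
  intro h hh
  exact fun i _ j _ => hkey h hh i j

lemma mn_one (w : InfinitePlace K) : mn w (1 : GG K) = √2 := by
  have h0 : rn w ((1 : GG K) 0) = 1 := by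
    unfold rn
    have a0 : (1 : GG K) 0 0 = 1 := rfl
    have a1 : (1 : GG K) 0 1 = 0 := rfl
    rw [a0, a1, map_one, map_zero]
    norm_num
  have h1 : rn w ((1 : GG K) 1) = 1 := by
    unfold rn
    have a0 : (1 : GG K) 1 0 = 0 := rfl
    have a1 : (1 : GG K) 1 1 = 1 := rfl
    rw [a0, a1, map_one, map_zero]
    norm_num
  rw [mn, h0, h1]
  norm_num

end top

section sets

variable {K : Type} [Field K] [NumberField K] {v : InfinitePlace K} {𝕜 : Type} [RCLike 𝕜] (C : Comp K v 𝕜)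

/-- the other places -/
def O (v : InfinitePlace K) (ρ₀ : ℝ) : Set (GG K) := {h | ∀ w, w ≠ v → mn w h ≤ ρ₀}

lemma isClosed_O (ρ₀ : ℝ) : IsClosed (O v ρ₀) := by
  have : O v ρ₀ = ⋂ w, ⋂ _ : w ≠ v, {h : GG K | mn w h ≤ ρ₀} := by
    ext h
    simp [O]
  rw [this]
  exact isClosed_iInter fun w => isClosed_iInter fun _ => isClosed_le (cont_mn w) continuous_const

/-- the basic set -/
def E (v : InfinitePlace K) (ρ₀ a b r : ℝ) : Set (GG K) :=
  {h | a ≤ rn v (h 0)} ∩ {h | rn v (h 0) ≤ b} ∩ {h | rn v (h 1) ≤ r} ∩ O v ρ₀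

lemma isClosed_E (ρ₀ a b r : ℝ) : IsClosed (E v ρ₀ a b r) :=
  (((isClosed_le continuous_const (cont_rn v 0)).inter (isClosed_le (cont_rn v 0) continuous_const)).inter
    (isClosed_le (cont_rn v 1) continuous_const)).inter (isClosed_O ρ₀)

lemma meas_E (ρ₀ a b r : ℝ) : MeasurableSet (E v ρ₀ a b r) := (isClosed_E ρ₀ a b r).measurableSet

lemma mem_E {ρ₀ a b r : ℝ} {h : GG K} : h ∈ E v ρ₀ a b r ↔
    a ≤ rn v (h 0) ∧ rn v (h 0) ≤ b ∧ rn v (h 1) ≤ r ∧ h ∈ O v ρ₀ := by
  simp [E, and_assoc]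

include C in
lemma mem_O_Phi (ρ₀ : ℝ) (k : SL(2, 𝕜)) (h : GG K) : Phi C k * h ∈ O v ρ₀ ↔ h ∈ O v ρ₀ := by
  unfold O
  constructor
  · intro h1 w hw
    rw [← mn_Phi C k h w hw]
    exact h1 w hw
  · intro h1 w hw
    rw [mn_Phi C k h w hw]
    exact h1 w hw

lemma E_subset_ball (ρ₀ r : ℝ) (hr : r ≤ 3) :
    E v ρ₀ (1 / 2) 1 r ⊆ ball (rad v 4 ρ₀) := by
  intro h hh
  rw [mem_E] at hh
  obtain ⟨h1, h2, h3, h4⟩ := hh
  intro w
  unfold rad
  split_ifs with hw
  · subst hw
    unfold mn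
    apply Real.sqrt_le_iff.2
    refine ⟨by norm_num, ?_⟩
    have := rn_nonneg w (h 0)
    have := rn_nonneg w (h 1)
    nlinarith
  · exact h4 w hw

lemma E_finite (ρ₀ : ℝ) : mu K (E v ρ₀ (1 / 2) 1 3) < ∞ :=
  lt_of_le_of_lt (measure_mono (E_subset_ball ρ₀ 3 le_rfl)) (isCompact_ball _).measure_lt_top

/-- a diagonal matrix with entries `t`, `t⁻¹` in the component -/
def dg (t : 𝕜) (ht : t ≠ 0) : SL(2, 𝕜) := tD (Units.mk0 t ht)

lemma row0_dg (t : 𝕜) (ht : t ≠ 0) (h : GG K) : row C (Phi C (dg t ht) * h) 0 = t • row C h 0 := by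
  rw [row_Phi0]
  simp [dg]

lemma row1_dg (t : 𝕜) (ht : t ≠ 0) (h : GG K) : row C (Phi C (dg t ht) * h) 1 = t⁻¹ • row C h 1 := by
  rw [row_Phi1]
  simp [dg]

include C in
lemma E_pos (ρ₀ : ℝ) (hρ : √2 < ρ₀) : 0 < mu K (E v ρ₀ (1 / 2) 1 3) := by
  set U : Set (GG K) := {h | 1 / 2 < rn v (h 0)} ∩ {h | rn v (h 0) < 1} ∩ {h | rn v (h 1) < 3} ∩
    ⋂ w, {h | w ≠ v → mn w h < ρ₀} with hU
  have hopen : IsOpen U := by
    refine (((isOpen_lt continuous_const (cont_rn v 0)).inter (isOpen_lt (cont_rn v 0) continuous_const)).inter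
      (isOpen_lt (cont_rn v 1) continuous_const)).inter ?_
    refine isOpen_iInter_of_finite fun w => ?_
    by_cases hw : w = v
    · simp [hw]
    · simp only [ne_eq, hw, not_false_eq_true, forall_const]
      exact isOpen_lt (cont_mn w) continuous_const
  have hne : U.Nonempty := by
    have ht : ((3 / 4 : ℝ) : 𝕜) ≠ 0 := by
      have : (3 / 4 : ℝ) ≠ 0 := by norm_num
      exact_mod_cast this
    have r0 : ‖row C (1 : GG K) 0‖ = 1 := by
      rw [EuclideanSpace.norm_eq, Fin.sum_univ_two]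
      change √(‖C.π 1‖ ^ 2 + ‖C.π 0‖ ^ 2) = 1
      rw [map_one, map_zero]
      norm_num
    have r1 : ‖row C (1 : GG K) 1‖ = 1 := by
      rw [EuclideanSpace.norm_eq, Fin.sum_univ_two]
      change √(‖C.π 0‖ ^ 2 + ‖C.π 1‖ ^ 2) = 1
      rw [map_one, map_zero]
      norm_num
    have e0 : rn v ((Phi C (dg ((3 / 4 : ℝ) : 𝕜) ht) * 1) 0) = 3 / 4 := by
      rw [rn_row C, row0_dg, _root_.norm_smul, r0, RCLike.norm_ofReal]
      norm_num
    have e1 : rn v ((Phi C (dg ((3 / 4 : ℝ) : 𝕜) ht) * 1) 1) = 4 / 3 := by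
      rw [rn_row C, row1_dg, _root_.norm_smul, r1, norm_inv, RCLike.norm_ofReal]
      norm_num
    refine ⟨Phi C (dg ((3 / 4 : ℝ) : 𝕜) ht) * 1, ⟨⟨⟨?_, ?_⟩, ?_⟩, ?_⟩⟩
    · change 1 / 2 < rn v ((Phi C (dg ((3 / 4 : ℝ) : 𝕜) ht) * 1) 0)
      rw [e0]; norm_num
    · change rn v ((Phi C (dg ((3 / 4 : ℝ) : 𝕜) ht) * 1) 0) < 1
      rw [e0]; norm_num
    · change rn v ((Phi C (dg ((3 / 4 : ℝ) : 𝕜) ht) * 1) 1) < 3
      rw [e1]; norm_num
    · rw [Set.mem_iInter]
      intro w hw
      rw [mn_Phi C _ _ w hw, mn_one]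
      exact hρ
  have hsub : U ⊆ E v ρ₀ (1 / 2) 1 3 := by
    rintro h ⟨⟨⟨h1, h2⟩, h3⟩, h4⟩
    rw [mem_E]
    refine ⟨le_of_lt h1, le_of_lt h2, le_of_lt h3, ?_⟩
    intro w hw
    rw [Set.mem_iInter] at h4
    exact le_of_lt (h4 w hw)
  exact lt_of_lt_of_le (hopen.measure_pos (mu K) hne) (measure_mono hsub)

/-- the lower unipotent matrix in the component -/
def T (s : 𝕜) : GG K := Phi C (nL s)

lemma cont_T : Continuous (T C) := by
  unfold T Phi
  refine Continuous.subtype_mk ?_ _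
  refine continuous_matrix fun i j => ?_
  fin_cases i <;> fin_cases j
  · change Continuous fun s => 1 + C.ι ((nL s) 0 0 - 1)
    simp only [nL00]
    exact continuous_const
  · change Continuous fun s => C.ι ((nL s) 0 1)
    simp only [nL01]
    exact continuous_const
  · change Continuous fun s => C.ι ((nL s) 1 0)
    simp only [nL10]
    exact C.ι_cont
  · change Continuous fun s => 1 + C.ι ((nL s) 1 1 - 1)
    simp only [nL11]
    exact continuous_const

lemma row0_T (s : 𝕜) (h : GG K) : row C (T C s * h) 0 = row C h 0 := by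
  rw [T, row_Phi0]
  simp

lemma row1_T (s : 𝕜) (h : GG K) : row C (T C s * h) 1 = row C h 1 + s • row C h 0 := by
  rw [T, row_Phi1]
  simp [add_comm]

open Classical in
/-- Fubini -/
lemma fub (lam : Measure 𝕜) [SFinite lam] (B : Set 𝕜) (hB : MeasurableSet B) (D : Set (GG K))
    (hD : MeasurableSet D) :
    ∫⁻ h, lam (B ∩ {s | T C (-s) * h ∈ D}) ∂(mu K) = lam B * mu K D := by
  have hm : Measurable fun p : 𝕜 × GG K => T C (-p.1) * p.2 := by
    have : Continuous fun p : 𝕜 × GG K => T C (-p.1) * p.2 :=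
      ((cont_T C).comp (continuous_fst.neg)).mul continuous_snd
    exact this.measurable
  have hms : ∀ h : GG K, MeasurableSet {s : 𝕜 | T C (-s) * h ∈ D} := by
    intro h
    exact (hm.comp (measurable_id.prodMk measurable_const)) hD
  have h1 : ∀ h : GG K, lam (B ∩ {s | T C (-s) * h ∈ D}) =
      ∫⁻ s in B, D.indicator (fun _ => (1 : ℝ≥0∞)) (T C (-s) * h) ∂lam := by
    intro h
    have e : (fun s : 𝕜 => D.indicator (fun _ => (1 : ℝ≥0∞)) (T C (-s) * h)) =
        {s : 𝕜 | T C (-s) * h ∈ D}.indicator (fun _ => (1 : ℝ≥0∞)) := by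
      funext s
      simp [Set.indicator_apply]
    rw [e, lintegral_indicator_const (hms h), one_mul, Measure.restrict_apply (hms h), Set.inter_comm]
  simp_rw [h1]
  rw [lintegral_lintegral_swap]
  · have h2 : ∀ s : 𝕜, ∫⁻ h, D.indicator (fun _ => (1 : ℝ≥0∞)) (T C (-s) * h) ∂(mu K) = mu K D := by
      intro s
      rw [lintegral_mul_left_eq_self (fun h => D.indicator (fun _ => (1 : ℝ≥0∞)) h) (T C (-s)),
        lintegral_indicator_const hD, one_mul]
    simp_rw [h2]
    rw [lintegral_const, Measure.restrict_apply_univ, mul_comm]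
  · have h3c : Continuous fun p : GG K × 𝕜 => T C (-p.2) * p.1 :=
      ((cont_T C).comp (continuous_snd.neg)).mul continuous_fst
    have h3 : Measurable fun p : GG K × 𝕜 => T C (-p.2) * p.1 := h3c.measurable
    have h4 : Measurable fun x : GG K => D.indicator (fun _ => (1 : ℝ≥0∞)) x := measurable_const.indicator hD
    have h5 : Measurable fun p : GG K × 𝕜 => D.indicator (fun _ => (1 : ℝ≥0∞)) (T C (-p.2) * p.1) := h4.comp h3
    exact h5.aemeasurable

end sets

end VolPkg

end Pool.Agent.T2h77
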