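import Pool.Agent.T2h77.VolC

/-!
# The volume of the basic sets
-/

set_option autoImplicit false

open NumberField NumberField.mixedEmbedding MeasureTheory Matrix
open NumberField.InfinitePlace
open scoped MatrixGroups ENNReal

noncomputable section

namespace Pool.Agent.T2h77

namespace VolPkg

section est

variable {K : Type} [Field K] [NumberField K] {v : InfinitePlace K} {𝕜 : Type} [RCLike 𝕜] (C : Comp K v 𝕜)

include C in
lemma upperE (ρ₀ r : ℝ) (hr : 0 ≤ r) :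
    mu K (E v ρ₀ (1 / 2) 1 r) ≤ ENNReal.ofReal ((2 * r + 5) ^ v.mult) * mu K (E v ρ₀ (1 / 2) 1 3) := by
  set lam : Measure 𝕜 := Measure.addHaar with hlam
  set β := lam (Metric.ball 0 1) with hβ
  have hβ0 : β ≠ 0 := (Metric.measure_ball_pos lam 0 one_pos).ne'
  have hβt : β ≠ ∞ := measure_ball_lt_top.ne
  set B : Set 𝕜 := Metric.closedBall 0 (2 * r + 5) with hB
  have hlB : lam B = ENNReal.ofReal ((2 * r + 5) ^ v.mult) * β := by
    rw [hB, Measure.addHaar_closedBall lam 0 (by linarith), C.rank]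
  have hf := fub C lam B measurableSet_closedBall (E v ρ₀ (1 / 2) 1 3) (meas_E ρ₀ _ _ _)
  have hkey : ∀ h ∈ E v ρ₀ (1 / 2) 1 r, β ≤ lam (B ∩ {s | T C (-s) * h ∈ E v ρ₀ (1 / 2) 1 3}) := by
    intro h hh
    rw [mem_E, rn_row C, rn_row C] at hh
    obtain ⟨h1, h2, h3, h4⟩ := hh
    obtain ⟨s0, hs0⟩ := gram C h
    set n := ‖row C h 0‖ with hn
    have hnpos : 0 < n := by linarith
    have ha : ‖row C h 1 - s0 • row C h 0‖ ≤ 2 := by
      by_contra hcon
      push Not at hcon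
      nlinarith
    have hs0n : ‖s0‖ ≤ 2 * r + 4 := by
      have e1 : ‖s0‖ * n ≤ r + 2 := by
        calc ‖s0‖ * n = ‖s0 • row C h 0‖ := by rw [_root_.norm_smul]
          _ = ‖row C h 1 - (row C h 1 - s0 • row C h 0)‖ := by congr 1; abel
          _ ≤ ‖row C h 1‖ + ‖row C h 1 - s0 • row C h 0‖ := norm_sub_le _ _
          _ ≤ r + 2 := by linarith
      by_contra hcon
      push Not at hcon
      nlinarith
    have hsub : Metric.closedBall s0 1 ⊆ B ∩ {s | T C (-s) * h ∈ E v ρ₀ (1 / 2) 1 3} := by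
      intro s hs
      rw [Metric.mem_closedBall, dist_eq_norm] at hs
      refine ⟨?_, ?_⟩
      · rw [hB, mem_closedBall_zero_iff]
        calc ‖s‖ = ‖s0 + (s - s0)‖ := by congr 1; abel
          _ ≤ ‖s0‖ + ‖s - s0‖ := norm_add_le _ _
          _ ≤ 2 * r + 5 := by linarith
      · change T C (-s) * h ∈ E v ρ₀ (1 / 2) 1 3
        rw [mem_E, rn_row C, rn_row C, row0_T, row1_T]
        refine ⟨h1, h2, ?_, (mem_O_Phi C ρ₀ _ h).2 h4⟩
        calc ‖row C h 1 + (-s) • row C h 0‖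
            = ‖(row C h 1 - s0 • row C h 0) - (s - s0) • row C h 0‖ := by
              congr 1
              rw [sub_smul, neg_smul]
              abel
          _ ≤ ‖row C h 1 - s0 • row C h 0‖ + ‖(s - s0) • row C h 0‖ := norm_sub_le _ _
          _ ≤ 2 + 1 * 1 := by
              rw [_root_.norm_smul]
              have := mul_le_mul hs h2 hnpos.le zero_le_one
              linarith
          _ = 3 := by norm_num
    calc β = lam (Metric.closedBall s0 1) := by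
          rw [Measure.addHaar_closedBall lam s0 zero_le_one]
          simp [hβ]
      _ ≤ _ := measure_mono hsub
  have h5 : β * mu K (E v ρ₀ (1 / 2) 1 r) ≤
      β * (ENNReal.ofReal ((2 * r + 5) ^ v.mult) * mu K (E v ρ₀ (1 / 2) 1 3)) := by
    calc β * mu K (E v ρ₀ (1 / 2) 1 r) = ∫⁻ _ in E v ρ₀ (1 / 2) 1 r, β ∂(mu K) := by
          rw [setLIntegral_const]
      _ ≤ ∫⁻ h in E v ρ₀ (1 / 2) 1 r, lam (B ∩ {s | T C (-s) * h ∈ E v ρ₀ (1 / 2) 1 3}) ∂(mu K) :=
          setLIntegral_mono' (meas_E ρ₀ _ _ _) hkey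
      _ ≤ ∫⁻ h, lam (B ∩ {s | T C (-s) * h ∈ E v ρ₀ (1 / 2) 1 3}) ∂(mu K) := setLIntegral_le_lintegral _ _
      _ = lam B * mu K (E v ρ₀ (1 / 2) 1 3) := hf
      _ = β * (ENNReal.ofReal ((2 * r + 5) ^ v.mult) * mu K (E v ρ₀ (1 / 2) 1 3)) := by
          rw [hlB]
          ring
  exact (ENNReal.mul_le_mul_iff_right hβ0 hβt).1 h5

include C in
lemma lowerE (ρ₀ r : ℝ) (hr : 3 ≤ r) :
    ENNReal.ofReal ((r - 3) ^ v.mult) * mu K (E v ρ₀ (1 / 2) 1 3) ≤
      ENNReal.ofReal (12 ^ v.mult) * mu K (E v ρ₀ (1 / 2) 1 r) := by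
  classical
  set lam : Measure 𝕜 := Measure.addHaar with hlam
  set β := lam (Metric.ball 0 1) with hβ
  have hβ0 : β ≠ 0 := (Metric.measure_ball_pos lam 0 one_pos).ne'
  have hβt : β ≠ ∞ := measure_ball_lt_top.ne
  set B : Set 𝕜 := Metric.closedBall 0 (r - 3) with hB
  have hlB : lam B = ENNReal.ofReal ((r - 3) ^ v.mult) * β := by
    rw [hB, Measure.addHaar_closedBall lam 0 (by linarith), C.rank]
  have hf := fub C lam B measurableSet_closedBall (E v ρ₀ (1 / 2) 1 3) (meas_E ρ₀ _ _ _)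
  have hkey : ∀ h : GG K, lam (B ∩ {s | T C (-s) * h ∈ E v ρ₀ (1 / 2) 1 3}) ≤
      (E v ρ₀ (1 / 2) 1 r).indicator (fun _ => ENNReal.ofReal (12 ^ v.mult) * β) h := by
    intro h
    by_cases hne : (B ∩ {s | T C (-s) * h ∈ E v ρ₀ (1 / 2) 1 3}).Nonempty
    · obtain ⟨s1, hs1, hs1'⟩ := hne
      change T C (-s1) * h ∈ E v ρ₀ (1 / 2) 1 3 at hs1'
      rw [mem_E, rn_row C, rn_row C, row0_T, row1_T] at hs1'
      obtain ⟨h1, h2, h3, h4⟩ := hs1'
      rw [hB, mem_closedBall_zero_iff] at hs1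
      have h4' : h ∈ O v ρ₀ := (mem_O_Phi C ρ₀ _ h).1 h4
      have hmem : h ∈ E v ρ₀ (1 / 2) 1 r := by
        rw [mem_E, rn_row C, rn_row C]
        refine ⟨h1, h2, ?_, h4'⟩
        calc ‖row C h 1‖ = ‖(row C h 1 + (-s1) • row C h 0) + s1 • row C h 0‖ := by
              congr 1
              rw [neg_smul]
              abel
          _ ≤ ‖row C h 1 + (-s1) • row C h 0‖ + ‖s1 • row C h 0‖ := norm_add_le _ _
          _ ≤ 3 + (r - 3) * 1 := by
              rw [_root_.norm_smul]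
              have := mul_le_mul hs1 h2 (norm_nonneg _) (by linarith)
              linarith
          _ = r := by ring
      rw [Set.indicator_of_mem hmem]
      have hsub : B ∩ {s | T C (-s) * h ∈ E v ρ₀ (1 / 2) 1 3} ⊆ Metric.closedBall s1 12 := by
        rintro s ⟨hs, hs'⟩
        change T C (-s) * h ∈ E v ρ₀ (1 / 2) 1 3 at hs'
        rw [mem_E, rn_row C, rn_row C, row0_T, row1_T] at hs'
        obtain ⟨_, _, h3', _⟩ := hs'
        rw [Metric.mem_closedBall, dist_eq_norm]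
        have e1 : ‖s - s1‖ * ‖row C h 0‖ ≤ 6 := by
          calc ‖s - s1‖ * ‖row C h 0‖ = ‖(s - s1) • row C h 0‖ := by rw [_root_.norm_smul]
            _ = ‖(row C h 1 + (-s1) • row C h 0) - (row C h 1 + (-s) • row C h 0)‖ := by
              congr 1
              rw [neg_smul, neg_smul, sub_smul]
              abel
            _ ≤ ‖row C h 1 + (-s1) • row C h 0‖ + ‖row C h 1 + (-s) • row C h 0‖ := norm_sub_le _ _
            _ ≤ 6 := by linarith
        have e2 : 0 ≤ ‖s - s1‖ := norm_nonneg _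
        by_contra hcon
        push Not at hcon
        nlinarith
      calc lam (B ∩ {s | T C (-s) * h ∈ E v ρ₀ (1 / 2) 1 3}) ≤ lam (Metric.closedBall s1 12) := measure_mono hsub
        _ = ENNReal.ofReal (12 ^ v.mult) * β := by
            rw [Measure.addHaar_closedBall lam s1 (by norm_num), C.rank]
    · rw [Set.not_nonempty_iff_eq_empty] at hne
      rw [hne, measure_empty]
      exact zero_le
  have h5 : β * (ENNReal.ofReal ((r - 3) ^ v.mult) * mu K (E v ρ₀ (1 / 2) 1 3)) ≤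
      β * (ENNReal.ofReal (12 ^ v.mult) * mu K (E v ρ₀ (1 / 2) 1 r)) := by
    calc β * (ENNReal.ofReal ((r - 3) ^ v.mult) * mu K (E v ρ₀ (1 / 2) 1 3))
        = lam B * mu K (E v ρ₀ (1 / 2) 1 3) := by rw [hlB]; ring
      _ = ∫⁻ h, lam (B ∩ {s | T C (-s) * h ∈ E v ρ₀ (1 / 2) 1 3}) ∂(mu K) := hf.symm
      _ ≤ ∫⁻ h, (E v ρ₀ (1 / 2) 1 r).indicator (fun _ => ENNReal.ofReal (12 ^ v.mult) * β) h ∂(mu K) :=
          lintegral_mono hkey
      _ = β * (ENNReal.ofReal (12 ^ v.mult) * mu K (E v ρ₀ (1 / 2) 1 r)) := by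
          rw [lintegral_indicator_const (meas_E ρ₀ _ _ _)]
          ring
  exact (ENNReal.mul_le_mul_iff_right hβ0 hβt).1 h5

include C in
/-- scaling -/
lemma scaleE (ρ₀ a b r t : ℝ) (ht : 0 < t) :
    mu K (E v ρ₀ (a * t) (b * t) r) = mu K (E v ρ₀ a b (r * t)) := by
  have ht' : ((t : ℝ) : 𝕜) ≠ 0 := by exact_mod_cast ht.ne'
  have ht'' : ((t⁻¹ : ℝ) : 𝕜) ≠ 0 := by exact_mod_cast (inv_pos.2 ht).ne'
  have hpre : (fun h => Phi C (dg ((t⁻¹ : ℝ) : 𝕜) ht'') * h) ⁻¹' (E v ρ₀ a b (r * t)) =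
      E v ρ₀ (a * t) (b * t) r := by
    ext h
    change Phi C (dg ((t⁻¹ : ℝ) : 𝕜) ht'') * h ∈ E v ρ₀ a b (r * t) ↔ _
    rw [mem_E, mem_E, rn_row C, rn_row C, rn_row C, rn_row C, row0_dg, row1_dg, _root_.norm_smul,
      _root_.norm_smul, norm_inv, RCLike.norm_ofReal, abs_of_pos (inv_pos.2 ht), inv_inv, mem_O_Phi]
    have e1 : a ≤ t⁻¹ * ‖row C h 0‖ ↔ a * t ≤ ‖row C h 0‖ := by
      rw [inv_mul_eq_div, le_div_iff₀ ht]
    have e2 : t⁻¹ * ‖row C h 0‖ ≤ b ↔ ‖row C h 0‖ ≤ b * t := by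
      rw [inv_mul_eq_div, div_le_iff₀ ht]
    have e3 : t * ‖row C h 1‖ ≤ r * t ↔ ‖row C h 1‖ ≤ r := by
      rw [mul_comm r t, mul_le_mul_iff_right₀ ht]
    rw [e1, e2, e3]
  rw [← hpre, measure_preimage_mul]

end est

end VolPkg

end Pool.Agent.T2h77
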